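import Pool.Agent.MP_8c1b0d_co.CT

-- part MP_8c1b0d_co.RI.Defs
section

set_option autoImplicit false
set_option linter.unusedSectionVars false
open Finset Function

namespace Pool.Agent.MP_8c1b0d_co.RI

/-- a cubic multigraph: the darts at `v` are `(v, 0), (v, 1), (v, 2)`, `e` reverses a dart -/
structure CG (V : Type) where
  e : V × Fin 3 → V × Fin 3
  ee : ∀ d, e (e d) = d
  ne : ∀ d, e d ≠ d

/-- the two face labels along a dart; `op d` is the label of the corner opposite to `d` -/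
def prs {V : Type} (op : V × Fin 3 → ℕ) (d : V × Fin 3) : Sym2 ℕ :=
  s(op (d.1, d.2 + 1), op (d.1, d.2 + 2))

/-- kinds of local states: ordinary mixed, crossed, short-circuited, pure -/
inductive Tp
  | V
  | C
  | S
  | P
  deriving DecidableEq, Fintype

/-- Local state of a vertex. Mixed kinds: `a` is the X dart (red on level `false`), `m` the mono
dart of colour `k`, the third dart is the Y dart. Pure kind: both copies of `m` have colour `k` and
are joined by the rung, the other two darts have colour `!k`. -/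
structure LS where
  a : Fin 3
  m : Fin 3
  k : Bool
  t : Tp
  deriving DecidableEq, Fintype

namespace LS
variable (s : LS)
def b : Fin 3 := -(s.a + s.m)
/-- colour of a port (dart index, level) -/
def cl (x : Fin 3 × Bool) : Bool :=
  if x.1 = s.m then s.k else if s.t = .P then !s.k else if x.1 = s.a then !x.2 else x.2
/-- the pairing of the six ports -/
def mu (x : Fin 3 × Bool) : Fin 3 × Bool :=
  if s.t = .P then (if x.1 = s.m then (x.1, !x.2) else (-(s.m + x.1), x.2))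
  else if x.1 = s.m then
    (if s.t = .V then (if x.2 = s.k then s.b else s.a, x.2)
    else if s.t = .C then (if x.2 = s.k then s.a else s.b, !x.2) else (s.m, !x.2))
  else if s.cl x ≠ s.k then (-(s.m + x.1), !x.2)
  else if s.t = .V then (s.m, x.2) else if s.t = .C then (s.m, !x.2) else (-(s.m + x.1), !x.2)
/-- renumbering of the darts -/
def map (ψ : Equiv.Perm (Fin 3)) : LS := ⟨ψ s.a, ψ s.m, s.k, s.t⟩
/-- edge colour of a dart of a mixed state: X = 0, Y = 1, mono = 2 -/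
def ty (i : Fin 3) : Fin 3 :=
  if s.cl (i, false) = s.cl (i, true) then 2 else if s.cl (i, false) then 0 else 1
/-- the state with the colour of the mono dart `i` changed (for a live end) -/
def switch (i : Fin 3) : LS :=
  if s.t = .P then ⟨i, -(s.m + i), !s.k, .P⟩ else ⟨s.a, s.m, !s.k, s.t⟩
end LS

/-- `new` may replace `old` at a vertex that is not the root -/
def Tp.Adm (new old : Tp) : Prop :=
  (old = .V → new = .V) ∧ (old = .P → new = .V ∨ new = .P) ∧ (old ≠ .P → new ≠ .P)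

section
variable {V : Type}

/-- colour of a port (dart, level) -/
def cP (s : V → LS) (p : (V × Fin 3) × Bool) : Bool := (s p.1.1).cl (p.1.2, p.2)
/-- the pairing of the ports at the vertices -/
def mP (s : V → LS) (p : (V × Fin 3) × Bool) : (V × Fin 3) × Bool :=
  ((p.1.1, ((s p.1.1).mu (p.1.2, p.2)).1), ((s p.1.1).mu (p.1.2, p.2)).2)
def CG.eP (G : CG V) (p : (V × Fin 3) × Bool) : (V × Fin 3) × Bool := (G.e p.1, p.2)

/-- inside `U` every colour class is one orbit -/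
def Conn {T : Type} (e m : T → T) (c : T → Bool) (U : T → Prop) : Prop :=
  ∀ Q : T → Prop, (∀ p, U p → Q p → Q (e p)) → (∀ p, U p → Q p → Q (m p)) →
    ∀ p q, U p → U q → c p = c q → Q p → Q q

/-- one red and one blue circuit -/
structure Sol (G : CG V) (s : V → LS) : Prop where
  ok : ∀ v, (s v).a ≠ (s v).m
  col : ∀ p, cP s (G.eP p) = cP s p
  conn : Conn G.eP (mP s) (cP s) fun _ => True

/-- marked vertices are mixed (of any kind), the others are ordinary vertices -/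
def Fits (M : Finset V) (r : V) (s : V → LS) : Prop :=
  ∀ v, v ≠ r → (v ∈ M → (s v).t ≠ .P) ∧ (v ∉ M → (s v).t = .V ∨ (s v).t = .P)

/-- the induction statement -/
def IND (G : CG V) : Prop := ∀ (r : V) (σ : LS) (M : Finset V), σ.a ≠ σ.m → σ.t ≠ .P →
  ∃ s, Sol G s ∧ s r = σ ∧ Fits M r s

/-- weak form of its conclusion -/
def INDw (G : CG V) (r : V) (σ : LS) (M : Finset V) : Prop :=
  ∃ s, Sol G s ∧ (s r).m = σ.m ∧ (s r).t = σ.t ∧ Fits M r s

/-- proper 3-edge-colouring -/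
def CG.Col (G : CG V) (c : V × Fin 3 → Fin 3) : Prop :=
  (∀ d, c (G.e d) = c d) ∧ ∀ v i j, c (v, i) = c (v, j) → i = j

/-- proper 3-edge-colouring of the pole `P` -/
def CG.PCol (G : CG V) (P : Finset V) (c : V × Fin 3 → Fin 3) : Prop :=
  (∀ d, d.1 ∈ P → (G.e d).1 ∈ P → c (G.e d) = c d) ∧
    ∀ v ∈ P, ∀ i j, c (v, i) = c (v, j) → i = j

/-- The side `A` in state `s`, cut open at the darts `B`, joins the ports of `B` along `ρ`, and
every port of `A` is joined to a port of `B`. -/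
structure Out (G : CG V) (A : Finset V) (B : Finset (V × Fin 3)) (s : V → LS)
    (ρ : (V × Fin 3) × Bool → (V × Fin 3) × Bool) : Prop where
  sub : ∀ d ∈ B, d.1 ∈ A
  inn : ∀ d, d.1 ∈ A → d ∉ B → (G.e d).1 ∈ A ∧ G.e d ∉ B
  ok : ∀ v ∈ A, (s v).a ≠ (s v).m
  col : ∀ p, p.1.1 ∈ A → p.1 ∉ B → cP s (G.eP p) = cP s p
  inv : ∀ p, p.1 ∈ B → (ρ p).1 ∈ B ∧ ρ (ρ p) = p ∧ ρ p ≠ p ∧ cP s (ρ p) = cP s p
  con : ∀ Q : (V × Fin 3) × Bool → Prop, (∀ p, p.1.1 ∈ A → p.1 ∉ B → Q p → Q (G.eP p)) →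
    (∀ p, p.1.1 ∈ A → Q p → Q (mP s p)) → (∀ p, p.1 ∈ B → Q p → Q (ρ p)) ∧
      ∀ κ, (∀ p, p.1 ∈ B → cP s p = κ → Q p) → ∀ p, p.1.1 ∈ A → cP s p = κ → Q p

/-- the reduced system: the side `A` is replaced by the pairing `ρ` -/
structure Red [DecidableEq V] (G : CG V) (A : Finset V) (B : Finset (V × Fin 3)) (s : V → LS)
    (ρ : (V × Fin 3) × Bool → (V × Fin 3) × Bool) : Prop where
  ok : ∀ v ∉ A, (s v).a ≠ (s v).m
  col : ∀ p, (p.1.1 ∉ A ∨ p.1 ∈ B) → cP s (G.eP p) = cP s p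
  conn : Conn G.eP (fun p => if p.1 ∈ B then ρ p else mP s p) (cP s)
    fun p => p.1.1 ∉ A ∨ p.1 ∈ B

/-- `G` on `A` and `G'` on `A'` agree -/
structure Share {V' : Type} (G : CG V) (A : Finset V) (G' : CG V') (A' : Finset V') (ι : V → V') :
    Prop where
  inj : Set.InjOn ι A
  img : ∀ v', v' ∈ A' ↔ ∃ v ∈ A, ι v = v'
  inner : ∀ d, d.1 ∈ A → (G.e d).1 ∈ A → G'.e (ι d.1, d.2) = (ι (G.e d).1, (G.e d).2)
  leg : ∀ d, d.1 ∈ A → (G.e d).1 ∉ A → (G'.e (ι d.1, d.2)).1 ∉ A'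

/-- darts of a small pole with `p` vertices and `k` boundary darts -/
abbrev D0 (p k : ℕ) : Type := (Fin p × Fin 3) ⊕ Fin k

def real {p k : ℕ} (q : Fin p → V) (ψ : Fin p → Equiv.Perm (Fin 3)) (b : Fin k → V × Fin 3) :
    D0 p k → V × Fin 3 := Sum.elim (fun y => (q y.1, ψ y.1 y.2)) b

/-- outside `A` the graph is the small pole `e0` -/
structure Chart {p k : ℕ} (G : CG V) (A : Finset V) (e0 : D0 p k → D0 p k) (q : Fin p → V)
    (ψ : Fin p → Equiv.Perm (Fin 3)) (b : Fin k → V × Fin 3) : Prop where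
  q_inj : Injective q
  q_mem : ∀ v, v ∉ A ↔ ∃ j, q j = v
  b_inj : Injective b
  b_mem : ∀ i, (b i).1 ∈ A
  hom : ∀ x, G.e (real q ψ b x) = real q ψ b (e0 x)

/-- `G'` is the side `A` of `G`, with legs `l`, glued to the gadget `η` -/
structure Glue {V' : Type} {w k : ℕ} (G : CG V) (A : Finset V) (l : Fin k → V × Fin 3)
    (η : D0 w k → D0 w k) (G' : CG V') (ι : V → V') (ω : Fin w → V') : Prop where
  ι_inj : Set.InjOn ι A
  ω_inj : Injective ω
  disj : ∀ v ∈ A, ∀ j, ι v ≠ ω j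
  cover : ∀ v', (∃ v ∈ A, ι v = v') ∨ ∃ j, ω j = v'
  inner : ∀ d, d.1 ∈ A → (G.e d).1 ∈ A → G'.e (ι d.1, d.2) = (ι (G.e d).1, (G.e d).2)
  gad : ∀ x, G'.e (real ω (fun _ => 1) (fun i => (ι (l i).1, (l i).2)) x) =
    real ω (fun _ => 1) (fun i => (ι (l i).1, (l i).2)) (η x)
end

section
variable {p k : ℕ}
def c0 (s0 : Fin p → LS) (cB : Fin k × Bool → Bool) : D0 p k × Bool → Bool
  | (.inl y, l) => (s0 y.1).cl (y.2, l)
  | (.inr i, l) => cB (i, l)
def m0 (s0 : Fin p → LS) (ρ : Fin k × Bool → Fin k × Bool) : D0 p k × Bool → D0 p k × Bool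
  | (.inl y, l) => (.inl (y.1, ((s0 y.1).mu (y.2, l)).1), ((s0 y.1).mu (y.2, l)).2)
  | (.inr i, l) => (.inr (ρ (i, l)).1, (ρ (i, l)).2)
/-- the small pole in state `s0` closes the boundary pairing `ρ` -/
def LG (e0 : D0 p k → D0 p k) (s0 : Fin p → LS) (cB : Fin k × Bool → Bool)
    (ρ : Fin k × Bool → Fin k × Bool) : Prop :=
  (∀ x : D0 p k × Bool, c0 s0 cB (e0 x.1, x.2) = c0 s0 cB x) ∧
    Conn (fun x : D0 p k × Bool => (e0 x.1, x.2)) (m0 s0 ρ) (c0 s0 cB) fun _ => True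
def Pairing (cB : Fin k × Bool → Bool) (ρ : Fin k × Bool → Fin k × Bool) : Prop :=
  ∀ x, ρ (ρ x) = x ∧ ρ x ≠ x ∧ cB (ρ x) = cB x
/-- the leg colouring `γ` extends to the gadget -/
def Ext (η : D0 p k → D0 p k) (γ : Fin k → Fin 3) : Prop :=
  ∃ c : D0 p k → Fin 3, (∀ x, c (η x) = c x) ∧
    (∀ j i i', c (.inl (j, i)) = c (.inl (j, i')) → i = i') ∧ ∀ i, c (.inr i) = γ i
end

/-- one vertex -/
def eY : D0 1 3 → D0 1 3
  | .inl y => .inr y.2
  | .inr i => .inl (0, i)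
/-- an edge; legs `0, 1` at vertex `0`, legs `2, 3` at vertex `1` -/
def eH : D0 2 4 → D0 2 4
  | .inl y => if y.2 = 2 then .inl (y.1 + 1, 2) else .inr (![![0, 1, 0], ![2, 3, 0]] y.1 y.2)
  | .inr i => .inl (![(0, 0), (0, 1), (1, 0), (1, 1)] i)
/-- a 4-cycle: dart `0` is the leg, dart `1` goes to the next vertex -/
def eQ : D0 4 4 → D0 4 4
  | .inl y => if y.2 = 0 then .inr y.1 else if y.2 = 1 then .inl (y.1 + 1, 2) else .inl (y.1 - 1, 1)
  | .inr i => .inl (i, 0)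
/-- two free edges: legs `0, 3` and legs `1, 2` are joined -/
def eR : D0 0 4 → D0 0 4
  | .inl y => y.1.elim0
  | .inr i => .inr (3 - i)
/-- the edge between the far ends `0, 1` (dart `0`) and the free edge `4, 5` -/
def eR2 : D0 2 6 → D0 2 6
  | .inl y => if y.2 = 0 then .inl (y.1 + 1, 0) else .inr (![![0, 0, 1], ![0, 2, 3]] y.1 y.2)
  | .inr i => ![.inl (0, 1), .inl (0, 2), .inl (1, 1), .inl (1, 2), .inr 5, .inr 4] i
/-- the 4-cycle `0 1 2 3` with the far ends `4` (of `0`) and `5` (of `3`) -/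
def eQ2 : D0 6 6 → D0 6 6
  | .inl y => ![![.inl (4, 0), .inl (1, 2), .inl (3, 1)], ![.inr 4, .inl (2, 2), .inl (0, 1)],
      ![.inr 5, .inl (3, 2), .inl (1, 1)], ![.inl (5, 0), .inl (0, 2), .inl (2, 1)],
      ![.inl (0, 0), .inr 0, .inr 1], ![.inl (3, 0), .inr 2, .inr 3]] y.1 y.2
  | .inr i => ![.inl (4, 1), .inl (4, 2), .inl (5, 1), .inl (5, 2), .inl (1, 0), .inl (2, 0)] i
/-- the complete graph on four vertices -/
def eK : D0 4 0 → D0 4 0
  | .inl y => .inl (![![(1, 0), (2, 1), (3, 2)], ![(0, 0), (3, 1), (2, 2)],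
      ![(3, 0), (0, 1), (1, 2)], ![(2, 0), (1, 1), (0, 2)]] y.1 y.2)
  | .inr i => i.elim0
/-- the cube: 4-cycles `0 1 2 3` and `4 5 6 7`, dart `0` joins `j` and `j + 4` -/
def eC : D0 8 0 → D0 8 0
  | .inl y => .inl (![![(4, 0), (1, 2), (3, 1)], ![(5, 0), (2, 2), (0, 1)],
      ![(6, 0), (3, 2), (1, 1)], ![(7, 0), (0, 2), (2, 1)], ![(0, 0), (5, 2), (7, 1)],
      ![(1, 0), (6, 2), (4, 1)], ![(2, 0), (7, 2), (5, 1)], ![(3, 0), (4, 2), (6, 1)]] y.1 y.2)
  | .inr i => i.elim0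

namespace CG
variable {V : Type} [Fintype V] [DecidableEq V] (G : CG V)

/-- darts leaving `S` -/
def bd (S : Finset V) : Finset (V × Fin 3) := {d | d.1 ∈ S ∧ (G.e d).1 ∉ S}
def cut (S : Finset V) : ℕ := #(G.bd S)
def EC3 : Prop := ∀ S : Finset V, S.Nonempty → Sᶜ.Nonempty → 3 ≤ G.cut S
def C4 : Prop := ∀ S : Finset V, G.cut S ≤ 3 → #S ≤ 1 ∨ #Sᶜ ≤ 1
def IC5 (P : Finset V) : Prop := ∀ S ⊆ P, G.cut S ≤ 4 → #S ≤ 2 ∨ S = P

/-- face labels -/
structure Lab (op : V × Fin 3 → ℕ) : Prop where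
  mat : ∀ d, prs op (G.e d) = prs op d
  cnt : Fintype.card V + 4 ≤ 2 * #(univ.image op)
def Plane : Prop := ∃ op, G.Lab op

/-- `l` enumerates the darts leaving `A` -/
structure Legs {k : ℕ} (A : Finset V) (l : Fin k → V × Fin 3) : Prop where
  inj : Injective l
  mem : ∀ d, d ∈ G.bd A ↔ ∃ i, l i = d

/-- the legs in cyclic order -/
structure Cyc {k : ℕ} [NeZero k] (op : V × Fin 3 → ℕ) (A : Finset V) (l : Fin k → V × Fin 3)
    (b : Fin k → ℕ) : Prop where
  legs : G.Legs A l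
  b_inj : Injective b
  pr : ∀ i, prs op (l i) = s(b i, b (i + 1))

/-- every leg colouring of the gadget extends to the pole -/
def Full {w k : ℕ} (P : Finset V) (l : Fin k → V × Fin 3) (η : D0 w k → D0 w k) : Prop :=
  ∀ γ, Ext η γ → ∃ c, G.PCol P c ∧ ∀ i, c (l i) = γ i

/-- `G` represents the simple graph `H` -/
structure Rep (H : SimpleGraph V) : Prop where
  adj : ∀ d, H.Adj d.1 (G.e d).1
  ex : ∀ u v, H.Adj u v → ∃ i, (G.e (u, i)).1 = v
  inj : ∀ v i j, (G.e (v, i)).1 = (G.e (v, j)).1 → i = j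
end CG

/-- the four colour theorem for 3-edge-connected cubic maps -/
def H4 : Prop := ∀ (V : Type) [Fintype V] [DecidableEq V] (G : CG V), 4 ≤ Fintype.card V →
  G.EC3 → G.Plane → ∃ c, G.Col c

/-- colour `0, 1, 2` is `x, y, m` -/
def kk : Fin 3 → Option Bool := ![some false, some true, none]

section
variable {V : Type} [Fintype V] [DecidableEq V]

/-- terminals of the pole `P` -/
def Tm (t : Tri V) (P live : Finset V) (h : V × Bool) : Prop :=
  (h.1 ∈ P ∧ (t.o h).1 ∉ P) ∨ h.1 ∈ live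

/-- the outside of the pole `P`: live ends and one pairing of the terminals for each colour -/
structure Env (t : Tri V) (P live : Finset V) (τ : Bool → V × Bool → V × Bool) : Prop where
  live_sub : ∀ u ∈ live, u ∈ P ∧ t.m u ∉ P
  inv : ∀ κ h, Tm t P live h → Tm t P live (τ κ h) ∧ τ κ (τ κ h) = h ∧ τ κ h ≠ h
  valid : ∃ lam : V → Bool, ∀ (κ : Bool) (Z : Finset (V × Bool)),
    (∀ z ∈ Z, z.1 ∈ live ∧ lam z.1 ≠ κ ∧ τ κ z ∈ Z ∧ (z.1, !z.2) ∈ Z) → Z = ∅

/-- the pole in the colouring `t` with `m`-edges coloured by `r` closes the outside -/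
structure Closes (t : Tri V) (P live : Finset V) (τ : Bool → V × Bool → V × Bool) (r : V → Bool) :
    Prop where
  rm : ∀ v ∈ P, t.m v ∈ P → r (t.m v) = r v
  one : ∀ (κ : Bool) (g g' : V × Bool → ZMod 2),
    (∀ h, h.1 ∈ P → (t.o h).1 ∈ P → g (t.o h) = g h) →
    (∀ v ∈ P, t.m v ∈ P → (r v = κ → ∀ c, g (t.m v, c) = g (v, c)) ∧
      (r v ≠ κ → g (v, true) = g (v, false))) →
    (∀ v ∈ P, t.m v ∉ P → v ∉ live → g (v, true) = g (v, false)) →
    (∀ u ∈ live, (r u = κ → ∀ c, g' (u, c) = g (u, c)) ∧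
      (r u ≠ κ → g (u, true) = g (u, false) ∧ g' (u, true) = g' (u, false))) →
    (∀ h, Tm t P live h → (if (τ κ h).1 ∈ live then g' (τ κ h) else g (τ κ h)) =
      if h.1 ∈ live then g' h else g h) →
    ∃ d, (∀ h, h.1 ∈ P → g h = d) ∧ ∀ h, h.1 ∈ live → g' h = d
end

/-- the pole theorem -/
def Close : Prop := ∀ (V Φ : Type) [Fintype V] [DecidableEq V] [Fintype Φ] (c : ColF V Φ)
  (g : c.Geo) (P : Finset V), 2 * Fintype.card Φ = Fintype.card V + 4 →
  (∀ S : Finset V, S.Nonempty → Sᶜ.Nonempty → 3 ≤ (c.tri g).cut S) →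
  (c.tri g).cut P = 4 → 6 ≤ #P → (∀ S ⊆ P, (c.tri g).cut S ≤ 4 → #S ≤ 2 ∨ S = P) →
  (#Pᶜ = 2 ∨ (#Pᶜ = 4 ∧ ∀ v ∉ P, ∃ k, (c.tri g).nb k v ∈ P)) →
  ∀ (live : Finset V) (τ : Bool → V × Bool → V × Bool), Env (c.tri g) P live τ →
  ∃ t' : Tri V, (∀ u v, t'.Adj u v ↔ (c.tri g).Adj u v) ∧
    (∀ v ∉ P, ∀ k, t'.nb k v = (c.tri g).nb k v) ∧ ∃ r, Closes t' P live τ r

/-- colour of the `x`- and `y`-edges -/
def cb (b : Bool) : Fin 3 := if b then 1 else 0

section
variable {V : Type} [Fintype V] [DecidableEq V]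

/-- `Tm` for a pole given by darts and a colouring -/
def TmD (G : CG V) (P : Finset V) (c : V × Fin 3 → Fin 3) (live : Finset V) (h : V × Bool) : Prop :=
  (h.1 ∈ P ∧ ∃ i, c (h.1, i) = cb h.2 ∧ (G.e (h.1, i)).1 ∉ P) ∨ h.1 ∈ live

structure EnvD (G : CG V) (P : Finset V) (c : V × Fin 3 → Fin 3) (live : Finset V)
    (τ : Bool → V × Bool → V × Bool) : Prop where
  live_sub : ∀ u ∈ live, u ∈ P ∧ ∃ i, c (u, i) = 2 ∧ (G.e (u, i)).1 ∉ P
  inv : ∀ κ h, TmD G P c live h → TmD G P c live (τ κ h) ∧ τ κ (τ κ h) = h ∧ τ κ h ≠ h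
  valid : ∃ lam : V → Bool, ∀ (κ : Bool) (Z : Finset (V × Bool)),
    (∀ z ∈ Z, z.1 ∈ live ∧ lam z.1 ≠ κ ∧ τ κ z ∈ Z ∧ (z.1, !z.2) ∈ Z) → Z = ∅

structure ClosesD (G : CG V) (P : Finset V) (c : V × Fin 3 → Fin 3) (live : Finset V)
    (τ : Bool → V × Bool → V × Bool) (r : V → Bool) : Prop where
  rm : ∀ d, d.1 ∈ P → (G.e d).1 ∈ P → c d = 2 → r (G.e d).1 = r d.1
  one : ∀ (κ : Bool) (g g' : V × Bool → ZMod 2),
    (∀ d b, d.1 ∈ P → (G.e d).1 ∈ P → c d = cb b → g ((G.e d).1, b) = g (d.1, b)) →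
    (∀ d, d.1 ∈ P → (G.e d).1 ∈ P → c d = 2 →
      (r d.1 = κ → ∀ b, g ((G.e d).1, b) = g (d.1, b)) ∧
      (r d.1 ≠ κ → g (d.1, true) = g (d.1, false))) →
    (∀ d, d.1 ∈ P → (G.e d).1 ∉ P → c d = 2 → d.1 ∉ live → g (d.1, true) = g (d.1, false)) →
    (∀ u ∈ live, (r u = κ → ∀ b, g' (u, b) = g (u, b)) ∧
      (r u ≠ κ → g (u, true) = g (u, false) ∧ g' (u, true) = g' (u, false))) →
    (∀ h, TmD G P c live h → (if (τ κ h).1 ∈ live then g' (τ κ h) else g (τ κ h)) =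
      if h.1 ∈ live then g' h else g h) →
    ∃ d, (∀ h, h.1 ∈ P → g h = d) ∧ ∀ h, h.1 ∈ live → g' h = d

/-- the pole `P` with the leg colours of `c` closes every outside -/
def PoleD (G : CG V) (P : Finset V) (c : V × Fin 3 → Fin 3) : Prop :=
  ∀ live τ, EnvD G P c live τ → ∃ c', G.PCol P c' ∧ (∀ d ∈ G.bd P, c' d = c d) ∧
    ∃ r, ClosesD G P c' live τ r
end

end Pool.Agent.MP_8c1b0d_co.RI

end

-- part MP_8c1b0d_co.RI.PA
section

section
set_option autoImplicit false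
set_option linter.unusedSectionVars false
open Finset Function

namespace Pool.Agent.MP_8c1b0d_co.RI
variable {V V' : Type} [Fintype V] [DecidableEq V] [Fintype V'] [DecidableEq V'] {G : CG V}
  {G' : CG V'}

namespace LS
theorem mu_mu (s : LS) (h : s.a ≠ s.m) (x : Fin 3 × Bool) : s.mu (s.mu x) = x := by
  revert s x; decide +kernel
theorem mu_ne (s : LS) (h : s.a ≠ s.m) (x : Fin 3 × Bool) : s.mu x ≠ x := by
  revert s x; decide +kernel
theorem cl_mu (s : LS) (h : s.a ≠ s.m) (x : Fin 3 × Bool) : s.cl (s.mu x) = s.cl x := by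
  revert s x; decide +kernel
theorem cl_map (s : LS) (ψ : Equiv.Perm (Fin 3)) (x : Fin 3 × Bool) :
    (s.map ψ).cl (ψ x.1, x.2) = s.cl x := by
  simp [cl, map]
theorem neg_add_map (ψ : Equiv.Perm (Fin 3)) (a b : Fin 3) (h : a ≠ b) :
    -(ψ a + ψ b) = ψ (-(a + b)) := by
  have key : ∀ a b c : Fin 3, a ≠ b → c ≠ a → c ≠ b → -(a + b) = c := by decide
  have k2 : ∀ a b : Fin 3, a ≠ b → -(a + b) ≠ a ∧ -(a + b) ≠ b := by decide
  exact key _ _ _ (ψ.injective.ne h) (ψ.injective.ne (k2 a b h).1) (ψ.injective.ne (k2 a b h).2)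
theorem mu_map (s : LS) (h : s.a ≠ s.m) (ψ : Equiv.Perm (Fin 3)) (x : Fin 3 × Bool) :
    (s.map ψ).mu (ψ x.1, x.2) = (ψ (s.mu x).1, (s.mu x).2) := by
  have e := s.cl_map ψ x
  have e1 := neg_add_map ψ s.a s.m h
  unfold mu
  rw [e]
  by_cases hx : x.1 = s.m
  · simp only [map, b, hx, if_true, e1]
    split_ifs <;> rfl
  · have e2 := neg_add_map ψ s.m x.1 (Ne.symm hx)
    simp only [map, hx, ψ.injective.eq_iff, if_false, e2]
    split_ifs <;> rfl
theorem map_map (s : LS) (ψ : Equiv.Perm (Fin 3)) : (s.map ψ.symm).map ψ = s := by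
  simp [map]
theorem map_one (s : LS) : s.map 1 = s := rfl
theorem both (s : LS) (κ : Bool) : ∃ x, s.cl x = κ := by
  revert s κ; decide +kernel
/-- the edge colours of a mixed state -/
theorem ty_inj (s : LS) (h : s.a ≠ s.m) (ht : s.t ≠ .P) (i j : Fin 3) (e : s.ty i = s.ty j) :
    i = j := by
  revert s i j; decide +kernel
theorem ty_a (s : LS) (h : s.a ≠ s.m) (ht : s.t ≠ .P) : s.ty s.a = 0 ∧ s.ty s.b = 1 ∧ s.ty s.m = 2 := by
  revert s; decide +kernel
theorem a1_cl (σ : LS) (ht : σ.t ≠ .P) (τ : Tp) (hτ : τ ≠ .P) (x : Fin 3 × Bool) :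
    (⟨σ.a, σ.m, σ.k, τ⟩ : LS).cl x = σ.cl x := by
  simp [cl, ht, hτ]
set_option synthInstance.maxSize 4096 in
theorem a1_ex (σ : LS) (h : σ.a ≠ σ.m) (ht : σ.t ≠ .P) (y : Fin 3 × Bool)
    (h1 : y ≠ (σ.m, false)) (h2 : σ.cl y = σ.cl (σ.m, false)) :
    ∃ τ, τ ≠ Tp.P ∧ y = (⟨σ.a, σ.m, σ.k, τ⟩ : LS).mu (σ.m, false) := by
  revert σ y; decide +kernel
theorem a1_un (σ : LS) (h : σ.a ≠ σ.m) (ht : σ.t ≠ .P) (x y : Fin 3 × Bool)
    (h1 : σ.cl y = σ.cl x) (h2 : y ≠ x) (h3 : x ≠ (σ.m, false)) (h4 : x ≠ σ.mu (σ.m, false))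
    (h5 : y ≠ (σ.m, false)) (h6 : y ≠ σ.mu (σ.m, false)) : y = σ.mu x := by
  revert σ x y; decide +kernel
/-- the three pairings of the ports of a mixed state -/
theorem tau (σ : LS) (h : σ.a ≠ σ.m) (ht : σ.t ≠ .P) (ρ : Fin 3 × Bool → Fin 3 × Bool)
    (hρ : Pairing σ.cl ρ) :
    ∃ τ, τ ≠ Tp.P ∧ ∀ x, ρ x = (⟨σ.a, σ.m, σ.k, τ⟩ : LS).mu x := by
  obtain ⟨τ, hτ, e⟩ := a1_ex σ h ht (ρ (σ.m, false)) (hρ _).2.1 (hρ _).2.2
  refine ⟨τ, hτ, fun x => ?_⟩
  by_cases h3 : x = (σ.m, false)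
  · rw [h3]; exact e
  by_cases h4 : x = ρ (σ.m, false)
  · rw [h4, (hρ _).1, e, mu_mu (⟨σ.a, σ.m, σ.k, τ⟩ : LS) h]
  refine a1_un (⟨σ.a, σ.m, σ.k, τ⟩ : LS) h hτ x (ρ x) ?_ (hρ x).2.1 h3 ?_ ?_ ?_
  · rw [a1_cl σ ht τ hτ, a1_cl σ ht τ hτ]; exact (hρ x).2.2
  · exact fun e' => h4 (e'.trans e.symm)
  · intro e'
    apply h4
    have e2 : ρ x = (σ.m, false) := e'
    rw [← e2, (hρ x).1]
  · intro e'
    apply h3
    have e2 : ρ x = ρ (σ.m, false) := e'.trans e.symm
    rw [← (hρ x).1, e2, (hρ _).1]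
/-- the two symmetries and their product -/
def a1_sym (s : LS) (c d : Bool) : LS := ⟨if d then s.b else s.a, s.m, xor c s.k, s.t⟩
theorem a1_sym_ok (s : LS) (h : s.a ≠ s.m) (c d : Bool) : (s.a1_sym c d).a ≠ (s.a1_sym c d).m := by
  revert s c d; decide +kernel
theorem a1_sym_cl (s : LS) (h : s.a ≠ s.m) (c d : Bool) (x : Fin 3 × Bool) :
    (s.a1_sym c d).cl x = xor c (s.cl (x.1, xor (xor c d) x.2)) := by
  revert s c d x; decide +kernel
theorem a1_sym_mu (s : LS) (h : s.a ≠ s.m) (c d : Bool) (x : Fin 3 × Bool) :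
    (s.a1_sym c d).mu (x.1, xor (xor c d) x.2) = ((s.mu x).1, xor (xor c d) (s.mu x).2) := by
  revert s c d x; decide +kernel
theorem a1_sym_ex (s σ : LS) (h : s.a ≠ s.m) (h1 : σ.a ≠ σ.m) (hm : s.m = σ.m) (ht : s.t = σ.t) :
    ∃ c d, s.a1_sym c d = σ := by
  revert s σ; decide +kernel
end LS

theorem CG.eP_eP (p : (V × Fin 3) × Bool) : G.eP (G.eP p) = p := by
  simp [CG.eP, G.ee]
theorem mP_mP {s : V → LS} {p : (V × Fin 3) × Bool} (h : (s p.1.1).a ≠ (s p.1.1).m) :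
    mP s (mP s p) = p := by
  simp [mP, LS.mu_mu _ h]
theorem mP_ne {s : V → LS} {p : (V × Fin 3) × Bool} (h : (s p.1.1).a ≠ (s p.1.1).m) :
    mP s p ≠ p := fun e => LS.mu_ne _ h (p.1.2, p.2)
  (Prod.ext (congrArg (fun z => z.1.2) e) (congrArg (fun z => z.2) e))
theorem cP_mP {s : V → LS} {p : (V × Fin 3) × Bool} (h : (s p.1.1).a ≠ (s p.1.1).m) :
    cP s (mP s p) = cP s p := LS.cl_mu _ h _

theorem a1_sol {s : V → LS} (hs : Sol G s) (c d : Bool) : Sol G fun v => (s v).a1_sym c d := by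
  have hc : ∀ p : (V × Fin 3) × Bool, cP (fun v => (s v).a1_sym c d) p =
      xor c (cP s (p.1, xor (xor c d) p.2)) := fun p => LS.a1_sym_cl _ (hs.ok _) c d _
  have hm : ∀ p : (V × Fin 3) × Bool, mP (fun v => (s v).a1_sym c d) (p.1, xor (xor c d) p.2) =
      ((mP s p).1, xor (xor c d) (mP s p).2) := by
    intro p
    have e := LS.a1_sym_mu _ (hs.ok p.1.1) c d (p.1.2, p.2)
    simp only [mP]
    simp only at e
    rw [e]
  refine ⟨fun v => LS.a1_sym_ok _ (hs.ok v) c d, fun p => ?_, ?_⟩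
  · rw [hc, hc]
    exact congrArg (xor c) (hs.col (p.1, xor (xor c d) p.2))
  · intro Q h1 h2 p q _ _ e hp
    have k : ∀ b : Bool, xor (xor c d) (xor (xor c d) b) = b := by
      intro b; cases (xor c d) <;> cases b <;> rfl
    have := hs.conn (fun p => Q (p.1, xor (xor c d) p.2))
      (fun p _ h => h1 (p.1, xor (xor c d) p.2) trivial h)
      (fun p _ h => by
        have := h2 (p.1, xor (xor c d) p.2) trivial h
        rw [hm] at this
        exact this)
      (p.1, xor (xor c d) p.2) (q.1, xor (xor c d) q.2) trivial trivial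
      (by
        rw [hc, hc] at e
        exact Bool.xor_right_inj.1 e)
      (by simp only [k]; exact hp)
    simp only [k] at this
    exact this

/-- Exchange of the colours and of the levels (`k` becomes `!k` everywhere, ports `(d, l)` go to
`(d, !l)`), and exchange of the levels (`a` becomes `b` at mixed vertices), turn solutions into
solutions and keep `m` and `t`. -/
theorem INDw.strong {r : V} {σ : LS} {M : Finset V} (h : INDw G r σ M) (h1 : σ.a ≠ σ.m)
    (h2 : σ.t ≠ .P) : ∃ s, Sol G s ∧ s r = σ ∧ Fits M r s := by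
  have _ := h2
  obtain ⟨s, hs, hm, ht, hf⟩ := h
  obtain ⟨c, d, e⟩ := LS.a1_sym_ex (s r) σ (hs.ok r) h1 hm ht
  exact ⟨fun v => (s v).a1_sym c d, a1_sol hs c d, e, hf⟩

end Pool.Agent.MP_8c1b0d_co.RI
end

section
set_option autoImplicit false
set_option linter.unusedSectionVars false
open Finset Function

namespace Pool.Agent.MP_8c1b0d_co.RI
variable {V V' : Type} [Fintype V] [DecidableEq V] [Fintype V'] [DecidableEq V'] {G : CG V}
  {G' : CG V'}

/-- FIRST RETURN. Induction on `#N`, or: `ρ p` is the first element of `B` in the sequence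
`m p, m (e (m p)), ...`. -/
theorem first_return {T : Type} [DecidableEq T] (e m : T → T) (N B : Finset T) (hB : B ⊆ N)
    (hm : ∀ p ∈ N, m p ∈ N ∧ m (m p) = p ∧ m p ≠ p)
    (he : ∀ p ∈ N, p ∉ B → e p ∈ N ∧ e p ∉ B ∧ e (e p) = p ∧ e p ≠ p) :
    ∃ ρ : T → T, (∀ p ∈ B, ρ p ∈ B ∧ ρ (ρ p) = p ∧ ρ p ≠ p) ∧
      (∀ Q : T → Prop, (∀ p ∈ N, p ∉ B → Q p → Q (e p)) → (∀ p ∈ N, Q p → Q (m p)) →
        ∀ p ∈ B, Q p → Q (ρ p)) ∧
      ∀ Z : T → Prop, (∀ p ∈ B, Z p → Z (ρ p)) → ∃ W : T → Prop, (∀ p ∈ B, W p ↔ Z p) ∧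
        (∀ p ∈ N, p ∉ B → W p → W (e p)) ∧ ∀ p ∈ N, W p → W (m p) := by
  induction hn : #N using Nat.strong_induction_on generalizing N m with
  | _ n ih =>
  by_cases hNB : ∀ p ∈ N, p ∈ B
  · refine ⟨m, fun p hp => ?_, fun Q _ h2 p hp => h2 p (hB hp), fun Z hZ => ⟨Z, fun _ _ => Iff.rfl,
      fun p hp hpB => absurd (hNB p hp) hpB, fun p hp => hZ p (hNB p hp)⟩⟩
    obtain ⟨h1, h2, h3⟩ := hm p (hB hp)
    exact ⟨hNB _ h1, h2, h3⟩
  push Not at hNB
  obtain ⟨x, hxN, hxB⟩ := hNB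
  obtain ⟨hyN, hyB, hyx, hxy⟩ := he x hxN hxB
  generalize hy : e x = y at hyN hyB hyx hxy
  obtain ⟨haN, hax, hax'⟩ := hm x hxN
  obtain ⟨hbN, hby, hby'⟩ := hm y hyN
  generalize ha : m x = a at haN hax hax'
  generalize hb : m y = b at hbN hby hby'
  have hab : a ≠ b := fun h => hxy (by rw [← hby, ← h, hax])
  have hay : a = y ↔ b = x := by
    constructor
    · intro h; rw [← hb, ← h, hax]
    · intro h; rw [← ha, ← h, hby]
  have hN' : ∀ p, p ∈ (N.erase x).erase y ↔ p ≠ y ∧ p ≠ x ∧ p ∈ N := by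
    intro p; simp [mem_erase]
  have hlt : #((N.erase x).erase y) < n := by
    rw [← hn]
    exact lt_of_le_of_lt (card_le_card (erase_subset _ _)) (card_erase_lt_of_mem hxN)
  have hmo : ∀ p, p ∈ N → p ≠ a → p ≠ b → m p ≠ x ∧ m p ≠ y := by
    intro p hp h1 h2
    obtain ⟨_, k2, _⟩ := hm p hp
    exact ⟨fun h => h1 (by rw [← k2, h, ha]), fun h => h2 (by rw [← k2, h, hb])⟩
  have hmo2 : ∀ p, p ∈ N → p ≠ x → p ≠ y → m p ≠ a ∧ m p ≠ b := by
    intro p hp h1 h2
    obtain ⟨_, k2, _⟩ := hm p hp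
    exact ⟨fun h => h1 (by rw [← k2, h, hax]), fun h => h2 (by rw [← k2, h, hby])⟩
  have heo : ∀ p, p ∈ N → p ∉ B → p ≠ x → p ≠ y → e p ≠ x ∧ e p ≠ y := by
    intro p hp hpB h1 h2
    obtain ⟨_, _, k2, _⟩ := he p hp hpB
    exact ⟨fun h => h2 (by rw [← k2, h, hy]), fun h => h1 (by rw [← k2, h, hyx])⟩
  obtain ⟨ρ, r1, r2, r3⟩ := ih _ hlt (fun p => if p = a then b else if p = b then a else m p)
    ((N.erase x).erase y)
    (fun p hp => (hN' p).2 ⟨fun h => hyB (h ▸ hp), fun h => hxB (h ▸ hp), hB hp⟩)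
    (by
      intro p hp
      obtain ⟨h1, h2, h3⟩ := (hN' p).1 hp
      by_cases k1 : p = a
      · subst k1
        simp only [if_true, if_neg hab.symm]
        exact ⟨(hN' _).2 ⟨hby', fun h => h1 (hay.2 h), hbN⟩, trivial, hab.symm⟩
      by_cases k2 : p = b
      · subst k2
        simp only [if_neg k1, if_true]
        exact ⟨(hN' _).2 ⟨fun h => h2 (hay.1 h), hax', haN⟩, trivial, hab⟩
      obtain ⟨u1, u2⟩ := hmo p h3 k1 k2
      obtain ⟨v1, v2⟩ := hmo2 p h3 h2 h1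
      obtain ⟨w1, w2, w3⟩ := hm p h3
      simp only [if_neg k1, if_neg k2, if_neg v1, if_neg v2]
      exact ⟨(hN' _).2 ⟨u2, u1, w1⟩, w2, w3⟩)
    (by
      intro p hp hpB
      obtain ⟨h1, h2, h3⟩ := (hN' p).1 hp
      obtain ⟨u1, u2⟩ := heo p h3 hpB h2 h1
      obtain ⟨w1, w2, w3, w4⟩ := he p h3 hpB
      exact ⟨(hN' _).2 ⟨u2, u1, w1⟩, w2, w3, w4⟩) rfl
  refine ⟨ρ, r1, fun Q q1 q2 => r2 Q (fun p hp => q1 p ((hN' p).1 hp).2.2) ?_, fun Z hZ => ?_⟩
  · intro p hp hQ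
    obtain ⟨h1, h2, h3⟩ := (hN' p).1 hp
    by_cases k1 : p = a
    · subst k1
      simp only [if_true]
      have t1 := q2 p h3 hQ
      rw [hax] at t1
      have t2 := q1 x hxN hxB t1
      rw [hy] at t2
      have t3 := q2 y hyN t2
      rwa [hb] at t3
    by_cases k2 : p = b
    · subst k2
      simp only [if_neg k1, if_true]
      have t1 := q2 p h3 hQ
      rw [hby] at t1
      have t2 := q1 y hyN hyB t1
      rw [hyx] at t2
      have t3 := q2 x hxN t2
      rwa [ha] at t3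
    simp only [if_neg k1, if_neg k2]
    exact q2 p h3 hQ
  · obtain ⟨W, w1, w2, w3⟩ := r3 Z hZ
    refine ⟨fun p => if p = x ∨ p = y then a ≠ y ∧ W a else W p, ?_, ?_, ?_⟩
    · intro p hp
      have : ¬ (p = x ∨ p = y) := by
        rintro (h | h)
        · exact hxB (h ▸ hp)
        · exact hyB (h ▸ hp)
      simp only [if_neg this]
      exact w1 p hp
    · intro p hp hpB hW
      by_cases k : p = x ∨ p = y
      · have k' : e p = x ∨ e p = y := by
          rcases k with h | h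
          · exact Or.inr (h ▸ hy)
          · exact Or.inl (h ▸ hyx)
        simp only [if_pos k] at hW
        simpa only [if_pos k'] using hW
      · simp only [if_neg k] at hW
        push Not at k
        obtain ⟨u1, u2⟩ := heo p hp hpB k.1 k.2
        simp only [if_neg (not_or.2 ⟨u1, u2⟩)]
        exact w2 p ((hN' p).2 ⟨k.2, k.1, hp⟩) hpB hW
    · intro p hp hW
      by_cases k : p = x ∨ p = y
      · simp only [if_pos k] at hW
        obtain ⟨hne, hWa⟩ := hW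
        have hbx : b ≠ x := fun h => hne (hay.2 h)
        rcases k with h | h
        · rw [h, ha]
          simp only [if_neg (not_or.2 ⟨hax', hne⟩)]
          exact hWa
        · rw [h, hb]
          simp only [if_neg (not_or.2 ⟨hbx, hby'⟩)]
          have := w3 a ((hN' a).2 ⟨hne, hax', haN⟩) hWa
          simpa only [if_true] using this
      · simp only [if_neg k] at hW
        push Not at k
        have hp' := (hN' p).2 ⟨k.2, k.1, hp⟩
        have t := w3 p hp' hW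
        by_cases k1 : p = a
        · subst k1
          rw [hax]
          simp only [true_or, if_true]
          exact ⟨k.2, hW⟩
        by_cases k2 : p = b
        · subst k2
          rw [hby]
          simp only [or_true, if_true]
          simp only [if_neg k1, if_true] at t
          exact ⟨fun h => k.1 (hay.1 h), t⟩
        obtain ⟨u1, u2⟩ := hmo p hp k1 k2
        simp only [if_neg k1, if_neg k2] at t
        simp only [if_neg (not_or.2 ⟨u1, u2⟩)]
        exact t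

end Pool.Agent.MP_8c1b0d_co.RI
end

section
set_option autoImplicit false
set_option linter.unusedSectionVars false
open Finset Function

namespace Pool.Agent.MP_8c1b0d_co.RI
variable {V V' : Type} [Fintype V] [DecidableEq V] [Fintype V'] [DecidableEq V'] {G : CG V}
  {G' : CG V'}

/-- A closed `Q` is closed under `ρ` by `o.con`; for a port inside `A` use the second part of
`o.con` for `¬ Q` (closed, since `eP`, `mP` are involutions) and for `Q`. -/
theorem Out.ext {A : Finset V} {B : Finset (V × Fin 3)} {s : V → LS}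
    {ρ : (V × Fin 3) × Bool → (V × Fin 3) × Bool} (o : Out G A B s ρ) (r : Red G A B s ρ) :
    Sol G s := by
  have ok : ∀ v, (s v).a ≠ (s v).m := fun v => by
    by_cases hv : v ∈ A
    · exact o.ok v hv
    · exact r.ok v hv
  refine ⟨ok, fun p => ?_, ?_⟩
  · by_cases h1 : p.1.1 ∉ A ∨ p.1 ∈ B
    · exact r.col p h1
    · rw [not_or, not_not] at h1
      exact o.col p h1.1 h1.2
  · have key : ∀ Q : (V × Fin 3) × Bool → Prop, (∀ p, Q p → Q (G.eP p)) →
        (∀ p, Q p → Q (mP s p)) → ∀ p q, (p.1.1 ∉ A ∨ p.1 ∈ B) → (q.1.1 ∉ A ∨ q.1 ∈ B) →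
        cP s p = cP s q → Q p → Q q := by
      intro Q he hm
      refine r.conn Q (fun p _ => he p) (fun p _ hp => ?_)
      by_cases hb : p.1 ∈ B
      · simp only [hb, if_true]
        exact (o.con Q (fun p _ _ => he p) (fun p _ => hm p)).1 p hb hp
      · simp only [hb, if_false]
        exact hm p hp
    intro Q he hm p q _ _ hc hp
    have he' : ∀ p, Q p → Q (G.eP p) := fun p => he p trivial
    have hm' : ∀ p, Q p → Q (mP s p) := fun p => hm p trivial
    have h1 : ∃ p', (p'.1.1 ∉ A ∨ p'.1 ∈ B) ∧ cP s p' = cP s p ∧ Q p' := by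
      by_cases hA : p.1.1 ∈ A
      · by_contra hn
        refine (o.con (fun x => ¬ Q x) (fun x _ _ hx hq => hx ?_) (fun x _ hx hq => hx ?_)).2
          (cP s p) (fun x hx hcx hq => hn ⟨x, Or.inr hx, hcx, hq⟩) p hA rfl hp
        · have := he' _ hq
          rwa [CG.eP_eP] at this
        · have := hm' _ hq
          rwa [mP_mP (ok _)] at this
      · exact ⟨p, Or.inl hA, rfl, hp⟩
    obtain ⟨p', hU, hc', hq'⟩ := h1
    by_cases hA : q.1.1 ∈ A
    · exact (o.con Q (fun x _ _ => he' x) (fun x _ => hm' x)).2 (cP s q)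
        (fun x hx hcx => key Q he' hm' p' x hU (Or.inr hx) (by rw [hc', hc, hcx]) hq') q hA rfl
    · exact key Q he' hm' p' q hU (Or.inl hA) (hc'.trans hc) hq'

/-- `first_return` for the ports at `A`. `Red.conn`: extend `Q` by `W`. Second part of `con`: use
`h.conn` for `fun p => p.1.1 ∈ A → cP s p = κ → Q p`, starting at the port given by `both`. -/
theorem Sol.red {s : V → LS} (h : Sol G s) (A : Finset V) (B : Finset (V × Fin 3))
    (sub : ∀ d ∈ B, d.1 ∈ A) (inn : ∀ d, d.1 ∈ A → d ∉ B → (G.e d).1 ∈ A ∧ G.e d ∉ B)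
    (both : ∀ κ, ∃ p : (V × Fin 3) × Bool, (p.1.1 ∉ A ∨ p.1 ∈ B) ∧ cP s p = κ) :
    ∃ ρ, Out G A B s ρ ∧ Red G A B s ρ := by
  have back : ∀ p : (V × Fin 3) × Bool, (G.eP p).1.1 ∈ A → (G.eP p).1 ∉ B →
      p.1.1 ∈ A ∧ p.1 ∉ B := by
    intro p h1 h2
    have := inn (G.e p.1) h1 h2
    rwa [G.ee] at this
  obtain ⟨ρ, r1, r2, r3⟩ := first_return G.eP (mP s)
    (univ.filter fun p : (V × Fin 3) × Bool => p.1.1 ∈ A)
    (univ.filter fun p : (V × Fin 3) × Bool => p.1 ∈ B)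
    (fun p hp => by
      simp only [mem_filter, mem_univ, true_and] at hp ⊢
      exact sub _ hp)
    (fun p hp => by
      simp only [mem_filter, mem_univ, true_and] at hp ⊢
      exact ⟨hp, mP_mP (h.ok _), mP_ne (h.ok _)⟩)
    (fun p hp hb => by
      simp only [mem_filter, mem_univ, true_and] at hp hb ⊢
      exact ⟨(inn _ hp hb).1, (inn _ hp hb).2, CG.eP_eP p,
        fun e => G.ne p.1 (congrArg Prod.fst e)⟩)
  simp only [mem_filter, mem_univ, true_and] at r1 r2 r3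
  refine ⟨ρ, ⟨sub, inn, fun v _ => h.ok v, fun p _ _ => h.col p, fun p hp => ?_, ?_⟩,
    fun v _ => h.ok v, fun p _ => h.col p, ?_⟩
  · refine ⟨(r1 p hp).1, (r1 p hp).2.1, (r1 p hp).2.2, ?_⟩
    exact r2 (fun x => cP s x = cP s p) (fun x _ _ hx => (h.col x).trans hx)
      (fun x _ hx => (cP_mP (h.ok _)).trans hx) p hp rfl
  · intro Q he hm
    refine ⟨r2 Q he hm, fun κ hB p hp hc => ?_⟩
    obtain ⟨p0, hU, hc0⟩ := both κ
    refine h.conn (fun x => x.1.1 ∈ A → cP s x = κ → Q x) (fun x _ hx h1 h2 => ?_)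
      (fun x _ hx h1 h2 => ?_) p0 p trivial trivial (hc0.trans hc.symm) (fun h1 h2 => ?_) hp hc
    · by_cases hb : (G.eP x).1 ∈ B
      · exact hB _ hb h2
      · obtain ⟨a1, a2⟩ := back x h1 hb
        exact he x a1 a2 (hx a1 ((h.col x).symm.trans h2))
    · exact hm x h1 (hx h1 ((cP_mP (h.ok _)).symm.trans h2))
    · rcases hU with hU | hU
      · exact absurd h1 hU
      · exact hB _ hU h2
  · intro Q he hm p q hp hq hc hQ
    obtain ⟨W, w1, w2, w3⟩ := r3 Q (fun x hx hQx => by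
      have := hm x (Or.inr hx) hQx
      simpa only [hx, if_true] using this)
    have iff : ∀ x : (V × Fin 3) × Bool, (x.1.1 ∉ A ∨ x.1 ∈ B) →
        (((x.1.1 ∈ A → W x) ∧ (x.1.1 ∉ A → Q x)) ↔ Q x) := by
      intro x hx
      rcases hx with hx | hx
      · exact ⟨fun t => t.2 hx, fun t => ⟨fun u => absurd u hx, fun _ => t⟩⟩
      · exact ⟨fun t => (w1 x hx).1 (t.1 (sub _ hx)), fun t => ⟨fun _ => (w1 x hx).2 t, fun _ => t⟩⟩
    refine (iff q hq).1 (h.conn (fun x => (x.1.1 ∈ A → W x) ∧ (x.1.1 ∉ A → Q x))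
      (fun x _ hx => ?_) (fun x _ hx => ?_) p q trivial trivial hc ((iff p hp).2 hQ))
    · by_cases hU : x.1.1 ∉ A ∨ x.1 ∈ B
      · have hU' : (G.eP x).1.1 ∉ A ∨ (G.eP x).1 ∈ B := by
          by_contra hn
          rw [not_or, not_not] at hn
          obtain ⟨a1, a2⟩ := back x hn.1 hn.2
          rcases hU with hU | hU
          · exact hU a1
          · exact a2 hU
        exact (iff _ hU').2 (he x hU ((iff x hU).1 hx))
      · rw [not_or, not_not] at hU
        exact ⟨fun _ => w2 x hU.1 hU.2 (hx.1 hU.1), fun t => absurd (inn _ hU.1 hU.2).1 t⟩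
    · refine ⟨fun t => w3 x t (hx.1 t), fun t => ?_⟩
      have hb : x.1 ∉ B := fun u => t (sub x.1 u)
      have := hm x (Or.inl t) (hx.2 t)
      simpa only [hb, if_false] using this

end Pool.Agent.MP_8c1b0d_co.RI
end

section
set_option autoImplicit false
set_option linter.unusedSectionVars false
open Finset Function

namespace Pool.Agent.MP_8c1b0d_co.RI
variable {V V' : Type} [Fintype V] [DecidableEq V] [Fintype V'] [DecidableEq V'] {G : CG V}
  {G' : CG V'}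

theorem Out.transfer {A : Finset V} {A' : Finset V'} {B : Finset (V × Fin 3)}
    {B' : Finset (V' × Fin 3)} {ι : V → V'} (inj : Set.InjOn ι A)
    (img : ∀ v', v' ∈ A' ↔ ∃ v ∈ A, ι v = v') (sub : ∀ d ∈ B, d.1 ∈ A)
    (hB : ∀ d : V × Fin 3, d.1 ∈ A → (d ∈ B ↔ (ι d.1, d.2) ∈ B'))
    (inn : ∀ d, d.1 ∈ A → d ∉ B →
      (G.e d).1 ∈ A ∧ G'.e (ι d.1, d.2) = (ι (G.e d).1, (G.e d).2))
    {s : V → LS} {s' : V' → LS} (hs : ∀ v ∈ A, s v = s' (ι v))
    {ρ' : (V' × Fin 3) × Bool → (V' × Fin 3) × Bool} (o : Out G' A' B' s' ρ') :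
    ∃ ρ, Out G A B s ρ ∧ ∀ p : (V × Fin 3) × Bool, p.1 ∈ B →
      ρ' ((ι p.1.1, p.1.2), p.2) = ((ι (ρ p).1.1, (ρ p).1.2), (ρ p).2) := by
  obtain ⟨f, hf⟩ : ∃ f : (V × Fin 3) × Bool → (V' × Fin 3) × Bool,
    ∀ p, f p = ((ι p.1.1, p.1.2), p.2) := ⟨_, fun _ => rfl⟩
  have fc : ∀ p, p.1.1 ∈ A → cP s' (f p) = cP s p := fun p h => by simp only [hf, cP, hs _ h]
  have fm : ∀ p, p.1.1 ∈ A → mP s' (f p) = f (mP s p) := fun p h => by simp only [hf, mP, hs _ h]
  have fe : ∀ p, p.1.1 ∈ A → p.1 ∉ B → G'.eP (f p) = f (G.eP p) := fun p h h' => by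
    simp only [hf, CG.eP, (inn _ h h').2]
  have fi : ∀ p q, p.1.1 ∈ A → q.1.1 ∈ A → f p = f q → p = q := fun p q h h' e => by
    simp only [hf, Prod.mk.injEq] at e
    exact Prod.ext (Prod.ext (inj h h' e.1.1) e.1.2) e.2
  have fA : ∀ p, p.1.1 ∈ A → (f p).1.1 ∈ A' := fun p h => (img _).2 ⟨_, h, by rw [hf]⟩
  have fB : ∀ p, p.1.1 ∈ A → (p.1 ∈ B ↔ (f p).1 ∈ B') := fun p h => by
    rw [hf]
    exact hB _ h
  have fs : ∀ p', p'.1 ∈ B' → ∃ p, p.1 ∈ B ∧ f p = p' := fun p' h => by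
    obtain ⟨v, hv, e⟩ := (img _).1 (o.sub _ h)
    have e' : f ((v, p'.1.2), p'.2) = p' := by rw [hf, e]
    exact ⟨_, (fB _ hv).2 (e'.symm ▸ h), e'⟩
  have ex : ∀ p : (V × Fin 3) × Bool, ∃ q : (V × Fin 3) × Bool, p.1 ∈ B → q.1 ∈ B ∧ f q = ρ' (f p) := by
    intro p
    by_cases h : p.1 ∈ B
    · obtain ⟨q, hq⟩ := fs _ (o.inv _ ((fB p (sub _ h)).1 h)).1
      exact ⟨q, fun _ => hq⟩
    · exact ⟨p, fun h' => (h h').elim⟩
  choose ρ hρ using ex
  refine ⟨ρ, ⟨sub, fun d h h' => ⟨(inn d h h').1, fun h2 => ?_⟩,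
    fun v hv => hs v hv ▸ o.ok _ ((img _).2 ⟨v, hv, rfl⟩), fun p h h' => ?_, fun p h => ?_,
    fun Q h1 h2 => ?_⟩, fun p h => by rw [← hf, ← hf, (hρ p h).2]⟩
  · exact (o.inn (ι d.1, d.2) ((img _).2 ⟨_, h, rfl⟩) (mt (hB d h).2 h')).2
      ((inn d h h').2 ▸ (hB _ (inn d h h').1).1 h2)
  · rw [← fc _ (inn _ h h').1, ← fe p h h', o.col _ (fA p h) (mt (fB p h).2 h'), fc p h]
  · obtain ⟨h1, h2⟩ := hρ p h
    obtain ⟨h3, h4⟩ := hρ _ h1
    obtain ⟨-, i1, i2, i3⟩ := o.inv _ ((fB p (sub _ h)).1 h)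
    refine ⟨h1, fi _ _ (sub _ h3) (sub _ h) (by rw [h4, h2, i1]), fun e => i2 (by rw [← h2, e]), ?_⟩
    rw [← fc _ (sub _ h1), h2, i3, fc p (sub _ h)]
  · obtain ⟨c1, c2⟩ := o.con (fun p' => ∃ p, p.1.1 ∈ A ∧ f p = p' ∧ Q p)
      (by
        rintro _ - h' ⟨p, h, rfl, hQ⟩
        have h3 := mt (fB p h).1 h'
        exact ⟨G.eP p, (inn _ h h3).1, (fe p h h3).symm, h1 p h h3 hQ⟩)
      (by
        rintro _ - ⟨p, h, rfl, hQ⟩
        exact ⟨mP s p, h, (fm p h).symm, h2 p h hQ⟩)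
    refine ⟨fun p h hQ => ?_, fun κ H p h hc => ?_⟩
    · obtain ⟨q, hq, e, hQ'⟩ := c1 _ ((fB p (sub _ h)).1 h) ⟨p, sub _ h, rfl, hQ⟩
      exact fi _ _ hq (sub _ (hρ p h).1) (e.trans (hρ p h).2.symm) ▸ hQ'
    · obtain ⟨q, hq, e, hQ'⟩ := c2 κ (fun p' h' hc' => by
        obtain ⟨q, hq, rfl⟩ := fs p' h'
        exact ⟨q, sub _ hq, rfl, H q hq ((fc q (sub _ hq)).symm.trans hc')⟩) _ (fA p h)
        ((fc p h).trans hc)
      exact fi _ _ hq h e ▸ hQ'

/-- a dart at `A` that is no boundary dart is joined to such a dart (otherwise its partner is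
`real x`, and then it is `real (e0 x)` itself) -/
theorem Chart.inn {p k : ℕ} {A : Finset V} {e0 : D0 p k → D0 p k} {q : Fin p → V}
    {ψ : Fin p → Equiv.Perm (Fin 3)} {b : Fin k → V × Fin 3} (c : Chart G A e0 q ψ b)
    (d : V × Fin 3) (h1 : d.1 ∈ A) (h2 : ∀ i, b i ≠ d) : (G.e d).1 ∈ A ∧ ∀ i, b i ≠ G.e d := by
  have key : ∀ x, real q ψ b x ≠ G.e d := fun x e => by
    have h3 := c.hom x
    rw [e, G.ee] at h3
    rcases h4 : e0 x with y | i <;> rw [h4] at h3
    · exact (c.q_mem _).2 ⟨y.1, (congrArg Prod.fst h3).symm⟩ h1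
    · exact h2 i h3.symm
  refine ⟨by_contra fun h => ?_, fun i => key (.inr i)⟩
  obtain ⟨j, hj⟩ := (c.q_mem _).1 h
  exact key (.inl (j, (ψ j).symm (G.e d).2)) (Prod.ext hj (Equiv.apply_symm_apply _ _))

theorem a3a_conn {T T' : Type} {e m : T → T} {c : T → Bool} {U : T → Prop} {e' m' : T' → T'}
    {c' : T' → Bool} (F : T' → T) (hF : Injective F) (hU : ∀ p, U p ↔ ∃ x, F x = p)
    (he : ∀ x, e (F x) = F (e' x)) (hm : ∀ x, m (F x) = F (m' x)) (hc : ∀ x, c (F x) = c' x) :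
    Conn e m c U ↔ Conn e' m' c' fun _ => True := by
  refine ⟨fun h Q h1 h2 x y _ _ hxy hQ => ?_, fun h Q h1 h2 p q hp hq hpq hQ => ?_⟩
  · obtain ⟨z, hz, hQ'⟩ := h (fun p => ∃ x, F x = p ∧ Q x)
      (by
        rintro _ - ⟨x, rfl, hx⟩
        exact ⟨_, (he x).symm, h1 x trivial hx⟩)
      (by
        rintro _ - ⟨x, rfl, hx⟩
        exact ⟨_, (hm x).symm, h2 x trivial hx⟩)
      _ _ ((hU _).2 ⟨x, rfl⟩) ((hU _).2 ⟨y, rfl⟩) (by rw [hc, hc, hxy]) ⟨x, rfl, hQ⟩
    exact hF hz ▸ hQ'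
  · obtain ⟨x, rfl⟩ := (hU p).1 hp
    obtain ⟨y, rfl⟩ := (hU q).1 hq
    exact h (fun x => Q (F x)) (fun x _ hx => he x ▸ h1 _ ((hU _).2 ⟨x, rfl⟩) hx)
      (fun x _ hx => hm x ▸ h2 _ ((hU _).2 ⟨x, rfl⟩) hx) x y trivial trivial
      (by rw [← hc, ← hc, hpq]) hQ

/-- `(x, l) ↦ (real q ψ b x, l)` is a bijection onto the ports of the reduced system
(`LS.cl_map`, `LS.mu_map`) -/
theorem Chart.red_iff {p k : ℕ} {A : Finset V} {e0 : D0 p k → D0 p k} {q : Fin p → V}
    {ψ : Fin p → Equiv.Perm (Fin 3)} {b : Fin k → V × Fin 3} (c : Chart G A e0 q ψ b)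
    {B : Finset (V × Fin 3)} (hB : ∀ d, d ∈ B ↔ ∃ i, b i = d) {s : V → LS} {s0 : Fin p → LS}
    (hs : ∀ j, s (q j) = (s0 j).map (ψ j)) (ok : ∀ j, (s0 j).a ≠ (s0 j).m)
    {ρ : (V × Fin 3) × Bool → (V × Fin 3) × Bool} {ρ0 : Fin k × Bool → Fin k × Bool}
    (hρ : ∀ x, ρ (b x.1, x.2) = (b (ρ0 x).1, (ρ0 x).2)) :
    Red G A B s ρ ↔ LG e0 s0 (fun x => cP s (b x.1, x.2)) ρ0 := by
  let F : D0 p k × Bool → (V × Fin 3) × Bool := fun x => (real q ψ b x.1, x.2)
  have hq : ∀ j, q j ∉ A := fun j => (c.q_mem _).2 ⟨j, rfl⟩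
  have hF : Injective F := by
    rintro ⟨y | i, l⟩ ⟨y' | i', l'⟩ e <;> obtain ⟨e, rfl⟩ := Prod.mk.inj e
    · obtain ⟨e1, e2⟩ := Prod.mk.inj e
      have e3 := c.q_inj e1
      rw [e3] at e2
      rw [Prod.ext e3 ((ψ _).injective e2)]
    · exact (hq y.1 (by rw [show q y.1 = (b i').1 from congrArg Prod.fst e]; exact c.b_mem _)).elim
    · exact (hq y'.1 (by rw [← show (b i).1 = q y'.1 from congrArg Prod.fst e]; exact c.b_mem _)).elim
    · rw [c.b_inj e]
  have hU : ∀ r : (V × Fin 3) × Bool, (r.1.1 ∉ A ∨ r.1 ∈ B) ↔ ∃ x, F x = r := fun r => by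
    constructor
    · rintro (h | h)
      · obtain ⟨j, hj⟩ := (c.q_mem _).1 h
        exact ⟨(.inl (j, (ψ j).symm r.1.2), r.2),
          Prod.ext (Prod.ext hj (Equiv.apply_symm_apply _ _)) rfl⟩
      · obtain ⟨i, hi⟩ := (hB _).1 h
        exact ⟨(.inr i, r.2), Prod.ext hi rfl⟩
    · rintro ⟨⟨y | i, l⟩, rfl⟩
      · exact Or.inl (hq _)
      · exact Or.inr ((hB _).2 ⟨i, rfl⟩)
  have he : ∀ x, G.eP (F x) = F (e0 x.1, x.2) := fun x => Prod.ext (c.hom x.1) rfl
  have hc : ∀ x, cP s (F x) = c0 s0 (fun x => cP s (b x.1, x.2)) x := by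
    rintro ⟨y | i, l⟩
    · exact (congrArg (fun t : LS => t.cl (ψ y.1 y.2, l)) (hs y.1)).trans (LS.cl_map _ _ (y.2, l))
    · rfl
  have hm : ∀ x, (if (F x).1 ∈ B then ρ (F x) else mP s (F x)) = F (m0 s0 ρ0 x) := by
    rintro ⟨y | i, l⟩
    · rw [if_neg fun h => by
        obtain ⟨i, hi⟩ := (hB _).1 h
        exact hq y.1 (by rw [← show (b i).1 = q y.1 from congrArg Prod.fst hi]; exact c.b_mem _)]
      have := LS.mu_map _ (ok y.1) (ψ y.1) (y.2, l)
      simp only [F, mP, m0, real, Sum.elim_inl, hs, this]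
    · exact (if_pos ((hB _).2 ⟨i, rfl⟩)).trans (hρ (i, l))
  have h := a3a_conn (m := fun p => if p.1 ∈ B then ρ p else mP s p) F hF hU he hm hc
  refine ⟨fun r => ⟨fun x => ?_, h.1 r.conn⟩, fun r => ⟨fun v hv => ?_, fun x hx => ?_, h.2 r.2⟩⟩
  · rw [← hc, ← hc, ← he, r.col _ ((hU _).2 ⟨x, rfl⟩)]
  · obtain ⟨j, rfl⟩ := (c.q_mem _).1 hv
    rw [hs]
    exact (ψ j).injective.ne (ok j)
  · obtain ⟨x, rfl⟩ := (hU _).1 hx
    rw [he, hc, hc, r.1]

end Pool.Agent.MP_8c1b0d_co.RI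
end

section
set_option autoImplicit false
set_option linter.unusedSectionVars false
open Finset Function

namespace Pool.Agent.MP_8c1b0d_co.RI
variable {V V' : Type} [Fintype V] [DecidableEq V] [Fintype V'] [DecidableEq V'] {G : CG V}
  {G' : CG V'}

theorem a3_glue {p : ℕ} {A : Finset V} {q : Fin p → V} (hq : Injective q)
    (hm : ∀ v, v ∉ A ↔ ∃ j, q j = v) (f : V → LS) (g : Fin p → LS) :
    ∃ s : V → LS, (∀ v ∈ A, s v = f v) ∧ ∀ j, s (q j) = g j :=
  ⟨extend q g f, fun v hv => extend_apply' _ _ _ fun h => (hm v).2 h hv, hq.extend_apply _ _⟩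

/-- LOCAL REPLACEMENT: `Sol.red` in `G'`, `red_iff`, `Out.transfer`, `red_iff`, `Out.ext`. -/
theorem repl {p p' k : ℕ} {A : Finset V} {A' : Finset V'} {e0 : D0 p k → D0 p k}
    {e0' : D0 p' k → D0 p' k} {q : Fin p → V} {q' : Fin p' → V'}
    {ψ : Fin p → Equiv.Perm (Fin 3)} {ψ' : Fin p' → Equiv.Perm (Fin 3)} {b : Fin k → V × Fin 3}
    {b' : Fin k → V' × Fin 3} (c : Chart G A e0 q ψ b) (c' : Chart G' A' e0' q' ψ' b')
    {ι : V → V'} (inj : Set.InjOn ι A) (img : ∀ v', v' ∈ A' ↔ ∃ v ∈ A, ι v = v')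
    (hb : ∀ i, b' i = (ι (b i).1, (b i).2))
    (inn : ∀ d, d.1 ∈ A → (∀ i, b i ≠ d) → G'.e (ι d.1, d.2) = (ι (G.e d).1, (G.e d).2))
    {s' : V' → LS} (hs : Sol G' s')
    (both : 0 < p' ∨ ∀ κ, ∃ x : Fin k × Bool, cP s' (b' x.1, x.2) = κ) :
    ∃ ρ, Pairing (fun x => cP s' (b' x.1, x.2)) ρ ∧
      LG e0' (fun j => (s' (q' j)).map (ψ' j).symm) (fun x => cP s' (b' x.1, x.2)) ρ ∧
      ∀ s0 : Fin p → LS, (∀ j, (s0 j).a ≠ (s0 j).m) →
        LG e0 s0 (fun x => cP s' (b' x.1, x.2)) ρ →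
        ∃ s, Sol G s ∧ (∀ v ∈ A, s v = s' (ι v)) ∧ ∀ j, s (q j) = (s0 j).map (ψ j) := by
  have hB : ∀ d, d ∈ univ.image b ↔ ∃ i, b i = d := fun d => by simp only [mem_image, mem_univ, true_and]
  have hB' : ∀ d, d ∈ univ.image b' ↔ ∃ i, b' i = d := fun d => by simp only [mem_image, mem_univ, true_and]
  obtain ⟨ρ', o', r'⟩ := hs.red A' (univ.image b')
    (fun d hd => by obtain ⟨i, rfl⟩ := (hB' d).1 hd; exact c'.b_mem i)
    (fun d h1 h2 => by
      obtain ⟨a1, a2⟩ := c'.inn d h1 fun i e => h2 ((hB' d).2 ⟨i, e⟩)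
      exact ⟨a1, fun h => ((hB' _).1 h).elim a2⟩)
    fun κ => by
      rcases both with h | h
      · obtain ⟨x, hx⟩ := (s' (q' ⟨0, h⟩)).both κ
        exact ⟨((q' ⟨0, h⟩, x.1), x.2), Or.inl ((c'.q_mem _).2 ⟨_, rfl⟩), hx⟩
      · obtain ⟨x, hx⟩ := h κ
        exact ⟨(b' x.1, x.2), Or.inr ((hB' _).2 ⟨_, rfl⟩), hx⟩
  have inv' := fun x : Fin k × Bool => o'.inv (b' x.1, x.2) ((hB' _).2 ⟨_, rfl⟩)
  choose f hf using fun x : Fin k × Bool => (hB' _).1 (inv' x).1
  set ρ0 : Fin k × Bool → Fin k × Bool := fun x => (f x, (ρ' (b' x.1, x.2)).2) with hρ0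
  have hρ' : ∀ x, ρ' (b' x.1, x.2) = (b' (ρ0 x).1, (ρ0 x).2) := fun x => Prod.ext (hf x).symm rfl
  have binj : ∀ x y : Fin k × Bool, (b' x.1, x.2) = (b' y.1, y.2) → x = y := fun x y e =>
    Prod.ext (c'.b_inj (Prod.mk.inj e).1) (Prod.mk.inj e).2
  refine ⟨ρ0, fun x => ⟨binj _ _ ?_, fun e => (inv' x).2.2.1 ?_, ?_⟩,
    (c'.red_iff hB' (fun j => (LS.map_map _ _).symm)
      (fun j => (ψ' j).symm.injective.ne (hs.ok _)) hρ').1 r', fun s0 ok h0 => ?_⟩
  · rw [← hρ', ← hρ', (inv' x).2.1]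
  · rw [hρ', e]
  · have := (inv' x).2.2.2
    rwa [hρ'] at this
  obtain ⟨s, hA, hq⟩ := a3_glue c.q_inj c.q_mem (fun v => s' (ι v)) fun j => (s0 j).map (ψ j)
  have sub : ∀ d ∈ univ.image b, d.1 ∈ A := fun d hd => by
    obtain ⟨i, rfl⟩ := (hB d).1 hd
    exact c.b_mem i
  have key : ∀ i (d : V × Fin 3), d.1 ∈ A → b' i = (ι d.1, d.2) → b i = d := fun i d hd e => by
    rw [hb] at e
    exact Prod.ext (inj (c.b_mem i) hd (Prod.mk.inj e).1) (Prod.mk.inj e).2
  obtain ⟨ρ, o, hρ⟩ := Out.transfer (G := G) (B := univ.image b) inj img sub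
    (fun d hd => by
      rw [hB, hB']
      exact exists_congr fun i => ⟨fun e => by rw [hb, e], key i d hd⟩)
    (fun d h1 h2 => ⟨(c.inn d h1 fun i e => h2 ((hB d).2 ⟨i, e⟩)).1,
      inn d h1 fun i e => h2 ((hB d).2 ⟨i, e⟩)⟩) hA o'
  refine ⟨s, o.ext ((c.red_iff hB hq ok (ρ0 := ρ0) fun x => ?_).2 ?_), hA, hq⟩
  · have m : b x.1 ∈ univ.image b := (hB _).2 ⟨_, rfl⟩
    have e := hρ (b x.1, x.2) m
    rw [← hb, hρ'] at e
    exact Prod.ext (key _ _ (sub _ (o.inv (b x.1, x.2) m).1) (congrArg Prod.fst e)).symm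
      (congrArg Prod.snd e).symm
  · rwa [show (fun x : Fin k × Bool => cP s (b x.1, x.2)) = fun x => cP s' (b' x.1, x.2) from
      funext fun x => by simp only [cP, hb, hA _ (c.b_mem x.1)]]

/-- a small graph (`red_iff` with `A = ∅`, `B = ∅`) -/
theorem Chart.sol {p : ℕ} {e0 : D0 p 0 → D0 p 0} {q : Fin p → V} {ψ : Fin p → Equiv.Perm (Fin 3)}
    {b : Fin 0 → V × Fin 3} (c : Chart G ∅ e0 q ψ b) {s0 : Fin p → LS}
    (ok : ∀ j, (s0 j).a ≠ (s0 j).m) (h : LG e0 s0 (fun _ => true) id) :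
    ∃ s, Sol G s ∧ ∀ j, s (q j) = (s0 j).map (ψ j) := by
  obtain ⟨s, -, hq⟩ := a3_glue c.q_inj c.q_mem (fun _ => ⟨0, 1, true, .V⟩)
    fun j => (s0 j).map (ψ j)
  have o : Out G ∅ ∅ s id :=
    ⟨by simp, by simp, by simp, by simp, by simp, fun _ _ _ => ⟨by simp, by simp⟩⟩
  refine ⟨s, o.ext ((c.red_iff (by simp) hq ok (ρ0 := id) fun x => rfl).2 ?_), hq⟩
  rwa [show (fun x : Fin 0 × Bool => cP s (b x.1, x.2)) = fun _ => true from
    funext fun x => x.1.elim0]

/-- the induction statement for a small graph -/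
theorem Chart.ind {p : ℕ} {e0 : D0 p 0 → D0 p 0} {q : Fin p → V} {ψ : Fin p → Equiv.Perm (Fin 3)}
    {b : Fin 0 → V × Fin 3} (c : Chart G ∅ e0 q ψ b)
    (h : ∀ (r : Fin p) (m : Fin 3) (τ : Tp) (M : Finset (Fin p)), τ ≠ .P →
      ∃ s0 : Fin p → LS, (∀ j, (s0 j).a ≠ (s0 j).m) ∧ LG e0 s0 (fun _ => true) id ∧
        (s0 r).m = m ∧ (s0 r).t = τ ∧ Fits M r s0) : IND G := by
  intro r σ M h1 h2
  obtain ⟨j0, rfl⟩ := (c.q_mem r).1 (notMem_empty r)
  obtain ⟨s0, ok, hL, hm, ht, hF⟩ := h j0 ((ψ j0).symm σ.m) σ.t {j | q j ∈ M} h2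
  obtain ⟨s, hs, hq⟩ := c.sol ok hL
  refine INDw.strong ⟨s, hs, ?_, ?_, fun v hv => ?_⟩ h1 h2
  · simp [hq, LS.map, hm]
  · simp [hq, LS.map, ht]
  · obtain ⟨j, rfl⟩ := (c.q_mem v).1 (notMem_empty v)
    simpa only [hq, LS.map, ne_eq, mem_filter, mem_univ, true_and] using hF j fun e => hv (congrArg q e)

end Pool.Agent.MP_8c1b0d_co.RI
end

section
/-! A verified checker for small poles: enumeration of pairings and walks along orbits. -/

set_option autoImplicit false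
set_option linter.unusedSectionVars false
open Finset Function

namespace Pool.Agent.MP_8c1b0d_co.RI

/-- case distinction by the recursor -/
def a4_c {α : Type} (c : Bool) (x y : α) : α := Bool.rec y x c
theorem a4_c_eq {α : Type} (c : Bool) (x y : α) : a4_c c x y = if c = true then x else y := by
  cases c <;> rfl
/-- evaluate `n` before going on -/
def a4_f {β : Type} (n : ℕ) (k : ℕ → β) : β := Nat.rec (k 0) (fun j _ => k (Nat.succ j)) n
theorem a4_f_eq {β : Type} (n : ℕ) (k : ℕ → β) : a4_f n k = k n := by cases n <;> rfl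
/-- evaluate a list -/
def a4_fL {β : Type} (l : List ℕ) : (List ℕ → β) → β :=
  List.rec (fun k => k []) (fun a _ ih k => a4_f a fun a' => ih fun l' => k (a' :: l')) l
theorem a4_fL_eq {β : Type} (l : List ℕ) (k : List ℕ → β) : a4_fL l k = k l := by
  induction l generalizing k with
  | nil => rfl
  | cons a l ih => exact (a4_f_eq a fun a' => a4_fL l fun l' => k (a' :: l')).trans (ih _)

/-- entry `x` of the packed table `t` -/
def a4_get (t x : ℕ) : ℕ := Nat.land (Nat.shiftRight t (Nat.mul 4 x)) 15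

/-- the points met on the walk from `x` back to `x0`, or `0` -/
def a4_walk (I : ℕ) (t : ℕ → ℕ) (x0 n : ℕ) : ℕ → ℕ → ℕ :=
  Nat.rec (fun _ _ => 0) (fun _ ih x S => a4_f (t x) fun y => a4_f (a4_get I y) fun z =>
    a4_f (Nat.lor (Nat.lor S (Nat.pow 2 x)) (Nat.pow 2 y)) fun S' =>
      a4_c (Nat.beq z x0) S' (ih z S')) n

theorem a4_walk_succ (I : ℕ) (t : ℕ → ℕ) (x0 n x S : ℕ) : a4_walk I t x0 (n + 1) x S =
    if a4_get I (t x) = x0 then S ||| 2 ^ x ||| 2 ^ t x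
    else a4_walk I t x0 n (a4_get I (t x)) (S ||| 2 ^ x ||| 2 ^ t x) := by
  have : a4_walk I t x0 (n + 1) x S = a4_f (t x) fun y => a4_f (a4_get I y) fun z =>
    a4_f (Nat.lor (Nat.lor S (Nat.pow 2 x)) (Nat.pow 2 y)) fun S' =>
      a4_c (Nat.beq z x0) S' (a4_walk I t x0 n z S') := rfl
  rw [this]
  simp only [a4_f_eq, a4_c_eq, Nat.beq_eq]
  rfl

theorem a4_bit (S x y u : ℕ) :
    (S ||| 2 ^ x ||| 2 ^ y).testBit u = true ↔ S.testBit u = true ∨ u = x ∨ u = y := by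
  simp only [Nat.testBit_or, Nat.testBit_two_pow, Bool.or_eq_true, decide_eq_true_eq, or_assoc,
    @eq_comm _ u]

theorem a4_walk_acc {I : ℕ} {t : ℕ → ℕ} {x0 : ℕ} {C Q : ℕ → Prop}
    (ht : ∀ x, C x → C (t x) ∧ (Q x → Q (t x)))
    (hI : ∀ x, C x → C (a4_get I x) ∧ (Q x → Q (a4_get I x))) (n : ℕ) :
    ∀ x S, C x → Q x → (∀ u, S.testBit u = true → Q u) →
      ∀ u, (a4_walk I t x0 n x S).testBit u = true → Q u := by
  induction n with
  | zero => intro x S _ _ _ u hu; simp [a4_walk] at hu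
  | succ n ih =>
    intro x S hx hq hS
    have k : ∀ u, (S ||| 2 ^ x ||| 2 ^ t x).testBit u = true → Q u := fun u hu => by
      rcases (a4_bit _ _ _ _).1 hu with h | rfl | rfl
      exacts [hS u h, hq, (ht x hx).2 hq]
    rw [a4_walk_succ]
    split_ifs
    · exact k
    · exact ih _ _ (hI _ (ht x hx).1).1 ((hI _ (ht x hx).1).2 ((ht x hx).2 hq)) k

theorem a4_walk_cl {I : ℕ} {t : ℕ → ℕ} {x0 : ℕ} {C : ℕ → Prop}
    (ht : ∀ x, C x → C (t x) ∧ t (t x) = x)
    (hI : ∀ x, C x → C (a4_get I x) ∧ a4_get I (a4_get I x) = x) (n : ℕ) :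
    ∀ x S, C x → (∀ u, S.testBit u = true → C u ∧ S.testBit (t u) = true ∧
      (S.testBit (a4_get I u) = true ∨ a4_get I u = x ∨ u = x0)) →
      (x = x0 ∨ (S.testBit x0 = true ∧ S.testBit (a4_get I x) = true)) →
      a4_walk I t x0 n x S ≠ 0 → (a4_walk I t x0 n x S).testBit x0 = true ∧
      ∀ u, (a4_walk I t x0 n x S).testBit u = true → (a4_walk I t x0 n x S).testBit (t u) = true ∧
        (a4_walk I t x0 n x S).testBit (a4_get I u) = true ∧ C u := by
  induction n with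
  | zero => intro x S _ _ _ h; exact absurd rfl h
  | succ n ih =>
    intro x S hx hS h0
    have hy := ht x hx
    have hz := hI _ hy.1
    have k0 : (S ||| 2 ^ x ||| 2 ^ t x).testBit x0 = true := by
      rw [a4_bit]; rcases h0 with h | h
      exacts [.inr (.inl h.symm), .inl h.1]
    have kz : (S ||| 2 ^ x ||| 2 ^ t x).testBit (a4_get I (a4_get I (t x))) = true := by
      rw [a4_bit, hz.2]; exact .inr (.inr rfl)
    have k : ∀ u, (S ||| 2 ^ x ||| 2 ^ t x).testBit u = true → C u ∧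
        (S ||| 2 ^ x ||| 2 ^ t x).testBit (t u) = true ∧
        ((S ||| 2 ^ x ||| 2 ^ t x).testBit (a4_get I u) = true ∨ a4_get I u = a4_get I (t x) ∨
          u = x0) := fun u hu => by
      simp only [a4_bit] at hu ⊢
      rcases hu with h | rfl | rfl
      · obtain ⟨h1, h2, h3⟩ := hS u h
        refine ⟨h1, .inl h2, ?_⟩
        rcases h3 with h3 | h3 | h3
        exacts [.inl (.inl h3), .inl (.inr (.inl h3)), .inr (.inr h3)]
      · refine ⟨hx, .inr (.inr rfl), ?_⟩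
        rcases h0 with h | h
        exacts [.inr (.inr h), .inl (.inl h.2)]
      · exact ⟨hy.1, .inr (.inl hy.2), .inr (.inl rfl)⟩
    rw [a4_walk_succ]
    split_ifs with e
    · refine fun _ => ⟨k0, fun u hu => ⟨(k u hu).2.1, ?_, (k u hu).1⟩⟩
      rcases (k u hu).2.2 with h | h | h
      · exact h
      · rw [h, e]; exact k0
      · rw [h, ← e]; exact kz
    · exact ih _ _ hz.1 k (.inr ⟨k0, kz⟩)

/-- the list without `a` and `b` -/
def a4_del (a b : ℕ) (r : List ℕ) : List ℕ :=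
  List.rec [] (fun x _ ih => a4_c (Nat.beq x b) ih (a4_c (Nat.beq x a) ih (x :: ih))) r

theorem a4_mem_del (a b x : ℕ) (r : List ℕ) : x ∈ a4_del a b r ↔ x ∈ r ∧ x ≠ a ∧ x ≠ b := by
  induction r with
  | nil => simp [a4_del]
  | cons y r ih =>
    have : a4_del a b (y :: r) = a4_c (Nat.beq y b) (a4_del a b r)
      (a4_c (Nat.beq y a) (a4_del a b r) (y :: a4_del a b r)) := rfl
    rw [this]
    simp only [a4_c_eq, Nat.beq_eq]
    split_ifs with h1 h2 <;> simp only [List.mem_cons, ih] <;> grind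

/-- `fin` holds for every pairing of the list -/
def a4_go (fin : (ℕ → ℕ) → Bool) (n : ℕ) : List ℕ → (ℕ → ℕ) → Bool :=
  Nat.rec (fun _ _ => false) (fun _ ih l t => List.casesOn l (fin t) fun a r =>
    r.all fun b => a4_fL (a4_del a b r) fun r' =>
      ih r' fun x => a4_c (Nat.beq x a) b (a4_c (Nat.beq x b) a (t x))) n

theorem a4_go_ok {fin : (ℕ → ℕ) → Bool} {R : ℕ → ℕ} (n : ℕ) : ∀ (l : List ℕ) (t : ℕ → ℕ),
    (∀ x ∈ l, R x ∈ l ∧ R (R x) = x ∧ R x ≠ x) → a4_go fin n l t = true →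
    ∃ t', (∀ x ∈ l, t' x = R x) ∧ (∀ x ∉ l, t' x = t x) ∧ fin t' = true := by
  induction n with
  | zero => intro l t _ h; exact absurd h Bool.false_ne_true
  | succ n ih =>
    intro l t hR h
    cases l with
    | nil => exact ⟨t, by simp, fun _ _ => rfl, h⟩
    | cons a r =>
      have h' : (r.all fun b => a4_fL (a4_del a b r) fun r' => a4_go fin n r'
        fun x => a4_c (Nat.beq x a) b (a4_c (Nat.beq x b) a (t x))) = true := h
      obtain ⟨a1, a2, a3⟩ := hR a List.mem_cons_self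
      have hb : R a ∈ r := (List.mem_cons.1 a1).resolve_left a3
      have h2 := List.all_eq_true.1 h' _ hb
      rw [a4_fL_eq] at h2
      obtain ⟨t', t1, t2, t3⟩ := ih _ _ (fun x hx => by
        rw [a4_mem_del] at hx ⊢
        obtain ⟨b1, b2, b3⟩ := hR x (List.mem_cons_of_mem _ hx.1)
        have n1 : R x ≠ a := fun e => hx.2.2 (by rw [← e, b2])
        exact ⟨⟨(List.mem_cons.1 b1).resolve_left n1, n1,
          fun e => hx.2.1 (by rw [← b2, e, a2])⟩, b2, b3⟩) h2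
      simp only [a4_mem_del, a4_c_eq, Nat.beq_eq] at t1 t2
      refine ⟨t', fun x hx => ?_, fun x hx => ?_, t3⟩
      · by_cases e1 : x = a
        · rw [t2 x (by simp [e1]), if_pos e1, e1]
        · by_cases e2 : x = R a
          · rw [t2 x (by simp [e2]), if_neg e1, if_pos e2, e2, a2]
          · exact t1 x ⟨(List.mem_cons.1 hx).resolve_left e1, e1, e2⟩
      · have e1 : x ≠ a := fun e => hx (e ▸ List.mem_cons_self)
        have e2 : x ≠ R a := fun e => hx (e ▸ a1)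
        rw [t2 x fun h => hx (List.mem_cons_of_mem _ h.1), if_neg e1, if_neg e2]

def a4_mask (l : List ℕ) : ℕ := List.rec 0 (fun a _ ih => Nat.lor ih (Nat.pow 2 a)) l

theorem a4_mask_bit (l : List ℕ) (u : ℕ) : (a4_mask l).testBit u = true ↔ u ∈ l := by
  induction l with
  | nil => simp [a4_mask]
  | cons a l ih =>
    have : a4_mask (a :: l) = a4_mask l ||| 2 ^ a := rfl
    rw [this, Nat.testBit_or, Bool.or_eq_true, ih, Nat.testBit_two_pow, decide_eq_true_eq,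
      List.mem_cons, or_comm, eq_comm]

theorem a4_cover (W : ℕ) (l : List ℕ) :
    Nat.beq (Nat.land W (a4_mask l)) (a4_mask l) = true ↔ ∀ u ∈ l, W.testBit u = true := by
  rw [Nat.beq_eq]
  show W &&& a4_mask l = a4_mask l ↔ _
  constructor
  · intro h u hu
    have := (a4_mask_bit l u).2 hu
    rw [← h, Nat.testBit_and, Bool.and_eq_true] at this
    exact this.1
  · intro h
    refine Nat.eq_of_testBit_eq fun u => ?_
    rw [Nat.testBit_and]
    cases e : (a4_mask l).testBit u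
    · simp
    · simp [h u ((a4_mask_bit l u).1 e)]

/-- the list `l` is one orbit -/
def a4_One (I : ℕ) (R : ℕ → ℕ) (l : List ℕ) : Prop :=
  ∀ Q : ℕ → Prop, (∀ x ∈ l, Q x → Q (a4_get I x)) → (∀ x ∈ l, Q x → Q (R x)) →
    ∀ x ∈ l, ∀ y ∈ l, Q x → Q y

def a4_Inv (I : ℕ) (l : List ℕ) : Prop := ∀ x ∈ l, a4_get I x ∈ l ∧ a4_get I (a4_get I x) = x

def a4_acc (I : ℕ) (t : ℕ → ℕ) (a M : ℕ) : Bool := Nat.beq (Nat.land (a4_walk I t a 8 a 0) M) M
def a4_ref (I : ℕ) (t : ℕ → ℕ) (a M : ℕ) : Bool :=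
  a4_f (a4_walk I t a 8 a 0) fun W => a4_c (Nat.beq W 0) false (!Nat.beq (Nat.land W M) M)
def a4_inv (I : ℕ) (l : List ℕ) (M : ℕ) : Bool :=
  l.all fun x => a4_f (a4_get I x) fun y => M.testBit y && Nat.beq (a4_get I y) x

theorem a4_inv_ok {I : ℕ} {l : List ℕ} (h : a4_inv I l (a4_mask l) = true) : a4_Inv I l := by
  simpa only [a4_Inv, a4_inv, List.all_eq_true, a4_f_eq, Bool.and_eq_true, a4_mask_bit, Nat.beq_eq] using h

theorem a4_acc_ok {I : ℕ} {t R : ℕ → ℕ} {l : List ℕ} {a : ℕ} (ha : a ∈ l) (hI : a4_Inv I l)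
    (hR : ∀ x ∈ l, R x ∈ l ∧ R (R x) = x ∧ R x ≠ x) (ht : ∀ x ∈ l, t x = R x)
    (h : a4_acc I t a (a4_mask l) = true) : a4_One I R l := by
  intro Q q1 q2 x hx y hy hq
  have key : ∀ Q : ℕ → Prop, (∀ x ∈ l, Q x → Q (a4_get I x)) → (∀ x ∈ l, Q x → Q (R x)) →
      Q a → ∀ y ∈ l, Q y := fun Q q1 q2 hq y hy =>
    a4_walk_acc (C := (· ∈ l)) (fun x hx => by rw [ht x hx]; exact ⟨(hR x hx).1, q2 x hx⟩)
      (fun x hx => ⟨(hI x hx).1, q1 x hx⟩) 8 a 0 ha hq (by simp) y ((a4_cover _ _).1 h y hy)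
  refine key Q q1 q2 (by_contra fun hn => key (fun x => ¬Q x) (fun u hu h1 h2 => h1 ?_)
    (fun u hu h1 h2 => h1 ?_) hn x hx hq) y hy
  · have := q1 _ (hI u hu).1 h2
    rwa [(hI u hu).2] at this
  · have := q2 _ (hR u hu).1 h2
    rwa [(hR u hu).2.1] at this

theorem a4_ref_no {I : ℕ} {t R : ℕ → ℕ} {l : List ℕ} {a : ℕ} (ha : a ∈ l) (hI : a4_Inv I l)
    (hR : ∀ x ∈ l, R x ∈ l ∧ R (R x) = x ∧ R x ≠ x) (ht : ∀ x ∈ l, t x = R x)
    (h1 : a4_One I R l) : a4_ref I t a (a4_mask l) ≠ true := by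
  intro h
  simp only [a4_ref, a4_f_eq, a4_c_eq, Nat.beq_eq] at h
  split_ifs at h with e
  obtain ⟨k0, k⟩ := a4_walk_cl (C := (· ∈ l)) (x0 := a) (t := t) (fun x hx => by
    rw [ht x hx, ht _ (hR x hx).1]; exact ⟨(hR x hx).1, (hR x hx).2.1⟩) hI 8 a 0 ha (by simp)
    (.inl rfl) e
  have := (a4_cover (a4_walk I t a 8 a 0) l).2 fun u hu =>
    h1 (fun u => (a4_walk I t a 8 a 0).testBit u = true) (fun x _ hx => (k x hx).2.1)
      (fun x hx h => ht x hx ▸ (k x h).1) a ha u hu k0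
  rw [this] at h
  exact absurd h (by decide)

/-- if `I0` closes the pairing then so does a member of `W` -/
def a4_chk (I0 : ℕ) (W A B : List ℕ) : Bool :=
  a4_fL A fun A => a4_fL B fun B => a4_f (a4_mask A) fun MA => a4_f (a4_mask B) fun MB =>
    a4_f (A.headD 0) fun a => a4_f (B.headD 0) fun b => MA.testBit a && MB.testBit b &&
    (I0 :: W).all (fun I => a4_inv I A MA && a4_inv I B MB) && (W.any (Nat.beq I0) ||
      a4_go (fun t => a4_ref I0 t a MA || a4_fL (W.filter fun I => a4_acc I t a MA) fun L =>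
        a4_go (fun t' => a4_ref I0 t' b MB || L.any fun I => a4_acc I t' b MB) 6 B id) 6 A id)

theorem a4_chk_ok {I0 : ℕ} {W A B : List ℕ} {R : ℕ → ℕ} (h : a4_chk I0 W A B = true)
    (hA : ∀ x ∈ A, R x ∈ A ∧ R (R x) = x ∧ R x ≠ x)
    (hB : ∀ x ∈ B, R x ∈ B ∧ R (R x) = x ∧ R x ≠ x)
    (h0 : a4_Inv I0 A → a4_Inv I0 B → a4_One I0 R A ∧ a4_One I0 R B) :
    ∃ I ∈ W, a4_One I R A ∧ a4_One I R B := by
  simp only [a4_chk, a4_fL_eq, a4_f_eq, Bool.and_eq_true, a4_mask_bit, List.all_eq_true,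
    Bool.or_eq_true, List.any_eq_true, Nat.beq_eq] at h
  obtain ⟨⟨⟨ha, hb⟩, hi⟩, h⟩ := h
  have i0 := hi I0 List.mem_cons_self
  obtain ⟨oA, oB⟩ := h0 (a4_inv_ok i0.1) (a4_inv_ok i0.2)
  rcases h with ⟨I, hI, rfl⟩ | h
  · exact ⟨_, hI, oA, oB⟩
  obtain ⟨t, t1, -, h⟩ := a4_go_ok 6 _ _ hA h
  rw [Bool.or_eq_true] at h
  obtain ⟨t', t2, -, h⟩ := a4_go_ok 6 _ _ hB
    (h.resolve_left (a4_ref_no ha (a4_inv_ok i0.1) hA t1 oA))
  rw [Bool.or_eq_true] at h
  obtain ⟨I, hI, h⟩ := List.any_eq_true.1 (h.resolve_left (a4_ref_no hb (a4_inv_ok i0.2) hB t2 oB))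
  obtain ⟨hI, h'⟩ := List.mem_filter.1 hI
  have i1 := hi I (List.mem_cons_of_mem _ hI)
  exact ⟨I, hI, a4_acc_ok ha (a4_inv_ok i1.1) hA t1 h', a4_acc_ok hb (a4_inv_ok i1.2) hB t2 h⟩

section
variable {p k : ℕ} [NeZero k]

def a4_ix (x : Fin k × Bool) : ℕ := 2 * x.1.val + x.2.toNat
def a4_ux (x : ℕ) : Fin k × Bool := (Fin.ofNat k (x / 2), Nat.beq (x % 2) 1)

theorem a4_ux_ix (x : Fin k × Bool) : a4_ux (a4_ix x) = x := by
  obtain ⟨⟨i, hi⟩, l⟩ := x
  have e1 : (2 * i + l.toNat) / 2 = i := by have := l.toNat_le; omega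
  have e2 : (2 * i + l.toNat) % 2 = l.toNat := by cases l <;> simp
  simp only [a4_ux, a4_ix, e1, e2, Fin.ofNat, Nat.mod_eq_of_lt hi]
  cases l <;> rfl
theorem a4_ix_lt (x : Fin k × Bool) : a4_ix x < 2 * k := by
  have := x.1.2
  have := x.2.toNat_le
  unfold a4_ix
  omega
theorem a4_ix_ux {x : ℕ} (h : x < 2 * k) : a4_ix (a4_ux x : Fin k × Bool) = x := by
  have e : x / 2 % k = x / 2 := Nat.mod_eq_of_lt (by omega)
  simp only [a4_ux, a4_ix, Fin.ofNat, e]
  rcases Nat.mod_two_eq_zero_or_one x with h | h <;> rw [h]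
  · show 2 * (x / 2) + 0 = x
    omega
  · show 2 * (x / 2) + 1 = x
    omega

/-- the boundary port reached from a port, or `2 * k` -/
def a4_rch (e0 : D0 p k → D0 p k) (s : Fin p → LS) (n : ℕ) : D0 p k → Bool → ℕ :=
  Nat.rec (fun _ _ => 2 * k) (fun _ ih d l => Sum.casesOn d
    (fun y => Prod.casesOn ((s y.1).mu (y.2, l)) fun i l' =>
      a4_c l' (ih (e0 (.inl (y.1, i))) true) (ih (e0 (.inl (y.1, i))) false))
    fun i => a4_ix (i, l)) n

theorem a4_rch_ok {α : Type} {e0 : D0 p k → D0 p k} {s : Fin p → LS} (g : D0 p k × Bool → α)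
    (ge : ∀ d l, g (e0 d, l) = g (d, l))
    (gm : ∀ y l, g (.inl (y.1, ((s y.1).mu (y.2, l)).1), ((s y.1).mu (y.2, l)).2) = g (.inl y, l))
    (n : ℕ) : ∀ d l, a4_rch e0 s n d l < 2 * k →
      g (.inr (a4_ux (a4_rch e0 s n d l)).1, (a4_ux (k := k) (a4_rch e0 s n d l)).2) = g (d, l) := by
  induction n with
  | zero => intro d l h; exact absurd h (lt_irrefl _)
  | succ n ih =>
    rintro (y | i) l h
    · have e : a4_rch e0 s (n + 1) (.inl y) l =
          a4_rch e0 s n (e0 (.inl (y.1, ((s y.1).mu (y.2, l)).1))) ((s y.1).mu (y.2, l)).2 := by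
        show a4_c ((s y.1).mu (y.2, l)).2 _ _ = _
        cases ((s y.1).mu (y.2, l)).2 <;> rfl
      rw [e] at h ⊢
      rw [ih _ _ h, ge, gm]
    · have e : a4_rch e0 s (n + 1) (.inr i) l = a4_ix (i, l) := rfl
      rw [e, a4_ux_ix]

/-- the boundary ports of colour `κ` -/
def a4_cls (cB : Fin k × Bool → Bool) (κ : Bool) : List ℕ :=
  (List.range (2 * k)).filter fun x => cB (a4_ux x) == κ

theorem a4_mem_cls {cB : Fin k × Bool → Bool} {κ : Bool} {x : ℕ} :
    x ∈ a4_cls cB κ ↔ x < 2 * k ∧ cB (a4_ux x) = κ := by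
  simp [a4_cls]

def a4_R (ρ : Fin k × Bool → Fin k × Bool) (x : ℕ) : ℕ := a4_ix (ρ (a4_ux x))

theorem a4_R_ok {cB : Fin k × Bool → Bool} {ρ : Fin k × Bool → Fin k × Bool} (hρ : Pairing cB ρ)
    (κ : Bool) : ∀ x ∈ a4_cls cB κ, a4_R ρ x ∈ a4_cls cB κ ∧ a4_R ρ (a4_R ρ x) = x ∧
      a4_R ρ x ≠ x := by
  intro x hx
  simp only [a4_mem_cls, a4_R, a4_ux_ix, (hρ _).1, (hρ _).2.2] at hx ⊢
  refine ⟨⟨a4_ix_lt _, hx.2⟩, a4_ix_ux hx.1, fun e => (hρ (a4_ux x)).2.1 ?_⟩
  rw [← a4_ux_ix (ρ _), e]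

/-- the state `s` fits the boundary colours, has no inner loop and induces the pairing `I` -/
abbrev a4_StA (e0 : D0 p k → D0 p k) (s : Fin p → LS) (cB : Fin k × Bool → Bool) (I : ℕ) : Prop :=
  (∀ j, (s j).a ≠ (s j).m) ∧
  (∀ j i l, c0 s cB (e0 (.inl (j, i)), l) = (s j).cl (i, l) ∧
    a4_rch e0 s 19 (.inl (j, i)) l < 2 * k) ∧
  ∀ i l, a4_get I (a4_ix (i, l)) = a4_rch e0 s 19 (e0 (.inr i)) l

theorem a4_accept {e0 : D0 p k → D0 p k} (ee : ∀ d, e0 (e0 d) = d)
    (eb : ∀ i, ∃ y, e0 (.inr i) = .inl y) {s : Fin p → LS}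
    {cB : Fin k × Bool → Bool} {I : ℕ} (h : a4_StA e0 s cB I) {ρ : Fin k × Bool → Fin k × Bool}
    {κ : Bool} (h1 : a4_One I (a4_R ρ) (a4_cls cB (!κ))) (h2 : a4_One I (a4_R ρ) (a4_cls cB κ)) :
    LG e0 s cB ρ := by
  obtain ⟨ok, hi, hb⟩ := h
  have col : ∀ d l, c0 s cB (e0 d, l) = c0 s cB (d, l) := by
    rintro (y | i) l
    · exact (hi y.1 y.2 l).1
    · obtain ⟨y, hy⟩ := eb i
      have := (hi y.1 y.2 l).1
      rw [← hy, ee] at this
      rw [this, hy]
      rfl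
  have lt : ∀ d l, a4_rch e0 s 19 d l < 2 * k := by
    rintro (y | i) l
    exacts [(hi y.1 y.2 l).2, a4_ix_lt (i, l)]
  have one : ∀ κ', a4_One I (a4_R ρ) (a4_cls cB κ') := fun κ' => by
    cases κ <;> cases κ' <;> assumption
  refine ⟨fun x => col x.1 x.2, fun Q qe qm x y _ _ hc hx => ?_⟩
  have hQ := a4_rch_ok (e0 := e0) (s := s) Q
    (fun d l => propext ⟨fun h => by simpa only [ee] using qe _ trivial h, qe (d, l) trivial⟩)
    (fun y l => propext ⟨fun h => by simpa only [m0, LS.mu_mu _ (ok _)] using qm _ trivial h,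
      qm (.inl y, l) trivial⟩) 19
  have hC := a4_rch_ok (e0 := e0) (s := s) (c0 s cB) col (fun y l => LS.cl_mu _ (ok _) _) 19
  rw [← hQ _ _ (lt _ _)] at hx ⊢
  refine one (c0 s cB x) (fun u => Q (.inr (a4_ux u).1, (a4_ux (k := k) u).2)) (fun u hu h => ?_)
    (fun u _ h => ?_) _ (a4_mem_cls.2 ⟨lt _ _, hC _ _ (lt _ _)⟩) _
    (a4_mem_cls.2 ⟨lt _ _, hc ▸ hC _ _ (lt _ _)⟩) hx
  · have := hb (a4_ux u).1 (a4_ux (k := k) u).2
    rw [a4_ix_ux (a4_mem_cls.1 hu).1] at this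
    rw [this, hQ _ _ (lt _ _)]
    exact qe _ trivial h
  · rw [a4_R, a4_ux_ix]
    exact qm _ trivial h

/-- `I` exchanges the two ends of every path -/
abbrev a4_StB (e0 : D0 p k → D0 p k) (s : Fin p → LS) (I : ℕ) : Prop :=
  (∀ j i l, a4_rch e0 s 19 (e0 (.inl (j, i))) l = a4_get I (a4_rch e0 s 19 (.inl (j, i)) l) ∧
    a4_rch e0 s 19 (.inl (j, ((s j).mu (i, l)).1)) ((s j).mu (i, l)).2 =
      a4_get I (a4_rch e0 s 19 (.inl (j, i)) l)) ∧
  ∀ i l, a4_rch e0 s 19 (e0 (.inr i)) l = a4_get I (a4_ix (i, l))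

theorem a4_hyp {e0 : D0 p k → D0 p k} {s : Fin p → LS} {cB : Fin k × Bool → Bool} {I : ℕ}
    (h : a4_StB e0 s I) {ρ : Fin k × Bool → Fin k × Bool} (hρ : Pairing cB ρ) (hL : LG e0 s cB ρ)
    {κ : Bool} (hI : a4_Inv I (a4_cls cB κ)) : a4_One I (a4_R ρ) (a4_cls cB κ) := by
  intro q q1 q2 x hx y hy hq
  have e : ∀ i l, a4_rch e0 s 19 (.inr i) l = a4_ix (i, l) := fun _ _ => rfl
  have := hL.2 (fun z => a4_rch e0 s 19 z.1 z.2 ∈ a4_cls cB κ ∧ q (a4_rch e0 s 19 z.1 z.2)) ?_ ?_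
    (.inr (a4_ux x).1, (a4_ux (k := k) x).2) (.inr (a4_ux y).1, (a4_ux (k := k) y).2) trivial
    trivial ((a4_mem_cls.1 hx).2.trans (a4_mem_cls.1 hy).2.symm)
    (by rw [e, a4_ix_ux (a4_mem_cls.1 hx).1]; exact ⟨hx, hq⟩)
  · rw [e, a4_ix_ux (a4_mem_cls.1 hy).1] at this
    exact this.2
  · rintro ⟨y | i, l⟩ - ⟨h1, h2⟩
    · rw [(h.1 y.1 y.2 l).1]
      exact ⟨(hI _ h1).1, q1 _ h1 h2⟩
    · rw [h.2 i l]
      exact ⟨(hI _ h1).1, q1 _ h1 h2⟩
  · rintro ⟨y | i, l⟩ - ⟨h1, h2⟩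
    · simp only [m0]
      rw [(h.1 y.1 y.2 l).2]
      exact ⟨(hI _ h1).1, q1 _ h1 h2⟩
    · have e2 : a4_ix (ρ (i, l)) = a4_R ρ (a4_ix (i, l)) := by rw [a4_R, a4_ux_ix]
      simp only [m0]
      rw [e, e2]
      exact ⟨(a4_R_ok hρ κ _ h1).1, q2 _ h1 h2⟩

/-- one case: table of the hypothesis and candidates (code, table) -/
theorem a4_case {p' : ℕ} {e0 : D0 p k → D0 p k} {e1 : D0 p' k → D0 p' k} {s : Fin p → LS}
    {cB : Fin k × Bool → Bool} {ρ : Fin k × Bool → Fin k × Bool} (hρ : Pairing cB ρ)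
    (hL : LG e0 s cB ρ) (ee : ∀ d, e1 (e1 d) = d) (eb : ∀ i, ∃ y, e1 (.inr i) = .inl y)
    {I0 : ℕ} {W : List (ℕ × ℕ)} {κ : Bool} {v : ℕ → Fin p' → LS} {P : (Fin p' → LS) → Prop}
    (h0 : a4_StB e0 s I0)
    (h1 : a4_chk I0 (W.map Prod.snd) (a4_cls cB (!κ)) (a4_cls cB κ) = true)
    (h2 : ∀ w ∈ W, a4_StA e1 (v w.1) cB w.2 ∧ P (v w.1)) :
    ∃ s0, (∀ j, (s0 j).a ≠ (s0 j).m) ∧ P s0 ∧ LG e1 s0 cB ρ := by
  obtain ⟨I, hI, o1, o2⟩ := a4_chk_ok h1 (a4_R_ok hρ _) (a4_R_ok hρ _)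
    fun i1 i2 => ⟨a4_hyp h0 hρ hL i1, a4_hyp h0 hρ hL i2⟩
  obtain ⟨w, hw, rfl⟩ := List.mem_map.1 hI
  exact ⟨_, (h2 w hw).1.1, (h2 w hw).2, a4_accept ee eb (h2 w hw).1 o1 o2⟩
end

/-- a local state from its code -/
def a4_dec (n : ℕ) : LS := ⟨Fin.ofNat 3 n, Fin.ofNat 3 (n / 3), Nat.beq (n / 9 % 2) 1,
  a4_c (Nat.blt n 18) .V (a4_c (Nat.blt n 36) .C (a4_c (Nat.blt n 54) .S .P))⟩
def a4_vec {p : ℕ} (w : ℕ) (j : Fin p) : LS := a4_dec (w / 72 ^ j.val % 72)

end Pool.Agent.MP_8c1b0d_co.RI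
end

section
/-! The finite check for the 4-cycle with its two far ends. -/

set_option autoImplicit false
set_option linter.unusedSectionVars false
set_option synthInstance.maxSize 2048
open Finset Function

namespace Pool.Agent.MP_8c1b0d_co.RI

def a4_two (sx sy : LS) (j : Fin 2) : LS := a4_c (Nat.beq j.val 0) sx sy
def a4_cB (sx sy : LS) (κ : Bool) (x : Fin 6 × Bool) : Bool :=
  ![sx.cl (1, x.2), sx.cl (2, x.2), sy.cl (1, x.2), sy.cl (2, x.2), κ, κ] x.1
/-- the states whose dart `0` has colour `κ` on both levels -/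
def a4_S (κ : Bool) (i : Fin 12) : LS := a4_dec
  ((a4_c κ [10, 28, 46, 64, 11, 29, 47, 65, 57, 59, 60, 61]
    [1, 19, 37, 55, 2, 20, 38, 56, 66, 68, 69, 70]).getD i.val 0)

theorem a4_S_all : ∀ (s : LS) (κ : Bool), s.a ≠ s.m → (∀ l, s.cl (0, l) = κ) →
    ∃ i, a4_S κ i = s := by
  decide +kernel

abbrev a4_Adm (new old : Tp) : Prop :=
  (old = .V → new = .V) ∧ (old = .P → new = .V ∨ new = .P) ∧ (old ≠ .P → new ≠ .P)

abbrev a4_Case (κ : Bool) (sx sy : LS) (e : ℕ × List (ℕ × ℕ)) : Prop :=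
  ((∀ l, (sx.mu (0, l)).1 = 0) ∧ ∀ l, (sy.mu (0, l)).1 = 0) ∨
  (a4_StB eR2 (a4_two sx sy) e.1 ∧
    a4_chk e.1 (e.2.map Prod.snd) (a4_cls (a4_cB sx sy κ) (!κ)) (a4_cls (a4_cB sx sy κ) κ) = true ∧
    ∀ w ∈ e.2, a4_StA eQ2 (a4_vec w.1) (a4_cB sx sy κ) w.2 ∧
      (∀ j : Fin 6, j.val < 4 → (a4_vec w.1 j).t = .V) ∧
      a4_Adm (a4_vec w.1 (4 : Fin 6)).t sx.t ∧ a4_Adm (a4_vec w.1 (5 : Fin 6)).t sy.t)


end Pool.Agent.MP_8c1b0d_co.RI
end

end

-- part MP_8c1b0d_co.RI.A5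
section

set_option autoImplicit false
set_option linter.unusedSectionVars false
open Finset Function

namespace Pool.Agent.MP_8c1b0d_co.RI
variable {V V' : Type} [Fintype V] [DecidableEq V] [Fintype V'] [DecidableEq V'] {G : CG V}
  {G' : CG V'}

section
variable {T : Type}

/-- joined by a path -/
def a5R (e m : T → T) (x y : T) : Prop :=
  ∀ Q : T → Prop, (∀ p, Q p → Q (e p)) → (∀ p, Q p → Q (m p)) → (Q x ↔ Q y)

/-- the set of the visited ports as a bit mask -/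
def a5walk (e m : T → T) (ix : T → ℕ) : ℕ → T → ℕ
  | 0, _ => 0
  | n + 1, x => (2 ^ ix x ||| 2 ^ ix (e x)) ||| a5walk e m ix n (m (e x))

theorem a5walk_spec {e m : T → T} {ix : T → ℕ} (he : ∀ x, e (e x) = x) (hm : ∀ x, m (m x) = x)
    (hi : Injective ix) (y : T) : ∀ (n : ℕ) (x : T),
    (a5walk e m ix n x).testBit (ix y) = true → a5R e m x y
  | 0, x, h => by simp [a5walk] at h
  | n + 1, x, h => by
    have h1 : a5R e m x (e x) := fun Q q1 _ => ⟨q1 x, fun h => he x ▸ q1 _ h⟩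
    have h2 : a5R e m (e x) (m (e x)) := fun Q _ q2 => ⟨q2 _, fun h => hm (e x) ▸ q2 _ h⟩
    simp only [a5walk, Nat.testBit_or, Bool.or_eq_true, Nat.testBit_two_pow,
      decide_eq_true_eq] at h
    rcases h with (h | h) | h
    · rw [← hi h]; exact fun Q _ _ => Iff.rfl
    · rw [← hi h]; exact h1
    · have h3 := a5walk_spec he hm hi y n _ h
      exact fun Q q1 q2 => ((h1 Q q1 q2).trans (h2 Q q1 q2)).trans (h3 Q q1 q2)

theorem a5conn {e m : T → T} {c : T → Bool} {ix : T → ℕ} (he : ∀ x, e (e x) = x)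
    (hm : ∀ x, m (m x) = x) (ce : ∀ x, c (e x) = c x) (cm : ∀ x, c (m x) = c x)
    (hi : Injective ix) {N n : ℕ} (hN : ∀ x, ix x < N) {b0 b1 : T} (hb : c b0 ≠ c b1)
    (h : a5walk e m ix n b0 ||| a5walk e m ix n b1 = 2 ^ N - 1) :
    Conn e m c fun _ => True := by
  have key : ∀ y, a5R e m b0 y ∨ a5R e m b1 y := fun y => by
    have h1 : (a5walk e m ix n b0 ||| a5walk e m ix n b1).testBit (ix y) = true := by
      rw [h, Nat.testBit_two_pow_sub_one]; simpa using hN y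
    rw [Nat.testBit_or, Bool.or_eq_true] at h1
    exact h1.imp (a5walk_spec he hm hi y n _) (a5walk_spec he hm hi y n _)
  have col : ∀ x y, a5R e m x y → c y = c x := fun x y hxy =>
    (hxy (fun z => c z = c x) (fun p hp => (ce p).trans hp) (fun p hp => (cm p).trans hp)).1 rfl
  intro Q q1 q2 p q _ _ hc hp
  have q1' : ∀ p, Q p → Q (e p) := fun p => q1 p trivial
  have q2' : ∀ p, Q p → Q (m p) := fun p => q2 p trivial
  rcases key p with h1 | h1 <;> rcases key q with h2 | h2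
  · exact (h2 Q q1' q2').1 ((h1 Q q1' q2').2 hp)
  · exact absurd ((col _ _ h1).symm.trans (hc.trans (col _ _ h2))) hb
  · exact absurd ((col _ _ h2).symm.trans (hc.symm.trans (col _ _ h1))) hb
  · exact (h2 Q q1' q2').1 ((h1 Q q1' q2').2 hp)
end

section
variable {p : ℕ}

def a5ix : D0 p 0 × Bool → ℕ
  | (.inl y, l) => 6 * y.1.1 + 2 * y.2.1 + l.toNat
  | (.inr i, _) => i.elim0

theorem a5ix_inj : Injective (a5ix (p := p)) := by
  rintro ⟨⟨a, i⟩ | i, l⟩ ⟨⟨a', i'⟩ | i', l'⟩ h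
  · have h1 := i.2
    have h2 := i'.2
    have h3 := Bool.toNat_le l
    have h4 := Bool.toNat_le l'
    simp only [a5ix] at h
    obtain rfl : a = a' := Fin.ext (by omega)
    obtain rfl : i = i' := Fin.ext (by omega)
    have h5 : l.toNat = l'.toNat := by omega
    obtain rfl : l = l' := by revert h5; cases l <;> cases l' <;> simp
    rfl
  · exact i'.elim0
  · exact i.elim0
  · exact i.elim0

theorem a5ix_lt (x : D0 p 0 × Bool) : a5ix x < 6 * p := by
  obtain ⟨⟨a, i⟩ | i, l⟩ := x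
  · have h1 := i.2
    have h2 := a.2
    have h3 := Bool.toNat_le l
    simp only [a5ix]
    omega
  · exact i.elim0

def a5tp (n : ℕ) : Tp := if n = 0 then .V else if n = 1 then .C else if n = 2 then .S else .P
def a5ls (n : ℕ) : LS := ⟨Fin.ofNat 3 n, Fin.ofNat 3 (n / 3), n / 9 % 2 = 1, a5tp (n / 18 % 4)⟩
def a5dec (w : ℕ) (j : Fin p) : LS := a5ls (w / 72 ^ j.1 % 72)
def a5MU : ℕ := 791474222977808400196722155347312253527210041880892861824110324348031232088133508512217842634966023690752268997283198547506891298149550220286904795200571700586239260144625506077252459435847747307240056981266314483812609515256491028518127734222145608422190780614761060665306282411869156815624995031252486115281482202077086132416025374644615688228349946575725562441690682647359217642050226184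
def a5CL : ℕ := 8450016796774473843457466055531688247174046312948939230335816750049072452861924569835589007514838946805985513215115213826704116008
theorem a5tab : ∀ (n : Fin 72) (i : Fin 3) (l : Bool),
    2 * ((a5ls n).mu (i, l)).1.1 + ((a5ls n).mu (i, l)).2.toNat =
      a5MU >>> (3 * (6 * n.1 + (2 * i.1 + l.toNat))) % 8 ∧
    (a5ls n).cl (i, l) = a5CL.testBit (6 * n.1 + (2 * i.1 + l.toNat)) := by decide +kernel
/-- position of the port `n` in the tables -/
def a5at (w n : ℕ) : ℕ := 6 * (w / 72 ^ (n / 6) % 72) + n % 6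
def a5m (w n : ℕ) : ℕ := 6 * (n / 6) + a5MU >>> (3 * a5at w n) % 8
def a5e (T n : ℕ) : ℕ := 2 * (T >>> (5 * (n / 2)) % 32) + n % 2
def a5go (T w n : ℕ) : ℕ → ℕ :=
  Nat.rec (fun _ => 0) (fun _ ih x => a4_f (a5e T x) fun y => a4_f (a5m w y) fun z =>
    Nat.lor (Nat.lor (Nat.pow 2 x) (Nat.pow 2 y)) (ih z)) n

theorem a5port (w : ℕ) (j : Fin p) (i : Fin 3) (l : Bool) :
    a5ix (m0 (a5dec w) id ((.inl (j, i) : D0 p 0), l)) = a5m w (a5ix ((.inl (j, i) : D0 p 0), l)) ∧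
    (a5dec w j).cl (i, l) = a5CL.testBit (a5at w (a5ix ((.inl (j, i) : D0 p 0), l))) := by
  have h1 := i.2
  have h3 := Bool.toNat_le l
  have e1 : (6 * j.1 + 2 * i.1 + l.toNat) / 6 = j.1 := by omega
  have e2 : (6 * j.1 + 2 * i.1 + l.toNat) % 6 = 2 * i.1 + l.toNat := by omega
  obtain ⟨a, b⟩ := a5tab ⟨w / 72 ^ j.1 % 72, Nat.mod_lt _ (by decide)⟩ i l
  simp only [a5ix, m0, a5m, a5at, e1, e2, a5dec]
  exact ⟨by rw [← a, Nat.add_assoc], b⟩

/-- the accepting checker; the base points are the two copies of a dart that is not mono -/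
def a5chk (p T w : ℕ) (r : Fin p) : Prop :=
  (∀ j : Fin p, (a5dec w j).a ≠ (a5dec w j).m) ∧
  ((List.range (6 * p)).all fun n => a5CL.testBit (a5at w (a5e T n)) == a5CL.testBit (a5at w n)) ∧
  (a5dec w r).cl ((a5dec w r).a, false) ≠ (a5dec w r).cl ((a5dec w r).a, true) ∧
  a5go T w (3 * p) (6 * r.1 + 2 * (a5dec w r).a.1 + 0) |||
    a5go T w (3 * p) (6 * r.1 + 2 * (a5dec w r).a.1 + 1) = 2 ^ (6 * p) - 1

instance (p T w : ℕ) (r : Fin p) : Decidable (a5chk p T w r) := by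
  unfold a5chk; infer_instance

theorem a5chk_sound {e0 : D0 p 0 → D0 p 0} {T w : ℕ} (he : (∀ x, e0 (e0 x) = x) ∧
    ∀ x l, a5ix (e0 x, l) = a5e T (a5ix (x, l))) {r : Fin p} (h : a5chk p T w r) :
    (∀ j : Fin p, (a5dec w j).a ≠ (a5dec w j).m) ∧ LG e0 (a5dec w) (fun _ => true) id := by
  obtain ⟨h1, h2, h3, h4⟩ := h
  have cc : ∀ x : D0 p 0 × Bool, c0 (a5dec w) (fun _ => true) x = a5CL.testBit (a5at w (a5ix x)) := by
    rintro ⟨⟨j, i⟩ | i, l⟩
    · exact (a5port w j i l).2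
    · exact i.elim0
  have ce : ∀ x : D0 p 0 × Bool, c0 (a5dec w) (fun _ => true) (e0 x.1, x.2) =
      c0 (a5dec w) (fun _ => true) x := fun x => by
    rw [cc, cc, he.2]
    exact eq_of_beq (List.all_eq_true.1 h2 _ (List.mem_range.2 (a5ix_lt x)))
  have go : ∀ (n : ℕ) (x : D0 p 0 × Bool), a5walk (fun x : D0 p 0 × Bool => (e0 x.1, x.2))
      (m0 (a5dec w) id) a5ix n x = a5go T w n (a5ix x) := fun n => by
    induction n with
    | zero => exact fun _ => rfl
    | succ n ih =>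
      intro x
      have hm : ∀ y : D0 p 0 × Bool, a5ix (m0 (a5dec w) id y) = a5m w (a5ix y) := by
        rintro ⟨⟨j, i⟩ | i, l⟩
        · exact (a5port w j i l).1
        · exact i.elim0
      rw [a5walk, ih, hm, he.2]
      have : a5go T w (n + 1) (a5ix x) = a4_f (a5e T (a5ix x)) fun y => a4_f (a5m w y) fun z =>
        Nat.lor (Nat.lor (Nat.pow 2 (a5ix x)) (Nat.pow 2 y)) (a5go T w n z) := rfl
      rw [this, a4_f_eq, a4_f_eq]
      rfl
  refine ⟨h1, ce, a5conn (b0 := (.inl (r, (a5dec w r).a), false))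
    (b1 := (.inl (r, (a5dec w r).a), true)) (n := 3 * p) (fun x => by simp [he.1]) ?_ ce ?_
    a5ix_inj a5ix_lt h3 (by rw [go, go]; exact h4)⟩
  · rintro ⟨⟨j, i⟩ | i, l⟩
    · simp [m0, LS.mu_mu _ (h1 j)]
    · exact i.elim0
  · rintro ⟨⟨j, i⟩ | i, l⟩
    · exact LS.cl_mu _ (h1 j) _
    · exact i.elim0
end

def a5K (n : ℕ) : ℕ := 996809442643920871702510603702959009581197904827539765638063895341464948240142857535254489801042915924732668516502576563914623660433587702019265885628315350900464456562332223564713391344562886265060132091787058875094148886746336103730122793366691181653916989872167644724025776466714970760302397780251041836507489215960723552615882243129306584768853491474190933667691924211456771292108949335251545104648781859123350254936981048355028195431852460608308140544316118050373117777988140650186071628190010606324050918942445873799290322271945 >>> (50 * n) % 2 ^ 50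
def a5CV (n : ℕ) : ℕ := 87679984466447349623259438223825989810220078749882747648863377756347478238744207390152959321784782015056121253231935569807778804535252327031727890705981926861152529181117268599106108597519121409785524910965974058127669700473978172706030665268180780607395831575717786930113483937827270814282517905053523900250008294058399472613419316527221291138065809597419961673274406471430921144912444636258298370378949798265152245516874352829203785805179041642975035417209548558916423596319068767968619565244129856020119910869962685904446821272149118761102458300841011501801930805146049035318338404218665376603296326007576647063140916377988967766107199771910071546882889959105280082890569905583649189033851149145100046892764480664459985 >>> (50 * n) % 2 ^ 50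
def a5CS (n : ℕ) : ℕ := 257022103852735766546565067863863447421024446806507209906095111462486827442642679692534973886181366433575823875750781405577789045630900930621693285838843438393567356794335369971926597585040441006246765672210362082888929563552054482187384408426099442164782869242336399366764965938644448689655696722910080838272484354657891769130977733276141021953270885547939829170571368481108475263130886764090892102406901751689818966719147674808757756393034081798940593823087531248894037786384323598784432575620185599459579586694575400823320308646435277531935629829398470597072244762820993464021950568166332201999757695106090491537960220933823849558913018522193250145089805274290194556136497856957380695636660754127668969677992275676313707266745676901762955606543838512347641160802363167231005864097000429740392615615456325578293222618819997989294949512157457573507085005618636335065439116701300209683890868206246929831053383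5476494458582773345116886726282269263279640803675636440725156558855177610460873863593357023132356333748203482966408789087447581368696231895639956424235828632828765520151701484550386779788015855610396956340884088341628434025854852583461371136856368224082135241207708444923409024872367955518754801633060136353474310614175814717919783931565495898252251377201882975002158195842730541965018704917889202295843949260080251274826308966091361658870828581249022590552841271983787608988223787682251628096604718685709580240447686145463900485587628862023830427231392041236020369710595875141682685846241758263523062077190157458954201966908915274139129161729142231387142325108164343922956961807376684495020284497651619188886465255206739034591541294114818831227951882635644777470475616330031431163594770670189653536197928838151078860407223159568504040943713132812580895084200765426575398042753388039152071207078879590670855172108195015574811635461073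833852692568268114069368892431826510918085250463320217854308704050168255842982386831894373104264455562815116818471514143572844857253117909599841840345189333800152098076631003116313435577224461290866575284537426275860553060706539097468669163889816475790784298602709909366558025367434981900634236213821204319517363263756230887032925233584287715175391041225215195990806072077000903787891674389017280035899080296027151214786320265909845300815149283263955604193402827425671277309624329037036010569630687498476639097356033312818205495945256546078753968458724107261227290228239684500768537393561531196249001938619427826472008868977905743236488772400782721244516723983631089703407370964052722021441611293888111408064999478192199416457973153352719990807975947407883867563147010360975248319685677888020313995157606755178523879666984977250309943866198219417965942973609942416293726427057332020236838565863067129226582161669685855523557188742546401208194651283075695194646466153144658780442598407659943379721776143913437394417365112896568164352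 >>> (50 * n) % 2 ^ 50
def a5B : List (Fin 8) := [
  4, 1, 3, 5, 2, 0, 6, 3, 1, 7, 0, 2, 0, 5, 7, 1, 6, 4, 2, 7, 5, 3, 4, 6]

def a5sK (r : Fin 4) (m t : Fin 3) : Fin 4 → LS := a5dec (a5K (9 * r.1 + 3 * m.1 + t.1))
def a5sV (r : Fin 8) (m : Fin 3) (t : Fin 2) : Fin 8 → LS :=
  a5dec (a5CV (6 * r.1 + 2 * m.1 + t.1))
def a5sS (r : Fin 8) (m : Fin 3) (j : Fin 8) : Fin 8 → LS :=
  a5dec (a5CS (24 * r.1 + 8 * m.1 + j.1))
def a5bad (r : Fin 8) (m : Fin 3) : Fin 8 := a5B.getD (3 * r.1 + m.1) 0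

theorem a5eK : (∀ x, eK (eK x) = x) ∧ ∀ x l, a5ix (eK x, l) = a5e 76777841758317795 (a5ix (x, l)) := by
  decide +kernel
theorem a5eC : (∀ x, eC (eC x) = x) ∧
    ∀ x l, a5ix (eC x, l) = a5e 807788446363375822334429679082514604 (a5ix (x, l)) := by
  decide +kernel

theorem a5hK : ∀ (r : Fin 4) (m t : Fin 3), a5chk 4 76777841758317795 (a5K (9 * r.1 + 3 * m.1 + t.1)) r ∧ (a5sK r m t r).m = m ∧
    (a5sK r m t r).t = a5tp t.1 ∧ ∀ v, v ≠ r → (a5sK r m t v).t = .V := by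
  decide +kernel
theorem a5hV : ∀ (r : Fin 8) (m : Fin 3) (t : Fin 2),
    a5chk 8 807788446363375822334429679082514604 (a5CV (6 * r.1 + 2 * m.1 + t.1)) r ∧ (a5sV r m t r).m = m ∧
    (a5sV r m t r).t = a5tp t.1 ∧ ∀ v, v ≠ r → (a5sV r m t v).t = .V := by
  decide +kernel
theorem a5hS : ∀ (r : Fin 8) (m : Fin 3) (j : Fin 8), j ≠ r →
    a5chk 8 807788446363375822334429679082514604 (a5CS (24 * r.1 + 8 * m.1 + j.1)) r ∧ (a5sS r m j r).m = m ∧
    (a5sS r m j r).t = .S ∧ (j ≠ a5bad r m → (a5sS r m j j).t ≠ .P ∧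
      ∀ v, v ≠ r → v ≠ j → (a5sS r m j v).t = .V) := by
  decide +kernel
theorem a5hB : ∀ r m, a5bad r m ≠ r ∧ (a5sS r m (a5bad r m) (a5bad r m)).t = .V ∧
    ∀ v, v ≠ r → (a5sS r m (a5bad r m) v).t = .V ∨ (a5sS r m (a5bad r m) v).t = .P := by
  decide +kernel

theorem a5fits {p : ℕ} {M : Finset (Fin p)} {r : Fin p} {s : Fin p → LS}
    (h : ∀ v, v ≠ r → (s v).t = .V) : Fits M r s :=
  fun v hv => ⟨fun _ => by rw [h v hv]; decide, fun _ => .inl (h v hv)⟩

theorem fin_k4 (r : Fin 4) (m : Fin 3) (τ : Tp) (M : Finset (Fin 4)) (h : τ ≠ .P) :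
    ∃ s0 : Fin 4 → LS, (∀ j, (s0 j).a ≠ (s0 j).m) ∧ LG eK s0 (fun _ => true) id ∧
      (s0 r).m = m ∧ (s0 r).t = τ ∧ Fits M r s0 := by
  obtain ⟨t, rfl⟩ : ∃ t : Fin 3, τ = a5tp t.1 := by
    cases τ
    · exact ⟨0, rfl⟩
    · exact ⟨1, rfl⟩
    · exact ⟨2, rfl⟩
    · exact absurd rfl h
  obtain ⟨h1, h2, h3, h4⟩ := a5hK r m t
  exact ⟨_, (a5chk_sound a5eK h1).1, (a5chk_sound a5eK h1).2, h2, h3, a5fits h4⟩

/-- For `τ = V, C` there is a solution with all other vertices of kind `V`. For `τ = S`: if a vertex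
`j ≠ r` is marked there is a solution with kind `C` or `S` at `j` only; otherwise pure vertices are
needed. Find the witnesses by a program. -/
theorem fin_cube (r : Fin 8) (m : Fin 3) (τ : Tp) (M : Finset (Fin 8)) (h : τ ≠ .P) :
    ∃ s0 : Fin 8 → LS, (∀ j, (s0 j).a ≠ (s0 j).m) ∧ LG eC s0 (fun _ => true) id ∧
      (s0 r).m = m ∧ (s0 r).t = τ ∧ Fits M r s0 := by
  by_cases hS : τ = .S
  · subst hS
    by_cases hM : ∃ j ∈ M, j ≠ r ∧ j ≠ a5bad r m
    · obtain ⟨j, hj, hr, hb⟩ := hM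
      obtain ⟨h1, h2, h3, h4⟩ := a5hS r m j hr
      obtain ⟨h5, h6⟩ := h4 hb
      refine ⟨a5sS r m j, (a5chk_sound a5eC h1).1, (a5chk_sound a5eC h1).2, h2, h3, fun v hv => ?_⟩
      by_cases hvj : v = j
      · subst hvj
        exact ⟨fun _ => h5, fun hn => absurd hj hn⟩
      · exact ⟨fun _ => by rw [h6 v hv hvj]; decide, fun _ => .inl (h6 v hv hvj)⟩
    · obtain ⟨b1, b2, b3⟩ := a5hB r m
      obtain ⟨h1, h2, h3, -⟩ := a5hS r m _ b1
      refine ⟨a5sS r m (a5bad r m), (a5chk_sound a5eC h1).1, (a5chk_sound a5eC h1).2, h2, h3,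
        fun v hv => ?_⟩
      refine ⟨fun hvM => ?_, fun _ => b3 v hv⟩
      have hvb : v = a5bad r m := by
        by_contra hn
        exact hM ⟨v, hvM, hv, hn⟩
      rw [hvb, b2]
      decide
  · obtain ⟨t, rfl⟩ : ∃ t : Fin 2, τ = a5tp t.1 := by
      cases τ
      · exact ⟨0, rfl⟩
      · exact ⟨1, rfl⟩
      · exact absurd rfl hS
      · exact absurd rfl h
    obtain ⟨h1, h2, h3, h4⟩ := a5hV r m t
    exact ⟨_, (a5chk_sound a5eC h1).1, (a5chk_sound a5eC h1).2, h2, h3, a5fits h4⟩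

end Pool.Agent.MP_8c1b0d_co.RI

end
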