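import Pool.Agent.MP_8c1b0d_co.Mg.RI_A5

attribute [-instance] NonUnitalAlgSemiHomClass.toDistribMulActionSemiHomClass RCLike.charZero_rclike
  List.instDecidableMemOfLawfulBEq SubfieldClass.toSubringClass
  IsOrderedCancelAddMonoid.toIsOrderedAddMonoid instCharZeroOfIsSemireal FloorSemiring.instCharZero
  IdemSemiring.toSemiring Finset.decidableDforallFinset
  Array.instDecidableForallForallMemOfDecidablePred
  Vector.instDecidableForallForallMemOfDecidablePred Multiset.decidableDforallMultiset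
  AddGroup.covconv AddGroup.addRightReflectLE_of_addRightMono NumberField.instFiniteDimensional
  CommRing.toRing Option.decidableForallMem NonUnitalNormedRing.toNormedAddCommGroup
  Int.decidableLTLE AddQuantale.instAddLeftMono NormedRing.toRing InvOneClass.toOne
  Submodule.IsLattice.finite Std.Sat.CNF.instDecidableExistsVarMemOfDecidableEq
  NumberField.to_charZero CanonicallyOrderedAdd.toAddLeftMono instSMulZeroClass
  AddCommMonoidWithOne.toAddMonoidWithOne CompletePartialOrder.toPartialOrder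

section
set_option autoImplicit false
set_option linter.unusedSectionVars false
open Finset Function

namespace Pool.Agent.MP_8c1b0d_co.RI
variable {V V' : Type} [Fintype V] [DecidableEq V] [Fintype V'] [DecidableEq V'] {G : CG V}
  {G' : CG V'}

namespace CG

theorem mem_bd {S : Finset V} {d : V × Fin 3} : d ∈ G.bd S ↔ d.1 ∈ S ∧ (G.e d).1 ∉ S := by
  simp only [bd, mem_filter, mem_univ, true_and]
theorem e_inj : Injective G.e := fun a b h => by rw [← G.ee a, h, G.ee]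
/-- darts with both ends in `S` -/
def b1a_inner (G : CG V) (S : Finset V) : Finset (V × Fin 3) := {d | d.1 ∈ S ∧ (G.e d).1 ∈ S}
theorem b1a_mem {S : Finset V} {d : V × Fin 3} :
    d ∈ G.b1a_inner S ↔ d.1 ∈ S ∧ (G.e d).1 ∈ S := by
  simp only [b1a_inner, mem_filter, mem_univ, true_and]
theorem b1a_count (S : Finset V) : G.cut S + #(G.b1a_inner S) = 3 * #S := by
  have h1 : Disjoint (G.bd S) (G.b1a_inner S) :=
    Finset.disjoint_left.2 fun d h h' => (mem_bd.1 h).2 (b1a_mem.1 h').2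
  have h2 : G.bd S ∪ G.b1a_inner S = S ×ˢ (univ : Finset (Fin 3)) := by
    ext d
    simp only [mem_union, mem_bd, b1a_mem, mem_product, mem_univ, and_true]
    tauto
  rw [cut, ← card_union_of_disjoint h1, h2, card_product, card_univ, Fintype.card_fin, mul_comm]
theorem b1a_even (S : Finset V) : #(G.b1a_inner S) % 2 = 0 := by
  have h : ∑ _d ∈ G.b1a_inner S, (1 : ZMod 2) = 0 :=
    Finset.sum_involution (fun d _ => G.e d) (fun _ _ => by decide) (fun d _ _ => G.ne d)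
      (fun d hd => b1a_mem.2 ⟨(b1a_mem.1 hd).2, by rw [G.ee]; exact (b1a_mem.1 hd).1⟩)
      fun d _ => G.ee d
  rw [sum_const, nsmul_eq_mul, mul_one, ZMod.natCast_eq_zero_iff] at h
  omega
theorem b1a_compl {S : Finset V} (h : #S < Fintype.card V) : Sᶜ.Nonempty := by
  rw [← card_pos, card_compl]
  omega
theorem cut_compl (S : Finset V) : G.cut Sᶜ = G.cut S := by
  refine card_nbij' G.e G.e (fun d hd => ?_) (fun d hd => ?_) (fun d _ => G.ee d)
    fun d _ => G.ee d
  · have := mem_bd.1 (mem_coe.1 hd)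
    refine mem_coe.2 (mem_bd.2 ?_)
    rw [G.ee]
    simpa [and_comm] using this
  · have := mem_bd.1 (mem_coe.1 hd)
    refine mem_coe.2 (mem_bd.2 ?_)
    rw [G.ee]
    simpa [and_comm] using this
/-- `3 * #S = cut S + (inner darts, paired by e)` -/
theorem cut_parity (S : Finset V) : G.cut S % 2 = #S % 2 := by
  have h1 := b1a_count (G := G) S
  have h2 := b1a_even (G := G) S
  omega
theorem cut_le (S : Finset V) : G.cut S ≤ 3 * #S := by
  have h1 := b1a_count (G := G) S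
  omega
theorem card_even (G : CG V) : Even (Fintype.card V) := by
  have h1 := cut_parity (G := G) univ
  have h2 : G.cut univ = 0 := by
    rw [cut, card_eq_zero]
    ext d
    simp only [mem_bd, mem_univ, not_true_eq_false, and_false, notMem_empty]
  rw [h2, card_univ] at h1
  exact Nat.even_iff.2 (by omega)
/-- submodularity -/
theorem cut_submod (S T : Finset V) : G.cut (S ∩ T) + G.cut (S ∪ T) ≤ G.cut S + G.cut T := by
  simp only [cut, bd, card_filter, ← sum_add_distrib]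
  refine sum_le_sum fun d _ => ?_
  simp only [mem_inter, mem_union]
  by_cases h1 : d.1 ∈ S <;> by_cases h2 : d.1 ∈ T <;> by_cases h3 : (G.e d).1 ∈ S <;>
    by_cases h4 : (G.e d).1 ∈ T <;> simp [h1, h2, h3, h4]
theorem EC3.no_loop (h : G.EC3) (n : 2 ≤ Fintype.card V) (d : V × Fin 3) : (G.e d).1 ≠ d.1 := by
  intro e
  have h1 := h {d.1} (singleton_nonempty _) (b1a_compl (by rw [card_singleton]; omega))
  have h2 := b1a_count (G := G) {d.1}
  have h3 : 0 < #(G.b1a_inner {d.1}) :=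
    card_pos.2 ⟨d, b1a_mem.2 ⟨mem_singleton_self _, mem_singleton.2 e⟩⟩
  rw [card_singleton] at h2
  omega
theorem EC3.simple (h : G.EC3) (n : 3 ≤ Fintype.card V) (v : V) (i j : Fin 3)
    (e : (G.e (v, i)).1 = (G.e (v, j)).1) : i = j := by
  by_contra hij
  have hw : (G.e (v, i)).1 ≠ v := h.no_loop (by omega) (v, i)
  have hc : #({v, (G.e (v, i)).1} : Finset V) = 2 := card_pair hw.symm
  have h1 := h {v, (G.e (v, i)).1} (insert_nonempty _ _) (b1a_compl (by omega))
  have h2 := b1a_count (G := G) {v, (G.e (v, i)).1}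
  have hs : ({(v, i), (v, j), G.e (v, i), G.e (v, j)} : Finset (V × Fin 3)) ⊆
      G.b1a_inner {v, (G.e (v, i)).1} := by
    intro d hd
    simp only [mem_insert, mem_singleton] at hd
    rcases hd with rfl | rfl | rfl | rfl <;> simp [b1a_mem, G.ee, ← e]
  have n1 : ((v, i) : V × Fin 3) ≠ (v, j) := fun z => hij (congrArg Prod.snd z)
  have n2 : ∀ a : Fin 3, ((v, a) : V × Fin 3) ≠ G.e (v, i) :=
    fun a z => hw (congrArg Prod.fst z).symm
  have n3 : ∀ a : Fin 3, ((v, a) : V × Fin 3) ≠ G.e (v, j) :=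
    fun a z => hw (e.trans (congrArg Prod.fst z).symm)
  have n4 : G.e (v, i) ≠ G.e (v, j) := e_inj.ne n1
  have h4 : #({(v, i), (v, j), G.e (v, i), G.e (v, j)} : Finset (V × Fin 3)) = 4 := by
    rw [card_insert_of_notMem (by simp [n2, n3, hij]), card_insert_of_notMem (by simp [n2, n3]),
      card_pair n4]
  have h5 := card_le_card hs
  omega
theorem EC3.cut_single (h : G.EC3) (n : 2 ≤ Fintype.card V) (v : V) : G.cut {v} = 3 := by
  have h2 := b1a_count (G := G) {v}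
  have h3 : G.b1a_inner {v} = ∅ := by
    refine eq_empty_of_forall_notMem fun d hd => ?_
    obtain ⟨a, b⟩ := b1a_mem.1 hd
    exact h.no_loop n d ((mem_singleton.1 b).trans (mem_singleton.1 a).symm)
  rw [h3, card_empty, card_singleton] at h2
  omega
theorem EC3.cut_edge (h : G.EC3) (n : 3 ≤ Fintype.card V) (d : V × Fin 3) :
    G.cut {d.1, (G.e d).1} = 4 := by
  have hw : (G.e d).1 ≠ d.1 := h.no_loop (by omega) d
  have hc : #({d.1, (G.e d).1} : Finset V) = 2 := card_pair hw.symm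
  have h2 := b1a_count (G := G) {d.1, (G.e d).1}
  have key : ∀ x y : V × Fin 3, x.1 = y.1 → (G.e x).1 = (G.e y).1 → x = y := by
    rintro ⟨a, i⟩ ⟨b, j⟩ (rfl : a = b) e
    rw [h.simple n a i j e]
  have h3 : G.b1a_inner {d.1, (G.e d).1} = {d, G.e d} := by
    ext x
    simp only [b1a_mem, mem_insert, mem_singleton]
    constructor
    · rintro ⟨a | a, b | b⟩
      · exact absurd (b.trans a.symm) (h.no_loop (by omega) x)
      · exact Or.inl (key _ _ a b)
      · exact Or.inr (key _ _ a (by rw [G.ee]; exact b))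
      · exact absurd (b.trans a.symm) (h.no_loop (by omega) x)
    · rintro (rfl | rfl)
      · exact ⟨Or.inl rfl, Or.inr rfl⟩
      · exact ⟨Or.inr rfl, Or.inl (by rw [G.ee])⟩
  rw [h3, card_pair (G.ne d).symm] at h2
  omega
/-- a side of a cut with at most five edges is connected -/
theorem EC3.con (h : G.EC3) {S : Finset V} (h5 : G.cut S ≤ 5) (Q : V → Prop)
    (hQ : ∀ d, d.1 ∈ S → (G.e d).1 ∈ S → Q d.1 → Q (G.e d).1) :
    ∀ u ∈ S, ∀ v ∈ S, Q u → Q v := by
  classical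
  intro u hu v hv hQu
  by_contra hQv
  have h1 := h (S.filter Q) ⟨u, mem_filter.2 ⟨hu, hQu⟩⟩
    ⟨v, mem_compl.2 fun z => hQv (mem_filter.1 z).2⟩
  have h2 := h (S.filter fun x => ¬ Q x) ⟨v, mem_filter.2 ⟨hv, hQv⟩⟩
    ⟨u, mem_compl.2 fun z => (mem_filter.1 z).2 hQu⟩
  have hd : Disjoint (G.bd (S.filter Q)) (G.bd (S.filter fun x => ¬ Q x)) :=
    Finset.disjoint_left.2 fun d a b =>
      (mem_filter.1 (mem_bd.1 b).1).2 (mem_filter.1 (mem_bd.1 a).1).2
  have hs : G.bd (S.filter Q) ∪ G.bd (S.filter fun x => ¬ Q x) ⊆ G.bd S := by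
    intro d hd
    rcases mem_union.1 hd with a | a
    · obtain ⟨a1, a2⟩ := mem_bd.1 a
      obtain ⟨a3, a4⟩ := mem_filter.1 a1
      exact mem_bd.2 ⟨a3, fun z => a2 (mem_filter.2 ⟨z, hQ d a3 z a4⟩)⟩
    · obtain ⟨a1, a2⟩ := mem_bd.1 a
      obtain ⟨a3, a4⟩ := mem_filter.1 a1
      refine mem_bd.2 ⟨a3, fun z => a2 (mem_filter.2 ⟨z, fun w => a4 ?_⟩)⟩
      have := hQ (G.e d) z (by rw [G.ee]; exact a3) w
      rwa [G.ee] at this
  have h3 := card_le_card hs
  rw [card_union_of_disjoint hd] at h3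
  unfold cut at h1 h2 h5
  omega
theorem exists_legs {A : Finset V} {k : ℕ} (h : G.cut A = k) :
    ∃ l : Fin k → V × Fin 3, G.Legs A l := by
  refine ⟨fun i => (((G.bd A).equivFinOfCardEq h).symm i : V × Fin 3),
    Subtype.val_injective.comp (Equiv.injective _), fun d => ⟨fun hd => ?_, ?_⟩⟩
  · exact ⟨(G.bd A).equivFinOfCardEq h ⟨d, hd⟩, by simp⟩
  · rintro ⟨i, rfl⟩
    exact Subtype.prop _
theorem Legs.cut {A : Finset V} {k : ℕ} {l : Fin k → V × Fin 3} (h : G.Legs A l) :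
    G.cut A = k := by
  have e : G.bd A = univ.image l := by
    ext d
    simp only [h.mem, mem_image, mem_univ, true_and]
  rw [CG.cut, e, card_image_of_injective _ h.inj, card_univ, Fintype.card_fin]
theorem Legs.compl {A : Finset V} {k : ℕ} {l : Fin k → V × Fin 3} (h : G.Legs A l) :
    G.Legs Aᶜ fun i => G.e (l i) := by
  refine ⟨e_inj.comp h.inj, fun d => ?_⟩
  have e1 : d ∈ G.bd Aᶜ ↔ G.e d ∈ G.bd A := by
    simp [mem_bd, G.ee, and_comm]
  rw [e1, h.mem]
  refine exists_congr fun i => ⟨fun z => by rw [z, G.ee], fun z => by rw [← z, G.ee]⟩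

end CG

end Pool.Agent.MP_8c1b0d_co.RI
end

section
set_option autoImplicit false
set_option linter.unusedSectionVars false
open Finset Function

namespace Pool.Agent.MP_8c1b0d_co.RI
variable {V V' : Type} [Fintype V] [DecidableEq V] [Fintype V'] [DecidableEq V'] {G : CG V}
  {G' : CG V'}

namespace CG

theorem b1_third (a b c : Fin 3) (h : a ≠ b) (h1 : c ≠ a) (h2 : c ≠ b) : c = -(a + b) := by
  revert a b c; decide

theorem b1_erase {P : Finset V} {d d' : V × Fin 3} (hd : d ∈ G.bd P) (hd' : d' ∈ G.bd P)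
    (e : d.1 = d'.1) (n : d ≠ d') : G.cut (P.erase d.1) + 1 ≤ G.cut P := by
  have h1 : G.bd (P.erase d.1) ⊆ insert (G.e (d.1, -(d.2 + d'.2))) (((G.bd P).erase d).erase d') := by
    intro x hx
    obtain ⟨a, b⟩ := mem_bd.1 hx
    obtain ⟨a1, a2⟩ := mem_erase.1 a
    by_cases c : (G.e x).1 ∈ P
    · have c1 : (G.e x).1 = d.1 := by
        by_contra c2
        exact b (mem_erase.2 ⟨c2, c⟩)
      have c3 : ∀ y ∈ G.bd P, y.1 = d.1 → (G.e x).2 ≠ y.2 := fun y hy y1 y2 => by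
        have : G.e x = y := Prod.ext (c1.trans y1.symm) y2
        exact (mem_bd.1 hy).2 (by rw [← this, G.ee]; exact a2)
      have c4 := b1_third d.2 d'.2 _ (fun h => n (Prod.ext e h)) (c3 d hd rfl) (c3 d' hd' e.symm)
      refine mem_insert.2 (Or.inl ?_)
      rw [← c4, ← c1]
      exact (G.ee x).symm
    · refine mem_insert_of_mem (mem_erase.2 ⟨?_, mem_erase.2 ⟨?_, mem_bd.2 ⟨a2, c⟩⟩⟩)
      · rintro rfl; exact a1 e.symm
      · rintro rfl; exact a1 rfl
  have h2 := (card_le_card h1).trans (card_insert_le _ _)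
  have h3 := card_erase_add_one (mem_erase.2 ⟨n.symm, hd'⟩ : d' ∈ (G.bd P).erase d)
  have h4 := card_erase_add_one hd
  unfold cut
  omega

theorem b1_surj (f : Fin 3 → Fin 4) (j w : Fin 4) (h : ∀ i i', f i = f i' → i = i')
    (hj : ∀ i, f i ≠ j) (hw : w ≠ j) : ∃ i, f i = w := by
  revert f j w; decide +kernel

/-- the table of `eK` -/
def b1_t (y : Fin 4 × Fin 3) : Fin 4 × Fin 3 := ![![(1, 0), (2, 1), (3, 2)], ![(0, 0), (3, 1), (2, 2)],
  ![(3, 0), (0, 1), (1, 2)], ![(2, 0), (1, 1), (0, 2)]] y.1 y.2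

theorem b1_t1 (y : Fin 4 × Fin 3) : (b1_t (b1_t y)).1 = y.1 ∧ (b1_t y).1 ≠ y.1 := by
  revert y; decide
theorem b1_t2 (j : Fin 4) (i i' : Fin 3) (h : (b1_t (j, i)).1 = (b1_t (j, i')).1) : i = i' := by
  revert j i i'; decide

/-- a vertex with two legs gives a 3-cut `P - u` -/
theorem IC5.leg_inj {P : Finset V} (h : G.IC5 P) (h4 : G.cut P = 4) (h6 : 6 ≤ #P)
    (d : V × Fin 3) (hd : d ∈ G.bd P) (d' : V × Fin 3) (hd' : d' ∈ G.bd P) (e : d.1 = d'.1) :
    d = d' := by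
  by_contra n
  have h1 := b1_erase hd hd' e n
  have h2 := card_erase_add_one (mem_bd.1 hd).1
  rcases h _ (erase_subset d.1 P) (by omega) with h3 | h3
  · omega
  · rw [h3] at h2; omega
theorem C4.leg_inj (h : G.C4) {A : Finset V} (h4 : G.cut A = 4) (h1 : 4 ≤ #A) (h2 : 2 ≤ #Aᶜ)
    (d : V × Fin 3) (hd : d ∈ G.bd A) (d' : V × Fin 3) (hd' : d' ∈ G.bd A) (e : d.1 = d'.1) :
    d = d' := by
  by_contra n
  have h5 := b1_erase hd hd' e n
  have h6 := card_erase_add_one (mem_bd.1 hd).1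
  have h7 : #Aᶜ ≤ #(A.erase d.1)ᶜ := card_le_card (compl_subset_compl.2 (erase_subset _ _))
  rcases h (A.erase d.1) (by omega) with h3 | h3 <;> omega
theorem IC5.small {P : Finset V} (h : G.IC5 P) (h3 : G.EC3) (h4 : G.cut P = 4) :
    ∀ S ⊆ P, G.cut S ≤ 3 → #S ≤ 1 := by
  intro S hS hc
  rcases h S hS (by omega) with h1 | rfl
  · by_contra h2
    have h5 := cut_parity (G := G) S
    obtain ⟨d, hd⟩ : (G.bd P).Nonempty := card_pos.1 (by unfold cut at h4; omega)
    have h6 := h3 S (card_pos.1 (by omega)) ⟨_, mem_compl.2 fun a => (mem_bd.1 hd).2 (hS a)⟩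
    omega
  · omega

/-- CASES. If there is no nontrivial 3-cut then `C4` holds (parity). Among the sets `S` with
`r ∉ S`, `3 ≤ #S`, `3 ≤ #Sᶜ`, `cut S ≤ 4` take one of least size; if there is none take the
complement of the edge `d0`. -/
theorem cases (h : G.EC3) (n : 4 ≤ Fintype.card V) (d0 : V × Fin 3) :
    Fintype.card V = 4 ∨ (∃ A : Finset V, d0.1 ∈ A ∧ G.cut A = 3 ∧ 3 ≤ #A ∧ 3 ≤ #Aᶜ) ∨
    (G.C4 ∧ 6 ≤ Fintype.card V ∧ ((∃ F : Finset V, d0.1 ∉ F ∧ #F = 4 ∧ G.cut F = 4) ∨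
      ∃ P : Finset V, d0.1 ∉ P ∧ G.cut P = 4 ∧ 6 ≤ #P ∧ G.IC5 P ∧
        (4 ≤ #Pᶜ ∨ Pᶜ = {d0.1, (G.e d0).1}))) := by
  by_cases n4 : Fintype.card V = 4
  · exact Or.inl n4
  obtain ⟨m, hm⟩ := G.card_even
  have n6 : 6 ≤ Fintype.card V := by omega
  refine Or.inr ?_
  by_cases h3 : ∃ A : Finset V, G.cut A = 3 ∧ 3 ≤ #A ∧ 3 ≤ #Aᶜ
  · obtain ⟨A, a1, a2, a3⟩ := h3
    by_cases a : d0.1 ∈ A
    · exact Or.inl ⟨A, a, a1, a2, a3⟩
    · exact Or.inl ⟨Aᶜ, mem_compl.2 a, by rw [cut_compl, a1], a3, by rwa [compl_compl]⟩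
  have par : ∀ S : Finset V, G.cut S % 2 = #S % 2 ∧ G.cut S % 2 = #Sᶜ % 2 := fun S =>
    ⟨cut_parity S, by rw [← cut_compl]; exact cut_parity _⟩
  have c4 : G.C4 := fun S hS => by
    by_contra c
    have c1 := h S (card_pos.1 (by omega)) (card_pos.1 (by omega))
    have c2 := par S
    exact h3 ⟨S, by omega, by omega, by omega⟩
  refine Or.inr ⟨c4, n6, ?_⟩
  by_cases hF : ∃ S : Finset V, d0.1 ∉ S ∧ 3 ≤ #S ∧ 3 ≤ #Sᶜ ∧ G.cut S ≤ 4
  · obtain ⟨P, hP, hmin⟩ := exists_min_image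
      (univ.filter fun S : Finset V => d0.1 ∉ S ∧ 3 ≤ #S ∧ 3 ≤ #Sᶜ ∧ G.cut S ≤ 4) card
      (by obtain ⟨S, hS⟩ := hF; exact ⟨S, mem_filter.2 ⟨mem_univ _, hS⟩⟩)
    obtain ⟨p1, p2, p3, p4⟩ := (mem_filter.1 hP).2
    have p5 : G.cut P = 4 := by
      by_contra c
      rcases c4 P (by omega) with c1 | c1 <;> omega
    have p6 := par P
    by_cases p7 : #P = 4
    · exact Or.inl ⟨P, p1, p7, p5⟩
    refine Or.inr ⟨P, p1, p5, by omega, fun S hS hc => ?_, Or.inl (by omega)⟩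
    by_cases c : #S ≤ 2
    · exact Or.inl c
    have c1 : #Pᶜ ≤ #Sᶜ := card_le_card (compl_subset_compl.2 hS)
    exact Or.inr (eq_of_subset_of_card_le hS (hmin S (mem_filter.2
      ⟨mem_univ _, fun a => p1 (hS a), by omega, by omega, hc⟩)))
  · have e1 : #({d0.1, (G.e d0).1} : Finset V) = 2 := card_pair (h.no_loop (by omega) d0).symm
    have e2 := card_add_card_compl ({d0.1, (G.e d0).1} : Finset V)
    have e3 : G.cut ({d0.1, (G.e d0).1} : Finset V)ᶜ = 4 := by
      rw [cut_compl, h.cut_edge (by omega)]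
    have e4 : d0.1 ∉ ({d0.1, (G.e d0).1} : Finset V)ᶜ := by simp
    by_cases e5 : Fintype.card V = 6
    · exact Or.inl ⟨_, e4, by omega, e3⟩
    refine Or.inr ⟨_, e4, e3, by omega, fun S hS hc => ?_, Or.inr (compl_compl _)⟩
    by_cases c : #S ≤ 2
    · exact Or.inl c
    have c1 := card_add_card_compl S
    have c2 : ¬ 3 ≤ #Sᶜ := fun c3 => hF ⟨S, fun a => e4 (hS a), by omega, c3, hc⟩
    exact Or.inr (eq_of_subset_of_card_le hS (by omega))

/-- four vertices: the graph is simple, hence complete; `ψ j i` is the dart from `q j` to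
`q (eK ..)` -/
theorem chart_k4 (h : G.EC3) (n : Fintype.card V = 4) :
    ∃ q ψ b, Chart G ∅ eK q ψ b := by
  let q : Fin 4 ≃ V := (Fintype.equivFinOfCardEq n).symm
  have h1 : ∀ j i, ∃ x, (G.e (q j, x)).1 = q (b1_t (j, i)).1 := fun j i => by
    obtain ⟨x, hx⟩ := b1_surj (fun x => q.symm (G.e (q j, x)).1) j (b1_t (j, i)).1
      (fun a b e => h.simple (by omega) _ a b (q.symm.injective e))
      (fun a e => h.no_loop (by omega) (q j, a) (q.symm_apply_eq.1 e)) (b1_t1 (j, i)).2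
    exact ⟨x, q.symm_apply_eq.1 hx⟩
  choose f hf using h1
  have h2 : ∀ j, Bijective (f j) := fun j => Finite.injective_iff_bijective.1 fun a b e =>
    b1_t2 j a b (q.injective (by rw [← hf, ← hf, e]))
  refine ⟨q, fun j => Equiv.ofBijective (f j) (h2 j), Fin.elim0, q.injective,
    fun v => ⟨fun _ => q.surjective v, fun _ => notMem_empty v⟩, fun a => a.elim0, fun a => a.elim0, ?_⟩
  rintro (⟨j, i⟩ | i)
  · show G.e (q j, f j i) = (q (b1_t (j, i)).1, f (b1_t (j, i)).1 (b1_t (j, i)).2)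
    refine Prod.ext (hf j i) (h.simple (by omega) (q (b1_t (j, i)).1) _ _ ?_)
    rw [hf, ← hf j i]
    show (G.e (G.e (q j, f j i))).1 = q (b1_t (b1_t (j, i))).1
    rw [G.ee, (b1_t1 (j, i)).1]
  · exact i.elim0

end CG

end Pool.Agent.MP_8c1b0d_co.RI
end

section
set_option autoImplicit false
set_option linter.unusedSectionVars false
open Finset Function

namespace Pool.Agent.MP_8c1b0d_co.RI
variable {V V' : Type} [Fintype V] [DecidableEq V] [Fintype V'] [DecidableEq V'] {G : CG V}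
  {G' : CG V'}

namespace CG
variable {op : V × Fin 3 → ℕ}

/-- the cycle space of the graph on `S` -/
def b2_Z (G : CG V) (S : Finset V) : Submodule (ZMod 2) (V × Fin 3 → ZMod 2) where
  carrier := {w | (∀ d, ¬(d.1 ∈ S ∧ (G.e d).1 ∈ S) → w d = 0) ∧ (∀ d, w (G.e d) = w d) ∧
    ∀ v, w (v, 0) + w (v, 1) + w (v, 2) = 0}
  add_mem' := by
    rintro a b ⟨a1, a2, a3⟩ ⟨b1, b2, b3⟩
    refine ⟨fun d hd => ?_, fun d => ?_, fun v => ?_⟩
    · rw [Pi.add_apply, a1 d hd, b1 d hd, add_zero]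
    · rw [Pi.add_apply, Pi.add_apply, a2, b2]
    · simp only [Pi.add_apply]
      linear_combination a3 v + b3 v
  zero_mem' := ⟨fun _ _ => rfl, fun _ => rfl, fun _ => by simp⟩
  smul_mem' := by
    rintro c a ⟨a1, a2, a3⟩
    refine ⟨fun d hd => ?_, fun d => ?_, fun v => ?_⟩
    · rw [Pi.smul_apply, a1 d hd, smul_zero]
    · rw [Pi.smul_apply, Pi.smul_apply, a2]
    · simp only [Pi.smul_apply, smul_eq_mul]
      linear_combination c * a3 v

theorem b2_two (a : ZMod 2) : a + a = 0 := by revert a; decide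

theorem b2_core {S : Finset V} (con : ∀ Q : V → Prop,
    (∀ d, d.1 ∈ S → (G.e d).1 ∈ S → Q d.1 → Q (G.e d).1) → ∀ u ∈ S, ∀ v ∈ S, Q u → Q v) :
    2 * Module.finrank (ZMod 2) (G.b2_Z S) + G.cut S ≤ #S + 2 := by
  classical
  obtain ⟨T0, hT0⟩ := exists_transversal G.ee G.ne
  let H : Finset (V × Fin 3) := {d | d.1 ∈ S ∧ (G.e d).1 ∈ S}
  have hH : ∀ d, d ∈ H ↔ d.1 ∈ S ∧ (G.e d).1 ∈ S := by intro d; simp only [H, mem_filter, mem_univ, true_and]
  let T : Finset (V × Fin 3) := H.filter (· ∈ T0)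
  have hT : ∀ d, d ∈ T ↔ (d.1 ∈ S ∧ (G.e d).1 ∈ S) ∧ d ∈ T0 := by
    intro d; simp only [T, mem_filter, hH]
  have hor : ∀ d, d.1 ∈ S → (G.e d).1 ∈ S → d ∈ T ∨ G.e d ∈ T := by
    intro d h1 h2
    by_cases c : d ∈ T0
    · exact Or.inl ((hT _).2 ⟨⟨h1, h2⟩, c⟩)
    · exact Or.inr ((hT _).2 ⟨⟨h2, by rwa [G.ee]⟩, (hT0 d).2 c⟩)
  have hsum : ∀ {M : Type} [AddCommMonoid M] (f : V × Fin 3 → M),
      ∑ t ∈ H, f t = ∑ t ∈ T, (f t + f (G.e t)) := by
    intro M _ f
    rw [sum_add_distrib, ← sum_filter_add_sum_filter_not H (· ∈ T0)]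
    congr 1
    refine sum_bij' (fun t _ => G.e t) (fun t _ => G.e t) ?_ ?_ (fun t _ => G.ee t)
      (fun t _ => G.ee t) (fun t _ => by rw [G.ee])
    · intro d hd
      obtain ⟨a, b⟩ := mem_filter.1 hd
      obtain ⟨a1, a2⟩ := (hH _).1 a
      exact (hor d a1 a2).resolve_left fun c => b ((hT _).1 c).2
    · intro d hd
      obtain ⟨⟨a1, a2⟩, b⟩ := (hT _).1 hd
      exact mem_filter.2 ⟨(hH _).2 ⟨a2, by rwa [G.ee]⟩, fun c => (hT0 d).1 c b⟩
  have hcard : 2 * #T + G.cut S = 3 * #S := by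
    have h1 := hsum (fun _ => (1 : ℕ))
    have h2 : H ∪ G.bd S = S ×ˢ univ := by
      ext d
      simp only [mem_union, hH, mem_bd, mem_product, mem_univ, and_true]
      tauto
    have h3 : Disjoint H (G.bd S) :=
      disjoint_left.2 fun d a b => (mem_bd.1 b).2 ((hH d).1 a).2
    have h4 := card_union_of_disjoint h3
    rw [h2] at h4
    simp only [sum_const, smul_eq_mul, mul_one, card_product, card_univ, Fintype.card_fin] at h1 h4
    unfold cut
    omega
  let r : G.b2_Z S →ₗ[ZMod 2] (T → ZMod 2) :=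
    (LinearMap.funLeft (ZMod 2) (ZMod 2) (fun t : T => (t : V × Fin 3))).comp (G.b2_Z S).subtype
  have hr : Injective r := by
    rw [injective_iff_map_eq_zero]
    rintro ⟨w, w1, w2, w3⟩ hw
    ext d
    change w d = 0
    by_cases c : d.1 ∈ S ∧ (G.e d).1 ∈ S
    · rcases hor d c.1 c.2 with k | k
      · exact congrFun hw ⟨d, k⟩
      · rw [← w2]; exact congrFun hw ⟨_, k⟩
    · exact w1 d c
  rcases S.eq_empty_or_nonempty with hS | ⟨v₀, hv₀⟩
  · have k := LinearMap.finrank_le_finrank_of_injective hr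
    rw [Module.finrank_fintype_fun_eq_card, Fintype.card_coe] at k
    have : #S = 0 := by rw [hS]; rfl
    omega
  let A : V → S := fun v => if h : v ∈ S then ⟨v, h⟩ else ⟨v₀, hv₀⟩
  have hA : ∀ u : S, A u.1 = u := fun u => dif_pos u.2
  have kA := finrank_cob (K := ZMod 2) G.e (fun d => A d.1) T fun g hg u v => by
    have := con (fun x => g u = g (A x)) (fun d h1 h2 hq => by
      rcases hor d h1 h2 with k | k
      · exact hq.trans (sub_eq_zero.1 (hg d k))
      · have := sub_eq_zero.1 (hg _ k)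
        rw [G.ee] at this
        exact hq.trans this.symm) u.1 u.2 v.1 v.2 (by rw [hA])
    rwa [hA] at this
  rw [Fintype.card_coe] at kA
  set δ := LinearMap.funLeft (ZMod 2) (ZMod 2) (fun d : T => A d.1.1) -
    LinearMap.funLeft (ZMod 2) (ZMod 2) fun d : T => A (G.e d.1).1
  let B : LinearMap.BilinForm (ZMod 2) (T → ZMod 2) := dotProductBilin (ZMod 2) (ZMod 2)
  have hB : B.Nondegenerate := by
    constructor
    · intro u hu
      funext d
      simpa only [Pi.zero_apply, B, dotProductBilin_apply_apply, dotProduct_single, mul_one] using hu (Pi.single d 1)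
    · intro u hu
      funext d
      simpa only [Pi.zero_apply, B, dotProductBilin_apply_apply, single_dotProduct, one_mul] using hu (Pi.single d 1)
  have le : LinearMap.range r ≤ B.orthogonal (LinearMap.range δ) := by
    rintro _ ⟨⟨w, w1, w2, w3⟩, rfl⟩ _ ⟨g, rfl⟩
    have e1 := hsum fun d => g (A d.1) * w d
    have e2 : ∑ d ∈ H, g (A d.1) * w d = ∑ d, g (A d.1) * w d :=
      sum_subset (subset_univ H) fun d _ hd => by rw [w1 d fun c => hd ((hH d).2 c), mul_zero]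
    have e3 : ∑ d : V × Fin 3, g (A d.1) * w d = 0 := by
      rw [Fintype.sum_prod_type]
      refine sum_eq_zero fun v _ => ?_
      rw [Fin.sum_univ_three]
      linear_combination g (A v) * w3 v
    rw [e2, e3, ← sum_coe_sort] at e1
    change ∑ d : T, (g (A d.1.1) - g (A (G.e d.1).1)) * w d.1 = 0
    rw [e1]
    refine sum_congr rfl fun d _ => ?_
    rw [w2]
    linear_combination -b2_two (g (A (G.e d.1).1) * w d.1)
  have k := LinearMap.BilinForm.finrank_orthogonal hB (LinearMap.range δ)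
  rw [Module.finrank_fintype_fun_eq_card, Fintype.card_coe] at k
  have k' := Submodule.finrank_le (LinearMap.range δ)
  rw [Module.finrank_fintype_fun_eq_card, Fintype.card_coe] at k'
  have k2 := Submodule.finrank_mono le
  rw [LinearMap.finrank_range_of_inj hr] at k2
  omega

/-- extension by zero -/
def b2_ext (I : Finset ℕ) (g : I → ZMod 2) (x : ℕ) : ZMod 2 := if h : x ∈ I then g ⟨x, h⟩ else 0

/-- the coboundary of a function on the labels -/
def b2_del (op : V × Fin 3 → ℕ) (S : Finset V) (I : Finset ℕ) :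
    (I → ZMod 2) →ₗ[ZMod 2] (V × Fin 3 → ZMod 2) where
  toFun g d := if d.1 ∈ S then b2_ext I g (op (d.1, d.2 + 1)) + b2_ext I g (op (d.1, d.2 + 2))
    else 0
  map_add' a b := by
    funext d
    simp only [b2_ext, Pi.add_apply]
    split_ifs <;> ring
  map_smul' c a := by
    funext d
    simp only [b2_ext, Pi.smul_apply, smul_eq_mul, RingHom.id_apply]
    split_ifs <;> ring

theorem b2_del_pos {S : Finset V} {I : Finset ℕ} (g : I → ZMod 2) {d : V × Fin 3} (h : d.1 ∈ S) :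
    b2_del op S I g d = b2_ext I g (op (d.1, d.2 + 1)) + b2_ext I g (op (d.1, d.2 + 2)) :=
  if_pos h

theorem b2_del_neg {S : Finset V} {I : Finset ℕ} (g : I → ZMod 2) {d : V × Fin 3} (h : d.1 ∉ S) :
    b2_del op S I g d = 0 := if_neg h

theorem b2_range (mat : ∀ d, prs op (G.e d) = prs op d) {S : Finset V} {I : Finset ℕ}
    (hI : ∀ x ∈ I, ∀ d ∈ G.bd S, x ∉ prs op d) : LinearMap.range (b2_del op S I) ≤ G.b2_Z S := by
  rintro _ ⟨g, rfl⟩
  have h1 : ∀ d, ¬(d.1 ∈ S ∧ (G.e d).1 ∈ S) → b2_del op S I g d = 0 := by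
    intro d hd
    by_cases c : d.1 ∈ S
    · have hb : d ∈ G.bd S := mem_bd.2 ⟨c, fun k => hd ⟨c, k⟩⟩
      rw [b2_del_pos g c, b2_ext, b2_ext, dif_neg fun k => hI _ k d hb (Sym2.mem_mk_left _ _),
        dif_neg fun k => hI _ k d hb (Sym2.mem_mk_right _ _), add_zero]
    · exact b2_del_neg g c
  refine ⟨h1, fun d => ?_, fun v => ?_⟩
  · by_cases c : d.1 ∈ S ∧ (G.e d).1 ∈ S
    · rw [b2_del_pos g c.1, b2_del_pos g c.2]
      rcases Sym2.eq_iff.1 (mat d) with ⟨a, b⟩ | ⟨a, b⟩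
      · rw [a, b]
      · rw [a, b, add_comm]
    · rw [h1 d c, h1 _ fun k => c ⟨by simpa only [G.ee] using k.2, k.1⟩]
  · by_cases c : v ∈ S
    · rw [b2_del_pos g (d := (v, 0)) c, b2_del_pos g (d := (v, 1)) c, b2_del_pos g (d := (v, 2)) c]
      change (b2_ext I g (op (v, 1)) + b2_ext I g (op (v, 2))) +
        (b2_ext I g (op (v, 2)) + b2_ext I g (op (v, 0))) +
        (b2_ext I g (op (v, 0)) + b2_ext I g (op (v, 1))) = 0
      linear_combination b2_two (b2_ext I g (op (v, 0))) + b2_two (b2_ext I g (op (v, 1))) +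
        b2_two (b2_ext I g (op (v, 2)))
    · rw [b2_del_neg g (d := (v, 0)) c, b2_del_neg g (d := (v, 1)) c, b2_del_neg g (d := (v, 2)) c]
      simp

theorem b2_ker (h3 : G.EC3) (mat : ∀ d, prs op (G.e d) = prs op d) {S : Finset V}
    (h5 : G.cut S ≤ 5) {I : Finset ℕ} {g : I → ZMod 2} (hg : b2_del op S I g = 0) :
    ∀ u ∈ S, ∀ v ∈ S, ∀ i j, b2_ext I g (op (u, i)) = b2_ext I g (op (v, j)) := by
  have loc : ∀ v ∈ S, ∀ i, b2_ext I g (op (v, i)) = b2_ext I g (op (v, 0)) := by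
    intro v hv i
    have a1 := b2_del_pos (op := op) g (d := (v, 1)) hv
    have a2 := b2_del_pos (op := op) g (d := (v, 2)) hv
    rw [hg] at a1 a2
    change 0 = b2_ext I g (op (v, 2)) + b2_ext I g (op (v, 0)) at a1
    change 0 = b2_ext I g (op (v, 0)) + b2_ext I g (op (v, 1)) at a2
    fin_cases i
    · rfl
    · change b2_ext I g (op (v, 1)) = _
      linear_combination -a2 - b2_two (b2_ext I g (op (v, 0)))
    · change b2_ext I g (op (v, 2)) = _
      linear_combination -a1 - b2_two (b2_ext I g (op (v, 0)))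
  intro u hu v hv i j
  rw [loc u hu, loc v hv]
  refine h3.con h5 (fun x => b2_ext I g (op (u, 0)) = b2_ext I g (op (x, 0)))
    (fun d h1 h2 hq => ?_) u hu v hv rfl
  rw [hq, ← loc _ h2 ((G.e d).2 + 1)]
  rcases Sym2.eq_iff.1 (mat d) with ⟨a, -⟩ | ⟨a, -⟩
  · rw [a]; exact (loc _ h1 _).symm
  · rw [a]; exact (loc _ h1 _).symm

theorem b2_cut_univ : G.cut univ = 0 := by
  simp only [cut, bd, mem_univ, not_true_eq_false, and_false, filter_false, card_empty]

theorem b2_all [Nonempty V] (h3 : G.EC3) (mat : ∀ d, prs op (G.e d) = prs op d) :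
    #(univ.image op) ≤
      Module.finrank (ZMod 2) (LinearMap.range (b2_del op univ (univ.image op))) + 1 := by
  set δ := b2_del op univ (univ.image op)
  have k3 := LinearMap.finrank_range_add_finrank_ker δ
  rw [Module.finrank_fintype_fun_eq_card, Fintype.card_coe] at k3
  obtain ⟨v₀⟩ := ‹Nonempty V›
  have m : ∀ d, op d ∈ univ.image op := fun d => mem_image_of_mem op (mem_univ d)
  have k1 : Module.finrank (ZMod 2) (LinearMap.ker δ) ≤ 1 := by
    let r : LinearMap.ker δ →ₗ[ZMod 2] ZMod 2 :=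
      (LinearMap.proj ⟨op (v₀, 0), m _⟩).comp (LinearMap.ker δ).subtype
    have hr : Injective r := by
      rw [injective_iff_map_eq_zero]
      rintro ⟨g, hg⟩ h0
      ext ⟨x, hx⟩
      obtain ⟨d, -, rfl⟩ := mem_image.1 hx
      have := b2_ker h3 mat (by rw [b2_cut_univ]; omega) (LinearMap.mem_ker.1 hg) d.1 (mem_univ _)
        v₀ (mem_univ _) d.2 0
      rw [b2_ext, b2_ext, dif_pos (m _), dif_pos (m _)] at this
      exact this.trans h0
    simpa only [ge_iff_le, Module.finrank_self] using LinearMap.finrank_le_finrank_of_injective hr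
  omega

/-- FR. Over `ZMod 2`: functions on the labels of `S` that lie on no dart of `bd S`, extended by
zero, embed by `h ↦ (d ↦ h (op (d.1, d.2+1)) + h (op (d.1, d.2+2)))` into the cycle space of the
connected graph on `S`. Compare `PG.fr` in FA.lean and `exact_of_euler` in Heawood.lean. -/
theorem fr (h3 : G.EC3) (mat : ∀ d, prs op (G.e d) = prs op d) {S : Finset V} (h0 : 0 < G.cut S)
    (h5 : G.cut S ≤ 5) :
    2 * #{x ∈ (S ×ˢ univ).image op | ∀ d ∈ G.bd S, x ∉ prs op d} + G.cut S ≤ #S + 2 := by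
  set I := {x ∈ (S ×ˢ univ).image op | ∀ d ∈ G.bd S, x ∉ prs op d} with hI
  have hI' : ∀ x ∈ I, ∀ d ∈ G.bd S, x ∉ prs op d := fun x hx => (mem_filter.1 hx).2
  have k1 := b2_core (G := G) (S := S) (h3.con h5)
  have k2 := Submodule.finrank_mono (b2_range mat hI')
  obtain ⟨d₀, hd₀⟩ := card_pos.1 h0
  have inj : Injective (b2_del op S I) := by
    rw [injective_iff_map_eq_zero]
    intro g hg
    funext ⟨x, hx⟩
    obtain ⟨d, hd, rfl⟩ := mem_image.1 (mem_filter.1 hx).1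
    have := b2_ker h3 mat h5 hg d.1 (mem_product.1 hd).1 d₀.1 (mem_bd.1 hd₀).1 d.2 (d₀.2 + 1)
    rwa [b2_ext, b2_ext, dif_pos hx, dif_neg fun k => hI' _ k d₀ hd₀ (Sym2.mem_mk_left _ _)] at this
  rw [LinearMap.finrank_range_of_inj inj, Module.finrank_fintype_fun_eq_card,
    Fintype.card_coe] at k2
  omega

/-- Euler inequality (for instance `fr` for the complement of a vertex) -/
theorem euler_le [Nonempty V] (h3 : G.EC3) (mat : ∀ d, prs op (G.e d) = prs op d) :
    2 * #(univ.image op) ≤ Fintype.card V + 4 := by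
  have k1 := b2_core (G := G) (S := univ) (h3.con (by rw [b2_cut_univ]; omega))
  have k2 := Submodule.finrank_mono (b2_range (S := univ) (I := univ.image op) mat
    fun x _ d hd => ((mem_bd.1 hd).2 (mem_univ _)).elim)
  have k3 := b2_all h3 mat
  rw [card_univ] at k1
  omega

/-- every cycle is a coboundary of a function on the labels (dimension count) -/
theorem Lab.planar (hl : G.Lab op) (h3 : G.EC3) (w : V × Fin 3 → ZMod 2)
    (sy : ∀ d, w (G.e d) = w d) (ev : ∀ v, w (v, 0) + w (v, 1) + w (v, 2) = 0) :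
    ∃ h : ℕ → ZMod 2, ∀ d, w d = h (op (d.1, d.2 + 1)) + h (op (d.1, d.2 + 2)) := by
  rcases isEmpty_or_nonempty V with hV | hV
  · exact ⟨0, fun d => hV.elim d.1⟩
  have k1 := b2_core (G := G) (S := univ) (h3.con (by rw [b2_cut_univ]; omega))
  have le := b2_range (S := univ) (I := univ.image op) hl.mat
    fun x _ d hd => ((mem_bd.1 hd).2 (mem_univ _)).elim
  have k3 := b2_all h3 hl.mat
  have k4 := hl.cnt
  rw [card_univ] at k1
  have eq := Submodule.eq_of_le_of_finrank_le le (by omega)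
  have hw : w ∈ G.b2_Z univ := ⟨fun d hd => (hd ⟨mem_univ _, mem_univ _⟩).elim, sy, ev⟩
  rw [← eq] at hw
  obtain ⟨g, rfl⟩ := hw
  exact ⟨b2_ext _ g, fun d => b2_del_pos g (mem_univ _)⟩

/-- all labels lie at `S` or are inner labels of `Sᶜ`; `fr` for `Sᶜ` -/
theorem Lab.count (hl : G.Lab op) (h3 : G.EC3) {S : Finset V} (h0 : 0 < G.cut S)
    (h5 : G.cut S ≤ 5) : #S + G.cut S + 2 ≤ 2 * #((S ×ˢ univ).image op) := by
  have hc := cut_compl (G := G) S
  have k1 := fr h3 hl.mat (S := Sᶜ) (by omega) (by omega)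
  have k2 := hl.cnt
  have k3 := card_add_card_compl S
  have sub : univ.image op ⊆ (S ×ˢ univ).image op ∪
      {x ∈ (Sᶜ ×ˢ univ).image op | ∀ d ∈ G.bd Sᶜ, x ∉ prs op d} := by
    intro x hx
    obtain ⟨d, -, rfl⟩ := mem_image.1 hx
    rw [mem_union]
    by_cases c : d.1 ∈ S
    · exact Or.inl (mem_image_of_mem op (mem_product.2 ⟨c, mem_univ _⟩))
    by_cases c' : ∀ b ∈ G.bd Sᶜ, op d ∉ prs op b
    · exact Or.inr (mem_filter.2
        ⟨mem_image_of_mem op (mem_product.2 ⟨mem_compl.2 c, mem_univ _⟩), c'⟩)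
    push Not at c'
    obtain ⟨b, hb, hm⟩ := c'
    have hb' : (G.e b).1 ∈ S := by simpa using (mem_bd.1 hb).2
    rw [← hl.mat] at hm
    left
    rcases Sym2.mem_iff.1 hm with k | k <;> rw [k] <;>
      exact mem_image_of_mem op (mem_product.2 ⟨hb', mem_univ _⟩)
  have k4 := (card_le_card sub).trans (card_union_le _ _)
  omega

end CG

end Pool.Agent.MP_8c1b0d_co.RI
end

section
set_option autoImplicit false
set_option linter.unusedSectionVars false
open Finset Function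

namespace Pool.Agent.MP_8c1b0d_co.RI
variable {V V' : Type} [Fintype V] [DecidableEq V] [Fintype V'] [DecidableEq V'] {G : CG V}
  {G' : CG V'}

namespace CG
variable {op : V × Fin 3 → ℕ}

/-- the indicator of an edge -/
def b3a_ind (G : CG V) (x y : V × Fin 3) : ZMod 2 :=
  (if y = x then 1 else 0) + if y = G.e x then 1 else 0

theorem b3a_sym (x y : V × Fin 3) : b3a_ind G x (G.e y) = b3a_ind G x y := by
  have h1 : G.e y = x ↔ y = G.e x := ⟨fun h => by rw [← h, G.ee], fun h => by rw [h, G.ee]⟩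
  simp only [b3a_ind, h1, e_inj.eq_iff]
  exact add_comm _ _

theorem b3a_one (x : V × Fin 3) (z : V) : (if (z, 0) = x then 1 else 0 : ZMod 2) +
    (if (z, 1) = x then 1 else 0) + (if (z, 2) = x then 1 else 0) = if z = x.1 then 1 else 0 := by
  obtain ⟨v, i⟩ := x
  by_cases h : z = v
  · subst h
    fin_cases i <;> simp
  · simp [h]

theorem b3a_bd (x : V × Fin 3) (z : V) :
    b3a_ind G x (z, 0) + b3a_ind G x (z, 1) + b3a_ind G x (z, 2) =
      (if z = x.1 then 1 else 0) + if z = (G.e x).1 then 1 else 0 := by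
  rw [← b3a_one x z, ← b3a_one (G.e x) z]
  simp only [b3a_ind]
  ring

theorem b3a_zero {x y : V × Fin 3} (h1 : y ≠ x) (h2 : y ≠ G.e x) : b3a_ind G x y = 0 := by
  simp [b3a_ind, h1, h2]

theorem b3a_prs (h : ℕ → ZMod 2) {d d' : V × Fin 3} (e : prs op d = prs op d') :
    h (op (d.1, d.2 + 1)) + h (op (d.1, d.2 + 2)) =
      h (op (d'.1, d'.2 + 1)) + h (op (d'.1, d'.2 + 2)) := by
  rcases Sym2.eq_iff.1 e with ⟨a, b⟩ | ⟨a, b⟩
  · rw [a, b]
  · rw [a, b, add_comm]

theorem b3a_mem {φ : ℕ} {d : V × Fin 3} : φ ∈ prs op d ↔ ∃ i, op (d.1, i) = φ ∧ d.2 ≠ i := by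
  have k1 : ∀ j : Fin 3, j ≠ j + 1 ∧ j ≠ j + 2 := by decide
  have k2 : ∀ i j : Fin 3, j ≠ i → i = j + 1 ∨ i = j + 2 := by decide
  rw [prs, Sym2.mem_iff]
  constructor
  · rintro (h | h)
    exacts [⟨_, h.symm, (k1 _).1⟩, ⟨_, h.symm, (k1 _).2⟩]
  · rintro ⟨i, h, hi⟩
    rcases k2 _ _ hi with rfl | rfl
    exacts [Or.inl h.symm, Or.inr h.symm]

/-- through every edge there is a cycle that avoids a second given edge (the graph minus the two
edges is connected; build `w` along `Relation.ReflTransGen` or by a dimension argument) -/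
theorem EC3.cycle (h3 : G.EC3) (d d' : V × Fin 3) (h1 : d' ≠ d) (h2 : d' ≠ G.e d) :
    ∃ w : V × Fin 3 → ZMod 2, (∀ x, w (G.e x) = w x) ∧
      (∀ v, w (v, 0) + w (v, 1) + w (v, 2) = 0) ∧ w d = 1 ∧ w d' = 0 := by
  classical
  have two : ∀ a : ZMod 2, a + a = 0 := by decide
  let S : Finset V := {v | ∃ w : V × Fin 3 → ZMod 2, (∀ x, w (G.e x) = w x) ∧ w d = 0 ∧ w d' = 0 ∧
    ∀ z, w (z, 0) + w (z, 1) + w (z, 2) = (if z = d.1 then 1 else 0) + if z = v then 1 else 0}
  have hd : d.1 ∈ S := mem_filter.2 ⟨mem_univ _, 0, fun _ => rfl, rfl, rfl, fun z => by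
    rw [two]; simp⟩
  have step : ∀ x, x ∈ G.bd S → x = d ∨ x = G.e d ∨ x = d' ∨ x = G.e d' := fun x hx => by
    by_contra h
    push Not at h
    obtain ⟨hx1, hx2⟩ := mem_bd.1 hx
    obtain ⟨w, w1, w2, w3, w4⟩ := (mem_filter.1 hx1).2
    refine hx2 (mem_filter.2 ⟨mem_univ _, fun y => w y + b3a_ind G x y, fun y => ?_, ?_, ?_,
      fun z => ?_⟩)
    · simp only [w1, b3a_sym]
    · simp only [w2, b3a_zero (Ne.symm h.1) fun e => h.2.1 (by rw [e, G.ee]), add_zero]
    · simp only [w3, b3a_zero (Ne.symm h.2.2.1) fun e => h.2.2.2 (by rw [e, G.ee]), add_zero]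
    · have := two (if z = x.1 then 1 else 0)
      linear_combination w4 z + b3a_bd (G := G) x z + this
  have hS : (G.e d).1 ∈ S := by
    by_contra h
    have h3' := h3 S ⟨_, hd⟩ ⟨_, mem_compl.2 h⟩
    have h4 : G.bd S ⊆ {d, if d'.1 ∈ S then d' else G.e d'} := fun x hx => by
      obtain ⟨hx1, hx2⟩ := mem_bd.1 hx
      rcases step x hx with rfl | rfl | rfl | rfl
      · simp
      · exact absurd hx1 h
      · simp [hx1]
      · rw [G.ee] at hx2
        simp [hx2]
    have h5 := (card_le_card h4).trans card_le_two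
    unfold cut at h3'
    omega
  obtain ⟨w, w1, w2, w3, w4⟩ := (mem_filter.1 hS).2
  refine ⟨fun y => w y + b3a_ind G d y, fun y => by simp only [w1, b3a_sym], fun z => ?_, ?_,
    ?_⟩
  · have := two ((if z = d.1 then 1 else 0) + if z = (G.e d).1 then 1 else 0)
    linear_combination w4 z + b3a_bd (G := G) d z + this
  · simp [w2, b3a_ind, (G.ne d).symm]
  · simp only [w3, b3a_zero h1 h2, add_zero]

theorem Lab.op_inj (hl : G.Lab op) (h3 : G.EC3) (v : V) (i j : Fin 3)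
    (e : op (v, i) = op (v, j)) : i = j := by
  by_contra hij
  have k : ∀ i j : Fin 3, i ≠ j → ∃ k, (k + 1 = i ∧ k + 2 = j) ∨ (k + 1 = j ∧ k + 2 = i) := by
    decide
  have k1 : ∀ j : Fin 3, j + 1 ≠ j ∧ j + 2 ≠ j ∧ j + 1 ≠ j + 2 := by decide
  obtain ⟨k, hk⟩ := k i j hij
  have e' : op (v, k + 1) = op (v, k + 2) := by
    rcases hk with ⟨a, b⟩ | ⟨a, b⟩ <;> rw [a, b, e]
  obtain ⟨d', h1, h2⟩ : ∃ d' : V × Fin 3, d' ≠ (v, k) ∧ d' ≠ G.e (v, k) := by
    by_cases h : (v, k + 1) = G.e (v, k)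
    · exact ⟨(v, k + 2), fun c => (k1 k).2.1 (congrArg Prod.snd c),
        fun c => (k1 k).2.2 (congrArg Prod.snd (h.trans c.symm))⟩
    · exact ⟨(v, k + 1), fun c => (k1 k).1 (congrArg Prod.snd c), h⟩
  obtain ⟨w, w1, w2, w3, -⟩ := h3.cycle _ _ h1 h2
  obtain ⟨h, hh⟩ := hl.planar h3 w w1 w2
  have two : ∀ a : ZMod 2, 1 ≠ a + a := by decide
  rw [hh, e'] at w3
  exact two _ w3.symm

theorem Lab.dual (hl : G.Lab op) (h3 : G.EC3) (d d' : V × Fin 3) (e : prs op d = prs op d') :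
    d' = d ∨ d' = G.e d := by
  by_contra h
  push Not at h
  obtain ⟨w, w1, w2, w3, w4⟩ := h3.cycle _ _ h.1 h.2
  obtain ⟨g, hg⟩ := hl.planar h3 w w1 w2
  rw [hg, b3a_prs g e, ← hg, w4] at w3
  exact zero_ne_one w3

/-- faces are connected: otherwise give the corners of the label `φ` at vertices with `Q` a new
label; the labels still match along edges (`op_inj`), against `euler_le` -/
theorem Lab.fc (hl : G.Lab op) (h3 : G.EC3) (φ : ℕ) (Q : V → Prop)
    (hQ : ∀ v i j, op (v, i) = φ → j ≠ i → Q v → Q (G.e (v, j)).1) :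
    ∀ u i v j, op (u, i) = φ → op (v, j) = φ → Q u → Q v := by
  classical
  intro u i v j hu hv qu
  by_contra qv
  have : Nonempty V := ⟨u⟩
  have fw : ∀ d, φ ∈ prs op d → Q d.1 → Q (G.e d).1 := fun d h q => by
    obtain ⟨k, h1, h2⟩ := b3a_mem.1 h
    exact hQ d.1 k d.2 h1 h2 q
  let f : V → ℕ → ℕ := fun x n => if n = φ ∧ Q x then 0 else n + 1
  have hp : ∀ d, prs (fun y => f y.1 (op y)) d = (prs op d).map (f d.1) := fun d => rfl
  have h1 := euler_le (op := fun y => f y.1 (op y)) h3 fun d => by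
    rw [hp, hp, hl.mat]
    refine Sym2.map_congr fun n hn => ?_
    by_cases h : n = φ
    · subst h
      have : Q (G.e d).1 ↔ Q d.1 :=
        ⟨fun q => by simpa [G.ee] using fw (G.e d) (hl.mat d ▸ hn) q, fw d hn⟩
      simp only [f, this]
    · simp only [f, h, false_and, if_false]
  have h2 : insert 0 ((univ.image op).image (· + 1)) ⊆ univ.image fun y => f y.1 (op y) := by
    intro n hn
    simp only [mem_insert, mem_image, mem_univ, true_and] at hn ⊢
    rcases hn with rfl | ⟨_, ⟨y, rfl⟩, rfl⟩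
    · exact ⟨(u, i), by simp [f, hu, qu]⟩
    · by_cases h : op y = φ
      · exact ⟨(v, j), by simp [f, hv, qv, h]⟩
      · exact ⟨y, by simp [f, h]⟩
  have h4 := card_le_card h2
  rw [card_insert_of_notMem (by simp only [mem_image, mem_univ, true_and, Prod.exists, Nat.add_eq_zero_iff, one_ne_zero, and_false, exists_const, not_false_eq_true]), card_image_of_injective _ (add_left_injective 1)] at h4
  have := hl.cnt
  omega

end CG

end Pool.Agent.MP_8c1b0d_co.RI
end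

section
set_option autoImplicit false
set_option linter.unusedSectionVars false
open Finset Function

namespace Pool.Agent.MP_8c1b0d_co.RI
variable {V V' : Type} [Fintype V] [DecidableEq V] [Fintype V'] [DecidableEq V'] {G : CG V}
  {G' : CG V'}

theorem b4a_pair (x y z : ℕ) (h : y ≠ z) :
    (if x ∈ s(y, z) then (1 : ZMod 2) else 0) =
      (if x = y then 1 else 0) + (if x = z then 1 else 0) := by
  by_cases h1 : x = y
  · subst h1; simp [h]
  · by_cases h2 : x = z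
    · subst h2; simp [h1]
    · simp [h1, h2]

theorem b4a_legs {T : Type} [DecidableEq T] {k : ℕ} {D : Finset T} (hk : #D = k) (l : Fin k → T)
    (hi : Injective l) (hm : ∀ i, l i ∈ D) (d : T) : d ∈ D ↔ ∃ i, l i = d := by
  have e : univ.image l = D := by
    apply Finset.eq_of_subset_of_card_le
    · intro z hz
      obtain ⟨i, -, rfl⟩ := Finset.mem_image.1 hz
      exact hm i
    · rw [Finset.card_image_of_injective _ hi]; simp only [hk, card_univ, Fintype.card_fin, Std.le_refl]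
  rw [← e]; simp only [mem_image, mem_univ, true_and]

/-- a path of three edges `c a`, `a b`, `b d` -/
theorem b4a_path {T : Type} {D : Finset T} (h0 : D.Nonempty) (E : T → Sym2 ℕ)
    (nd : ∀ d ∈ D, ∀ y, E d ≠ s(y, y)) (inj : ∀ d ∈ D, ∀ d' ∈ D, E d = E d' → d = d')
    (ev : ∀ d ∈ D, ∀ x ∈ E d, ∃ d' ∈ D, d' ≠ d ∧ x ∈ E d') :
    ∃ d0 ∈ D, ∃ d1 ∈ D, ∃ d2 ∈ D, ∃ a b c d : ℕ, E d0 = s(a, b) ∧ E d1 = s(a, c) ∧
      E d2 = s(b, d) ∧ a ≠ b ∧ c ≠ a ∧ c ≠ b ∧ d ≠ a ∧ d ≠ b ∧ d0 ≠ d1 ∧ d0 ≠ d2 ∧ d1 ≠ d2 := by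
  obtain ⟨d0, m0⟩ := h0
  obtain ⟨a, b, e0⟩ : ∃ a b, E d0 = s(a, b) := by
    generalize E d0 = z
    induction z using Sym2.ind with
    | _ a b => exact ⟨a, b, rfl⟩
  have hab : a ≠ b := fun h => nd d0 m0 a (by rw [e0, ← h])
  obtain ⟨d1, m1, n1, x1⟩ := ev d0 m0 a (by simp [e0])
  obtain ⟨d2, m2, n2, x2⟩ := ev d0 m0 b (by simp [e0])
  obtain ⟨c, e1⟩ := Sym2.mem_iff_exists.1 x1
  obtain ⟨d, e2⟩ := Sym2.mem_iff_exists.1 x2
  have hca : c ≠ a := fun h => nd d1 m1 a (by rw [e1, h])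
  have hcb : c ≠ b := fun h => n1 (inj _ m1 _ m0 (by rw [e1, e0, h]))
  have hdb : d ≠ b := fun h => nd d2 m2 b (by rw [e2, h])
  have hda : d ≠ a := fun h => n2 (inj _ m2 _ m0 (by rw [e2, e0, h, Sym2.eq_swap]))
  refine ⟨d0, m0, d1, m1, d2, m2, a, b, c, d, e0, e1, e2, hab, hca, hcb, hda, hdb, n1.symm,
    n2.symm, fun h => ?_⟩
  rw [← h, e1] at x2
  rcases Sym2.mem_iff.1 x2 with h | h
  · exact hab h.symm
  · exact hcb h.symm

theorem b4a_tri {T : Type} [DecidableEq T] {D : Finset T} (hk : #D = 3) (E : T → Sym2 ℕ)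
    (nd : ∀ d ∈ D, ∀ y, E d ≠ s(y, y)) (inj : ∀ d ∈ D, ∀ d' ∈ D, E d = E d' → d = d')
    (ev : ∀ d ∈ D, ∀ x ∈ E d, ∃ d' ∈ D, d' ≠ d ∧ x ∈ E d') :
    ∃ (l : Fin 3 → T) (b : Fin 3 → ℕ), Injective l ∧ (∀ i, l i ∈ D) ∧ Injective b ∧
      ∀ i, E (l i) = s(b i, b (i + 1)) := by
  obtain ⟨d0, m0, d1, m1, d2, m2, a, b, c, d, e0, e1, e2, hab, hca, hcb, hda, hdb, n01, n02, n12⟩ :=
    b4a_path (Finset.card_pos.1 (by omega)) E nd inj ev
  have li : Injective (![d0, d2, d1] : Fin 3 → T) := by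
    intro i j
    fin_cases i <;> fin_cases j <;> simp [n01, n02, n12, n01.symm, n02.symm, n12.symm]
  have lm : ∀ i, (![d0, d2, d1] : Fin 3 → T) i ∈ D := by
    intro i; fin_cases i <;> simp [m0, m1, m2]
  obtain ⟨d3, m3, n3, x3⟩ := ev d1 m1 c (by simp [e1])
  obtain ⟨i, hi⟩ := (b4a_legs hk _ li lm d3).1 m3
  have hcd : c = d := by
    fin_cases i
    · simp only [Fin.zero_eta, Matrix.cons_val_zero] at hi
      rw [← hi, e0] at x3
      simp [hca, hcb] at x3
    · simp only [Fin.mk_one, Matrix.cons_val_one, Matrix.cons_val_zero] at hi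
      rw [← hi, e2] at x3
      simpa [hcb] using x3
    · exact absurd hi.symm n3
  subst hcd
  refine ⟨_, ![a, b, c], li, lm, ?_, ?_⟩
  · intro i j
    fin_cases i <;> fin_cases j <;> simp [hab, hca, hcb, hab.symm, hca.symm, hcb.symm]
  · intro i
    fin_cases i
    · exact e0
    · exact e2
    · exact e1.trans Sym2.eq_swap

theorem b4a_quad {T : Type} [DecidableEq T] {D : Finset T} (hk : #D = 4) (E : T → Sym2 ℕ)
    (nd : ∀ d ∈ D, ∀ y, E d ≠ s(y, y)) (inj : ∀ d ∈ D, ∀ d' ∈ D, E d = E d' → d = d')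
    (ev : ∀ d ∈ D, ∀ x ∈ E d, ∃ d' ∈ D, d' ≠ d ∧ x ∈ E d') :
    ∃ (l : Fin 4 → T) (b : Fin 4 → ℕ), Injective l ∧ (∀ i, l i ∈ D) ∧ Injective b ∧
      ∀ i, E (l i) = s(b i, b (i + 1)) := by
  obtain ⟨d0, m0, d1, m1, d2, m2, a, b, c, d, e0, e1, e2, hab, hca, hcb, hda, hdb, n01, n02, n12⟩ :=
    b4a_path (Finset.card_pos.1 (by omega)) E nd inj ev
  obtain ⟨d3, m3, n3⟩ : ∃ d3 ∈ D, d3 ∉ ({d0, d1, d2} : Finset T) := by
    apply Finset.exists_mem_notMem_of_card_lt_card
    have := Finset.card_le_three (a := d0) (b := d1) (c := d2)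
    omega
  simp only [Finset.mem_insert, Finset.mem_singleton, not_or] at n3
  obtain ⟨n30, n31, n32⟩ := n3
  have n03 := Ne.symm n30
  have n13 := Ne.symm n31
  have n23 := Ne.symm n32
  have li : Injective (![d0, d2, d3, d1] : Fin 4 → T) := by
    intro i j
    fin_cases i <;> fin_cases j <;>
      simp [n01, n02, n12, n01.symm, n02.symm, n12.symm, n30, n31, n32, n03, n13, n23]
  have lm : ∀ i, (![d0, d2, d3, d1] : Fin 4 → T) i ∈ D := by
    intro i; fin_cases i <;> simp [m0, m1, m2, m3]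
  have all : ∀ z ∈ D, z = d0 ∨ z = d2 ∨ z = d3 ∨ z = d1 := by
    intro z hz
    obtain ⟨i, hi⟩ := (b4a_legs hk _ li lm z).1 hz
    fin_cases i
    · exact .inl hi.symm
    · exact .inr (.inl hi.symm)
    · exact .inr (.inr (.inl hi.symm))
    · exact .inr (.inr (.inr hi.symm))
  have hcd : c ≠ d := by
    rintro rfl
    obtain ⟨u, v, e3⟩ : ∃ u v, E d3 = s(u, v) := by
      generalize E d3 = z
      induction z using Sym2.ind with
      | _ u v => exact ⟨u, v, rfl⟩
    have huv : u ≠ v := fun h => nd d3 m3 u (by rw [e3, ← h])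
    have key : ∀ x ∈ E d3, x = a ∨ x = b ∨ x = c := by
      intro x hx
      obtain ⟨z, mz, nz, xz⟩ := ev d3 m3 x hx
      rcases all z mz with rfl | rfl | rfl | rfl
      · rw [e0, Sym2.mem_iff] at xz; tauto
      · rw [e2, Sym2.mem_iff] at xz; tauto
      · exact absurd rfl nz
      · rw [e1, Sym2.mem_iff] at xz; tauto
    have k0 : E d3 ≠ E d0 := fun h => n30 (inj _ m3 _ m0 h)
    have k1 : E d3 ≠ E d1 := fun h => n31 (inj _ m3 _ m1 h)
    have k2 : E d3 ≠ E d2 := fun h => n32 (inj _ m3 _ m2 h)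
    rw [e3, e0, Ne, Sym2.eq_iff] at k0
    rw [e3, e1, Ne, Sym2.eq_iff] at k1
    rw [e3, e2, Ne, Sym2.eq_iff] at k2
    have hu := key u (by simp [e3])
    have hv := key v (by simp [e3])
    omega
  have hc : c ∈ E d3 := by
    obtain ⟨z, mz, nz, xz⟩ := ev d1 m1 c (by simp [e1])
    rcases all z mz with rfl | rfl | rfl | rfl
    · rw [e0, Sym2.mem_iff] at xz; omega
    · rw [e2, Sym2.mem_iff] at xz; omega
    · exact xz
    · exact absurd rfl nz
  have hd : d ∈ E d3 := by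
    obtain ⟨z, mz, nz, xz⟩ := ev d2 m2 d (by simp [e2])
    rcases all z mz with rfl | rfl | rfl | rfl
    · rw [e0, Sym2.mem_iff] at xz; omega
    · exact absurd rfl nz
    · exact xz
    · rw [e1, Sym2.mem_iff] at xz; omega
  have e3 : E d3 = s(d, c) := (Sym2.mem_and_mem_iff hcd.symm).1 ⟨hd, hc⟩
  refine ⟨_, ![a, b, d, c], li, lm, ?_, ?_⟩
  · intro i j
    fin_cases i <;> fin_cases j <;>
      simp [hab, hca, hcb, hab.symm, hca.symm, hcb.symm, hda, hdb, hcd, hda.symm, hdb.symm,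
        hcd.symm]
  · intro i
    fin_cases i
    · exact e0
    · exact e2
    · exact e3
    · exact e1.trans Sym2.eq_swap

namespace CG
variable {op : V × Fin 3 → ℕ}

/-- every label occurs on an even number of the darts of `bd S` -/
theorem Lab.even (hl : G.Lab op) (h3 : G.EC3) (S : Finset V) (x : ℕ) :
    Even #{d ∈ G.bd S | x ∈ prs op d} := by
  rw [← ZMod.natCast_eq_zero_iff_even]
  set f : V × Fin 3 → ZMod 2 := fun d => if x ∈ prs op d then 1 else 0 with hf
  have e1 : ((#{d ∈ G.bd S | x ∈ prs op d} : ℕ) : ZMod 2) = ∑ d ∈ G.bd S, f d := by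
    rw [Finset.card_filter]; push_cast; rfl
  have e2 : ∑ d ∈ S ×ˢ (univ : Finset (Fin 3)), f d = 0 := by
    rw [Finset.sum_product]
    refine Finset.sum_eq_zero fun v _ => ?_
    have n : ∀ i j : Fin 3, i ≠ j → op (v, i) ≠ op (v, j) :=
      fun i j h e => h (hl.op_inj h3 v i j e)
    have p0 := b4a_pair x _ _ (n 1 2 (by decide))
    have p1 := b4a_pair x _ _ (n 2 0 (by decide))
    have p2 := b4a_pair x _ _ (n 0 1 (by decide))
    have q : ∀ a b c : ZMod 2, (b + c) + (c + a) + (a + b) = 0 := by decide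
    rw [Fin.sum_univ_three]
    have f0 : f (v, 0) = _ := p0
    have f1 : f (v, 1) = _ := p1
    have f2 : f (v, 2) = _ := p2
    rw [f0, f1, f2]
    exact q _ _ _
  have e3 : ∑ d ∈ S ×ˢ (univ : Finset (Fin 3)) with (G.e d).1 ∈ S, f d = 0 := by
    refine Finset.sum_involution (fun d _ => G.e d) (fun d _ => ?_) (fun d _ _ => G.ne d)
      (fun d hd => ?_) (fun d _ => G.ee d)
    · have : f (G.e d) = f d := by simp only [hf, hl.mat]
      rw [this]; exact CharTwo.add_self_eq_zero _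
    · simp only [Finset.mem_filter, Finset.mem_product, Finset.mem_univ, and_true, G.ee] at hd ⊢
      exact hd.symm
  have e4 : G.bd S = {d ∈ S ×ˢ (univ : Finset (Fin 3)) | ¬ (G.e d).1 ∈ S} := by
    ext d; simp [mem_bd]
  have e5 := Finset.sum_filter_add_sum_filter_not (S ×ˢ (univ : Finset (Fin 3)))
    (fun d => (G.e d).1 ∈ S) f
  rw [e2, e3, zero_add, ← e4] at e5
  rw [e1, e5]
/-- at least `cut S` labels occur on the darts of `bd S` (`fr` for both sides) -/
theorem Lab.many (hl : G.Lab op) (h3 : G.EC3) {S : Finset V} (h0 : 0 < G.cut S)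
    (h5 : G.cut S ≤ 5) : G.cut S ≤ #{x ∈ univ.image op | ∃ d ∈ G.bd S, x ∈ prs op d} := by
  have c := G.cut_compl S
  have a1 := fr h3 hl.mat h0 h5
  have a2 := fr h3 hl.mat (S := Sᶜ) (by omega) (by omega)
  have a3 := hl.cnt
  have a4 := Finset.card_add_card_compl S
  have sub : univ.image op ⊆ {x ∈ univ.image op | ∃ d ∈ G.bd S, x ∈ prs op d} ∪
      ({x ∈ (S ×ˢ univ).image op | ∀ d ∈ G.bd S, x ∉ prs op d} ∪
        {x ∈ (Sᶜ ×ˢ univ).image op | ∀ d ∈ G.bd Sᶜ, x ∉ prs op d}) := by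
    intro x hx
    by_cases h : ∃ d ∈ G.bd S, x ∈ prs op d
    · exact Finset.mem_union_left _ (Finset.mem_filter.2 ⟨hx, h⟩)
    · refine Finset.mem_union_right _ ?_
      obtain ⟨z, -, rfl⟩ := Finset.mem_image.1 hx
      by_cases hz : z.1 ∈ S
      · refine Finset.mem_union_left _ (Finset.mem_filter.2
          ⟨Finset.mem_image_of_mem _ (by simp [hz]), fun d hd hp => h ⟨d, hd, hp⟩⟩)
      · refine Finset.mem_union_right _ (Finset.mem_filter.2
          ⟨Finset.mem_image_of_mem _ (by simp [hz]), fun d hd hp => h ⟨G.e d, ?_, ?_⟩⟩)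
        · simp only [mem_bd, Finset.mem_compl, not_not, G.ee] at hd ⊢
          exact hd.symm
        · rw [hl.mat]; exact hp
  have b1 := (Finset.card_le_card sub).trans ((Finset.card_union_le _ _).trans
    (Nat.add_le_add_left (Finset.card_union_le _ _) _))
  omega
theorem b4a_nd (hl : G.Lab op) (h3 : G.EC3) (d : V × Fin 3) (y : ℕ) : prs op d ≠ s(y, y) := by
  intro h
  have k : ∀ i : Fin 3, i + 1 ≠ i + 2 := by decide
  rw [prs, Sym2.eq_iff] at h
  exact k d.2 (hl.op_inj h3 d.1 _ _ (by omega))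
theorem b4a_inj (hl : G.Lab op) (h3 : G.EC3) (A : Finset V) :
    ∀ d ∈ G.bd A, ∀ d' ∈ G.bd A, prs op d = prs op d' → d = d' := by
  intro d hd d' hd' e
  rcases hl.dual h3 d d' e with h | h
  · exact h.symm
  · exact absurd (h ▸ (mem_bd.1 hd').1) (mem_bd.1 hd).2
theorem b4a_ev (hl : G.Lab op) (h3 : G.EC3) (A : Finset V) :
    ∀ d ∈ G.bd A, ∀ x ∈ prs op d, ∃ d' ∈ G.bd A, d' ≠ d ∧ x ∈ prs op d' := by
  intro d hd x hx
  have m : d ∈ {d ∈ G.bd A | x ∈ prs op d} := Finset.mem_filter.2 ⟨hd, hx⟩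
  have p := Finset.card_pos.2 ⟨d, m⟩
  obtain ⟨r, hr⟩ := hl.even h3 A x
  obtain ⟨z, hz, nz⟩ := Finset.exists_mem_ne (s := {d ∈ G.bd A | x ∈ prs op d}) (by omega) d
  exact ⟨z, (Finset.mem_filter.1 hz).1, nz, (Finset.mem_filter.1 hz).2⟩
/-- so every such label occurs exactly twice; `op_inj`, `dual` give a triangle -/
theorem Lab.cyc3 (hl : G.Lab op) (h3 : G.EC3) {A : Finset V} (h : G.cut A = 3) :
    ∃ (l : Fin 3 → V × Fin 3) (b : Fin 3 → ℕ), G.Cyc op A l b := by
  obtain ⟨l, b, h1, h2, h4, h5⟩ := b4a_tri (D := G.bd A) h (prs op)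
    (fun d _ => b4a_nd hl h3 d) (b4a_inj hl h3 A) (b4a_ev hl h3 A)
  exact ⟨l, b, ⟨h1, b4a_legs h l h1 h2⟩, h4, h5⟩
/-- and a 4-cycle -/
theorem Lab.cyc4 (hl : G.Lab op) (h3 : G.EC3) {A : Finset V} (h : G.cut A = 4) :
    ∃ (l : Fin 4 → V × Fin 3) (b : Fin 4 → ℕ), G.Cyc op A l b := by
  obtain ⟨l, b, h1, h2, h4, h5⟩ := b4a_quad (D := G.bd A) h (prs op)
    (fun d _ => b4a_nd hl h3 d) (b4a_inj hl h3 A) (b4a_ev hl h3 A)
  exact ⟨l, b, ⟨h1, b4a_legs h l h1 h2⟩, h4, h5⟩
theorem Cyc.compl {k : ℕ} [NeZero k] {A : Finset V} {l : Fin k → V × Fin 3} {b : Fin k → ℕ}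
    (c : G.Cyc op A l b) (hl : G.Lab op) : G.Cyc op Aᶜ (fun i => G.e (l i)) b :=
  ⟨c.legs.compl, c.b_inj, fun i => (hl.mat _).trans (c.pr i)⟩
theorem Cyc.rot {k : ℕ} [NeZero k] {A : Finset V} {l : Fin k → V × Fin 3} {b : Fin k → ℕ}
    (c : G.Cyc op A l b) (t : Fin k) : G.Cyc op A (fun i => l (i + t)) fun i => b (i + t) := by
  refine ⟨⟨fun i j h => add_right_cancel (c.legs.inj h), fun d => (c.legs.mem d).trans ?_⟩,
    fun i j h => add_right_cancel (c.b_inj h), fun i => ?_⟩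
  · exact ⟨fun ⟨i, h⟩ => ⟨i - t, by simpa using h⟩, fun ⟨i, h⟩ => ⟨i + t, h⟩⟩
  · rw [c.pr, add_right_comm]

end CG

end Pool.Agent.MP_8c1b0d_co.RI
end

section
set_option autoImplicit false
set_option linter.unusedSectionVars false
open Finset Function

namespace Pool.Agent.MP_8c1b0d_co.RI
variable {V V' : Type} [Fintype V] [DecidableEq V] [Fintype V'] [DecidableEq V'] {G : CG V}
  {G' : CG V'}

namespace CG
variable {op : V × Fin 3 → ℕ}

lemma b4_fin (k : Fin 3) (f : Fin 3 → ℕ) {x y : ℕ} (h : s(f (k + 1), f (k + 2)) = s(x, y)) :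
    ∃ ψ : Equiv.Perm (Fin 3), ψ 0 = k ∧ s(f (ψ 1 + 1), f (ψ 1 + 2)) = s(f k, y) ∧
      s(f (ψ 2 + 1), f (ψ 2 + 2)) = s(f k, x) ∧ ∀ j, f j = f k ∨ f j = x ∨ f j = y := by
  have e1 : ∀ k : Fin 3, k + 1 + 1 = k + 2 ∧ k + 1 + 2 = k ∧ k + 2 + 1 = k ∧ k + 2 + 2 = k + 1 ∧
      k - 1 = k + 2 ∧ k - 2 = k + 1 := by decide
  have e2 : ∀ k j : Fin 3, j = k ∨ j = k + 1 ∨ j = k + 2 := by decide
  obtain ⟨a1, a2, a3, a4, a5, a6⟩ := e1 k
  rcases Sym2.eq_iff.1 h with ⟨rfl, rfl⟩ | ⟨rfl, rfl⟩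
  · refine ⟨Equiv.addLeft k, add_zero k, ?_, ?_, fun j => ?_⟩
    · rw [Equiv.coe_addLeft, a1, a2, Sym2.eq_swap]
    · rw [Equiv.coe_addLeft, a3, a4]
    · rcases e2 k j with rfl | rfl | rfl <;> simp
  · refine ⟨Equiv.subLeft k, sub_zero k, ?_, ?_, fun j => ?_⟩
    · rw [Equiv.subLeft_apply, a5, a3, a4]
    · rw [Equiv.subLeft_apply, a6, a1, a2, Sym2.eq_swap]
    · rcases e2 k j with rfl | rfl | rfl <;> simp

/-- no triangle at the 4-cycle -/
lemma b4_tri (c4 : G.C4) (n : 6 ≤ Fintype.card V) {A : Finset V} {q : Fin 4 → V}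
    {ψ : Fin 4 → Equiv.Perm (Fin 3)} {l : Fin 4 → V × Fin 3} (c : Chart G A eQ q ψ l) (i : Fin 4) :
    (l i).1 ≠ (l (i + 1)).1 := by
  intro e
  have k1 : ∀ i : Fin 4, i ≠ i + 1 ∧ i + 1 - 1 = i := by decide
  have k2 : ∀ x : Fin 3, x = 0 ∨ x = 1 ∨ x = 2 := by decide
  have k3 : ∀ x y z : Fin 3, x ≠ y → z = x ∨ z = y ∨ z = -(x + y) := by decide
  have h0 : ∀ j, G.e (q j, ψ j 0) = l j := fun j => c.hom (.inl (j, 0))
  have h0' : ∀ j, G.e (l j) = (q j, ψ j 0) := fun j => c.hom (.inr j)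
  have h1 : G.e (q i, ψ i 1) = (q (i + 1), ψ (i + 1) 2) := c.hom (.inl (i, 1))
  have h2 : G.e (q (i + 1), ψ (i + 1) 2) = (q i, ψ i 1) := by rw [← h1, G.ee]
  have nq : ∀ j j', q j ≠ (l j').1 := fun j j' a =>
    (c.q_mem _).2 ⟨j, rfl⟩ (a ▸ c.b_mem j')
  have nl : (l i).2 ≠ (l (i + 1)).2 := fun a => (k1 i).1 (c.b_inj (Prod.ext e a))
  have hS : #({q i, q (i + 1), (l i).1} : Finset V) = 3 :=
    card_eq_three.2 ⟨_, _, _, c.q_inj.ne (k1 i).1, nq _ _, nq _ _, rfl⟩
  have hc := card_add_card_compl ({q i, q (i + 1), (l i).1} : Finset V)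
  have hb : G.bd {q i, q (i + 1), (l i).1} ⊆
      {(q i, ψ i 2), (q (i + 1), ψ (i + 1) 1), ((l i).1, -((l i).2 + (l (i + 1)).2))} := by
    rintro ⟨v, x⟩ hd
    obtain ⟨a, b⟩ := mem_bd.1 hd
    simp only [mem_insert, mem_singleton, not_or] at a b ⊢
    rcases a with rfl | rfl | rfl
    · obtain ⟨y, rfl⟩ := (ψ i).surjective x
      rcases k2 y with rfl | rfl | rfl
      · exact absurd (by rw [h0]) b.2.2
      · exact absurd (by rw [h1]) b.2.1
      · exact Or.inl rfl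
    · obtain ⟨y, rfl⟩ := (ψ (i + 1)).surjective x
      rcases k2 y with rfl | rfl | rfl
      · exact absurd (by rw [h0, e]) b.2.2
      · exact Or.inr (Or.inl rfl)
      · exact absurd (by rw [h2]) b.1
    · rcases k3 _ _ x nl with rfl | rfl | rfl
      · exact absurd (by rw [Prod.mk.eta, h0']) b.1
      · exact absurd (by rw [e, Prod.mk.eta, h0']) b.2.1
      · exact Or.inr (Or.inr rfl)
  have := c4 _ ((card_le_card hb).trans card_le_three)
  omega

/-- QUAD. `F` induces a 4-cycle with one leg at each vertex (no triangle by `C4`). Take `cyc4` for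
`Fᶜ`, `q i = (e (l i)).1`. By `count` some vertex of `F` has a third label `φ` that is no `b i`;
its two inner edges carry `φ` and `b i`, `b (i+1)`, so they go to `q (i-1)`, `q (i+1)`, whose third
label is `φ` again. Far ends: `i, i+1` by `C4` (triangle), `i, i+2` because two darts at one
vertex share a label. -/
theorem Lab.quad (hl : G.Lab op) (h3 : G.EC3) (c4 : G.C4) (n : 6 ≤ Fintype.card V) {F : Finset V}
    (h1 : #F = 4) (h2 : G.cut F = 4) : ∃ q ψ l b, Chart G Fᶜ eQ q ψ l ∧ G.Cyc op Fᶜ l b ∧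
      Injective fun i => (l i).1 := by
  obtain ⟨l, b, c⟩ := hl.cyc4 h3 (A := Fᶜ) (by rw [cut_compl, h2])
  have hc := card_add_card_compl F
  have lb : ∀ i, (l i).1 ∉ F ∧ (G.e (l i)).1 ∈ F := fun i => by
    simpa using mem_bd.1 ((c.legs.mem _).2 ⟨i, rfl⟩)
  have db : ∀ i, G.e (l i) ∈ G.bd F := fun i =>
    mem_bd.2 ⟨(lb i).2, by rw [G.ee]; exact (lb i).1⟩
  have inj := c4.leg_inj h2 (by omega) (by omega)
  obtain ⟨q, hq⟩ : ∃ q : Fin 4 → V, ∀ i, q i = (G.e (l i)).1 := ⟨_, fun _ => rfl⟩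
  have qF : ∀ i, q i ∈ F := fun i => hq i ▸ (lb i).2
  have qi : Injective q := fun i j e =>
    c.legs.inj (e_inj (inj _ (db i) _ (db j) (by rw [← hq, ← hq, e])))
  have qs : ∀ v ∈ F, ∃ j, q j = v := by
    have : univ.image q = F := eq_of_subset_of_card_le
      (fun v hv => by obtain ⟨j, -, rfl⟩ := mem_image.1 hv; exact qF j)
      (by rw [card_image_of_injective _ qi, h1]; simp)
    intro v hv
    rw [← this] at hv
    simpa using hv
  choose ψ p0 p1 p2 p3 using fun i => b4_fin (G.e (l i)).2 (fun j => op (q i, j))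
    (x := b i) (y := b (i + 1)) (by rw [hq]; exact (hl.mat _).trans (c.pr i))
  have el : ∀ i, G.e (l i) = (q i, ψ i 0) := fun i => by rw [hq, p0]
  simp only [← p0] at p1 p2 p3
  have k2 : ∀ x : Fin 3, x = 0 ∨ x = 1 ∨ x = 2 := by decide
  have step : ∀ i, (∀ j, op (q i, ψ i 0) ≠ b j) →
      G.e (q i, ψ i 1) = (q (i + 1), ψ (i + 1) 2) ∧ ∀ j, op (q (i + 1), ψ (i + 1) 0) ≠ b j := by
    intro i hi
    have a : (G.e (q i, ψ i 1)).1 ∈ F := by
      by_contra a
      have := inj _ (mem_bd.2 ⟨qF i, a⟩) _ (db i) (hq i)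
      rw [el] at this
      exact absurd ((ψ i).injective (Prod.ext_iff.1 this).2) (by decide)
    obtain ⟨j, hj⟩ := qs _ a
    obtain ⟨x, hx⟩ := (ψ j).surjective (G.e (q i, ψ i 1)).2
    have e : G.e (q i, ψ i 1) = (q j, ψ j x) := Prod.ext hj.symm hx.symm
    have m := hl.mat (q i, ψ i 1)
    rw [e] at m
    rcases k2 x with rfl | rfl | rfl
    · rw [← el] at e
      exact absurd (e_inj e ▸ qF i) (lb j).1
    · rcases Sym2.eq_iff.1 ((p1 j).symm.trans (m.trans (p1 i))) with ⟨-, u⟩ | ⟨-, u⟩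
      · obtain rfl : j = i := add_right_cancel (c.b_inj u)
        exact absurd e (G.ne _)
      · exact absurd u.symm (hi _)
    · rcases Sym2.eq_iff.1 ((p2 j).symm.trans (m.trans (p1 i))) with ⟨u, u'⟩ | ⟨-, u⟩
      · obtain rfl : j = i + 1 := c.b_inj u'
        exact ⟨e, fun j => u ▸ hi j⟩
      · exact absurd u.symm (hi _)
  obtain ⟨i0, h0⟩ : ∃ i, ∀ j, op (q i, ψ i 0) ≠ b j := by
    by_contra a
    push Not at a
    have s : (F ×ˢ univ).image op ⊆ univ.image b := by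
      intro x hx
      obtain ⟨⟨v, j⟩, hv, rfl⟩ := mem_image.1 hx
      obtain ⟨i, rfl⟩ := qs v (mem_product.1 hv).1
      obtain ⟨j', e⟩ := a i
      rcases p3 i j with u | u | u
      · exact mem_image.2 ⟨j', mem_univ _, (u.trans e).symm⟩
      · exact mem_image.2 ⟨_, mem_univ _, u.symm⟩
      · exact mem_image.2 ⟨_, mem_univ _, u.symm⟩
    have s1 := (card_le_card s).trans card_image_le
    have s2 := hl.count h3 (S := F) (by omega) (by omega)
    rw [card_univ, Fintype.card_fin] at s1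
    omega
  have k4 : ∀ i j : Fin 4, j = i ∨ j = i + 1 ∨ j = i + 1 + 1 ∨ j = i + 1 + 1 + 1 := by decide
  have nx : ∀ i, G.e (q i, ψ i 1) = (q (i + 1), ψ (i + 1) 2) := by
    intro i
    have s1 := step _ h0
    have s2 := step _ s1.2
    have s3 := step _ s2.2
    rcases k4 i0 i with rfl | rfl | rfl | rfl
    exacts [s1.1, s2.1, s3.1, (step _ s3.2).1]
  have ch : Chart G Fᶜ eQ q ψ l := by
    refine ⟨qi, fun v => ⟨fun hv => qs v (by simpa using hv), ?_⟩, c.legs.inj,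
      fun i => mem_compl.2 (lb i).1, ?_⟩
    · rintro ⟨j, rfl⟩
      simpa using qF j
    · rintro (⟨i, x⟩ | i)
      · rcases k2 x with rfl | rfl | rfl
        · exact (congrArg G.e (el i)).symm.trans (G.ee _)
        · exact nx i
        · have := nx (i - 1)
          rw [sub_add_cancel] at this
          exact (congrArg G.e this).symm.trans (G.ee _)
      · exact el i
  refine ⟨q, ψ, l, b, ch, c, fun i j e => ?_⟩
  have t := b4_tri c4 n ch
  have k5 : ∀ i : Fin 4, i + 1 + 1 + 1 + 1 = i ∧ i ≠ i + 1 + 1 ∧ i ≠ i + 1 + 1 + 1 ∧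
      i + 1 ≠ i + 1 + 1 ∧ i + 1 ≠ i + 1 + 1 + 1 := by decide
  have k6 : ∀ x y : Fin 3, x ≠ y → ∃ z, (z = x + 1 ∨ z = x + 2) ∧ (z = y + 1 ∨ z = y + 2) := by
    decide
  obtain ⟨a1, a2, a3, a4, a5⟩ := k5 i
  rcases k4 i j with rfl | rfl | rfl | rfl
  · rfl
  · exact absurd e (t i)
  · obtain ⟨z, z1, z2⟩ := k6 (l i).2 (l (i + 1 + 1)).2 fun a => a2 (c.legs.inj (Prod.ext e a))
    have m1 : op ((l i).1, z) ∈ prs op (l i) := by
      rcases z1 with rfl | rfl <;> simp [prs]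
    have m2 : op ((l i).1, z) ∈ prs op (l (i + 1 + 1)) := by
      have e' : (l i).1 = (l (i + 1 + 1)).1 := e
      rcases z2 with rfl | rfl <;> simp [prs, e']
    rw [c.pr, Sym2.mem_iff] at m1 m2
    rcases m1 with m1 | m1 <;> rcases m2 with m2 | m2 <;>
      exact absurd (c.b_inj (m1.symm.trans m2)) (by assumption)
  · have := t (i + 1 + 1 + 1)
    rw [a1] at this
    exact absurd e.symm this

end CG

theorem Chart.rotQ {A : Finset V} {q : Fin 4 → V} {ψ : Fin 4 → Equiv.Perm (Fin 3)}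
    {l : Fin 4 → V × Fin 3} (c : Chart G A eQ q ψ l) (t : Fin 4) :
    Chart G A eQ (fun i => q (i + t)) (fun i => ψ (i + t)) fun i => l (i + t) := by
  refine ⟨c.q_inj.comp (add_left_injective t), fun v => (c.q_mem v).trans ⟨?_, ?_⟩,
    c.b_inj.comp (add_left_injective t), fun i => c.b_mem _, ?_⟩
  · rintro ⟨j, rfl⟩
    exact ⟨j - t, by rw [sub_add_cancel]⟩
  · rintro ⟨j, rfl⟩
    exact ⟨_, rfl⟩
  · have k2 : ∀ x : Fin 3, x = 0 ∨ x = 1 ∨ x = 2 := by decide
    rintro (⟨i, x⟩ | i)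
    · rcases k2 x with rfl | rfl | rfl
      · exact c.hom (.inl (i + t, 0))
      · have := c.hom (.inl (i + t, 1))
        change G.e _ = (q (i + 1 + t), ψ (i + 1 + t) 2)
        rw [add_right_comm]
        exact this
      · have := c.hom (.inl (i + t, 2))
        change G.e _ = (q (i - 1 + t), ψ (i - 1 + t) 1)
        rw [sub_add_eq_add_sub]
        exact this
    · exact c.hom (.inr (i + t))

end Pool.Agent.MP_8c1b0d_co.RI
end
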