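import Pool.Agent.MP_8c1b0d_co.Mg.RI_PB
import Pool.Agent.MP_8c1b0d_co.Mg.RI_A4y
import Pool.Agent.MP_8c1b0d_co.Mg.RI_A4
import Pool.Agent.MP_8c1b0d_co.Mg.RI_A5

attribute [-instance] instCoeHTCOfCoeHeadOfCoeOTC instCoeOutOfCoeFun instCoeTCOfCoe
  instIsRightCancelAddOfAddRightReflectLE instCoeHTCTOfCoeTailOfCoeHTC instCoeHTC NeZero.charZero_one
  instCoeOutOfCoeSort instCoeHTCT instCoeTC List.instDecidableMemOfLawfulBEq
  AddCommMonoidWithOne.toAddMonoidWithOne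
  ContinuousMonoidHom.instCoeOutOfMonoidHomClassOfContinuousMapClass RKHS.instFunLike
  IsometryClass.instCoeOutIsometryEquiv instCoeTOfCoeDep
  ContinuousAddMonoidHom.instCoeOutOfAddMonoidHomClassOfContinuousMapClass
  HomeomorphClass.instCoeOutHomeomorph instCoeTCOfCoe_1 CommRing.toRing

-- part MP_8c1b0d_co.RI.PC
section

section
set_option autoImplicit false
set_option linter.unusedSectionVars false
open Finset Function

namespace Pool.Agent.MP_8c1b0d_co.RI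
variable {V V' : Type} [Fintype V] [DecidableEq V] [Fintype V'] [DecidableEq V'] {G : CG V}
  {G' : CG V'}

theorem eY_inv : ∀ x, eY (eY x) = x ∧ eY x ≠ x := by decide
theorem eH_inv : ∀ x, eH (eH x) = x ∧ eH x ≠ x := by decide
theorem eQ_inv : ∀ x, eQ (eQ x) = x ∧ eQ x ≠ x := by decide
theorem eR_inv : ∀ x, eR (eR x) = x ∧ eR x ≠ x := by decide
theorem eY_leg : ∀ i, ∃ y, eY (.inr i) = .inl y := by decide
theorem eH_leg : ∀ i, ∃ y, eH (.inr i) = .inl y := by decide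
theorem eQ_leg : ∀ i, ∃ y, eQ (.inr i) = .inl y := by decide

variable {w k : ℕ} {A : Finset V} {l : Fin k → V × Fin 3} {η : D0 w k → D0 w k} {ι : V → V'}
  {ω : Fin w → V'}

theorem b5a_leg_mem (hl : G.Legs A l) (i : Fin k) : (l i).1 ∈ A ∧ (G.e (l i)).1 ∉ A :=
  CG.mem_bd.1 ((hl.mem _).2 ⟨i, rfl⟩)

theorem b5a_leg_of (hl : G.Legs A l) {d : V × Fin 3} (h1 : d.1 ∈ A) (h2 : (G.e d).1 ∉ A) :
    ∃ i, l i = d := (hl.mem _).1 (CG.mem_bd.2 ⟨h1, h2⟩)

theorem b5a_real_eq {W : Type} {ι : V → W} {ω : Fin w → W} (hl : G.Legs A l)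
    (h1 : Set.InjOn ι A) (h3 : ∀ v ∈ A, ∀ j, ι v ≠ ω j) {x : D0 w k} {d : V × Fin 3}
    (hd : d.1 ∈ A)
    (h : real ω (fun _ => 1) (fun i => (ι (l i).1, (l i).2)) x = (ι d.1, d.2)) :
    ∃ i, x = .inr i ∧ l i = d := by
  rcases x with y | i
  · exact absurd (congrArg Prod.fst h).symm (h3 _ hd _)
  · refine ⟨i, rfl, Prod.ext ?_ (Prod.ext_iff.1 h).2⟩
    exact h1 (b5a_leg_mem hl i).1 hd (congrArg Prod.fst h)

theorem b5a_real_inj {W : Type} {ι : V → W} {ω : Fin w → W} (hl : G.Legs A l)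
    (h1 : Set.InjOn ι A) (h2 : Injective ω) (h3 : ∀ v ∈ A, ∀ j, ι v ≠ ω j) :
    Injective (real ω (fun _ => 1) (fun i => (ι (l i).1, (l i).2))) := by
  intro x y h
  rcases y with y | j
  · rcases x with x | i
    · have e1 : x.1 = y.1 := h2 (congrArg Prod.fst h)
      have e2 : x.2 = y.2 := (Prod.ext_iff.1 h).2
      rw [Prod.ext e1 e2]
    · exact absurd (congrArg Prod.fst h) (h3 _ (b5a_leg_mem hl i).1 _)
  · obtain ⟨i, rfl, hi⟩ := b5a_real_eq hl h1 h3 (b5a_leg_mem hl j).1 h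
    rw [hl.inj hi]

/-- on `{v // v ∈ A} ⊕ Fin w` -/
theorem exists_glue (hl : G.Legs A l) (hA : A.Nonempty) (η : D0 w k → D0 w k)
    (hη : ∀ x, η (η x) = x ∧ η x ≠ x) :
    ∃ (W : Type) (_ : Fintype W) (_ : DecidableEq W) (G' : CG W) (ι : V → W) (ω : Fin w → W),
      Glue G A l η G' ι ω := by
  classical
  obtain ⟨a0, ha0⟩ := hA
  let W := {v // v ∈ A} ⊕ Fin w
  let ι : V → W := fun v => if h : v ∈ A then .inl ⟨v, h⟩ else .inl ⟨a0, ha0⟩
  let ω : Fin w → W := .inr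
  let π : W → V := Sum.elim Subtype.val fun _ => a0
  have hπ : ∀ v ∈ A, π (ι v) = v := fun v hv => by simp [π, ι, hv]
  have h1 : Set.InjOn ι A := fun u hu v hv h => by
    rw [← hπ u hu, h, hπ v hv]
  have h2 : Injective ω := Sum.inr_injective
  have h3 : ∀ v ∈ A, ∀ j, ι v ≠ ω j := fun v hv j => by simp [ι, ω, hv]
  have h4 : ∀ v', (∃ v ∈ A, ι v = v') ∨ ∃ j, ω j = v' := by
    rintro (⟨v, hv⟩ | j)
    · exact .inl ⟨v, hv, by simp [ι, hv]⟩
    · exact .inr ⟨j, rfl⟩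
  let R : D0 w k → W × Fin 3 := real ω (fun _ => 1) (fun i => (ι (l i).1, (l i).2))
  have hR : Injective R := b5a_real_inj hl h1 h2 h3
  let e : W × Fin 3 → W × Fin 3 := fun d =>
    if h : ∃ x, R x = d then R (η h.choose) else (ι (G.e (π d.1, d.2)).1, (G.e (π d.1, d.2)).2)
  have eR : ∀ x, e (R x) = R (η x) := fun x => by
    have h : ∃ y, R y = R x := ⟨x, rfl⟩
    simp only [e, dif_pos h]
    rw [hR h.choose_spec]
  have eI : ∀ d : V × Fin 3, d.1 ∈ A → (G.e d).1 ∈ A →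
      e (ι d.1, d.2) = (ι (G.e d).1, (G.e d).2) := fun d hd hd' => by
    have h : ¬ ∃ y, R y = (ι d.1, d.2) := by
      rintro ⟨y, hy⟩
      obtain ⟨i, -, hi⟩ := b5a_real_eq hl h1 h3 hd hy
      exact (b5a_leg_mem hl i).2 (hi ▸ hd')
    simp only [e, dif_neg h, hπ _ hd]
  have hc : ∀ d : W × Fin 3, (∃ x, R x = d) ∨
      ∃ d0 : V × Fin 3, d0.1 ∈ A ∧ (G.e d0).1 ∈ A ∧ d = (ι d0.1, d0.2) := by
    rintro ⟨v', i⟩
    rcases h4 v' with ⟨v, hv, rfl⟩ | ⟨j, rfl⟩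
    · by_cases h : (G.e (v, i)).1 ∈ A
      · exact .inr ⟨(v, i), hv, h, rfl⟩
      · obtain ⟨a, ha⟩ := b5a_leg_of hl (d := (v, i)) hv h
        exact .inl ⟨.inr a, by simp [R, real, ha]⟩
    · exact .inl ⟨.inl (j, i), rfl⟩
  refine ⟨W, inferInstance, inferInstance, ⟨e, fun d => ?_, fun d => ?_⟩, ι, ω,
    ⟨h1, h2, h3, h4, eI, eR⟩⟩
  · rcases hc d with ⟨x, rfl⟩ | ⟨d0, a, b, rfl⟩
    · rw [eR, eR, (hη x).1]
    · rw [eI _ a b, eI _ b (by rw [G.ee]; exact a), G.ee]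
  · rcases hc d with ⟨x, rfl⟩ | ⟨d0, a, b, rfl⟩
    · rw [eR]; exact fun h => (hη x).2 (hR h)
    · rw [eI _ a b]
      intro h
      exact G.ne d0 (Prod.ext (h1 b a (congrArg Prod.fst h)) (Prod.ext_iff.1 h).2)

namespace Glue
theorem compl_image (g : Glue G A l η G' ι ω) : (A.image ι)ᶜ = univ.image ω := by
  ext v'
  simp only [mem_compl, mem_image, mem_univ, true_and]
  constructor
  · intro h
    exact (g.cover v').resolve_left h
  · rintro ⟨j, rfl⟩ ⟨v, hv, e⟩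
    exact g.disj v hv j e
theorem card (g : Glue G A l η G' ι ω) : Fintype.card V' = #A + w := by
  have h1 := card_add_card_compl (A.image ι)
  rw [g.compl_image, card_image_of_injective _ g.ω_inj, card_image_of_injOn g.ι_inj] at h1
  simpa only [card_univ, Fintype.card_fin] using h1.symm
theorem chart (g : Glue G A l η G' ι ω) (hl : G.Legs A l) :
    Chart G' (A.image ι) η ω (fun _ => 1) fun i => (ι (l i).1, (l i).2) := by
  refine ⟨g.ω_inj, fun v => ?_, fun i j h => ?_, fun i => ?_, g.gad⟩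
  · rw [← mem_compl, g.compl_image]; simp only [mem_image, mem_univ, true_and]
  · exact Sum.inr_injective (b5a_real_inj hl g.ι_inj g.ω_inj g.disj (a₁ := .inr i) (a₂ := .inr j) h)
  · exact mem_image_of_mem _ (b5a_leg_mem hl i).1
theorem share (g : Glue G A l η G' ι ω) (hl : G.Legs A l) (hη : ∀ i, ∃ y, η (.inr i) = .inl y) :
    Share G A G' (A.image ι) ι := by
  refine ⟨g.ι_inj, fun v' => mem_image, g.inner, fun d h1 h2 => ?_⟩
  obtain ⟨i, rfl⟩ := b5a_leg_of hl h1 h2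
  obtain ⟨y, hy⟩ := hη i
  have := g.gad (.inr i)
  rw [hy] at this
  have e : (G'.e (ι (l i).1, (l i).2)).1 = ω y.1 := congrArg Prod.fst this
  rw [e, ← mem_compl, g.compl_image]
  simp only [mem_image, mem_univ, true_and, exists_apply_eq_apply]
/-- colourings of the two parts combine -/
theorem col (g : Glue G A l η G' ι ω) (hl : G.Legs A l) {c : V × Fin 3 → Fin 3}
    (hc : G.PCol A c) (he : Ext η fun i => c (l i)) :
    ∃ c', G'.Col c' ∧ ∀ d : V × Fin 3, d.1 ∈ A → c' (ι d.1, d.2) = c d := by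
  classical
  obtain ⟨c0, a1, a2, a3⟩ := he
  let c' : V' × Fin 3 → Fin 3 := fun d =>
    if h : ∃ v ∈ A, ι v = d.1 then c (h.choose, d.2)
    else c0 (.inl (((g.cover d.1).resolve_left h).choose, d.2))
  have k1 : ∀ d : V × Fin 3, d.1 ∈ A → c' (ι d.1, d.2) = c d := fun d hd => by
    have h : ∃ v ∈ A, ι v = ι d.1 := ⟨d.1, hd, rfl⟩
    simp only [c', dif_pos h]
    rw [g.ι_inj h.choose_spec.1 hd h.choose_spec.2]
  have k2 : ∀ j i, c' (ω j, i) = c0 (.inl (j, i)) := fun j i => by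
    have h : ¬ ∃ v ∈ A, ι v = ω j := fun ⟨v, hv, e⟩ => g.disj v hv j e
    simp only [c', dif_neg h]
    rw [g.ω_inj ((g.cover (ω j)).resolve_left h).choose_spec]
  have k3 : ∀ x, c' (real ω (fun _ => 1) (fun i => (ι (l i).1, (l i).2)) x) = c0 x := by
    rintro (y | i)
    · exact k2 y.1 y.2
    · exact (k1 _ (b5a_leg_mem hl i).1).trans (a3 i).symm
  refine ⟨c', ⟨?_, ?_⟩, k1⟩
  · rintro ⟨v', i⟩
    rcases g.cover v' with ⟨v, hv, rfl⟩ | ⟨j, rfl⟩
    · by_cases h : (G.e (v, i)).1 ∈ A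
      · have := g.inner (v, i) hv h
        rw [this, k1 _ h, k1 (v, i) hv]
        exact hc.1 (v, i) hv h
      · obtain ⟨a, ha⟩ := b5a_leg_of hl (d := (v, i)) hv h
        have e : (ι v, i) = real ω (fun _ => 1) (fun i => (ι (l i).1, (l i).2)) (.inr a) := by
          simp [real, ha]
        rw [e, g.gad, k3, k3, a1]
    · have e : (ω j, i) = real ω (fun _ => 1) (fun i => (ι (l i).1, (l i).2)) (.inl (j, i)) := rfl
      rw [e, g.gad, k3, k3, a1]
  · intro v' i j h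
    rcases g.cover v' with ⟨v, hv, rfl⟩ | ⟨a, rfl⟩
    · rw [k1 (v, i) hv, k1 (v, j) hv] at h
      exact hc.2 v hv i j h
    · rw [k2, k2] at h
      exact a2 a i j h
theorem pcol (g : Glue G A l η G' ι ω) {c' : V' × Fin 3 → Fin 3} (hc : G'.Col c') :
    G.PCol A (fun d => c' (ι d.1, d.2)) ∧ Ext η fun i => c' (ι (l i).1, (l i).2) := by
  refine ⟨⟨fun d h1 h2 => ?_, fun v _ i j h => hc.2 _ i j h⟩,
    fun x => c' (real ω (fun _ => 1) (fun i => (ι (l i).1, (l i).2)) x), fun x => ?_,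
    fun j i i' h => hc.2 (ω j) i i' h, fun i => rfl⟩
  · show c' _ = c' _
    rw [← g.inner d h1 h2, hc.1]
  · show c' _ = c' _
    rw [← g.gad, hc.1]
theorem rot2 {l : Fin 4 → V × Fin 3} {ω : Fin 0 → V'} (g : Glue G A l eR G' ι ω) :
    Glue G A (fun i => l (i + 2)) eR G' ι ω := by
  refine ⟨g.ι_inj, g.ω_inj, g.disj, g.cover, g.inner, ?_⟩
  rintro (y | i)
  · exact y.1.elim0
  · have := g.gad (.inr (i + 2))
    have e : ∀ i : Fin 4, 3 - (i + 2) = 3 - i + 2 := by decide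
    simpa only [real, Equiv.Perm.coe_one, id_eq, Fin.isValue, Sum.elim_inr, eR, e] using this

end Glue

theorem Share.cut {A' : Finset V'} (h : Share G A G' A' ι) {S : Finset V} (hS : S ⊆ A) :
    G'.cut (S.image ι) = G.cut S := by
  have key : ∀ d : V × Fin 3, d.1 ∈ S →
      ((G'.e (ι d.1, d.2)).1 ∉ S.image ι ↔ (G.e d).1 ∉ S) := fun d hd => by
    by_cases h2 : (G.e d).1 ∈ A
    · rw [h.inner d (hS hd) h2]
      refine not_congr ⟨fun a => ?_, fun a => mem_image_of_mem _ a⟩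
      obtain ⟨u, hu, e⟩ := mem_image.1 a
      rw [← h.inj (hS hu) h2 e]; exact hu
    · refine ⟨fun _ a => h2 (hS a), fun _ a => h.leg d (hS hd) h2 ?_⟩
      obtain ⟨u, hu, e⟩ := mem_image.1 a
      exact (h.img _).2 ⟨u, hS hu, e⟩
  symm
  refine card_bij (fun d _ => (ι d.1, d.2)) (fun d hd => ?_) (fun a ha b hb e => ?_)
    (fun d hd => ?_)
  · rw [CG.mem_bd] at hd ⊢
    exact ⟨mem_image_of_mem _ hd.1, (key d hd.1).2 hd.2⟩
  · rw [CG.mem_bd] at ha hb
    exact Prod.ext (h.inj (hS ha.1) (hS hb.1) (congrArg Prod.fst e)) (Prod.ext_iff.1 e).2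
  · rw [CG.mem_bd] at hd
    obtain ⟨u, hu, e⟩ := mem_image.1 hd.1
    have e2 : d = (ι u, d.2) := Prod.ext e.symm rfl
    refine ⟨(u, d.2), CG.mem_bd.2 ⟨hu, (key (u, d.2) hu).1 ?_⟩, e2.symm⟩
    rw [← e2]; exact hd.2
theorem Share.b5a_img {A' : Finset V'} (h : Share G A G' A' ι) : A' = A.image ι := by
  ext v'; rw [h.img, mem_image]
theorem Share.card {A' : Finset V'} (h : Share G A G' A' ι) : #A' = #A := by
  rw [h.b5a_img, card_image_of_injOn h.inj]
theorem Share.ic5 {A' : Finset V'} (h : Share G A G' A' ι) (h5 : G.IC5 A) : G'.IC5 A' := by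
  intro S' hS' hc
  rw [h.b5a_img] at hS'
  obtain ⟨S, hS, rfl⟩ := subset_image_iff.1 hS'
  rw [h.cut hS] at hc
  rcases h5 S hS hc with a | a
  · exact .inl (card_image_le.trans a)
  · exact .inr (by rw [a, h.b5a_img])
theorem Share.refl (A : Finset V) : Share G A G A id :=
  ⟨fun _ _ _ _ h => h, by simp only [id_eq, exists_eq_right, implies_true], fun _ _ _ => rfl, fun _ _ h => h⟩

end Pool.Agent.MP_8c1b0d_co.RI
end

section
set_option autoImplicit false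
set_option linter.unusedSectionVars false
open Finset Function

namespace Pool.Agent.MP_8c1b0d_co.RI
variable {V V' : Type} [Fintype V] [DecidableEq V] [Fintype V'] [DecidableEq V'] {G : CG V}
  {G' : CG V'}

variable {A : Finset V} {ι : V → V'}

namespace Glue
variable {op : V × Fin 3 → ℕ}

/-- labels of the glued graph: `f ∘ op` on the side `A`, `β` on the gadget -/
theorem b5_lab {w k : ℕ} {l : Fin k → V × Fin 3} {η : D0 w k → D0 w k} {ω : Fin w → V'}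
    (g : Glue G A l η G' ι ω) (hl : G.Legs A l) (mat : ∀ d, prs op (G.e d) = prs op d)
    (f : ℕ → ℕ) (β : Fin w × Fin 3 → ℕ)
    (hβ : ∀ x, Sum.elim (prs β) (fun i => (prs op (l i)).map f) (η x) =
      Sum.elim (prs β) (fun i => (prs op (l i)).map f) x) :
    ∃ op' : V' × Fin 3 → ℕ, (∀ d, prs op' (G'.e d) = prs op' d) ∧
      (∀ d : V × Fin 3, d.1 ∈ A → op' (ι d.1, d.2) = f (op d)) ∧
      ∀ y : Fin w × Fin 3, op' (ω y.1, y.2) = β y := by
  classical
  obtain ⟨op', h1, h2⟩ : ∃ op' : V' × Fin 3 → ℕ,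
      (∀ d : V × Fin 3, d.1 ∈ A → op' (ι d.1, d.2) = f (op d)) ∧
      ∀ y : Fin w × Fin 3, op' (ω y.1, y.2) = β y := by
    refine ⟨fun d => if h : ∃ v ∈ A, ι v = d.1 then f (op (h.choose, d.2)) else
      if h : ∃ j, ω j = d.1 then β (h.choose, d.2) else 0, fun d hd => ?_, fun y => ?_⟩
    · have h : ∃ v ∈ A, ι v = ι d.1 := ⟨d.1, hd, rfl⟩
      simp only [dif_pos h]
      rw [g.ι_inj h.choose_spec.1 hd h.choose_spec.2]
    · have h : ¬ ∃ v ∈ A, ι v = ω y.1 := fun ⟨v, hv, e⟩ => g.disj v hv _ e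
      have h' : ∃ j, ω j = ω y.1 := ⟨y.1, rfl⟩
      simp only [dif_neg h, dif_pos h']
      rw [g.ω_inj h'.choose_spec]
  have p1 : ∀ d : V × Fin 3, d.1 ∈ A → prs op' (ι d.1, d.2) = (prs op d).map f := by
    intro d hd
    simp only [prs, Sym2.map_mk]
    rw [← h1 (d.1, d.2 + 1) hd, ← h1 (d.1, d.2 + 2) hd]
  have hA : ∀ i, (l i).1 ∈ A := fun i => (CG.mem_bd.1 ((hl.mem _).2 ⟨i, rfl⟩)).1
  have p2 : ∀ x, prs op' (real ω (fun _ => 1) (fun i => (ι (l i).1, (l i).2)) x) =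
      Sum.elim (prs β) (fun i => (prs op (l i)).map f) x := by
    rintro (y | i)
    · simp only [real, prs, Sum.elim_inl, Equiv.Perm.coe_one, id]
      rw [← h2 (y.1, y.2 + 1), ← h2 (y.1, y.2 + 2)]
    · exact p1 _ (hA i)
  have p3 : ∀ x, prs op' (G'.e (real ω (fun _ => 1) (fun i => (ι (l i).1, (l i).2)) x)) =
      prs op' (real ω (fun _ => 1) (fun i => (ι (l i).1, (l i).2)) x) := fun x => by
    rw [g.gad, p2, p2, hβ]
  refine ⟨op', ?_, h1, h2⟩
  rintro ⟨v', i⟩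
  rcases g.cover v' with ⟨v, hv, rfl⟩ | ⟨j, rfl⟩
  · by_cases h : (G.e (v, i)).1 ∈ A
    · rw [g.inner (v, i) hv h, p1 _ h, mat]
      exact (p1 (v, i) hv).symm
    · obtain ⟨j, hj⟩ := (hl.mem (v, i)).1 (CG.mem_bd.2 ⟨hv, h⟩)
      have := p3 (.inr j)
      simpa only [real, Sum.elim_inr, hj] using this
  · exact p3 (.inl (j, i))

theorem b5_sub {op' : V' × Fin 3 → ℕ} (h : ∀ d : V × Fin 3, d.1 ∈ A → op' (ι d.1, d.2) = op d) :
    (A ×ˢ univ).image op ⊆ univ.image op' := by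
  intro x hx
  obtain ⟨d, hd, rfl⟩ := mem_image.1 hx
  exact mem_image.2 ⟨_, mem_univ _, h d (mem_product.1 hd).1⟩

/-- label `b (j + 2)` at the corner `j` of the new vertex; `Lab.count` -/
theorem planeY {l : Fin 3 → V × Fin 3} {b : Fin 3 → ℕ} {ω : Fin 1 → V'}
    (g : Glue G A l eY G' ι ω) (h3 : G.EC3) (hl : G.Lab op) (c : G.Cyc op A l b) : G'.Plane := by
  obtain ⟨op', h1, h2, -⟩ := g.b5_lab c.legs hl.mat id (fun y => b (y.2 + 2)) (by
    simp only [c.pr]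
    rintro (⟨j, i⟩ | i)
    · fin_cases i <;> simp [eY, prs]
    · fin_cases i <;> simp [eY, prs])
  have hc := c.legs.cut
  have h4 := hl.count h3 (S := A) (by omega) (by omega)
  have h5 := card_le_card (b5_sub (op := op) h2)
  exact ⟨op', h1, by rw [g.card]; omega⟩

/-- labels `b 2, b 0, b 1` at `ω 0` and `b 0, b 2, b 3` at `ω 1` -/
theorem planeH {l : Fin 4 → V × Fin 3} {b : Fin 4 → ℕ} {ω : Fin 2 → V'}
    (g : Glue G A l eH G' ι ω) (h3 : G.EC3) (hl : G.Lab op) (c : G.Cyc op A l b) :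
    ∃ op', G'.Lab op' ∧ ∀ d : V × Fin 3, d.1 ∈ A → op' (ι d.1, d.2) = op d := by
  obtain ⟨op', h1, h2, -⟩ := g.b5_lab c.legs hl.mat id
    (fun y => b (![![2, 0, 1], ![0, 2, 3]] y.1 y.2)) (by
    simp only [c.pr]
    rintro (⟨j, i⟩ | i)
    · fin_cases j <;> fin_cases i <;> simp [eH, prs]
    · fin_cases i <;> simp [eH, prs])
  have hc := c.legs.cut
  have h4 := hl.count h3 (S := A) (by omega) (by omega)
  have h5 := card_le_card (b5_sub (op := op) h2)
  exact ⟨op', ⟨h1, by rw [g.card]; omega⟩, h2⟩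

/-- labels `new, b j, b (j + 1)` at `ω j` -/
theorem planeQ {l : Fin 4 → V × Fin 3} {b : Fin 4 → ℕ} {ω : Fin 4 → V'}
    (g : Glue G A l eQ G' ι ω) (h3 : G.EC3) (hl : G.Lab op) (c : G.Cyc op A l b) : G'.Plane := by
  obtain ⟨n, hn⟩ := Infinite.exists_notMem_finset ((A ×ˢ univ).image op)
  obtain ⟨op', h1, h2, h6⟩ := g.b5_lab c.legs hl.mat id
    (fun y => ![n, b y.1, b (y.1 + 1)] y.2) (by
    simp only [c.pr]
    rintro (⟨j, i⟩ | i)
    · fin_cases i <;> simp [eQ, prs]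
    · simp [eQ, prs])
  have hc := c.legs.cut
  have h4 := hl.count h3 (S := A) (by omega) (by omega)
  have h5 : insert n ((A ×ˢ univ).image op) ⊆ univ.image op' :=
    insert_subset (mem_image.2 ⟨_, mem_univ _, h6 (0, 0)⟩) (b5_sub h2)
  have h7 := card_le_card h5
  rw [card_insert_of_notMem hn] at h7
  exact ⟨op', h1, by rw [g.card]; omega⟩

/-- identify the labels `b 1` and `b 3` -/
theorem planeR {l : Fin 4 → V × Fin 3} {b : Fin 4 → ℕ} {ω : Fin 0 → V'}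
    (g : Glue G A l eR G' ι ω) (h3 : G.EC3) (hl : G.Lab op) (c : G.Cyc op A l b) : G'.Plane := by
  have e : ∀ i, b i = b 3 ↔ i = 3 := fun i => c.b_inj.eq_iff
  obtain ⟨op', h1, h2, -⟩ := g.b5_lab c.legs hl.mat (fun x => if x = b 3 then b 1 else x)
    (fun _ => 0) (by
    simp only [c.pr]
    rintro (⟨j, i⟩ | i)
    · exact j.elim0
    · fin_cases i <;> simp [eR, e])
  have hc := c.legs.cut
  have h4 := hl.count h3 (S := A) (by omega) (by omega)
  have h5 : ((A ×ˢ univ).image op).erase (b 3) ⊆ univ.image op' := by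
    intro x hx
    obtain ⟨d, hd, rfl⟩ := mem_image.1 (mem_erase.1 hx).2
    refine mem_image.2 ⟨_, mem_univ _, (h2 d (mem_product.1 hd).1).trans ?_⟩
    exact if_neg (mem_erase.1 hx).1
  have h7 := card_le_card h5
  have h8 := pred_card_le_card_erase (s := (A ×ˢ univ).image op) (a := b 3)
  exact ⟨op', h1, by rw [g.card]; omega⟩
end Glue

end Pool.Agent.MP_8c1b0d_co.RI
end

section
set_option autoImplicit false
set_option linter.unusedSectionVars false
open Finset Function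

namespace Pool.Agent.MP_8c1b0d_co.RI
variable {V V' : Type} [Fintype V] [DecidableEq V] [Fintype V'] [DecidableEq V'] {G : CG V}
  {G' : CG V'}

variable {A : Finset V} {ι : V → V'}

/-- the number of gadget darts that leave a set -/
def b6a_gc {w k : ℕ} (η : D0 w k → D0 w k) (a : Fin w → Bool) (b : Fin k → Bool) : ℕ :=
  #{x : D0 w k | Sum.elim (fun y => a y.1) b x = true ∧ Sum.elim (fun y => a y.1) b (η x) = false}

def b6a_nb {k : ℕ} (b : Fin k → Bool) : ℕ := #{i | b i = true}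

/-- inner darts from `S` to the rest of `A` -/
def b6a_E (G : CG V) (A S : Finset V) : Finset (V × Fin 3) :=
  {d | d.1 ∈ S ∧ (G.e d).1 ∈ A ∧ (G.e d).1 ∉ S}

theorem b6a_cut {k : ℕ} {l : Fin k → V × Fin 3} (hl : G.Legs A l) {S : Finset V} (hS : S ⊆ A) :
    G.cut S = #(b6a_E G A S) + #{i | (l i).1 ∈ S} := by
  have e : G.bd S = b6a_E G A S ∪ ({i | (l i).1 ∈ S} : Finset (Fin k)).image l := by
    ext d
    simp only [CG.mem_bd, b6a_E, mem_union, mem_filter, mem_univ, true_and, mem_image]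
    constructor
    · rintro ⟨h1, h2⟩
      by_cases h : (G.e d).1 ∈ A
      · exact .inl ⟨h1, h, h2⟩
      · obtain ⟨i, rfl⟩ := b5a_leg_of hl (hS h1) h
        exact .inr ⟨i, h1, rfl⟩
    · rintro (⟨h1, -, h2⟩ | ⟨i, h1, rfl⟩)
      · exact ⟨h1, h2⟩
      · exact ⟨h1, fun h => (b5a_leg_mem hl i).2 (hS h)⟩
  unfold CG.cut
  rw [e, card_union_of_disjoint, card_image_of_injective _ hl.inj]
  rw [disjoint_left]
  intro d h1 h2
  obtain ⟨i, -, rfl⟩ := mem_image.1 h2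
  simp only [b6a_E, mem_filter] at h1
  exact (b5a_leg_mem hl i).2 h1.2.2.1

theorem b6a_E_compl {S : Finset V} (hS : S ⊆ A) : #(b6a_E G A (A \ S)) = #(b6a_E G A S) := by
  refine card_bij' (fun d _ => G.e d) (fun d _ => G.e d) (fun d hd => ?_) (fun d hd => ?_)
    (fun d _ => G.ee d) (fun d _ => G.ee d)
  · simp only [b6a_E, mem_filter, mem_univ, true_and, mem_sdiff, G.ee] at hd ⊢
    refine ⟨?_, hd.1.1, hd.1.2⟩
    by_contra h
    exact hd.2.2 ⟨hd.2.1, h⟩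
  · simp only [b6a_E, mem_filter, mem_univ, true_and, mem_sdiff, G.ee] at hd ⊢
    exact ⟨⟨hd.2.1, hd.2.2⟩, hS hd.1, fun h => h.2 hd.1⟩

theorem b6a_cut' {w k : ℕ} {l : Fin k → V × Fin 3} {η : D0 w k → D0 w k} {ω : Fin w → V'}
    (g : Glue G A l η G' ι ω) (hl : G.Legs A l) (S' : Finset V') :
    G'.cut S' = #(b6a_E G A {v ∈ A | ι v ∈ S'}) +
      b6a_gc η (fun j => decide (ω j ∈ S')) fun i => decide (ι (l i).1 ∈ S') := by
  have hR := b5a_real_inj hl g.ι_inj g.ω_inj g.disj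
  have hg := g.gad
  set R := real ω (fun _ => 1) (fun i => (ι (l i).1, (l i).2)) with hRdef
  have hT : ∀ x, Sum.elim (fun y : Fin w × Fin 3 => decide (ω y.1 ∈ S'))
      (fun i => decide (ι (l i).1 ∈ S')) x = decide ((R x).1 ∈ S') := by
    rintro (y | i) <;> rfl
  have e : G'.bd S' = (b6a_E G A {v ∈ A | ι v ∈ S'}).image (fun d => (ι d.1, d.2)) ∪
      ({x | (R x).1 ∈ S' ∧ (R (η x)).1 ∉ S'} : Finset (D0 w k)).image R := by
    ext ⟨v', i⟩
    simp only [CG.mem_bd, b6a_E, mem_union, mem_filter, mem_univ, true_and, mem_image]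
    constructor
    · rintro ⟨h1, h2⟩
      have hx : ∀ x, R x = (v', i) → ∃ x, ((R x).1 ∈ S' ∧ (R (η x)).1 ∉ S') ∧ R x = (v', i) :=
        fun x hx => ⟨x, ⟨by rw [hx]; exact h1, by rw [← hg, hx]; exact h2⟩, hx⟩
      rcases g.cover v' with ⟨v, hv, rfl⟩ | ⟨j, rfl⟩
      · by_cases h : (G.e (v, i)).1 ∈ A
        · rw [g.inner (v, i) hv h] at h2
          exact .inl ⟨(v, i), ⟨⟨hv, h1⟩, h, fun a => h2 a.2⟩, rfl⟩
        · obtain ⟨a, ha⟩ := b5a_leg_of hl (d := (v, i)) hv h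
          exact .inr (hx (.inr a) (by simp [hRdef, real, ha]))
      · exact .inr (hx (.inl (j, i)) rfl)
    · rintro (⟨d, ⟨h1, h2, h3⟩, e⟩ | ⟨x, ⟨h1, h2⟩, e⟩)
      · rw [← e, g.inner d h1.1 h2]
        have e1 : ι d.1 = v' := congrArg Prod.fst e
        exact ⟨e1 ▸ h1.2, fun a => h3 ⟨h2, a⟩⟩
      · rw [← e, hg]
        have e1 : (R x).1 = v' := congrArg Prod.fst e
        exact ⟨e1 ▸ h1, h2⟩
  unfold CG.cut b6a_gc
  rw [e, card_union_of_disjoint, card_image_of_injective _ hR, card_image_of_injOn]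
  · simp only [hT, decide_eq_true_eq, decide_eq_false_iff_not]
  · intro a ha b hb e
    simp only [b6a_E, coe_filter, mem_filter, Set.mem_ofPred_eq] at ha hb
    exact Prod.ext (g.ι_inj ha.2.1.1 hb.2.1.1 (congrArg Prod.fst e)) (Prod.ext_iff.1 e).2
  · rw [disjoint_left]
    intro d h1 h2
    obtain ⟨x, -, rfl⟩ := mem_image.1 h2
    obtain ⟨d, hd, e⟩ := mem_image.1 h1
    simp only [b6a_E, mem_filter] at hd
    obtain ⟨i, -, hi⟩ := b5a_real_eq hl g.ι_inj g.disj hd.2.1.1 e.symm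
    exact (b5a_leg_mem hl i).2 (hi ▸ hd.2.2.1)

theorem b6a_gen {w k : ℕ} {l : Fin k → V × Fin 3} {η : D0 w k → D0 w k} {ω : Fin w → V'}
    (g : Glue G A l η G' ι ω) (h3 : G.EC3) (hl : G.Legs A l) (i0 : Fin k)
    (h0 : ∀ a b, (∀ j, a j = false) → b6a_gc η a b = b6a_nb b)
    (h1 : ∀ a b, (∀ j, a j = true) → b6a_gc η a b + b6a_nb b = k)
    (H : ∀ (a : Fin w → Bool) (b : Fin k → Bool) (E : ℕ) (S : Finset V), S ⊆ A →
      (∀ i, b i = true → (l i).1 ∈ S) → G.cut S = E + b6a_nb b →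
      (0 < b6a_nb b → 3 ≤ E + b6a_nb b) → (b6a_nb b < k → 3 + b6a_nb b ≤ E + k) →
      (∃ j, a j = true) → (∃ j, a j = false) → 3 ≤ E + b6a_gc η a b) : G'.EC3 := by
  intro S' n1 n2
  rw [b6a_cut' g hl]
  set S : Finset V := {v ∈ A | ι v ∈ S'} with hSdef
  have hS : S ⊆ A := filter_subset _ _
  set b : Fin k → Bool := fun i => decide (ι (l i).1 ∈ S') with hb
  have hbS : ∀ i, b i = true ↔ (l i).1 ∈ S := fun i => by
    simp [hb, hSdef, (b5a_leg_mem hl i).1]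
  have c1 : G.cut S = #(b6a_E G A S) + b6a_nb b := by
    rw [b6a_cut hl hS]; simp only [b6a_nb, hbS]
  have c2 : G.cut (A \ S) + b6a_nb b = #(b6a_E G A S) + k := by
    rw [b6a_cut hl sdiff_subset, b6a_E_compl hS, add_assoc]
    congr 1
    have := card_filter_add_card_filter_not (s := (univ : Finset (Fin k))) (fun i => b i = true)
    rw [card_univ, Fintype.card_fin] at this
    refine Eq.trans ?_ this
    rw [add_comm]
    congr 2
    ext i
    simp only [mem_sdiff, mem_filter, mem_univ, (b5a_leg_mem hl i).1, true_and, hbS]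
  have out : ∀ T ⊆ A, Tᶜ.Nonempty := fun T hT =>
    ⟨(G.e (l i0)).1, mem_compl.2 fun h => (b5a_leg_mem hl i0).2 (hT h)⟩
  have d1 : S.Nonempty → 3 ≤ #(b6a_E G A S) + b6a_nb b := fun h => c1 ▸ h3 S h (out S hS)
  have d2 : (A \ S).Nonempty → 3 + b6a_nb b ≤ #(b6a_E G A S) + k := fun h => by
    have := h3 _ h (out _ sdiff_subset)
    omega
  by_cases p1 : ∃ j, decide (ω j ∈ S') = true
  · by_cases p2 : ∃ j, decide (ω j ∈ S') = false
    · refine H _ b _ S hS (fun i => (hbS i).1) c1 (fun h => d1 ?_) (fun h => d2 ?_) p1 p2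
      · obtain ⟨i, hi⟩ := card_pos.1 h
        exact ⟨_, (hbS i).1 (mem_filter.1 hi).2⟩
      · by_contra hn
        have : ∀ i, b i = true := fun i => (hbS i).2 (by
          by_contra h'
          exact hn ⟨_, mem_sdiff.2 ⟨(b5a_leg_mem hl i).1, h'⟩⟩)
        simp only [b6a_nb, this, filter_true, card_univ, Fintype.card_fin, lt_self_iff_false] at h
    · have p : ∀ j, decide (ω j ∈ S') = true := fun j => by
        by_contra h
        exact p2 ⟨j, by simpa using h⟩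
      have := h1 _ b p
      have := d2 (by
        obtain ⟨v', hv'⟩ := n2
        rcases g.cover v' with ⟨v, hv, rfl⟩ | ⟨j, rfl⟩
        · exact ⟨v, mem_sdiff.2 ⟨hv, fun h => mem_compl.1 hv' (mem_filter.1 h).2⟩⟩
        · exact absurd (of_decide_eq_true (p j)) (mem_compl.1 hv'))
      omega
  · have p : ∀ j, decide (ω j ∈ S') = false := fun j => by
      by_contra h
      exact p1 ⟨j, by simpa using h⟩
    have := h0 _ b p
    have := d1 (by
      obtain ⟨v', hv'⟩ := n1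
      rcases g.cover v' with ⟨v, hv, rfl⟩ | ⟨j, rfl⟩
      · exact ⟨v, mem_filter.2 ⟨hv, hv'⟩⟩
      · exact absurd hv' (of_decide_eq_false (p j)))
    omega

theorem b6a_H (a : Fin 2 → Bool) (b : Fin 4 → Bool) (h1 : ∃ j, a j = true) (h2 : ∃ j, a j = false) :
    3 ≤ b6a_gc eH a b ∨ (b6a_nb b = 1 ∧ b6a_gc eH a b = 2) ∨
      (((b 0 && b 1) || (b 2 && b 3)) = true ∧ b6a_nb b ≤ b6a_gc eH a b + 1) := by
  revert a b; decide +kernel

theorem b6a_Q (a : Fin 4 → Bool) (b : Fin 4 → Bool) (h1 : ∃ j, a j = true) (h2 : ∃ j, a j = false) :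
    3 ≤ b6a_gc eQ a b ∨ (0 < b6a_nb b ∧ b6a_nb b < 4 ∧ b6a_gc eQ a b = 2) := by
  revert a b; decide +kernel

namespace Glue
/-- replace `S` by its complement so that it avoids the new vertex; `Share.cut` -/
theorem ec3Y {l : Fin 3 → V × Fin 3} {ω : Fin 1 → V'} (g : Glue G A l eY G' ι ω) (h3 : G.EC3)
    (hl : G.Legs A l) : G'.EC3 := by
  refine b6a_gen g h3 hl 0 (by decide +kernel) (by decide +kernel) ?_
  rintro a b E S - - - - - ⟨i, hi⟩ ⟨j, hj⟩
  rw [Subsingleton.elim i j, hj] at hi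
  exact absurd hi (by decide)
/-- `S ∋ ω 0`, `S ∌ ω 1`, `S' ⊆ A` its preimage, `k` and `k'` the numbers of legs among `0, 1` and
`2, 3` in `S'`, `e` the number of edges between `S'` and `A - S'`: the cut is `3 - k + k' + e`,
`cut S' = k + k' + e`, `cut (A - S') = 4 - k - k' + e`. -/
theorem ec3H {l : Fin 4 → V × Fin 3} {ω : Fin 2 → V'} (g : Glue G A l eH G' ι ω) (h3 : G.EC3)
    (hl : G.Legs A l) (small : ∀ S ⊆ A, G.cut S ≤ 3 → #S ≤ 1) (n1 : (l 0).1 ≠ (l 1).1)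
    (n2 : (l 2).1 ≠ (l 3).1) : G'.EC3 := by
  refine b6a_gen g h3 hl 0 (by decide +kernel) (by decide +kernel) ?_
  intro a b E S hS hb c1 d1 _ p1 p2
  rcases b6a_H a b p1 p2 with h | h | ⟨h, h'⟩
  · omega
  · have := d1 (by omega)
    omega
  · by_contra hn
    have := small S hS (by omega)
    rw [card_le_one] at this
    simp only [Bool.or_eq_true, Bool.and_eq_true] at h
    rcases h with h | h
    · exact n1 (this _ (hb _ h.1) _ (hb _ h.2))
    · exact n2 (this _ (hb _ h.1) _ (hb _ h.2))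
/-- if `S` splits the 4-cycle, two cut edges lie on it; without a third one `S'` and `A - S'` are
nonempty with cuts adding up to four -/
theorem ec3Q {l : Fin 4 → V × Fin 3} {ω : Fin 4 → V'} (g : Glue G A l eQ G' ι ω) (h3 : G.EC3)
    (hl : G.Legs A l) : G'.EC3 := by
  refine b6a_gen g h3 hl 0 (by decide +kernel) (by decide +kernel) ?_
  intro a b E S _ _ _ d1 d2 p1 p2
  rcases b6a_Q a b p1 p2 with h | ⟨h, h', h''⟩
  · omega
  · have := d1 h
    have := d2 h'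
    omega
end Glue

end Pool.Agent.MP_8c1b0d_co.RI
end

section
set_option autoImplicit false
set_option linter.unusedSectionVars false
open Finset Function

namespace Pool.Agent.MP_8c1b0d_co.RI
variable {V V' : Type} [Fintype V] [DecidableEq V] [Fintype V'] [DecidableEq V'] {G : CG V}
  {G' : CG V'}

variable {A : Finset V} {ι : V → V'}

/-- the darts from `S` to the rest of `A` -/
def b6E (G : CG V) (A S : Finset V) : Finset (V × Fin 3) := {d | d.1 ∈ S ∧ (G.e d).1 ∈ A \ S}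

theorem b6_disj {l : Fin 4 → V × Fin 3} (hl : G.Legs A l) (S : Finset V) (I : Finset (Fin 4)) :
    #(b6E G A S ∪ I.image l) = #(b6E G A S) + #I := by
  rw [card_union_of_disjoint, card_image_of_injective _ hl.inj]
  refine disjoint_left.2 fun d h1 h2 => ?_
  obtain ⟨i, -, rfl⟩ := mem_image.1 h2
  exact (CG.mem_bd.1 ((hl.mem _).2 ⟨i, rfl⟩)).2 (mem_sdiff.1 (mem_filter.1 h1).2.2).1

theorem b6_cut {l : Fin 4 → V × Fin 3} (hl : G.Legs A l) {S : Finset V} (hS : S ⊆ A) :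
    G.cut S = #(b6E G A S) + #{i | (l i).1 ∈ S} := by
  rw [← b6_disj hl, CG.cut]
  refine congrArg _ (Finset.ext fun d => ?_)
  simp only [CG.mem_bd, b6E, mem_union, mem_filter, mem_univ, true_and, mem_sdiff, mem_image]
  constructor
  · rintro ⟨h1, h2⟩
    by_cases h : (G.e d).1 ∈ A
    · exact Or.inl ⟨h1, h, h2⟩
    · obtain ⟨i, rfl⟩ := (hl.mem d).1 (CG.mem_bd.2 ⟨hS h1, h⟩)
      exact Or.inr ⟨i, h1, rfl⟩
  · rintro (⟨h1, -, h2⟩ | ⟨i, h1, rfl⟩)
    · exact ⟨h1, h2⟩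
    · exact ⟨h1, fun h => (CG.mem_bd.1 ((hl.mem _).2 ⟨i, rfl⟩)).2 (hS h)⟩

theorem b6_compl {l : Fin 4 → V × Fin 3} (hl : G.Legs A l) {S : Finset V} (hS : S ⊆ A) :
    G.cut (A \ S) = #(b6E G A S) + #{i | (l i).1 ∉ S} := by
  rw [b6_cut hl sdiff_subset]
  have h1 : #(b6E G A (A \ S)) = #(b6E G A S) := by
    refine card_bij' (fun d _ => G.e d) (fun d _ => G.e d) ?_ ?_ (fun d _ => G.ee d)
      fun d _ => G.ee d
    all_goals
      intro d hd
      simp only [b6E, mem_filter, mem_univ, true_and, mem_sdiff, G.ee] at hd ⊢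
      have := @hS d.1
      tauto
  have h2 : ∀ i, (l i).1 ∈ A \ S ↔ (l i).1 ∉ S := fun i => by
    simp [(CG.mem_bd.1 ((hl.mem _).2 ⟨i, rfl⟩)).1]
  simp only [h1, h2]

theorem b6_card (p : Fin 4 → Prop) [DecidablePred p] : #{i | p i} = (if p 0 then 1 else 0) +
    (if p 1 then 1 else 0) + (if p 2 then 1 else 0) + if p 3 then 1 else 0 := by
  rw [card_filter, Fin.sum_univ_four]

namespace Glue
/-- if the reduction is not 3-edge-connected then at most two edges of `A` separate the far ends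
`0, 3` from the far ends `1, 2` -/
theorem not_ec3R {l : Fin 4 → V × Fin 3} {ω : Fin 0 → V'} (g : Glue G A l eR G' ι ω)
    (h3 : G.EC3) (hl : G.Legs A l) (h : ¬ G'.EC3) :
    ∃ S ⊆ A, (l 0).1 ∈ S ∧ (l 3).1 ∈ S ∧ (l 1).1 ∉ S ∧ (l 2).1 ∉ S ∧ G.cut S ≤ 4 := by
  simp only [CG.EC3, not_forall, not_le] at h
  obtain ⟨S', ⟨u', hu⟩, ⟨v', hv⟩, h2⟩ := h
  obtain ⟨u, huA, rfl⟩ := (g.cover u').resolve_right fun ⟨j, _⟩ => j.elim0
  obtain ⟨v, hvA, rfl⟩ := (g.cover v').resolve_right fun ⟨j, _⟩ => j.elim0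
  have hA : ∀ i, (l i).1 ∈ A := fun i => (CG.mem_bd.1 ((hl.mem _).2 ⟨i, rfl⟩)).1
  obtain ⟨S, hS, hm⟩ : ∃ S ⊆ A, ∀ x ∈ A, x ∈ S ↔ ι x ∈ S' :=
    ⟨{x ∈ A | ι x ∈ S'}, filter_subset _ _, fun x hx => by simp [hx]⟩
  have uS : u ∈ S := (hm u huA).2 hu
  have vS : v ∉ S := fun h => mem_compl.1 hv ((hm v hvA).1 h)
  have c1 := h3 S ⟨u, uS⟩ ⟨v, mem_compl.2 vS⟩
  have c2 := h3 (A \ S) ⟨v, mem_sdiff.2 ⟨hvA, vS⟩⟩ ⟨u, by simp [uS]⟩
  have c3 : #(b6E G A S) + #{i | (l i).1 ∈ S ∧ (l (3 - i)).1 ∉ S} ≤ G'.cut S' := by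
    rw [← b6_disj hl]
    have mA : ∀ d ∈ b6E G A S ∪ ({i | (l i).1 ∈ S ∧ (l (3 - i)).1 ∉ S} : Finset _).image l,
        d.1 ∈ S ∧ (G'.e (ι d.1, d.2)).1 ∉ S' := fun d hd => by
      rcases mem_union.1 hd with h | h
      · obtain ⟨h1, h2⟩ := (mem_filter.1 h).2
        obtain ⟨h2, h3⟩ := mem_sdiff.1 h2
        rw [g.inner d (hS h1) h2]
        exact ⟨h1, fun h => h3 ((hm _ h2).2 h)⟩
      · obtain ⟨i, hi, rfl⟩ := mem_image.1 h
        obtain ⟨h1, h2⟩ := (mem_filter.1 hi).2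
        have e : G'.e (ι (l i).1, (l i).2) = (ι (l (3 - i)).1, (l (3 - i)).2) := g.gad (.inr i)
        rw [e]
        exact ⟨h1, fun h => h2 ((hm _ (hA _)).2 h)⟩
    refine card_le_card_of_injOn (fun d => (ι d.1, d.2)) (fun d hd => ?_) fun d hd d' hd' e => ?_
    · exact CG.mem_bd.2 ⟨(hm _ (hS (mA d hd).1)).1 (mA d hd).1, (mA d hd).2⟩
    · exact Prod.ext (g.ι_inj (hS (mA d hd).1) (hS (mA d' hd').1) (congrArg Prod.fst e))
        (congrArg (fun z => z.2) e)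
  have e1 := b6_cut hl hS
  have e2 := b6_compl hl hS
  rw [b6_card] at c3 e1 e2
  rw [show (3 : Fin 4) - 0 = 3 from rfl, show (3 : Fin 4) - 1 = 2 from rfl,
    show (3 : Fin 4) - 2 = 1 from rfl, show (3 : Fin 4) - 3 = 0 from rfl] at c3
  by_cases a0 : (l 0).1 ∈ S <;> by_cases a1 : (l 1).1 ∈ S <;> by_cases a2 : (l 2).1 ∈ S <;>
    by_cases a3 : (l 3).1 ∈ S <;>
    simp only [a0, a1, a2, a3, not_true, not_false_iff, and_true, and_false, if_true,
      if_false] at c3 e1 e2 <;>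
    first
    | omega
    | exact ⟨S, hS, a0, a3, a1, a2, by omega⟩
    | exact ⟨A \ S, sdiff_subset, mem_sdiff.2 ⟨hA 0, a0⟩, mem_sdiff.2 ⟨hA 3, a3⟩,
        fun h => (mem_sdiff.1 h).2 a1, fun h => (mem_sdiff.1 h).2 a2, by omega⟩
end Glue

theorem b6_adj (h3 : G.EC3) {u v : V} (h : u ≠ v) (h4 : G.cut {u, v} ≤ 4) :
    ∃ i, (G.e (u, i)).1 = v := by
  by_contra hn
  have n : 2 ≤ Fintype.card V := card_pair h ▸ card_le_univ {u, v}
  have : #(({u, v} : Finset V) ×ˢ (univ : Finset (Fin 3))) ≤ G.cut {u, v} := by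
    refine card_le_card fun d hd => CG.mem_bd.2 ⟨(mem_product.1 hd).1, fun h' => ?_⟩
    have h1 := h3.no_loop n d
    have h2 := (mem_product.1 hd).1
    simp only [mem_insert, mem_singleton] at h' h2
    rcases h' with h' | h' <;> rcases h2 with h2 | h2
    · exact h1 (h'.trans h2.symm)
    · exact hn ⟨(G.e d).2, by rw [← h', Prod.mk.eta, G.ee, h2]⟩
    · exact hn ⟨d.2, by rw [← h2, h']⟩
    · exact h1 (h'.trans h2.symm)
  rw [card_product, card_pair h, card_univ, Fintype.card_fin] at this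
  omega

/-- CUBE. The four regions cut out of `A` by `S` and `T` contain one far end each; submodularity
(for `S, T` and for `S, A \ T`) forces cut 3, so each is a single vertex (`C4`); then the cuts
`≤ 4` give the 4-cycle on the far ends. -/
theorem chart_cube (h3 : G.EC3) (c4 : G.C4) {q : Fin 4 → V} {ψ : Fin 4 → Equiv.Perm (Fin 3)}
    {l : Fin 4 → V × Fin 3} (c : Chart G A eQ q ψ l) (hl : G.Legs A l)
    (hx : Injective fun i => (l i).1) {S T : Finset V} (hS : S ⊆ A) (hT : T ⊆ A)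
    (s : (l 0).1 ∈ S ∧ (l 3).1 ∈ S ∧ (l 1).1 ∉ S ∧ (l 2).1 ∉ S ∧ G.cut S ≤ 4)
    (t : (l 1).1 ∈ T ∧ (l 0).1 ∈ T ∧ (l 2).1 ∉ T ∧ (l 3).1 ∉ T ∧ G.cut T ≤ 4) :
    ∃ q' ψ' b', Chart G ∅ eC q' ψ' b' := by
  obtain ⟨s0, s3, s1, s2, s4⟩ := s
  obtain ⟨t1, t0, t2, t3, t4⟩ := t
  have hA := c.b_mem
  have hq : ∀ j, q j ∉ A := fun j => (c.q_mem _).2 ⟨j, rfl⟩
  have lo : ∀ R ⊆ A, ∀ x ∈ R, 3 ≤ G.cut R := fun R hR x hx =>
    h3 R ⟨x, hx⟩ ⟨q 0, mem_compl.2 fun h => hq 0 (hR h)⟩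
  have one : ∀ R ⊆ A, G.cut R ≤ 3 → ∀ x ∈ R, ∀ y ∈ R, x = y := fun R hR h =>
    card_le_one.1 ((c4 R h).resolve_right fun h => absurd (c.q_inj (card_le_one.1 h (q 0)
      (mem_compl.2 fun h => hq 0 (hR h)) (q 1) (mem_compl.2 fun h => hq 1 (hR h)))) (by decide))
  have key : ∀ S ⊆ A, ∀ T ⊆ A, ∀ i j : Fin 4, G.cut S ≤ 4 → G.cut T ≤ 4 → (l i).1 ∈ S ∩ T →
      (∀ k, (l k).1 ∉ S ∪ T ↔ k = j) → (∀ x ∈ S ∩ T, x = (l i).1) ∧
        ∀ x ∈ A \ (S ∪ T), x = (l j).1 := fun S hS T hT i j h1 h2 hi hj => by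
    have u := union_subset hS hT
    have e1 := b6_cut hl u
    have e2 := b6_compl hl u
    have e3 := card_filter_add_card_filter_not (s := univ) fun i => (l i).1 ∈ S ∪ T
    have e4 : #{k | (l k).1 ∉ S ∪ T} = 1 := by
      simp only [hj, filter_eq', mem_univ, if_true, card_singleton]
    have e5 := CG.cut_submod (G := G) S T
    have m := mem_sdiff.2 ⟨hA j, (hj j).2 rfl⟩
    have e6 := lo _ (inter_subset_left.trans hS) _ hi
    have e7 := lo _ sdiff_subset _ m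
    rw [card_univ, Fintype.card_fin] at e3
    exact ⟨fun x hx => one _ (inter_subset_left.trans hS) (by omega) x hx _ hi,
      fun x hx => one _ sdiff_subset (by omega) x hx _ m⟩
  have cp : ∀ S ⊆ A, G.cut S ≤ 4 → #{i | (l i).1 ∉ S} = 2 → G.cut (A \ S) ≤ 4 := by
    intro S hS h h2
    have e1 := b6_cut hl hS
    have e2 := b6_compl hl hS
    have e3 := card_filter_add_card_filter_not (s := univ) fun i => (l i).1 ∈ S
    rw [card_univ, Fintype.card_fin] at e3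
    omega
  have s5 := cp S hS s4 (by simp [b6_card, s0, s1, s2, s3])
  have t5 := cp T hT t4 (by simp [b6_card, t0, t1, t2, t3])
  obtain ⟨r0, r2⟩ := key S hS T hT 0 2 s4 t4 (mem_inter.2 ⟨s0, t0⟩)
    fun k => by fin_cases k <;> simp [s0, s2, s3, t1, t2]
  obtain ⟨r3, r1⟩ := key S hS (A \ T) sdiff_subset 3 1 s4 t5 (by simp [s3, t3, hA])
    fun k => by fin_cases k <;> simp [s0, s1, s3, t1, t2, hA]
  simp only [mem_inter, mem_sdiff, mem_union] at r0 r1 r2 r3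
  have eS : S = {(l 3).1, (l 0).1} := by
    ext x
    have := @hS x
    have := r0 x
    have := r3 x
    simp only [mem_insert, mem_singleton]
    exact ⟨by tauto, by rintro (rfl | rfl) <;> assumption⟩
  have eT : T = {(l 0).1, (l 1).1} := by
    ext x
    have := @hT x
    have := r0 x
    have := r1 x
    simp only [mem_insert, mem_singleton]
    exact ⟨by tauto, by rintro (rfl | rfl) <;> assumption⟩
  have eS' : A \ S = {(l 1).1, (l 2).1} := by
    ext x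
    have := r1 x
    have := r2 x
    simp only [mem_insert, mem_singleton, mem_sdiff]
    exact ⟨by tauto, by rintro (rfl | rfl) <;> exact ⟨hA _, by assumption⟩⟩
  have eT' : A \ T = {(l 2).1, (l 3).1} := by
    ext x
    have := r3 x
    have := r2 x
    simp only [mem_insert, mem_singleton, mem_sdiff]
    exact ⟨by tauto, by rintro (rfl | rfl) <;> exact ⟨hA _, by assumption⟩⟩
  have adj : ∀ j : Fin 4, ∃ i, (G.e ((l j).1, i)).1 = (l (j + 1)).1 := fun j => by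
    refine b6_adj h3 (hx.ne (by revert j; decide)) ?_
    fin_cases j
    exacts [eT ▸ t4, eS' ▸ s5, eT' ▸ t5, eS ▸ s4]
  choose a ha using adj
  have h0 : ∀ j, G.e (l j) = (q j, ψ j 0) := fun j => c.hom (.inr j)
  have h1 : ∀ j, G.e (q j, ψ j 1) = (q (j + 1), ψ (j + 1) 2) := fun j => c.hom (.inl (j, 1))
  have hb : ∀ j, G.e ((l (j + 1)).1, (G.e ((l j).1, a j)).2) = ((l j).1, a j) := fun j => by
    rw [← ha, Prod.mk.eta, G.ee]
  have inj : ∀ j, Injective ![(l j).2, a j, (G.e ((l (j - 1)).1, a (j - 1))).2] := fun j => by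
    have b := hb (j - 1)
    rw [sub_add_cancel] at b
    have n1 : (l j).2 ≠ a j := fun e => hq j (by
      rw [← show (G.e (l j)).1 = q j by rw [h0], ← Prod.mk.eta (p := l j), e, ha]; exact hA _)
    have n2 : (l j).2 ≠ (G.e ((l (j - 1)).1, a (j - 1))).2 := fun e => hq j (by
      rw [← show (G.e (l j)).1 = q j by rw [h0], ← Prod.mk.eta (p := l j), e, b]; exact hA _)
    have n3 : a j ≠ (G.e ((l (j - 1)).1, a (j - 1))).2 := fun e => by
      have := ha j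
      rw [e, b] at this
      exact (by decide : ∀ k : Fin 4, k - 1 ≠ k + 1) j (hx this)
    intro x y e
    fin_cases x <;> fin_cases y <;>
      first | rfl | exact absurd e ‹_› | exact absurd e.symm ‹_›
  let φ : Fin 4 → Equiv.Perm (Fin 3) := fun j =>
    Equiv.ofBijective _ (Finite.injective_iff_bijective.1 (inj j))
  have h2 : ∀ j, G.e ((l j).1, φ j 1) = ((l (j + 1)).1, φ (j + 1) 2) := fun j =>
    Prod.ext (ha j) (by
      change _ = (G.e ((l (j + 1 - 1)).1, a (j + 1 - 1))).2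
      rw [add_sub_cancel_right]
      rfl)
  have rev : ∀ {x y}, G.e x = y → G.e y = x := fun h => h ▸ G.ee _
  refine ⟨Fin.append q fun j => (l j).1, Fin.append ψ φ, Fin.elim0, ?_, fun v => ?_,
    fun i => i.elim0, fun i => i.elim0, ?_⟩
  · exact Fin.append_injective_iff.2 ⟨c.q_inj, hx, fun i j e => hq i (e ▸ hA j)⟩
  · refine ⟨fun _ => ?_, fun _ => notMem_empty v⟩
    by_cases hv : v ∈ A
    · have : v ∈ S ∨ v ∈ A \ S := by simp only [mem_sdiff]; tauto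
      rw [eS', eS] at this
      simp only [mem_insert, mem_singleton] at this
      rcases this with (rfl | rfl) | rfl | rfl
      exacts [⟨7, rfl⟩, ⟨4, rfl⟩, ⟨5, rfl⟩, ⟨6, rfl⟩]
    · obtain ⟨j, rfl⟩ := (c.q_mem v).1 hv
      exact ⟨Fin.castAdd 4 j, Fin.append_left _ _ _⟩
  · rintro (⟨j, i⟩ | i)
    · fin_cases j <;> fin_cases i
      exacts [rev (h0 0), h1 0, rev (h1 3), rev (h0 1), h1 1, rev (h1 0), rev (h0 2), h1 2,
        rev (h1 1), rev (h0 3), h1 3, rev (h1 2), h0 0, h2 0, rev (h2 3), h0 1, h2 1, rev (h2 0),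
        h0 2, h2 2, rev (h2 1), h0 3, h2 3, rev (h2 2)]
    · exact i.elim0

end Pool.Agent.MP_8c1b0d_co.RI
end

section
set_option autoImplicit false
set_option linter.unusedSectionVars false
open Finset Function

namespace Pool.Agent.MP_8c1b0d_co.RI
variable {V V' : Type} [Fintype V] [DecidableEq V] [Fintype V'] [DecidableEq V'] {G : CG V}
  {G' : CG V'}

lemma c3a_perm : ∀ (σ : Equiv.Perm (Fin 3)) (k : Fin 3),
    (σ k + 1 = σ (k + 1) ∧ σ k + 2 = σ (k + 2)) ∨ (σ k + 1 = σ (k + 2) ∧ σ k + 2 = σ (k + 1)) := by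
  decide

lemma c3a_sym {p : ℕ → Prop} (a b a' b' : {x // p x}) :
    s(a, b) = s(a', b') ↔ s(a.1, b.1) = s(a'.1, b'.1) := by
  simp [Subtype.ext_iff]

/-- `Φ` = the labels that occur; `x v = (e d).1`, `fx v = op d` for the dart `d` at `v` of colour
`0`, and so on. Fields of `ColF`, `Geo` from `mat`, `planar`, `EC3.con`, `op_inj`, `dual`, `fc`,
`simple`, `euler_le`. -/
theorem toPG (h3 : G.EC3) (n : 4 ≤ Fintype.card V) (hp : G.Plane) {c : V × Fin 3 → Fin 3}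
    (hc : G.Col c) : ∃ (Φ : Type) (_ : Fintype Φ) (cf : ColF V Φ) (g : cf.Geo),
      2 * Fintype.card Φ = Fintype.card V + 4 ∧
      ∀ d : V × Fin 3, (cf.tri g).nb (kk (c d)) d.1 = (G.e d).1 := by
  obtain ⟨op, hl⟩ := hp
  have bij : ∀ v, Bijective fun i => c (v, i) := fun v =>
    Finite.injective_iff_bijective.1 fun i j h => hc.2 v i j h
  let π : V → Equiv.Perm (Fin 3) := fun v => (Equiv.ofBijective _ (bij v)).symm
  let D : Fin 3 → V → V × Fin 3 := fun k v => (v, π v k)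
  have cD : ∀ k v, c (D k v) = k := fun k v => (Equiv.ofBijective _ (bij v)).apply_symm_apply k
  have Dc : ∀ d, D (c d) d.1 = d := fun d =>
    Prod.ext rfl ((Equiv.ofBijective _ (bij d.1)).symm_apply_apply d.2)
  let N : Fin 3 → V → V := fun k v => (G.e (D k v)).1
  have eD : ∀ k v, G.e (D k v) = D k (N k v) := fun k v => by
    have := Dc (G.e (D k v))
    rw [hc.1, cD] at this
    exact this.symm
  have NN : ∀ k v, N k (N k v) = v := fun k v => by
    change (G.e (D k (N k v))).1 = v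
    rw [← eD, G.ee]
  have Nne : ∀ k v, N k v ≠ v := fun k v => h3.no_loop (by omega) (D k v)
  have Ns : ∀ k k' v, k ≠ k' → N k v ≠ N k' v := fun k k' v h e =>
    h ((π v).injective (h3.simple (by omega) v _ _ e))
  let F : Fin 3 → V → {x // x ∈ univ.image op} := fun k v =>
    ⟨op (D k v), mem_image_of_mem _ (mem_univ _)⟩
  have pr : ∀ k v, prs op (D k v) = s((F (k + 1) v).1, (F (k + 2) v).1) := fun k v => by
    unfold prs
    rcases c3a_perm (π v) k with ⟨a, b⟩ | ⟨a, b⟩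
    · rw [a, b]
    · rw [a, b, Sym2.eq_swap]
  have p0 : ∀ v, prs op (D 0 v) = s((F 1 v).1, (F 2 v).1) := pr 0
  have p1 : ∀ v, prs op (D 1 v) = s((F 0 v).1, (F 2 v).1) := fun v => (pr 1 v).trans Sym2.eq_swap
  have p2 : ∀ v, prs op (D 2 v) = s((F 0 v).1, (F 1 v).1) := pr 2
  have mat : ∀ k v, prs op (D k (N k v)) = prs op (D k v) := fun k v => by rw [← eD, hl.mat]
  have Fne : ∀ k k' v, k ≠ k' → F k v ≠ F k' v := fun k k' v h e =>
    h ((π v).injective (hl.op_inj h3 v _ _ (congrArg Subtype.val e)))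
  have same : ∀ k u v, prs op (D k u) = prs op (D k v) → v = u ∨ v = N k u := fun k u v e =>
    (hl.dual h3 _ _ e).imp (congrArg Prod.fst) (congrArg Prod.fst)
  have diff : ∀ k k' u v, k ≠ k' → prs op (D k u) ≠ prs op (D k' v) := fun k k' u v h e => by
    rcases hl.dual h3 _ _ e with a | a
    · exact h (by rw [← cD k' v, a, cD])
    · exact h (by rw [← cD k' v, a, hc.1, cD])
  have hon : ∀ (a : {x // x ∈ univ.image op}) v, (a = F 0 v ∨ a = F 1 v ∨ a = F 2 v) ↔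
      ∃ i, op (v, i) = a.1 := fun a v => by
    refine ⟨by rintro (rfl | rfl | rfl) <;> exact ⟨_, rfl⟩, fun ⟨i, hi⟩ => ?_⟩
    have : a = F (c (v, i)) v := Subtype.ext (by rw [← hi]; exact congrArg op (Dc (v, i)).symm)
    revert this
    generalize c (v, i) = k
    fin_cases k <;> tauto
  let cf : ColF V {x // x ∈ univ.image op} :=
    { x := N 0, y := N 1, m := N 2, fx := F 0, fy := F 1, fm := F 2
      xx := NN 0, yy := NN 1, mm := NN 2, x_ne := Nne 0, y_ne := Nne 1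
      hx := fun v => by rw [c3a_sym, ← p0, ← p0, mat]
      hy := fun v => by rw [c3a_sym, ← p1, ← p1, mat]
      hm := fun v => by rw [c3a_sym, ← p2, ← p2, mat]
      free := fun v h => absurd h (Nne 2 v)
      planar := fun f g hf hg hm _ => by
        obtain ⟨h, hh⟩ := hl.planar h3 (fun d => ![f d.1, g d.1, f d.1 + g d.1] (c d))
          (fun d => by
            rw [← Dc d, eD, cD, cD]
            generalize c d = k
            fin_cases k
            exacts [hf _, hg _, hm _])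
          (fun v => by
            rw [← Fin.sum_univ_three (fun i => ![f v, g v, f v + g v] (c (v, i))),
              (bij v).sum_comp ![f v, g v, f v + g v],
              Fin.sum_univ_three]
            exact CharTwo.add_self_eq_zero (f v + g v))
        have key : ∀ k v, ![f v, g v, f v + g v] k = h (F (k + 1) v) + h (F (k + 2) v) := by
          intro k v
          have := hh (D k v)
          rw [cD] at this
          rcases c3a_perm (π v) k with ⟨a, b⟩ | ⟨a, b⟩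
          · exact this.trans (by rw [a, b])
          · exact this.trans (by rw [a, b, add_comm])
        exact ⟨fun a => h a.1, fun v => ⟨key 0 v, (key 1 v).trans (add_comm _ _)⟩⟩
      conn := fun P hP u v => h3.con (S := univ) (by simp only [CG.cut, CG.bd, mem_univ, not_true_eq_false, and_false, filter_false, card_empty, zero_le]) P (fun d _ _ h => by
        rw [← Dc d]
        generalize c d = k
        fin_cases k
        exacts [(hP _ h).1, (hP _ h).2.1, (hP _ h).2.2]) u (mem_univ _) v (mem_univ _) }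
  have g : cf.Geo :=
    { m_ne := Nne 2, xy := fun v => Ns 0 1 v (by decide), xm := fun v => Ns 0 2 v (by decide)
      ym := fun v => Ns 1 2 v (by decide)
      surj := fun a => by
        obtain ⟨d, -, hd⟩ := mem_image.1 a.2
        exact ⟨d.1, (hon a d.1).2 ⟨d.2, hd⟩⟩
      nxy := fun v => Fne 0 1 v (by decide), nxm := fun v => Fne 0 2 v (by decide)
      nym := fun v => Fne 1 2 v (by decide)
      sxx := fun u v e => same 0 u v (by rw [p0, p0]; exact (c3a_sym _ _ _ _).1 e)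
      syy := fun u v e => same 1 u v (by rw [p1, p1]; exact (c3a_sym _ _ _ _).1 e)
      smm := fun u v e => same 2 u v (by rw [p2, p2]; exact (c3a_sym _ _ _ _).1 e)
      sxy := fun u v e => diff 0 1 u v (by decide) (by rw [p0, p1]; exact (c3a_sym _ _ _ _).1 e)
      sxm := fun u v e => diff 0 2 u v (by decide) (by rw [p0, p2]; exact (c3a_sym _ _ _ _).1 e)
      sym := fun u v e => diff 1 2 u v (by decide) (by rw [p1, p2]; exact (c3a_sym _ _ _ _).1 e)
      fc := fun a P hP u v hu hv => by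
        obtain ⟨i, hi⟩ := (hon a u).1 hu
        obtain ⟨j, hj⟩ := (hon a v).1 hv
        refine hl.fc h3 a.1 P (fun w i j hi hj hw => ?_) u i v j hi hj
        have e : a = F (c (w, i)) w :=
          Subtype.ext (by rw [← hi]; exact congrArg op (Dc (w, i)).symm)
        have ne : c (w, j) ≠ c (w, i) := fun h => hj (hc.2 w _ _ h)
        obtain ⟨h0, h1, h2⟩ := hP w hw
        rw [← Dc (w, j)]
        revert e ne
        generalize c (w, i) = k
        generalize c (w, j) = k'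
        intro e ne
        fin_cases k <;> fin_cases k' <;> first
          | exact absurd rfl ne
          | exact h0 (Or.inl e) | exact h0 (Or.inr e) | exact h1 (Or.inl e) | exact h1 (Or.inr e)
          | exact h2 (Or.inl e) | exact h2 (Or.inr e) }
  refine ⟨_, inferInstance, cf, g, ?_, fun d => ?_⟩
  · have : Nonempty V := Fintype.card_pos_iff.1 (by omega)
    have a := CG.euler_le h3 hl.mat
    have b := hl.cnt
    rw [Fintype.card_coe]
    omega
  · conv_rhs => rw [← Dc d]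
    generalize c d = k
    fin_cases k <;> rfl

end Pool.Agent.MP_8c1b0d_co.RI
end

section
set_option autoImplicit false
set_option linter.unusedSectionVars false
open Finset Function

namespace Pool.Agent.MP_8c1b0d_co.RI
variable {V V' : Type} [Fintype V] [DecidableEq V] [Fintype V'] [DecidableEq V'] {G : CG V}
  {G' : CG V'}

theorem c3_kk_inj : ∀ a b : Fin 3, kk a = kk b → a = b := by decide
theorem c3_kk_surj : ∀ k : Option Bool, ∃ a : Fin 3, kk a = k := by decide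
theorem c3_kk_cb : ∀ b : Bool, kk (cb b) = some b := by decide
theorem c3_kk_two : kk 2 = none := rfl

theorem c3_surj {c : V × Fin 3 → Fin 3} (hc : G.Col c) (v : V) (a : Fin 3) :
    ∃ i, c (v, i) = a :=
  (Finite.injective_iff_surjective.1 (fun i j e => hc.2 v i j e : Injective fun i => c (v, i))) a

theorem tri_cut {c : V × Fin 3 → Fin 3} (hc : G.Col c) {t : Tri V}
    (h : ∀ d : V × Fin 3, t.nb (kk (c d)) d.1 = (G.e d).1) (S : Finset V) :
    t.cut S = G.cut S := by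
  rw [t.cut_eq, CG.cut]
  symm
  refine card_nbij (fun d => (d.1, kk (c d))) ?_ ?_ ?_
  · intro d hd
    have hd' := CG.mem_bd.1 (mem_coe.1 hd)
    exact mem_coe.2 (t.mem_bd.2 ⟨hd'.1, by rw [h]; exact hd'.2⟩)
  · rintro ⟨v, i⟩ _ ⟨w, j⟩ _ e
    obtain ⟨e1, e2⟩ := Prod.mk.inj e
    have e3 : v = w := e1
    subst e3
    rw [hc.2 v i j (c3_kk_inj _ _ e2)]
  · rintro ⟨v, k⟩ hk
    have hk' := t.mem_bd.1 (mem_coe.1 hk)
    obtain ⟨a, rfl⟩ := c3_kk_surj k
    obtain ⟨i, rfl⟩ := c3_surj hc v a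
    refine ⟨(v, i), mem_coe.2 (CG.mem_bd.2 ⟨hk'.1, ?_⟩), rfl⟩
    rw [← h]
    exact hk'.2

theorem col_of_tri (h3 : G.EC3) (n : 4 ≤ Fintype.card V) {c : V × Fin 3 → Fin 3} (hc : G.Col c)
    {t t' : Tri V} (h : ∀ d : V × Fin 3, t.nb (kk (c d)) d.1 = (G.e d).1)
    (ha : ∀ u v, t'.Adj u v ↔ t.Adj u v) :
    ∃ c', G.Col c' ∧ ∀ d : V × Fin 3, t'.nb (kk (c' d)) d.1 = (G.e d).1 := by
  have ex : ∀ d : V × Fin 3, ∃ a : Fin 3, t'.nb (kk a) d.1 = (G.e d).1 := by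
    intro d
    obtain ⟨k, hk⟩ := (t'.adj_iff _ _).1 ((ha _ _).2 ((t.adj_iff _ _).2 ⟨_, (h d).symm⟩))
    obtain ⟨a, rfl⟩ := c3_kk_surj k
    exact ⟨a, hk.symm⟩
  choose c' hc' using ex
  refine ⟨c', ⟨fun d => ?_, fun v i j e => ?_⟩, hc'⟩
  · have e1 := hc' (G.e d)
    rw [G.ee] at e1
    have e2 : t'.nb (kk (c' d)) (G.e d).1 = d.1 := by rw [← hc' d, Tri.nb_nb]
    exact c3_kk_inj _ _ (t'.nb_inj (e1.trans e2.symm))
  · have e1 := hc' (v, i)
    have e2 := hc' (v, j)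
    rw [e] at e1
    have e3 : t.nb (kk (c (v, i))) v = t.nb (kk (c (v, j))) v :=
      (h (v, i)).trans ((e1.symm.trans e2).trans (h (v, j)).symm)
    exact hc.2 v i j (c3_kk_inj _ _ (t.nb_inj e3))

theorem c3_o {c : V × Fin 3 → Fin 3} {t : Tri V}
    (h : ∀ d : V × Fin 3, t.nb (kk (c d)) d.1 = (G.e d).1) (d : V × Fin 3) (b : Bool)
    (e : c d = cb b) : t.o (d.1, b) = ((G.e d).1, b) := by
  have := h d
  rw [e, c3_kk_cb] at this
  exact Prod.ext this rfl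

theorem c3_m {c : V × Fin 3 → Fin 3} {t : Tri V}
    (h : ∀ d : V × Fin 3, t.nb (kk (c d)) d.1 = (G.e d).1) (d : V × Fin 3)
    (e : c d = 2) : t.m d.1 = (G.e d).1 := by
  have := h d
  rw [e, c3_kk_two] at this
  exact this

theorem c3_tm {c : V × Fin 3 → Fin 3} (hc : G.Col c) {t : Tri V}
    (h : ∀ d : V × Fin 3, t.nb (kk (c d)) d.1 = (G.e d).1) (P live : Finset V) (z : V × Bool) :
    Tm t P live z ↔ TmD G P c live z := by
  obtain ⟨v, b⟩ := z
  refine or_congr_left (and_congr_right fun _ => ⟨fun h1 => ?_, ?_⟩)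
  · obtain ⟨i, hi⟩ := c3_surj hc v (cb b)
    refine ⟨i, hi, ?_⟩
    rw [c3_o h (v, i) b hi] at h1
    exact h1
  · rintro ⟨i, hi, h1⟩
    rw [c3_o h (v, i) b hi]
    exact h1

theorem c3_env {c : V × Fin 3 → Fin 3} (hc : G.Col c) {t : Tri V}
    (h : ∀ d : V × Fin 3, t.nb (kk (c d)) d.1 = (G.e d).1) {P live : Finset V}
    {τ : Bool → V × Bool → V × Bool} (E : EnvD G P c live τ) : Env t P live τ := by
  refine ⟨fun u hu => ?_, fun κ z hz => ?_, E.valid⟩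
  · obtain ⟨h1, i, hi, h2⟩ := E.live_sub u hu
    exact ⟨h1, by rw [c3_m h (u, i) hi]; exact h2⟩
  · rw [c3_tm hc h] at hz ⊢
    exact E.inv κ z hz

theorem c3_closes {c : V × Fin 3 → Fin 3} (hc : G.Col c) {t : Tri V}
    (h : ∀ d : V × Fin 3, t.nb (kk (c d)) d.1 = (G.e d).1) {P live : Finset V}
    {τ : Bool → V × Bool → V × Bool} {r : V → Bool} (C : Closes t P live τ r) :
    ClosesD G P c live τ r := by
  refine ⟨fun d h1 h2 e => ?_, fun κ g g' a1 a2 a3 a4 a5 => C.one κ g g' ?_ ?_ ?_ a4 ?_⟩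
  · rw [← c3_m h d e] at h2 ⊢
    exact C.rm _ h1 h2
  · rintro ⟨v, b⟩ h1 h2
    obtain ⟨i, hi⟩ := c3_surj hc v (cb b)
    rw [c3_o h (v, i) b hi] at h2 ⊢
    exact a1 (v, i) b h1 h2 hi
  · intro v h1 h2
    obtain ⟨i, hi⟩ := c3_surj hc v 2
    rw [c3_m h (v, i) hi] at h2 ⊢
    exact a2 (v, i) h1 h2 hi
  · intro v h1 h2 h3
    obtain ⟨i, hi⟩ := c3_surj hc v 2
    rw [c3_m h (v, i) hi] at h2
    exact a3 (v, i) h1 h2 hi h3
  · intro z hz
    exact a5 z ((c3_tm hc h P live z).1 hz)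

/-- `Close` in dart form -/
theorem poleD (hC : Close) (h3 : G.EC3) (hp : G.Plane) {c : V × Fin 3 → Fin 3} (hc : G.Col c)
    {P : Finset V} (h4 : G.cut P = 4) (h6 : 6 ≤ #P) (h5 : G.IC5 P)
    (hR : #Pᶜ = 2 ∨ (#Pᶜ = 4 ∧ ∀ v ∉ P, ∃ i, (G.e (v, i)).1 ∈ P)) : PoleD G P c := by
  intro live τ E
  have n : 4 ≤ Fintype.card V := le_trans (by omega) (card_le_univ P)
  obtain ⟨Φ, _, cf, g, hΦ, h⟩ := toPG h3 n hp hc
  obtain ⟨t', ha, hout, r, C⟩ := hC V Φ cf g P hΦ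
    (fun S h1 h2 => by rw [tri_cut hc h]; exact h3 S h1 h2) (by rw [tri_cut hc h]; exact h4) h6
    (fun S h1 h2 => h5 S h1 (by rw [← tri_cut hc h]; exact h2))
    (hR.imp id fun x => ⟨x.1, fun v hv => by
      obtain ⟨i, hi⟩ := x.2 v hv
      exact ⟨kk (c (v, i)), by rw [h (v, i)]; exact hi⟩⟩)
    live τ (c3_env hc h E)
  obtain ⟨c', hc', h'⟩ := col_of_tri h3 n hc h ha
  refine ⟨c', ⟨fun d _ _ => hc'.1 d, fun v _ => hc'.2 v⟩, fun d hd => ?_, r, c3_closes hc' h' C⟩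
  have hd' := CG.mem_bd.1 hd
  have e1 := h' (G.e d)
  have e2 := h (G.e d)
  rw [← hout _ hd'.2] at e2
  rw [← hc'.1 d, ← hc.1 d]
  exact c3_kk_inj _ _ (t'.nb_inj (e1.trans e2.symm))

section
variable {P : Finset V} {P' : Finset V'} {ι : V → V'}

theorem c3_mem (sh : Share G P G' P' ι) {v : V} (hv : v ∈ P) : ι v ∈ P' :=
  (sh.img _).2 ⟨v, hv, rfl⟩

theorem c3_e (sh : Share G P G' P' ι) (d : V × Fin 3) (hd : d.1 ∈ P) :
    (G'.e (ι d.1, d.2)).1 ∈ P' ↔ (G.e d).1 ∈ P := by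
  refine ⟨fun h => by_contra fun h' => sh.leg d hd h' h, fun h => ?_⟩
  rw [sh.inner d hd h]
  exact c3_mem sh h

theorem c3_live (sh : Share G P G' P' ι) {live : Finset V} (hl : ∀ u ∈ live, u ∈ P) {v : V}
    (hv : v ∈ P) : ι v ∈ live.image ι ↔ v ∈ live := by
  refine ⟨fun h => ?_, mem_image_of_mem ι⟩
  obtain ⟨u, hu, e⟩ := mem_image.1 h
  rwa [← sh.inj (hl u hu) hv e]

theorem c3_tm_share (sh : Share G P G' P' ι) {live : Finset V} (hl : ∀ u ∈ live, u ∈ P)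
    {c' : V' × Fin 3 → Fin 3} {c : V × Fin 3 → Fin 3}
    (hc : ∀ d : V × Fin 3, d.1 ∈ P → c' (ι d.1, d.2) = c d) {v : V} (hv : v ∈ P) (b : Bool) :
    TmD G' P' c' (live.image ι) (ι v, b) ↔ TmD G P c live (v, b) := by
  refine or_congr ⟨?_, ?_⟩ (c3_live sh hl hv)
  · rintro ⟨_, i, h1, h2⟩
    exact ⟨hv, i, (hc (v, i) hv).symm.trans h1, fun h => h2 ((c3_e sh (v, i) hv).2 h)⟩
  · rintro ⟨_, i, h1, h2⟩
    exact ⟨c3_mem sh hv, i, (hc (v, i) hv).trans h1, fun h => h2 ((c3_e sh (v, i) hv).1 h)⟩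

theorem c3_tm_mem {live : Finset V} (hl : ∀ u ∈ live, u ∈ P) {c : V × Fin 3 → Fin 3}
    {z : V × Bool} (h : TmD G P c live z) : z.1 ∈ P :=
  h.elim (fun x => x.1) (hl _)

theorem c3_live' (sh : Share G P G' P' ι) {live : Finset V} (hl : ∀ u ∈ live, u ∈ P) :
    ∀ u ∈ live.image ι, u ∈ P' := by
  intro u hu
  obtain ⟨v, hv, rfl⟩ := mem_image.1 hu
  exact c3_mem sh (hl v hv)
end

/-- `PoleD` depends on the pole only: transport `live`, `τ`, `lam`, `g`, `g'`, `r` along `ι` and an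
inverse of `ι` on `P'` -/
theorem PoleD.share {P : Finset V} {P' : Finset V'} {ι : V → V'} (sh : Share G P G' P' ι)
    {c' : V' × Fin 3 → Fin 3} (h : PoleD G' P' c') {c : V × Fin 3 → Fin 3}
    (hc : ∀ d : V × Fin 3, d.1 ∈ P → c' (ι d.1, d.2) = c d) : PoleD G P c := by
  intro live τ E
  have hl : ∀ u ∈ live, u ∈ P := fun u hu => (E.live_sub u hu).1
  rcases P.eq_empty_or_nonempty with rfl | ⟨v0, -⟩
  · refine ⟨c, ⟨fun d hd => absurd hd (notMem_empty _), fun v hv => absurd hv (notMem_empty _)⟩,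
      fun _ _ => rfl, fun _ => true, fun d hd => absurd hd (notMem_empty _), ?_⟩
    intro κ g g' _ _ _ _ _
    exact ⟨0, fun z hz => absurd hz (notMem_empty _), fun z hz => absurd (hl _ hz) (notMem_empty _)⟩
  have : Nonempty V := ⟨v0⟩
  obtain ⟨j, hj⟩ : ∃ j : V' → V, ∀ v ∈ P, j (ι v) = v :=
    ⟨invFunOn ι P, fun v hv => sh.inj.leftInvOn_invFunOn hv⟩
  obtain ⟨τ', hτ⟩ : ∃ τ' : Bool → V' × Bool → V' × Bool, ∀ κ, ∀ v ∈ P, ∀ b,
      τ' κ (ι v, b) = (ι (τ κ (v, b)).1, (τ κ (v, b)).2) :=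
    ⟨fun κ z => (ι (τ κ (j z.1, z.2)).1, (τ κ (j z.1, z.2)).2), fun κ v hv b => by
      simp only [hj v hv]⟩
  have E' : EnvD G' P' c' (live.image ι) τ' := by
    refine ⟨fun u hu => ?_, ?_, ?_⟩
    · obtain ⟨v, hv, rfl⟩ := mem_image.1 hu
      obtain ⟨h1, i, h2, h3⟩ := E.live_sub v hv
      exact ⟨c3_mem sh h1, i, (hc (v, i) h1).trans h2, sh.leg (v, i) h1 h3⟩
    · rintro κ ⟨u, b⟩ hz
      obtain ⟨v, hv, rfl⟩ := (sh.img u).1 (c3_tm_mem (c3_live' sh hl) hz)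
      obtain ⟨h1, h2, h3⟩ := E.inv κ (v, b) ((c3_tm_share sh hl hc hv b).1 hz)
      have h4 := c3_tm_mem hl h1
      rw [hτ κ v hv b]
      refine ⟨(c3_tm_share sh hl hc h4 _).2 h1, ?_, fun e => h3 ?_⟩
      · rw [hτ κ _ h4, Prod.mk.eta, h2]
      · obtain ⟨e1, e2⟩ := Prod.mk.inj e
        exact Prod.ext (sh.inj h4 hv e1) e2
    · obtain ⟨lam, hlam⟩ := E.valid
      refine ⟨fun u => lam (j u), fun κ Z hZ => ?_⟩
      have key := hlam κ {z : V × Bool | z.1 ∈ live ∧ (ι z.1, z.2) ∈ Z} (by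
        rintro ⟨v, b⟩ hz
        obtain ⟨h1, h2⟩ := (mem_filter.1 hz).2
        obtain ⟨_, a2, a3, a4⟩ := hZ _ h2
        have hv := hl v h1
        rw [hτ κ v hv b] at a3
        have h4 := c3_tm_mem hl (E.inv κ (v, b) (Or.inr h1)).1
        refine ⟨h1, by simpa only [hj v hv] using a2, mem_filter.2 ⟨mem_univ _, ?_, a3⟩,
          mem_filter.2 ⟨mem_univ _, h1, a4⟩⟩
        exact (c3_live sh hl h4).1 (hZ _ a3).1)
      refine eq_empty_of_forall_notMem fun z hz => ?_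
      obtain ⟨v, hv, e⟩ := mem_image.1 (hZ z hz).1
      have : (v, z.2) ∈ ({z : V × Bool | z.1 ∈ live ∧ (ι z.1, z.2) ∈ Z} : Finset (V × Bool)) :=
        mem_filter.2 ⟨mem_univ _, hv, by simpa only [e] using hz⟩
      rw [key] at this
      exact notMem_empty _ this
  obtain ⟨c1, hc1, hb, r, C⟩ := h _ _ E'
  have hc2 : ∀ d : V × Fin 3, d.1 ∈ P → c1 (ι d.1, d.2) = (fun d : V × Fin 3 => c1 (ι d.1, d.2)) d :=
    fun _ _ => rfl
  refine ⟨fun d => c1 (ι d.1, d.2), ⟨fun d h1 h2 => ?_, fun v hv => hc1.2 _ (c3_mem sh hv)⟩,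
    fun d hd => ?_, fun v => r (ι v), fun d h1 h2 e => ?_, ?_⟩
  · have := hc1.1 (ι d.1, d.2) (c3_mem sh h1) ((c3_e sh d h1).2 h2)
    rwa [sh.inner d h1 h2] at this
  · have hd' := CG.mem_bd.1 hd
    exact (hb _ (CG.mem_bd.2 ⟨c3_mem sh hd'.1, sh.leg d hd'.1 hd'.2⟩)).trans (hc d hd'.1)
  · have := C.rm (ι d.1, d.2) (c3_mem sh h1) ((c3_e sh d h1).2 h2) e
    rwa [sh.inner d h1 h2] at this
  intro κ g g' a1 a2 a3 a4 a5
  obtain ⟨x, hx, hx'⟩ := C.one κ (fun z => g (j z.1, z.2)) (fun z => g' (j z.1, z.2))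
    (by
      rintro ⟨u, i⟩ b h1 h2 e
      obtain ⟨v, hv, rfl⟩ := (sh.img u).1 h1
      have h3 := (c3_e sh (v, i) hv).1 h2
      rw [sh.inner (v, i) hv h3]
      simpa only [hj v hv, hj _ h3] using a1 (v, i) b hv h3 e)
    (by
      rintro ⟨u, i⟩ h1 h2 e
      obtain ⟨v, hv, rfl⟩ := (sh.img u).1 h1
      have h3 := (c3_e sh (v, i) hv).1 h2
      rw [sh.inner (v, i) hv h3]
      simpa only [hj v hv, hj _ h3] using a2 (v, i) hv h3 e)
    (by
      rintro ⟨u, i⟩ h1 h2 e h4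
      obtain ⟨v, hv, rfl⟩ := (sh.img u).1 h1
      have h3 : (G.e (v, i)).1 ∉ P := fun x => h2 ((c3_e sh (v, i) hv).2 x)
      simpa only [hj v hv] using a3 (v, i) hv h3 e fun x => h4 (mem_image_of_mem ι x))
    (by
      intro u hu
      obtain ⟨v, hv, rfl⟩ := mem_image.1 hu
      simpa only [hj v (hl v hv)] using a4 v hv)
    (by
      rintro ⟨u, b⟩ hz
      obtain ⟨v, hv, rfl⟩ := (sh.img u).1 (c3_tm_mem (c3_live' sh hl) hz)
      have h1 := (c3_tm_share sh hl hc2 hv b).1 hz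
      have h0 : TmD G P c live (v, b) := by
        refine h1.imp_left ?_
        rintro ⟨_, i, e, h2⟩
        refine ⟨hv, i, ?_, h2⟩
        rw [← hc (v, i) hv, ← hb _ (CG.mem_bd.2 ⟨c3_mem sh hv, sh.leg (v, i) hv h2⟩)]
        exact e
      have h4 := c3_tm_mem hl (E.inv κ (v, b) h0).1
      rw [hτ κ v hv b]
      simpa only [hj v hv, hj _ h4, c3_live sh hl hv, c3_live sh hl h4, Prod.mk.eta]
        using a5 (v, b) h1)
  refine ⟨x, fun z hz => ?_, fun z hz => ?_⟩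
  · simpa only [hj _ hz, Prod.mk.eta] using hx (ι z.1, z.2) (c3_mem sh hz)
  · simpa only [hj _ (hl _ hz), Prod.mk.eta] using hx' (ι z.1, z.2) (mem_image_of_mem ι hz)

end Pool.Agent.MP_8c1b0d_co.RI
end

end

-- part MP_8c1b0d_co.RI.PE
section

section
set_option autoImplicit false
set_option linter.unusedSectionVars false
set_option synthInstance.maxSize 2048
open Finset Function

namespace Pool.Agent.MP_8c1b0d_co.RI
variable {V V' : Type} [Fintype V] [DecidableEq V] [Fintype V'] [DecidableEq V'] {G : CG V}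
  {G' : CG V'}

def a4_cA (b0 b1 b2 b3 : Bool) (x : Fin 4 × Bool) : Bool :=
  ![a4_c x.2 b1 b0, a4_c x.2 b3 b2, a4_c x.2 b3 b2, a4_c x.2 b1 b0] x.1

def a4_dA : List (List (ℕ × ℕ)) := [
  [], [(1130190, 271733878)], [(1871575, 271733878)], [(4111066, 271733878)], [(404570, 271733878)],
  [(1198374, 271733878)], [(2628725, 271733878)], [(3811115, 271733878)], [(783145, 271733878)],
  [(2265915, 271733878)], [(1950199, 271733878)], [(4189690, 271733878)], [(799129, 271733878)],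
  [(4536735, 271733878)], [(5278120, 271733878)], []]

theorem a4_tA : ∀ b0 b1 b2 b3 : Bool, (∀ κ, ∃ x, a4_cA b0 b1 b2 b3 x = κ) →
    ∀ W, W = a4_dA.getD (b0.toNat + 2 * b1.toNat + 4 * b2.toNat + 8 * b3.toNat) [] →
    a4_StB eR (a4_vec 0) 271733878 ∧ a4_chk 271733878 (W.map Prod.snd)
      (a4_cls (a4_cA b0 b1 b2 b3) (!true)) (a4_cls (a4_cA b0 b1 b2 b3) true) = true ∧
    ∀ w ∈ W, a4_StA eQ (a4_vec w.1) (a4_cA b0 b1 b2 b3) w.2 ∧
      ∀ j : Fin 4, (a4_vec w.1 j).t = .V := by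
  simp only [forall_eq]
  decide +kernel

/-- The finite check of the first 4-cycle reduction. -/
theorem fin_r4a (cB : Fin 4 × Bool → Bool) (ρ : Fin 4 × Bool → Fin 4 × Bool) (hρ : Pairing cB ρ)
    (s : Fin 0 → LS) (h : LG eR s cB ρ) (both : ∀ κ, ∃ x, cB x = κ) :
    ∃ s0 : Fin 4 → LS, (∀ j, (s0 j).a ≠ (s0 j).m ∧ (s0 j).t = .V) ∧ LG eQ s0 cB ρ := by
  obtain rfl : s = a4_vec 0 := funext fun j => j.elim0
  obtain ⟨b0, b1, b2, b3, rfl⟩ : ∃ b0 b1 b2 b3, cB = a4_cA b0 b1 b2 b3 := by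
    refine ⟨cB (0, false), cB (0, true), cB (1, false), cB (1, true), funext fun ⟨i, l⟩ => ?_⟩
    have h0 : cB (3, l) = cB (0, l) := h.1 (.inr 0, l)
    have h1 : cB (2, l) = cB (1, l) := h.1 (.inr 1, l)
    fin_cases i <;> cases l <;> first | rfl | exact h0 | exact h1
  obtain ⟨t0, t1, t2⟩ := a4_tA b0 b1 b2 b3 both _ rfl
  obtain ⟨s0, a, b, c⟩ := a4_case (P := fun s0 => ∀ j, (s0 j).t = .V) hρ h (by decide +kernel)
    (by decide +kernel) t0 t1 t2
  exact ⟨s0, fun j => ⟨a j, b j⟩, c⟩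

/-- The finite check of the second 4-cycle reduction. -/
theorem fin_r4b (cB : Fin 6 × Bool → Bool) (ρ : Fin 6 × Bool → Fin 6 × Bool) (hρ : Pairing cB ρ)
    (s : Fin 2 → LS) (ok : ∀ j, (s j).a ≠ (s j).m) (h : LG eR2 s cB ρ) (κ : Bool)
    (h1 : ∀ l, cB (4, l) = κ) (h2 : ∀ l, (s 0).cl (0, l) = κ) :
    ∃ s0 : Fin 6 → LS, (∀ j, (s0 j).a ≠ (s0 j).m) ∧ (∀ j : Fin 6, j.val < 4 → (s0 j).t = .V) ∧
      (s0 4).t.Adm (s 0).t ∧ (s0 5).t.Adm (s 1).t ∧ LG eQ2 s0 cB ρ := by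
  have h3 : ∀ l, (s 1).cl (0, l) = κ := fun l => (h.1 (.inl (0, 0), l)).trans (h2 l)
  obtain ⟨i, hi⟩ := a4_S_all _ κ (ok 0) h2
  obtain ⟨j, hj⟩ := a4_S_all _ κ (ok 1) h3
  have hc : ∃ e, a4_Case κ (s 0) (s 1) e := by
    rw [← hi, ← hj]
    cases κ
    exacts [⟨_, a4_tB0 i j⟩, ⟨_, a4_tB1 i j⟩]
  obtain ⟨sx, sy, rfl⟩ : ∃ sx sy, s = a4_two sx sy :=
    ⟨s 0, s 1, funext fun j => by fin_cases j <;> rfl⟩
  obtain rfl : cB = a4_cB sx sy κ := by
    refine funext fun ⟨i, l⟩ => ?_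
    fin_cases i
    exacts [(h.1 (.inr 0, l)).symm, (h.1 (.inr 1, l)).symm, (h.1 (.inr 2, l)).symm,
      (h.1 (.inr 3, l)).symm, h1 l, (h.1 (.inr 5, l)).symm.trans (h1 l)]
  obtain ⟨e, ⟨l0, l1⟩ | ⟨t0, t1, t2⟩⟩ := hc
  · obtain ⟨j, hj⟩ := h.2 (fun z => ∃ j, z.1 = .inl (j, 0))
      (by rintro ⟨_, l⟩ - ⟨j, rfl⟩; exact ⟨j + 1, rfl⟩)
      (by
        rintro ⟨_, l⟩ - ⟨j, rfl⟩
        refine ⟨j, congrArg (fun i => Sum.inl (j, i)) ?_⟩
        fin_cases j
        exacts [l0 l, l1 l])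
      (.inl (0, 0), false) (.inr 4, false) trivial trivial (h2 false) ⟨0, rfl⟩
    cases hj
  · obtain ⟨s0, a, b, c⟩ := a4_case (P := fun s0 => (∀ j : Fin 6, j.val < 4 → (s0 j).t = .V) ∧
      a4_Adm (s0 4).t sx.t ∧ a4_Adm (s0 5).t sy.t) hρ h (by decide +kernel) (by decide +kernel)
      t0 t1 t2
    exact ⟨s0, a, b.1, b.2.1, b.2.2, c⟩

end Pool.Agent.MP_8c1b0d_co.RI
end

section
set_option autoImplicit false
set_option linter.unusedSectionVars false
open Finset Function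

namespace Pool.Agent.MP_8c1b0d_co.RI
variable {V V' : Type} [Fintype V] [DecidableEq V] [Fintype V'] [DecidableEq V'] {G : CG V}
  {G' : CG V'}

variable {op : V × Fin 3 → ℕ} {P : Finset V} {l : Fin 4 → V × Fin 3} {b : Fin 4 → ℕ}

theorem b7a_par (hl : G.Legs P l) (w : V × Fin 3 → ZMod 2)
    (sy : ∀ d, d.1 ∈ P → (G.e d).1 ∈ P → w (G.e d) = w d)
    (ev : ∀ v ∈ P, w (v, 0) + w (v, 1) + w (v, 2) = 0) :
    w (l 0) + w (l 1) + w (l 2) + w (l 3) = 0 := by
  have h1 : ∑ d ∈ P ×ˢ (univ : Finset (Fin 3)), w d = 0 := by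
    rw [Finset.sum_product]
    exact Finset.sum_eq_zero fun v hv => by rw [Fin.sum_univ_three]; exact ev v hv
  have h2 : ∑ d ∈ (P ×ˢ (univ : Finset (Fin 3))).filter (fun d => (G.e d).1 ∈ P), w d = 0 := by
    refine Finset.sum_involution (fun d _ => G.e d) ?_ (fun d _ _ => G.ne d) ?_
      (fun d _ => G.ee d)
    · intro d hd
      simp only [Finset.mem_filter, Finset.mem_product, Finset.mem_univ, and_true] at hd
      rw [sy d hd.1 hd.2]
      exact CharTwo.add_self_eq_zero _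
    · intro d hd
      simp only [Finset.mem_filter, Finset.mem_product, Finset.mem_univ, and_true] at hd ⊢
      exact ⟨hd.2, by rw [G.ee]; exact hd.1⟩
  have h3 : (P ×ˢ (univ : Finset (Fin 3))).filter (fun d => ¬ (G.e d).1 ∈ P) =
      univ.image l := by
    ext d
    simp only [Finset.mem_filter, Finset.mem_product, Finset.mem_univ, and_true,
      Finset.mem_image, true_and]
    rw [← hl.mem, CG.mem_bd]
  rw [← Finset.sum_filter_add_sum_filter_not _ (fun d => (G.e d).1 ∈ P), h2, h3, zero_add,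
    Finset.sum_image (fun i _ j _ h => hl.inj h), Fin.sum_univ_four] at h1
  exact h1

theorem b7a_leg (hl : G.Legs P l) (i : Fin 4) : (l i).1 ∈ P ∧ (G.e (l i)).1 ∉ P :=
  CG.mem_bd.1 ((hl.mem _).2 ⟨i, rfl⟩)

/-- planarity of the pole -/
theorem pole_planar (h3 : G.EC3) (hl : G.Lab op) (c : G.Cyc op P l b)
    (small : ∀ S ⊆ P, G.cut S ≤ 3 → #S ≤ 1) (hx : Injective fun i => (l i).1)
    (w : V × Fin 3 → ZMod 2) (sy : ∀ d, d.1 ∈ P → (G.e d).1 ∈ P → w (G.e d) = w d)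
    (ev : ∀ v ∈ P, w (v, 0) + w (v, 1) + w (v, 2) = 0) :
    ∃ h : ℕ → ZMod 2, ∀ d : V × Fin 3, d.1 ∈ P →
      w d = h (op (d.1, d.2 + 1)) + h (op (d.1, d.2 + 2)) := by
  classical
  obtain ⟨W, _, _, G', ι, ω, g⟩ :=
    exists_glue c.legs ⟨_, (b7a_leg c.legs 0).1⟩ eH eH_inv
  obtain ⟨op', hl', hop⟩ := g.planeH h3 hl c
  have h3' := g.ec3H h3 c.legs small (fun h => absurd (hx h) (by decide))
    (fun h => absurd (hx h) (by decide))
  have par := b7a_par c.legs w sy ev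
  let tb : Fin 2 → Fin 3 → ZMod 2 :=
    ![![w (l 0), w (l 1), w (l 0) + w (l 1)], ![w (l 2), w (l 3), w (l 0) + w (l 1)]]
  have hex : ∀ v' : W, ∃ f : Fin 3 → ZMod 2, (∀ v ∈ P, ι v = v' → ∀ i, f i = w (v, i)) ∧
      ∀ j, ω j = v' → f = tb j := by
    intro v'
    rcases g.cover v' with ⟨v, hv, rfl⟩ | ⟨j, rfl⟩
    · exact ⟨fun i => w (v, i), fun u hu h i => by rw [g.ι_inj hu hv h],
        fun j h => absurd h.symm (g.disj v hv j)⟩
    · exact ⟨tb j, fun u hu h => absurd h (g.disj u hu j), fun k h => by rw [g.ω_inj h]⟩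
  choose f hf1 hf2 using hex
  let w' : W × Fin 3 → ZMod 2 := fun d => f d.1 d.2
  have e1 : ∀ d : V × Fin 3, d.1 ∈ P → w' (ι d.1, d.2) = w d := fun d hd =>
    hf1 _ d.1 hd rfl d.2
  have e2 : ∀ j i, w' (ω j, i) = tb j i := fun j i => congrFun (hf2 _ j rfl) i
  let w0 : D0 2 4 → ZMod 2 := Sum.elim (fun y => tb y.1 y.2) (fun i => w (l i))
  have e3 : ∀ x, w' (real ω (fun _ => 1) (fun i => (ι (l i).1, (l i).2)) x) = w0 x := by
    rintro (y | i)
    · exact e2 y.1 y.2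
    · exact e1 (l i) (b7a_leg c.legs i).1
  have e4 : ∀ x, w0 (eH x) = w0 x := by
    rintro (⟨j, i⟩ | i)
    · fin_cases j <;> fin_cases i <;> rfl
    · fin_cases i <;> rfl
  have e5 : ∀ x, w' (G'.e (real ω (fun _ => 1) (fun i => (ι (l i).1, (l i).2)) x)) =
      w' (real ω (fun _ => 1) (fun i => (ι (l i).1, (l i).2)) x) := fun x => by
    rw [g.gad, e3, e3, e4]
  obtain ⟨h, hh⟩ := hl'.planar h3' w' (by
    rintro ⟨v', i⟩
    rcases g.cover v' with ⟨v, hv, rfl⟩ | ⟨j, rfl⟩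
    · by_cases hi : (G.e (v, i)).1 ∈ P
      · rw [g.inner (v, i) hv hi, e1 _ hi, e1 (v, i) hv, sy (v, i) hv hi]
      · obtain ⟨k, hk⟩ := (c.legs.mem (v, i)).1 (CG.mem_bd.2 ⟨hv, hi⟩)
        have := e5 (.inr k)
        simp only [real, Sum.elim_inr, hk] at this
        exact this
    · exact e5 (.inl (j, i))) (by
    intro v'
    rcases g.cover v' with ⟨v, hv, rfl⟩ | ⟨j, rfl⟩
    · rw [e1 (v, 0) hv, e1 (v, 1) hv, e1 (v, 2) hv]; exact ev v hv
    · rw [e2, e2, e2]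
      fin_cases j
      · exact CharTwo.add_self_eq_zero _
      · show w (l 2) + w (l 3) + (w (l 0) + w (l 1)) = 0
        rw [← par]; ring)
  refine ⟨h, fun d hd => ?_⟩
  rw [← e1 d hd, hh, ← hop (d.1, d.2 + 1) hd, ← hop (d.1, d.2 + 2) hd]

theorem b7a_swap {α β x : Fin 3} (hαβ : α ≠ β) (h : x = α ∨ x = β) :
    (Equiv.swap α β x = α ∨ Equiv.swap α β x = β) ∧ Equiv.swap α β x ≠ x := by
  rcases h with rfl | rfl
  · rw [Equiv.swap_apply_left]; exact ⟨Or.inr rfl, hαβ.symm⟩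
  · rw [Equiv.swap_apply_right]; exact ⟨Or.inl rfl, hαβ⟩

theorem b7a_three (f : Fin 3 → ZMod 2) (i j k : Fin 3) (hij : i ≠ j) (hik : i ≠ k) (hjk : j ≠ k)
    (h : f i = f j) (h0 : f k = 0) : f 0 + f 1 + f 2 = 0 := by
  revert f i j k; decide +kernel

theorem b7a_third (α β : Fin 3) (h : α ≠ β) : ∃ γ, γ ≠ α ∧ γ ≠ β := by
  revert α β; decide

theorem b7a_common (i j : Fin 3) (h : j ≠ i) :
    (j + 1 = i + 1 ∨ j + 1 = i + 2) ∨ (j + 2 = i + 1 ∨ j + 2 = i + 2) := by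
  revert i j; decide

theorem b7a_two (a b : ZMod 2) (h : 0 = a + b) : a = b := by
  revert a b; decide

theorem b7a_sym {h : ℕ → ZMod 2} {d : V × Fin 3} {x y : ℕ} (e : prs op d = s(x, y)) :
    h (op (d.1, d.2 + 1)) + h (op (d.1, d.2 + 2)) = h x + h y := by
  rcases Sym2.eq_iff.1 e with ⟨h1, h2⟩ | ⟨h1, h2⟩
  · rw [h1, h2]
  · rw [h1, h2, add_comm]

/-- KEMPE. All legs have colour `α` or `β`. -/
theorem kempe (h3 : G.EC3) (hl : G.Lab op) (c : G.Cyc op P l b)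
    (small : ∀ S ⊆ P, G.cut S ≤ 3 → #S ≤ 1) (hx : Injective fun i => (l i).1)
    {col : V × Fin 3 → Fin 3} (hc : G.PCol P col) {α β : Fin 3} (hαβ : α ≠ β)
    (h : ∀ i, col (l i) = α ∨ col (l i) = β) :
    ∃ j : Fin 4, (j = 1 ∨ j = 3) ∧ ∃ col', G.PCol P col' ∧
      ∀ i, col' (l i) = if i = 0 ∨ i = j then Equiv.swap α β (col (l i)) else col (l i) := by
  classical
  have hsur : ∀ (v : V) (x : Fin 3), ∃ i, v ∈ P → col (v, i) = x := by
    intro v x
    by_cases hv : v ∈ P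
    · obtain ⟨i, hi⟩ := Finite.surjective_of_injective
        (f := fun i => col (v, i)) (fun i j e => hc.2 v hv i j e) x
      exact ⟨i, fun _ => hi⟩
    · exact ⟨0, fun h => absurd h hv⟩
  choose nv hnv using hsur
  let m : V × Fin 3 → V × Fin 3 := fun d => (d.1, nv d.1 (Equiv.swap α β (col d)))
  let N : Finset (V × Fin 3) := {d | d.1 ∈ P ∧ (col d = α ∨ col d = β)}
  have hN : ∀ d, d ∈ N ↔ d.1 ∈ P ∧ (col d = α ∨ col d = β) := fun d => by simp only [N, mem_filter, mem_univ, true_and]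
  have cm : ∀ d : V × Fin 3, d.1 ∈ P → col (m d) = Equiv.swap α β (col d) := fun d hd =>
    hnv d.1 _ hd
  have hB : ∀ i, l i ∈ G.bd P := fun i => (c.legs.mem _).2 ⟨i, rfl⟩
  have hlN : ∀ i, l i ∈ N := fun i => (hN _).2 ⟨(b7a_leg c.legs i).1, h i⟩
  have hm : ∀ p ∈ N, m p ∈ N ∧ m (m p) = p ∧ m p ≠ p := by
    intro p hp
    obtain ⟨h1, h2⟩ := (hN p).1 hp
    refine ⟨(hN _).2 ⟨h1, by rw [cm p h1]; exact (b7a_swap hαβ h2).1⟩, ?_, fun e => ?_⟩
    · refine Prod.ext rfl (hc.2 p.1 h1 _ _ ?_)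
      have := cm (m p) h1
      rw [cm p h1, Equiv.swap_apply_self] at this
      exact this
    · have := cm p h1
      rw [e] at this
      exact (b7a_swap hαβ h2).2 this.symm
  have he : ∀ p ∈ N, p ∉ G.bd P → G.e p ∈ N ∧ G.e p ∉ G.bd P ∧ G.e (G.e p) = p ∧ G.e p ≠ p := by
    intro p hp hb
    obtain ⟨h1, h2⟩ := (hN p).1 hp
    have h4 : (G.e p).1 ∈ P := by
      by_contra h5
      exact hb (CG.mem_bd.2 ⟨h1, h5⟩)
    refine ⟨(hN _).2 ⟨h4, by rw [hc.1 p h1 h4]; exact h2⟩, fun h5 => ?_, G.ee p, G.ne p⟩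
    exact (CG.mem_bd.1 h5).2 (by rw [G.ee]; exact h1)
  obtain ⟨ρ, hρ, hQ, hZ⟩ := first_return G.e m N (G.bd P) (fun d hd => by
    obtain ⟨i, rfl⟩ := (c.legs.mem d).1 hd
    exact hlN i) hm he
  obtain ⟨j, hj⟩ := (c.legs.mem _).1 (hρ _ (hB 0)).1
  have hj0 : j ≠ 0 := by
    rintro rfl
    exact (hρ _ (hB 0)).2.2 hj.symm
  have hj' : ρ (l j) = l 0 := by rw [hj]; exact (hρ _ (hB 0)).2.1
  obtain ⟨W, hW, hWe, hWm⟩ := hZ (fun p => p = l 0 ∨ p = l j) (by
    rintro p _ (rfl | rfl)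
    · exact Or.inr hj.symm
    · exact Or.inl hj')
  have hWl : ∀ i, W (l i) ↔ i = 0 ∨ i = j := fun i => by
    rw [hW _ (hB i), c.legs.inj.eq_iff, c.legs.inj.eq_iff]
  have kE : ∀ d : V × Fin 3, d.1 ∈ P → (G.e d).1 ∈ P → d ∈ N ∧ W d → G.e d ∈ N ∧ W (G.e d) := by
    intro d _ h2 h4
    have h5 : d ∉ G.bd P := fun h6 => (CG.mem_bd.1 h6).2 h2
    exact ⟨(he d h4.1 h5).1, hWe d h4.1 h5 h4.2⟩
  have kE' : ∀ d : V × Fin 3, d.1 ∈ P → (G.e d).1 ∈ P →
      (G.e d ∈ N ∧ W (G.e d) ↔ d ∈ N ∧ W d) := by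
    intro d h1 h2
    refine ⟨fun h4 => ?_, kE d h1 h2⟩
    have := kE (G.e d) h2 (by rw [G.ee]; exact h1) h4
    rwa [G.ee] at this
  have kM : ∀ v ∈ P, ∀ i k, (v, i) ∈ N ∧ W (v, i) → Equiv.swap α β (col (v, i)) = col (v, k) →
      (v, k) ∈ N ∧ W (v, k) := by
    intro v hv i k h1 h2
    have h4 : m (v, i) = (v, k) :=
      Prod.ext rfl (hc.2 v hv _ _ ((cm (v, i) hv).trans h2))
    rw [← h4]
    exact ⟨(hm _ h1.1).1, hWm _ h1.1 h1.2⟩
  by_cases hj2 : j = 2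
  · exfalso
    subst hj2
    obtain ⟨g, hg⟩ := pole_planar h3 hl c small hx (fun d => if d ∈ N ∧ W d then 1 else 0)
      (fun d h1 h2 => by simp only [kE' d h1 h2]) (fun v hv => by
        obtain ⟨γ, g1, g2⟩ := b7a_third α β hαβ
        have a1 := hnv v α hv
        have a2 := hnv v β hv
        have a3 := hnv v γ hv
        refine b7a_three (fun i => if (v, i) ∈ N ∧ W (v, i) then 1 else 0) (nv v α) (nv v β)
          (nv v γ) (fun e => hαβ ?_) (fun e => g1 ?_) (fun e => g2 ?_) ?_ ?_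
        · rw [← a1, e, a2]
        · rw [← a1, e, a3]
        · rw [← a2, e, a3]
        · have : (v, nv v α) ∈ N ∧ W (v, nv v α) ↔ (v, nv v β) ∈ N ∧ W (v, nv v β) :=
            ⟨fun h1 => kM v hv _ _ h1 (by rw [a1, a2, Equiv.swap_apply_left]),
              fun h1 => kM v hv _ _ h1 (by rw [a1, a2, Equiv.swap_apply_right])⟩
          simp only [this]
        · refine if_neg fun h1 => ?_
          rcases ((hN _).1 h1.1).2 with h2 | h2
          · exact g1 (a3.symm.trans h2)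
          · exact g2 (a3.symm.trans h2))
    have g0 := hg (l 0) (b7a_leg c.legs 0).1
    have g1 := hg (l 1) (b7a_leg c.legs 1).1
    rw [b7a_sym (c.pr _)] at g0 g1
    rw [if_pos ⟨hlN 0, (hWl 0).2 (Or.inl rfl)⟩] at g0
    have nW1 : ¬ W (l 1) := fun h1 => absurd ((hWl 1).1 h1) (by decide)
    rw [if_neg fun h1 => nW1 h1.2] at g1
    have hρ1 : ρ (l 1) = l 3 := by
      obtain ⟨k, hk⟩ := (c.legs.mem _).1 (hρ _ (hB 1)).1
      have hk' : ρ (l k) = l 1 := by rw [hk]; exact (hρ _ (hB 1)).2.1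
      have k0 : k ≠ 0 := by
        rintro rfl
        exact absurd (c.legs.inj (hj.trans hk')) (by decide)
      have k1 : k ≠ 1 := by
        rintro rfl
        exact (hρ _ (hB 1)).2.2 hk'
      have k2 : k ≠ 2 := by
        rintro rfl
        exact absurd (c.legs.inj (hj'.symm.trans hk')) (by decide)
      have k3 : k = 3 := by omega
      rw [← hk, k3]
    have key := hQ (fun p => ¬ W p ∧ ∀ x ∈ prs op p, g x = g (b 1)) (by
      intro p hp hb h1
      refine ⟨fun h2 => h1.1 ?_, by rw [hl.mat]; exact h1.2⟩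
      have := hWe _ (he p hp hb).1 (he p hp hb).2.1 h2
      rwa [G.ee] at this) (by
      intro p hp h1
      have nW : ¬ W (m p) := fun h2 => h1.1 (by
        have := hWm _ (hm p hp).1 h2
        rwa [(hm p hp).2.1] at this)
      refine ⟨nW, ?_⟩
      have h2 := hg (m p) ((hN p).1 hp).1
      rw [if_neg fun h4 => nW h4.2] at h2
      have h4 := b7a_two _ _ h2
      have h5 := h1.2 _ (Sym2.mem_mk_left (op (p.1, p.2 + 1)) (op (p.1, p.2 + 2)))
      have h6 := h1.2 _ (Sym2.mem_mk_right (op (p.1, p.2 + 1)) (op (p.1, p.2 + 2)))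
      have h7 : g (op ((m p).1, (m p).2 + 1)) = g (b 1) := by
        rcases b7a_common p.2 (m p).2 (fun e => (hm p hp).2.2 (Prod.ext rfl e)) with
          (e | e) | (e | e)
        · rw [e]; exact h5
        · rw [e]; exact h6
        · rw [h4, e]; exact h5
        · rw [h4, e]; exact h6
      intro x hx
      rcases Sym2.mem_iff.1 hx with rfl | rfl
      · exact h7
      · rw [← h4]; exact h7) (l 1) (hB 1) ⟨nW1, by
        rw [c.pr]
        intro x hx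
        rcases Sym2.mem_iff.1 hx with rfl | rfl
        · rfl
        · exact (b7a_two _ _ g1).symm⟩
    rw [hρ1, c.pr] at key
    have h5 : g (b 0) = g (b 1) := key.2 _ (Sym2.mem_mk_right _ _)
    have h6 : g (b (0 + 1)) = g (b 1) := rfl
    rw [h5, h6, CharTwo.add_self_eq_zero] at g0
    exact one_ne_zero g0
  · refine ⟨j, by omega, fun d => if d ∈ N ∧ W d then Equiv.swap α β (col d) else col d,
      ⟨fun d h1 h2 => by simp only [kE' d h1 h2, hc.1 d h1 h2], fun v hv i k e => ?_⟩,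
      fun i => by simp only [hlN i, hWl i, true_and]⟩
    simp only at e
    split_ifs at e with h1 h2 h2
    · exact hc.2 v hv _ _ ((Equiv.swap α β).injective e)
    · exact absurd (kM v hv i k h1 e) h2
    · exact absurd (kM v hv k i h2 e.symm) h1
    · exact hc.2 v hv _ _ e

end Pool.Agent.MP_8c1b0d_co.RI
end

section
set_option autoImplicit false
set_option linter.unusedSectionVars false
open Finset Function

namespace Pool.Agent.MP_8c1b0d_co.RI
variable {V V' : Type} [Fintype V] [DecidableEq V] [Fintype V'] [DecidableEq V'] {G : CG V}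
  {G' : CG V'}

variable {op : V × Fin 3 → ℕ} {P : Finset V} {l : Fin 4 → V × Fin 3} {b : Fin 4 → ℕ}

/-- the leg colouring `γ` extends to the pole -/
def b7_R (G : CG V) (P : Finset V) (l : Fin 4 → V × Fin 3) (γ : Fin 4 → Fin 3) : Prop :=
  ∃ c, G.PCol P c ∧ ∀ i, c (l i) = γ i

/-- equal up to a permutation of the colours -/
abbrev b7_E (γ δ : Fin 4 → Fin 3) : Prop := ∃ σ : Equiv.Perm (Fin 3), ∀ i, γ i = σ (δ i)

theorem b7_perm {γ δ : Fin 4 → Fin 3} (h : b7_R G P l δ) (e : b7_E γ δ) : b7_R G P l γ := by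
  obtain ⟨c, hc, h⟩ := h
  obtain ⟨σ, e⟩ := e
  exact ⟨fun d => σ (c d), ⟨fun d a b => congrArg σ (hc.1 d a b),
    fun v hv i j a => hc.2 v hv i j (σ.injective a)⟩, fun i => by rw [e, ← h]⟩

theorem b7_symm {γ δ : Fin 4 → Fin 3} (e : b7_E γ δ) : b7_E δ γ := by
  obtain ⟨σ, e⟩ := e
  exact ⟨σ.symm, fun i => by rw [e, Equiv.symm_apply_apply]⟩

theorem b7_extH {γ : Fin 4 → Fin 3} (h : Ext eH γ) :
    (b7_E γ ![0, 1, 0, 1] ∧ b7_E (fun i => γ (i - 1)) ![0, 1, 0, 1]) ∨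
      (b7_E γ ![0, 1, 1, 0] ∧ b7_E (fun i => γ (i - 1)) ![0, 0, 1, 1]) := by
  obtain ⟨c, h1, h2, h3⟩ := h
  have key : ∀ (γ : Fin 4 → Fin 3) (x : Fin 3), γ 0 ≠ γ 1 → γ 0 ≠ x → γ 1 ≠ x → γ 2 ≠ γ 3 →
      γ 2 ≠ x → γ 3 ≠ x →
      (b7_E γ ![0, 1, 0, 1] ∧ b7_E (fun i => γ (i - 1)) ![0, 1, 0, 1]) ∨
      (b7_E γ ![0, 1, 1, 0] ∧ b7_E (fun i => γ (i - 1)) ![0, 0, 1, 1]) := by decide +kernel
  have e0 : γ 0 = c (.inl (0, 0)) := (h3 0).symm.trans (h1 (.inr 0)).symm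
  have e1 : γ 1 = c (.inl (0, 1)) := (h3 1).symm.trans (h1 (.inr 1)).symm
  have e2 : γ 2 = c (.inl (1, 0)) := (h3 2).symm.trans (h1 (.inr 2)).symm
  have e3 : γ 3 = c (.inl (1, 1)) := (h3 3).symm.trans (h1 (.inr 3)).symm
  have e4 : c (.inl (0, 2)) = c (.inl (1, 2)) := h1 (.inl (1, 2))
  have n : ∀ j i i', i ≠ i' → c (.inl (j, i)) ≠ c (.inl (j, i')) := fun j i i' a b => a (h2 j i i' b)
  refine key γ (c (.inl (0, 2))) ?_ ?_ ?_ ?_ ?_ ?_ <;> simp only [e0, e1, e2, e3]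
  · exact n _ _ _ (by decide)
  · exact n _ _ _ (by decide)
  · exact n _ _ _ (by decide)
  · exact n _ _ _ (by decide)
  · exact e4 ▸ n _ _ _ (by decide)
  · exact e4 ▸ n _ _ _ (by decide)

theorem b7_extQ {γ : Fin 4 → Fin 3} (h : Ext eQ γ) :
    b7_E γ ![0, 0, 0, 0] ∨ b7_E γ ![0, 0, 1, 1] ∨ b7_E γ ![0, 1, 1, 0] := by
  obtain ⟨c, h1, h2, h3⟩ := h
  have key : ∀ γ x : Fin 4 → Fin 3, (∀ j, γ j ≠ x j ∧ γ (j + 1) ≠ x j ∧ x (j + 1) ≠ x j) →
      b7_E γ ![0, 0, 0, 0] ∨ b7_E γ ![0, 0, 1, 1] ∨ b7_E γ ![0, 1, 1, 0] := by decide +kernel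
  have e0 : ∀ j, γ j = c (.inl (j, 0)) := fun j => (h3 j).symm.trans (h1 (.inr j)).symm
  have e1 : ∀ j, c (.inl (j, 1)) = c (.inl (j + 1, 2)) := fun j => (h1 (.inl (j, 1))).symm
  have n : ∀ j i i', i ≠ i' → c (.inl (j, i)) ≠ c (.inl (j, i')) := fun j i i' a b => a (h2 j i i' b)
  refine key γ (fun j => c (.inl (j, 1))) fun j => ⟨?_, ?_, ?_⟩
  · rw [e0]; exact n _ _ _ (by decide)
  · rw [e0, e1]; exact n _ _ _ (by decide)
  · rw [e1 j]; exact n _ _ _ (by decide)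

theorem b7_glue (h4 : H4) (h3 : G.EC3) (hl : G.Lab op) (c : G.Cyc op P l b)
    (small : ∀ S ⊆ P, G.cut S ≤ 3 → #S ≤ 1) (hx : Injective fun i => (l i).1) :
    ∃ γ, b7_R G P l γ ∧ Ext eH γ := by
  have hP : ∀ i, (l i).1 ∈ P := fun i => (CG.mem_bd.1 ((c.legs.mem _).2 ⟨i, rfl⟩)).1
  have n1 : (l 0).1 ≠ (l 1).1 := fun h => absurd (hx h) (by decide)
  obtain ⟨W, _, _, G', ι, ω, g⟩ := exists_glue c.legs ⟨_, hP 0⟩ eH eH_inv
  obtain ⟨op', ho, -⟩ := g.planeH h3 hl c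
  have h2 : 1 < #P := one_lt_card.2 ⟨_, hP 0, _, hP 1, n1⟩
  obtain ⟨c', hc⟩ := h4 W G' (by rw [g.card]; omega)
    (g.ec3H h3 c.legs small n1 fun h => absurd (hx h) (by decide)) ⟨op', ho⟩
  exact ⟨_, ⟨_, (g.pcol hc).1, fun _ => rfl⟩, (g.pcol hc).2⟩

theorem b7_kempe (h3 : G.EC3) (hl : G.Lab op) (c : G.Cyc op P l b)
    (small : ∀ S ⊆ P, G.cut S ≤ 3 → #S ≤ 1) (hx : Injective fun i => (l i).1)
    {γ : Fin 4 → Fin 3} (h : b7_R G P l γ) (hγ : ∀ i, γ i = 0 ∨ γ i = 1) :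
    b7_R G P l (fun i => if i = 0 ∨ i = 1 then Equiv.swap 0 1 (γ i) else γ i) ∨
      b7_R G P l fun i => if i = 0 ∨ i = 3 then Equiv.swap 0 1 (γ i) else γ i := by
  obtain ⟨col, hc, h⟩ := h
  obtain ⟨j, rfl | rfl, col', h1, h2⟩ := kempe h3 hl c small hx hc (zero_ne_one (α := Fin 3))
    fun i => h i ▸ hγ i
  · exact .inl ⟨col', h1, fun i => by rw [h2, h]⟩
  · exact .inr ⟨col', h1, fun i => by rw [h2, h]⟩

/-- TYPES. By parity and colour permutations only the type of `col ∘ l` matters: AA `(α,α,α,α)`,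
T12 `(α,α,β,β)`, T13 `(α,β,α,β)`, T14 `(α,β,β,α)`. `Ext eH` = T13 or T14, `Ext eQ` = AA, T12 or
T14 (`decide`). `H4` for the two gluings of `eH` gives T13 or T14, and T12 or T13. Kempe:
T13 gives T14 or T12; T12 gives AA or T13. -/
theorem types (h4 : H4) (h3 : G.EC3) (hl : G.Lab op) (c : G.Cyc op P l b)
    (small : ∀ S ⊆ P, G.cut S ≤ 3 → #S ≤ 1) (hx : Injective fun i => (l i).1) :
    G.Full P l eH ∨ G.Full P (fun i => l (i + 1)) eH ∨ G.Full P l eQ := by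
  have shift : ∀ γ, b7_R G P (fun i => l (i + 1)) γ ↔ b7_R G P l fun i => γ (i - 1) := fun γ =>
    ⟨fun ⟨c, h1, h2⟩ => ⟨c, h1, fun i => by simpa using h2 (i - 1)⟩,
      fun ⟨c, h1, h2⟩ => ⟨c, h1, fun i => by simpa using h2 (i + 1)⟩⟩
  have a1 : b7_R G P l ![0, 1, 0, 1] ∨ b7_R G P l ![0, 1, 1, 0] := by
    obtain ⟨γ, h1, h2⟩ := b7_glue h4 h3 hl c small hx
    exact (b7_extH h2).imp (fun e => b7_perm h1 (b7_symm e.1)) fun e => b7_perm h1 (b7_symm e.1)
  have a2 : b7_R G P l ![0, 1, 0, 1] ∨ b7_R G P l ![0, 0, 1, 1] := by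
    obtain ⟨γ, h1, h2⟩ := b7_glue h4 h3 hl (c.rot 1) small (hx.comp (add_left_injective 1))
    rw [shift] at h1
    exact (b7_extH h2).imp (fun e => b7_perm h1 (b7_symm e.2)) fun e => b7_perm h1 (b7_symm e.2)
  by_cases t13 : b7_R G P l ![0, 1, 0, 1]
  · rcases b7_kempe h3 hl c small hx t13 (by decide) with h | h
    · have t14 : b7_R G P l ![0, 1, 1, 0] := b7_perm h (by decide)
      exact .inl fun γ hγ => (b7_extH hγ).elim (fun e => b7_perm t13 e.1) fun e => b7_perm t14 e.1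
    · have t12 : b7_R G P l ![0, 0, 1, 1] := b7_perm h (by decide)
      exact .inr (.inl fun γ hγ => (shift γ).2
        ((b7_extH hγ).elim (fun e => b7_perm t13 e.2) fun e => b7_perm t12 e.2))
  · have t14 := a1.resolve_left t13
    have t12 := a2.resolve_left t13
    rcases b7_kempe h3 hl c small hx t12 (by decide) with h | h
    · have taa : b7_R G P l ![0, 0, 0, 0] := b7_perm h (by decide)
      exact .inr (.inr fun γ hγ => (b7_extQ hγ).elim (b7_perm taa) fun e =>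
        e.elim (b7_perm t12) (b7_perm t14))
    · exact absurd (b7_perm h (by decide)) t13

end Pool.Agent.MP_8c1b0d_co.RI
end

section
set_option autoImplicit false
set_option linter.unusedSectionVars false
open Finset Function

namespace Pool.Agent.MP_8c1b0d_co.RI
variable {V V' : Type} [Fintype V] [DecidableEq V] [Fintype V'] [DecidableEq V'] {G : CG V}
  {G' : CG V'}

theorem c1_conn {T T' : Type} {e m : T → T} {c : T → Bool} {U : T → Prop} {e' m' : T' → T'}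
    {c' : T' → Bool} (h : Conn e' m' c' fun _ => True) (φ : T → T')
    (hi : ∀ p q, U p → U q → φ p = φ q → p = q)
    (he : ∀ p, U p → U (e p) ∧ φ (e p) = e' (φ p))
    (hm : ∀ p, U p → U (m p) ∧ φ (m p) = m' (φ p))
    (hc : ∀ p, U p → c' (φ p) = c p) : Conn e m c U := by
  intro Q qe qm p q up uq hpq hp
  obtain ⟨p', up', e', hq⟩ := h (fun x => ∃ y, U y ∧ φ y = x ∧ Q y)
    (by rintro _ - ⟨y, uy, rfl, hy⟩; exact ⟨e y, (he y uy).1, (he y uy).2, qe y uy hy⟩)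
    (by rintro _ - ⟨y, uy, rfl, hy⟩; exact ⟨m y, (hm y uy).1, (hm y uy).2, qm y uy hy⟩)
    (φ p) (φ q) trivial trivial (by rw [hc p up, hc q uq, hpq]) ⟨p, up, rfl, hp⟩
  rwa [← hi _ _ up' uq e']

theorem c1_cl (σ : LS) (τ : Tp) (h : σ.t ≠ .P) (h' : τ ≠ .P) (x : Fin 3 × Bool) :
    (⟨σ.a, σ.m, σ.k, τ⟩ : LS).cl x = σ.cl x := by
  simp [LS.cl, h, h']

theorem c1_gad {A : Finset V} {l : Fin 3 → V × Fin 3} {ι : V → V'} {ω : Fin 1 → V'}
    (g : Glue G A l eY G' ι ω) (i : Fin 3) : G'.e (ω 0, i) = (ι (l i).1, (l i).2) :=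
  g.gad (.inl (0, i))

/-- the side `A` of a solution of the glued graph -/
theorem c1_out {A : Finset V} {l : Fin 3 → V × Fin 3} (hl : G.Legs A l) {ι : V → V'}
    {ω : Fin 1 → V'} (g : Glue G A l eY G' ι ω) {s' : V' → LS} (hs : Sol G' s')
    (ht : (s' (ω 0)).t ≠ .P) :
    ∃ σ : LS, σ.a ≠ σ.m ∧ σ.t ≠ .P ∧ ∀ s : V → LS, (∀ v ∈ A, s v = s' (ι v)) →
      (∀ i c, cP s (l i, c) = σ.cl (i, c)) ∧ ∃ ρ, Out G A (G.bd A) s ρ ∧
        ∀ i c, ρ (l i, c) = (l (σ.mu (i, c)).1, (σ.mu (i, c)).2) := by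
  classical
  have ch := g.chart hl
  have lA : ∀ i, (l i).1 ∈ A := fun i => (CG.mem_bd.1 ((hl.mem _).2 ⟨i, rfl⟩)).1
  set b : Fin 3 → V' × Fin 3 := fun i => (ι (l i).1, (l i).2) with hb
  have hB : ∀ d, d ∈ univ.image b ↔ ∃ i, b i = d := by simp
  have hω : ω 0 ∉ A.image ι := (ch.q_mem _).2 ⟨0, rfl⟩
  obtain ⟨ρ', o, -⟩ := hs.red (A.image ι) (univ.image b)
    (fun d hd => by obtain ⟨i, rfl⟩ := (hB d).1 hd; exact ch.b_mem i)
    (fun d h1 h2 => by
      have := ch.inn d h1 fun i e => h2 ((hB d).2 ⟨i, e⟩)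
      exact ⟨this.1, fun h => by obtain ⟨i, e⟩ := (hB _).1 h; exact this.2 i e⟩)
    (fun κ => by
      obtain ⟨x, hx⟩ := (s' (ω 0)).both κ
      exact ⟨((ω 0, x.1), x.2), .inl hω, hx⟩)
  have hcol : ∀ x : Fin 3 × Bool, cP s' (b x.1, x.2) = (s' (ω 0)).cl x := fun x => by
    have := hs.col ((ω 0, x.1), x.2)
    rw [CG.eP, c1_gad g] at this
    exact this
  have hex : ∀ x : Fin 3 × Bool, ∃ y : Fin 3 × Bool, ρ' (b x.1, x.2) = (b y.1, y.2) := fun x => by
    obtain ⟨i, e⟩ := (hB _).1 (o.inv (b x.1, x.2) ((hB _).2 ⟨_, rfl⟩)).1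
    exact ⟨(i, (ρ' (b x.1, x.2)).2), by rw [e]⟩
  choose ρ0 hρ0 using hex
  have binj : ∀ x y : Fin 3 × Bool, (b x.1, x.2) = (b y.1, y.2) → x = y := fun x y e =>
    Prod.ext (ch.b_inj (congrArg Prod.fst e)) (congrArg (fun z => z.2) e)
  have hp : Pairing (s' (ω 0)).cl ρ0 := fun x => by
    obtain ⟨-, i1, i2, i3⟩ := o.inv (b x.1, x.2) ((hB _).2 ⟨_, rfl⟩)
    rw [hρ0] at i1 i2 i3
    rw [hρ0] at i1
    rw [hcol, hcol] at i3
    exact ⟨binj _ _ i1, fun e => i2 (by rw [e]), i3⟩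
  obtain ⟨τ, hτ, hmu⟩ := LS.tau _ (hs.ok _) ht ρ0 hp
  refine ⟨⟨(s' (ω 0)).a, (s' (ω 0)).m, (s' (ω 0)).k, τ⟩, hs.ok _, hτ, fun s hsA => ⟨fun i c => ?_, ?_⟩⟩
  · rw [c1_cl _ _ ht hτ, ← hcol (i, c)]
    simp only [cP, hsA _ (lA i), hb]
  have hbd : ∀ d : V × Fin 3, d.1 ∈ A → (d ∈ G.bd A ↔ (ι d.1, d.2) ∈ univ.image b) := by
    intro d hd
    rw [hl.mem, hB]
    refine exists_congr fun i => ⟨fun e => by rw [← e], fun e => ?_⟩
    exact Prod.ext (g.ι_inj (lA i) hd (congrArg Prod.fst e)) (congrArg (fun z => z.2) e)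
  obtain ⟨ρ, o', hρ⟩ := Out.transfer (G := G) (B := G.bd A) g.ι_inj (fun v => mem_image)
    (fun d hd => (CG.mem_bd.1 hd).1) hbd
    (fun d h1 h2 => by
      have h3 : (G.e d).1 ∈ A := by
        by_contra h3
        exact h2 (CG.mem_bd.2 ⟨h1, h3⟩)
      exact ⟨h3, g.inner d h1 h3⟩) hsA o
  refine ⟨ρ, o', fun i c => ?_⟩
  have hi : l i ∈ G.bd A := (hl.mem _).2 ⟨i, rfl⟩
  have e := hρ (l i, c) hi
  obtain ⟨j, hj⟩ := (hl.mem _).1 (o'.inv (l i, c) hi).1
  have e2 := (hρ0 (i, c)).symm.trans e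
  rw [← hj] at e2
  have e3 := binj (ρ0 (i, c)) (j, (ρ (l i, c)).2) e2
  rw [← hmu, e3, hj]

/-- a solution of the other glued graph is a solution of the reduced system -/
theorem c1_red {A : Finset V} {l : Fin 3 → V × Fin 3} (hl : G.Legs A l) {ι : V → V'}
    {ω : Fin 1 → V'} (g : Glue G Aᶜ (fun i => G.e (l i)) eY G' ι ω) {s' : V' → LS}
    (hs : Sol G' s') {s : V → LS} (h : ∀ v ∉ A, s v = s' (ι v))
    (hc : ∀ i c, cP s (l i, c) = (s' (ω 0)).cl (i, c))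
    {ρ : (V × Fin 3) × Bool → (V × Fin 3) × Bool}
    (hρ : ∀ i c, ρ (l i, c) = (l ((s' (ω 0)).mu (i, c)).1, ((s' (ω 0)).mu (i, c)).2)) :
    Red G A (G.bd A) s ρ := by
  classical
  have lb : ∀ i, l i ∈ G.bd A := fun i => (hl.mem _).2 ⟨i, rfl⟩
  obtain ⟨δ, δ1, δ2⟩ : ∃ δ : V × Fin 3 → V' × Fin 3, (∀ i, δ (l i) = (ω 0, i)) ∧
      ∀ d, d.1 ∉ A → δ d = (ι d.1, d.2) :=
    ⟨fun d => if d.1 ∈ A then (ω 0, invFun l d) else (ι d.1, d.2),
      fun i => by simp only [(CG.mem_bd.1 (lb i)).1, if_true, leftInverse_invFun hl.inj i],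
      fun d hd => if_neg hd⟩
  have he : ∀ d : V × Fin 3, (d.1 ∉ A ∨ d ∈ G.bd A) →
      ((G.e d).1 ∉ A ∨ G.e d ∈ G.bd A) ∧ δ (G.e d) = G'.e (δ d) := by
    rintro d (hd | hd)
    · by_cases h3 : (G.e d).1 ∈ A
      · have h4 : G.e d ∈ G.bd A := CG.mem_bd.2 ⟨h3, by rwa [G.ee]⟩
        obtain ⟨i, hi⟩ := (hl.mem _).1 h4
        refine ⟨.inr h4, ?_⟩
        have := c1_gad g i
        rw [hi, G.ee] at this
        rw [δ2 d hd, ← hi, δ1, ← this, G'.ee]
      · exact ⟨.inl h3, by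
          rw [δ2 _ hd, δ2 _ h3, g.inner d (mem_compl.2 hd) (mem_compl.2 h3)]⟩
    · obtain ⟨i, rfl⟩ := (hl.mem _).1 hd
      have h3 := (CG.mem_bd.1 hd).2
      exact ⟨.inl h3, by rw [δ1, δ2 _ h3, c1_gad g i]⟩
  have hcc : ∀ p : (V × Fin 3) × Bool, (p.1.1 ∉ A ∨ p.1 ∈ G.bd A) →
      cP s' (δ p.1, p.2) = cP s p := by
    rintro ⟨d, c⟩ (hd | hd)
    · simp only [cP, δ2 d hd, h _ hd]
    · obtain ⟨i, rfl⟩ := (hl.mem _).1 hd
      rw [hc, δ1]
      rfl
  refine ⟨fun v hv => h v hv ▸ hs.ok _, fun p hp => ?_, ?_⟩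
  · rw [← hcc p hp, ← hcc (G.eP p) (he p.1 hp).1, ← hs.col (δ p.1, p.2)]
    simp only [CG.eP, (he p.1 hp).2]
  refine c1_conn hs.conn (fun p => (δ p.1, p.2)) ?_ (fun p hp => ⟨(he p.1 hp).1, ?_⟩) ?_ hcc
  · rintro ⟨d, c⟩ ⟨d', c'⟩ hd hd' e
    obtain ⟨e1, rfl⟩ := Prod.mk.inj e
    refine Prod.ext ?_ rfl
    rcases hd with hd | hd <;> rcases hd' with hd' | hd'
    · rw [δ2 _ hd, δ2 _ hd'] at e1
      exact Prod.ext (g.ι_inj (mem_compl.2 hd) (mem_compl.2 hd') (congrArg Prod.fst e1))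
        (congrArg (fun z => z.2) e1)
    · obtain ⟨i, rfl⟩ := (hl.mem _).1 hd'
      rw [δ2 _ hd, δ1] at e1
      exact absurd (congrArg Prod.fst e1) (g.disj _ (mem_compl.2 hd) 0)
    · obtain ⟨i, rfl⟩ := (hl.mem _).1 hd
      rw [δ2 _ hd', δ1] at e1
      exact absurd (congrArg Prod.fst e1).symm (g.disj _ (mem_compl.2 hd') 0)
    · obtain ⟨i, rfl⟩ := (hl.mem _).1 hd
      obtain ⟨j, rfl⟩ := (hl.mem _).1 hd'
      rw [δ1, δ1] at e1
      exact congrArg l (congrArg Prod.snd e1)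
  · simp only [CG.eP, (he p.1 hp).2]
  · rintro ⟨d, c⟩ (hd | hd)
    · have h3 : d ∉ G.bd A := fun h3 => hd (CG.mem_bd.1 h3).1
      simp only [h3, if_false]
      refine ⟨.inl hd, ?_⟩
      rw [δ2 _ hd, δ2 _ (show (mP s (d, c)).1.1 ∉ A from hd)]
      simp only [mP, h _ hd]
    · simp only [hd, if_true]
      obtain ⟨i, rfl⟩ := (hl.mem _).1 hd
      rw [hρ]
      exact ⟨.inr (lb _), by rw [δ1, δ1]; rfl⟩

/-- 3-CUT. Solve `GA` with root `ιA r` and the new vertex marked. `Sol.red` in `GA` and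
`Out.transfer` give `Out G A (bd A) s ρ` for every `s` that agrees on `A`. The colours on the legs
are those of the mixed state `σb` of the new vertex, so `LS.tau` gives `τ` with
`ρ (l i, ·) = mu ⟨σb.a, σb.m, σb.k, τ⟩`. Solve `GB` with this root state. Its ports are the ports
of the reduced system (`(ωB 0, i)` corresponds to `l i`), so `Red` holds; `Out.ext`. -/
theorem step3 {VA VB : Type} [Fintype VA] [DecidableEq VA] [Fintype VB] [DecidableEq VB]
    {GA : CG VA} {GB : CG VB} {A : Finset V} {l : Fin 3 → V × Fin 3} (hl : G.Legs A l)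
    {ιA : V → VA} {ωA : Fin 1 → VA} (gA : Glue G A l eY GA ιA ωA) {ιB : V → VB} {ωB : Fin 1 → VB}
    (gB : Glue G Aᶜ (fun i => G.e (l i)) eY GB ιB ωB) (hA : IND GA) (hB : IND GB) {r : V}
    (hr : r ∈ A) (σ : LS) (M : Finset V) (h1 : σ.a ≠ σ.m) (h2 : σ.t ≠ .P) :
    ∃ s, Sol G s ∧ s r = σ ∧ Fits M r s := by
  obtain ⟨sA, hsA, hrA, fA⟩ := hA (ιA r) σ (insert (ωA 0) ((M ∩ A).image ιA)) h1 h2
  obtain ⟨σ', k1, k2, k3⟩ := c1_out hl gA hsA
    ((fA _ (gA.disj r hr 0).symm).1 (mem_insert_self _ _))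
  obtain ⟨sB, hsB, hrB, fB⟩ := hB (ωB 0) σ' ((M ∩ Aᶜ).image ιB) k1 k2
  obtain ⟨s, s1, s2⟩ : ∃ s : V → LS, (∀ v ∈ A, s v = sA (ιA v)) ∧ ∀ v ∉ A, s v = sB (ιB v) :=
    ⟨fun v => if v ∈ A then sA (ιA v) else sB (ιB v), fun v hv => if_pos hv, fun v hv => if_neg hv⟩
  obtain ⟨hc, ρ, o, hρ⟩ := k3 s s1
  rw [← hrB] at hc hρ
  refine ⟨s, o.ext (c1_red hl gB hsB s2 hc hρ), (s1 r hr).trans hrA, fun v hv => ?_⟩
  by_cases hvA : v ∈ A
  · have f := fA (ιA v) fun e => hv (gA.ι_inj hvA hr e)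
    rw [s1 v hvA]
    refine ⟨fun hm => f.1 (mem_insert_of_mem (mem_image_of_mem _ (mem_inter.2 ⟨hm, hvA⟩))),
      fun hm => f.2 fun h => ?_⟩
    rcases mem_insert.1 h with h | h
    · exact gA.disj v hvA 0 h
    · obtain ⟨u, hu, e⟩ := mem_image.1 h
      exact hm (gA.ι_inj (mem_inter.1 hu).2 hvA e ▸ (mem_inter.1 hu).1)
  · have hvB := mem_compl.2 hvA
    have f := fB (ιB v) (gB.disj v hvB 0)
    rw [s2 v hvA]
    refine ⟨fun hm => f.1 (mem_image_of_mem _ (mem_inter.2 ⟨hm, hvB⟩)), fun hm => f.2 fun h => ?_⟩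
    obtain ⟨u, hu, e⟩ := mem_image.1 h
    exact hm (gB.ι_inj (mem_inter.1 hu).2 hvB e ▸ (mem_inter.1 hu).1)

end Pool.Agent.MP_8c1b0d_co.RI
end

section
set_option autoImplicit false
set_option linter.unusedSectionVars false
open Finset Function

namespace Pool.Agent.MP_8c1b0d_co.RI
variable {V V' : Type} [Fintype V] [DecidableEq V] [Fintype V'] [DecidableEq V'] {G : CG V}
  {G' : CG V'}

theorem c2_mark {A M : Finset V} {ι : V → V'} (inj : Set.InjOn ι A) {v : V} (hv : v ∈ A) :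
    ι v ∈ (M ∩ A).image ι ↔ v ∈ M := by
  constructor
  · intro h
    obtain ⟨u, hu, e⟩ := mem_image.1 h
    rw [← inj (mem_inter.1 hu).2 hv e]
    exact (mem_inter.1 hu).1
  · exact fun h => mem_image.2 ⟨v, mem_inter.2 ⟨h, hv⟩, rfl⟩

theorem c2_fit {A M : Finset V} {ι : V → V'} (inj : Set.InjOn ι A) {r v : V} (hr : r ∈ A)
    (hv : v ∈ A) (ne : v ≠ r) {s' : V' → LS} (f : Fits ((M ∩ A).image ι) (ι r) s') {t : Tp}
    (ad : t.Adm (s' (ι v)).t) : (v ∈ M → t ≠ .P) ∧ (v ∉ M → t = .V ∨ t = .P) := by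
  have k := f (ι v) fun e => ne (inj hv hr e)
  rw [c2_mark inj hv] at k
  refine ⟨fun h => ad.2.2 (k.1 h), fun h => ?_⟩
  rcases k.2 h with e | e
  · exact Or.inl (ad.1 e)
  · exact ad.2.1 e

theorem c2_adm (t : Tp) : t.Adm t := ⟨id, fun h => Or.inr h, id⟩

/-- the other two darts at a far end -/
theorem c2_far {A : Finset V} {q : Fin 4 → V} {ψ : Fin 4 → Equiv.Perm (Fin 3)}
    {l : Fin 4 → V × Fin 3} (c : Chart G A eQ q ψ l)
    (hx : Injective fun i => (l i).1) {ι : V → V'} {ω : Fin 0 → V'} (g : Glue G A l eR G' ι ω)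
    (h3 : G'.EC3) (i : Fin 4) (j : Fin 3) (hj : j ≠ (l i).2) :
    (G.e ((l i).1, j)).1 ∈ A ∧ (∀ k, l k ≠ G.e ((l i).1, j)) ∧ (G.e ((l i).1, j)).1 ≠ (l i).1 ∧
      (G.e ((l i).1, j)).1 ≠ (l (3 - i)).1 ∧
      G'.e (ι (l i).1, j) = (ι (G.e ((l i).1, j)).1, (G.e ((l i).1, j)).2) := by
  have four : 4 ≤ #A := by
    have := card_le_card_of_injOn (s := univ) (t := A) (fun i => (l i).1)
      (fun i _ => c.b_mem i) hx.injOn
    simpa using this
  have cd := g.card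
  have k := c.inn ((l i).1, j) (c.b_mem i) fun k e => by
    have e1 : k = i := hx (show (l k).1 = (l i).1 by rw [e])
    subst e1
    exact hj (congrArg Prod.snd e).symm
  have e1 := g.inner ((l i).1, j) (c.b_mem i) k.1
  have e2 : G'.e (ι (l i).1, (l i).2) = (ι (l (3 - i)).1, (l (3 - i)).2) := g.gad (.inr i)
  refine ⟨k.1, k.2, fun e => ?_, fun e => ?_, e1⟩
  · refine h3.no_loop (by omega) (ι (l i).1, j) ?_
    rw [e1, e]
  · refine hj (h3.simple (by omega) (ι (l i).1) j (l i).2 ?_)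
    rw [e1, e2, e]

/-- 4-FACE. Solve `G'` with the marks in `A`. If both colours occur on the ports of the four legs
use `repl` with the charts `c`, `g.chart` and `fin_r4a`. Otherwise all have one colour `κ`; use
`repl` for `A - {x, y}`, `x = (l 0).1`, `y = (l 3).1`, with charts for `eQ2` and `eR2`: choose
`ψx 0 = (l 0).2`, `ψy 0 = (l 3).2`; the boundary darts are the partners of the other two darts at
`x`, at `y`, then `l 1`, `l 2`. They lie in `A - {x, y}`: `G'` is simple (`EC3.simple`,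
`EC3.no_loop`), the far ends are different. Then `fin_r4b`. -/
theorem stepR {A : Finset V} {q : Fin 4 → V} {ψ : Fin 4 → Equiv.Perm (Fin 3)}
    {l : Fin 4 → V × Fin 3} (c : Chart G A eQ q ψ l) (hl : G.Legs A l)
    (hx : Injective fun i => (l i).1) {ι : V → V'} {ω : Fin 0 → V'} (g : Glue G A l eR G' ι ω)
    (h3 : G'.EC3) (hI : IND G') {r : V} (hr : r ∈ A) (r0 : r ≠ (l 0).1) (r3 : r ≠ (l 3).1)
    (σ : LS) (M : Finset V) (h1 : σ.a ≠ σ.m) (h2 : σ.t ≠ .P) :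
    ∃ s, Sol G s ∧ s r = σ ∧ Fits M r s := by
  obtain ⟨s', hs, hroot, hf⟩ := hI (ι r) σ ((M ∩ A).image ι) h1 h2
  by_cases both : ∀ κ, ∃ x : Fin 4 × Bool, cP s' ((ι (l x.1).1, (l x.1).2), x.2) = κ
  · obtain ⟨ρ, hρ, lg, k⟩ := repl c (g.chart hl) g.ι_inj (fun v' => mem_image) (fun _ => rfl)
      (fun d h h' => g.inner d h (c.inn d h h').1) hs (Or.inr both)
    obtain ⟨s0, ok, lg'⟩ := fin_r4a _ ρ hρ _ lg both
    obtain ⟨s, sol, e1, e2⟩ := k s0 (fun j => (ok j).1) lg'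
    refine ⟨s, sol, (e1 r hr).trans hroot, fun v ne => ?_⟩
    by_cases hv : v ∈ A
    · rw [e1 v hv]
      exact c2_fit g.ι_inj hr hv ne hf (c2_adm _)
    · obtain ⟨j, rfl⟩ := (c.q_mem v).1 hv
      have : (s (q j)).t = .V := by rw [e2]; exact (ok j).2
      rw [this]
      exact ⟨fun _ => by decide, fun _ => Or.inl rfl⟩
  obtain ⟨κ, hκ⟩ : ∃ κ, ∀ x : Fin 4 × Bool, cP s' ((ι (l x.1).1, (l x.1).2), x.2) = κ := by
    push Not at both
    obtain ⟨κ, h⟩ := both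
    exact ⟨!κ, fun x => Bool.eq_not_iff.2 (h x)⟩
  obtain ⟨ψx, hψx⟩ : ∃ ψx : Equiv.Perm (Fin 3), ψx 0 = (l 0).2 :=
    ⟨Equiv.swap 0 (l 0).2, by simp⟩
  obtain ⟨ψy, hψy⟩ : ∃ ψy : Equiv.Perm (Fin 3), ψy 0 = (l 3).2 :=
    ⟨Equiv.swap 0 (l 3).2, by simp⟩
  have x1 := c2_far c hx g h3 0 (ψx 1) (by rw [← hψx]; exact ψx.injective.ne (by decide))
  have x2 := c2_far c hx g h3 0 (ψx 2) (by rw [← hψx]; exact ψx.injective.ne (by decide))
  have y1 := c2_far c hx g h3 3 (ψy 1) (by rw [← hψy]; exact ψy.injective.ne (by decide))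
  have y2 := c2_far c hx g h3 3 (ψy 2) (by rw [← hψy]; exact ψy.injective.ne (by decide))
  have s30 : (3 : Fin 4) - 0 = 3 := rfl
  have s33 : (3 : Fin 4) - 3 = 0 := rfl
  rw [s30] at x1 x2
  rw [s33] at y1 y2
  have ne : ∀ i j : Fin 4, i ≠ j → (l i).1 ≠ (l j).1 := fun i j h e => h (hx e)
  have l0 : ((l 0).1, ψx 0) = l 0 := by rw [hψx]
  have l3 : ((l 3).1, ψy 0) = l 3 := by rw [hψy]
  have p12 : ψx 1 ≠ ψx 2 := ψx.injective.ne (by decide)
  have p12' : ψy 1 ≠ ψy 2 := ψy.injective.ne (by decide)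
  have n03 := ne 0 3 (by decide)
  have qA : ∀ j, q j ∉ A := fun j => (c.q_mem _).2 ⟨j, rfl⟩
  have qx : ∀ j i, q j ≠ (l i).1 := fun j i e => qA j (e ▸ c.b_mem i)
  set A2 : Finset V := (A.erase (l 0).1).erase (l 3).1 with hA2
  have mA2 : ∀ v, v ∈ A2 ↔ v ≠ (l 3).1 ∧ v ≠ (l 0).1 ∧ v ∈ A := fun v => by
    simp only [hA2, mem_erase]
  let b2 : Fin 6 → V × Fin 3 := ![G.e ((l 0).1, ψx 1), G.e ((l 0).1, ψx 2), G.e ((l 3).1, ψy 1),
    G.e ((l 3).1, ψy 2), l 1, l 2]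
  have bmem : ∀ i, (b2 i).1 ∈ A2 := by
    intro i
    rw [mA2]
    fin_cases i
    · exact ⟨x1.2.2.2.1, x1.2.2.1, x1.1⟩
    · exact ⟨x2.2.2.2.1, x2.2.2.1, x2.1⟩
    · exact ⟨y1.2.2.1, y1.2.2.2.1, y1.1⟩
    · exact ⟨y2.2.2.1, y2.2.2.2.1, y2.1⟩
    · exact ⟨ne 1 3 (by decide), ne 1 0 (by decide), c.b_mem 1⟩
    · exact ⟨ne 2 3 (by decide), ne 2 0 (by decide), c.b_mem 2⟩
  have binj : Injective b2 := by
    have a1 := x1.2.1
    have a2 := x2.2.1
    have a3 := y1.2.1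
    have a4 := y2.2.1
    have a5 : l 1 ≠ l 2 := c.b_inj.ne (by decide)
    intro i j e
    fin_cases i <;> fin_cases j <;> first
      | rfl
      | exact absurd (congrArg Prod.snd (CG.e_inj e)) p12
      | exact absurd (congrArg Prod.snd (CG.e_inj e)) p12.symm
      | exact absurd (congrArg Prod.snd (CG.e_inj e)) p12'
      | exact absurd (congrArg Prod.snd (CG.e_inj e)) p12'.symm
      | exact absurd (congrArg Prod.fst (CG.e_inj e)) n03
      | exact absurd (congrArg Prod.fst (CG.e_inj e)) n03.symm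
      | exact absurd e a5
      | exact absurd e a5.symm
      | exact absurd e (a1 _)
      | exact absurd e (a2 _)
      | exact absurd e (a3 _)
      | exact absurd e (a4 _)
      | exact absurd e (a1 _).symm
      | exact absurd e (a2 _).symm
      | exact absurd e (a3 _).symm
      | exact absurd e (a4 _).symm
  have sub : ∀ v ∈ A2, v ∈ A := fun v h => ((mA2 v).1 h).2.2
  have inj2 : Set.InjOn ι A2 := fun u hu v hv e => g.ι_inj (sub u hu) (sub v hv) e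
  have c2 : Chart G A2 eQ2 ![q 0, q 1, q 2, q 3, (l 0).1, (l 3).1] ![ψ 0, ψ 1, ψ 2, ψ 3, ψx, ψy]
      b2 := by
    refine ⟨?_, fun v => ?_, binj, bmem, fun z => ?_⟩
    · intro i j e
      fin_cases i <;> fin_cases j <;> first
        | rfl
        | exact absurd (c.q_inj e) (by decide)
        | exact absurd e (qx _ _)
        | exact absurd e (qx _ _).symm
        | exact absurd e n03
        | exact absurd e n03.symm
    · rw [mA2]
      constructor
      · intro h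
        by_cases a : v = (l 3).1
        · exact ⟨5, a.symm⟩
        by_cases b : v = (l 0).1
        · exact ⟨4, b.symm⟩
        obtain ⟨j, rfl⟩ := (c.q_mem v).1 fun hv => h ⟨a, b, hv⟩
        fin_cases j
        exacts [⟨0, rfl⟩, ⟨1, rfl⟩, ⟨2, rfl⟩, ⟨3, rfl⟩]
      · rintro ⟨j, rfl⟩ ⟨a, b, hv⟩
        fin_cases j
        exacts [qA 0 hv, qA 1 hv, qA 2 hv, qA 3 hv, b rfl, a rfl]
    · rcases z with ⟨j, i⟩ | i
      · fin_cases j <;> fin_cases i
        · exact (c.hom (.inl (0, 0))).trans l0.symm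
        · exact c.hom (.inl (0, 1))
        · exact c.hom (.inl (0, 2))
        · exact c.hom (.inl (1, 0))
        · exact c.hom (.inl (1, 1))
        · exact c.hom (.inl (1, 2))
        · exact c.hom (.inl (2, 0))
        · exact c.hom (.inl (2, 1))
        · exact c.hom (.inl (2, 2))
        · exact (c.hom (.inl (3, 0))).trans l3.symm
        · exact c.hom (.inl (3, 1))
        · exact c.hom (.inl (3, 2))
        · exact (congrArg G.e l0).trans (c.hom (.inr 0))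
        · rfl
        · rfl
        · exact (congrArg G.e l3).trans (c.hom (.inr 3))
        · rfl
        · rfl
      · fin_cases i
        · exact G.ee _
        · exact G.ee _
        · exact G.ee _
        · exact G.ee _
        · exact c.hom (.inr 1)
        · exact c.hom (.inr 2)
  have back : ∀ {a b : V' × Fin 3}, G'.e a = b → G'.e b = a := fun h => by rw [← h, G'.ee]
  have c2' : Chart G' (A2.image ι) eR2 ![ι (l 0).1, ι (l 3).1] ![ψx, ψy]
      fun i => (ι (b2 i).1, (b2 i).2) := by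
    have n03' : ι (l 0).1 ≠ ι (l 3).1 := fun e => n03 (g.ι_inj (c.b_mem 0) (c.b_mem 3) e)
    refine ⟨?_, fun v => ?_, fun i j e => binj ?_, fun i => mem_image_of_mem _ (bmem i),
      fun z => ?_⟩
    · intro i j e
      fin_cases i <;> fin_cases j <;> first
        | rfl
        | exact absurd e n03'
        | exact absurd e n03'.symm
    · constructor
      · intro h
        rcases g.cover v with ⟨u, hu, rfl⟩ | ⟨j, -⟩
        · by_cases a : u = (l 3).1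
          · exact ⟨1, congrArg ι a.symm⟩
          by_cases b : u = (l 0).1
          · exact ⟨0, congrArg ι b.symm⟩
          exact absurd (mem_image_of_mem _ ((mA2 u).2 ⟨a, b, hu⟩)) h
        · exact j.elim0
      · rintro ⟨j, rfl⟩ h
        obtain ⟨u, hu, e⟩ := mem_image.1 h
        obtain ⟨a, b, hu'⟩ := (mA2 u).1 hu
        fin_cases j
        · exact b (g.ι_inj hu' (c.b_mem 0) e)
        · exact a (g.ι_inj hu' (c.b_mem 3) e)
    · exact Prod.ext (inj2 (bmem i) (bmem j) (Prod.mk.inj e).1) (Prod.mk.inj e).2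
    · have g0 : G'.e (ι (l 0).1, ψx 0) = (ι (l 3).1, ψy 0) := by
        rw [hψx, hψy]
        exact g.gad (.inr 0)
      rcases z with ⟨j, i⟩ | i
      · fin_cases j <;> fin_cases i
        · exact g0
        · exact x1.2.2.2.2
        · exact x2.2.2.2.2
        · exact back g0
        · exact y1.2.2.2.2
        · exact y2.2.2.2.2
      · fin_cases i
        · exact back x1.2.2.2.2
        · exact back x2.2.2.2.2
        · exact back y1.2.2.2.2
        · exact back y2.2.2.2.2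
        · exact g.gad (.inr 1)
        · exact g.gad (.inr 2)
  obtain ⟨ρ, hρ, lg, k⟩ := repl c2 c2' inj2 (fun v' => mem_image) (fun _ => rfl)
    (fun d h h' => g.inner d (sub _ h) (c.inn d (sub _ h) fun i e => by
      obtain ⟨a, b, -⟩ := (mA2 _).1 h
      fin_cases i
      · exact b (congrArg Prod.fst e).symm
      · exact h' 4 e
      · exact h' 5 e
      · exact a (congrArg Prod.fst e).symm).1) hs (Or.inl (by decide))
  obtain ⟨s0, ok, hV, ad4, ad5, lg'⟩ := fin_r4b _ ρ hρ _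
    (fun j => (Equiv.injective _).ne (hs.ok _)) lg κ (fun b => hκ (1, b)) fun b => by
      have e := (s' (ι (l 0).1)).cl_map ψx.symm (ψx 0, b)
      simp only [Equiv.symm_apply_apply] at e
      refine e.trans ?_
      rw [hψx]
      exact hκ (0, b)
  obtain ⟨s, sol, e1, e2⟩ := k s0 ok lg'
  have hr2 : r ∈ A2 := (mA2 r).2 ⟨r3, r0, hr⟩
  refine ⟨s, sol, (e1 r hr2).trans hroot, fun v nv => ?_⟩
  by_cases hv : v ∈ A2
  · rw [e1 v hv]
    exact c2_fit g.ι_inj hr (sub v hv) nv hf (c2_adm _)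
  obtain ⟨j, rfl⟩ := (c2.q_mem v).1 hv
  rw [e2]
  by_cases hj : j.val < 4
  · have : ((s0 j).map (![ψ 0, ψ 1, ψ 2, ψ 3, ψx, ψy] j)).t = .V := hV j hj
    rw [this]
    exact ⟨fun _ => by decide, fun _ => Or.inl rfl⟩
  fin_cases j
  · exact absurd (by decide) hj
  · exact absurd (by decide) hj
  · exact absurd (by decide) hj
  · exact absurd (by decide) hj
  · exact c2_fit g.ι_inj hr (c.b_mem 0) nv hf ad4
  · exact c2_fit g.ι_inj hr (c.b_mem 3) nv hf ad5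

end Pool.Agent.MP_8c1b0d_co.RI
end

end
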