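import Pool.Agent.MP_8c1b0d_co.Mg.RR_G

-- part MP_8c1b0d_co.RR.W
section

set_option autoImplicit false
set_option linter.unusedSectionVars false
open Finset

namespace Pool.Agent.MP_8c1b0d_co
namespace Tri
variable {V : Type} [Fintype V] [DecidableEq V] {t t' : Tri V} {P P' : Finset (V × Bool)}
  {Rt : Finset V} {c : Bool} {Q : V → Prop}

/-- the root lies on one side of the triple -/
def RF (Rt : Finset V) (P : Finset (V × Bool)) : Prop := Rt ⊆ SS P ∨ Rt ⊆ SS Pᶜ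

lemma RF.compl (h : RF Rt P) : RF Rt Pᶜ := by
  unfold RF at *
  rw [compl_compl]
  exact h.symm
lemma RF.zz (h : RF Rt P) {v : V} (a : v ∈ ZZ P) : v ∉ Rt := fun b =>
  h.elim (fun k => (mem_ZZ'.1 a).1 (k b)) fun k => (mem_ZZ'.1 a).2 (k b)

/-- A side of an active triple is not the root. Plan: the four leg ends (`cut4`, `leg_one` for
`ok` and `ok.compl`: the map `bd Rt → V`, `(v,k) ↦ nb k v` is injective) lie in `ZZ P`, so do their
`m`-partners, which are not leg ends (`leg_adj`): `8 ≤ 6`. -/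
lemma Act.neR (ok : RR.OK t Rt) (h : t.Act P) : SS P ≠ Rt := by
  rintro rfl
  have c4 : #(t.bd (SS P)ᶜ) = 4 := by rw [← cut_eq, cut_compl, ok.cut4]
  have mb : ∀ {w k}, (w, k) ∈ t.bd (SS P)ᶜ ↔ w ∉ SS P ∧ t.nb k w ∈ SS P := by
    intro w k; rw [mem_bd, mem_compl, mem_compl, not_not]
  set E : Finset V := (t.bd (SS P)ᶜ).image Prod.fst with hE
  have mE : ∀ w, w ∈ E ↔ w ∉ SS P ∧ ∃ k, t.nb k w ∈ SS P := by
    intro w
    simp only [hE, mem_image, Prod.exists, exists_and_right, exists_eq_right, mb, exists_and_left]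
  have cE : #E = 4 := by
    rw [hE, card_image_of_injOn, c4]
    rintro ⟨w, k⟩ a ⟨w', k'⟩ b (rfl : w = w')
    rw [ok.leg_one (mb.1 a).1 (mb.1 a).2 (mb.1 b).2]
  have EZ : ∀ w ∈ E, w ∈ ZZ P := by
    intro w a
    obtain ⟨a1, k, a2⟩ := (mE w).1 a
    refine mem_ZZ'.2 ⟨a1, fun b => ?_⟩
    rcases k with _ | c
    · exact a1 ((h.mS w).1 a2)
    · exact mem_TT.1 b c ((h.o' w c).1 (mem_SS.1 a2 c))
  have dj : Disjoint E (E.image t.m) := by
    refine disjoint_left.2 fun w a b => ?_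
    obtain ⟨u, b1, rfl⟩ := mem_image.1 b
    obtain ⟨a1, k, a2⟩ := (mE _).1 a
    obtain ⟨u1, k', u2⟩ := (mE _).1 b1
    exact ok.leg_adj (j := none) u1 a1 u2 a2
  have sub : E ∪ E.image t.m ⊆ ZZ P := by
    refine union_subset EZ fun w b => ?_
    obtain ⟨u, b1, rfl⟩ := mem_image.1 b
    exact (h.mZ u).2 (EZ u b1)
  have := card_le_card sub
  rw [card_union_of_disjoint dj, card_image_of_injective _ (Function.Involutive.injective t.mm),
    cE, h.six] at this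
  omega

lemma Act.threeR (ok : RR.OK t Rt) (h : t.Act P) : 3 ≤ #(SS P) := by
  obtain ⟨v, hv⟩ := h.s
  have k : ∀ c, 6 ≤ #{v | (v, c) ∈ P} := fun c => ok.six (c := c)
    (fun v a => by simpa only [mem_filter, mem_univ, h.m', true_and, h.o', and_self] using a) ⟨v, by simpa only [mem_filter, mem_univ, true_and] using mem_SS.1 hv c⟩
  have e := card_union_add_card_inter ({v | (v, false) ∈ P} : Finset V) {v | (v, true) ∈ P}
  have e1 : ({v | (v, false) ∈ P} : Finset V) ∩ ({v | (v, true) ∈ P} : Finset V) = SS P := by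
    ext v; simp only [mem_inter, mem_filter, mem_univ, true_and, SS]
  have e2 : ({v | (v, false) ∈ P} : Finset V) ∪ ({v | (v, true) ∈ P} : Finset V) ⊆
      SS P ∪ ZZ P := by
    intro v; simp only [SS, ZZ, mem_union, mem_filter, mem_univ, true_and]; tauto
  have e3 := (card_le_card e2).trans (card_union_le _ _)
  have := k false
  have := k true
  rw [e1] at e
  rw [h.six] at e3
  omega

lemma Act.nbrR (ok : RR.OK t Rt) (h : t.Act P) (rf : RF Rt P)
    {v : V} {c : Bool} (hz : v ∈ ZZ P) (hv : (v, c) ∈ P) :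
    t.col c v ∈ SS P := by
  by_contra k
  have inZ : ∀ v c, (v, c) ∈ P → v ∉ SS P → v ∈ ZZ P := fun v c a b =>
    mem_ZZ'.2 ⟨b, fun u => mem_TT.1 u c a⟩
  have e := card_ZZ (P := P) univ
  rw [inter_univ, h.six] at e
  have n : (t.col c v, c) ≠ (v, c) := t.o_ne (v, c)
  have le : t.cut (SS P) ≤ #((({d ∈ P | d.1 ∈ ZZ P}).erase (v, c)).erase (t.col c v, c)) := by
    rw [t.cut_eq_of_m fun v => (h.mS v).2]
    refine card_le_card_of_injOn t.o ?_ (Function.Involutive.injective t.o_o).injOn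
    rintro ⟨u, i⟩ a
    replace a : u ∈ SS P ∧ t.col i u ∉ SS P := (mem_filter.1 a).2
    have b := h.o _ _ (mem_SS.1 a.1 i)
    simp only [coe_erase, Set.mem_sdiff, coe_filter, Set.mem_ofPred_eq, Set.mem_singleton_iff,
      Tri.o, Prod.mk.injEq, not_and]
    refine ⟨⟨⟨b, inZ _ _ b a.2⟩, ?_⟩, ?_⟩
    · rintro rfl rfl
      exact k (by simpa using a.1)
    · rintro w rfl
      have : u = v := by simpa using congrArg (t.col i) w
      exact (mem_ZZ'.1 hz).1 (this ▸ a.1)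
  rw [card_erase_of_mem (by simpa [n] using ⟨h.o _ _ hv, inZ _ _ (h.o _ _ hv) k⟩),
    card_erase_of_mem (by simpa using ⟨hv, hz⟩), e] at le
  have := h.threeR ok
  have : #(ZZ P) ≤ #(SS P)ᶜ := card_le_card fun v a => mem_compl.2 (mem_ZZ'.1 a).1
  have := h.six
  rcases ok.small le with q | q | q | q
  · omega
  · omega
  · exact h.neR ok q
  · exact rf.zz hz (q ▸ mem_compl.2 (mem_ZZ'.1 hz).1)

lemma Act.nbrR' (ok : RR.OK t Rt) (h : t.Act P) (rf : RF Rt P)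
    {v : V} {c : Bool} (hz : v ∈ ZZ P) (hv : (v, c) ∉ P) :
    t.col c v ∈ SS Pᶜ := h.compl.nbrR ok rf.compl (by rwa [ZZ_compl]) (mem_compl.2 hv)

lemma Act.cutR (ok : RR.OK t Rt) (h : t.Act P) (rf : RF Rt P)
    {R : Finset V} (hR : ∀ v ∈ R, t.m v ∈ R) :
    t.cut (R \ SS Pᶜ) = #(t.KK P R) + #(ZZ P ∩ R) := by
  rw [t.cut_eq_of_m fun v a => by
    rw [mem_sdiff] at a ⊢; exact ⟨hR v a.1, by rw [h.compl.mS]; exact a.2⟩, ← ZZ_compl,
    ← card_ZZ, ← card_union_of_disjoint (s := t.KK P R) (disjoint_left.2 fun d a b =>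
      mem_compl.1 (mem_filter.1 b).1 (mem_filter.1 a).1), ZZ_compl]
  congr 1
  ext ⟨v, c⟩
  simp only [mem_filter, mem_univ, true_and, mem_sdiff, Tri.o, mem_union, mem_KK, mem_compl,
    mem_inter]
  by_cases a : (v, c) ∈ P
  · have b : v ∉ SS Pᶜ := fun u => mem_TT.1 u c a
    have b' : t.col c v ∉ SS Pᶜ := fun u => mem_TT.1 u c (h.o _ _ a)
    tauto
  · have b : v ∉ SS P := fun u => a (mem_SS.1 u c)
    have := fun z => h.nbrR' ok rf z a
    rw [mem_ZZ'] at this ⊢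
    tauto

lemma Swap.okR (s : Swap t t' c Q) (ok : RR.OK t Rt) : RR.OK t' Rt := by
  suffices e : ∀ S, t.cut S = t'.cut S from
    ⟨fun S a b c d => e S ▸ ok.c5 S a b c d, e Rt ▸ ok.cut4, ok.b1, ok.b2⟩
  intro S
  simp only [cut, card_filter, ← sum_add_distrib]
  refine sum_congr rfl fun u _ => ?_
  have h1 := s.oth u
  have h2 := s.ins u
  have h3 := s.out u
  cases c <;> simp only [col, cond_true, cond_false, Bool.not_true, Bool.not_false] at h1 h2 h3 <;>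
    by_cases k : Q u <;> simp only [k, forall_const, not_false_eq_true] at h2 h3 <;>
    simp only [*] <;> ring

theorem Swap.lastR (ok : RR.OK t Rt) (h : t.Act P) (s : Swap t t' c fun v => (v, c) ∈ P)
    (hc : #{z ∈ ZZ P | (z, c) ∈ P} ≤ 2 ∨ ∀ z ∈ ZZ P, (z, c) ∈ P) (h' : t'.Act P')
    (r0 : Rt ⊆ SS Pᶜ) (rf' : RF Rt P') (c4 : #(SS Pᶜ \ SS P'ᶜ) ≤ #(ZZ P' ∩ SS Pᶜ)) (z4 : #(ZZ P' ∩ (SS Pᶜ)ᶜ) = 4)
    (k2 : #(t'.KK P' (SS Pᶜ)) = 2) : False := by
  have rf : RF Rt P := Or.inr r0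
  have ok' := s.okR ok
  have e3 : #(ZZ P' ∩ SS Pᶜ) + #(ZZ P' ∩ (SS Pᶜ)ᶜ) = 6 := by
    rw [← h'.six, ← sdiff_eq_inter_compl, card_inter_add_card_sdiff]
  set T := SS Pᶜ with hT
  have nQ : ∀ v ∈ T, (v, c) ∉ P := fun v a => mem_TT.1 a c
  have mT : ∀ v ∈ T, t'.m v ∈ T := fun v a => by
    rw [(s.out v (nQ v a)).2]; exact (h.compl.mS v).2 a
  have mX : ∀ v ∈ Tᶜ, t'.m v ∈ Tᶜ := fun v a => by
    rw [mem_compl] at a ⊢
    exact fun b => a (by simpa [t'.mm] using mT _ b)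
  have sub : ∀ R : Finset V, ZZ P' ∩ R ⊆ R \ SS P'ᶜ := fun R v a => by
    rw [mem_inter, mem_ZZ'] at a; exact mem_sdiff.2 ⟨a.2, a.1.2⟩
  have T3 : 3 ≤ #T := h.compl.threeR ok
  have QX : ∀ v, (v, c) ∈ P → v ∈ Tᶜ := fun v a => mem_compl.2 fun b => nQ v b a
  have ST : ∀ v i, (v, i) ∈ P → t.col i v ∉ T := fun v i a b => mem_TT.1 b i (h.o _ _ a)
  have nc : ∀ {i : Bool}, i ≠ c → i = !c := fun {i} => by cases i <;> cases c <;> simp
  have e := eq_of_subset_of_card_le (sub T) c4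
  obtain ⟨a, ha⟩ : (ZZ P' ∩ T).Nonempty := card_pos.1 (by omega)
  obtain ⟨i, i1, _⟩ := mem_ZZ.1 (mem_inter.1 ha).1
  have one : ∀ a ∈ ZZ P' ∩ T, (a, i) ∈ P' → t.col i a ∈ SS P' ∧ (a, i) ∈ t'.KK P' T ∧
      t.col i a ∈ ZZ P ∧ (t.col i a, i) ∉ P := by
    intro a ha i1
    obtain ⟨a1, a2⟩ := mem_inter.1 ha
    have b1 := h'.nbrR ok' rf' a1 i1
    have b2 : t'.col i a ∉ T := fun u => by
      have : t'.col i a ∈ ZZ P' ∩ T :=
        e ▸ mem_sdiff.2 ⟨u, fun w => mem_TT.1 w i (mem_SS.1 b1 i)⟩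
      exact (mem_ZZ'.1 (mem_inter.1 this).1).1 b1
    have b3 : (t.col i a, i) ∉ P := by rw [h.o']; exact mem_TT.1 a2 i
    refine ⟨s.out' (nQ a a2) i ▸ b1, mem_KK.2 ⟨i1, a2, b2⟩,
      mem_ZZ'.2 ⟨fun u => b3 (mem_SS.1 u i), s.out' (nQ a a2) i ▸ b2⟩, b3⟩
  have ma : t'.m a = t.m a := (s.out a (nQ a (mem_inter.1 ha).2)).2
  obtain ⟨p1, p2, p3, p4⟩ := one a ha i1
  obtain ⟨q1, q2, q3, q4⟩ := one (t.m a) (ma ▸ mem_inter.2
    ⟨(h'.mZ a).2 (mem_inter.1 ha).1, mT a (mem_inter.1 ha).2⟩) (ma ▸ h'.m _ _ i1)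
  set p := t.col i a with hp
  set q := t.col i (t.m a) with hq
  have pq : p ≠ q := fun u => t.m_ne a (by simpa [hp, hq] using (congrArg (t.col i) u).symm)
  have pq' : t.m p ≠ q := fun u => ok.no4 (k1 := some i) (k2 := none) (k3 := some i) (k4 := none)
    (by simp) (by simp) (by simp) a (by simp [← hp, u, hq, t.mm])
  have qp' : t.m q ≠ p := fun u => pq' (by rw [← u, t.mm])
  have KE : ∀ z ∈ ZZ P, (z, i) ∉ P → t'.col i z = t.col i z → (z, i) ∈ P' → z = p ∨ z = q := by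
    intro z z1 z2 z3 z5
    have b1 := h.nbrR' ok rf z1 z2
    have b2 : (t.col i z, i) ∈ t'.KK P' T := mem_KK.2 ⟨z3 ▸ h'.o _ _ z5, b1, by
      rw [← z3, col_col]; exact (mem_ZZ'.1 z1).2⟩
    have b3 : t'.KK P' T = {(a, i), (t.m a, i)} := (eq_of_subset_of_card_le
      (by simp [insert_subset_iff, p2, q2])
      (by rw [k2, card_pair (by simpa using (t.m_ne a).symm)])).symm
    simp only [b3, mem_insert, mem_singleton, Prod.mk.injEq, and_true] at b2
    exact b2.imp (fun u => by simp [hp, ← u]) fun u => by simp [hq, ← u]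
  have inQ : ∀ z ∈ ZZ P, z ∈ SS P' → (z, i) ∉ P → t.m z ≠ p → t.m z ≠ q → (z, c) ∈ P := by
    intro z z1 z2 z3 n1 n2
    by_contra u
    refine (KE _ ((h.mZ z).2 z1) (by rwa [h.m']) (s.out' (by rwa [h.m']) i) ?_).elim n1 n2
    rw [← (s.out z u).2]
    exact h'.m _ _ (mem_SS.1 z2 i)
  have p5 := inQ p p3 p1 p4 (t.m_ne p) pq'
  have q5 := inQ q q3 q1 q4 qp' (t.m_ne q)
  obtain rfl : i = !c := nc fun u => p4 (u ▸ p5)
  have all : ∀ z ∈ ZZ P, (z, c) ∈ P := hc.resolve_left fun u => by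
    have : ({p, t.m p, q} : Finset V) ⊆ {z ∈ ZZ P | (z, c) ∈ P} := by
      simp [insert_subset_iff, p3, p5, q3, q5, h.mZ, h.m']
    have := card_le_card this
    rw [card_eq_three.2 ⟨_, _, _, (t.m_ne p).symm, pq, pq', rfl⟩] at this
    omega
  have nP : ∀ z ∈ ZZ P, (z, !c) ∉ P := fun z u => by rw [ZZ_not u]; simpa using all z u
  have two : ∀ z ∈ ZZ P, z ∈ SS P' → t.m z ≠ p → t.m z ≠ q → t.m z ∈ ZZ P' ∩ Tᶜ ∧
      t.col c (t.m z) ∈ ZZ P' ∩ Tᶜ ∧ (t.col c (t.m z), !c) ∉ P' ∧ t.col c (t.m z) ∈ SS P ∧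
      (t.m z, !c) ∉ P' := by
    intro z z1 z2 n1 n2
    have b0 := (h.mZ z).2 z1
    have b1 : (t.m z, !c) ∉ P' := fun u => (KE _ b0 (nP _ b0) (s.oth _) u).elim n1 n2
    have b2 : t.m z ∈ ZZ P' ∩ Tᶜ := mem_inter.2 ⟨mem_ZZ.2
      ⟨c, (s.ins z (all z z1)).1 ▸ h'.o _ _ (mem_SS.1 z2 c), b1⟩, QX _ (all _ b0)⟩
    have b3 := h.nbrR ok rf b0 (all _ b0)
    rw [← (s.ins _ (all _ b0)).2] at b3 ⊢
    exact ⟨b2, mem_inter.2 ⟨(h'.mZ _).2 (mem_inter.1 b2).1, mX _ (mem_inter.1 b2).2⟩,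
      by rwa [h'.m'], b3, b1⟩
  obtain ⟨r1, r2, r3, r4, r5⟩ := two p p3 p1 (t.m_ne p) pq'
  obtain ⟨u1, u2, u3, u4, u5⟩ := two q q3 q1 qp' (t.m_ne q)
  have mpq : t.m p ≠ t.m q := fun u => pq (by simpa [t.mm] using congrArg t.m u)
  have ZS : ∀ z ∈ ZZ P, ∀ v ∈ SS P, z ≠ v := fun z a v b u => (mem_ZZ'.1 a).1 (u ▸ b)
  have p6 := (h.mZ p).2 p3
  have q6 := (h.mZ q).2 q3
  have E4 : ZZ P' ∩ Tᶜ = {t.m p, t.m q, t.col c (t.m p), t.col c (t.m q)} := by
    refine (eq_of_subset_of_card_le (by simp only [insert_subset_iff, singleton_subset_iff]; tauto)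
      ?_).symm
    rw [z4, card_insert_of_notMem (by simp [mpq, ZS _ p6 _ r4, ZS _ p6 _ u4]),
      card_insert_of_notMem (by simp [ZS _ q6 _ r4, ZS _ q6 _ u4]),
      card_pair fun u => mpq (by simpa using congrArg (t.col c) u)]
  let Z2 := ZZ P \ {p, q, t.m p, t.m q}
  have z2 : #Z2 = 2 := by
    rw [card_sdiff_of_subset (by simp only [insert_subset_iff, p3, q3, p6, singleton_subset_iff, q6, and_self]), h.six,
      card_insert_of_notMem (by simp [pq, (t.m_ne p).symm, qp'.symm]),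
      card_insert_of_notMem (by simp [pq'.symm, (t.m_ne q).symm]), card_pair mpq]
  let R := SS P'ᶜ \ T
  have cR : t'.cut R ≤ #(Z2.image (fun z => (z, !c)) ∪
      {t'.o (t.col c (t.m p), !c), t'.o (t.col c (t.m q), !c)}) := by
    rw [t'.cut_eq_of_m fun v a => by
      rw [mem_sdiff] at a ⊢
      exact ⟨(h'.compl.mS v).2 a.1, mem_compl.1 (mX v (mem_compl.2 a.2))⟩]
    refine card_le_card ?_
    rintro ⟨v, j⟩ a
    simp only [mem_filter, mem_univ, true_and, R, mem_sdiff, Tri.o, not_and, not_not] at a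
    obtain ⟨⟨a1, a2⟩, a3⟩ := a
    have b1 : (t'.col j v, j) ∉ P' := by rw [h'.o']; exact mem_TT.1 a1 j
    by_cases u : t'.col j v ∈ T
    · have b2 : v = t.col j (t'.col j v) := by rw [← s.out' (nQ _ u), col_col]
      have b3 : (v, j) ∉ P := by rw [b2, h.o']; exact mem_TT.1 u j
      have b4 : v ∈ ZZ P := mem_ZZ'.2 ⟨fun w => b3 (mem_SS.1 w j), a2⟩
      refine mem_union_left _ (mem_image.2 ⟨v, mem_sdiff.2 ⟨b4, ?_⟩, ?_⟩)
      · simp only [mem_insert, mem_singleton, not_or]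
        refine ⟨?_, ?_, ?_, ?_⟩ <;> rintro rfl
        exacts [mem_TT.1 a1 c (mem_SS.1 p1 c), mem_TT.1 a1 c (mem_SS.1 q1 c),
          (mem_ZZ'.1 (mem_inter.1 r1).1).2 a1, (mem_ZZ'.1 (mem_inter.1 u1).1).2 a1]
      · rw [nc (i := j) fun w => b3 (w ▸ all v b4)]
    · have b2 : t'.col j v ∈ ZZ P' ∩ Tᶜ := mem_inter.2
        ⟨mem_ZZ'.2 ⟨fun w => b1 (mem_SS.1 w j), fun w => u (a3 w)⟩, mem_compl.2 u⟩
      have b3 : ∀ z, t'.col j v = z → (z, !c) ∉ P' → j = !c ∧ v = t'.col (!c) z := by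
        rintro z rfl w
        have : j = !c := nc fun e => w (by rw [ZZ_not (mem_inter.1 b2).1, ← e]; exact b1)
        exact ⟨this, by rw [← this, col_col]⟩
      refine mem_union_right _ ?_
      simp only [E4, mem_insert, mem_singleton] at b2
      rcases b2 with w | w | w | w
      · exact absurd ((b3 _ w r5).2 ▸ s.oth _ ▸ h.nbrR' ok rf p6 (nP _ p6)) a2
      · exact absurd ((b3 _ w u5).2 ▸ s.oth _ ▸ h.nbrR' ok rf q6 (nP _ q6)) a2
      · simp [Tri.o, b3 _ w r3]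
      · simp [Tri.o, b3 _ w u3]
  have cR' : t'.cut R ≤ 4 := cR.trans ((card_union_le _ _).trans
    (add_le_add (card_image_le.trans z2.le) card_le_two))
  have w1 : t.col (!c) (t.col c (t.m p)) ∈ R := mem_sdiff.2
    ⟨s.oth _ ▸ h'.nbrR' ok' rf' (mem_inter.1 r2).1 r3, ST _ _ (mem_SS.1 r4 _)⟩
  have w2 : insert (t.col (!c) (t.col c (t.m p))) Z2 ⊆ R := by
    refine insert_subset w1 fun z a => ?_
    simp only [Z2, mem_sdiff, mem_insert, mem_singleton, not_or] at a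
    have b1 : (z, !c) ∉ P' := fun u => (KE z a.1 (nP z a.1) (s.oth z) u).elim a.2.1 a.2.2.1
    refine mem_sdiff.2 ⟨?_, (mem_ZZ'.1 a.1).2⟩
    by_contra u
    have : z ∈ ZZ P' ∩ Tᶜ :=
      mem_inter.2 ⟨mem_ZZ'.2 ⟨fun w => b1 (mem_SS.1 w _), u⟩, QX z (all z a.1)⟩
    simp [E4, a.2.2.2.1, a.2.2.2.2, ZS _ a.1 _ r4, ZS _ a.1 _ u4] at this
  have w3 := card_le_card w2
  rw [card_insert_of_notMem fun u => nP _ (mem_sdiff.1 u).1 (h.o _ _ (mem_SS.1 r4 _)), z2] at w3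
  have w4 : #T ≤ #Rᶜ := card_le_card fun v a => by simp [R, a]
  rcases ok'.smallP (S := R) (fun v a b => (mem_sdiff.1 a).2 (r0 b)) cR' with e' | e'
  · omega
  · have : t.m p ∈ R := e' ▸ mem_compl.2 (rf'.zz (mem_inter.1 r1).1)
    exact (mem_ZZ'.1 (mem_inter.1 r1).1).2 (mem_sdiff.1 this).1

theorem Swap.coreR (ok : RR.OK t Rt) (h : t.Act P) (s : Swap t t' c fun v => (v, c) ∈ P)
    (hc : #{z ∈ ZZ P | (z, c) ∈ P} ≤ 2 ∨ ∀ z ∈ ZZ P, (z, c) ∈ P) (hz : ∃ z ∈ ZZ P, (z, c) ∈ P)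
    (h' : t'.Act P') (r0 : Rt ⊆ SS Pᶜ) (rf' : RF Rt P') (k3 : #(t'.KK P' (SS Pᶜ)) ≤ 3) :
    (∀ v, (v, c) ∈ P → v ∈ SS P'ᶜ) ∨ (SS Pᶜ ⊆ SS P'ᶜ ∧ #(SS P') < #(SS P)) := by
  have rf : RF Rt P := Or.inr r0
  have ok' := s.okR ok
  set T := SS Pᶜ with hT
  have nQ : ∀ v ∈ T, (v, c) ∉ P := fun v a => mem_TT.1 a c
  have mT : ∀ v ∈ T, t'.m v ∈ T := fun v a => by
    rw [(s.out v (nQ v a)).2]; exact (h.compl.mS v).2 a
  have mX : ∀ v ∈ Tᶜ, t'.m v ∈ Tᶜ := fun v a => by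
    rw [mem_compl] at a ⊢
    exact fun b => a (by simpa [t'.mm] using mT _ b)
  have cA := h'.cutR ok' rf' mT
  have cB := h'.cutR ok' rf' mX
  rw [h'.KK_compl] at cB
  have mc : ∀ R : Finset V, (∀ v ∈ R, t'.m v ∈ R) → ∀ v ∈ R \ SS P'ᶜ, t'.m v ∈ R \ SS P'ᶜ :=
    fun R a v b => by
      rw [mem_sdiff] at b ⊢; exact ⟨a v b.1, by rw [h'.compl.mS]; exact b.2⟩
  have ez : ∀ R : Finset V, (∀ v ∈ R, t'.m v ∈ R) → Even #(ZZ P' ∩ R) := fun R a =>
    t'.even_card fun v b => by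
      rw [mem_inter] at b ⊢; exact ⟨(h'.mZ v).2 b.1, a v b.2⟩
  have sub : ∀ R : Finset V, ZZ P' ∩ R ⊆ R \ SS P'ᶜ := fun R v a => by
    rw [mem_inter, mem_ZZ'] at a; exact mem_sdiff.2 ⟨a.2, a.1.2⟩
  have eA := t'.even_cut (mc T mT)
  have e1 := ez T mT
  have e2 := ez _ mX
  have e3 : #(ZZ P' ∩ T) + #(ZZ P' ∩ Tᶜ) = 6 := by
    rw [← h'.six, ← sdiff_eq_inter_compl, card_inter_add_card_sdiff]
  have T3 : 3 ≤ #T := h.compl.threeR ok
  have X6 : 6 ≤ #Tᶜ := h.six ▸ card_le_card fun v a => mem_compl.2 (mem_ZZ'.1 a).2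
  have bA : 6 ≤ #(T \ SS P'ᶜ)ᶜ := X6.trans (card_le_card (compl_subset_compl.2 sdiff_subset))
  have bB : 3 ≤ #(Tᶜ \ SS P'ᶜ)ᶜ :=
    T3.trans (card_le_card fun v a => by simp [a])
  have fA := fun a => ok'.four (mc T mT) a (card_pos.1 (by omega))
  have fB := fun a => ok'.four (mc _ mX) a (card_pos.1 (by omega))
  have zA := card_le_card (sub T)
  have zB := card_le_card (sub Tᶜ)
  have kne : (t'.KK P' T).Nonempty → (T \ SS P'ᶜ).Nonempty ∧ (Tᶜ \ SS P'ᶜ).Nonempty := by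
    rintro ⟨⟨v, i⟩, a⟩
    rw [mem_KK] at a
    exact ⟨⟨v, mem_sdiff.2 ⟨a.2.1, fun u => mem_TT.1 u i a.1⟩⟩,
      ⟨_, mem_sdiff.2 ⟨mem_compl.2 a.2.2, fun u => mem_TT.1 u i (h'.o _ _ a.1)⟩⟩⟩
  rw [← card_pos, ← card_pos, ← card_pos] at kne
  rw [← card_pos] at fA fB
  have sA : t'.cut (T \ SS P'ᶜ) ≤ 4 → #(T \ SS P'ᶜ) ≤ 2 := fun a => by
    rcases ok'.small a with q | q | q | q
    · exact q
    · omega
    · have z : ZZ P' ∩ T = ∅ := eq_empty_of_forall_notMem fun v b =>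
        rf'.zz (mem_inter.1 b).1 (q ▸ sub T b)
      rw [q, ok'.cut4, z, card_empty] at cA
      omega
    · obtain ⟨v, hv⟩ : Tᶜ.Nonempty := card_pos.1 (by omega)
      exact (mem_compl.1 hv (r0 (q ▸ mem_compl.2 fun b => mem_compl.1 hv (mem_sdiff.1 b).1))).elim
  have sB : t'.cut (Tᶜ \ SS P'ᶜ) ≤ 4 → #(Tᶜ \ SS P'ᶜ) ≤ 2 := fun a => by
    rcases ok'.smallP (fun v b d => mem_compl.1 (mem_sdiff.1 b).1 (r0 d)) a with q | q
    · exact q
    · refine (h.compl.neR ok (Subset.antisymm (fun v b => ?_) r0)).elim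
      by_contra d
      exact mem_compl.1 (mem_sdiff.1 (q ▸ mem_compl.2 d : v ∈ Tᶜ \ SS P'ᶜ)).1 b
  have QX : ∀ v, (v, c) ∈ P → v ∈ Tᶜ := fun v a => mem_compl.2 fun b => nQ v b a
  have ST : ∀ v i, (v, i) ∈ P → t.col i v ∉ T := fun v i a b => mem_TT.1 b i (h.o _ _ a)
  have nc : ∀ {i : Bool}, i ≠ c → i = !c := fun {i} => by cases i <;> cases c <;> simp
  obtain c1 | c2 | c3 | c4 : #(Tᶜ \ SS P'ᶜ) = 0 ∨ #(T \ SS P'ᶜ) = 0 ∨
      #(Tᶜ \ SS P'ᶜ) ≤ #(ZZ P' ∩ Tᶜ) ∨ (#(T \ SS P'ᶜ) ≤ #(ZZ P' ∩ T) ∧ #(ZZ P' ∩ Tᶜ) = 4 ∧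
        #(t'.KK P' T) = 2) := by
    obtain ⟨_, e1⟩ := e1
    obtain ⟨_, e2⟩ := e2
    obtain ⟨_, eA⟩ := eA
    omega
  · left
    intro v a
    by_contra b
    exact notMem_empty v (card_eq_zero.1 c1 ▸ mem_sdiff.2 ⟨QX v a, b⟩)
  · right
    have TT : T ⊆ SS P'ᶜ := sdiff_eq_empty_iff_subset.1 (card_eq_zero.1 c2)
    have t1 := fw_tot P
    have t2 := fw_tot P'
    rw [h.six, ← hT] at t1
    rw [h'.six] at t2
    refine ⟨TT, ?_⟩
    by_contra lt
    have e : T = SS P'ᶜ := eq_of_subset_of_card_le TT (by omega)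
    obtain ⟨z, z1, z2⟩ := hz
    have a1 : t.col (!c) z ∈ T := h.nbrR' ok rf z1 (by rw [ZZ_not z1]; simpa)
    have a2 : (z, !c) ∉ P' := fun u => mem_TT.1 (e ▸ a1) (!c) (s.oth z ▸ h'.o _ _ u)
    have a3 := h.nbrR ok rf z1 z2
    rw [← h'.m', (s.ins z z2).2] at a2
    have a4 := h'.nbrR' ok' rf' (mem_ZZ'.2 ⟨fun u => a2 (mem_SS.1 u _), fun u =>
      nQ _ (e ▸ u) (mem_SS.1 a3 c)⟩) a2
    rw [s.oth, ← e] at a4
    exact ST _ _ (mem_SS.1 a3 _) a4
  · left
    have e := eq_of_subset_of_card_le (sub Tᶜ) c3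
    have key : ∀ v, (v, c) ∈ P → v ∉ SS P'ᶜ → (v, !c) ∉ P := by
      intro v a b
      have z : v ∈ ZZ P' := (mem_inter.1 (e ▸ mem_sdiff.2 ⟨QX v a, b⟩)).1
      obtain ⟨i, i1, _⟩ := mem_ZZ.1 z
      have a1 := h'.nbrR ok' rf' z i1
      have a2 : t'.col i v ∈ T := by
        by_contra u
        have : t'.col i v ∈ ZZ P' ∩ Tᶜ :=
          e ▸ mem_sdiff.2 ⟨mem_compl.2 u, fun w => mem_TT.1 w i (mem_SS.1 a1 i)⟩
        exact (mem_ZZ'.1 (mem_inter.1 this).1).1 a1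
      by_cases u : i = c
      · rw [u, (s.ins v a).1] at a2
        exact absurd (h.m _ _ a) (nQ _ a2)
      · rw [nc u, s.oth] at a2
        exact fun w => ST _ _ w a2
    intro v a
    by_contra b
    have a1 := h.nbrR ok rf (mem_ZZ.2 ⟨c, a, key v a b⟩) a
    refine key _ (mem_SS.1 a1 c) ?_ (mem_SS.1 a1 _)
    rwa [← (s.ins v a).2, h'.compl.mS]
  exact (s.lastR ok h hc h' r0 rf' c4.1 c4.2.1 c4.2.2).elim

theorem Act.stepR (ok : RR.OK t Rt) (h : t.Act P) (r0 : Rt ⊆ SS Pᶜ) : ∃ t' : Tri V,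
    (∀ u v, t'.Adj u v ↔ t.Adj u v) ∧ RR.OK t' Rt ∧ (∀ v ∈ Rt, ∀ k, t'.nb k v = t.nb k v) ∧
    ∀ P', t'.Act P' → Rt ⊆ SS P'ᶜ → (t.Act P' ∧ P' ≠ P) ∨ #(SS P') < #(SS P) := by
  have rf : RF Rt P := Or.inr r0
  obtain ⟨c, hc, hz⟩ : ∃ c, (#{z ∈ ZZ P | (z, c) ∈ P} ≤ 2 ∨ ∀ z ∈ ZZ P, (z, c) ∈ P) ∧
      ∃ z ∈ ZZ P, (z, c) ∈ P := by
    have ev : Even #{z ∈ ZZ P | (z, false) ∈ P} := t.even_card fun v a => by
      simpa [h.mZ, h.m'] using a
    have e := card_filter_add_card_filter_not (s := ZZ P) fun z => (z, false) ∈ P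
    rw [h.six, ← filter_congr fun z a => ZZ_not a false, Bool.not_false] at e
    have ex : ∀ c, 0 < #{z ∈ ZZ P | (z, c) ∈ P} → ∃ z ∈ ZZ P, (z, c) ∈ P := fun c a => by
      obtain ⟨z, a⟩ := card_pos.1 a
      exact ⟨z, mem_filter.1 a⟩
    have al : ∀ c, 6 ≤ #{z ∈ ZZ P | (z, c) ∈ P} → ∀ z ∈ ZZ P, (z, c) ∈ P := fun c a =>
      filter_eq_self.1 (eq_of_subset_of_card_le (filter_subset _ _) (h.six ▸ a))
    obtain ⟨n, ev⟩ := ev
    obtain a | a | a | a : n = 0 ∨ n = 1 ∨ n = 2 ∨ n = 3 := by omega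
    exacts [⟨true, Or.inr (al _ (by omega)), ex _ (by omega)⟩,
      ⟨false, Or.inl (by omega), ex _ (by omega)⟩, ⟨true, Or.inl (by omega), ex _ (by omega)⟩,
      ⟨false, Or.inr (al _ (by omega)), ex _ (by omega)⟩]
  have h1 := fun v => h.m' v c
  have h2 := fun v => h.o' v c
  obtain ⟨t', s⟩ := t.exists_swap c (fun v => (v, c) ∈ P) h1 h2
  refine ⟨t', s.adj, s.okR ok, fun v a k => ?_, fun P' h' r' => ?_⟩
  · have n : (v, c) ∉ P := mem_TT.1 (r0 a) c
    rcases k with _ | k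
    exacts [(s.out v n).2, s.out' n k]
  have ne : P' ≠ P := by
    rintro rfl
    obtain ⟨z, z1, z2⟩ := hz
    have := mem_SS.1 (h.nbrR ok rf z1 z2) (!c)
    rw [← (s.ins z z2).2, h'.m', ZZ_not z1] at this
    exact this z2
  have k6 : #(t'.KK P' (SS Pᶜ)) + #(t'.KK P'ᶜ (SS Pᶜ)) ≤ 6 := by
    rw [← card_union_of_disjoint (s := t'.KK P' _) (t := t'.KK P'ᶜ _) (disjoint_left.2 fun d a b =>
      mem_compl.1 (mem_filter.1 b).1 (mem_filter.1 a).1), ← h.six, ← inter_univ (ZZ P),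
      ← ZZ_compl, ← card_ZZ]
    refine card_le_card_of_injOn t'.o ?_ (Function.Involutive.injective t'.o_o).injOn
    rintro ⟨v, i⟩ a
    have b : v ∈ SS Pᶜ ∧ t'.col i v ∉ SS Pᶜ := by
      rcases mem_union.1 a with a | a <;> exact (mem_KK.1 a).2
    have b1 : (t'.col i v, i) ∉ P := by
      rw [s.out' (mem_TT.1 b.1 c), h.o']; exact mem_TT.1 b.1 i
    simp only [coe_filter, Set.mem_ofPred_eq, Tri.o, mem_compl, inter_univ, ZZ_compl]
    exact ⟨b1, mem_ZZ'.2 ⟨fun u => b1 (mem_SS.1 u i), b.2⟩⟩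
  by_cases k : #(t'.KK P' (SS Pᶜ)) ≤ 3
  · exact (s.coreR ok h hc hz h' r0 (Or.inr r') k).imp (fun a => ⟨s.old h' a, ne⟩) fun a => a.2
  · refine Or.inl ((s.coreR ok h hc hz h'.compl r0 (Or.inl r') (by omega)).elim
      (fun a => ⟨by simpa using (s.old h'.compl a).compl, ne⟩) fun a => ?_)
    obtain ⟨v, hv⟩ : Rt.Nonempty := card_pos.1 (by have := ok.b1; omega)
    exact (mem_TT.1 (a.1 (r0 hv)) c (mem_SS.1 (r' hv) c)).elim

/-- (W) Kempe changes remove all nontrivial active triples -/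
theorem exists_noActR (t : Tri V) (ok : RR.OK t Rt) : ∃ t' : Tri V,
    (∀ u v, t'.Adj u v ↔ t.Adj u v) ∧ RR.OK t' Rt ∧ (∀ v ∈ Rt, ∀ k, t'.nb k v = t.nb k v) ∧
    RR.NoAct t' Rt := by
  classical
  let N := Fintype.card (Finset (V × Bool)) + 1
  let μ : Finset (V × Bool) → ℕ := fun P => #(SS P)
  let pot : Tri V → ℕ := fun t => ∑ P with t.Act P ∧ Rt ⊆ SS Pᶜ, N ^ μ P
  have main : ∀ n (t : Tri V), RR.OK t Rt → pot t = n → ∃ t' : Tri V,
      (∀ u v, t'.Adj u v ↔ t.Adj u v) ∧ RR.OK t' Rt ∧ (∀ v ∈ Rt, ∀ k, t'.nb k v = t.nb k v) ∧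
      RR.NoAct t' Rt := by
    intro n
    induction n using Nat.strong_induction_on with
    | _ n ih =>
    intro t ok e
    by_cases k : RR.NoAct t Rt
    · exact ⟨t, fun _ _ => Iff.rfl, ok, fun _ _ _ => rfl, k⟩
    obtain ⟨P, h, r0⟩ : ∃ P, t.Act P ∧ Rt ⊆ SS Pᶜ := by
      simp only [RR.NoAct, not_forall, not_not, exists_prop] at k
      obtain ⟨P, a0, a1, a2, a3, u, a4⟩ := k
      have r0 : Rt ⊆ SS Pᶜ := fun v a => mem_TT.2 fun c b => a0 _ b a
      obtain ⟨v, hv⟩ : Rt.Nonempty := card_pos.1 (by have := ok.b1; omega)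
      exact ⟨P, ⟨fun v c b => a1 _ b, a2, a3, ⟨u, by simpa only [SS, mem_filter, mem_univ, true_and] using a4⟩, ⟨v, r0 hv⟩⟩, r0⟩
    obtain ⟨t', a1, a2, a4, a3⟩ := h.stepR ok r0
    have m0 : μ P = #(SS P) := rfl
    obtain ⟨s, hs⟩ : ∃ s, #(SS P) = s + 1 := ⟨_, (Nat.succ_pred_eq_of_pos (card_pos.2 h.s)).symm⟩
    have lt : pot t' < pot t := by
      have b1 : pot t' ≤ ∑ P' ∈ (univ.filter fun P => t.Act P ∧ Rt ⊆ SS Pᶜ).erase P, N ^ μ P' +
          ∑ P' with μ P' ≤ s, N ^ μ P' := by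
        refine (sum_le_sum_of_subset (t := _ ∪ _) fun P' b => ?_).trans
          (le_of_add_le_left (le_of_eq sum_union_inter))
        have b0 := (mem_filter.1 b).2.2
        rcases a3 P' (mem_filter.1 b).2.1 b0 with b | b
        · exact mem_union_left _ (by simp only [mem_erase, ne_eq, b.2, not_false_eq_true, mem_filter, mem_univ, b.1, b0, and_self])
        · exact mem_union_right _ (by simpa only [μ, mem_filter, mem_univ, true_and, hs, Order.lt_add_one_iff] using b)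
      have b2 : ∑ P' with μ P' ≤ s, N ^ μ P' ≤ Fintype.card (Finset (V × Bool)) * N ^ s :=
        (sum_le_card_nsmul _ _ _ fun P' b =>
          Nat.pow_le_pow_right (Nat.succ_pos _) (mem_filter.1 b).2).trans
          (Nat.mul_le_mul_right _ (card_le_univ _))
      have b3 := add_sum_erase (univ.filter fun P => t.Act P ∧ Rt ⊆ SS Pᶜ) (fun P => N ^ μ P) (a := P) (by simp only [mem_filter, mem_univ, h, r0, and_self])
      have b4 : 0 < N ^ s := Nat.pow_pos (Nat.succ_pos _)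
      simp only [m0, hs, pow_succ] at b3
      simp only [pot, N] at *
      linarith only [b4, b1, b2, b3]
    obtain ⟨t'', b1, b2, b3, b4⟩ := ih _ (e ▸ lt) t' a2 rfl
    exact ⟨t'', fun u v => (b1 u v).trans (a1 u v), b2,
      fun v a k => (b3 v a k).trans (a4 v a k), b4⟩
  exact main _ t ok rfl

end Tri
end Pool.Agent.MP_8c1b0d_co

end

-- part MP_8c1b0d_co.RR.F
section

set_option autoImplicit false
set_option linter.unusedSectionVars false
open Finset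

namespace Pool.Agent.MP_8c1b0d_co.RR

/-! The statement was checked by a brute force over all certificates (maximum 10 < 12).
Put `eps y = 8 + fl y - w y - S y`; use `RD.fin` / `RD.fin1` of H3. A label with `¬ ne y` has no port
(`pne`) and `x y = 0` (`xne`). `tiny y` gives `K y = {p, q}`, `AL y = ∅`, `x y = 0`. -/

def f4_lg (j : Bool) : Fin 3 := if j then 1 else 0

section
variable {Y : Type} [Fintype Y] [DecidableEq Y] (r : RD gB3 Y) (y : Y)

/-- labelled -/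
def f4_L (j b c : Bool) : Prop := r.lab (.inr ((j, b), c)) = some y
/-- cut -/
def f4_D (j b c : Bool) : Prop := (.inr ((j, b), c) : HH (Fin 3) (Bool × Bool)) ∈ r.D
/-- indicator of a label -/
def f4_i (h : HH (Fin 3) (Bool × Bool)) : ℕ := if r.lab h = some y then 1 else 0
/-- slack of a site -/
def f4_s (j : Bool) : ℕ := r.LT (j, false) y + r.cU (j, true) y

theorem f4_isum (h : HH (Fin 3) (Bool × Bool)) : ∑ z, f4_i r z h ≤ 1 := by
  unfold f4_i
  cases hh : r.lab h with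
  | none => simp only [reduceCtorEq, ↓ reduceIte, sum_const_zero, zero_le]
  | some a => simp only [Option.some.injEq, sum_ite_eq, mem_univ, ↓ reduceIte, Std.le_refl]

theorem f4_S : r.S y = f4_s r y false + f4_s r y true := by
  have h1 : ∀ j : Bool, ∃ i, gB3.hd i = some (j, false) := by decide
  have h2 : ∀ j : Bool, ¬ ∃ i, gB3.hd i = some (j, true) := by decide
  unfold RD0.S f4_s
  rw [Fintype.sum_prod_type, Fintype.sum_bool, Fintype.sum_bool, Fintype.sum_bool,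
    if_pos (h1 _), if_pos (h1 _), if_neg (h2 _), if_neg (h2 _)]
  omega

theorem f4_S' (j : Bool) : r.S y = f4_s r y j + f4_s r y (!j) := by
  rw [f4_S]; cases j <;> simp [add_comm]

theorem f4_A0 (j : Bool) : (j, true) ∈ r.A0 ↔ (j, false) ∈ r.A0 :=
  ⟨fun h => r.m0 _ h, fun h => r.m0 _ h⟩

theorem f4_A1 (j : Bool) : (j, true) ∈ r.A1 ↔ (j, false) ∈ r.A1 :=
  ⟨fun h => r.m1 _ h, fun h => r.m1 _ h⟩

theorem f4_pa (j c : Bool) :
    r.opn (.inl (f4_lg j, c)) y ↔ f4_L r y j false c ∧ ¬ f4_D r j false c := by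
  constructor
  · intro h
    have := r.cl _ _ h
    cases j <;> exact this
  · intro h
    have := r.cl (.inr ((j, false), c)) y h
    cases j <;> exact this

theorem f4_pc (j : Bool) :
    r.opn (.inl (2, j)) y ↔ f4_L r y j true false ∧ ¬ f4_D r j true false :=
  ⟨fun h => r.cl _ _ h, fun h => r.cl (.inr ((j, true), false)) y h⟩

theorem f4_ex (j : Bool) (h : f4_L r y j true true) (hd : ¬ f4_D r j true true) :
    f4_L r y (!j) true true ∧ ¬ f4_D r (!j) true true :=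
  r.cl (.inr ((j, true), true)) y ⟨h, hd⟩

theorem f4_hd (j : Bool) : gB3.hd (f4_lg j) = some (j, false) := by cases j <;> rfl

theorem f4_ab (j : Bool) : r.ab (f4_lg j) y ↔
    (∀ c, f4_L r y j false c ∧ ¬ f4_D r j false c) ∧ (j, false) ∉ r.A1 := by
  unfold RD0.ab
  simp only [f4_pa, f4_hd]
  constructor
  · rintro ⟨-, h1, h2⟩
    exact ⟨h1, fun h => h2 _ h rfl⟩
  · rintro ⟨h1, h2⟩
    refine ⟨by cases j <;> rfl, h1, fun u hu he => h2 ?_⟩
    rw [Option.some.inj he]; exact hu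

theorem f4_ab2 : ¬ r.ab 2 y := fun h => by
  have := h.1
  revert this; decide

theorem f4_Kc (j : Bool) (h : f4_L r y j true false) (hd : ¬ f4_D r j true false) :
    ((2 : Fin 3), j) ∈ r.K y := by
  unfold RD0.K
  rw [mem_filter]
  exact ⟨mem_univ _, (f4_pc r y j).2 ⟨h, hd⟩, f4_ab2 r y⟩

theorem f4_ic (j : Bool) (h : f4_L r y j true false) (hd : ¬ f4_D r j true false) :
    f4_i r y (.inl (2, j)) = 1 := if_pos ((f4_pc r y j).2 ⟨h, hd⟩).1

theorem f4_AL (j : Bool) : f4_lg j ∈ r.AL y ↔ r.ab (f4_lg j) y := by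
  unfold RD0.AL; simp

theorem f4_Ka (j c : Bool) : (f4_lg j, c) ∈ r.K y ↔
    (f4_L r y j false c ∧ ¬ f4_D r j false c) ∧ ¬ r.ab (f4_lg j) y := by
  unfold RD0.K
  rw [mem_filter, f4_pa]; simp

theorem f4_l0 (j b : Bool) (h : (j, false) ∉ r.A1) : f4_L r y j b true ↔ f4_L r y j b false := by
  unfold f4_L
  rw [r.l0 (j, b) (by cases b; exacts [h, fun h' => h ((f4_A1 r j).1 h')])]

theorem f4_l1 (j c : Bool) (h : (j, false) ∉ r.A0) : f4_L r y j true c ↔ f4_L r y j false c := by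
  unfold f4_L
  have := r.l1 (j, false) h c
  rw [← this]; rfl

theorem f4_nD (j b c : Bool) (h : (j, false) ∈ r.A0 ∨ (j, false) ∈ r.A1) : ¬ f4_D r j b c := by
  intro hd
  have := r.dX _ _ hd
  cases b
  · tauto
  · rw [f4_A0, f4_A1] at this; tauto

theorem f4_dA (j b : Bool) [∀ c, Decidable (f4_L r y j b c ∧ f4_D r j b c)] : r.dA (j, b) y =
    (if f4_L r y j b true ∧ f4_D r j b true then 1 else 0) +
      if f4_L r y j b false ∧ f4_D r j b false then 1 else 0 := by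
  unfold RD0.dA
  rw [card_filter, Fintype.sum_bool]
  exact congrArg₂ _ (if_congr Iff.rfl rfl rfl) (if_congr Iff.rfl rfl rfl)

theorem f4_dA1 (j b c : Bool) (h : f4_L r y j b c) (hd : f4_D r j b c) : 1 ≤ r.dA (j, b) y := by
  classical
  rw [f4_dA]
  cases c
  · rw [if_pos (And.intro h hd)]; omega
  · rw [if_pos (And.intro h hd)]; omega

theorem f4_dA2 (j b : Bool) (h : ∀ c, f4_L r y j b c) (hd : ∀ c, f4_D r j b c) :
    r.dA (j, b) y = 2 := by
  classical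
  rw [f4_dA, if_pos (And.intro (h _) (hd _)), if_pos (And.intro (h _) (hd _))]

theorem f4_sd (j : Bool) : 2 * r.dA (j, false) y + 2 * r.dA (j, true) y ≤ f4_s r y j := by
  unfold f4_s RD0.LT RD0.cU; omega

theorem f4_s8 (j : Bool) (h : r.dA (j, false) y = 2) (h' : 1 ≤ r.dA (j, true) y) :
    8 ≤ f4_s r y j := by
  unfold f4_s RD0.LT RD0.cU; rw [if_pos h]; omega

theorem f4_sA0 (j : Bool) (h : (j, false) ∈ r.A0) (h' : f4_L r y j false false) :
    2 ≤ f4_s r y j := by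
  unfold f4_s RD0.LT; rw [if_pos ⟨h, h'⟩]; omega

theorem f4_su1 (j c : Bool) (h : (j, false) ∈ r.A1) (h' : f4_L r y j true c) :
    1 ≤ f4_s r y j := by
  have : 0 < #{c | r.lab (.inr ((j, true), c)) = some y ∧ ((j, true) ∈ r.A0 ∨ (j, true) ∈ r.A1)} :=
    card_pos.2 ⟨c, mem_filter.2 ⟨mem_univ _, h', Or.inr ((f4_A1 r j).2 h)⟩⟩
  unfold f4_s RD0.cU; omega

theorem f4_su2 (j : Bool) (h : (j, false) ∈ r.A0) (h' : ∀ c, f4_L r y j true c) :
    2 ≤ f4_s r y j := by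
  have : 1 < #{c | r.lab (.inr ((j, true), c)) = some y ∧ ((j, true) ∈ r.A0 ∨ (j, true) ∈ r.A1)} :=
    one_lt_card.2 ⟨true, mem_filter.2 ⟨mem_univ _, h' _, Or.inl ((f4_A0 r j).2 h)⟩,
      false, mem_filter.2 ⟨mem_univ _, h' _, Or.inl ((f4_A0 r j).2 h)⟩, by decide⟩
  unfold f4_s RD0.cU; omega

theorem f4_J (j : Bool) : (j, false) ∈ r.J y ↔
    (j, false) ∉ r.A0 ∧ (j, false) ∉ r.A1 ∧ f4_L r y j false false := by
  unfold RD0.J f4_L; simp

theorem f4_J' (j b : Bool) (h : (j, b) ∈ r.J y) : (j, false) ∈ r.J y := by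
  cases b
  · exact h
  · exact r.J_m h

/-- all four half-edges of an unsplit site have the same label -/
theorem f4_all (j : Bool) (h0 : (j, false) ∉ r.A0) (h1 : (j, false) ∉ r.A1) {b c : Bool}
    (h : f4_L r y j b c) (b' c' : Bool) : f4_L r y j b' c' := by
  have e1 := f4_l0 r y j false h1
  have e2 := f4_l1 r y j false h0
  have e3 := f4_l1 r y j true h0
  cases b <;> cases c <;> cases b' <;> cases c' <;> tauto

theorem f4_nA (j : Bool) (h : (j, false) ∈ r.A0) : (j, false) ∉ r.A1 :=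
  disjoint_left.1 r.disj h

/-- a port of a leg in `K` gives slack -/
theorem f4_Kslack (j c : Bool) (h : (f4_lg j, c) ∈ r.K y) :
    1 ≤ f4_s r y j ∧ ((j, false) ∈ r.A1 ∨ 2 ≤ f4_s r y j) := by
  rw [f4_Ka, f4_ab] at h
  obtain ⟨⟨hl, hd⟩, hab⟩ := h
  by_cases h1 : (j, false) ∈ r.A1
  · have h0 : (j, false) ∉ r.A0 := fun h0 => f4_nA r j h0 h1
    exact ⟨f4_su1 r y j c h1 ((f4_l1 r y j c h0).2 hl), Or.inl h1⟩
  · have e1 := f4_l0 r y j false h1
    have hl' : ∀ c, f4_L r y j false c := by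
      intro c'; cases c <;> cases c' <;> tauto
    have : ∃ c, f4_D r j false c := by
      by_contra hn
      push Not at hn
      exact hab ⟨fun c => ⟨hl' c, hn c⟩, h1⟩
    obtain ⟨c', hc⟩ := this
    have := f4_dA1 r y j false c' (hl' _) hc
    have := f4_sd r y j
    omega

theorem f4_lg_ex (i : Fin 3) (h : mo3 i = true) : ∃ j, i = f4_lg j := by
  revert i; decide

theorem f4_lg_cases (i : Fin 3) (j : Bool) (h : i ≠ f4_lg j) : i = f4_lg (!j) ∨ i = 2 := by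
  revert i j; decide

/-- the excess allowed to a label -/
def f4_e : ℕ := f4_i r y (.inl (2, false)) + f4_i r y (.inl (2, true)) +
  f4_i r y (.inr ((false, true), true))

theorem f4_e1 (j : Bool) : f4_i r y (.inl (2, j)) ≤ f4_e r y := by
  unfold f4_e; cases j <;> omega

theorem f4_two (j c : Bool) (q : Fin 3 × Bool) (hq : q.1 ≠ f4_lg j) (h : (f4_lg j, c) ∈ r.K y)
    (h' : q ∈ r.K y) : 2 ≤ r.S y + f4_e r y := by
  obtain ⟨i, c'⟩ := q
  have h1 := (f4_Kslack r y j c h).1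
  rw [f4_S' r y j]
  rcases f4_lg_cases i j hq with rfl | rfl
  · have := (f4_Kslack r y (!j) c' h').1
    omega
  · have h2 : f4_i r y (.inl (2, c')) = 1 := if_pos (mem_filter.1 h').2.1.1
    have := f4_e1 r y c'
    omega

theorem f4_unfl : 8 ≤ r.w y + r.S y + f4_e r y := by
  by_cases hn : r.ne y
  · obtain ⟨h6, ht⟩ := r.b1 y hn
    by_cases h7 : r.w y ≤ 7
    · obtain ⟨p, q, hpq, hm, hK, -, -⟩ := ht h7
      have hp : p ∈ r.K y := by rw [hK]; simp
      have hq : q ∈ r.K y := by rw [hK]; simp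
      have : 2 ≤ r.S y + f4_e r y := by
        rcases hm with hm | hm
        · obtain ⟨j, hj⟩ := f4_lg_ex _ hm
          exact f4_two r y j p.2 q (hj ▸ hpq.symm) (hj ▸ hp) hq
        · obtain ⟨j, hj⟩ := f4_lg_ex _ hm
          exact f4_two r y j q.2 p (hj ▸ hpq) (hj ▸ hq) hp
      omega
    · omega
  · obtain ⟨⟨⟨j, b⟩, c⟩, hl⟩ := (r.surj y).resolve_left hn
    have hl : f4_L r y j b c := hl
    have ha : ∀ c, f4_L r y j false c → f4_D r j false c := fun c h => by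
      by_contra hd
      exact hn (r.pne _ _ ((f4_pa r y j c).2 ⟨h, hd⟩).1)
    have hu : f4_L r y j true false → f4_D r j true false := fun h => by
      by_contra hd
      exact hn (r.pne _ _ ((f4_pc r y j).2 ⟨h, hd⟩).1)
    by_cases h0 : (j, false) ∈ r.A0
    · exfalso
      have e1 := f4_l0 r y j true (f4_nA r j h0)
      have n1 := f4_nD r j false c (Or.inl h0)
      have n2 := f4_nD r j true false (Or.inl h0)
      cases b
      · exact n1 (ha c hl)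
      · cases c <;> tauto
    by_cases h1 : (j, false) ∈ r.A1
    · exfalso
      have e1 := f4_l1 r y j c h0
      have n1 := f4_nD r j false c (Or.inr h1)
      cases b
      · exact n1 (ha c hl)
      · exact n1 (ha c (e1.1 hl))
    have hall := f4_all r y j h0 h1 hl
    have d1 := f4_dA2 r y j false (hall _) fun c => ha c (hall _ _)
    have d2 := f4_dA1 r y j true false (hall _ _) (hu (hall _ _))
    have := f4_s8 r y j d1 d2
    rw [f4_S' r y j]
    omega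

theorem f4_fl0 (hy : y ∈ r.F) (hJ : ∀ j, (j, false) ∉ r.J y) : 12 ≤ r.w y + r.S y := by
  have hJ' : r.J y = ∅ := eq_empty_of_forall_notMem fun ⟨j, b⟩ h => hJ j (f4_J' r y j b h)
  obtain ⟨h10, h12 | ⟨hf, -⟩⟩ := r.outF hy hJ'
  · omega
  have hab := (f4_ab r y false).1 (hf.1 _ rfl)
  have h0 : (false, false) ∈ r.A0 := by
    by_contra h0
    exact hJ false ((f4_J r y false).2 ⟨h0, hab.2, (hab.1 false).1⟩)
  have := f4_sA0 r y false h0 (hab.1 false).1
  rw [f4_S]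
  omega

theorem f4_fl1 (hy : y ∈ r.F) (j : Bool) (hj : (j, false) ∈ r.J y) (hj' : (!j, false) ∉ r.J y) :
    12 ≤ r.w y + r.S y + f4_e r y := by
  have hc : #(r.J y) ≤ 2 := by
    refine le_trans (card_le_card (t := {(j, false), (j, true)}) ?_) card_le_two
    rintro ⟨i, b⟩ h
    have hi : i = j := by
      by_contra hi
      have : i = !j := by revert hi; cases i <;> cases j <;> simp
      exact hj' (this ▸ f4_J' r y i b h)
    subst hi
    cases b <;> simp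
  have hx : 4 ≤ r.x y := by have := r.big y hy; omega
  have h8 := r.b2 y (by omega)
  obtain ⟨h0, h1, hl⟩ := (f4_J r y j).1 hj
  have hall := f4_all r y j h0 h1 hl
  have hs := f4_sd r y j
  have he := f4_e1 r y j
  rw [f4_S' r y j]
  have hA : 1 ≤ r.dA (j, false) y ∨ (r.AL y).Nonempty := by
    by_cases hd : ∃ c, f4_D r j false c
    · obtain ⟨c, hd⟩ := hd
      exact Or.inl (f4_dA1 r y j false c (hall _ _) hd)
    · push Not at hd
      exact Or.inr ⟨_, (f4_AL r y j).2 ((f4_ab r y j).2 ⟨fun c => ⟨hall _ _, hd c⟩, h1⟩)⟩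
  by_cases hx1 : f4_D r j true true
  · have d1 := f4_dA1 r y j true true (hall _ _) hx1
    by_cases hx0 : f4_D r j true false
    · have d2 := f4_dA2 r y j true (hall _) (fun c => by cases c <;> assumption)
      omega
    · rcases hA with hA | hA
      · omega
      · have := r.b4 y hy hx hA ⟨_, f4_Kc r y j (hall _ _) hx0⟩
        omega
  · obtain ⟨hl', hd'⟩ := f4_ex r y j (hall _ _) hx1
    have key : 1 ≤ f4_s r y (!j) ∧ (r.K y).Nonempty ∧
        (2 ≤ f4_s r y (!j) ∨ (!j, false) ∈ r.A1) := by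
      by_cases g0 : (!j, false) ∈ r.A0
      · have e1 := f4_l0 r y (!j) true (f4_nA r _ g0)
        have := f4_su2 r y (!j) g0 (fun c => by cases c; exacts [e1.1 hl', hl'])
        exact ⟨by omega, ⟨_, f4_Kc r y (!j) (e1.1 hl') (f4_nD r _ _ _ (Or.inl g0))⟩, Or.inl this⟩
      by_cases g1 : (!j, false) ∈ r.A1
      · refine ⟨f4_su1 r y _ _ g1 hl', ⟨(f4_lg (!j), true), ?_⟩, Or.inr g1⟩
        rw [f4_Ka, f4_ab]
        exact ⟨⟨(f4_l1 r y _ _ g0).1 hl', f4_nD r _ _ _ (Or.inr g1)⟩, fun h => h.2 g1⟩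
      · exact absurd ((f4_J r y _).2 ⟨g0, g1, f4_all r y _ g0 g1 hl' _ _⟩) hj'
    obtain ⟨k1, k2, -⟩ := key
    have hB : 1 ≤ r.dA (j, true) y ∨ f4_i r y (.inl (2, j)) = 1 := by
      by_cases hx0 : f4_D r j true false
      · exact Or.inl (f4_dA1 r y j true false (hall _ _) hx0)
      · exact Or.inr (f4_ic r y j (hall _ _) hx0)
    rcases hA with hA | hA
    · omega
    · have := r.b4 y hy hx hA k2
      omega

theorem f4_fl2 (hy : y ∈ r.F) (hj : ∀ j, (j, false) ∈ r.J y) :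
    12 ≤ r.w y + r.S y + f4_e r y := by
  have hc : #(r.J y) ≤ 4 := le_trans (card_le_univ _) (by simp)
  have hx : 0 < r.x y := by have := r.big y hy; omega
  have h8 := r.b2 y hx
  have hall : ∀ j b c, f4_L r y j b c := fun j => by
    obtain ⟨h0, h1, hl⟩ := (f4_J r y j).1 (hj j)
    exact f4_all r y j h0 h1 hl
  have hs0 := f4_sd r y false
  have hs1 := f4_sd r y true
  have hi : f4_i r y (.inr ((false, true), true)) = 1 := if_pos (hall false true true)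
  have hA : ∀ j, 1 ≤ r.dA (j, false) y ∨ f4_lg j ∈ r.AL y := fun j => by
    by_cases hd : ∃ c, f4_D r j false c
    · obtain ⟨c, hd⟩ := hd
      exact Or.inl (f4_dA1 r y j false c (hall _ _ _) hd)
    · push Not at hd
      exact Or.inr ((f4_AL r y j).2 ((f4_ab r y j).2
        ⟨fun c => ⟨hall _ _ _, hd c⟩, ((f4_J r y j).1 (hj j)).2.1⟩))
  have hB : ∀ j, 1 ≤ r.dA (j, true) y ∨
      (f4_i r y (.inl (2, j)) = 1 ∧ ((2 : Fin 3), j) ∈ r.K y) := fun j => by
    by_cases hx0 : f4_D r j true false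
    · exact Or.inl (f4_dA1 r y j true false (hall _ _ _) hx0)
    · exact Or.inr ⟨f4_ic r y j (hall _ _ _) hx0, f4_Kc r y j (hall _ _ _) hx0⟩
  rw [f4_S]
  unfold f4_e
  rcases hB false with b0 | ⟨b0, k0⟩ <;> rcases hB true with b1 | ⟨b1, k1⟩
  · omega
  · omega
  · omega
  rcases hA false with a0 | a0
  · omega
  rcases hA true with a1 | a1
  · omega
  have c1 : 1 < #(r.K y) := one_lt_card.2 ⟨_, k0, _, k1, by decide⟩
  have c2 : 1 < #(r.AL y) := one_lt_card.2 ⟨_, a0, _, a1, by decide⟩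
  have := r.b6 y hy (by omega) (Or.inr (Or.inl ⟨hx, _, a0⟩))
  omega

theorem f4_main : 8 + r.fl y ≤ r.w y + r.S y + f4_e r y := by
  unfold RD0.fl
  split_ifs with hy
  · by_cases h0 : (false, false) ∈ r.J y <;> by_cases h1 : (true, false) ∈ r.J y
    · exact f4_fl2 r y hy fun j => by cases j <;> assumption
    · exact f4_fl1 r y hy false h0 h1
    · exact f4_fl1 r y hy true h1 h0
    · have := f4_fl0 r y hy fun j => by cases j <;> assumption
      omega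
  · exact f4_unfl r y

end

/-- Sites `a_j = (j,false)`, `u_j = (j,true)`; `S y = ∑ j, (LT a_j y + cU u_j y)`. Case on the types
(unsplit, `A0`, `A1`) of the two sites. Let `G` be the labels of unsplit sites, `j y` the number of
unsplit sites labelled `y`.
* flagged, `j = 2`: `2 ≤ x`, `8 ≤ w`; a `D` gives `2 ≤ S`; else both legs absorbed, both colour ports
  open, `b6`. All other labels: no ports, not tiny, not full.
* flagged, `j = 1` (site 0): `4 ≤ x`; the exit `(u_0,true)` gives slack 2 (it is in `D`, or site 1 is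
  in `A0` and `cU u_1 y = 2`) or 1 (site 1 in `A1`); a `D` at `a_0` or at `(u_0,false)` adds 2, else
  leg 0 is absorbed, the port `(2,0)` is in `K`, `b4`: `eps ≤ 1`, and `≤ 0` unless site 1 is in `A1`.
* unflagged in `G`: `¬ ne`: all ports closed, `6 + 2 ≤ S`; tiny: `AL = ∅` gives a `D` at the `a` of
  its site, `2 ≤ S`.
* outside `G`: flagged `eps ≤ 0` unless full (then both sites are in `A0`, no tiny label, unique);
  `¬ ne`: both sites in `A0`? then label on `u_0, u_1` has open colour ports, so `ne`; site in `A1`: the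
  strand has an `a`-port. Tiny: every `a`-port `(j,c)` in `K` has site `j` in `A1` and `(u_j,c)`
  labelled `y`, slack 1 each; so `eps ≤ 1`, and `eps = 1` needs a colour port in `K`: at most two
  such labels, one if site 0 is unsplit. Total at most 2. -/
theorem gB3_good : gB3.Good := by
  intro Y _ _ r
  refine r.fin (by decide) (f4_e r) ?_ (f4_main r)
  have h1 := f4_isum r (.inl (2, false))
  have h2 := f4_isum r (.inl (2, true))
  have h3 := f4_isum r (.inr ((false, true), true))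
  unfold f4_e
  rw [sum_add_distrib, sum_add_distrib]
  omega

end Pool.Agent.MP_8c1b0d_co.RR

end
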