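import Pool.Agent.MP_8c1b0d_co.Mg.RR_G

set_option autoImplicit false
set_option linter.unusedSectionVars false
open Finset

namespace Pool.Agent.MP_8c1b0d_co.RR

/-- the possible data of a site for one label: unsplit vertices, open ports, absorbed, slack,
open towards the previous and the next site, split, labelled -/
def f5_sites : List (ℕ × ℕ × ℕ × ℕ × ℕ × ℕ × ℕ × ℕ) :=
  [(0, 0, 0, 0, 0, 0, 0, 0), (0, 0, 0, 0, 0, 0, 1, 0), (0, 0, 0, 2, 1, 1, 1, 1),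
  (0, 0, 1, 2, 0, 0, 1, 1), (0, 0, 1, 4, 1, 1, 1, 1), (0, 1, 0, 1, 0, 1, 1, 1),
  (0, 1, 0, 1, 1, 0, 1, 1), (0, 2, 0, 2, 1, 1, 1, 1), (2, 0, 0, 6, 1, 1, 0, 1),
  (2, 0, 0, 8, 0, 1, 0, 1), (2, 0, 0, 8, 1, 0, 0, 1), (2, 0, 0, 10, 0, 0, 0, 1),
  (2, 0, 1, 0, 1, 1, 0, 1), (2, 0, 1, 2, 0, 1, 0, 1), (2, 0, 1, 2, 1, 0, 0, 1),
  (2, 0, 1, 4, 0, 0, 0, 1), (2, 1, 0, 2, 1, 1, 0, 1), (2, 1, 0, 4, 0, 1, 0, 1),
  (2, 1, 0, 4, 1, 0, 0, 1), (2, 1, 0, 6, 0, 0, 0, 1)]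

/-- the relations between the totals -/
def f5_T (J K A S sp n t : ℕ) : Prop :=
  (K = 2 → t ≤ 1 → A = 0 → 2 ≤ S ∧ (6 ≤ J → 3 ≤ S)) ∧
  (K + A = 0 → 0 < n → 8 ≤ S ∧ (6 ≤ J → 9 ≤ S)) ∧ (J = 0 → A = 4 → 2 ≤ S) ∧
  (J = 2 → 4 ≤ S ∨ (2 ≤ S ∧ 0 < A ∧ 0 < K)) ∧ (J = 4 → 1 ≤ S ∧ (0 < sp ∨ 4 ≤ S)) ∧
  (J = 6 → 1 ≤ S) ∧ (J = 8 → A = 4 ∨ 1 ≤ S) ∧ (J = 0 ∨ J = 2 ∨ J = 4 ∨ J = 6 ∨ J = 8)

set_option synthInstance.maxSize 4000 in
instance (J K A S sp n t : ℕ) : Decidable (f5_T J K A S sp n t) := by unfold f5_T; infer_instance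

lemma f5_four : ∀ a ∈ f5_sites, ∀ b ∈ f5_sites, a.2.2.2.2.2.1 = b.2.2.2.2.1 →
    ∀ c ∈ f5_sites, b.2.2.2.2.2.1 = c.2.2.2.2.1 → ∀ d ∈ f5_sites, c.2.2.2.2.2.1 = d.2.2.2.2.1 →
    d.2.2.2.2.2.1 = a.2.2.2.2.1 → f5_T (a.1 + b.1 + c.1 + d.1) (a.2.1 + b.2.1 + c.2.1 + d.2.1)
      (a.2.2.1 + b.2.2.1 + c.2.2.1 + d.2.2.1) (a.2.2.2.1 + b.2.2.2.1 + c.2.2.2.1 + d.2.2.2.1)
      (a.2.2.2.2.2.2.1 + b.2.2.2.2.2.2.1 + c.2.2.2.2.2.2.1 + d.2.2.2.2.2.2.1)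
      (a.2.2.2.2.2.2.2 + b.2.2.2.2.2.2.2 + c.2.2.2.2.2.2.2 + d.2.2.2.2.2.2.2)
      (max (max a.2.1 b.2.1) (max c.2.1 d.2.1)) := by
  decide +kernel

set_option synthInstance.maxSize 4000 in
lemma f5_bool : ∀ z0 z1 a0 a1 u0 u1 d0 d1 e0 e1 : Bool, ¬ (z0 = true ∧ z1 = true) →
    (¬ z1 = true → (a1 = true ↔ a0 = true) ∧ (u1 = true ↔ u0 = true)) →
    (¬ z0 = true → (u0 = true ↔ a0 = true) ∧ (u1 = true ↔ a1 = true)) →
    (d0 = true ∨ d1 = true ∨ e0 = true ∨ e1 = true → ¬ z0 = true ∧ ¬ z1 = true) →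
    ((if ¬ z0 = true ∧ ¬ z1 = true ∧ u0 = true then 1 else 0) +
      (if ¬ z0 = true ∧ ¬ z1 = true ∧ a0 = true then 1 else 0),
    (if (a1 = true ∧ ¬ d1 = true) ∧ ¬ (((a0 = true ∧ ¬ d0 = true) ∧ a1 = true ∧ ¬ d1 = true) ∧
      ¬ z1 = true) then 1 else 0) +
    (if (a0 = true ∧ ¬ d0 = true) ∧ ¬ (((a0 = true ∧ ¬ d0 = true) ∧ a1 = true ∧ ¬ d1 = true) ∧
      ¬ z1 = true) then 1 else 0),
    (if ((a0 = true ∧ ¬ d0 = true) ∧ a1 = true ∧ ¬ d1 = true) ∧ ¬ z1 = true then 1 else 0),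
    2 * ((if u1 = true ∧ e1 = true then 1 else 0) + if u0 = true ∧ e0 = true then 1 else 0) +
      ((if u1 = true ∧ (z0 = true ∨ z1 = true) then 1 else 0) +
        if u0 = true ∧ (z0 = true ∨ z1 = true) then 1 else 0) +
      ((if z0 = true ∧ a0 = true then 2 else 0) +
      2 * ((if a1 = true ∧ d1 = true then 1 else 0) + if a0 = true ∧ d0 = true then 1 else 0) +
      if ((if a1 = true ∧ d1 = true then 1 else 0) + if a0 = true ∧ d0 = true then 1 else 0) = 2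
        then 2 else 0),
    (if u0 = true ∧ ¬ e0 = true then 1 else 0), (if u1 = true ∧ ¬ e1 = true then 1 else 0),
    (if z0 = true ∨ z1 = true then 1 else 0),
    (if a0 = true ∨ a1 = true ∨ u0 = true ∨ u1 = true then 1 else 0)) ∈ f5_sites := by
  decide +kernel

variable {Y : Type} [Fintype Y] [DecidableEq Y] (r : RD gE4 Y) (y : Y)

/-- the data of the site `i` -/
def f5_dat (i : Fin 4) : ℕ × ℕ × ℕ × ℕ × ℕ × ℕ × ℕ × ℕ :=
  (∑ b, if (i, b) ∈ r.J y then 1 else 0, ∑ c, if (i, c) ∈ r.K y then 1 else 0,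
    if i ∈ r.AL y then 1 else 0, r.cU (i, true) y + r.LT (i, false) y,
    if r.opn (.inr ((i, true), false)) y then 1 else 0,
    if r.opn (.inr ((i, true), true)) y then 1 else 0,
    if (i, false) ∈ r.A0 ∨ (i, false) ∈ r.A1 then 1 else 0,
    if r.lab (.inr ((i, false), false)) = some y ∨ r.lab (.inr ((i, false), true)) = some y ∨
      r.lab (.inr ((i, true), false)) = some y ∨ r.lab (.inr ((i, true), true)) = some y
      then 1 else 0)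

lemma f5_mem (i : Fin 4) : f5_dat r y i ∈ f5_sites := by
  have a0 : (i, true) ∈ r.A0 ↔ (i, false) ∈ r.A0 := ⟨r.m0 _, r.m0 _⟩
  have a1 : (i, true) ∈ r.A1 ↔ (i, false) ∈ r.A1 := ⟨r.m1 _, r.m1 _⟩
  have pt : ∀ c, r.opn (.inl (i, c)) y ↔ r.opn (.inr ((i, false), c)) y :=
    fun c => ⟨r.cl _ y, r.cl _ y⟩
  have ab : r.ab i y ↔ (r.opn (.inr ((i, false), false)) y ∧ r.opn (.inr ((i, false), true)) y) ∧
      (i, false) ∉ r.A1 := by
    simp only [RD0.ab, mo4, true_and, pt, Bool.forall_bool]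
    exact and_congr_right fun _ => ⟨fun h h' => h _ h' rfl, fun h u hu e => h (by
      rwa [show (i, false) = u from Option.some.inj e])⟩
  have h := f5_bool (decide ((i, false) ∈ r.A0)) (decide ((i, false) ∈ r.A1))
    (decide (r.lab (.inr ((i, false), false)) = some y))
    (decide (r.lab (.inr ((i, false), true)) = some y))
    (decide (r.lab (.inr ((i, true), false)) = some y))
    (decide (r.lab (.inr ((i, true), true)) = some y))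
    (decide (.inr ((i, false), false) ∈ r.D)) (decide (.inr ((i, false), true) ∈ r.D))
    (decide (.inr ((i, true), false) ∈ r.D)) (decide (.inr ((i, true), true) ∈ r.D))
  simp only [decide_eq_true_eq] at h
  have h1 := h (fun h => disjoint_left.1 r.disj h.1 h.2)
    (fun h => ⟨by rw [r.l0 _ h], by rw [r.l0 _ (mt a1.1 h)]⟩)
    (fun h => ⟨by rw [← r.l1 _ h]; rfl, by rw [← r.l1 _ h]; rfl⟩) (by
      rintro (h | h | h | h)
      exacts [r.dX _ _ h, r.dX _ _ h, (r.dX _ _ h).imp (mt a0.2) (mt a1.2),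
        (r.dX _ _ h).imp (mt a0.2) (mt a1.2)])
  simp only [f5_dat, RD0.J, RD0.K, RD0.AL, RD0.cU, RD0.LT, RD0.dA, mem_filter, mem_univ, true_and,
    card_filter, Fintype.sum_bool, a0, a1, pt, ab]
  simp only [RD0.opn]
  convert h1

lemma f5_lab : 8 + r.fl y ≤ r.w y + r.S y + 3 ∧ (8 + r.fl y ≤ r.w y + r.S y ∨
    4 ≤ #(r.J y) ∧ (6 ≤ #(r.J y) ∨ ∃ u, u ∈ r.A0 ∨ u ∈ r.A1)) := by
  have cy : ∀ i, (f5_dat r y i).2.2.2.2.2.1 = (f5_dat r y (i + 1)).2.2.2.2.1 := fun i =>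
    if_congr ⟨r.cl _ y, fun h => by simpa [gE4, oE4] using r.cl _ y h⟩ rfl rfl
  have h := f5_four _ (f5_mem r y 0) _ (f5_mem r y 1) (cy 0) _ (f5_mem r y 2) (cy 1) _
    (f5_mem r y 3) (cy 2) (cy 3)
  have cd : ∀ s : Finset (Fin 4 × Bool), #s = ∑ i, ∑ b, if (i, b) ∈ s then 1 else 0 := fun s => by
    rw [← Fintype.sum_prod_type' fun i b => if (i, b) ∈ s then 1 else 0]
    simp
  have eJ : _ = ∑ i, (f5_dat r y i).1 := cd (r.J y)
  have eK : _ = ∑ i, (f5_dat r y i).2.1 := cd (r.K y)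
  have eA : #(r.AL y) = ∑ i, (f5_dat r y i).2.2.1 := by simp [f5_dat]
  have eS : r.S y = ∑ i, (f5_dat r y i).2.2.2.1 := by
    simp only [RD0.S, gE4, Option.some.injEq, Fintype.sum_prod_type, Fintype.univ_bool, Prod.mk.injEq, Bool.false_eq, exists_eq_left, mem_singleton, Bool.true_eq_false, not_false_eq_true, sum_insert, ↓ reduceIte, sum_singleton, f5_dat]
  have e1 : 0 < ∑ i, (f5_dat r y i).2.2.2.2.2.2.1 → ∃ u, u ∈ r.A0 ∨ u ∈ r.A1 := fun h => by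
    obtain ⟨i, -, hi⟩ := exists_ne_zero_of_sum_ne_zero h.ne'
    exact ⟨_, (ite_ne_right_iff.1 hi).1⟩
  have e2 : r.ne y ∨ 0 < ∑ i, (f5_dat r y i).2.2.2.2.2.2.2 := (r.surj y).imp_right fun h => by
    obtain ⟨⟨⟨i, b⟩, c⟩, h⟩ := h
    refine lt_of_lt_of_le ?_ (single_le_sum (fun _ _ => Nat.zero_le _) (mem_univ i))
    cases b <;> cases c <;> simp only [f5_dat, Fintype.univ_bool, sum_boole, Nat.cast_id, h, true_or, ↓ reduceIte, Order.lt_one_iff, or_true]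
  have e3 : r.tiny y → #(r.K y) = 2 ∧ #(r.AL y) = 0 ∧ r.x y = 0 ∧
      ∀ i, (f5_dat r y i).2.1 ≤ 1 := by
    rintro ⟨p, q, h1, -, h2, h3, h4⟩
    refine ⟨h2 ▸ card_pair fun e => h1 (congrArg _ e), by simp [h3], h4, fun i => ?_⟩
    simp only [f5_dat, h2, Fintype.sum_bool, mem_insert, mem_singleton]
    split_ifs with h5 h6 <;> try omega
    rcases h5 with rfl | rfl <;> rcases h6 with h6 | h6 <;> simp_all [Prod.ext_iff]
  have e4 : 0 < #(r.K y) + #(r.AL y) → r.ne y := fun h => by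
    rcases Nat.add_pos_iff_pos_or_pos.1 h with h | h <;> obtain ⟨p, hp⟩ := card_pos.1 h
    · exact r.pne p y (mem_filter.1 hp).2.1.1
    · exact r.pne (p, true) y ((mem_filter.1 hp).2.2.1 true).1
  have e5 : r.full y → #(r.AL y) = 4 := fun h => by
    rw [show r.AL y = univ from eq_univ_iff_forall.2 fun i => mem_filter.2 ⟨mem_univ i, h.1 i rfl⟩]
    rfl
  rw [Fin.sum_univ_four] at eJ eK eA eS e1 e2
  rw [← eJ, ← eK, ← eA, ← eS] at h
  obtain ⟨t1, t2, t3, t4, t5, t6, t7, t8⟩ := h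
  clear eJ eK eA eS cd cy
  have b1 : 7 < r.w y ∨ (8 ≤ r.S y + r.w y ∧ (#(r.J y) < 6 ∨ 9 ≤ r.S y + r.w y)) := by
    refine or_iff_not_imp_left.2 fun h => ?_
    by_cases hn : r.ne y
    · obtain ⟨f1, f2, f3, f4⟩ := e3 ((r.b1 y hn).2 (by omega))
      have h1 := t1 f1 (max_le (max_le (f4 0) (f4 1)) (max_le (f4 2) (f4 3))) f2
      have h2 := (r.b1 y hn).1
      clear t1 t2 t3 t4 t5 t6 t7 t8
      omega
    · have := t2 (Nat.eq_zero_of_not_pos (mt e4 hn)) (e2.resolve_left hn)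
      clear t1 t2 t3 t4 t5 t6 t7 t8
      omega
  clear t1 t2
  by_cases hF : y ∈ r.F
  · have b2 := r.b2 y
    have b3 := fun h => (r.b3 y hF h).imp_right (Or.imp_right e5)
    have b4 := r.b4 y hF
    have b6 := r.b6 y hF
    have b7 := r.big y hF
    simp only [← card_pos] at b4 b6
    simp only [RD0.fl, if_pos hF]
    refine ⟨by omega, or_iff_not_imp_left.2 fun h => ⟨by omega, or_iff_not_imp_left.2 fun h' =>
      e1 (by omega)⟩⟩
  · simp only [RD0.fl, if_neg hF]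
    omega

theorem gE4_good : gE4.Good := fun Y _ _ r => by
  refine r.fin1 (by decide) (fun y => (f5_lab r y).1) fun y y' hy => ?_
  by_contra! h
  obtain ⟨h1, h2⟩ := (f5_lab r y).2.resolve_left h.1.not_ge
  obtain ⟨h3, -⟩ := (f5_lab r y').2.resolve_left h.2.not_ge
  have hd : Disjoint (r.J y) (r.J y') := disjoint_left.2 fun u a b =>
    hy (Option.some.inj ((mem_filter.1 a).2.2.2.symm.trans (mem_filter.1 b).2.2.2))
  have h4 := card_union_of_disjoint hd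
  have h5 : #(r.J y ∪ r.J y') ≤ 8 := card_le_univ _
  rcases h2 with h2 | ⟨u, hu⟩
  · omega
  · have h6 : #(r.J y ∪ r.J y') < 8 := card_lt_univ_of_notMem (x := u) fun h7 => by
      rcases mem_union.1 h7 with h7 | h7 <;> have := (mem_filter.1 h7).2 <;> tauto
    omega

end Pool.Agent.MP_8c1b0d_co.RR
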