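import Pool.Agent.MP_8c1b0d_co.CT

attribute [-instance] Nontrivial.to_nonempty One.instNonempty Zero.instNonempty AddTorsor.nonempty
  List.instDecidableMemOfLawfulBEq bot_nonempty AddQuantale.instAddLeftMono Torsor.nonempty
  CategoryTheory.Limits.Concrete.instUniqueToTypeTerminal Finset.decidableDforallFinset
  Vector.instDecidableForallForallMemOfDecidablePred NonUnitalNormedRing.toNormedAddCommGroup
  Multiset.decidableDforallMultiset ConnectedSpace.toNonempty Option.decidableForallMem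
  Array.instDecidableForallForallMemOfDecidablePred instCoeHTCTOfCoeTailOfCoeHTC top_nonempty
  instCoeHTCOfCoeHeadOfCoeOTC instCoeTCOfCoe Group.IsPerfect.subsingleton_of_isMulCommutative
  IdemSemiring.toSemiring AddGroup.addLeftReflectLE_of_addLeftMono

-- part MP_8c1b0d_co.RR.A
section

set_option autoImplicit false
set_option linter.unusedSectionVars false
open Finset

namespace Pool.Agent.MP_8c1b0d_co.RR

/-- a connected coloured cubic graph with face labels; `op k v` is the face at `v` opposite to the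
edge of colour `k` -/
structure LB (V Φ : Type) where
  t : Tri V
  op : Option Bool → V → Φ
  inj : ∀ v k k', op k v = op k' v → k = k'
  nbr : ∀ v k k', k ≠ k' → ∃ j, j ≠ k' ∧ op j (t.nb k' v) = op k v
  surj : ∀ φ, ∃ k v, op k v = φ
  conn : ∀ P : V → Prop, (∀ v, P v → ∀ k, P (t.nb k v)) → ∀ u v, P u → P v

/-- plane: Euler's formula -/
structure PL (V Φ : Type) [Fintype V] [Fintype Φ] extends LB V Φ where
  eul : Fintype.card V + 4 ≤ 2 * Fintype.card Φ

/-- the only nontrivial cut with at most four edges is the one around the root `R` -/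
structure OK {V : Type} [Fintype V] [DecidableEq V] (t : Tri V) (R : Finset V) : Prop where
  c5 : ∀ S : Finset V, 3 ≤ #S → 3 ≤ #Sᶜ → S ≠ R → Sᶜ ≠ R → 5 ≤ t.cut S
  cut4 : t.cut R = 4
  b1 : 7 ≤ #R
  b2 : 7 ≤ #Rᶜ

/-- plane with a root -/
structure PR (V Φ : Type) [Fintype V] [DecidableEq V] [Fintype Φ] extends PL V Φ where
  R : Finset V
  ok : OK t R

namespace LB
variable {V Φ : Type} [Fintype V] [DecidableEq V] [DecidableEq Φ] (p : LB V Φ)
/-- corners of a face -/
def cor (φ : Φ) : Finset V := {v | ∃ k, p.op k v = φ}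
/-- the half-edge `h` lies on the face `φ` -/
def Al (φ : Φ) (h : V × Option Bool) : Prop := ∃ k, k ≠ h.2 ∧ p.op k h.1 = φ
instance (φ : Φ) : DecidablePred (p.Al φ) := fun h => by unfold Al; infer_instance
/-- the half-edges of `B` on `φ` -/
def cr (B : Finset (V × Option Bool)) (φ : Φ) : Finset (V × Option Bool) := {h ∈ B | p.Al φ h}
end LB

variable {V : Type} [Fintype V] [DecidableEq V]

/-- no nontrivial active triple away from the root -/
def NoAct (t : Tri V) (R : Finset V) : Prop := ∀ P : Finset (V × Bool), (∀ h ∈ P, h.1 ∉ R) →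
  (∀ h ∈ P, t.o h ∈ P) → (∀ v c, (v, c) ∈ P → (t.m v, c) ∈ P) →
  #{v | ¬ ((v, false) ∈ P ↔ (v, true) ∈ P)} = 6 → ∀ v, ¬ ((v, false) ∈ P ∧ (v, true) ∈ P)

/-- a closed set `P` of half-edges away from the root, `D` its cut half-edges -/
structure Cl0 (t : Tri V) (R : Finset V) where
  A0 : Finset V
  A1 : Finset V
  P : Finset (V × Bool)
  D : Finset (V × Bool)
  m0 : ∀ v ∈ A0, t.m v ∈ A0
  m1 : ∀ v ∈ A1, t.m v ∈ A1
  disj : Disjoint A0 A1
  l0 : ∀ v ∉ A1, ((v, true) ∈ P ↔ (v, false) ∈ P)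
  l1 : ∀ v ∉ A0, ∀ c, ((t.m v, c) ∈ P ↔ (v, c) ∈ P)
  dP : D ⊆ P
  cl : ∀ h ∈ P, h ∉ D → t.o h ∈ P ∧ t.o h ∉ D
  free : ∀ h ∈ P, h.1 ∉ R
  hexa : ∀ v c, t.Alt v c → Disjoint (t.hex v c) R → ∃ u ∈ t.hex v c, ∃ c', t.Alt u c' ∧
    ∀ w ∈ t.hex u c', w ∉ A0 ∧ w ∉ A1 ∧ ((w, false) ∈ P ↔ (u, false) ∈ P)

/-- the cut half-edges sit at unsplit vertices -/
structure Cl (t : Tri V) (R : Finset V) extends Cl0 t R where
  dX : ∀ h ∈ D, h.1 ∉ A0 ∧ h.1 ∉ A1

namespace Cl0
variable {t : Tri V} {R : Finset V} (a : Cl0 t R)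
/-- unsplit vertices -/
def X : Finset V := {v | v ∉ a.A0 ∧ v ∉ a.A1 ∧ (v, false) ∈ a.P}
def U0 : Finset V := {v ∈ a.A0 | (v, false) ∈ a.P}
def U1 : Finset V := {v | ¬ ((v, false) ∈ a.P ↔ (v, true) ∈ a.P)}
def U2 : Finset V := {v ∈ a.A1 | (v, false) ∈ a.P ∧ (v, true) ∈ a.P}
def Sp : Finset V := {v | (v, false) ∈ a.P ∨ (v, true) ∈ a.P}
def Sm : Finset V := {v | (v, false) ∈ a.P ∧ (v, true) ∈ a.P}
/-- twice the weight -/
def w2 : ℕ := 2 * #a.D + 2 * #a.U0 + #a.U1 + 2 * #a.U2
/-- dangling half-edges -/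
def dang : Finset (V × Option Bool) :=
  {h | (h.2 = none ∧ h.1 ∈ a.U0) ∨ ∃ c, h.2 = some c ∧
    ((h.1, c) ∈ a.D ∨ ((h.1, c) ∉ a.P ∧ (h.1, !c) ∈ a.P))}
/-- half-edges of strands -/
def PH : Finset (V × Bool) := {h ∈ a.P | h.1 ∉ a.X}
/-- the other half-edge of the strand -/
def ρ (h : V × Bool) : V × Bool := if h.1 ∈ a.A0 then (h.1, !h.2) else (t.m h.1, h.2)
/-- strands with both ends in `S` -/
def M0 (S : Finset V) : Finset V := {u ∈ a.U0 | ∀ c, t.col c u ∈ S}
def M1 (S : Finset V) : Finset V :=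
  {u ∈ a.U1 | ∀ c, (u, c) ∈ a.P → t.col c u ∈ S ∧ t.col c (t.m u) ∈ S}
/-- an orientation -/
structure Or (ε : V × Bool → Bool) : Prop where
  e0 : ∀ v ∉ a.A1, ε (v, true) = ε (v, false)
  e1 : ∀ v ∉ a.A0, ∀ c, ε (t.m v, c) ≠ ε (v, c)
  e2 : ∀ h ∈ a.P, h ∉ a.D → ε (t.o h) ≠ ε h
end Cl0

namespace PR
variable {Φ : Type} [Fintype Φ] (p : PR V Φ)

/-- an oriented closed set -/
structure Ori extends Cl p.t p.R where
  na : NoAct p.t p.R
  ε : V × Bool → Bool
  e0 : ∀ v ∉ A1, ε (v, true) = ε (v, false)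
  e1 : ∀ v ∉ A0, ∀ c, ε (p.t.m v, c) ≠ ε (v, c)
  e2 : ∀ h ∈ P, h ∉ D → ε (p.t.o h) ≠ ε h

/-- at least six unsplit vertices, weight at most 5, not the whole pole -/
structure Fl extends p.Ori where
  big : 6 ≤ #(toCl0.X)
  light : toCl0.w2 ≤ 11
  prop : toCl0.Sp ≠ p.Rᶜ

end PR
end Pool.Agent.MP_8c1b0d_co.RR

set_option autoImplicit false
set_option linter.unusedSectionVars false
open Finset

namespace Pool.Agent.MP_8c1b0d_co.RR
open Tri
variable {V : Type} [Fintype V] [DecidableEq V] {t : Tri V} {R : Finset V}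

lemma OK.compl (h : OK t R) : OK t Rᶜ :=
  ⟨fun S a b c d => h.c5 S a b (fun e => d (by rw [e])) fun e => c (by rw [← e, compl_compl]),
    by rw [cut_compl, h.cut4], h.b2, by rw [compl_compl]; exact h.b1⟩
lemma OK.small (h : OK t R) {S : Finset V} (k : t.cut S ≤ 4) :
    #S ≤ 2 ∨ #Sᶜ ≤ 2 ∨ S = R ∨ Sᶜ = R := by
  by_contra hc
  simp only [not_or] at hc
  have := h.c5 S (by omega) (by omega) hc.2.2.1 hc.2.2.2
  omega
lemma OK.small3 (h : OK t R) {S : Finset V} (k : t.cut S ≤ 3) : #S ≤ 2 ∨ #Sᶜ ≤ 2 := by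
  have c := h.cut4
  rcases h.small (S := S) (by omega) with e | e | e | e
  · exact Or.inl e
  · exact Or.inr e
  · rw [e] at k; omega
  · rw [← e, cut_compl] at c; omega
/-- small cuts away from the root -/
lemma OK.smallP (h : OK t R) {S : Finset V} (d : ∀ v ∈ S, v ∉ R) (k : t.cut S ≤ 4) :
    #S ≤ 2 ∨ S = Rᶜ := by
  have b := h.b1
  have s : R ⊆ Sᶜ := fun v a => mem_compl.2 fun c => d v c a
  have := card_le_card s
  rcases h.small k with e | e | e | e
  · exact Or.inl e
  · omega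
  · obtain ⟨v, hv⟩ : R.Nonempty := card_pos.1 (by omega)
    exact (d v (e ▸ hv) hv).elim
  · exact Or.inr (by rw [← e, compl_compl])
lemma OK.c5P (h : OK t R) {S : Finset V} (d : ∀ v ∈ S, v ∉ R) (n : S ≠ Rᶜ) (k : 3 ≤ #S) :
    5 ≤ t.cut S := by
  by_contra c
  rcases h.smallP d (by omega) with e | e
  · omega
  · exact n e
/-- one vertex has cut 3, two vertices have cut at least 4; use `cut_compl` -/
lemma OK.three (h : OK t R) {S : Finset V} (h1 : S.Nonempty) (h2 : Sᶜ.Nonempty) :
    3 ≤ t.cut S := by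
  by_contra hc
  have a := card_pos.2 h1
  have b := card_pos.2 h2
  rcases h.small3 (S := S) (by omega) with e | e
  · have := t.f1_small h1 e
    omega
  · have := t.f1_small h2 e
    rw [cut_compl] at this
    omega
lemma OK.four (h : OK t R) {S : Finset V} (hm : ∀ v ∈ S, t.m v ∈ S) (h1 : S.Nonempty)
    (h2 : Sᶜ.Nonempty) : 4 ≤ t.cut S := by
  have a := h.three h1 h2
  obtain ⟨r, hr⟩ := t.even_cut hm
  omega
lemma OK.five (h : OK t R) {S : Finset V} (h1 : S.Nonempty) (h2 : t.Deg2 S) : 5 ≤ #S := by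
  by_contra hc
  have a := h2.cut_le
  have b := card_add_card_compl S
  have c := card_add_card_compl R
  have c1 := h.b1
  have c2 := h.b2
  rcases h.small (S := S) (by omega) with e | e | e | e
  · have := t.f1_small h1 e
    omega
  · omega
  · rw [e] at hc; omega
  · rw [← e, compl_compl] at c2; omega
/-- no triangle -/
lemma OK.no3 (h : OK t R) (k1 k2 k3 : Option Bool) (v : V) :
    t.nb k3 (t.nb k2 (t.nb k1 v)) ≠ v := by
  intro e
  have h12 : k1 ≠ k2 := by
    rintro rfl
    rw [nb_nb] at e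
    exact t.nb_ne _ _ e
  have h23 : k2 ≠ k3 := by
    rintro rfl
    rw [nb_nb] at e
    exact t.nb_ne _ _ e
  have e' : t.nb k3 v = t.nb k2 (t.nb k1 v) := by rw [← congrArg (t.nb k3) e, nb_nb]
  have h31 : k3 ≠ k1 := by
    rintro rfl
    exact t.nb_ne _ _ e'.symm
  have := h.five (S := {v, t.nb k1 v, t.nb k2 (t.nb k1 v)}) ⟨v, by simp⟩ (by
    intro w hw
    simp only [mem_insert, mem_singleton] at hw
    rcases hw with rfl | rfl | rfl
    · exact ⟨k1, k3, h31.symm, by simp, by simp [e']⟩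
    · exact ⟨k1, k2, h12, by simp, by simp⟩
    · exact ⟨k2, k3, h23, by simp, by simp [e]⟩)
  have := card_le_three (a := v) (b := t.nb k1 v) (c := t.nb k2 (t.nb k1 v))
  omega
/-- no 4-cycle -/
lemma OK.no4 (h : OK t R) {k1 k2 k3 k4 : Option Bool} (h1 : k1 ≠ k2) (h2 : k2 ≠ k3) (h3 : k3 ≠ k4)
    (v : V) : t.nb k4 (t.nb k3 (t.nb k2 (t.nb k1 v))) ≠ v := by
  intro e
  have e' : t.nb k4 v = t.nb k3 (t.nb k2 (t.nb k1 v)) := by rw [← congrArg (t.nb k4) e, nb_nb]
  have h41 : k4 ≠ k1 := by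
    rintro rfl
    have := congrArg (t.nb k3) e'
    rw [nb_nb] at this
    exact h2 (t.nb_inj this).symm
  have := h.five (S := {v, t.nb k1 v, t.nb k2 (t.nb k1 v), t.nb k3 (t.nb k2 (t.nb k1 v))})
    ⟨v, by simp⟩ (by
    intro w hw
    simp only [mem_insert, mem_singleton] at hw
    rcases hw with rfl | rfl | rfl | rfl
    · exact ⟨k1, k4, h41.symm, by simp, by simp [e']⟩
    · exact ⟨k1, k2, h1, by simp, by simp⟩
    · exact ⟨k2, k3, h2, by simp, by simp⟩
    · exact ⟨k3, k4, h3, by simp, by simp [e]⟩)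
  have := card_le_four (a := v) (b := t.nb k1 v) (c := t.nb k2 (t.nb k1 v))
    (d := t.nb k3 (t.nb k2 (t.nb k1 v)))
  omega
/-- `five` and `even_card` -/
lemma OK.six (h : OK t R) {Q : Finset V} {c : Bool} (hQ : ∀ v ∈ Q, t.m v ∈ Q ∧ t.col c v ∈ Q)
    (h1 : Q.Nonempty) : 6 ≤ #Q := by
  have a := h.five h1 fun v hv => ⟨none, some c, by simp, (hQ v hv).1, (hQ v hv).2⟩
  obtain ⟨r, hr⟩ := t.even_card fun v hv => (hQ v hv).1
  omega
/-- the six vertices of `hex v c` are different (`no4`), so they are all of `Q` -/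
lemma OK.alt (h : OK t R) {Q : Finset V} {c : Bool} (hQ : ∀ v ∈ Q, t.m v ∈ Q ∧ t.col c v ∈ Q)
    (h6 : #Q ≤ 6) {v : V} (hv : v ∈ Q) : t.Alt v c ∧ t.hex v c ⊆ Q := by
  have hsub : t.hex v c ⊆ Q := by
    have a1 := (hQ v hv).1
    have a2 := (hQ _ a1).2
    have a3 := (hQ _ a2).1
    have a4 := (hQ _ a3).2
    have a5 := (hQ _ a4).1
    intro w hw
    simp only [hex, mem_insert, mem_singleton] at hw
    rcases hw with rfl | rfl | rfl | rfl | rfl | rfl <;> assumption
  refine ⟨?_, hsub⟩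
  have n1 : ∀ k w, t.nb k w ≠ w := t.nb_ne
  have n2 : ∀ w, t.col c (t.m w) ≠ w := fun w e => by
    have : t.nb none w = t.nb (some c) w := by
      rw [← congrArg (t.nb (some c)) e]
      simp
    simpa using t.nb_inj this
  have n2' : ∀ w, t.m (t.col c w) ≠ w := fun w e => n2 w (by
    have := congrArg t.m e
    rw [t.mm] at this
    rw [← this, col_col])
  have n3 : ∀ w, t.m (t.col c (t.m w)) ≠ w := h.no3 none (some c) none
  have n3' : ∀ w, t.col c (t.m (t.col c w)) ≠ w := h.no3 (some c) none (some c)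
  have n4 : ∀ w, t.col c (t.m (t.col c (t.m w))) ≠ w :=
    h.no4 (k1 := none) (k2 := some c) (k3 := none) (k4 := some c) (by simp) (by simp) (by simp)
  have n4' : ∀ w, t.m (t.col c (t.m (t.col c w))) ≠ w :=
    h.no4 (k1 := some c) (k2 := none) (k3 := some c) (k4 := none) (by simp) (by simp) (by simp)
  have n1m : ∀ w, t.m w ≠ w := t.m_ne
  have n1c : ∀ w, t.col c w ≠ w := n1 (some c)
  have n5 : t.m (t.col c (t.m (t.col c (t.m v)))) ≠ v := fun e => by
    have e1 := congrArg t.m e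
    rw [t.mm] at e1
    have e2 := congrArg (t.col c) e1
    rw [col_col] at e2
    exact n1m _ e2
  have hc : #(t.hex v c) = 6 := by
    rw [hex, card_insert_of_notMem, card_insert_of_notMem, card_insert_of_notMem,
      card_insert_of_notMem, card_insert_of_notMem, card_singleton]
    all_goals simp only [mem_insert, mem_singleton, not_or]
    · exact (n1m _).symm
    · exact ⟨(n1c _).symm, (n2' _).symm⟩
    · exact ⟨(n1m _).symm, (n2 _).symm, (n3 _).symm⟩
    · exact ⟨(n1c _).symm, (n2' _).symm, (n3' _).symm, (n4' _).symm⟩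
    · exact ⟨(n1m _).symm, (n2 _).symm, (n3 _).symm, (n4 _).symm, n5.symm⟩
  have hE : t.hex v c = Q := eq_of_subset_of_card_le hsub (by omega)
  have h7 : t.col c (t.m (t.col c (t.m (t.col c (t.m v))))) ∈ t.hex v c := by
    rw [hE]
    exact (hQ _ (hsub (by simp [hex]))).2
  simp only [hex, mem_insert, mem_singleton] at h7
  rcases h7 with e | e | e | e | e | e
  · exact e
  · have e1 := congrArg (t.col c) e
    rw [col_col] at e1
    exact absurd e1 (n3 _)
  · exact absurd e (n4 _)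
  · exact absurd e (n3' _)
  · exact absurd e (n2 _)
  · exact absurd e (n1c _)
/-- two `m`-closed parts would have cuts at least `4 + 4` (`cut_split`, `four`) -/
lemma OK.con_of_cut (h : OK t R) {S : Finset V} (hm : ∀ v ∈ S, t.m v ∈ S) (h2 : Sᶜ.Nonempty)
    (k : t.cut S ≤ 7) : t.Con S (t.bd S) := by
  intro W hW hc
  have h1 : ∀ v ∈ W, ∀ l, t.nb l v ∈ S → t.nb l v ∈ W := fun v hv l hl =>
    hc v hv l fun e => (t.mem_bd.1 e).2 hl
  have mW : ∀ v ∈ W, t.m v ∈ W := fun v hv => h1 v hv none (hm v (hW hv))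
  have mD : ∀ v ∈ S \ W, t.m v ∈ S \ W := fun v hv => by
    rw [mem_sdiff] at hv ⊢
    exact ⟨hm v hv.1, fun e => hv.2 (t.mm v ▸ mW _ e)⟩
  by_contra hn
  push Not at hn
  obtain ⟨z, hz⟩ := h2
  have a := h.four mW hn.1 ⟨z, by
    rw [mem_compl] at hz ⊢
    exact fun e => hz (hW e)⟩
  have b := h.four mD (sdiff_nonempty.2 fun e => hn.2 (Subset.antisymm hW e)) ⟨z, by
    rw [mem_compl] at hz ⊢
    exact fun e => hz (mem_sdiff.1 e).1⟩
  have := t.cut_split hW h1
  omega

lemma r1_inv (f : V → V) (ff : ∀ v, f (f v) = v) (fne : ∀ v, f v ≠ v) {S : Finset V} {v : V}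
    (hv : v ∉ S) :
    #{w ∈ insert v S | f w ∉ insert v S} + (if f v ∈ S then 2 else 0) =
      #{w ∈ S | f w ∉ S} + 1 := by
  by_cases c : f v ∈ S
  · have e : ({w ∈ insert v S | f w ∉ insert v S} : Finset V) =
        ({w ∈ S | f w ∉ S} : Finset V).erase (f v) := by
      ext w
      simp only [mem_filter, mem_insert, mem_erase, not_or]
      constructor
      · rintro ⟨rfl | a, b, d⟩
        · exact (d c).elim
        · exact ⟨fun e => b (by rw [e, ff]), a, d⟩
      · rintro ⟨a, b, d⟩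
        exact ⟨Or.inr b, fun e => a (by rw [← e, ff]), d⟩
    have m : f v ∈ ({w ∈ S | f w ∉ S} : Finset V) := by
      rw [mem_filter, ff]
      exact ⟨c, hv⟩
    have := card_erase_add_one m
    rw [e, if_pos c]
    omega
  · have e : ({w ∈ insert v S | f w ∉ insert v S} : Finset V) =
        insert v ({w ∈ S | f w ∉ S} : Finset V) := by
      ext w
      simp only [mem_filter, mem_insert, not_or]
      constructor
      · rintro ⟨rfl | a, b, d⟩
        · exact Or.inl rfl
        · exact Or.inr ⟨a, d⟩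
      · rintro (rfl | ⟨a, d⟩)
        · exact ⟨Or.inl rfl, fne _, c⟩
        · exact ⟨Or.inr a, fun e => c (by rw [← e, ff]; exact a), d⟩
    rw [e, if_neg c, card_insert_of_notMem fun a => hv (mem_filter.1 a).1]
lemma r1_ins (t : Tri V) {S : Finset V} {v : V} (hv : v ∉ S) :
    t.cut (insert v S) + ((if t.x v ∈ S then 2 else 0) + (if t.y v ∈ S then 2 else 0) +
      (if t.m v ∈ S then 2 else 0)) = t.cut S + 3 := by
  have a := r1_inv t.x t.xx t.x_ne hv
  have b := r1_inv t.y t.yy t.y_ne hv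
  have c := r1_inv t.m t.mm t.m_ne hv
  unfold Tri.cut
  omega
lemma r1_ins1 (t : Tri V) {S : Finset V} {v : V} (hv : v ∉ S) {k : Option Bool}
    (h : t.nb k v ∈ S) : t.cut (insert v S) ≤ t.cut S + 1 := by
  have a := r1_ins t hv
  rcases k with _ | _ | _
  · rw [if_pos (show t.m v ∈ S from h)] at a
    omega
  · rw [if_pos (show t.x v ∈ S from h)] at a
    omega
  · rw [if_pos (show t.y v ∈ S from h)] at a
    omega
lemma r1_ins2 (t : Tri V) {S : Finset V} {v : V} (hv : v ∉ S) {k k' : Option Bool} (n : k ≠ k')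
    (h : t.nb k v ∈ S) (h' : t.nb k' v ∈ S) : t.cut (insert v S) + 1 ≤ t.cut S := by
  have a := r1_ins t hv
  rcases k with _ | _ | _ <;> rcases k' with _ | _ | _
  · exact (n rfl).elim
  · rw [if_pos (show t.m v ∈ S from h), if_pos (show t.x v ∈ S from h')] at a
    omega
  · rw [if_pos (show t.m v ∈ S from h), if_pos (show t.y v ∈ S from h')] at a
    omega
  · rw [if_pos (show t.x v ∈ S from h), if_pos (show t.m v ∈ S from h')] at a
    omega
  · exact (n rfl).elim
  · rw [if_pos (show t.x v ∈ S from h), if_pos (show t.y v ∈ S from h')] at a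
    omega
  · rw [if_pos (show t.y v ∈ S from h), if_pos (show t.m v ∈ S from h')] at a
    omega
  · rw [if_pos (show t.y v ∈ S from h), if_pos (show t.x v ∈ S from h')] at a
    omega
  · exact (n rfl).elim

/-- a vertex has at most one leg. Plan: `c5P` or `smallP` for `Rᶜ.erase v` (cut at most 3). -/
lemma OK.leg_one (h : OK t R) {v : V} {k k' : Option Bool} (hv : v ∉ R) (h1 : t.nb k v ∈ R)
    (h2 : t.nb k' v ∈ R) : k = k' := by
  by_contra n
  have a := r1_ins2 t hv n h1 h2
  have b := h.cut4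
  have b1 := h.b1
  have b2 := h.b2
  have c := card_insert_of_notMem hv
  have d := card_add_card_compl R
  have d' := card_add_card_compl (insert v R)
  rcases h.small3 (S := insert v R) (by omega) with e | e <;> omega
/-- leg ends are not adjacent. Plan: `Rᶜ \ {v, nb j v}` would have cut at most 4. -/
lemma OK.leg_adj (h : OK t R) {v : V} {j k k' : Option Bool} (hv : v ∉ R) (hw : t.nb j v ∉ R)
    (h1 : t.nb k v ∈ R) (h2 : t.nb k' (t.nb j v) ∈ R) : False := by
  have hw' : t.nb j v ∉ insert v R := by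
    rw [mem_insert, not_or]
    exact ⟨t.nb_ne _ _, hw⟩
  have n : j ≠ k' := by
    rintro rfl
    rw [nb_nb] at h2
    exact hv h2
  have a := r1_ins1 t hv h1
  have a' := r1_ins2 t hw' n (by rw [nb_nb]; exact mem_insert_self _ _) (mem_insert_of_mem h2)
  have b := h.cut4
  have b1 := h.b1
  have b2 := h.b2
  have c := card_insert_of_notMem hv
  have c' := card_insert_of_notMem hw'
  have d := card_add_card_compl R
  have d' := card_add_card_compl (insert (t.nb j v) (insert v R))
  rcases h.small (S := insert (t.nb j v) (insert v R)) (by omega) with e | e | e | e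
  · omega
  · omega
  · rw [e] at c'
    omega
  · obtain ⟨z, hz⟩ : R.Nonempty := card_pos.1 (by omega)
    have := hz
    rw [← e, mem_compl] at this
    exact this (mem_insert_of_mem (mem_insert_of_mem hz))
/-- both sides of the root cut are connected (`cut_split`, `three`) -/
lemma OK.conR (h : OK t R) : t.Con R (t.bd R) := by
  intro W hW hc
  have h1 : ∀ v ∈ W, ∀ l, t.nb l v ∈ R → t.nb l v ∈ W := fun v hv l hl =>
    hc v hv l fun e => (t.mem_bd.1 e).2 hl
  by_contra hn
  push Not at hn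
  have b2 := h.b2
  obtain ⟨z, hz⟩ : Rᶜ.Nonempty := card_pos.1 (by omega)
  have a := h.three hn.1 ⟨z, by
    rw [mem_compl] at hz ⊢
    exact fun e => hz (hW e)⟩
  have b := h.three (S := R \ W) (sdiff_nonempty.2 fun e => hn.2 (Subset.antisymm hW e)) ⟨z, by
    rw [mem_compl] at hz ⊢
    exact fun e => hz (mem_sdiff.1 e).1⟩
  have := t.cut_split hW h1
  have := h.cut4
  omega

end Pool.Agent.MP_8c1b0d_co.RR

set_option autoImplicit false
set_option linter.unusedSectionVars false
open Finset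

namespace Pool.Agent.MP_8c1b0d_co.RR
namespace LB
variable {V Φ : Type} [Fintype V] [DecidableEq V] [Fintype Φ] [DecidableEq Φ] (p : LB V Φ)

lemma mem_cor {φ : Φ} {v : V} : v ∈ p.cor φ ↔ ∃ k, p.op k v = φ := by
  simp only [cor, mem_filter, mem_univ, true_and]
lemma mem_cr {B : Finset (V × Option Bool)} {φ : Φ} {h : V × Option Bool} :
    h ∈ p.cr B φ ↔ h ∈ B ∧ p.Al φ h := by
  simp only [cr, mem_filter]
lemma op_inj {k k' : Option Bool} {v : V} (h : p.op k v = p.op k' v) : k = k' := p.inj v k k' h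
lemma al_nb {φ : Φ} {v : V} {k : Option Bool} (h : p.Al φ (v, k)) : p.Al φ (p.t.nb k v, k) := by
  obtain ⟨j, hj, rfl⟩ := h
  exact p.nbr v j k hj
lemma al_op {k k' : Option Bool} (h : k ≠ k') (v : V) : p.Al (p.op k v) (v, k') :=
  ⟨k, h, rfl⟩
lemma al_op_iff {k k' : Option Bool} {v : V} : p.Al (p.op k v) (v, k') ↔ k ≠ k' := by
  refine ⟨?_, fun h => p.al_op h v⟩
  rintro ⟨j, hj, e⟩
  rw [← p.op_inj e]
  exact hj
lemma Al.mem {φ : Φ} {v : V} {k : Option Bool} (h : p.Al φ (v, k)) :
    v ∈ p.cor φ ∧ p.t.nb k v ∈ p.cor φ := by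
  obtain ⟨j', -, e'⟩ := p.al_nb h
  obtain ⟨j, -, e⟩ := h
  exact ⟨p.mem_cor.2 ⟨j, e⟩, p.mem_cor.2 ⟨j', e'⟩⟩
lemma cor_ne (φ : Φ) : (p.cor φ).Nonempty := by
  obtain ⟨k, v, hv⟩ := p.surj φ
  exact ⟨v, p.mem_cor.2 ⟨k, hv⟩⟩
lemma f2_double {α : Type} (T : Finset α) (R : Φ → α → Prop) [∀ φ a, Decidable (R φ a)] (n : ℕ)
    (h : ∀ a ∈ T, #{φ | R φ a} = n) : ∑ φ, #{a ∈ T | R φ a} = n * #T := by
  simp only [card_filter] at h ⊢
  rw [sum_comm, sum_congr rfl h, sum_const, smul_eq_mul, mul_comm]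
lemma sum_cor (S : Finset V) : ∑ φ, #(p.cor φ ∩ S) = 3 * #S := by
  rw [← f2_double S (fun φ v => v ∈ p.cor φ) 3 fun v _ => ?_]
  · refine sum_congr rfl fun φ _ => ?_
    rw [inter_comm, filter_mem_eq_inter]
  · have e : ({φ | v ∈ p.cor φ} : Finset Φ) = univ.image fun k => p.op k v := by
      ext φ
      simp only [mem_filter, mem_univ, true_and, mem_cor, mem_image]
    rw [e, card_image_of_injective _ fun k k' => p.op_inj]
    rfl
lemma f2_sum : ∑ φ, #(p.cor φ) = 3 * Fintype.card V := by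
  have := p.sum_cor univ
  simpa only [inter_univ, card_univ] using this
lemma sum_cr (B : Finset (V × Option Bool)) : ∑ φ, #(p.cr B φ) = 2 * #B := by
  refine f2_double B p.Al 2 fun h _ => ?_
  have e : ({φ | p.Al φ h} : Finset Φ) = (univ.erase h.2).image fun k => p.op k h.1 := by
    ext φ
    simp only [mem_filter, mem_univ, true_and, Al, mem_image, mem_erase, and_true]
  rw [e, card_image_of_injective _ fun k k' => p.op_inj, card_erase_of_mem (mem_univ _)]
  rfl
lemma f2_half (W : Finset V) (φ : Φ) :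
    #{h : V × Option Bool | h.1 ∈ W ∧ p.Al φ h} = 2 * #(p.cor φ ∩ W) := by
  rw [card_eq_sum_card_fiberwise (f := Prod.fst) (t := p.cor φ ∩ W), mul_comm, ← smul_eq_mul,
    ← sum_const]
  · refine sum_congr rfl fun v hv => ?_
    obtain ⟨h1, h2⟩ := mem_inter.1 hv
    obtain ⟨j, rfl⟩ := p.mem_cor.1 h1
    have e : ({h ∈ ({h : V × Option Bool | h.1 ∈ W ∧ p.Al (p.op j v) h} : Finset _) | h.1 = v} :
        Finset _) = (univ.erase j).image fun k => (v, k) := by
      ext ⟨w, k⟩
      simp only [mem_filter, mem_univ, true_and, mem_image, mem_erase, and_true, Prod.mk.injEq]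
      constructor
      · rintro ⟨⟨-, a⟩, rfl⟩
        exact ⟨k, (p.al_op_iff.1 a).symm, rfl, rfl⟩
      · rintro ⟨k, a, rfl, rfl⟩
        exact ⟨⟨h2, p.al_op (Ne.symm a) _⟩, rfl⟩
    rw [e, card_image_of_injective _ fun k k' t => (Prod.ext_iff.1 t).2,
      card_erase_of_mem (mem_univ _)]
    rfl
  · rintro ⟨v, k⟩ h
    simp only [coe_filter, mem_univ, true_and, Set.mem_ofPred_eq] at h
    exact mem_coe.2 (mem_inter.2 ⟨(Al.mem p h.2).1, h.1⟩)
/-- every corner in `S` has two half-edges on `φ`; those outside `B` are paired by `al_nb` -/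
lemma cr_even {S : Finset V} {B : Finset (V × Option Bool)} (h : p.t.Sub S B) (φ : Φ) :
    Even #(p.cr B φ) := by
  have h1 := p.f2_half S φ
  set T : Finset (V × Option Bool) := {h | h.1 ∈ S ∧ p.Al φ h} with hT
  have h2 : T ∩ B = p.cr B φ := by
    ext a
    simp only [hT, mem_inter, mem_filter, mem_univ, true_and, mem_cr]
    exact ⟨fun k => ⟨k.2, k.1.2⟩, fun k => ⟨⟨h.mem a k.1, k.2⟩, k.1⟩⟩
  have h3 : Even #(T \ B) := by
    refine even_card_inv (fun a => (p.t.nb a.2 a.1, a.2)) _ ?_ ?_ ?_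
    · rintro ⟨v, k⟩ a
      simp only [hT, mem_sdiff, mem_filter, mem_univ, true_and] at a ⊢
      have := h.cl v a.1.1 k a.2
      exact ⟨⟨this.1, p.al_nb a.1.2⟩, this.2⟩
    · rintro ⟨v, k⟩ -
      simp only [Tri.nb_nb]
    · rintro ⟨v, k⟩ - e
      exact p.t.nb_ne k v (Prod.ext_iff.1 e).1
  have h4 := card_sdiff_add_card_inter T B
  rw [h2] at h4
  rw [Nat.even_iff] at h3 ⊢
  omega
lemma f2_two {S : Finset V} {B : Finset (V × Option Bool)} (h : p.t.Sub S B) (φ : Φ) :
    (if (p.cr B φ).Nonempty then 2 else 0) ≤ #(p.cr B φ) := by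
  split_ifs with k
  · have h1 := Nat.even_iff.1 (p.cr_even h φ)
    have h2 := card_pos.2 k
    omega
  · exact Nat.zero_le _
lemma f2_ite (B : Finset (V × Option Bool)) :
    ∑ φ, (if (p.cr B φ).Nonempty then 2 else 0) = 2 * #{φ | (p.cr B φ).Nonempty} := by
  rw [← sum_filter, sum_const, smul_eq_mul, mul_comm]
lemma card_bf {S : Finset V} {B : Finset (V × Option Bool)} (h : p.t.Sub S B) :
    #{φ | (p.cr B φ).Nonempty} ≤ #B := by
  have h1 := sum_le_sum fun φ (_ : φ ∈ (univ : Finset Φ)) => p.f2_two h φ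
  rw [p.f2_ite, p.sum_cr] at h1
  omega
/-- equality in `card_bf` -/
lemma cr_le_two {S : Finset V} {B : Finset (V × Option Bool)} (h : p.t.Sub S B)
    (e : #B ≤ #{φ | (p.cr B φ).Nonempty}) (φ : Φ) : #(p.cr B φ) ≤ 2 := by
  by_contra k
  have h1 := sum_lt_sum (fun φ (_ : φ ∈ (univ : Finset Φ)) => p.f2_two h φ)
    ⟨φ, mem_univ _, by split_ifs <;> omega⟩
  rw [p.f2_ite, p.sum_cr] at h1
  omega
/-- count the half-edges on `φ` at the corners of either colour -/
lemma bip {φ : Φ} (β : V → Bool) (h : ∀ v k, p.Al φ (v, k) → β (p.t.nb k v) ≠ β v) :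
    Even #(p.cor φ) := by
  have le : ∀ W : Finset V, (∀ v k, p.Al φ (v, k) → v ∈ W → p.t.nb k v ∈ Wᶜ) →
      #(p.cor φ ∩ W) ≤ #(p.cor φ ∩ Wᶜ) := by
    intro W hW
    have h1 := p.f2_half W φ
    have h2 := p.f2_half Wᶜ φ
    have h3 : #{h : V × Option Bool | h.1 ∈ W ∧ p.Al φ h} ≤
        #{h : V × Option Bool | h.1 ∈ Wᶜ ∧ p.Al φ h} := by
      refine card_le_card_of_injOn (fun a => (p.t.nb a.2 a.1, a.2)) ?_ ?_
      · rintro ⟨v, k⟩ a
        simp only [coe_filter, mem_univ, true_and, Set.mem_ofPred_eq] at a ⊢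
        exact ⟨hW v k a.2 a.1, p.al_nb a.2⟩
      · rintro ⟨v, k⟩ - ⟨w, j⟩ - e
        obtain ⟨e1, rfl⟩ := Prod.ext_iff.1 e
        have := congrArg (p.t.nb k) e1
        simp only [Tri.nb_nb] at this
        rw [this]
    omega
  have h1 := le {v | β v = true} fun v k a b => by
    have := h v k a
    simp only [mem_compl, mem_filter, mem_univ, true_and] at b ⊢
    rwa [b] at this
  have h2 := le ({v | β v = true} : Finset V)ᶜ fun v k a b => by
    have := h v k a
    simp only [compl_compl, mem_compl, mem_filter, mem_univ, true_and] at b ⊢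
    revert this b
    cases β v <;> cases β (p.t.nb k v) <;> simp
  rw [compl_compl] at h2
  have h3 := card_sdiff_add_card_inter (p.cor φ) {v | β v = true}
  rw [sdiff_eq_inter_compl] at h3
  rw [Nat.even_iff]
  omega

lemma f3_third (k1 k2 : Option Bool) (h : k1 ≠ k2) :
    ∃ k : Option Bool, ∀ k', k' ≠ k ↔ (k' = k1 ∨ k' = k2) := by
  revert k1 k2; decide

lemma f3_other (k : Option Bool) : ∃ k' : Option Bool, k' ≠ k := by
  revert k; decide

lemma f3_sum_al (φ : Φ) (s : V) :
    ∑ k : Option Bool, (if p.Al φ (s, k) then (1 : ZMod 2) else 0) = 0 := by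
  by_cases h : ∃ k0, p.op k0 s = φ
  · obtain ⟨k0, rfl⟩ := h
    simp only [p.al_op_iff]
    revert k0; decide
  · refine sum_eq_zero fun k _ => if_neg ?_
    rintro ⟨k', -, h2⟩
    exact h ⟨k', h2⟩

lemma f3_al_iff (φ : Φ) (v : V) (k : Option Bool) :
    p.Al φ (p.t.nb k v, k) ↔ p.Al φ (v, k) :=
  ⟨fun h => by simpa using p.al_nb h, p.al_nb⟩

/-- a function on faces that agrees on the two sides of every edge is constant -/
lemma f3_const (f : Φ → ZMod 2)
    (h : ∀ v k, ∑ φ, (if p.Al φ (v, k) then 1 else 0) * f φ = 0) (u v : V) (k k' : Option Bool) :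
    f (p.op k u) = f (p.op k' v) := by
  have h1 : ∀ v k1 k2, f (p.op k1 v) = f (p.op k2 v) := by
    intro v k1 k2
    by_cases e : k1 = k2
    · rw [e]
    obtain ⟨k, hk⟩ := f3_third k1 k2 e
    have h2 := h v k
    have h3 : univ.filter (fun φ => p.Al φ (v, k)) = {p.op k1 v, p.op k2 v} := by
      ext φ
      simp only [mem_filter, mem_univ, true_and, mem_insert, mem_singleton]
      constructor
      · rintro ⟨k', a, rfl⟩
        rcases (hk k').1 a with rfl | rfl
        exacts [Or.inl rfl, Or.inr rfl]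
      · rintro (rfl | rfl)
        exacts [⟨k1, (hk _).2 (Or.inl rfl), rfl⟩, ⟨k2, (hk _).2 (Or.inr rfl), rfl⟩]
    simp only [ite_mul, one_mul, zero_mul] at h2
    rw [← sum_filter, h3, sum_pair fun h => e (p.op_inj h)] at h2
    revert h2
    generalize f (p.op k1 v) = a, f (p.op k2 v) = b
    revert a b; decide
  have h2 : ∀ w j, f (p.op k (p.t.nb j w)) = f (p.op k w) := by
    intro w j
    obtain ⟨j', hj⟩ := f3_other j
    obtain ⟨j'', -, e⟩ := p.al_nb (p.al_op hj w)
    rw [h1 _ k j'', h1 w k j']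
    exact congrArg f e
  rw [h1 v k' k]
  exact (p.conn (fun w => f (p.op k w) = f (p.op k u)) (fun w hw j => (h2 w j).trans hw)
    u v rfl).symm

/-- FR: the number of faces of a connected subgraph is at most its cycle rank. Over `ZMod 2`. Let
`T` be a transversal of the involution `(v,k) ↦ (nb k v, k)` on the half-edges at `S` outside `B`
(e.g. those with `e v < e (nb k v)` for `e = Fintype.equivFin V`), `2 * #T + #B = 3 * #S`.
`δ : (S → K) → (T → K)`, `g ↦ g v + g (nb k v)`, has only constants in its kernel (`Con`).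
`ψ : (I → K) → (T → K)`, `I` the inner faces, `h ↦ ∑ k' ≠ k, h (op k' v)` with `h` extended by zero,
is injective (if `ψ h = 0` then `h` agrees on the two faces of every edge of the graph, so it is
constant by `c.conn`, and a face along an element of `B` has value zero). The two ranges are
orthogonal (write the sum over `T` as a sum over all half-edges at `S`; those in `B` give zero;
every face at `v` occurs twice), so their dimensions add up to at most `#T`
(`LinearMap.BilinForm.finrank_orthogonal` for the dot product). -/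
theorem fr {S : Finset V} {B : Finset (V × Option Bool)} (h : p.t.Sub S B) (hc : p.t.Con S B)
    (hB : B.Nonempty) : 2 * #{φ | p.cr B φ = ∅ ∧ p.cor φ ⊆ S} + #B 
      ≤ #S + 2 := by
  classical
  let e := Fintype.equivFin V
  let H : Finset (V × Option Bool) := (S ×ˢ univ) \ B
  have hH : ∀ v k, (v, k) ∈ H ↔ v ∈ S ∧ (v, k) ∉ B := by intro v k; simp [H]
  let T : Finset (V × Option Bool) := H.filter fun t => e t.1 < e (p.t.nb t.2 t.1)
  have hT : ∀ v k, (v, k) ∈ T ↔ (v ∈ S ∧ (v, k) ∉ B) ∧ e v < e (p.t.nb k v) := by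
    intro v k; simp only [T, mem_filter, hH]
  have hTor : ∀ v k, v ∈ S → (v, k) ∉ B → (v, k) ∈ T ∨ (p.t.nb k v, k) ∈ T := by
    intro v k h1 h2
    rcases lt_or_gt_of_ne (e.injective.ne (p.t.nb_ne k v)) with h3 | h3
    · exact Or.inr ((hT _ _).2 ⟨h.cl v h1 k h2, by simpa using h3⟩)
    · exact Or.inl ((hT _ _).2 ⟨⟨h1, h2⟩, h3⟩)
  have hsum : ∀ {M : Type} [AddCommMonoid M] (f : V × Option Bool → M),
      ∑ t ∈ H, f t = ∑ t ∈ T, (f t + f (p.t.nb t.2 t.1, t.2)) := by
    intro M _ f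
    rw [sum_add_distrib, ← sum_filter_add_sum_filter_not H fun t => e t.1 < e (p.t.nb t.2 t.1)]
    congr 1
    refine sum_bij' (fun t _ => (p.t.nb t.2 t.1, t.2)) (fun t _ => (p.t.nb t.2 t.1, t.2))
      ?_ ?_ (by simp only [not_lt, mem_filter, Tri.nb_nb, Prod.mk.eta, implies_true]) (by simp) (by simp only [not_lt, mem_filter, Tri.nb_nb, Prod.mk.eta, implies_true])
    · rintro ⟨v, k⟩ ht
      obtain ⟨a, b⟩ := mem_filter.1 ht
      obtain ⟨a1, a2⟩ := (hH _ _).1 a
      exact (hTor v k a1 a2).resolve_left fun c => b ((hT _ _).1 c).2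
    · rintro ⟨v, k⟩ ht
      obtain ⟨⟨a1, a2⟩, b⟩ := (hT _ _).1 ht
      exact mem_filter.2 ⟨(hH _ _).2 (h.cl v a1 k a2), by simpa only [Tri.nb_nb, not_lt] using b.le⟩
  have hcard : 2 * #T + #B = 3 * #S := by
    have h1 := hsum (fun _ => (1 : ℕ))
    have h2 : B ⊆ S ×ˢ univ := fun b hb => by simpa using h.mem b hb
    have h3 := card_sdiff_add_card_eq_card h2
    simp only [sum_const, smul_eq_mul, mul_one, card_product, card_univ, Fintype.card_option,
      Fintype.card_bool] at h1 h3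
    change #H + _ = _ at h3
    omega
  set I : Finset Φ := {φ | p.cr B φ = ∅ ∧ p.cor φ ⊆ S} with hI
  have hI' : ∀ φ, φ ∈ I ↔ p.cr B φ = ∅ ∧ p.cor φ ⊆ S := by intro φ; simp only [hI, mem_filter, mem_univ, true_and]
  have hIB : ∀ φ ∈ I, ∀ b ∈ B, ¬ p.Al φ b := fun φ hφ b hb hal =>
    notMem_empty b (((hI' φ).1 hφ).1 ▸ p.mem_cr.2 ⟨hb, hal⟩)
  let D : Matrix T S (ZMod 2) := Matrix.of fun t s =>
    (if t.1.1 = s.1 then 1 else 0) + if p.t.nb t.1.2 t.1.1 = s.1 then 1 else 0
  let A : Matrix T I (ZMod 2) := Matrix.of fun t φ => if p.Al φ.1 t.1 then 1 else 0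
  have hDA : D.transpose * A = 0 := by
    ext s φ
    have h1 := hsum fun t => (if t.1 = s.1 then (1 : ZMod 2) else 0) * if p.Al φ.1 t then 1 else 0
    have h2 : ∑ t ∈ H, (if t.1 = s.1 then (1 : ZMod 2) else 0) * (if p.Al φ.1 t then 1 else 0) =
        ∑ t ∈ S ×ˢ univ, (if t.1 = s.1 then (1 : ZMod 2) else 0) *
          (if p.Al φ.1 t then 1 else 0) := by
      refine sum_subset sdiff_subset fun t h1 h2 => ?_
      have : t ∈ B := by by_contra c; exact h2 (mem_sdiff.2 ⟨h1, c⟩)
      rw [if_neg (hIB φ.1 φ.2 t this), mul_zero]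
    rw [h2, sum_product, sum_eq_single s.1 (fun v _ hv => by simp [hv]) (by simp only [SetLike.coe_mem, not_true_eq_false, ↓ reduceIte, mul_ite, mul_one, mul_zero, sum_boole, IsEmpty.forall_iff])] at h1
    simp only [if_true, one_mul, f3_sum_al, f3_al_iff] at h1
    rw [Matrix.mul_apply, Matrix.zero_apply, h1, ← sum_coe_sort T]
    refine sum_congr rfl fun t _ => ?_
    simp only [D, A, Matrix.transpose_apply, Matrix.of_apply, add_mul]
  have h1 := Matrix.rank_add_rank_le_card_of_mul_eq_zero hDA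
  rw [Matrix.rank_transpose, Fintype.card_coe] at h1
  obtain ⟨⟨v₀, k₀⟩, hb₀⟩ := hB
  have hv₀ : v₀ ∈ S := h.mem _ hb₀
  have hA : A.rank = #I := by
    rw [Matrix.rank, LinearMap.finrank_range_of_inj, Module.finrank_fintype_fun_eq_card,
      Fintype.card_coe]
    rw [← LinearMap.ker_eq_bot, LinearMap.ker_eq_bot']
    intro g hg
    let f : Φ → ZMod 2 := fun φ => if hφ : φ ∈ I then g ⟨φ, hφ⟩ else 0
    have hf0 : ∀ φ, φ ∉ I → f φ = 0 := fun φ hφ => dif_neg hφ
    have hT0 : ∀ v k, (v, k) ∈ T → ∑ φ, (if p.Al φ (v, k) then 1 else 0) * f φ = 0 := by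
      intro v k ht
      have := congrFun hg ⟨_, ht⟩
      rw [← sum_subset (subset_univ I) fun φ _ hφ => by rw [hf0 φ hφ, mul_zero],
        ← sum_coe_sort I]
      simpa only [univ_eq_attach, f, SetLike.coe_mem, ↓ reduceDIte, Subtype.coe_eta, ite_mul, one_mul, zero_mul, A, Matrix.mulVecBilin_apply, Matrix.mulVec, dotProduct, Matrix.of_apply, Pi.zero_apply] using this
    have hall : ∀ v k, ∑ φ, (if p.Al φ (v, k) then 1 else 0) * f φ = 0 := by
      intro v k
      by_cases c : v ∈ S ∧ (v, k) ∉ B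
      · rcases hTor v k c.1 c.2 with d | d
        · exact hT0 v k d
        · simpa only [f3_al_iff] using hT0 _ k d
      · refine sum_eq_zero fun φ _ => ?_
        split_ifs with d
        · rw [hf0, mul_zero]
          intro hφ
          exact c ⟨((hI' φ).1 hφ).2 (Al.mem p d).1, fun b => hIB φ hφ _ b d⟩
        · rw [zero_mul]
    obtain ⟨k₁, hk₁⟩ := f3_other k₀
    funext φ
    obtain ⟨v, hv⟩ := p.cor_ne φ.1
    obtain ⟨k, hk⟩ := p.mem_cor.1 hv
    have := p.f3_const f hall v v₀ k k₁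
    rw [hk, hf0 _ fun c => hIB _ c _ hb₀ (p.al_op hk₁ v₀)] at this
    simpa [f] using this
  have hD : #S ≤ D.rank + 1 := by
    have h2 := LinearMap.finrank_range_add_finrank_ker D.mulVecLin
    rw [Module.finrank_fintype_fun_eq_card, Fintype.card_coe] at h2
    have h3 : LinearMap.ker D.mulVecLin ≤ Submodule.span (ZMod 2) {fun _ => 1} := by
      intro g hg
      let f : V → ZMod 2 := fun v => if hv : v ∈ S then g ⟨v, hv⟩ else 0
      have two : ∀ a b : ZMod 2, a + b = 0 → b = a := by decide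
      have hT0 : ∀ v k, (v, k) ∈ T → f (p.t.nb k v) = f v := by
        intro v k ht
        obtain ⟨⟨a1, a2⟩, -⟩ := (hT _ _).1 ht
        have a3 := (h.cl v a1 k a2).1
        have := congrFun (LinearMap.mem_ker.1 hg) ⟨_, ht⟩
        simp only [D, Matrix.mulVecLin_apply, Matrix.mulVec, dotProduct, Matrix.of_apply, add_mul,
          sum_add_distrib, ite_mul, one_mul, zero_mul, Pi.zero_apply] at this
        rw [sum_eq_single (⟨v, a1⟩ : S) (fun s _ hs => if_neg fun c => hs (Subtype.ext c.symm))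
          (by simp only [univ_eq_attach, mem_attach, not_true_eq_false, ↓ reduceIte, IsEmpty.forall_iff]), sum_eq_single (⟨_, a3⟩ : S)
          (fun s _ hs => if_neg fun c => hs (Subtype.ext c.symm)) (by simp only [univ_eq_attach, mem_attach, not_true_eq_false, ↓ reduceIte, IsEmpty.forall_iff])] at this
        simp only [f, dif_pos a1, dif_pos a3]
        exact two _ _ (by simpa only [↓ reduceIte] using this)
      have hW := hc (S.filter fun v => f v = f v₀) (filter_subset _ _) (by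
        intro v hv k hk
        obtain ⟨a1, a2⟩ := mem_filter.1 hv
        refine mem_filter.2 ⟨(h.cl v a1 k hk).1, ?_⟩
        rcases hTor v k a1 hk with d | d
        · rw [hT0 v k d, a2]
        · rw [← hT0 _ k d, p.t.nb_nb, a2])
      have hW' := hW.resolve_left (ne_empty_of_mem (mem_filter.2 ⟨hv₀, rfl⟩))
      refine Submodule.mem_span_singleton.2 ⟨f v₀, funext fun s => ?_⟩
      have := (mem_filter.1 (hW'.symm ▸ s.2 : s.1 ∈ S.filter fun v => f v = f v₀)).2
      simpa [f] using this.symm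
    have h4 := (Submodule.finrank_mono h3).trans (finrank_span_le_card _)
    simp only [Set.toFinset_singleton, card_singleton] at h4
    rw [Matrix.rank]
    omega
  omega

end LB
end Pool.Agent.MP_8c1b0d_co.RR

set_option autoImplicit false
set_option linter.unusedSectionVars false
open Finset

namespace Pool.Agent.MP_8c1b0d_co.RR
variable {V Φ : Type} [Fintype V] [DecidableEq V] [Fintype Φ] [DecidableEq Φ]

lemma r3a_rank {α β : Type} [Fintype α] [Fintype β] [DecidableEq β] (M : Matrix α β (ZMod 2))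
    (h : ∀ g, M.mulVec g = 0 → ∀ a b, g a = g b) : Fintype.card β ≤ M.rank + 1 := by
  have h2 := LinearMap.finrank_range_add_finrank_ker M.mulVecLin
  rw [Module.finrank_fintype_fun_eq_card] at h2
  have h3 : LinearMap.ker M.mulVecLin ≤ Submodule.span (ZMod 2) {fun _ => 1} := by
    intro g hg
    rcases isEmpty_or_nonempty β with e | ⟨⟨b⟩⟩
    · rw [Subsingleton.elim g 0]
      exact Submodule.zero_mem _
    · exact Submodule.mem_span_singleton.2 ⟨g b, funext fun s => by
        simpa using h g (LinearMap.mem_ker.1 hg) b s⟩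
  have h4 := (Submodule.finrank_mono h3).trans (finrank_span_le_card _)
  simp only [Set.toFinset_singleton, card_singleton] at h4
  rw [Matrix.rank]
  omega

lemma r3a_main (p : LB V Φ) : 2 * Fintype.card Φ ≤ Fintype.card V + 4 ∧
    (Fintype.card V + 4 ≤ 2 * Fintype.card Φ → ∀ z : V × Option Bool → ZMod 2,
      (∀ v k, z (p.t.nb k v, k) = z (v, k)) → (∀ v, ∑ k, z (v, k) = 0) →
      ∃ h : Φ → ZMod 2, ∀ v k, z (v, k) = ∑ φ, (if p.Al φ (v, k) then 1 else 0) * h φ) := by
  classical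
  let e := Fintype.equivFin V
  let T : Finset (V × Option Bool) := univ.filter fun t => e t.1 < e (p.t.nb t.2 t.1)
  have hT : ∀ v k, (v, k) ∈ T ↔ e v < e (p.t.nb k v) := by
    intro v k; simp only [T, mem_filter, mem_univ, true_and]
  have hTor : ∀ v k, (v, k) ∈ T ∨ (p.t.nb k v, k) ∈ T := by
    intro v k
    rcases lt_or_gt_of_ne (e.injective.ne (p.t.nb_ne k v)) with h3 | h3
    · exact Or.inr ((hT _ _).2 (by simpa using h3))
    · exact Or.inl ((hT _ _).2 h3)
  have hsum : ∀ {M : Type} [AddCommMonoid M] (f : V × Option Bool → M),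
      ∑ t, f t = ∑ t ∈ T, (f t + f (p.t.nb t.2 t.1, t.2)) := by
    intro M _ f
    rw [sum_add_distrib, ← sum_filter_add_sum_filter_not univ fun t => e t.1 < e (p.t.nb t.2 t.1)]
    congr 1
    refine sum_bij' (fun t _ => (p.t.nb t.2 t.1, t.2)) (fun t _ => (p.t.nb t.2 t.1, t.2))
      ?_ ?_ (by simp only [not_lt, mem_filter, mem_univ, true_and, Tri.nb_nb, Prod.mk.eta, implies_true]) (by simp) (by simp only [not_lt, mem_filter, mem_univ, true_and, Tri.nb_nb, Prod.mk.eta, implies_true])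
    · rintro ⟨v, k⟩ ht
      obtain ⟨a, b⟩ := mem_filter.1 ht
      exact (hTor v k).resolve_left fun c => b ((hT _ _).1 c)
    · rintro ⟨v, k⟩ ht
      have b := (hT _ _).1 ht
      exact mem_filter.2 ⟨mem_univ _, by simpa only [Tri.nb_nb, not_lt] using b.le⟩
  have hcard : 2 * #T = 3 * Fintype.card V := by
    have h1 := hsum (fun _ => (1 : ℕ))
    simp only [sum_const, smul_eq_mul, mul_one, card_univ, Fintype.card_prod, Fintype.card_option,
      Fintype.card_bool] at h1
    omega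
  let D : Matrix T V (ZMod 2) := Matrix.of fun t s =>
    (if t.1.1 = s then 1 else 0) + if p.t.nb t.1.2 t.1.1 = s then 1 else 0
  let A : Matrix T Φ (ZMod 2) := Matrix.of fun t φ => if p.Al φ t.1 then 1 else 0
  have hDz : ∀ z : V × Option Bool → ZMod 2, (∀ v k, z (p.t.nb k v, k) = z (v, k)) →
      (∀ v, ∑ k, z (v, k) = 0) → D.transpose.mulVec (fun t => z t.1) = 0 := by
    intro z sy ev
    ext s
    have h1 := hsum fun t => (if t.1 = s then (1 : ZMod 2) else 0) * z t
    rw [Fintype.sum_prod_type, sum_eq_single s (fun v _ hv => by simp [hv]) (by simp only [mem_univ, not_true_eq_false, ↓ reduceIte, one_mul, Fintype.sum_option, Fintype.univ_bool, mem_singleton, Bool.true_eq_false, not_false_eq_true, sum_insert, sum_singleton, IsEmpty.forall_iff])] at h1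
    simp only [if_true, one_mul, ev, sy] at h1
    rw [Matrix.mulVec, dotProduct, Pi.zero_apply, h1, ← sum_coe_sort T]
    refine sum_congr rfl fun t _ => ?_
    simp only [D, Matrix.transpose_apply, Matrix.of_apply, add_mul]
  have hDA : D.transpose * A = 0 := by
    ext s φ
    exact congrFun (hDz (fun t => if p.Al φ t then 1 else 0) (fun v k => by
      simp only [LB.f3_al_iff]) fun v => p.f3_sum_al φ v) s
  have h1 := Matrix.rank_add_rank_le_card_of_mul_eq_zero hDA
  rw [Matrix.rank_transpose, Fintype.card_coe] at h1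
  have hall : ∀ (g : Φ → ZMod 2) (z : V × Option Bool → ZMod 2),
      (∀ v k, z (p.t.nb k v, k) = z (v, k)) → (A.mulVec g = fun t => z t.1) →
      ∀ v k, z (v, k) = ∑ φ, (if p.Al φ (v, k) then 1 else 0) * g φ := by
    intro g z sy hg
    have hT0 : ∀ v k, (v, k) ∈ T → z (v, k) = ∑ φ, (if p.Al φ (v, k) then 1 else 0) * g φ :=
      fun v k ht => (congrFun hg ⟨_, ht⟩).symm
    intro v k
    rcases hTor v k with d | d
    · exact hT0 v k d
    · simpa only [LB.f3_al_iff, sy] using hT0 _ k d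
  have hA : Fintype.card Φ ≤ A.rank + 1 := by
    refine r3a_rank A fun g hg a b => ?_
    obtain ⟨k, v, rfl⟩ := p.surj a
    obtain ⟨k', v', rfl⟩ := p.surj b
    exact p.f3_const g (fun v k => (hall g (fun _ => 0) (fun _ _ => rfl) hg v k).symm) v v' k k'
  have hD : Fintype.card V ≤ D.rank + 1 := by
    refine r3a_rank D fun g hg a b => ?_
    have two : ∀ a b : ZMod 2, a + b = 0 → b = a := by decide
    have hT0 : ∀ v k, (v, k) ∈ T → g (p.t.nb k v) = g v := by
      intro v k ht
      have := congrFun hg ⟨_, ht⟩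
      simp only [D, Matrix.mulVec, dotProduct, Matrix.of_apply, add_mul,
        sum_add_distrib, ite_mul, one_mul, zero_mul, Pi.zero_apply, sum_ite_eq, mem_univ,
        if_true] at this
      exact two _ _ this
    refine (p.conn (fun w => g w = g a) (fun w hw k => ?_) a b rfl).symm
    rcases hTor w k with d | d
    · rw [hT0 w k d, hw]
    · rw [← hT0 _ k d, p.t.nb_nb, hw]
  refine ⟨by omega, fun eu z sy ev => ?_⟩
  have h2 := LinearMap.finrank_range_add_finrank_ker D.transpose.mulVecLin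
  rw [Module.finrank_fintype_fun_eq_card, Fintype.card_coe] at h2
  have h3 : LinearMap.range A.mulVecLin ≤ LinearMap.ker D.transpose.mulVecLin := by
    rintro _ ⟨g, rfl⟩
    rw [LinearMap.mem_ker, Matrix.mulVecLin_apply, Matrix.mulVecLin_apply, Matrix.mulVec_mulVec,
      hDA, Matrix.zero_mulVec]
  have h4 : D.transpose.rank = D.rank := Matrix.rank_transpose D
  have h5 := Submodule.eq_of_le_of_finrank_le h3 (by
    unfold Matrix.rank at h4 hA hD
    omega)
  have h6 : (fun t : T => z t.1) ∈ LinearMap.range A.mulVecLin := by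
    rw [h5]
    exact hDz z sy ev
  obtain ⟨g, hg⟩ := h6
  exact ⟨g, hall g z sy hg⟩

lemma r3a_pair (p : LB V Φ) (h : Φ → ZMod 2) (v : V) {k k1 k2 : Option Bool} (e : k1 ≠ k2)
    (hk : ∀ k', k' ≠ k ↔ (k' = k1 ∨ k' = k2)) :
    ∑ φ, (if p.Al φ (v, k) then 1 else 0) * h φ = h (p.op k1 v) + h (p.op k2 v) := by
  have h3 : univ.filter (fun φ => p.Al φ (v, k)) = {p.op k1 v, p.op k2 v} := by
    ext φ
    simp only [mem_filter, mem_univ, true_and, mem_insert, mem_singleton]
    constructor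
    · rintro ⟨k', a, rfl⟩
      rcases (hk k').1 a with rfl | rfl
      exacts [Or.inl rfl, Or.inr rfl]
    · rintro (rfl | rfl)
      exacts [⟨k1, (hk _).2 (Or.inl rfl), rfl⟩, ⟨k2, (hk _).2 (Or.inr rfl), rfl⟩]
  simp only [ite_mul, one_mul, zero_mul]
  rw [← sum_filter, h3, sum_pair fun h => e (p.op_inj h)]

/-- At most `n/2 + 2` labels. Plan: the matrices `D`, `A` of the proof of `LB.fr` with `S = univ`,
`B = ∅`, `I = univ`: `Dᵀ A = 0`, `rank D ≥ n - 1` (`conn`), the kernel of `A` consists of constants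
(`f3_const`, `surj`), `2 #T = 3 n`. -/
theorem LB.bound [Nonempty V] (p : LB V Φ) : 2 * Fintype.card Φ ≤ Fintype.card V + 4 := by
  exact (r3a_main p).1

/-- Every even subgraph is a sum of faces. Plan: same matrices; with `eul` the ranks add up to
`#T`, so `ker Dᵀ = range A`. -/
theorem PL.planar (p : PL V Φ) (z : Option Bool → V → ZMod 2)
    (sy : ∀ k v, z k (p.t.nb k v) = z k v)
    (ev : ∀ v, z (some false) v + z (some true) v = z none v) :
    ∃ h : Φ → ZMod 2, ∀ v, z (some false) v = h (p.op (some true) v) + h (p.op none v) ∧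
      z (some true) v = h (p.op (some false) v) + h (p.op none v) := by
  obtain ⟨h, hh⟩ := (r3a_main p.toLB).2 p.eul (fun t => z t.2 t.1) (fun v k => sy k v) fun v => by
    have two : ∀ a b c : ZMod 2, a + b = c → c + (b + a) = 0 := by decide
    rw [Fintype.sum_option, Fintype.sum_bool]
    exact two _ _ _ (ev v)
  exact ⟨h, fun v => ⟨(hh v _).trans (r3a_pair p.toLB h v (by decide) (by decide)),
    (hh v _).trans (r3a_pair p.toLB h v (by decide) (by decide))⟩⟩

end Pool.Agent.MP_8c1b0d_co.RR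

set_option autoImplicit false
set_option linter.unusedSectionVars false
open Finset

namespace Pool.Agent.MP_8c1b0d_co.RR
variable {V Φ : Type} [Fintype V] [DecidableEq V] [Fintype Φ] [DecidableEq Φ]

/-- Faces are connected. Plan: otherwise relabel the corners of `φ` in `W` by a new label
(`Option Φ`); this is again an `LB`, with one more label, against `bound` and `eul`. -/
theorem PL.cor_sub (p : PL V Φ) {φ : Φ} {W : Finset V}
    (h : ∀ v ∈ W, ∀ k, p.Al φ (v, k) → p.t.nb k v ∈ W) {u : V}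
    (h1 : u ∈ W) (h2 : u ∈ p.cor φ) : p.cor φ ⊆ W := by
  intro w hw
  by_contra hn
  obtain ⟨ku, eu⟩ : ∃ k, p.op k u = φ := by simpa only [LB.cor, mem_filter, mem_univ, true_and] using h2
  obtain ⟨kw, ew⟩ : ∃ k, p.op k w = φ := by simpa only [LB.cor, mem_filter, mem_univ, true_and] using hw
  have : Nonempty V := ⟨u⟩
  let q : LB V (Option Φ) :=
    { t := p.t
      op := fun k v => if p.op k v = φ ∧ v ∈ W then none else some (p.op k v)
      inj := fun v k k' e => by
        split_ifs at e with a b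
        · exact p.inj v k k' (a.1.trans b.1.symm)
        · exact p.inj v k k' (Option.some.inj e)
      nbr := fun v k k' n => by
        obtain ⟨j, hj, e⟩ := p.nbr v k k' n
        refine ⟨j, hj, ?_⟩
        have i : (p.op k v = φ ∧ p.t.nb k' v ∈ W) ↔ (p.op k v = φ ∧ v ∈ W) :=
          and_congr_right fun a => ⟨fun b => by
            have := h _ b k' ⟨j, hj, e.trans a⟩
            rwa [p.t.nb_nb] at this, fun b => h _ b k' ⟨k, n, a⟩⟩
        simp only [e, i]
      surj := fun ψ => by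
        rcases ψ with _ | ψ
        · exact ⟨ku, u, if_pos ⟨eu, h1⟩⟩
        · by_cases e : ψ = φ
          · exact ⟨kw, w, by rw [if_neg fun a => hn a.2, ew, e]⟩
          · obtain ⟨k, v, a⟩ := p.surj ψ
            exact ⟨k, v, by rw [if_neg fun b => e (a.symm.trans b.1), a]⟩
      conn := p.conn }
  have b := q.bound
  have e := p.eul
  rw [Fintype.card_option] at b
  omega

/-- recolouring: the same graph with another colouring. Plan: `π v k` with
`t'.nb k v = p.t.nb (π v k) v` is a permutation of the colours for each `v` (`nb_inj`, `adj_iff`);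
`op' k v = p.op (π v k) v`. -/
theorem PL.recol (p : PL V Φ) (t' : Tri V) (h : ∀ u v, t'.Adj u v ↔ p.t.Adj u v) :
    ∃ p' : PL V Φ, p'.t = t' := by
  have ad : ∀ (s : Tri V) u v, s.Adj u v ↔ ∃ k, v = s.nb k u := fun s u v =>
    ⟨fun a => by
      rcases a with a | a | a
      exacts [⟨some false, a⟩, ⟨some true, a⟩, ⟨none, a⟩], fun ⟨k, a⟩ => by
      rcases k with _ | _ | _
      exacts [.inr (.inr a), .inl a, .inr (.inl a)]⟩
  choose π hπ using fun v k => (ad p.t v _).1 ((h v _).1 ((ad t' v _).2 ⟨k, rfl⟩))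
  have inj : ∀ v, Function.Injective (π v) := fun v k k' e =>
    t'.nb_inj (v := v) (by rw [hπ, hπ, e])
  have sur : ∀ v, Function.Surjective (π v) := fun v => Finite.surjective_of_injective (inj v)
  have bk : ∀ v k, π (t'.nb k v) k = π v k := fun v k => by
    apply p.t.nb_inj (v := t'.nb k v)
    rw [← hπ, t'.nb_nb, hπ v k, p.t.nb_nb]
  refine ⟨⟨⟨t', fun k v => p.op (π v k) v, fun v k k' e => inj v (p.inj v _ _ e),
    fun v k k' n => ?_, fun φ => ?_, fun P hP => p.conn P fun v a k => ?_⟩, p.eul⟩, rfl⟩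
  · obtain ⟨j, hj, e⟩ := p.nbr v (π v k) (π v k') fun a => n (inj v a)
    obtain ⟨j', rfl⟩ := sur (t'.nb k' v) j
    refine ⟨j', fun a => hj (by rw [a, bk]), ?_⟩
    rw [← e, ← hπ]
  · obtain ⟨k, v, e⟩ := p.surj φ
    obtain ⟨k', rfl⟩ := sur v k
    exact ⟨k', v, e⟩
  · obtain ⟨k', rfl⟩ := sur v k
    rw [← hπ]
    exact hP v a k'

end Pool.Agent.MP_8c1b0d_co.RR

set_option autoImplicit false
set_option linter.unusedSectionVars false
open Finset

namespace Pool.Agent.MP_8c1b0d_co.RR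
namespace PL
variable {V Φ : Type} [Fintype V] [DecidableEq V] [Fintype Φ] [DecidableEq Φ] (p : PL V Φ)

lemma inner {S : Finset V} {B : Finset (V × Option Bool)} (h : p.t.Sub S B) {φ : Φ}
    (h0 : p.cr B φ = ∅) : p.cor φ ⊆ S ∨ p.cor φ ⊆ Sᶜ := by
  by_cases k : ∃ u ∈ p.cor φ, u ∈ S
  · obtain ⟨u, h1, h2⟩ := k
    refine Or.inl (p.cor_sub (fun v hv j a => (h.cl v hv j fun b => ?_).1) h2 h1)
    exact notMem_empty _ (h0 ▸ p.mem_cr.2 ⟨b, a⟩)
  · exact Or.inr fun u hu => mem_compl.2 fun a => k ⟨u, hu, a⟩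
lemma cr_bd (S : Finset V) (φ : Φ) :
    p.cr (p.t.bd S) φ = ∅ ↔ p.cor φ ⊆ S ∨ p.cor φ ⊆ Sᶜ := by
  refine ⟨p.inner (p.t.sub_bd S), fun h => eq_empty_of_forall_notMem ?_⟩
  rintro ⟨v, k⟩ a
  obtain ⟨a1, a2⟩ := p.mem_cr.1 a
  obtain ⟨b1, b2⟩ := p.t.mem_bd.1 a1
  obtain ⟨c1, c2⟩ := LB.Al.mem _ a2
  rcases h with h | h
  exacts [b2 (h c2), mem_compl.1 (h c1) b1]
/-- An induced 2-regular subgraph separates: `c.planar` for `f v = [v ∈ C ∧ x v ∈ C]`,
`g v = [v ∈ C ∧ y v ∈ C]` (then `f + g = [v ∈ C ∧ m v ∈ C]`). -/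
lemma sep {C : Finset V} (h : ∀ v ∈ C, ∃ k, p.t.nb k v ∉ C ∧ ∀ k', k' ≠ k → p.t.nb k' v ∈ C) :
    ∃ val : Φ → ZMod 2, (∀ z ∉ C, ∀ k k', val (p.op k z) = val (p.op k' z)) ∧
      (∀ v ∈ C, ∀ k k', p.t.nb k v ∉ C → k' ≠ k → val (p.op k v) ≠ val (p.op k' v)) ∧
      ∀ z k, z ∉ C → p.t.nb k z ∉ C → val (p.op none z) = val (p.op none (p.t.nb k z)) := by
  let e : Option Bool → V → ZMod 2 := fun k v => if v ∈ C ∧ p.t.nb k v ∈ C then 1 else 0
  have e1 : ∀ k v, e k (p.t.nb k v) = e k v := fun k v => by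
    simp only [e, p.t.nb_nb, and_comm]
  have e0 : ∀ v ∉ C, ∀ k, e k v = 0 := fun v hv k => if_neg fun c => hv c.1
  have e2 : ∀ v ∈ C, ∀ k, p.t.nb k v ∉ C → e k v = 0 ∧ ∀ k', k' ≠ k → e k' v = 1 :=
    fun v hv k hk => by
      obtain ⟨k0, -, b⟩ := h v hv
      obtain rfl : k = k0 := by_contra fun c => hk (b k c)
      exact ⟨if_neg fun c => hk c.2, fun k' c => if_pos ⟨hv, b k' c⟩⟩
  have e3 : ∀ v, e (some false) v + e (some true) v = e none v := fun v => by
    by_cases hv : v ∈ C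
    · obtain ⟨k, a, -⟩ := h v hv
      obtain ⟨b, c⟩ := e2 v hv k a
      rcases k with _ | _ | _
      · rw [b, c _ (by decide), c _ (by decide)]; decide
      · rw [b, c (some true) (by decide), c none (by decide)]; decide
      · rw [b, c (some false) (by decide), c none (by decide)]; decide
    · rw [e0 v hv, e0 v hv, e0 v hv, add_zero]
  obtain ⟨val, hv⟩ := p.planar e e1 e3
  have h1 : ∀ z ∉ C, ∀ k, val (p.op k z) = val (p.op none z) := fun z hz k => by
    obtain ⟨a, b⟩ := hv z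
    rw [e0 z hz] at a b
    have q : ∀ r s : ZMod 2, 0 = r + s → r = s := by decide
    rcases k with _ | _ | _
    exacts [rfl, q _ _ b, q _ _ a]
  refine ⟨val, fun z hz k k' => (h1 z hz k).trans (h1 z hz k').symm, fun v hC k k' hk hk' => ?_,
    fun z k hz hk => ?_⟩
  · obtain ⟨a, b⟩ := hv v
    obtain ⟨c, d⟩ := e2 v hC k hk
    have q1 : ∀ r s t : ZMod 2, 1 = s + t → 1 = r + t → t ≠ r ∧ t ≠ s := by decide
    have q2 : ∀ r s t : ZMod 2, 0 = s + t → 1 = r + t → r ≠ t ∧ r ≠ s := by decide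
    rcases k with _ | _ | _
    · rw [d _ (by decide)] at a b
      rcases k' with _ | _ | _
      exacts [(hk' rfl).elim, (q1 _ _ _ a b).1, (q1 _ _ _ a b).2]
    · rw [c] at a
      rw [d _ (by decide)] at b
      rcases k' with _ | _ | _
      exacts [(q2 _ _ _ a b).1, (hk' rfl).elim, (q2 _ _ _ a b).2]
    · rw [c] at b
      rw [d _ (by decide)] at a
      rcases k' with _ | _ | _
      exacts [(q2 _ _ _ b a).1, (q2 _ _ _ b a).2, (hk' rfl).elim]
  · obtain ⟨k0, h0⟩ := exists_ne k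
    obtain ⟨k1, -, a⟩ := p.al_nb (p.al_op h0 z)
    rw [← h1 z hz k0, ← h1 _ hk k1]
    exact congrArg val a.symm
/-- a bond: both sides are connected -/
structure Bond (X : Finset V) : Prop where
  ne : X.Nonempty
  ne' : Xᶜ.Nonempty
  con : p.t.Con X (p.t.bd X)
  con' : p.t.Con Xᶜ (p.t.bd Xᶜ)

lemma f4_inner (X : Finset V) :
    ({φ | p.cr (p.t.bd X) φ = ∅ ∧ p.cor φ ⊆ X} : Finset Φ) = ({φ | p.cor φ ⊆ X} : Finset Φ) := by
  ext φ
  simp only [mem_filter, mem_univ, true_and]
  exact ⟨fun h => h.2, fun h => ⟨(p.cr_bd X φ).2 (Or.inl h), h⟩⟩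

variable {p}

/-- Every face is inside `X`, inside `Xᶜ`, or crosses (`cr_bd`). `fr` for both sides, `euler`,
`card_bf`, `cut_compl`: all three inequalities are equalities. -/
lemma Bond.count {X : Finset V} (h : p.Bond X) :
    p.t.cut X ≤ #{φ | (p.cr (p.t.bd X) φ).Nonempty} ∧
    #X + 2 ≤ 2 * #{φ | p.cor φ ⊆ X} + p.t.cut X ∧
    #Xᶜ + 2 ≤ 2 * #{φ | p.cor φ ⊆ Xᶜ} + p.t.cut X := by
  have c3 : 1 ≤ p.t.cut X := by
    obtain ⟨u, hu⟩ := h.ne
    obtain ⟨v, hv⟩ := h.ne'
    rw [p.t.cut_eq]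
    by_contra c
    refine mem_compl.1 hv (p.conn (fun w => w ∈ X) (fun w a k => ?_) u v hu)
    by_contra b
    exact c (card_pos.2 ⟨(w, k), p.t.mem_bd.2 ⟨a, b⟩⟩)
  have e1 := p.t.cut_eq X
  have e2 := p.t.cut_eq Xᶜ
  have e3 := p.t.cut_compl X
  have n1 : (p.t.bd X).Nonempty := card_pos.1 (by omega)
  have n2 : (p.t.bd Xᶜ).Nonempty := card_pos.1 (by omega)
  have f1 := p.fr (p.t.sub_bd X) h.con n1
  have f2 := p.fr (p.t.sub_bd Xᶜ) h.con' n2
  rw [f4_inner] at f1 f2
  have b := p.card_bf (p.t.sub_bd X)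
  have eu := p.eul
  have ec := card_add_card_compl X
  have cov : (univ : Finset Φ) ⊆
      (({φ | p.cor φ ⊆ X} : Finset Φ) ∪ ({φ | p.cor φ ⊆ Xᶜ} : Finset Φ)) ∪
      ({φ | (p.cr (p.t.bd X) φ).Nonempty} : Finset Φ) := by
    intro φ _
    simp only [mem_union, mem_filter, mem_univ, true_and]
    rcases (p.cr (p.t.bd X) φ).eq_empty_or_nonempty with e | e
    · exact Or.inl ((p.cr_bd X φ).1 e)
    · exact Or.inr e
  have c1 := card_le_card cov
  have c2 := card_union_le (({φ | p.cor φ ⊆ X} : Finset Φ) ∪ ({φ | p.cor φ ⊆ Xᶜ} : Finset Φ))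
    {φ | (p.cr (p.t.bd X) φ).Nonempty}
  have c4 := card_union_le ({φ | p.cor φ ⊆ X} : Finset Φ) {φ | p.cor φ ⊆ Xᶜ}
  rw [card_univ] at c1
  omega

/-- a face crosses a bond at most twice (`cr_le_two`), so `cor_sub` applies to `X ∪ R` -/
lemma Bond.path {X R : Finset V} (h : p.Bond X) {φ : Φ} {h1 h2 : V × Option Bool} (n : h1 ≠ h2)
    (a1 : h1 ∈ p.cr (p.t.bd X) φ) (a2 : h2 ∈ p.cr (p.t.bd X) φ) (r1 : p.t.nb h1.2 h1.1 ∈ R)
    (r2 : p.t.nb h2.2 h2.1 ∈ R) (hR : ∀ v ∈ R, ∀ k, p.Al φ (v, k) → p.t.nb k v ∈ X ∪ R) :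
    p.cor φ ⊆ X ∪ R ∧ ∀ d ∈ p.cr (p.t.bd X) φ, d = h1 ∨ d = h2 := by
  have two := p.cr_le_two (p.t.sub_bd X) (by rw [← p.t.cut_eq]; exact h.count.1) φ
  have all : ∀ d ∈ p.cr (p.t.bd X) φ, d = h1 ∨ d = h2 := by
    intro d hd
    have s : ({h1, h2} : Finset (V × Option Bool)) ⊆ p.cr (p.t.bd X) φ := by
      intro e he
      rcases mem_insert.1 he with rfl | he
      · exact a1
      · rw [mem_singleton.1 he]; exact a2
    have e := eq_of_subset_of_card_le s (by rw [card_pair n]; exact two)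
    rw [← e] at hd
    simpa using hd
  refine ⟨?_, all⟩
  obtain ⟨v1, k1⟩ := h1
  have b1 := p.mem_cr.1 a1
  refine p.cor_sub (u := v1) ?_ (mem_union_left _ (p.t.mem_bd.1 b1.1).1) (LB.Al.mem _ b1.2).1
  intro v hv k al
  rcases mem_union.1 hv with hv | hv
  · by_cases e : p.t.nb k v ∈ X
    · exact mem_union_left _ e
    · rcases all (v, k) (p.mem_cr.2 ⟨p.t.mem_bd.2 ⟨hv, e⟩, al⟩) with q | q
      · rw [← q] at r1; exact mem_union_right _ r1
      · rw [← q] at r2; exact mem_union_right _ r2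
  · exact hR v hv k al

/-- An edge of `Xᶜ` both of whose faces meet `X` is a bridge of `Xᶜ`: otherwise `fr` for
`B = bd Xᶜ ∪ {(u,k), (nb k u,k)}` contradicts `count`. A closed proper part contains exactly one of
the two ends (`con'`); take it or its complement in `Xᶜ`. -/
lemma Bond.bridge {X : Finset V} (h : p.Bond X) {u : V} {k : Option Bool} (hu : u ∉ X)
    (hu' : p.t.nb k u ∉ X) (hf : ∀ φ, p.Al φ (u, k) → ¬ p.cor φ ⊆ Xᶜ) :
    ∃ W ⊆ Xᶜ, u ∈ W ∧ p.t.nb k u ∉ W ∧
      ∀ v ∈ W, ∀ k', p.t.nb k' v ∉ X → (v, k') ≠ (u, k) → p.t.nb k' v ∈ W := by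
  set B : Finset (V × Option Bool) := insert (u, k) (insert (p.t.nb k u, k) (p.t.bd Xᶜ)) with hB
  have mB : ∀ v k', (v, k') ∈ B ↔
      (v = u ∧ k' = k) ∨ (v = p.t.nb k u ∧ k' = k) ∨ (v ∉ X ∧ p.t.nb k' v ∈ X) := by
    intro v k'
    simp only [hB, mem_insert, Prod.mk.injEq, p.t.mem_bd, mem_compl, not_not]
  have sub : p.t.Sub Xᶜ B := by
    constructor
    · rintro ⟨v, k'⟩ hv
      rcases (mB v k').1 hv with ⟨e, -⟩ | ⟨e, -⟩ | ⟨e, -⟩
      · exact mem_compl.2 (e ▸ hu)
      · exact mem_compl.2 (e ▸ hu')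
      · exact mem_compl.2 e
    · intro v hv k' hk
      rw [mB] at hk
      have hv' := mem_compl.1 hv
      refine ⟨mem_compl.2 fun e => hk (Or.inr (Or.inr ⟨hv', e⟩)), fun e => ?_⟩
      rcases (mB _ _).1 e with ⟨e1, rfl⟩ | ⟨e1, rfl⟩ | ⟨-, e1⟩
      · exact hk (Or.inr (Or.inl ⟨by rw [← e1, p.t.nb_nb], rfl⟩))
      · refine hk (Or.inl ⟨?_, rfl⟩)
        have := congrArg (p.t.nb k') e1
        simpa using this
      · rw [p.t.nb_nb] at e1; exact hv' e1
  have cB : #B = p.t.cut X + 2 := by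
    rw [hB, card_insert_of_notMem, card_insert_of_notMem, ← p.t.cut_eq, p.t.cut_compl]
    · rw [p.t.mem_bd]; simp [hu]
    · simp only [mem_insert, Prod.mk.injEq, p.t.mem_bd, mem_compl, not_not, and_true, not_or]
      exact ⟨(p.t.nb_ne k u).symm, fun e => hu' e.2⟩
  have ncon : ¬ p.t.Con Xᶜ B := by
    intro hc
    have f := p.fr sub hc ⟨(u, k), by simp [hB]⟩
    have e : ({φ | p.cr B φ = ∅ ∧ p.cor φ ⊆ Xᶜ} : Finset Φ) =
        ({φ | p.cor φ ⊆ Xᶜ} : Finset Φ) := by
      ext φ
      simp only [mem_filter, mem_univ, true_and]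
      refine ⟨fun h => h.2, fun hφ => ⟨?_, hφ⟩⟩
      refine eq_empty_of_forall_notMem ?_
      rintro ⟨v, k'⟩ hd
      obtain ⟨d1, d2⟩ := p.mem_cr.1 hd
      rcases (mB v k').1 d1 with ⟨rfl, rfl⟩ | ⟨rfl, rfl⟩ | ⟨-, e⟩
      · exact hf φ d2 hφ
      · have := p.al_nb d2
        rw [p.t.nb_nb] at this
        exact hf φ this hφ
      · exact mem_compl.1 (hφ (LB.Al.mem _ d2).2) e
    rw [e, cB] at f
    have := h.count.2.2
    omega
  unfold Tri.Con at ncon
  push Not at ncon
  obtain ⟨W, hW, cl, w0, w1⟩ := ncon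
  have one : ¬ (u ∈ W ↔ p.t.nb k u ∈ W) := by
    intro e
    refine (h.con' W hW ?_).elim w0.ne_empty w1
    intro v hv k' hk
    by_cases b : (v, k') ∈ B
    · rcases (mB v k').1 b with ⟨rfl, rfl⟩ | ⟨rfl, rfl⟩ | ⟨b1, b2⟩
      · exact e.1 hv
      · rw [p.t.nb_nb]; exact e.2 hv
      · exact absurd (p.t.mem_bd.2 ⟨mem_compl.2 b1, fun q => mem_compl.1 q b2⟩) hk
    · exact cl v hv k' b
  by_cases uW : u ∈ W
  · have uW' : p.t.nb k u ∉ W := fun e => one ⟨fun _ => e, fun _ => uW⟩
    refine ⟨W, hW, uW, uW', fun v hv k' q1 q2 => cl v hv k' fun b => ?_⟩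
    rcases (mB v k').1 b with ⟨rfl, rfl⟩ | ⟨rfl, rfl⟩ | ⟨-, b2⟩
    · exact q2 rfl
    · exact uW' hv
    · exact q1 b2
  · have uW' : p.t.nb k u ∈ W := by
      by_contra e
      exact one ⟨fun q => absurd q uW, fun q => absurd q e⟩
    refine ⟨Xᶜ \ W, sdiff_subset, mem_sdiff.2 ⟨mem_compl.2 hu, uW⟩,
      fun e => (mem_sdiff.1 e).2 uW', fun v hv k' q1 q2 => mem_sdiff.2 ⟨mem_compl.2 q1, fun w => ?_⟩⟩
    obtain ⟨v1, v2⟩ := mem_sdiff.1 hv
    have := cl _ w k' fun b => by
      rcases (mB _ _).1 b with ⟨e, -⟩ | ⟨e, rfl⟩ | ⟨-, e⟩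
      · exact uW (e ▸ w)
      · apply q2
        have := congrArg (p.t.nb k') e
        simp only [p.t.nb_nb] at this
        rw [this]
      · rw [p.t.nb_nb] at e; exact mem_compl.1 v1 e
    rw [p.t.nb_nb] at this
    exact v2 this

end PL
end Pool.Agent.MP_8c1b0d_co.RR

end

-- part MP_8c1b0d_co.RR.G
section

set_option autoImplicit false
set_option linter.unusedSectionVars false
open Finset

namespace Pool.Agent.MP_8c1b0d_co.RR

/-- ports and half-edges of the gadget -/
abbrev HH (I W : Type) := (I × Bool) ⊕ (W × Bool)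

/-- A gadget on the ports `I × Bool`; `mo i` says that the two ports of `i` come from one `m`-leg;
`hd i` is the vertex of the gadget that plays the end of this leg. -/
structure Gad (I W : Type) (mo : I → Bool) where
  m : W → W
  o : HH I W → HH I W
  hd : I → Option W
  mm : ∀ w, m (m w) = w
  m_ne : ∀ w, m w ≠ w
  oo : ∀ x, o (o x) = x
  o_ne : ∀ x, o x ≠ x
  dead : ∀ i c, mo i = true → hd i = none → o (.inl (i, c)) = .inl (i, !c)
  live : ∀ i w, hd i = some w → mo i = true ∧ ∀ c, o (.inl (i, c)) = .inr (w, c)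
  con : ∀ w, ∃ p c, o (.inl p) = .inr (w, c) ∨ o (.inl p) = .inr (m w, c)

section
variable {I W : Type} [Fintype I] [DecidableEq I] [Fintype W] [DecidableEq W] {mo : I → Bool}

/-- the certificate near the root -/
structure RD0 (g : Gad I W mo) (Y : Type) where
  A0 : Finset W
  A1 : Finset W
  lab : HH I W → Option Y
  D : Finset (HH I W)
  F : Finset Y
  /-- twice the real weight -/
  w : Y → ℕ
  /-- number of real unsplit vertices -/
  x : Y → ℕ
  /-- the real part is not empty -/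
  ne : Y → Prop

namespace RD0
variable {g : Gad I W mo} {Y : Type} [Fintype Y] [DecidableEq Y] (r : RD0 g Y)
/-- labelled `y` and not cut -/
def opn (h : HH I W) (y : Y) : Prop := r.lab h = some y ∧ h ∉ r.D
instance (h : HH I W) (y : Y) : Decidable (r.opn h y) := by unfold opn; infer_instance
/-- the end of the leg `i` is absorbed in `y` -/
def ab (i : I) (y : Y) : Prop :=
  mo i = true ∧ (∀ c, r.opn (.inl (i, c)) y) ∧ ∀ u ∈ r.A1, g.hd i ≠ some u
instance (i : I) (y : Y) : Decidable (r.ab i y) := by unfold ab; infer_instance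
/-- open ports at legs that are not absorbed -/
def K (y : Y) : Finset (I × Bool) := {p | r.opn (.inl p) y ∧ ¬ r.ab p.1 y}
def AL (y : Y) : Finset I := {i | r.ab i y}
/-- unsplit vertices of the gadget -/
def J (y : Y) : Finset W := {u | u ∉ r.A0 ∧ u ∉ r.A1 ∧ r.lab (.inr (u, false)) = some y}
/-- cut half-edges at `u` -/
def dA (u : W) (y : Y) : ℕ := #{c | r.lab (.inr (u, c)) = some y ∧ .inr (u, c) ∈ r.D}
/-- twice the cost at `u` -/
def cU (u : W) (y : Y) : ℕ :=
  2 * r.dA u y + #{c | r.lab (.inr (u, c)) = some y ∧ (u ∈ r.A0 ∨ u ∈ r.A1)}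
/-- slack at the end of a leg -/
def LT (u : W) (y : Y) : ℕ := (if u ∈ r.A0 ∧ r.lab (.inr (u, false)) = some y then 2 else 0) +
  2 * r.dA u y + if r.dA u y = 2 then 2 else 0
/-- the slack of a label -/
def S (y : Y) : ℕ := ∑ u, if ∃ i, g.hd i = some u then r.LT u y else r.cU u y
def fl (y : Y) : ℕ := if y ∈ r.F then 4 else 0
def tiny (y : Y) : Prop := ∃ p q : I × Bool, p.1 ≠ q.1 ∧ (mo p.1 = true ∨ mo q.1 = true) ∧
  r.K y = {p, q} ∧ r.AL y = ∅ ∧ r.x y = 0
def full (y : Y) : Prop := (∀ i, mo i = true → r.ab i y) ∧ ∀ y', y' ≠ y → r.x y' = 0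
end RD0

structure RD (g : Gad I W mo) (Y : Type) [Fintype Y] [DecidableEq Y] extends RD0 g Y where
  m0 : ∀ u ∈ A0, g.m u ∈ A0
  m1 : ∀ u ∈ A1, g.m u ∈ A1
  disj : Disjoint A0 A1
  l0 : ∀ u ∉ A1, lab (.inr (u, true)) = lab (.inr (u, false))
  l1 : ∀ u ∉ A0, ∀ c, lab (.inr (g.m u, c)) = lab (.inr (u, c))
  lX : ∀ u, u ∉ A0 → u ∉ A1 → lab (.inr (u, false)) ≠ none
  dX : ∀ u c, .inr (u, c) ∈ D → u ∉ A0 ∧ u ∉ A1
  cl : ∀ h y, toRD0.opn h y → toRD0.opn (g.o h) y
  surj : ∀ y, ne y ∨ ∃ η, lab (.inr η) = some y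
  pne : ∀ p y, lab (.inl p) = some y → ne y
  xne : ∀ y, 0 < x y → ne y
  ev : ∀ y, Even (x y)
  b0 : ∀ y, 2 * #(toRD0.K y) + 2 * #(toRD0.AL y) ≤ w y
  b1 : ∀ y, ne y → 6 ≤ w y ∧ (w y ≤ 7 → toRD0.tiny y)
  b2 : ∀ y, 0 < x y → 8 ≤ w y
  b3 : ∀ y ∈ F, 6 ≤ x y → 10 ≤ w y ∧ (12 ≤ w y ∨ toRD0.full y)
  b4 : ∀ y ∈ F, 4 ≤ x y → (toRD0.AL y).Nonempty → (toRD0.K y).Nonempty → 10 ≤ w y
  b5 : ∀ y ∈ F, 4 ≤ x y → 2 ≤ #(toRD0.AL y) → 10 ≤ w y
  b6 : ∀ y ∈ F, 4 ≤ #(toRD0.K y) + #(toRD0.AL y) →
    (4 ≤ x y ∨ (0 < x y ∧ (toRD0.AL y).Nonempty) ∨ 4 ≤ #(toRD0.AL y)) → 10 ≤ w y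
  big : ∀ y ∈ F, 6 ≤ x y + #(toRD0.J y)
  tt : ∀ y y' i j, y ≠ y' → i ≠ j → mo i = true → mo j = true → w y ≤ 7 → w y' ≤ 7 →
    (∃ c, (i, c) ∈ toRD0.K y) → (∃ c, (j, c) ∈ toRD0.K y) → (∃ c, (i, c) ∈ toRD0.K y') →
    (∃ c, (j, c) ∈ toRD0.K y') → False
  cnt : 12 + ∑ y, (w y + ∑ u, toRD0.cU u y) ≤
    ∑ y, (8 + toRD0.fl y + 2 * #(toRD0.K y) + 2 * #(toRD0.AL y))

/-- no certificate -/
def Gad.Good (g : Gad I W mo) : Prop := ∀ (Y : Type) [Fintype Y] [DecidableEq Y], RD g Y → False

/-- a fixed-point-free involution -/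
def Pairing {T : Type} (f : T → T) : Prop := (∀ p, f (f p) = p) ∧ ∀ p, f p ≠ p

/-- the equations of the gadget in the state `s` for the colour `k` -/
def Gad.Eqs (g : Gad I W mo) (s : W → Bool) (k : Bool) (v : HH I W → ZMod 2) : Prop :=
  (∀ x, v (g.o x) = v x) ∧ (∀ u, s u = k → ∀ c, v (.inr (g.m u, c)) = v (.inr (u, c))) ∧
    ∀ u, s u ≠ k → v (.inr (u, true)) = v (.inr (u, false))

/-- the inner pairing `f` closes the gadget -/
def Gad.Cls (g : Gad I W mo) (s : W → Bool) (k : Bool) (f : I × Bool → I × Bool) : Prop :=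
  ∀ v : HH I W → ZMod 2, g.Eqs s k v → (∀ p, v (.inl (f p)) = v (.inl p)) → ∃ d, ∀ x, v x = d

/-- the inner pairing `f` closes the outer pairing `τ` when the live legs have the colours `lam` -/
def OCl (lv : Finset I) (τ : I × Bool → I × Bool) (lam : I → Bool) (k : Bool)
    (f : I × Bool → I × Bool) : Prop :=
  ∀ v v' : I × Bool → ZMod 2, (∀ p, v (f p) = v p) → (∀ p, v' (τ p) = v' p) →
    (∀ i c, (i ∉ lv ∨ lam i = k) → v' (i, c) = v (i, c)) →
    (∀ i ∈ lv, lam i ≠ k → v (i, true) = v (i, false) ∧ v' (i, true) = v' (i, false)) →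
    ∃ d, ∀ p, v p = d ∧ v' p = d

/-- some colouring of the live legs leaves no outer loop -/
def Valid (lv : Finset I) (τ : Bool → I × Bool → I × Bool) : Prop :=
  ∃ lam : I → Bool, ∀ k, ∀ Z : Finset (I × Bool),
    (∀ z ∈ Z, z.1 ∈ lv ∧ lam z.1 ≠ k ∧ τ k z ∈ Z ∧ (z.1, !z.2) ∈ Z) → Z = ∅

/-- an admissible renumbering of the ports -/
def Adm (mo : I → Bool) (e : I × Bool ≃ I × Bool) : Prop := ∀ i,
  (mo i = true → ∃ j b, mo j = true ∧ ∀ c, e (i, c) = (j, xor c b)) ∧
  (mo i = false → ∀ c, mo (e (i, c)).1 = false)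

/-- a solution of the gadget gives a solution of the outer state -/
def Gad.Works (g : Gad I W mo) (lv : Finset I) (τ : Bool → I × Bool → I × Bool) : Prop :=
  ∃ e, Adm mo e ∧ ∀ f : Bool → I × Bool → I × Bool, (∀ k, Pairing (f k)) → ∀ s : W → Bool,
    (∀ u, s (g.m u) = s u) → (∀ k, g.Cls s k fun p => e.symm (f k (e p))) →
    ∃ b lam, ∀ k, OCl lv (τ k) lam k (f (xor k b))

/-- an outer state -/
structure Out (mo : I → Bool) (lv : Finset I) (τ : Bool → I × Bool → I × Bool) : Prop where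
  pr : ∀ k, Pairing (τ k)
  lm : ∀ i ∈ lv, mo i = true
  dd : ∀ i c k, mo i = true → i ∉ lv → τ k (i, c) = (i, !c)
  va : Valid lv τ
end

/-- no vertices -/
def gE (n : ℕ) (mo : Fin n → Bool) : Gad (Fin n) Empty mo where
  m := id
  o := Sum.map (fun p => (p.1, !p.2)) id
  hd := fun _ => none
  mm := fun w => w.elim
  m_ne := fun w => w.elim
  oo := by rintro (⟨i, c⟩ | ⟨w, -⟩); exacts [by simp, w.elim]
  o_ne := by rintro (⟨i, c⟩ | ⟨w, -⟩); exacts [by simp, w.elim]
  dead := fun _ _ _ _ => rfl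
  live := fun _ w => w.elim
  con := fun w => w.elim

def mo2 : Fin 2 → Bool := fun _ => false
def mo3 : Fin 3 → Bool := fun i => i != 2
def mo4 : Fin 4 → Bool := fun _ => true

/-- one site on the ports of `0` and `1` -/
def oN (n : ℕ) : HH (Fin (n + 2)) Bool → HH (Fin (n + 2)) Bool
  | .inl (i, c) => if i = 0 then .inr (false, c) else if i = 1 then .inr (true, c) else .inl (i, !c)
  | .inr (u, c) => .inl (if u then 1 else 0, c)
def hN (n : ℕ) (i : Fin (n + 2)) : Option Bool :=
  if i = 0 then some false else if i = 1 then some true else none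

def gN2 : Gad (Fin 2) Bool mo2 := ⟨not, oN 0, fun _ => none, by decide, by decide, by decide,
  by decide, by decide, by decide, by decide⟩
def gN3 : Gad (Fin 3) Bool mo3 := ⟨not, oN 1, hN 1, by decide, by decide, by decide,
  by decide, by decide, by decide, by decide⟩
def gN4 : Gad (Fin 4) Bool mo4 := ⟨not, oN 2, hN 2, by decide, by decide, by decide,
  by decide, by decide, by decide, by decide⟩

/-- `false` is the end of the leg `0`, `true` carries the two ports of `2` -/
def oB2 : HH (Fin 3) Bool → HH (Fin 3) Bool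
  | .inl (i, c) => if i = 0 then .inr (false, c) else if i = 2 then .inr (true, c) else .inl (i, !c)
  | .inr (u, c) => .inl (if u then 2 else 0, c)
def gB2 : Gad (Fin 3) Bool mo3 := ⟨not, oB2, fun i => if i = 0 then some false else none,
  by decide, by decide, by decide, by decide, by decide, by decide, by decide⟩

/-- `(j, false)` is the end of the leg `j`, `(j, true)` the far end; `(j, true), false` goes to the
port `(2, j)`, the half-edges `(j, true), true` are joined -/
def oB3 : HH (Fin 3) (Bool × Bool) → HH (Fin 3) (Bool × Bool)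
  | .inl (i, c) => if i = 2 then .inr ((c, true), false) else .inr ((i == 1, false), c)
  | .inr ((j, false), c) => .inl (if j then 1 else 0, c)
  | .inr ((j, true), false) => .inl (2, j)
  | .inr ((j, true), true) => .inr ((!j, true), true)
def gB3 : Gad (Fin 3) (Bool × Bool) mo3 := ⟨fun u => (u.1, !u.2), oB3,
  fun i => if i = 2 then none else some (i == 1, false),
  by decide, by decide, by decide, by decide, by decide, by decide, by decide⟩

/-- the far ends form a 4-cycle -/
def oE4 : HH (Fin 4) (Fin 4 × Bool) → HH (Fin 4) (Fin 4 × Bool)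
  | .inl (i, c) => .inr ((i, false), c)
  | .inr ((i, false), c) => .inl (i, c)
  | .inr ((i, true), true) => .inr ((i + 1, true), false)
  | .inr ((i, true), false) => .inr ((i - 1, true), true)
def gE4 : Gad (Fin 4) (Fin 4 × Bool) mo4 := ⟨fun u => (u.1, !u.2), oE4, fun i => some (i, false),
  by decide, by decide, by decide, by decide, by decide, by decide, by decide⟩

section
variable {V : Type} [Fintype V] [DecidableEq V]

/-- the core: the pole without the ends of `m`-legs -/
def Q (t : Tri V) (R : Finset V) : Finset V := {v | v ∉ R ∧ t.m v ∉ R}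

/-- a numbering of the half-edges that leave the core -/
structure Ports (t : Tri V) (R : Finset V) {I : Type} (mo : I → Bool) where
  pt : I × Bool → V × Bool
  a : I → V
  inj : Function.Injective pt
  mem : ∀ p, (pt p).1 ∈ Q t R ∧ (t.o (pt p)).1 ∉ Q t R
  sur : ∀ h : V × Bool, h.1 ∈ Q t R → (t.o h).1 ∉ Q t R → ∃ p, pt p = h
  am : ∀ i, mo i = true → a i ∉ R ∧ t.m (a i) ∈ R ∧ ∀ c, (t.o (pt (i, c))).1 = a i
  cl : ∀ i, mo i = false → ∀ c, (t.o (pt (i, c))).1 ∈ R

/-- the equations inside the core -/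
def Inn (t : Tri V) (R : Finset V) (r : V → Bool) (k : Bool) (g : V × Bool → ZMod 2) : Prop :=
  (∀ h : V × Bool, h.1 ∈ Q t R → (t.o h).1 ∈ Q t R → g (t.o h) = g h) ∧
  (∀ v ∈ Q t R, r v = k → ∀ c, g (t.m v, c) = g (v, c)) ∧
  ∀ v ∈ Q t R, r v ≠ k → g (v, true) = g (v, false)

/-- `t'` is a recolouring of `t` that is the same at the root and at the ends of `m`-legs -/
structure Same (t t' : Tri V) (R : Finset V) : Prop where
  adj : ∀ u v, t'.Adj u v ↔ t.Adj u v
  eq : ∀ v ∉ Q t R, ∀ k, t'.nb k v = t.nb k v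

/-- terminals -/
def Tm (t : Tri V) (P live : Finset V) (h : V × Bool) : Prop :=
  (h.1 ∈ P ∧ (t.o h).1 ∉ P) ∨ h.1 ∈ live

/-- the pole `P` closes every valid outer state -/
def Closes (t : Tri V) (P : Finset V) : Prop :=
  ∀ (live : Finset V) (τ : Bool → V × Bool → V × Bool),
    (∀ u ∈ live, u ∈ P ∧ t.m u ∉ P) →
    (∀ k h, Tm t P live h → Tm t P live (τ k h) ∧ τ k (τ k h) = h ∧ τ k h ≠ h) →
    (∃ lam : V → Bool, ∀ k, ∀ Z : Finset (V × Bool),
      (∀ z ∈ Z, z.1 ∈ live ∧ lam z.1 ≠ k ∧ τ k z ∈ Z ∧ (z.1, !z.2) ∈ Z) → Z = ∅) →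
    ∃ t' : Tri V, (∀ u v, t'.Adj u v ↔ t.Adj u v) ∧ (∀ v ∉ P, ∀ k, t'.nb k v = t.nb k v) ∧
    ∃ r : V → Bool, (∀ v ∈ P, t'.m v ∈ P → r (t'.m v) = r v) ∧
    ∀ (k : Bool) (g g' : V × Bool → ZMod 2),
      (∀ h : V × Bool, h.1 ∈ P → (t'.o h).1 ∈ P → g (t'.o h) = g h) →
      (∀ v ∈ P, t'.m v ∈ P → (r v = k → ∀ c, g (t'.m v, c) = g (v, c)) ∧
        (r v ≠ k → g (v, true) = g (v, false))) →
      (∀ v ∈ P, t'.m v ∉ P → v ∉ live → g (v, true) = g (v, false)) →
      (∀ u ∈ live, (r u = k → ∀ c, g' (u, c) = g (u, c)) ∧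
        (r u ≠ k → g (u, true) = g (u, false) ∧ g' (u, true) = g' (u, false))) →
      (∀ h, Tm t P live h → (if (τ k h).1 ∈ live then g' (τ k h) else g (τ k h)) =
        if h.1 ∈ live then g' h else g h) →
      ∃ d, (∀ h : V × Bool, h.1 ∈ P → g h = d) ∧ ∀ h : V × Bool, h.1 ∈ live → g' h = d
end

end Pool.Agent.MP_8c1b0d_co.RR

set_option autoImplicit false
set_option linter.unusedSectionVars false
open Finset

namespace Pool.Agent.MP_8c1b0d_co.RR

variable {I W : Type} [Fintype I] [DecidableEq I] [Fintype W] [DecidableEq W] {mo : I → Bool}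
  {g : Gad I W mo} {Y : Type} [Fintype Y] [DecidableEq Y]

/-- `hd` is injective (`live`, `oo`). -/
theorem Gad.hd_inj (g : Gad I W mo) {i j : I} {u : W} (hi : g.hd i = some u)
    (hj : g.hd j = some u) : i = j := by
  have h1 := (g.live i u hi).2 false
  have h2 := (g.live j u hj).2 false
  have h3 := congrArg g.o (h1.trans h2.symm)
  rw [g.oo, g.oo] at h3
  exact (Prod.mk.inj (Sum.inl.inj h3)).1

theorem h3_sum (g : Gad I W mo) (f : W → ℕ) :
    ∑ u, (if ∃ i, g.hd i = some u then f u else 0) = ∑ i, (g.hd i).elim 0 f := by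
  have h1 : ∀ i, (g.hd i).elim 0 f = ∑ u, if g.hd i = some u then f u else 0 := fun i => by
    cases g.hd i <;> simp only [Option.elim_none, reduceCtorEq, ↓ reduceIte, sum_const_zero, Option.elim_some, Option.some.injEq, sum_ite_eq, mem_univ]
  simp only [h1]
  rw [sum_comm]
  refine sum_congr rfl fun u _ => ?_
  split_ifs with h
  · obtain ⟨i, hi⟩ := h
    rw [sum_eq_single i (fun j _ hj => if_neg fun h => hj (g.hd_inj h hi)) (by simp only [mem_univ, not_true_eq_false, ite_eq_right_iff, IsEmpty.forall_iff]), if_pos hi]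
  · exact (sum_eq_zero fun i _ => if_neg fun hi => h ⟨i, hi⟩).symm

theorem h3_ind (o : Option Y) : ∑ y, (if o = some y then 1 else 0) ≤ 1 := by
  cases o <;> simp only [reduceCtorEq, ↓ reduceIte, sum_const_zero, zero_le, Option.some.injEq, sum_ite_eq, mem_univ, Std.le_refl]

theorem h3_bool (p : Bool → Prop) [DecidablePred p] :
    #{c | p c} = (if p false then 1 else 0) + if p true then 1 else 0 := by
  rw [card_filter, Fintype.sum_bool, add_comm]

theorem h3_one (r : RD g Y) (i : I) :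
    ∑ y, (2 * #{c | (i, c) ∈ r.K y} + 2 * (if i ∈ r.AL y then 1 else 0) +
      (g.hd i).elim 0 fun u => r.LT u y) ≤
    (if mo i = true then 2 else 4) + ∑ y, (g.hd i).elim 0 fun u => r.cU u y := by
  have hK : ∀ c y, (i, c) ∈ r.K y ↔ r.opn (.inl (i, c)) y ∧ ¬ r.ab i y := fun c y => by
    simp only [RD0.K, mem_filter, mem_univ, true_and]
  have hA : ∀ y, i ∈ r.AL y ↔ r.ab i y := fun y => by simp only [RD0.AL, mem_filter, mem_univ, true_and]
  simp only [hK, hA, h3_bool]
  rcases hh : g.hd i with _ | u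
  · have e0 := h3_ind (r.lab (.inl (i, false)))
    have e1 := h3_ind (r.lab (.inl (i, true)))
    simp only [Option.elim, add_zero, sum_const_zero]
    cases hm : mo i
    · refine (sum_le_sum (g := fun y => 2 * (if r.lab (.inl (i, false)) = some y then 1 else 0) +
        2 * if r.lab (.inl (i, true)) = some y then 1 else 0) fun y _ => ?_).trans ?_
      · have : ¬ r.ab i y := fun h => by simpa [hm] using h.1
        simp only [this, RD0.opn]
        by_cases a0 : r.lab (.inl (i, false)) = some y <;>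
          by_cases a1 : r.lab (.inl (i, true)) = some y <;> simp only [a0, true_and, not_false_eq_true, and_true, ite_not, a1, ↓ reduceIte, mul_zero, add_zero, mul_one, Nat.reduceAdd, ge_iff_le, false_and, mul_ite, zero_add, Std.le_refl] <;> split_ifs <;> simp
      · rw [sum_add_distrib, ← mul_sum, ← mul_sum]
        simp only [Bool.false_eq_true, if_false]
        omega
    · refine (sum_le_sum (g := fun y => 2 * if r.lab (.inl (i, false)) = some y then 1 else 0)
        fun y _ => ?_).trans ?_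
      · have h1 : ∀ c, r.opn (.inl (i, c)) y → r.opn (.inl (i, !c)) y := fun c h => by
          simpa only [g.dead i c hm hh] using r.cl _ _ h
        have h2 : ∀ c, r.opn (.inl (i, c)) y → r.ab i y := fun c h =>
          ⟨hm, fun c' => by
            by_cases e : c' = c
            · exact e ▸ h
            · rw [Bool.eq_not_of_ne e]; exact h1 c h, by simp [hh]⟩
        rw [if_neg fun h => h.2 (h2 _ h.1), if_neg fun h => h.2 (h2 _ h.1)]
        by_cases h : r.ab i y
        · simp [h, (h.2.1 false).1]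
        · simp [h]
      · rw [← mul_sum]
        simp only [if_true]
        omega
  · obtain ⟨hm, ho⟩ := g.live i u hh
    have e0 := h3_ind (r.lab (.inr (u, false)))
    have e1 := h3_ind (r.lab (.inr (u, true)))
    simp only [Option.elim, hm, if_true]
    refine (sum_le_sum (g := fun y => (if r.lab (.inr (u, false)) = some y then 1 else 0) +
      (if r.lab (.inr (u, true)) = some y then 1 else 0) + r.cU u y) fun y _ => ?_).trans ?_
    · have h1 : ∀ c, r.opn (.inl (i, c)) y ↔
          r.lab (.inr (u, c)) = some y ∧ .inr (u, c) ∉ r.D := fun c =>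
        ⟨fun h => by simpa only [ho, RD0.opn] using r.cl _ _ h, fun h => by
          have := r.cl (.inr (u, c)) y h
          rwa [← ho, g.oo] at this⟩
      have h2 : r.ab i y ↔ (∀ c, r.opn (.inl (i, c)) y) ∧ u ∉ r.A1 := by
        simp only [RD0.ab, hm, true_and, hh, ne_eq, Option.some.injEq]
        exact and_congr_right fun _ => ⟨fun h h' => h u h' rfl, fun h v hv e => h (e ▸ hv)⟩
      have h3 := r.l0 u
      have h4 := r.dX u false
      have h5 := r.dX u true
      have h6 : u ∈ r.A0 → u ∉ r.A1 := fun h => disjoint_left.1 r.disj h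
      simp only [h2, Bool.forall_bool, h1, RD0.LT, RD0.cU, RD0.dA, h3_bool]
      by_cases b1 : u ∈ r.A1
      · have b0 : u ∉ r.A0 := fun h => h6 h b1
        have d0 : .inr (u, false) ∉ r.D := fun h => (h4 h).2 b1
        have d1 : .inr (u, true) ∉ r.D := fun h => (h5 h).2 b1
        by_cases a0 : r.lab (.inr (u, false)) = some y <;>
          by_cases a1 : r.lab (.inr (u, true)) = some y <;> simp [a0, a1, b0, b1, d0, d1]
      · rw [h3 b1]
        by_cases b0 : u ∈ r.A0
        · have d0 : .inr (u, false) ∉ r.D := fun h => (h4 h).1 b0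
          have d1 : .inr (u, true) ∉ r.D := fun h => (h5 h).1 b0
          by_cases a0 : r.lab (.inr (u, false)) = some y <;> simp [a0, b0, b1, d0, d1]
        · by_cases a0 : r.lab (.inr (u, false)) = some y <;>
            by_cases d0 : .inr (u, false) ∈ r.D <;> by_cases d1 : .inr (u, true) ∈ r.D <;>
            simp [a0, b0, b1, d0, d1]
    · rw [sum_add_distrib, sum_add_distrib]
      omega

/-- Shares. For a label `y` and an index `i` let `k i y = #{c | (i,c) ∈ K y}`,
`op i y = #{c | opn (inl (i,c)) y}` (so `∑ y, op i y ≤ 2`). Show for every `i`: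
* `mo i = false`: `hd i = none` (`live`), `i ∉ AL y`, `2 * k i y ≤ 2 * op i y`: total at most 4.
* `mo i = true`, `hd i = none`: an open port makes both open (`dead`, `cl`), so `k i y = 0` and
  `2 * [i ∈ AL y] ≤ op i y`: total at most 2.
* `hd i = some u`: `∑ y, (2 * k i y + 2 * [i ∈ AL y] + LT u y) ≤ 2 + ∑ y, cU u y`; `(i,c)` is open
  with label `y` iff `inr (u,c)` is (`live`, `cl`, `oo`). `u ∈ A1`: `dA = 0` (`dX`), `LT = 0`, not
  absorbed, `op i y ≤ cU u y`. `u ∈ A0`: only the label `y0` of `inr (u,false)` counts, both ports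
  are open, absorbed: `0 + 2 + 2 ≤ 2 + 2`. Unsplit: only `y0` counts; `dA = 0, 1, 2` gives
  `2 + 0 ≤ 2 + 0`, `2 + 2 ≤ 2 + 2`, `0 + 6 ≤ 2 + 4`.
Then sum over `i`; the sum over the `u` of the form `hd i` is a sum over `i` by `hd_inj`. -/
theorem RD.share (r : RD g Y) (h4 : #{i | mo i = true} + 2 * #{i | mo i = false} = 4) :
    ∑ y, (2 * #(r.K y) + 2 * #(r.AL y) + r.S y) ≤ 8 + ∑ y, ∑ u, r.cU u y := by
  have hK : ∀ y, #(r.K y) = ∑ i, #{c | (i, c) ∈ r.K y} := fun y => by
    simp only [card_filter]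
    rw [← Fintype.sum_prod_type (f := fun p => if p ∈ r.K y then 1 else 0)]
    simp only [sum_ite_mem, univ_inter, sum_const, smul_eq_mul, mul_one]
  have hA : ∀ y, #(r.AL y) = ∑ i, if i ∈ r.AL y then 1 else 0 := fun y => by simp only [sum_ite_mem, univ_inter, sum_const, smul_eq_mul, mul_one]
  have hS : ∀ y, r.S y + ∑ i, ((g.hd i).elim 0 fun u => r.cU u y) =
      ∑ i, ((g.hd i).elim 0 fun u => r.LT u y) + ∑ u, r.cU u y := fun y => by
    rw [← h3_sum, ← h3_sum, RD0.S, ← sum_add_distrib, ← sum_add_distrib]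
    exact sum_congr rfl fun u _ => by split_ifs <;> omega
  have h1 := sum_le_sum fun i (_ : i ∈ univ) => h3_one r i
  have h2 : ∑ i, (if mo i = true then 2 else 4 : ℕ) = 8 := by
    have : ∀ i, (if mo i = true then 2 else 4 : ℕ) =
        2 * ((if mo i = true then 1 else 0) + 2 * if mo i = false then 1 else 0) := fun i => by
      cases mo i <;> simp
    simp only [this]
    rw [← mul_sum, sum_add_distrib, ← mul_sum, ← card_filter, ← card_filter, h4]
    rfl
  rw [sum_add_distrib, h2, sum_comm, sum_comm (s := (univ : Finset I))] at h1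
  have h3 : ∑ y, (2 * #(r.K y) + 2 * #(r.AL y) + r.S y) +
      ∑ y, ∑ i, ((g.hd i).elim 0 fun u => r.cU u y) =
      ∑ y, ∑ i, (2 * #{c | (i, c) ∈ r.K y} + 2 * (if i ∈ r.AL y then 1 else 0) +
        (g.hd i).elim 0 fun u => r.LT u y) + ∑ y, ∑ u, r.cU u y := by
    rw [← sum_add_distrib, ← sum_add_distrib]
    refine sum_congr rfl fun y _ => ?_
    rw [sum_add_distrib, sum_add_distrib, ← mul_sum, ← mul_sum, ← hK, ← hA, add_assoc, hS]
    omega
  omega

/-- `cnt`, `share`, `sum_add_distrib`, `omega`. -/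
theorem RD.fin (r : RD g Y) (h4 : #{i | mo i = true} + 2 * #{i | mo i = false} = 4) (e : Y → ℕ)
    (he : ∑ y, e y ≤ 3) (h : ∀ y, 8 + r.fl y ≤ r.w y + r.S y + e y) : False := by
  have h1 := r.cnt
  have h2 := r.share h4
  have h3 := sum_le_sum fun y (_ : y ∈ univ) => h y
  simp only [sum_add_distrib] at h1 h2 h3
  omega

/-- At most one label has a positive excess, and it is at most 2 (or 3). -/
theorem RD.fin1 (r : RD g Y) (h4 : #{i | mo i = true} + 2 * #{i | mo i = false} = 4)
    (h3 : ∀ y, 8 + r.fl y ≤ r.w y + r.S y + 3)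
    (h : ∀ y y', y ≠ y' → 8 + r.fl y ≤ r.w y + r.S y ∨ 8 + r.fl y' ≤ r.w y' + r.S y') : False := by
  by_cases h1 : ∃ y0, ¬ 8 + r.fl y0 ≤ r.w y0 + r.S y0
  · obtain ⟨y0, h1⟩ := h1
    refine r.fin h4 (fun y => if y = y0 then 3 else 0) (by simp only [sum_ite_eq', mem_univ, ↓ reduceIte, Std.le_refl]) fun y => ?_
    split_ifs with e
    · exact h3 y
    · exact (h y y0 e).resolve_right h1
  · exact r.fin h4 (fun _ => 0) (by simp only [sum_const_zero, zero_le]) fun y => not_not.1 fun h' => h1 ⟨y, h'⟩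

/-- A flagged label without unsplit gadget vertices has `6 ≤ x`; two such are not both short. -/
theorem RD.outF (r : RD g Y) {y : Y} (hy : y ∈ r.F) (hJ : r.J y = ∅) :
    10 ≤ r.w y ∧ (12 ≤ r.w y ∨ (r.full y ∧ 6 ≤ r.x y)) := by
  have h1 : 6 ≤ r.x y := by simpa [hJ] using r.big y hy
  obtain ⟨h2, h3⟩ := r.b3 y hy h1
  exact ⟨h2, h3.imp_right fun h => ⟨h, h1⟩⟩

/-- `J y` is closed under `m`, so its size is even; with `ev` and `big`. -/
theorem RD.J_m (r : RD g Y) {y : Y} {u : W} (hu : u ∈ r.J y) : g.m u ∈ r.J y := by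
  simp only [RD0.J, mem_filter, mem_univ, true_and] at hu ⊢
  refine ⟨fun h => hu.1 ?_, fun h => hu.2.1 ?_, (r.l1 u hu.1 false).trans hu.2.2⟩
  · simpa only [g.mm] using r.m0 _ h
  · simpa only [g.mm] using r.m1 _ h

end Pool.Agent.MP_8c1b0d_co.RR

set_option autoImplicit false
set_option linter.unusedSectionVars false
open Finset

namespace Pool.Agent.MP_8c1b0d_co.RR

/-! All statements were checked by a brute force over all certificates (maximum 10 < 12).
Put `eps y = 8 + fl y - w y - S y`; use `RD.fin` / `RD.fin1` of H3. A label with `¬ ne y` has no port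
(`pne`) and `x y = 0` (`xne`). `tiny y` gives `K y = {p, q}`, `AL y = ∅`, `x y = 0`. -/

section
variable {I W : Type} [Fintype I] [DecidableEq I] [Fintype W] [DecidableEq W] {mo : I → Bool}
  {g : Gad I W mo} {Y : Type} [Fintype Y] [DecidableEq Y]

theorem f1_gen (r : RD g Y) (h4 : #{i | mo i = true} + 2 * #{i | mo i = false} = 4)
    (hu : ∀ y, y ∉ r.F → 8 ≤ r.w y + r.S y)
    (hf : ∀ y ∈ r.F, r.J y ≠ ∅ → 0 < r.x y ∧ 9 ≤ r.w y + r.S y)
    (hJ : ∀ y y', y ≠ y' → r.J y = ∅ ∨ r.J y' = ∅) : False := by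
  have hf' : ∀ y ∈ r.F, 0 < r.x y ∧ 9 ≤ r.w y + r.S y := fun y hy => by
    by_cases h : r.J y = ∅
    · have h1 := r.big y hy
      have h2 := (r.outF hy h).1
      rw [h, card_empty] at h1
      omega
    · exact hf y hy h
  have key : ∀ y y', y ≠ y' → r.J y = ∅ →
      8 + r.fl y ≤ r.w y + r.S y ∨ 8 + r.fl y' ≤ r.w y' + r.S y' := fun y y' hne h => by
    by_cases hy : y ∈ r.F
    · by_cases hy' : y' ∈ r.F
      · rcases (r.outF hy h).2 with h1 | ⟨h1, -⟩
        · left; rw [RD0.fl, if_pos hy]; omega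
        · have h2 := h1.2 y' hne.symm
          have h3 := (hf' y' hy').1
          omega
      · right; rw [RD0.fl, if_neg hy']; exact hu y' hy'
    · left; rw [RD0.fl, if_neg hy]; exact hu y hy
  refine r.fin1 h4 (fun y => ?_) fun y y' hne => ?_
  · by_cases hy : y ∈ r.F
    · have := (hf' y hy).2
      rw [RD0.fl, if_pos hy]; omega
    · have := hu y hy
      rw [RD0.fl, if_neg hy]; omega
  · rcases hJ y y' hne with h | h
    · exact key y y' hne h
    · exact (key y' y hne.symm h).symm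

theorem f1_w (r : RD g Y) {y : Y} (h : r.ne y) (ht : ¬ r.tiny y) : 8 ≤ r.w y := by
  by_contra h1
  exact ht ((r.b1 y h).2 (by omega))
end

/-- `W` empty: every label has `ne` (`surj`); an open port of an `m`-leg is absorbed (`dead`, `cl`),
so nothing is tiny and `8 ≤ w`; a flagged label has `12 ≤ w` unless it is full (`outF`), and two
flagged labels are not both full. -/
theorem gE_good (n : ℕ) (mo : Fin n → Bool)
    (h4 : #{i | mo i = true} + 2 * #{i | mo i = false} = 4) : (gE n mo).Good := by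
  intro Y _ _ r
  have hJ : ∀ y, r.J y = ∅ := fun y => eq_empty_of_isEmpty _
  have hab : ∀ y, ∀ p ∈ r.K y, mo p.1 ≠ true := by
    rintro y ⟨i, c⟩ hp hm
    obtain ⟨h1, h2⟩ := (mem_filter.1 hp).2
    refine h2 ⟨hm, fun c' => ?_, fun u => u.elim⟩
    have h3 : r.opn (.inl (i, !c)) y := r.cl _ y h1
    cases c <;> cases c' <;> assumption
  refine f1_gen r h4 (fun y _ => le_add_right (f1_w r ?_ ?_)) (fun y _ h => absurd (hJ y) h)
    fun y _ _ => .inl (hJ y)
  · exact (r.surj y).resolve_right fun ⟨η, _⟩ => η.1.elim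
  · rintro ⟨p, q, -, h1, h2, -⟩
    rcases h1 with h1 | h1
    · exact hab y p (h2 ▸ mem_insert_self _ _) h1
    · exact hab y q (h2 ▸ mem_insert_of_mem (mem_singleton_self _)) h1

/-- One site on the four colour ports. Nothing is tiny (`mo2 = false`). `S y = cU false y + cU true y`.
Unsplit site with label `y0`: flagged gives `4 ≤ x`, `8 ≤ w`; a `D` gives `2 ≤ S`; no `D` gives
`#K = 4` and `b6`; unflagged and `¬ ne`: all four half-edges are in `D`, `S = 8`. If another flagged
label is full then `x y0 = 0`, so `y0` is not flagged. Split site: a label with `¬ ne` is impossible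
(its half-edge is open, `cl`, `pne`). -/
theorem gN2_good : gN2.Good := by
  intro Y _ _ r
  have h4 : #{i | mo2 i = true} + 2 * #{i | mo2 i = false} = 4 := by decide
  have hw : ∀ y, r.ne y → 8 ≤ r.w y := fun y h => f1_w r h (by
    rintro ⟨p, q, -, h1, -⟩
    simp [mo2] at h1)
  have hp : ∀ η y, r.lab (.inr η) = some y → .inr η ∉ r.D → r.ne y := by
    rintro ⟨u, c⟩ y h1 h2
    have h3 : r.opn (.inl (if u then 1 else 0, c)) y := r.cl (.inr (u, c)) y ⟨h1, h2⟩
    exact r.pne _ y h3.1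
  by_cases hs : ∀ u, u ∈ r.A0 ∨ u ∈ r.A1
  · have hJ : ∀ y, r.J y = ∅ := fun y => filter_eq_empty_iff.2 fun u _ h => by
      rcases hs u with h1 | h1
      exacts [h.1 h1, h.2.1 h1]
    refine f1_gen r h4 (fun y _ => le_add_right (hw y ?_)) (fun y _ h => absurd (hJ y) h)
      fun y _ _ => .inl (hJ y)
    rcases r.surj y with h | ⟨⟨u, c⟩, h⟩
    · exact h
    · refine hp _ y h fun h1 => ?_
      rcases hs u with h2 | h2
      exacts [(r.dX u c h1).1 h2, (r.dX u c h1).2 h2]
  have hs' : ∀ u, u ∉ r.A0 ∧ u ∉ r.A1 := by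
    push Not at hs
    obtain ⟨u, h0, h1⟩ := hs
    have h2 : (!u) ∉ r.A0 := fun h => h0 (by simpa [gN2] using r.m0 _ h)
    have h3 : (!u) ∉ r.A1 := fun h => h1 (by simpa [gN2] using r.m1 _ h)
    intro v
    cases u <;> cases v <;> exact ⟨by assumption, by assumption⟩
  obtain ⟨y0, hy0⟩ := Option.ne_none_iff_exists'.1 (r.lX false (hs' _).1 (hs' _).2)
  have hl : ∀ u c, r.lab (.inr (u, c)) = some y0 := by
    have a1 := r.l0 false (hs' _).2
    have a2 : ∀ c, r.lab (.inr (true, c)) = r.lab (.inr (false, c)) := r.l1 false (hs' _).1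
    intro u c
    cases u <;> cases c <;> simp only [a2, a1, hy0]
  have hJ : ∀ y, y ≠ y0 → r.J y = ∅ := fun y h => filter_eq_empty_iff.2 fun u _ h1 =>
    h (Option.some.inj ((h1.2.2.symm.trans (hl u false))))
  have hS : r.S y0 = 2 * #{c | Sum.inr (true, c) ∈ r.D} + 2 * #{c | Sum.inr (false, c) ∈ r.D} := by
    simp [RD0.S, RD0.cU, RD0.dA, gN2, hl, hs']
  refine f1_gen r h4 (fun y hy => ?_) (fun y hy h => ?_) fun y y' hne => ?_
  · by_cases hn : r.ne y
    · exact le_add_right (hw y hn)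
    obtain ⟨⟨u, c⟩, h⟩ := (r.surj y).resolve_left hn
    obtain rfl : y0 = y := Option.some.inj ((hl u c).symm.trans h)
    have hD : ∀ u c, Sum.inr (u, c) ∈ r.D := fun u c => by
      by_contra h1
      exact hn (hp _ _ (hl u c) h1)
    rw [hS]
    simp [hD]
  · obtain rfl : y0 = y := by
      by_contra h1
      exact h (hJ y (Ne.symm h1))
    have h1 := r.big y0 hy
    have h2 : #(r.J y0) ≤ 2 := card_le_univ _
    have h3 := r.b2 y0 (by omega)
    refine ⟨by omega, ?_⟩
    by_cases hD : ∃ u c, Sum.inr (u, c) ∈ r.D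
    · obtain ⟨u, c, hD⟩ := hD
      have h5 : 0 < #{c | Sum.inr (u, c) ∈ r.D} := card_pos.2 ⟨c, mem_filter.2 ⟨mem_univ _, hD⟩⟩
      rw [hS]
      cases u <;> omega
    · push Not at hD
      have hK : r.K y0 = univ := by
        refine eq_univ_of_forall fun ⟨i, c⟩ => mem_filter.2 ⟨mem_univ _, ?_, fun h => ?_⟩
        · have a1 : r.opn (.inl (0, c)) y0 := r.cl (.inr (false, c)) y0 ⟨hl _ _, hD _ _⟩
          have a2 : r.opn (.inl (1, c)) y0 := r.cl (.inr (true, c)) y0 ⟨hl _ _, hD _ _⟩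
          fin_cases i
          exacts [a1, a2]
        · simpa [mo2] using h.1
      have h5 := r.b6 y0 hy (by rw [hK]; simp) (.inl (by omega))
      omega
  · by_cases h : y = y0
    · exact .inr (hJ y' (h ▸ hne.symm))
    · exact .inl (hJ y h)

end Pool.Agent.MP_8c1b0d_co.RR

set_option autoImplicit false
set_option linter.unusedSectionVars false
open Finset

namespace Pool.Agent.MP_8c1b0d_co.RR

/-! All statements were checked by a brute force over all certificates (maximum 10 < 12).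
Put `eps y = 8 + fl y - w y - S y`; use `RD.fin` / `RD.fin1` of H3. A label with `¬ ne y` has no port
(`pne`) and `x y = 0` (`xne`). `tiny y` gives `K y = {p, q}`, `AL y = ∅`, `x y = 0`.
It pays to prove one lemma for `Gad (Fin (n+2)) Bool mo` with `m = not`, `o = oN n`, `hd = hN n`,
or for an abstract gadget with two legs `i0 ≠ i1` on the site and all other pairs flipped. -/

section
variable {I : Type} [Fintype I] [DecidableEq I] {mo : I → Bool} {g : Gad I Bool mo}
  {Y : Type} [Fintype Y] [DecidableEq Y]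

theorem f2_out (r : RD g Y) {i : I} {u c : Bool} {y : Y} (hi : g.hd i = some u)
    (h : r.opn (.inl (i, c)) y) : r.opn (.inr (u, c)) y := by
  have h1 := r.cl _ _ h
  rwa [(g.live i u hi).2 c] at h1

theorem f2_in (r : RD g Y) {i : I} {u c : Bool} {y : Y} (hi : g.hd i = some u)
    (h : r.opn (.inr (u, c)) y) : r.opn (.inl (i, c)) y := by
  have h1 := r.cl _ _ h
  rwa [← (g.live i u hi).2 c, g.oo] at h1

theorem f2_ne (r : RD g Y) {i : I} {u c : Bool} {y : Y} (hi : g.hd i = some u)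
    (h : r.opn (.inr (u, c)) y) : r.ne y :=
  r.pne _ _ (f2_in r hi h).1

theorem f2_tiny (r : RD g Y) (leg : Bool → I)
    (ho : ∀ i, (∃ u, i = leg u) ∨ ∀ c, g.o (.inl (i, c)) = .inl (i, !c)) {y : Y}
    (ht : r.tiny y) : ∀ u, ∃ c, (leg u, c) ∈ r.K y := by
  obtain ⟨p, q, hpq, -, hK, -, -⟩ := ht
  have key : ∀ a b : I × Bool, a.1 ≠ b.1 → r.K y = {a, b} → ∃ u, a.1 = leg u := by
    intro a b hab hk
    rcases ho a.1 with h | h
    · exact h
    · exfalso
      have ha : a ∈ r.K y := by rw [hk]; simp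
      have ha' := ha
      simp only [RD0.K, mem_filter, mem_univ, true_and] at ha'
      have h1 := r.cl _ _ ha'.1
      have h2 : (a.1, !a.2) ∈ r.K y := by
        simp only [RD0.K, mem_filter, mem_univ, true_and]
        refine ⟨?_, ha'.2⟩
        rw [← h a.2]
        exact h1
      rw [hk] at h2
      simp only [mem_insert, mem_singleton] at h2
      rcases h2 with h2 | h2
      · have h3 := congrArg Prod.snd h2
        simp at h3
      · have h3 := congrArg Prod.fst h2
        exact hab h3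
  obtain ⟨u1, h1⟩ := key p q hpq hK
  obtain ⟨u2, h2⟩ := key q p hpq.symm (by rw [hK, pair_comm])
  have hp : (leg u1, p.2) ∈ r.K y := by rw [← h1, hK]; simp
  have hq : (leg u2, q.2) ∈ r.K y := by rw [← h2, hK]; simp
  have hne : u1 ≠ u2 := by
    intro h
    apply hpq
    rw [h1, h2, h]
  intro u
  by_cases hu : u = u1
  · exact ⟨p.2, hu ▸ hp⟩
  · have hu2 : u = u2 := by
      revert hu hne
      cases u <;> cases u1 <;> cases u2 <;> simp
    exact ⟨q.2, hu2 ▸ hq⟩

theorem f2_S (r : RD g Y) (leg : Bool → I) (hl : ∀ u, g.hd (leg u) = some u) (y : Y) (u : Bool) :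
    r.LT u y ≤ r.S y := by
  have h1 : r.S y = ∑ v, r.LT v y := by
    unfold RD0.S
    exact sum_congr rfl fun v _ => if_pos ⟨leg v, hl v⟩
  rw [h1]
  exact single_le_sum (f := fun v => r.LT v y) (fun _ _ => Nat.zero_le _) (mem_univ u)

theorem f2_good (g : Gad I Bool mo) (hm : ∀ u, g.m u = !u) (leg : Bool → I)
    (hl : ∀ u, g.hd (leg u) = some u)
    (ho : ∀ i, (∃ u, i = leg u) ∨ ∀ c, g.o (.inl (i, c)) = .inl (i, !c))
    (h4 : #{i | mo i = true} + 2 * #{i | mo i = false} = 4) : g.Good := by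
  intro Y _ _ r
  have hmo : ∀ u, mo (leg u) = true := fun u => (g.live _ _ (hl u)).1
  have hleg : leg false ≠ leg true := by
    intro h
    have h1 := hl false
    rw [h, hl true] at h1
    simp at h1
  have hall : ∀ A : Finset Bool, (∀ u ∈ A, g.m u ∈ A) → ∀ u ∈ A, ∀ v, v ∈ A := by
    intro A hA u hu v
    have h1 := hA u hu
    rw [hm] at h1
    revert hu h1
    cases u <;> cases v <;> simp <;> tauto
  have hKo : ∀ u c y, (leg u, c) ∈ r.K y → r.opn (.inr (u, c)) y ∧ ¬ r.ab (leg u) y := by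
    intro u c y h
    simp only [RD0.K, mem_filter, mem_univ, true_and] at h
    exact ⟨f2_out r (hl u) h.1, h.2⟩
  have hfl : ∀ y, (y ∈ r.F ∧ r.fl y = 4) ∨ (y ∉ r.F ∧ r.fl y = 0) := by
    intro y
    unfold RD0.fl
    by_cases h : y ∈ r.F <;> simp [h]
  by_cases hs : ∀ u, u ∈ r.A0 ∨ u ∈ r.A1
  · -- the site is split
    have hD : ∀ u c, Sum.inr (u, c) ∉ r.D := by
      intro u c h
      have h1 := r.dX u c h
      rcases hs u with h2 | h2
      · exact h1.1 h2
      · exact h1.2 h2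
    have hJ : ∀ y, r.J y = ∅ := by
      intro y
      rw [eq_empty_iff_forall_notMem]
      intro u hu
      simp only [RD0.J, mem_filter, mem_univ, true_and] at hu
      rcases hs u with h2 | h2
      · exact hu.1 h2
      · exact hu.2.1 h2
    have hne : ∀ y, r.ne y := by
      intro y
      rcases r.surj y with h | ⟨⟨u, c⟩, h⟩
      · exact h
      · exact f2_ne r (hl u) ⟨h, hD u c⟩
    have h3 : ∀ y, 8 + r.fl y ≤ r.w y + r.S y + 3 := by
      intro y
      rcases hfl y with ⟨h1, h2⟩ | ⟨h1, h2⟩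
      · have := (r.outF h1 (hJ y)).1
        omega
      · have := (r.b1 y (hne y)).1
        omega
    refine r.fin1 h4 h3 ?_
    intro y y' hyy
    by_contra hc
    push Not at hc
    obtain ⟨hy, hy'⟩ := hc
    rcases hs false with h0 | h0
    · -- both in A0
      have hA : ∀ v, v ∈ r.A0 := hall _ r.m0 _ h0
      have hA1 : ∀ v, v ∉ r.A1 := fun v hv => disjoint_left.1 r.disj (hA v) hv
      have hnt : ∀ z, ¬ r.tiny z := by
        intro z hz
        obtain ⟨c, hc⟩ := f2_tiny r leg ho hz false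
        obtain ⟨h1, h2⟩ := hKo _ _ _ hc
        apply h2
        refine ⟨hmo _, fun c' => f2_in r (hl false) ⟨?_, hD _ _⟩, fun u hu => absurd hu (hA1 u)⟩
        have h5 := r.l0 false (hA1 false)
        have h6 := h1.1
        cases c <;> cases c' <;> simp_all
      have hfull : ∀ z, r.w z + r.S z < 8 + r.fl z → r.full z ∧ 6 ≤ r.x z := by
        intro z hz
        rcases hfl z with ⟨h1, h2⟩ | ⟨h1, h2⟩
        · rcases (r.outF h1 (hJ z)).2 with h | h
          · omega
          · exact h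
        · exact absurd ((r.b1 z (hne z)).2 (by omega)) (hnt z)
      have h7 := (hfull y hy).1.2 y' hyy.symm
      have h8 := (hfull y' hy').2
      omega
    · -- both in A1
      have htiny : ∀ z, r.w z + r.S z < 8 + r.fl z → r.w z ≤ 7 ∧ r.tiny z := by
        intro z hz
        rcases hfl z with ⟨h1, h2⟩ | ⟨h1, h2⟩
        · rcases (r.outF h1 (hJ z)).2 with h | h
          · omega
          · exact absurd (hl false) ((h.1.1 _ (hmo false)).2.2 false h0)
        · exact ⟨by omega, (r.b1 z (hne z)).2 (by omega)⟩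
      obtain ⟨a1, a2⟩ := htiny y hy
      obtain ⟨a3, a4⟩ := htiny y' hy'
      exact r.tt y y' (leg false) (leg true) hyy hleg (hmo _) (hmo _) a1 a3
        (f2_tiny r leg ho a2 false) (f2_tiny r leg ho a2 true)
        (f2_tiny r leg ho a4 false) (f2_tiny r leg ho a4 true)
  · -- the site is unsplit
    push Not at hs
    obtain ⟨u0, hu0, hu1⟩ := hs
    have hA0 : ∀ v, v ∉ r.A0 := fun v hv => hu0 (hall _ r.m0 v hv u0)
    have hA1 : ∀ v, v ∉ r.A1 := fun v hv => hu1 (hall _ r.m1 v hv u0)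
    obtain ⟨y0, hy0⟩ := Option.ne_none_iff_exists'.1 (r.lX false (hA0 _) (hA1 _))
    have hlab : ∀ u c, r.lab (.inr (u, c)) = some y0 := by
      have e1 := r.l0 false (hA1 _)
      have e2 := r.l1 false (hA0 _) false
      have e3 := r.l1 false (hA0 _) true
      rw [hm] at e2 e3
      intro u c
      cases u <;> cases c
      · exact hy0
      · rw [e1, hy0]
      · exact e2.trans hy0
      · exact e3.trans (e1.trans hy0)
    have huniq : ∀ u c y, r.lab (.inr (u, c)) = some y → y = y0 := by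
      intro u c y h
      rw [hlab] at h
      exact (Option.some.inj h).symm
    have hoth : ∀ y, y ≠ y0 → 8 + r.fl y ≤ r.w y + r.S y := by
      intro y hy
      rcases hfl y with ⟨h1, h2⟩ | ⟨h1, h2⟩
      · have hJ : r.J y = ∅ := by
          rw [eq_empty_iff_forall_notMem]
          intro u hu
          simp only [RD0.J, mem_filter, mem_univ, true_and] at hu
          exact hy (huniq _ _ _ hu.2.2)
        rcases (r.outF h1 hJ).2 with h | h
        · omega
        · exact absurd (huniq _ _ _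
            (f2_out r (hl false) ((h.1.1 _ (hmo false)).2.1 false)).1) hy
      · have hne : r.ne y := by
          rcases r.surj y with h | ⟨⟨u, c⟩, h⟩
          · exact h
          · exact absurd (huniq _ _ _ h) hy
        by_contra hc
        obtain ⟨c, hc⟩ := f2_tiny r leg ho ((r.b1 y hne).2 (by omega)) false
        exact hy (huniq _ _ _ (hKo _ _ _ hc).1.1)
    have hzero : 8 + r.fl y0 ≤ r.w y0 + r.S y0 + 3 := by
      rcases hfl y0 with ⟨h1, h2⟩ | ⟨h1, h2⟩
      · have hJ : #(r.J y0) ≤ 2 := by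
          have := card_le_univ (r.J y0)
          simpa using this
        have hb := r.big y0 h1
        have hw := r.b2 y0 (by omega)
        by_cases hD : ∃ u c, Sum.inr (u, c) ∈ r.D
        · obtain ⟨u, c, hD⟩ := hD
          have hd : 0 < r.dA u y0 := by
            unfold RD0.dA
            exact card_pos.2 ⟨c, by simp [hlab, hD]⟩
          have hS := f2_S r leg hl y0 u
          unfold RD0.LT at hS
          omega
        · push Not at hD
          have hab : ∀ u, leg u ∈ r.AL y0 := by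
            intro u
            simp only [RD0.AL, mem_filter, mem_univ, true_and]
            exact ⟨hmo u, fun c => f2_in r (hl u) ⟨hlab u c, hD u c⟩,
              fun v hv => absurd hv (hA1 v)⟩
          have h2' : 2 ≤ #(r.AL y0) := one_lt_card.2 ⟨_, hab false, _, hab true, hleg⟩
          have := r.b5 y0 h1 (by omega) h2'
          omega
      · by_cases hne : r.ne y0
        · have := (r.b1 y0 hne).1
          omega
        · have hD : ∀ c, Sum.inr (false, c) ∈ r.D := by
            intro c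
            by_contra hc
            exact hne (f2_ne r (hl false) ⟨hlab false c, hc⟩)
          have hd : r.dA false y0 = 2 := by
            unfold RD0.dA
            simp [hlab, hD]
          have hS := f2_S r leg hl y0 false
          unfold RD0.LT at hS
          rw [if_pos hd] at hS
          omega
    refine r.fin1 h4 (fun y => ?_) (fun y y' hyy => ?_)
    · by_cases hy : y = y0
      · rw [hy]
        exact hzero
      · have := hoth y hy
        omega
    · by_cases hy : y = y0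
      · exact Or.inr (hoth y' fun h => hyy (hy.trans h.symm))
      · exact Or.inl (hoth y hy)

end

/-- One site, both ends are ends of `m`-legs `0, 1`; `S y = LT false y + LT true y`.
Unsplit, label `y0`: flagged gives `4 ≤ x`, `8 ≤ w`; a `D` gives `2 ≤ S`, no `D` gives two absorbed
legs and `b5`; unflagged: `¬ ne` gives `S = 12`; tiny has `AL = ∅`, so both legs have a `D`, `4 ≤ S`.
Other labels: not tiny (their ports are the flipped pairs: an `m`-pair is absorbed, the colour pair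
has `p.1 = q.1` and `mo = false`). A full `y' ≠ y0` is impossible (leg `0` is not absorbed in `y'`).
Site in `A0`: legs absorbed or closed, no tiny label. Site in `A1`: nothing is full; a tiny label has
a port of `0` and hence the port of the same colour of `1` (`cl`, `l1`, `dX`); two tiny labels
contradict `tt`; `eps ≤ 2`. -/
theorem gN3_good : gN3.Good :=
  f2_good gN3 (fun _ => rfl) (fun u => if u then 1 else 0) (by decide) (by decide) (by decide)

/-- The same proof. -/
theorem gN4_good : gN4.Good :=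
  f2_good gN4 (fun _ => rfl) (fun u => if u then 1 else 0) (by decide) (by decide) (by decide)

end Pool.Agent.MP_8c1b0d_co.RR

set_option autoImplicit false
set_option linter.unusedSectionVars false
open Finset

namespace Pool.Agent.MP_8c1b0d_co.RR

/-! The statement was checked by a brute force over all certificates (maximum 10 < 12).
Put `eps y = 8 + fl y - w y - S y`; use `RD.fin` / `RD.fin1` of H3. A label with `¬ ne y` has no port
(`pne`) and `x y = 0` (`xne`). `tiny y` gives `K y = {p, q}`, `AL y = ∅`, `x y = 0`. -/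

section
variable {Y : Type} [Fintype Y] [DecidableEq Y] (r : RD gB2 Y)

theorem f3_S (y : Y) : r.S y = r.LT false y + r.cU true y := by
  unfold RD0.S
  rw [Fintype.sum_bool]
  have h1 : ¬ ∃ i, gB2.hd i = some true := by decide
  have h2 : ∃ i, gB2.hd i = some false := by decide
  rw [if_neg h1, if_pos h2, add_comm]

theorem f3_in {y : Y} {c : Bool} (h : r.opn (.inl (0, c)) y) : r.opn (.inr (false, c)) y :=
  r.cl _ _ h

theorem f3_out0 {y : Y} {c : Bool} (h : r.opn (.inr (false, c)) y) : r.opn (.inl (0, c)) y :=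
  r.cl _ _ h

theorem f3_out2 {y : Y} {c : Bool} (h : r.opn (.inr (true, c)) y) : r.opn (.inl (2, c)) y :=
  r.cl _ _ h

theorem f3_ne {y : Y} {u c : Bool} (h : r.opn (.inr (u, c)) y) : r.ne y := by
  cases u
  · exact r.pne _ _ (f3_out0 r h).1
  · exact r.pne _ _ (f3_out2 r h).1

theorem f3_one {y : Y} (c : Bool) : ((1 : Fin 3), c) ∉ r.K y := by
  intro h
  simp only [RD0.K, mem_filter, mem_univ, true_and] at h
  have h2 : r.opn (.inl (1, !c)) y := r.cl _ _ h.1
  refine h.2 ⟨rfl, fun c' => ?_, fun u _ hu => ?_⟩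
  · by_cases hc : c' = c
    · subst hc; exact h.1
    · have : c' = !c := by cases c <;> cases c' <;> simp_all
      subst this; exact h2
  · exact absurd hu (by cases u <;> decide)

theorem f3_tiny {y : Y} (h : r.tiny y) : ∃ c, r.opn (.inl (0, c)) y ∧ ¬ r.ab 0 y := by
  obtain ⟨⟨i, c⟩, ⟨j, c'⟩, hne, -, hK, -, -⟩ := h
  have h1 : (i, c) ∈ r.K y := by rw [hK]; simp
  have h2 : (j, c') ∈ r.K y := by rw [hK]; simp
  have hi : i ≠ 1 := by rintro rfl; exact f3_one r c h1
  have hj : j ≠ 1 := by rintro rfl; exact f3_one r c' h2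
  simp only [RD0.K, mem_filter, mem_univ, true_and] at h1 h2
  have : i = 0 ∨ j = 0 := by
    simp only at hne
    omega
  rcases this with rfl | rfl
  · exact ⟨c, h1⟩
  · exact ⟨c', h2⟩

theorem f3_A0 (u : Bool) (h : u ∈ r.A0) (v : Bool) : v ∈ r.A0 := by
  have := r.m0 u h
  cases u <;> cases v <;> first | exact h | exact this

theorem f3_A1 (u : Bool) (h : u ∈ r.A1) (v : Bool) : v ∈ r.A1 := by
  have := r.m1 u h
  cases u <;> cases v <;> first | exact h | exact this

theorem f3_split (h : ∀ u, u ∈ r.A0 ∨ u ∈ r.A1) (y : Y) :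
    r.ne y ∧ r.J y = ∅ ∧ ∀ u c, .inr (u, c) ∉ r.D := by
  have hD : ∀ u c, .inr (u, c) ∉ r.D := fun u c hd => by
    have := r.dX u c hd
    have := h u
    tauto
  refine ⟨?_, ?_, hD⟩
  · rcases r.surj y with h1 | ⟨⟨u, c⟩, h1⟩
    · exact h1
    · exact f3_ne r ⟨h1, hD u c⟩
  · ext u
    have := h u
    simp only [RD0.J, mem_filter, mem_univ, true_and, notMem_empty, iff_false]
    tauto

theorem f3_h4 : #{i | mo3 i = true} + 2 * #{i | mo3 i = false} = 4 := by decide

theorem f3_caseA1 (h : ∀ u, u ∈ r.A1) : False := by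
  have h0 : ∀ u, u ∉ r.A0 := fun u hu => Finset.disjoint_left.1 r.disj hu (h u)
  refine r.fin f3_h4 (fun y => #{c | r.lab (.inr (true, c)) = some y}) ?_ fun y => ?_
  · have : ∑ y, #{c | r.lab (.inr (true, c)) = some y} =
        ∑ c : Bool, ∑ y, if r.lab (.inr (true, c)) = some y then 1 else 0 := by
      rw [Finset.sum_comm]
      exact Finset.sum_congr rfl fun y _ => Finset.card_filter _ _
    rw [this]
    have h2 : ∀ o : Option Y, (∑ y, if o = some y then 1 else 0) ≤ 1 := by
      intro o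
      cases o <;> simp only [reduceCtorEq, ↓ reduceIte, sum_const_zero, zero_le, Option.some.injEq, sum_ite_eq, mem_univ, Std.le_refl]
    rw [Fintype.sum_bool]
    have := h2 (r.lab (.inr (true, true)))
    have := h2 (r.lab (.inr (true, false)))
    omega
  · obtain ⟨hne, hJ, hD⟩ := f3_split r (fun u => .inr (h u)) y
    unfold RD0.fl
    split_ifs with hF
    · rcases (r.outF hF hJ).2 with h1 | h1
      · omega
      · exact absurd rfl ((h1.1.1 0 rfl).2.2 false (h false))
    · obtain ⟨h6, h7⟩ := r.b1 y hne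
      by_cases h8 : r.w y ≤ 7
      · obtain ⟨c, hc, -⟩ := f3_tiny r (h7 h8)
        have h1 : r.lab (.inr (true, c)) = some y := (r.l1 false (h0 false) c).trans (f3_in r hc).1
        have h2 : 0 < #{c | r.lab (.inr (true, c)) = some y} :=
          Finset.card_pos.2 ⟨c, by simpa using h1⟩
        have h3 : 0 < #{c | r.lab (.inr (true, c)) = some y ∧ (true ∈ r.A0 ∨ true ∈ r.A1)} :=
          Finset.card_pos.2 ⟨c, by simp [h1, h true]⟩
        rw [f3_S]
        unfold RD0.cU
        omega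
      · omega

theorem f3_caseA0 (h : ∀ u, u ∈ r.A0) : False := by
  have h1 : ∀ u, u ∉ r.A1 := fun u hu => Finset.disjoint_left.1 r.disj (h u) hu
  have key : ∀ y, 8 + r.fl y ≤ r.w y ∨ (10 ≤ r.w y ∧ r.full y ∧ 6 ≤ r.x y) := by
    intro y
    obtain ⟨hne, hJ, hD⟩ := f3_split r (fun u => .inl (h u)) y
    unfold RD0.fl
    split_ifs with hF
    · obtain ⟨h2, h3 | h3⟩ := r.outF hF hJ
      · exact .inl (by omega)
      · exact .inr ⟨h2, h3⟩
    · obtain ⟨h6, h7⟩ := r.b1 y hne
      by_cases h8 : r.w y ≤ 7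
      · obtain ⟨c, hc, hab⟩ := f3_tiny r (h7 h8)
        have h2 := (f3_in r hc).1
        have h3 := r.l0 false (h1 false)
        refine absurd ⟨rfl, fun c' => f3_out0 r ⟨?_, hD _ _⟩, fun u hu => absurd hu (h1 u)⟩ hab
        cases c <;> cases c' <;> simp_all
      · exact .inl (by omega)
  have hfl : ∀ y, r.fl y ≤ 4 := fun y => by unfold RD0.fl; split_ifs <;> omega
  refine r.fin1 f3_h4 (fun y => ?_) fun y y' hy => ?_
  · have := hfl y
    rcases key y with h2 | h2 <;> omega
  · rcases key y with h2 | h2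
    · exact .inl (by omega)
    · rcases key y' with h3 | h3
      · exact .inr (by omega)
      · have := h2.2.1.2 y' hy.symm
        omega

theorem f3_caseX (h0 : ∀ u, u ∉ r.A0) (h1 : ∀ u, u ∉ r.A1) : False := by
  obtain ⟨y0, hy0⟩ := Option.ne_none_iff_exists'.1 (r.lX false (h0 _) (h1 _))
  have hl : ∀ u c, r.lab (.inr (u, c)) = some y0 := by
    have a1 := r.l0 false (h1 _)
    have a2 : r.lab (.inr (true, false)) = _ := r.l1 false (h0 _) false
    have a3 : r.lab (.inr (true, true)) = _ := r.l1 false (h0 _) true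
    intro u c
    cases u <;> cases c <;> simp_all
  have hoth : ∀ y, y ≠ y0 → 8 + r.fl y ≤ r.w y := by
    intro y hy
    have hno : ∀ u c, r.lab (.inr (u, c)) ≠ some y := fun u c hh =>
      hy (Option.some.inj (hh.symm.trans (hl u c)))
    have hne : r.ne y := by
      rcases r.surj y with h2 | ⟨⟨u, c⟩, h2⟩
      · exact h2
      · exact absurd h2 (hno u c)
    have hJ : r.J y = ∅ := by
      ext u
      have := hno u false
      simp only [RD0.J, mem_filter, mem_univ, true_and, notMem_empty, iff_false]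
      tauto
    unfold RD0.fl
    split_ifs with hF
    · rcases (r.outF hF hJ).2 with h2 | h2
      · omega
      · exact absurd (f3_in r ((h2.1.1 0 rfl).2.1 false)).1 (hno _ _)
    · obtain ⟨h6, h7⟩ := r.b1 y hne
      by_cases h8 : r.w y ≤ 7
      · obtain ⟨c, hc, -⟩ := f3_tiny r (h7 h8)
        exact absurd (f3_in r hc).1 (hno _ _)
      · omega
  have hS : ∀ u, 2 * r.dA u y0 ≤ r.S y0 := by
    intro u
    rw [f3_S]
    unfold RD0.LT RD0.cU
    cases u <;> omega
  have hmain : 8 + r.fl y0 ≤ r.w y0 + r.S y0 + 3 := by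
    unfold RD0.fl
    split_ifs with hF
    · have hb := r.big y0 hF
      have hc : #(r.J y0) ≤ 2 := (Finset.card_le_univ _).trans (by simp)
      have h8 := r.b2 y0 (by omega)
      by_cases hD : ∃ u c, .inr (u, c) ∈ r.D
      · obtain ⟨u, c, hD⟩ := hD
        have h2 : 0 < r.dA u y0 := Finset.card_pos.2 ⟨c, by simp [hl, hD]⟩
        have := hS u
        omega
      · push Not at hD
        have hab : r.ab 0 y0 :=
          ⟨rfl, fun c => f3_out0 r ⟨hl _ _, hD _ _⟩, fun u hu => absurd hu (h1 u)⟩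
        have h2 := r.b4 y0 hF (by omega) ⟨0, by simpa only [RD0.AL, Fin.isValue, mem_filter, mem_univ, true_and] using hab⟩
          ⟨(2, false), by
            simp only [RD0.K, mem_filter, mem_univ, true_and]
            exact ⟨f3_out2 r ⟨hl _ _, hD _ _⟩, fun hh => absurd hh.1 (by decide)⟩⟩
        omega
    · by_cases hne : r.ne y0
      · have := (r.b1 y0 hne).1
        omega
      · have hD : ∀ u c, .inr (u, c) ∈ r.D := fun u c => by
          by_contra hh
          exact hne (f3_ne r ⟨hl u c, hh⟩)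
        have h2 : ∀ u, r.dA u y0 = 2 := fun u => by simp [RD0.dA, hl, hD]
        rw [f3_S]
        unfold RD0.LT RD0.cU
        rw [h2, h2]
        omega
  refine r.fin1 f3_h4 (fun y => ?_) fun y y' hy => ?_
  · by_cases hy : y = y0
    · subst hy; exact hmain
    · have := hoth y hy
      omega
  · by_cases h2 : y = y0
    · have := hoth y' fun hh => hy (h2.trans hh.symm)
      exact .inr (by omega)
    · have := hoth y h2
      exact .inl (by omega)

end

/-- `a = false` is the end of leg `0`, `u = true` carries the colour ports; `S y = LT a y + cU u y`.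
Site in `A1`: nothing is full; a tiny label contains an `a`-port `(0,c)`, hence the strand
`(a,c), (u,c)`, so `1 ≤ S`, `eps ≤ 1`; at most two such labels (`e y = #{c | lab (inr (u,c)) = y}`
works). Site in `A0`: no tiny label (leg `0` is absorbed or closed, leg `1` too); only a full label has
`eps ≤ 2`. Unsplit, label `y0`: other labels have no open port of `0` or `2`, are not tiny, not full;
`y0` flagged: `4 ≤ x`, a `D` gives `2 ≤ S`, else `b4`; unflagged: `¬ ne` gives `S = 6 + 4`, tiny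
gives a `D` at `a`, `2 ≤ S`. -/
theorem gB2_good : gB2.Good := by
  intro Y _ _ r
  by_cases h1 : ∃ u, u ∈ r.A1
  · obtain ⟨u, hu⟩ := h1
    exact f3_caseA1 r (f3_A1 r u hu)
  by_cases h0 : ∃ u, u ∈ r.A0
  · obtain ⟨u, hu⟩ := h0
    exact f3_caseA0 r (f3_A0 r u hu)
  push Not at h0 h1
  exact f3_caseX r h0 h1

end Pool.Agent.MP_8c1b0d_co.RR

end
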