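import Pool.Agent.MP_8c1b0d_co.Mg.RR_G
import Pool.Agent.MP_8c1b0d_co.RR.S
import Pool.Agent.MP_8c1b0d_co.GA
import Pool.Agent.MP_8c1b0d_co.Mg.RI_A5

-- part MP_8c1b0d_co.RR.M
section

set_option autoImplicit false
set_option linter.unusedSectionVars false
open Finset

namespace Pool.Agent.MP_8c1b0d_co.RR

variable {V I W : Type} [Fintype V] [DecidableEq V] [Fintype I] [DecidableEq I] [Fintype W]
  [DecidableEq W] {mo : I → Bool} {t : Tri V} {R : Finset V}

lemma mem_Q {v : V} : v ∈ Q t R ↔ v ∉ R ∧ t.m v ∉ R := by simp only [Q, mem_filter, mem_univ, true_and]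
lemma Q_m {v : V} (h : v ∈ Q t R) : t.m v ∈ Q t R := by
  rw [mem_Q] at h ⊢
  rw [t.mm]
  exact h.symm

/-- core and gadget -/
abbrev UU (t : Tri V) (R : Finset V) (W : Type) := ↥(Q t R) ⊕ W

/-- ports and half-edges of the gadget inside the system -/
def Ports.emb (pp : Ports t R mo) : HH I W → UU t R W × Bool
  | .inl p => (.inl ⟨(pp.pt p).1, (pp.mem p).1⟩, (pp.pt p).2)
  | .inr η => (.inr η.1, η.2)

/-- the system on the core and the gadget -/
structure Asm (pp : Ports t R mo) (g : Gad I W mo) (s : Sy (UU t R W)) : Prop where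
  m1 : ∀ v, s.m (.inl v) = .inl ⟨t.m v.1, Q_m v.2⟩
  m2 : ∀ u, s.m (.inr u) = .inr (g.m u)
  o1 : ∀ v c (h : t.col c v.1 ∈ Q t R), s.o (.inl v, c) = (.inl ⟨t.col c v.1, h⟩, c)
  o2 : ∀ x, s.o (pp.emb x) = pp.emb (g.o x)

/-- the nodes of the family are root-free alternating hexagons and the family is maximal -/
structure Fam.Hx {s : Sy (UU t R W)} {E N : Type} (F : Fam s E N) : Prop where
  hx : ∀ f, ∃ v, t.Alt v (F.c f) ∧ ∀ i b, ∃ h, F.w f i b = .inl ⟨g2w t (v, F.c f) (i, b), h⟩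
  mx : ∀ v c, t.Alt v c → Disjoint (t.hex v c) R → ∃ f i b w, F.w f i b = .inl w ∧ w.1 ∈ t.hex v c

/-- the core in a suitable colouring closes the gadget -/
def Clo (pp : Ports t R mo) (g : Gad I W mo) : Prop :=
  ∃ (t' : Tri V) (r : V → Bool) (s : W → Bool), Same t t' R ∧ (∀ v ∈ Q t R, r (t'.m v) = r v) ∧
    (∀ u, s (g.m u) = s u) ∧ ∀ (k : Bool) (φ : V × Bool → ZMod 2) (v : HH I W → ZMod 2),
      Inn t' R r k φ → g.Eqs s k v → (∀ p, v (.inl p) = φ (pp.pt p)) →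
      ∃ d, (∀ h : V × Bool, h.1 ∈ Q t R → φ h = d) ∧ ∀ x, v x = d

/-- the certificate, read on the core and on the gadget -/
structure MC (pp : Ports t R mo) (g : Gad I W mo) (Y : Type) [Fintype Y] [DecidableEq Y] where
  A0 : Finset V
  A1 : Finset V
  lab : V × Bool → Option Y
  D : Finset (V × Bool)
  B0 : Finset W
  B1 : Finset W
  lh : HH I W → Option Y
  DH : Finset (HH I W)
  F : Finset Y
  q0 : ∀ v ∈ A0, v ∈ Q t R
  q1 : ∀ v ∈ A1, v ∈ Q t R
  lq : ∀ h y, lab h = some y → h.1 ∈ Q t R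
  m0 : ∀ v ∈ A0, t.m v ∈ A0
  m1 : ∀ v ∈ A1, t.m v ∈ A1
  disj : Disjoint A0 A1
  l0 : ∀ v ∉ A1, lab (v, true) = lab (v, false)
  l1 : ∀ v ∉ A0, ∀ c, lab (t.m v, c) = lab (v, c)
  lX : ∀ v ∈ Q t R, v ∉ A0 → v ∉ A1 → lab (v, false) ≠ none
  dX : ∀ h ∈ D, h.1 ∈ Q t R ∧ h.1 ∉ A0 ∧ h.1 ∉ A1
  cl : ∀ h y, lab h = some y → h ∉ D → (t.o h).1 ∈ Q t R → lab (t.o h) = some y ∧ t.o h ∉ D
  pl : ∀ p, lh (.inl p) = lab (pp.pt p)
  pd : ∀ p, .inl p ∈ DH ↔ pp.pt p ∈ D
  n0 : ∀ u ∈ B0, g.m u ∈ B0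
  n1 : ∀ u ∈ B1, g.m u ∈ B1
  disj' : Disjoint B0 B1
  k0 : ∀ u ∉ B1, lh (.inr (u, true)) = lh (.inr (u, false))
  k1 : ∀ u ∉ B0, ∀ c, lh (.inr (g.m u, c)) = lh (.inr (u, c))
  kX : ∀ u, u ∉ B0 → u ∉ B1 → lh (.inr (u, false)) ≠ none
  eX : ∀ u c, .inr (u, c) ∈ DH → u ∉ B0 ∧ u ∉ B1
  ch : ∀ x y, lh x = some y → x ∉ DH → lh (g.o x) = some y ∧ g.o x ∉ DH
  surj : ∀ y, (∃ h, lab h = some y) ∨ ∃ η, lh (.inr η) = some y
  big : ∀ y ∈ F, 6 ≤ #{v | v ∉ A0 ∧ v ∉ A1 ∧ lab (v, false) = some y} +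
    #{u | u ∉ B0 ∧ u ∉ B1 ∧ lh (.inr (u, false)) = some y}
  ori : ∀ y ∈ F, ∃ (d : V × Bool → Bool) (dh : HH I W → Bool),
    (∀ v ∈ Q t R, v ∉ A1 → d (v, true) ≠ d (v, false)) ∧
    (∀ v ∈ Q t R, v ∉ A0 → ∀ c, d (t.m v, c) ≠ d (v, c)) ∧
    (∀ h, lab h = some y → h ∉ D → (t.o h).1 ∈ Q t R → d (t.o h) ≠ d h) ∧
    (∀ p, dh (.inl p) = d (pp.pt p)) ∧ (∀ u ∉ B1, dh (.inr (u, true)) ≠ dh (.inr (u, false))) ∧
    ∀ x, lh x = some y → x ∉ DH → dh (g.o x) ≠ dh x
  hexa : ∀ v c, t.Alt v c → Disjoint (t.hex v c) R → ∃ u ∈ t.hex v c, ∃ c', t.Alt u c' ∧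
    ∀ w ∈ t.hex u c', w ∈ Q t R ∧ w ∉ A0 ∧ w ∉ A1 ∧ lab (w, false) = lab (u, false)
  cnt : 6 + #D + #{η | .inr η ∈ DH} + #A0 + #B0 + #A1 + #B1 ≤ 4 * Fintype.card Y + 2 * #F

end Pool.Agent.MP_8c1b0d_co.RR

set_option autoImplicit false
set_option linter.unusedSectionVars false
open Finset

namespace Pool.Agent.MP_8c1b0d_co.RR

variable {V I W : Type} [Fintype V] [DecidableEq V] [Fintype I] [DecidableEq I] [Fintype W]
  [DecidableEq W] {mo : I → Bool} {t : Tri V} {R : Finset V} {pp : Ports t R mo} {g : Gad I W mo}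

theorem Ports.emb_inj (pp : Ports t R mo) : Function.Injective (pp.emb (W := W)) := by
  rintro (p | η) (q | ξ) h
  · simp only [Ports.emb, Prod.mk.injEq, Sum.inl.injEq, Subtype.mk.injEq] at h
    rw [pp.inj (Prod.ext h.1 h.2)]
  · simp [Ports.emb] at h
  · simp [Ports.emb] at h
  · simp only [Ports.emb, Prod.mk.injEq, Sum.inr.injEq] at h
    rw [Prod.ext h.1 h.2]

/-- every half-edge of the system is inner or of the form `emb x` (`sur`) -/
theorem Ports.emb_or (pp : Ports t R mo) (h : UU t R W × Bool) :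
    (∃ v, h.1 = .inl v ∧ t.col h.2 v.1 ∈ Q t R) ∨ ∃ x, pp.emb x = h := by
  obtain ⟨v | u, c⟩ := h
  · by_cases hc : t.col c v.1 ∈ Q t R
    · exact Or.inl ⟨v, rfl, hc⟩
    · obtain ⟨p, hp⟩ := pp.sur (v.1, c) v.2 hc
      refine Or.inr ⟨.inl p, ?_⟩
      simp only [Ports.emb, hp]
  · exact Or.inr ⟨.inr (u, c), rfl⟩

theorem Ports.emb_not (pp : Ports t R mo) (x : HH I W) (v : Q t R) (h : (pp.emb x).1 = .inl v) :
    t.col (pp.emb x).2 v.1 ∉ Q t R := by
  rcases x with p | η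
  · simp only [Ports.emb, Sum.inl.injEq] at h
    subst h
    exact (pp.mem p).2
  · simp [Ports.emb] at h

/-- the inner edges -/
def h1a_in (t : Tri V) (R : Finset V) (W : Type) : UU t R W × Bool → UU t R W × Bool
  | (.inl v, c) => if h : t.col c v.1 ∈ Q t R then (.inl ⟨t.col c v.1, h⟩, c) else (.inl v, c)
  | (.inr u, c) => (.inr u, c)

theorem exists_asm (pp : Ports t R mo) (g : Gad I W mo) : ∃ s, Asm pp g s := by
  obtain ⟨o, o1, o2⟩ : ∃ o : UU t R W × Bool → UU t R W × Bool,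
      (∀ (v : Q t R) c (h : t.col c v.1 ∈ Q t R), o (.inl v, c) = (.inl ⟨t.col c v.1, h⟩, c)) ∧
      ∀ x, o (pp.emb x) = pp.emb (g.o x) := by
    refine ⟨Function.extend pp.emb (fun x => pp.emb (g.o x)) (h1a_in t R W), fun v c h => ?_,
      fun x => pp.emb_inj.extend_apply _ _ x⟩
    rw [Function.extend_apply']
    · simp only [h1a_in, dif_pos h]
    · rintro ⟨x, hx⟩
      have := pp.emb_not x v (by rw [hx])
      rw [hx] at this
      exact this h
  refine ⟨⟨Sum.map (fun v => ⟨t.m v.1, Q_m v.2⟩) g.m, o, ?_, ?_, fun h => ?_, fun h => ?_⟩,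
    fun _ => rfl, fun _ => rfl, o1, o2⟩
  · rintro (v | u)
    · simp [t.mm]
    · simp [g.mm]
  · rintro (v | u) h
    · simp only [Sum.map_inl, Sum.inl.injEq] at h
      exact t.m_ne v.1 (congrArg Subtype.val h)
    · simp only [Sum.map_inr, Sum.inr.injEq] at h
      exact g.m_ne u h
  · rcases pp.emb_or h with ⟨v, h1, h2⟩ | ⟨x, rfl⟩
    · obtain ⟨w, c⟩ := h
      obtain rfl : w = .inl v := h1
      rw [o1 v c h2, o1 _ c (by simp)]
      simp
    · rw [o2, o2, g.oo]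
  · rcases pp.emb_or h with ⟨v, h1, h2⟩ | ⟨x, rfl⟩
    · obtain ⟨w, c⟩ := h
      obtain rfl : w = .inl v := h1
      rw [o1 v c h2]
      intro e
      simp only [Prod.mk.injEq, Sum.inl.injEq, and_true] at e
      exact t.nb_ne (some c) v.1 (congrArg Subtype.val e)
    · rw [o2]
      exact fun e => g.o_ne x (pp.emb_inj e)

/-- the colour neighbours of the end of an `m`-leg lie in the core -/
lemma h1a_col (ok : OK t R) {v : V} (h1 : v ∉ R) (h2 : v ∉ Q t R) (c : Bool) :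
    t.col c v ∈ Q t R := by
  have hm : t.nb none v ∈ R := by
    by_contra hc
    exact h2 (mem_Q.2 ⟨h1, hc⟩)
  have h3 : t.nb (some c) v ∉ R := fun e => by simpa using ok.leg_one h1 hm e
  exact mem_Q.2 ⟨h3, fun e => ok.leg_adj (k' := none) h1 h3 hm e⟩

/-- they are the two ports of one index -/
lemma h1a_port (pp : Ports t R mo) (ok : OK t R) {v : V} (h1 : v ∉ R) (h2 : v ∉ Q t R) :
    ∃ i b, mo i = true ∧ pp.pt (i, b) = (t.col false v, false) ∧
      pp.pt (i, !b) = (t.col true v, true) := by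
  obtain ⟨⟨i, b⟩, hp⟩ := pp.sur (t.col false v, false) (h1a_col ok h1 h2 false)
    (by simpa [Tri.o] using h2)
  have e : (t.o (pp.pt (i, b))).1 = v := by rw [hp]; simp [Tri.o]
  have hi : mo i = true := by
    by_contra hc
    exact h1 (e ▸ pp.cl i (by simpa using hc) b)
  refine ⟨i, b, hi, hp, ?_⟩
  have e' : (t.o (pp.pt (i, !b))).1 = v := by rw [(pp.am i hi).2.2, ← (pp.am i hi).2.2 b, e]
  rcases hq : pp.pt (i, !b) with ⟨u, c⟩
  rw [hq] at e'
  have hu : u = t.col c v := by rw [← e']; simp [Tri.o]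
  subst hu
  cases c
  · have := pp.inj (hq.trans hp.symm)
    simp at this
  · rfl

/-- The system is connected. -/
theorem Asm.cn {s : Sy (UU t R W)} (a : Asm pp g s) (ok : OK t R) : s.Cn := by
  classical
  intro X φ hO hM
  have hE : ∀ x, φ (pp.emb (g.o x)).1 = φ (pp.emb x).1 := fun x => by rw [← a.o2, hO]
  have hL : ∀ i c, mo i = true → φ (pp.emb (.inl (i, !c))).1 = φ (pp.emb (.inl (i, c))).1 := by
    intro i c hi
    rcases hd : g.hd i with _ | w
    · rw [← g.dead i c hi hd, hE]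
    · rw [← hE, ← hE (.inl (i, c)), (g.live i w hd).2, (g.live i w hd).2]
      rfl
  have hK : ∀ v (h1 : v ∉ R) (h2 : v ∉ Q t R) c, φ (.inl ⟨t.col c v, h1a_col ok h1 h2 c⟩) =
      φ (.inl ⟨t.col false v, h1a_col ok h1 h2 false⟩) := by
    intro v h1 h2 c
    cases c
    · rfl
    · obtain ⟨i, b, hi, e1, e2⟩ := h1a_port pp ok h1 h2
      have := hL i b hi
      simpa only [Ports.emb, e1, e2] using this
  obtain ⟨v0, hv0⟩ : ∃ v, v ∈ Q t R := by
    obtain ⟨v, hv⟩ := card_pos.1 (show 0 < #Rᶜ by have := ok.b2; omega)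
    by_cases h : v ∈ Q t R
    · exact ⟨v, h⟩
    · exact ⟨_, h1a_col ok (mem_compl.1 hv) h false⟩
  let ψ : V → X := fun v => if h : v ∈ Q t R then φ (.inl ⟨v, h⟩) else
    if h : t.col false v ∈ Q t R then φ (.inl ⟨_, h⟩) else φ (.inl ⟨v0, hv0⟩)
  have p1 : ∀ v (h : v ∈ Q t R), ψ v = φ (.inl ⟨v, h⟩) := fun v h => dif_pos h
  have p2 : ∀ v, v ∉ R → v ∉ Q t R → ∀ c, ψ (t.col c v) = ψ v := by
    intro v h1 h2 c
    rw [p1 _ (h1a_col ok h1 h2 c), hK v h1 h2 c]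
    simp only [ψ, dif_neg h2, dif_pos (h1a_col ok h1 h2 false)]
  have p3 : ∀ v k, v ∉ R → t.nb k v ∉ R → ψ (t.nb k v) = ψ v := by
    intro v k h1 h2
    rcases k with _ | c
    · have hq : v ∈ Q t R := mem_Q.2 ⟨h1, h2⟩
      rw [Tri.nb_none, p1 _ hq, p1 _ (Q_m hq), ← hM (.inl ⟨v, hq⟩), a.m1]
    · rw [Tri.nb_some] at h2 ⊢
      by_cases hq : v ∈ Q t R
      · by_cases hw : t.col c v ∈ Q t R
        · rw [p1 _ hq, p1 _ hw]
          have := hO (.inl ⟨v, hq⟩, c)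
          rwa [a.o1 _ c hw] at this
        · rw [← p2 _ h2 hw c, t.col_col]
      · exact p2 v h1 hq c
  have hS := ok.compl.conR {v ∈ Rᶜ | ψ v = ψ v0} (filter_subset _ _) fun v hv k hk => by
    rw [mem_filter] at hv ⊢
    have h1 : t.nb k v ∈ Rᶜ := by
      by_contra hc
      exact hk (t.mem_bd.2 ⟨hv.1, hc⟩)
    exact ⟨h1, (p3 v k (mem_compl.1 hv.1) (mem_compl.1 h1)).trans hv.2⟩
  have h0 : v0 ∈ ({v ∈ Rᶜ | ψ v = ψ v0} : Finset V) :=
    mem_filter.2 ⟨mem_compl.2 (mem_Q.1 hv0).1, rfl⟩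
  have hQ : ∀ v : Q t R, φ (.inl v) = ψ v0 := by
    intro v
    rcases hS with e | e
    · rw [e] at h0
      exact absurd h0 (notMem_empty _)
    · have : v.1 ∈ ({v ∈ Rᶜ | ψ v = ψ v0} : Finset V) := by
        rw [e]
        exact mem_compl.2 (mem_Q.1 v.2).1
      rw [← (mem_filter.1 this).2, p1 _ v.2]
  have hA : ∀ u, φ u = ψ v0 := by
    rintro (v | w)
    · exact hQ v
    · obtain ⟨p, c, e | e⟩ := g.con w
      · have := hE (.inl p)
        rw [e] at this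
        exact this.trans (hQ _)
      · have := hE (.inl p)
        rw [e] at this
        rw [← hM, a.m2]
        exact this.trans (hQ _)
  exact fun u v => (hA u).trans (hA v).symm

end Pool.Agent.MP_8c1b0d_co.RR

set_option autoImplicit false
set_option linter.unusedSectionVars false
open Finset

namespace Pool.Agent.MP_8c1b0d_co.RR

variable {V I W : Type} [Fintype V] [DecidableEq V] [Fintype I] [DecidableEq I] [Fintype W]
  [DecidableEq W] {mo : I → Bool} {t : Tri V} {R : Finset V} {pp : Ports t R mo} {g : Gad I W mo}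

/-- Copy `Tri.exists_fam` of GA.lean: `𝓗` is a largest family of pairs `(v, c)` with `Alt v c`,
`Disjoint (hex v c) R` and pairwise disjoint hexagons; such a hexagon lies in `Q` (it is closed under
`m`). `E` = the points of `UU` outside the hexagons with `k u < k (s.m u)`,
`k = Fintype.equivFin (UU t R W)`. -/
theorem Asm.exists_fam {s : Sy (UU t R W)} (a : Asm pp g s) : ∃ (E N : Type) (_ : Fintype E)
    (_ : DecidableEq E) (_ : Fintype N) (_ : DecidableEq N) (F : Fam s E N), F.Hx := by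
  classical
  obtain ⟨𝓗, h1, h2⟩ := exists_max_image (univ.filter fun 𝓗 : Finset (V × Bool) =>
    (∀ p ∈ 𝓗, t.Alt p.1 p.2 ∧ Disjoint (t.hex p.1 p.2) R) ∧
      ∀ p ∈ 𝓗, ∀ q ∈ 𝓗, p ≠ q → Disjoint (t.hex p.1 p.2) (t.hex q.1 q.2)) card ⟨∅, by simp only [Prod.forall, Bool.forall_bool, ne_eq, Prod.mk.injEq, not_and, Bool.not_eq_false, Bool.not_eq_true, Bool.false_eq_true, imp_false, implies_true, forall_const, Bool.true_eq_false, mem_filter, mem_univ, notMem_empty, IsEmpty.forall_iff, and_self]⟩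
  obtain ⟨-, h0, h1⟩ := mem_filter.1 h1
  have hQ : ∀ (p : 𝓗) q, g2w t p.1 q ∈ Q t R := by
    rintro p ⟨i, b⟩
    refine mem_Q.2 ⟨disjoint_left.1 (h0 _ p.2).2 ((g2_mem t).2 ⟨_, rfl⟩), ?_⟩
    rw [g2_m]
    exact disjoint_left.1 (h0 _ p.2).2 ((g2_mem t).2 ⟨_, rfl⟩)
  let H : 𝓗 × Fin 3 × Bool → UU t R W := fun a => .inl ⟨g2w t a.1.1 a.2, hQ a.1 a.2⟩
  have Hm : ∀ p i b, s.m (H (p, i, b)) = H (p, i, !b) := fun p i b =>
    (a.m1 _).trans (congrArg Sum.inl (Subtype.ext (g2_m t _ i b)))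
  let k := Fintype.equivFin (UU t R W)
  let E := {u : UU t R W // (∀ x, H x ≠ u) ∧ k u < k (s.m u)}
  let φ : (E × Bool) ⊕ (𝓗 × Fin 3 × Bool) → UU t R W :=
    Sum.elim (fun a => cond a.2 (s.m a.1.1) a.1.1) H
  have cl : ∀ x u, H x = s.m u → ∃ x', H x' = u := by
    rintro ⟨p, i, b⟩ u e
    exact ⟨_, by rw [← Hm, e, s.mm]⟩
  have out : ∀ (a : E × Bool) (a' : 𝓗 × Fin 3 × Bool), φ (.inl a) ≠ φ (.inr a') := by
    rintro ⟨e, _ | _⟩ x h
    · exact e.2.1 x h.symm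
    · obtain ⟨x', h'⟩ := cl x _ h.symm
      exact e.2.1 x' h'
  have inj : Function.Injective φ := by
    rintro (⟨e, b⟩ | ⟨p, q⟩) (⟨e', b'⟩ | ⟨p', q'⟩) h
    · have a1 := e.2.2
      have a2 := e'.2.2
      cases b <;> cases b'
      · rw [show e = e' from Subtype.ext h]
      · rw [show e.1 = s.m e'.1 from h, s.mm] at a1
        exact (lt_asymm a1 a2).elim
      · rw [← show s.m e.1 = e'.1 from h, s.mm] at a2
        exact (lt_asymm a1 a2).elim
      · rw [show e = e' from Subtype.ext (Function.LeftInverse.injective s.mm h)]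
    · exact (out _ _ h).elim
    · exact (out _ _ h.symm).elim
    · have h' : g2w t p.1 q = g2w t p'.1 q' := congrArg Subtype.val (Sum.inl.inj h)
      obtain rfl : p = p' := by_contra fun hn =>
        disjoint_left.1 (h1 _ p.2 _ p'.2 fun e => hn (Subtype.ext e))
          ((g2_mem t).2 ⟨q, rfl⟩) ((g2_mem t).2 ⟨q', h'.symm⟩)
      rw [show q = q' from g2_inj t (h0 _ p.2).1 h']
  have sur : Function.Surjective φ := fun v => by
    by_cases hv : ∀ x, H x ≠ v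
    · rcases lt_or_gt_of_ne fun e : k v = k (s.m v) => s.m_ne v (k.injective e).symm with a | a
      · exact ⟨.inl (⟨v, hv, a⟩, false), rfl⟩
      · exact ⟨.inl (⟨s.m v, fun x e => (cl x v e).elim hv, by rwa [s.mm]⟩, true), s.mm v⟩
    · push Not at hv
      obtain ⟨x, e⟩ := hv
      exact ⟨.inr x, e⟩
  refine ⟨E, 𝓗, inferInstance, inferInstance, inferInstance, inferInstance,
    ⟨Equiv.ofBijective φ ⟨inj, sur⟩, fun f => f.1.2, fun e b => ?_, Hm, fun f i => ?_⟩,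
    fun f => ⟨f.1.1, (h0 _ f.2).1, fun i b => ⟨hQ f (i, b), rfl⟩⟩, fun v c hv hR => ?_⟩
  · cases b
    exacts [rfl, s.mm _]
  · have e : t.col f.1.2 (g2w t f.1 (i, true)) = g2w t f.1 (i + 1, false) := by
      fin_cases i
      exacts [rfl, rfl, (h0 _ f.2).1]
    refine (a.o1 ⟨_, hQ f (i, true)⟩ f.1.2 (e ▸ hQ f (i + 1, false))).trans ?_
    exact Prod.ext (congrArg Sum.inl (Subtype.ext e)) rfl
  · by_contra hn
    have dj : ∀ p ∈ 𝓗, Disjoint (t.hex v c) (t.hex p.1 p.2) := fun p hp =>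
      disjoint_left.2 fun u a b => by
        obtain ⟨q, rfl⟩ := (g2_mem t).1 b
        exact hn ⟨⟨p, hp⟩, q.1, q.2, _, rfl, a⟩
    have nm : (v, c) ∉ 𝓗 := fun hp =>
      disjoint_left.1 (dj _ hp) (mem_insert_self _ _) (mem_insert_self _ _)
    have := h2 (insert (v, c) 𝓗) (mem_filter.2 ⟨mem_univ _,
      forall_mem_insert .. |>.2 ⟨⟨hv, hR⟩, h0⟩, fun p hp q hq pq => by
        rcases mem_insert.1 hp with rfl | hp <;> rcases mem_insert.1 hq with rfl | hq
        exacts [(pq rfl).elim, dj _ hq, (dj _ hp).symm, h1 _ hp _ hq pq]⟩)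
    rw [card_insert_of_notMem nm] at this
    omega

end Pool.Agent.MP_8c1b0d_co.RR

set_option autoImplicit false
set_option linter.unusedSectionVars false
open Finset

namespace Pool.Agent.MP_8c1b0d_co.RR

variable {V I W : Type} [Fintype V] [DecidableEq V] [Fintype I] [DecidableEq I] [Fintype W]
  [DecidableEq W] {mo : I → Bool} {t : Tri V} {R : Finset V} {pp : Ports t R mo} {g : Gad I W mo}

/-- If `v ∈ Q t R` and `w = t'.m v ∈ R` then `t.m w = t'.m w = v`. -/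
theorem Same.Q_eq {t' : Tri V} (h : Same t t' R) : Q t' R = Q t R := by
  ext v
  by_cases hv : v ∈ Q t R
  · refine ⟨fun _ => hv, fun _ => mem_Q.2 ⟨(mem_Q.1 hv).1, fun hw => ?_⟩⟩
    have h1 : t'.m v ∉ Q t R := fun e => (mem_Q.1 e).1 hw
    have h2 : t'.m (t'.m v) = t.m (t'.m v) := h.eq _ h1 none
    rw [t'.mm] at h2
    have h3 : t.m v = t'.m v := by
      conv_lhs => rw [h2]
      exact t.mm _
    exact (mem_Q.1 hv).2 (h3 ▸ hw)
  · have h2 : t'.m v = t.m v := h.eq _ hv none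
    rw [mem_Q, mem_Q, h2]

lemma h1c_col {v : V} {c : Bool} (h : t.Alt v c) (q : Fin 3 × Bool) :
    ∃ q', t.col c (g2w t (v, c) q) = g2w t (v, c) q' := by
  obtain ⟨i, b⟩ := q
  rw [Tri.Alt] at h
  fin_cases i <;> cases b
  · refine ⟨(2, true), ?_⟩
    have := congrArg (t.col c) h
    rw [g3_cc] at this
    exact this.symm
  · exact ⟨(1, false), rfl⟩
  · exact ⟨(0, true), g3_cc t c _⟩
  · exact ⟨(2, false), rfl⟩
  · exact ⟨(1, true), g3_cc t c _⟩
  · exact ⟨(0, false), h⟩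

section
variable {U E N : Type} [Fintype U] [DecidableEq U] [Fintype E] [DecidableEq E] [Fintype N]
  [DecidableEq N] {s : Sy U} (F : Fam s E N) (J : N → Bool)

lemma h1c_sw_w (f : N) (i : Fin 3) (b : Bool) :
    F.sw J (F.w f i b) = if J f then some (F.c f) else none := by
  simp [Fam.sw, Fam.ndv, Fam.w]

lemma h1c_sw_u (e : E) (b : Bool) : F.sw J (F.vx (.inl (e, b))) = none := by
  simp [Fam.sw, Fam.ndv]

lemma h1c_sw_some {u : U} {k : Bool} (h : F.sw J u = some k) :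
    ∃ f i b, u = F.w f i b ∧ k = F.c f ∧ J f = true := by
  obtain ⟨x, rfl⟩ := F.vx.surjective u
  rcases x with ⟨e, b⟩ | ⟨f, i, b⟩
  · rw [h1c_sw_u] at h
    cases h
  · have h' := h1c_sw_w F J f i b
    rw [Fam.w, h] at h'
    refine ⟨f, i, b, rfl, ?_⟩
    split_ifs at h' with hf
    exact ⟨Option.some.inj h', hf⟩

lemma h1c_sw_m (u : U) : F.sw J (s.m u) = F.sw J u := by
  obtain ⟨x, rfl⟩ := F.vx.surjective u
  rcases x with ⟨e, b⟩ | ⟨f, i, b⟩
  · rw [F.m1, h1c_sw_u, h1c_sw_u]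
  · rw [F.m2]
    exact (h1c_sw_w F J f i _).trans (h1c_sw_w F J f i b).symm

lemma h1c_sw_o {u : U} {k : Bool} (h : F.sw J u = some k) : F.sw J (s.o (u, k)).1 = some k := by
  obtain ⟨f, i, b, rfl, rfl, hf⟩ := h1c_sw_some F J h
  have e : ∀ i b, F.sw J (F.vx (.inr (f, i, b))) = some (F.c f) := fun i b => by
    have := h1c_sw_w F J f i b
    rwa [if_pos hf] at this
  cases b
  · have h1 := congrArg s.o (F.hx f (i - 1))
    rw [s.oo, sub_add_cancel] at h1
    rw [Fam.w, ← h1]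
    exact e _ _
  · rw [Fam.w, F.hx]
    exact e _ _
end

/-- Put `sw v = F.sw I (inl v)` on `Q` and `none` off `Q`; `g3_tri` (GA.lean) gives `t'`: if
`F.sw I u = some k` then `u = F.w f i b`, `k = F.c f`, and `s.m u`, `(s.o (u,k)).1` are again vertices of
the node `f` (`m2`, `hx`), all in `inl Q` by `Hx.hx`; so `t.col k v ∈ Q` (`emb_or`, `o1`, or compute with
`g2w`). On `inr u` and at ports nothing is swapped. Given `φ, v` define `G` on `UU × Bool` by
`G (inl w, c) = φ (w, c)`, `G (inr u, c) = v (inr (u, c))`, so `G (emb x) = v x`; check the three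
equations of `Sol` for `s'`; `r v = ρ (inl v)`, `s u = ρ (inr u)`. -/
theorem Asm.clo {s s' : Sy (UU t R W)} (a : Asm pp g s) {E N : Type} [Fintype E] [DecidableEq E]
    [Fintype N] [DecidableEq N] {F : Fam s E N} (hF : F.Hx) {J : N → Bool} {ρ : UU t R W → Bool}
    (h1 : s.Swp s' (F.sw J)) (h2 : s'.Sol ρ) : Clo pp g := by
  have k5 : ∀ u, F.sw J (.inr u) = none := fun u => by
    rcases h : F.sw J (.inr u) with _ | k
    · rfl
    · obtain ⟨f, i, b, e, -, -⟩ := h1c_sw_some F J h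
      obtain ⟨v, -, hv⟩ := hF.hx f
      obtain ⟨_, e'⟩ := hv i b
      rw [e'] at e
      cases e
  have k6 : ∀ (v : Q t R) k, F.sw J (.inl v) = some k → t.col k v.1 ∈ Q t R := fun v k h => by
    obtain ⟨f, i, b, e, rfl, -⟩ := h1c_sw_some F J h
    obtain ⟨v0, ha, hv⟩ := hF.hx f
    obtain ⟨_, e'⟩ := hv i b
    rw [e'] at e
    obtain ⟨⟨i', b'⟩, hq⟩ := h1c_col ha (i, b)
    obtain ⟨hm, -⟩ := hv i' b'
    rw [Sum.inl.inj e]
    exact hq ▸ hm
  obtain ⟨sw, sq, sn⟩ : ∃ sw : V → Option Bool, (∀ v : Q t R, sw v.1 = F.sw J (.inl v)) ∧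
      ∀ v ∉ Q t R, sw v = none :=
    ⟨fun v => if h : v ∈ Q t R then F.sw J (.inl ⟨v, h⟩) else none, fun v => dif_pos v.2,
      fun v hv => dif_neg hv⟩
  obtain ⟨t', t1, t2, t3, t4⟩ := g3_tri t sw (fun v => by
      by_cases hv : v ∈ Q t R
      · rw [sq ⟨v, hv⟩, sq ⟨t.m v, Q_m hv⟩, ← a.m1 ⟨v, hv⟩, h1c_sw_m]
      · rw [sn v hv, sn _ fun e => hv (t.mm v ▸ Q_m e)])
    fun v k h => by
      by_cases hv : v ∈ Q t R
      · rw [sq ⟨v, hv⟩] at h
        have hc := k6 _ _ h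
        have := h1c_sw_o F J h
        rw [a.o1 _ _ hc] at this
        exact (sq ⟨_, hc⟩).trans this
      · rw [sn v hv] at h
        cases h
  have hS : Same t t' R := ⟨t1, fun v hv k => by
    rcases k with _ | k
    · exact t2 v (sn v hv)
    · exact t4 v k (by rw [sn v hv]; simp)⟩
  have M1 : ∀ v : Q t R, ∃ h, s'.m (.inl v) = .inl ⟨t'.m v.1, h⟩ := fun v => by
    rcases h : F.sw J (.inl v) with _ | k
    · have e := t2 v.1 ((sq v).trans h)
      refine ⟨e ▸ Q_m v.2, ?_⟩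
      rw [h1.m0 _ h, a.m1]
      simp only [e]
    · have e := (t3 v.1 k ((sq v).trans h)).1
      refine ⟨e ▸ k6 v k h, ?_⟩
      rw [(h1.m1 _ _ h).1, a.o1 _ _ (k6 v k h)]
      simp only [e]
  have M2 : ∀ u, s'.m (.inr u) = .inr (g.m u) := fun u => by rw [h1.m0 _ (k5 u), a.m2]
  have O1 : ∀ (v : Q t R) c, t.col c v.1 ∈ Q t R →
      ∃ h, s'.o (.inl v, c) = (.inl ⟨t'.col c v.1, h⟩, c) := fun v c hc => by
    by_cases h : F.sw J (.inl v) = some c
    · have e := (t3 v.1 c ((sq v).trans h)).2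
      refine ⟨e ▸ Q_m v.2, ?_⟩
      rw [(h1.m1 _ _ h).2, a.m1]
      simp only [e]
    · have e := t4 v.1 c (by rw [sq v]; exact h)
      refine ⟨e ▸ hc, ?_⟩
      rw [h1.o0 _ _ h, a.o1 _ _ hc]
      simp only [e]
  have O2 : ∀ x, s'.o (pp.emb x) = pp.emb (g.o x) := fun x => by
    rw [← a.o2]
    refine h1.o0 (pp.emb x).1 (pp.emb x).2 fun h => ?_
    rcases x with p | η
    · exact (pp.mem p).2 (k6 _ _ h)
    · exact absurd ((k5 η.1).symm.trans h) (by simp)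
  obtain ⟨r, rq⟩ : ∃ r : V → Bool, ∀ v : Q t R, r v.1 = ρ (.inl v) :=
    ⟨fun v => if h : v ∈ Q t R then ρ (.inl ⟨v, h⟩) else false, fun v => dif_pos v.2⟩
  refine ⟨t', r, fun u => ρ (.inr u), hS, fun v hv => ?_, fun u => ?_, fun k φ v hI hE hp => ?_⟩
  · obtain ⟨h, e⟩ := M1 ⟨v, hv⟩
    rw [rq ⟨_, h⟩, rq ⟨v, hv⟩, ← e, h2.1]
  · show ρ (.inr (g.m u)) = ρ (.inr u)
    rw [← M2, h2.1]
  · rw [Inn, hS.Q_eq] at hI
    obtain ⟨G, G1, G2⟩ : ∃ G : UU t R W × Bool → ZMod 2, (∀ w c, G (.inl w, c) = φ (w.1, c)) ∧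
        ∀ u c, G (.inr u, c) = v (.inr (u, c)) :=
      ⟨fun h => Sum.elim (fun w => φ (w.1, h.2)) (fun u => v (.inr (u, h.2))) h.1,
        fun _ _ => rfl, fun _ _ => rfl⟩
    have G3 : ∀ x, G (pp.emb x) = v x := by
      rintro (p | η)
      · exact (G1 _ _).trans (hp p).symm
      · exact G2 _ _
    refine (h2.2 k G (fun h => ?_) (fun u hu c => ?_) fun u hu => ?_).imp fun d hd =>
      ⟨fun h hh => (G1 ⟨h.1, hh⟩ h.2).symm.trans (hd _), fun x => (G3 x).symm.trans (hd _)⟩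
    · rcases pp.emb_or h with ⟨w, e, hc⟩ | ⟨x, rfl⟩
      · obtain ⟨u, c⟩ := h
        obtain rfl : u = .inl w := e
        obtain ⟨hh, e⟩ := O1 w c hc
        rw [e, G1, G1]
        exact hI.1 (w.1, c) w.2 hh
      · rw [O2, G3, G3, hE.1]
    · rcases u with w | u
      · obtain ⟨hh, e⟩ := M1 w
        rw [e, G1, G1]
        exact hI.2.1 w.1 w.2 ((rq w).trans hu) c
      · rw [M2, G2, G2]
        exact hE.2.1 u hu c
    · rcases u with w | u
      · rw [G1, G1]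
        exact hI.2.2 w.1 w.2 (by rw [rq w]; exact hu)
      · rw [G2, G2]
        exact hE.2.2 u hu

end Pool.Agent.MP_8c1b0d_co.RR

set_option autoImplicit false
set_option linter.unusedSectionVars false
open Finset

namespace Pool.Agent.MP_8c1b0d_co.RR

variable {V I W : Type} [Fintype V] [DecidableEq V] [Fintype I] [DecidableEq I] [Fintype W]
  [DecidableEq W] {mo : I → Bool} {t : Tri V} {R : Finset V} {pp : Ports t R mo} {g : Gad I W mo}

/-- the core part of a set of vertices -/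
def h1dL (S : Finset (UU t R W)) : Finset V := S.toLeft.map (Function.Embedding.subtype _)

theorem h1dL_mem {S : Finset (UU t R W)} {v : V} :
    v ∈ h1dL S ↔ ∃ h : v ∈ Q t R, Sum.inl ⟨v, h⟩ ∈ S := by
  simp only [h1dL, mem_map, mem_toLeft, Function.Embedding.subtype_apply, Subtype.exists, exists_and_right, exists_eq_right]

theorem h1dL_card (S : Finset (UU t R W)) : #(h1dL S) + #S.toRight = #S := by
  rw [h1dL, card_map, card_toLeft_add_card_toRight]

/-- the core part of a set of half-edges -/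
def h1dD (S : Finset (UU t R W × Bool)) : Finset (V × Bool) :=
  (S.map (Equiv.sumProdDistrib _ _ _).toEmbedding).toLeft.map
    ((Function.Embedding.subtype _).prodMap (Function.Embedding.refl _))

theorem h1dD_mem {S : Finset (UU t R W × Bool)} {h : V × Bool} :
    h ∈ h1dD S ↔ ∃ q : h.1 ∈ Q t R, (Sum.inl ⟨h.1, q⟩, h.2) ∈ S := by
  obtain ⟨v, k⟩ := h
  simp only [h1dD, mem_map, mem_toLeft, Equiv.coe_toEmbedding, Function.Embedding.coe_prodMap]
  constructor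
  · rintro ⟨⟨⟨w, q⟩, j⟩, ⟨x, hx, e⟩, e'⟩
    obtain ⟨rfl, rfl⟩ := Prod.mk.inj e'
    refine ⟨q, ?_⟩
    have := (Equiv.eq_symm_apply _).2 e
    rw [this] at hx
    exact hx
  · rintro ⟨q, hx⟩
    exact ⟨(⟨v, q⟩, k), ⟨_, hx, rfl⟩, rfl⟩

theorem h1dD_card (S : Finset (UU t R W × Bool)) :
    #(h1dD S) + #{η : W × Bool | (Sum.inr η.1, η.2) ∈ S} = #S := by
  have : ({η : W × Bool | (Sum.inr η.1, η.2) ∈ S} : Finset _) =
      (S.map (Equiv.sumProdDistrib _ _ _).toEmbedding).toRight := by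
    ext ⟨u, k⟩
    simp only [mem_filter, mem_univ, true_and, mem_toRight, mem_map_equiv]
    rfl
  rw [this, h1dD, card_map, card_toLeft_add_card_toRight, card_map]

/-- extension of a function on half-edges -/
def h1dE {Z : Type} (z : Z) (f : UU t R W × Bool → Z) (h : V × Bool) : Z :=
  if q : h.1 ∈ Q t R then f (.inl ⟨h.1, q⟩, h.2) else z

theorem h1dE_pos {Z : Type} (z : Z) (f : UU t R W × Bool → Z) {v : V} (q : v ∈ Q t R) (k : Bool) :
    h1dE z f (v, k) = f (.inl ⟨v, q⟩, k) := dif_pos q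

theorem h1dE_neg {Z : Type} (z : Z) (f : UU t R W × Bool → Z) {v : V} (q : v ∉ Q t R) (k : Bool) :
    h1dE z f (v, k) = z := dif_neg q

theorem h1dE_some {Y : Type} {f : UU t R W × Bool → Option Y} {h : V × Bool} {y : Y}
    (e : h1dE none f h = some y) : h.1 ∈ Q t R := by
  by_contra q
  rw [h1dE, dif_neg q] at e
  cases e

theorem h1d_hex {v : V} {k : Bool} (h : t.Alt v k) (q : Fin 3 × Bool) :
    t.Alt (g2w t (v, k) q) k ∧ t.hex (g2w t (v, k) q) k ⊆ t.hex v k := by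
  obtain ⟨i, b⟩ := q
  have h1 := g2_cc t k
  have h4 := t.mm
  have h5 : t.m (t.col k (t.m (t.col k (t.m v)))) = t.col k v := by
    conv_rhs => rw [← h, h1]
  have h6 : t.col k (t.m (t.col k (t.m v))) = t.m (t.col k v) := by rw [← h5, h4]
  have h7 : t.m (t.col k (t.m v)) = t.col k (t.m (t.col k v)) := by rw [← h6, h1]
  have h8 : t.col k (t.m v) = t.m (t.col k (t.m (t.col k v))) := by rw [← h7, h4]
  fin_cases i <;> cases b <;>
    simp [g2w, Tri.Alt, Tri.hex, Finset.subset_iff, h1, h4, h7, ← h8]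

/-- Translate: `A0 = {v | ∃ h, inl ⟨v,h⟩ ∈ c.A0}`, `B0 = {u | inr u ∈ c.A0}`,
`lab (v,k) = if h : v ∈ Q then c.lab (inl ⟨v,h⟩, k) else none`, `lh x = c.lab (emb x)`,
`DH = {x | emb x ∈ c.D}`, the same for `d`. Cards: a finset of `α ⊕ β` splits
(`Finset.card_toLeft_add_card_toRight` or a direct bijection). `hexa`: `Hx.mx` gives a node `f` that
meets the hexagon in `w = g2w (v0, c f) (i, b)`; take `u = w`, `c' = F.c f`; `Alt w c'` and
`hex w c' = hex v0 c'` (six cases, `g2_mem`), and `node` says that all its vertices are unsplit with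
one label. -/
theorem Asm.mc {s : Sy (UU t R W)} (a : Asm pp g s) {E N : Type} [Fintype E] [DecidableEq E]
    [Fintype N] [DecidableEq N] {F : Fam s E N} (hF : F.Hx) {Y : Type} [Fintype Y] [DecidableEq Y]
    (c : F.RC Y) : Nonempty (MC pp g Y) := by
  have nm : ∀ {S : Finset (UU t R W)} {v : V} (q : v ∈ Q t R), v ∉ h1dL S → Sum.inl ⟨v, q⟩ ∉ S :=
    fun q hv hh => hv (h1dL_mem.2 ⟨q, hh⟩)
  have nm' : ∀ {S : Finset (UU t R W)} {v : V} (q : v ∈ Q t R), Sum.inl ⟨v, q⟩ ∉ S → v ∉ h1dL S :=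
    fun q hv hh => hv (h1dL_mem.1 hh).2
  have nd : ∀ {v : V} {k : Bool} (q : v ∈ Q t R), (v, k) ∉ h1dD c.D ↔ (Sum.inl ⟨v, q⟩, k) ∉ c.D :=
    fun q => ⟨fun hv hh => hv (h1dD_mem.2 ⟨q, hh⟩), fun hv hh => hv (h1dD_mem.1 hh).2⟩
  refine ⟨{
    A0 := h1dL c.A0
    A1 := h1dL c.A1
    lab := h1dE none c.lab
    D := h1dD c.D
    B0 := c.A0.toRight
    B1 := c.A1.toRight
    lh := fun x => c.lab (pp.emb x)
    DH := {x | pp.emb x ∈ c.D}
    F := c.Fl
    q0 := fun v hv => (h1dL_mem.1 hv).1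
    q1 := fun v hv => (h1dL_mem.1 hv).1
    lq := fun h y e => h1dE_some e
    m0 := fun v hv => ?m0
    m1 := fun v hv => ?m1
    disj := ?disj
    l0 := fun v hv => ?l0
    l1 := fun v hv k => ?l1
    lX := fun v q h0 h1 => ?lX
    dX := fun h hh => ?dX
    cl := fun h y e hD q' => ?cl
    pl := fun p => (h1dE_pos none c.lab (pp.mem p).1 _).symm
    pd := fun p => ?pd
    n0 := fun u hu => ?n0
    n1 := fun u hu => ?n1
    disj' := ?disj'
    k0 := fun u hu => c.l0 _ (by simpa using hu)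
    k1 := fun u hu k => ?k1
    kX := fun u h0 h1 => c.lX _ (by simpa using And.intro h0 h1)
    eX := fun u k hu => ?eX
    ch := fun x y e hD => ?ch
    surj := fun y => ?surj
    big := fun y hy => ?big
    ori := fun y hy => ?ori
    hexa := fun v k hv hR => ?hexa
    cnt := ?cnt }⟩
  case m0 =>
    obtain ⟨q, h⟩ := h1dL_mem.1 hv
    have := c.m0 _ h
    rw [a.m1] at this
    exact h1dL_mem.2 ⟨_, this⟩
  case m1 =>
    obtain ⟨q, h⟩ := h1dL_mem.1 hv
    have := c.m1 _ h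
    rw [a.m1] at this
    exact h1dL_mem.2 ⟨_, this⟩
  case disj =>
    refine disjoint_left.2 fun v h0 h1 => ?_
    obtain ⟨q, h0⟩ := h1dL_mem.1 h0
    exact disjoint_left.1 c.disj h0 (h1dL_mem.1 h1).2
  case l0 =>
    by_cases q : v ∈ Q t R
    · rw [h1dE_pos _ _ q, h1dE_pos _ _ q]
      exact c.l0 _ (nm q hv)
    · rw [h1dE_neg _ _ q, h1dE_neg _ _ q]
  case l1 =>
    by_cases q : v ∈ Q t R
    · rw [h1dE_pos _ _ q, h1dE_pos _ _ (Q_m q), ← c.l1 _ (nm q hv) k, a.m1]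
    · have q' : t.m v ∉ Q t R := fun h => q (by simpa [t.mm] using Q_m h)
      rw [h1dE_neg _ _ q, h1dE_neg _ _ q']
  case lX =>
    rw [h1dE_pos _ _ q]
    exact c.lX _ (by simpa using ⟨nm q h0, nm q h1⟩)
  case dX =>
    obtain ⟨q, h'⟩ := h1dD_mem.1 hh
    have := c.dX _ h'
    rw [mem_union, not_or] at this
    exact ⟨q, nm' q this.1, nm' q this.2⟩
  case cl =>
    obtain ⟨v, k⟩ := h
    have q : v ∈ Q t R := h1dE_some e
    rw [h1dE_pos _ _ q] at e
    have := c.cl _ y e ((nd q).1 hD)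
    rw [a.o1 ⟨v, q⟩ k q'] at this
    exact ⟨(h1dE_pos _ _ q' k).trans this.1, (nd q').2 this.2⟩
  case pd =>
    rw [mem_filter, h1dD_mem]
    exact ⟨fun h => ⟨_, h.2⟩, fun h => ⟨mem_univ _, h.2⟩⟩
  case n0 =>
    have := c.m0 _ (mem_toRight.1 hu)
    rw [a.m2] at this
    exact mem_toRight.2 this
  case n1 =>
    have := c.m1 _ (mem_toRight.1 hu)
    rw [a.m2] at this
    exact mem_toRight.2 this
  case disj' =>
    exact disjoint_left.2 fun u h0 h1 =>
      disjoint_left.1 c.disj (mem_toRight.1 h0) (mem_toRight.1 h1)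
  case k1 =>
    have := c.l1 (.inr u) (by simpa using hu) k
    rw [a.m2] at this
    exact this
  case eX =>
    have := c.dX _ (mem_filter.1 hu).2
    simpa [Ports.emb] using this
  case ch =>
    have := c.cl _ y e fun h => hD (mem_filter.2 ⟨mem_univ _, h⟩)
    rw [a.o2] at this
    exact ⟨this.1, fun h => this.2 (mem_filter.1 h).2⟩
  case surj =>
    obtain ⟨⟨v | u, k⟩, e⟩ := c.surj y
    · exact .inl ⟨(v.1, k), (h1dE_pos _ _ v.2 k).trans e⟩
    · exact .inr ⟨(u, k), e⟩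
  case big =>
    have h1 := c.big y hy
    rw [← h1dL_card] at h1
    refine h1.trans (add_le_add (card_le_card fun v hv => ?_) (card_le_card fun u hu => ?_))
    · obtain ⟨q, h⟩ := h1dL_mem.1 hv
      simp only [mem_filter, mem_univ, true_and, mem_union, not_or] at h ⊢
      exact ⟨nm' q h.1.1, nm' q h.1.2, (h1dE_pos _ _ q _).trans h.2⟩
    · simp only [mem_toRight, mem_filter, mem_univ, true_and, mem_union, not_or] at hu ⊢
      exact ⟨hu.1.1, hu.1.2, hu.2⟩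
  case ori =>
    obtain ⟨d, d0, d1, d2⟩ := c.ori y hy
    refine ⟨h1dE false d, fun x => d (pp.emb x), fun v q hv => ?_, fun v q hv k => ?_,
      fun h e hD q' => ?_, fun p => (h1dE_pos false d (pp.mem p).1 _).symm,
      fun u hu => d0 _ (by simpa using hu), fun x e hD => ?_⟩
    · rw [h1dE_pos _ _ q, h1dE_pos _ _ q]
      exact d0 _ (nm q hv)
    · have := d1 _ (nm q hv) k
      rw [a.m1] at this
      rwa [h1dE_pos _ _ q, h1dE_pos _ _ (Q_m q)]
    · obtain ⟨v, k⟩ := h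
      have q : v ∈ Q t R := h1dE_some e
      rw [h1dE_pos _ _ q] at e
      have := d2 _ e ((nd q).1 hD)
      rw [a.o1 ⟨v, q⟩ k q'] at this
      rw [h1dE_pos _ _ q]
      exact fun h => this ((h1dE_pos _ _ q' k).symm.trans h)
    · have := d2 _ e fun h => hD (mem_filter.2 ⟨mem_univ _, h⟩)
      rwa [a.o2] at this
  case hexa =>
    obtain ⟨f, i, b, w, hw, hw'⟩ := hF.mx v k hv hR
    obtain ⟨v0, h0, h1⟩ := hF.hx f
    obtain ⟨q, e⟩ := h1 i b
    have e' : w = ⟨_, q⟩ := Sum.inl.inj (hw.symm.trans e)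
    subst e'
    obtain ⟨h2, h3⟩ := h1d_hex h0 (i, b)
    refine ⟨_, hw', F.c f, h2, fun x hx => ?_⟩
    obtain ⟨⟨j, b'⟩, rfl⟩ := (g2_mem t (p := (v0, F.c f))).1 (h3 hx)
    obtain ⟨q', e'⟩ := h1 j b'
    have h4 := c.node f j b'
    have h5 := c.node f i b
    rw [e', mem_union, not_or] at h4
    rw [e] at h5
    refine ⟨q', nm' q' h4.1.1, nm' q' h4.1.2, ?_⟩
    rw [h1dE_pos _ _ q', h1dE_pos _ _ q, h4.2, h5.2]
  case cnt =>
    have h1 := c.cnt
    have h2 := h1dL_card c.A0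
    have h3 := h1dL_card c.A1
    have h4 := h1dD_card c.D
    have h5 : #{η : W × Bool | Sum.inr η ∈ ({x | pp.emb x ∈ c.D} : Finset (HH I W))} =
        #{η : W × Bool | (Sum.inr η.1, η.2) ∈ c.D} := by
      congr 1
      ext η
      simp only [Ports.emb, mem_filter, mem_univ, true_and]
    rw [h5]
    omega

end Pool.Agent.MP_8c1b0d_co.RR

set_option autoImplicit false
set_option linter.unusedSectionVars false
open Finset

namespace Pool.Agent.MP_8c1b0d_co.RR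

variable {V I W : Type} [Fintype V] [DecidableEq V] [Fintype I] [DecidableEq I] [Fintype W]
  [DecidableEq W] {mo : I → Bool} {t : Tri V} {R : Finset V}

/-- Paths of two involutions. Induction on `#U`: if `U = B` take `f = ρ`. Else let `x ∈ U \ B`,
`y = o x`, `U' = U \ {x, y}`. If `ρ x = y` keep `ρ`; else `ρ' (ρ x) = ρ y`, `ρ' (ρ y) = ρ x`. Extend `φ`
by `φ x = φ y = φ (ρ x)` (any value in the first case). -/
theorem pair_gen {T X : Type} [DecidableEq T] (U B : Finset T) (hB : B ⊆ U) (ρ o : T → T)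
    (hρ : ∀ x ∈ U, ρ x ∈ U ∧ ρ (ρ x) = x ∧ ρ x ≠ x)
    (ho : ∀ x ∈ U, x ∉ B → o x ∈ U ∧ o x ∉ B ∧ o (o x) = x ∧ o x ≠ x) :
    ∃ f : T → T, (∀ b ∈ B, f b ∈ B ∧ f (f b) = b ∧ f b ≠ b) ∧
      (∀ φ : T → X, (∀ x ∈ U, φ (ρ x) = φ x) → (∀ x ∈ U, x ∉ B → φ (o x) = φ x) →
        ∀ b ∈ B, φ (f b) = φ b) ∧
      ∀ v : T → X, (∀ b ∈ B, v (f b) = v b) → ∃ φ : T → X, (∀ x ∈ U, φ (ρ x) = φ x) ∧
        (∀ x ∈ U, x ∉ B → φ (o x) = φ x) ∧ ∀ b ∈ B, φ b = v b := by
  classical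
  induction' hn : #U using Nat.strong_induction_on with n ih generalizing U ρ
  by_cases hU : ∀ x ∈ U, x ∈ B
  · exact ⟨ρ, fun b hb => ⟨hU _ (hρ b (hB hb)).1, (hρ b (hB hb)).2⟩,
      fun φ h1 _ b hb => h1 b (hB hb),
      fun v hv => ⟨v, fun x hx => hv x (hU x hx), fun x hx hx' => absurd (hU x hx) hx',
        fun _ _ => rfl⟩⟩
  push Not at hU
  obtain ⟨x, hx, hxB⟩ := hU
  obtain ⟨hy, hyB, hox, hyx⟩ := ho x hx hxB
  generalize hyd : o x = y at hy hyB hox hyx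
  obtain ⟨rx1, rx2, rx3⟩ := hρ x hx
  obtain ⟨ry1, ry2, ry3⟩ := hρ y hy
  have mem : ∀ z, z ∈ (U.erase x).erase y ↔ z ≠ y ∧ z ≠ x ∧ z ∈ U := fun z => by
    simp only [mem_erase]
  have hB' : B ⊆ (U.erase x).erase y := fun b hb =>
    (mem b).2 ⟨fun e => hyB (e ▸ hb), fun e => hxB (e ▸ hb), hB hb⟩
  obtain ⟨σ, hσ⟩ : ∃ σ : T → T,
      ∀ z, σ z = if ρ z = x then ρ y else if ρ z = y then ρ x else ρ z := ⟨_, fun _ => rfl⟩
  have s1 : ∀ z, ρ z = x → σ z = ρ y := fun z h => by rw [hσ, if_pos h]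
  have s2 : ∀ z, ρ z = y → σ z = ρ x := fun z h => by
    rw [hσ, if_neg (h ▸ hyx), if_pos h]
  have s3 : ∀ z, ρ z ≠ x → ρ z ≠ y → σ z = ρ z := fun z h h' => by rw [hσ, if_neg h, if_neg h']
  have hσ' : ∀ z ∈ (U.erase x).erase y,
      σ z ∈ (U.erase x).erase y ∧ σ (σ z) = z ∧ σ z ≠ z := by
    intro z hz
    obtain ⟨zy, zx, zU⟩ := (mem z).1 hz
    obtain ⟨rz1, rz2, rz3⟩ := hρ z zU
    by_cases h1 : ρ z = x
    · have e : ρ x = z := by rw [← h1, rz2]
      rw [s1 z h1, s2 _ ry2, mem]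
      refine ⟨⟨ry3, fun h => zy ?_, ry1⟩, e, fun h => hyx ?_⟩
      · rw [← e, ← h, ry2]
      · rw [← ry2, h, h1]
    by_cases h2 : ρ z = y
    · have e : ρ y = z := by rw [← h2, rz2]
      rw [s2 z h2, s1 _ rx2, mem]
      refine ⟨⟨fun h => zx ?_, rx3, rx1⟩, e, fun h => hyx ?_⟩
      · rw [← e, ← h, rx2]
      · rw [← h2, ← h, rx2]
    · rw [s3 z h1 h2, s3 _ (by rwa [rz2]) (by rwa [rz2]), mem]
      exact ⟨⟨h2, h1, rz1⟩, rz2, rz3⟩
  have ho' : ∀ z ∈ (U.erase x).erase y, z ∉ B →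
      o z ∈ (U.erase x).erase y ∧ o z ∉ B ∧ o (o z) = z ∧ o z ≠ z := by
    intro z hz hzB
    obtain ⟨zy, zx, zU⟩ := (mem z).1 hz
    obtain ⟨a1, a2, a3, a4⟩ := ho z zU hzB
    refine ⟨(mem _).2 ⟨fun h => zx ?_, fun h => zy ?_, a1⟩, a2, a3, a4⟩
    · rw [← a3, h, hox]
    · rw [← a3, h, hyd]
  have hlt : #((U.erase x).erase y) < n :=
    hn ▸ lt_of_le_of_lt (card_le_card (erase_subset _ _)) (card_erase_lt_of_mem hx)
  obtain ⟨f, f1, f2, f3⟩ := ih _ hlt _ hB' σ hσ' ho' rfl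
  refine ⟨f, f1, fun φ h1 h2 => f2 φ (fun z hz => ?_)
    (fun z hz hzB => h2 z ((mem z).1 hz).2.2 hzB), fun v hv => ?_⟩
  · obtain ⟨zy, zx, zU⟩ := (mem z).1 hz
    have exy : φ y = φ x := by rw [← hyd]; exact h2 x hx hxB
    by_cases c1 : ρ z = x
    · rw [s1 z c1, h1 y hy, exy, ← c1, h1 z zU]
    by_cases c2 : ρ z = y
    · rw [s2 z c2, h1 x hx, ← exy, ← c2, h1 z zU]
    · rw [s3 z c1 c2, h1 z zU]
  · obtain ⟨ψ, g1, g2, g3⟩ := f3 v hv
    obtain ⟨φ, hφ⟩ : ∃ φ : T → X, ∀ z, φ z = if z = x ∨ z = y then ψ (ρ x) else ψ z :=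
      ⟨_, fun _ => rfl⟩
    have p1 : φ x = ψ (ρ x) := by rw [hφ, if_pos (Or.inl rfl)]
    have p2 : φ y = ψ (ρ x) := by rw [hφ, if_pos (Or.inr rfl)]
    have p3 : ∀ z, z ≠ x → z ≠ y → φ z = ψ z := fun z h h' => by
      rw [hφ, if_neg (not_or.2 ⟨h, h'⟩)]
    refine ⟨φ, fun z zU => ?_, fun z zU hzB => ?_, fun b hb => ?_⟩
    · by_cases zx : z = x
      · subst zx
        by_cases c : ρ z = y
        · rw [c, p2, p1]
        · rw [p3 _ rx3 c, p1]
      by_cases zy : z = y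
      · subst zy
        by_cases c : ρ z = x
        · rw [c, p2, p1]
        · rw [p3 _ c ry3, p2, ← s2 _ ry2, g1 _ ((mem _).2 ⟨ry3, c, ry1⟩)]
      have hz := (mem z).2 ⟨zy, zx, zU⟩
      obtain ⟨rz1, rz2, rz3⟩ := hρ z zU
      rw [p3 z zx zy]
      by_cases c1 : ρ z = x
      · rw [c1, p1, ← c1, rz2]
      by_cases c2 : ρ z = y
      · rw [c2, p2, ← s2 z c2, g1 z hz]
      · rw [p3 _ c1 c2, ← s3 z c1 c2, g1 z hz]
    · by_cases zx : z = x
      · rw [zx, hyd, p1, p2]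
      by_cases zy : z = y
      · rw [zy, hox, p1, p2]
      have hz := (mem z).2 ⟨zy, zx, zU⟩
      obtain ⟨a1, a2, -⟩ := (mem _).1 (ho' z hz hzB).1
      rw [p3 z zx zy, p3 _ a2 a1, g2 z hz hzB]
    · obtain ⟨a1, a2, -⟩ := (mem _).1 (hB' hb)
      rw [p3 b a2 a1, g3 b hb]

/-- the ports are also the ports of a recolouring -/
theorem Same.o_pt {t' : Tri V} (h : Same t t' R) (pp : Ports t R mo) (p : I × Bool) :
    t'.o (pp.pt p) = t.o (pp.pt p) := by
  have h1 := h.eq _ (pp.mem p).2 (some (pp.pt p).2)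
  simp only [Tri.nb_some, Tri.o, Tri.col_col] at h1
  refine Prod.ext ?_ rfl
  have h2 := congrArg (t'.col (pp.pt p).2) h1
  rw [Tri.col_col] at h2
  exact h2.symm

theorem Same.port {t' : Tri V} (h : Same t t' R) (pp : Ports t R mo) {x : V × Bool}
    (hx : x.1 ∈ Q t R) : (t'.o x).1 ∉ Q t R ↔ ∃ p, pp.pt p = x := by
  refine ⟨fun hq => pp.sur x hx ?_, ?_⟩
  · have h1 := h.eq _ hq (some x.2)
    simp only [Tri.nb_some, Tri.o, Tri.col_col] at h1
    have h2 := congrArg (t.col x.2) h1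
    rw [Tri.col_col] at h2
    have h3 : (t.o x).1 = (t'.o x).1 := h2
    rwa [h3]
  · rintro ⟨p, rfl⟩
    rw [h.o_pt]
    exact (pp.mem p).2

/-- `pair_gen` with `U = Q ×ˢ univ`, `B = image pt`, `o = t'.o`,
`ρ (v, c) = if r v = k then (t'.m v, c) else (v, !c)`; `Same.Q_eq`. -/
theorem Ports.pair {t' : Tri V} (h : Same t t' R) (pp : Ports t R mo) (r : V → Bool)
    (hr : ∀ v ∈ Q t R, r (t'.m v) = r v) (k : Bool) : ∃ f : I × Bool → I × Bool, Pairing f ∧
      (∀ φ, Inn t' R r k φ → ∀ p, φ (pp.pt (f p)) = φ (pp.pt p)) ∧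
      ∀ v : I × Bool → ZMod 2, (∀ p, v (f p) = v p) →
        ∃ φ, Inn t' R r k φ ∧ ∀ p, φ (pp.pt p) = v p := by
  classical
  have hm : ∀ v ∈ Q t R, t'.m v ∈ Q t R := fun v hv => by
    rw [← h.Q_eq] at hv ⊢
    exact mem_Q.2 ⟨(mem_Q.1 hv).2, by rw [t'.mm]; exact (mem_Q.1 hv).1⟩
  have mU : ∀ x : V × Bool, x ∈ Q t R ×ˢ (univ : Finset Bool) ↔ x.1 ∈ Q t R := fun x => by simp
  have mB : ∀ x : V × Bool, x ∈ univ.image pp.pt ↔ ∃ p, pp.pt p = x := fun x => by simp only [mem_image, mem_univ, true_and, Prod.exists, Bool.exists_bool]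
  obtain ⟨ρ, hρ⟩ : ∃ ρ : V × Bool → V × Bool,
      ∀ x, ρ x = if r x.1 = k then (t'.m x.1, x.2) else (x.1, !x.2) := ⟨_, fun _ => rfl⟩
  have r1 : ∀ v c, r v = k → ρ (v, c) = (t'.m v, c) := fun v c e => by rw [hρ, if_pos e]
  have r2 : ∀ v c, r v ≠ k → ρ (v, c) = (v, !c) := fun v c e => by rw [hρ, if_neg e]
  have key : ∀ x : V × Bool, x.1 ∈ Q t R → (x ∉ univ.image pp.pt ↔ (t'.o x).1 ∈ Q t R) :=
    fun x hx => by rw [mB, ← h.port pp hx, not_not]
  obtain ⟨f, f1, f2, f3⟩ := pair_gen (X := ZMod 2) (Q t R ×ˢ (univ : Finset Bool))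
    (univ.image pp.pt) (fun x hx => by
      obtain ⟨p, rfl⟩ := (mB x).1 hx
      exact (mU _).2 (pp.mem p).1) ρ t'.o (by
      rintro ⟨v, c⟩ hx
      have hv : v ∈ Q t R := (mU _).1 hx
      by_cases e : r v = k
      · rw [r1 v c e, r1 _ c ((hr v hv).trans e), t'.mm]
        exact ⟨(mU _).2 (hm v hv), rfl, fun e' => t'.m_ne v (congrArg Prod.fst e')⟩
      · rw [r2 v c e, r2 v _ e, Bool.not_not]
        exact ⟨(mU _).2 hv, rfl, fun e' => by cases c <;> cases congrArg Prod.snd e'⟩) (by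
      intro x hx hxB
      have hv := (mU _).1 hx
      have h1 := (key x hv).1 hxB
      exact ⟨(mU _).2 h1, (key _ h1).2 (by rwa [t'.o_o]), t'.o_o x, t'.o_ne x⟩)
  have ex : ∀ p, ∃ q, pp.pt q = f (pp.pt p) := fun p =>
    (mB _).1 (f1 _ ((mB _).2 ⟨p, rfl⟩)).1
  choose F hF using ex
  have inn : ∀ φ : V × Bool → ZMod 2, Inn t' R r k φ ↔
      (∀ x ∈ Q t R ×ˢ (univ : Finset Bool), φ (ρ x) = φ x) ∧
      ∀ x ∈ Q t R ×ˢ (univ : Finset Bool), x ∉ univ.image pp.pt → φ (t'.o x) = φ x := by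
    intro φ
    rw [Inn, h.Q_eq]
    constructor
    · rintro ⟨a1, a2, a3⟩
      refine ⟨?_, fun x hx hxB => a1 x ((mU _).1 hx) ((key x ((mU _).1 hx)).1 hxB)⟩
      rintro ⟨v, c⟩ hx
      have hv : v ∈ Q t R := (mU _).1 hx
      by_cases e : r v = k
      · rw [r1 v c e, a2 v hv e]
      · rw [r2 v c e]
        cases c
        · exact a3 v hv e
        · exact (a3 v hv e).symm
    · rintro ⟨a1, a2⟩
      refine ⟨fun x hx hx' => a2 x ((mU _).2 hx) ((key x hx).2 hx'), fun v hv e c => ?_,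
        fun v hv e => ?_⟩
      · rw [← r1 v c e, a1 (v, c) ((mU _).2 hv)]
      · have := a1 (v, false) ((mU _).2 hv)
        rwa [r2 v _ e] at this
  refine ⟨F, ⟨fun p => pp.inj ?_, fun p e => ?_⟩, fun φ hφ p => ?_, fun v hv => ?_⟩
  · rw [hF, hF]
    exact (f1 _ ((mB _).2 ⟨p, rfl⟩)).2.1
  · have := hF p
    rw [e] at this
    exact (f1 _ ((mB _).2 ⟨p, rfl⟩)).2.2 this.symm
  · rw [hF]
    exact f2 φ ((inn φ).1 hφ).1 ((inn φ).1 hφ).2 _ ((mB _).2 ⟨p, rfl⟩)
  · obtain ⟨φ, g1, g2, g3⟩ := f3 (Function.extend pp.pt v 0) (fun b hb => by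
      obtain ⟨p, rfl⟩ := (mB b).1 hb
      rw [← hF, pp.inj.extend_apply, pp.inj.extend_apply, hv])
    refine ⟨φ, (inn φ).2 ⟨g1, g2⟩, fun p => ?_⟩
    rw [g3 _ ((mB _).2 ⟨p, rfl⟩), pp.inj.extend_apply]

end Pool.Agent.MP_8c1b0d_co.RR

end

-- part MP_8c1b0d_co.RR.P
section

set_option autoImplicit false
set_option linter.unusedSectionVars false
open Finset

namespace Pool.Agent.MP_8c1b0d_co.RR

variable {V I W : Type} [Fintype V] [DecidableEq V] [Fintype I] [DecidableEq I] [Fintype W]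
  [DecidableEq W] {mo : I → Bool} {t : Tri V} {R : Finset V}

/-- the pole `P` closes every valid outer state -/
def CL (t : Tri V) (P : Finset V) : Prop := ∀ live τ, RI.Env t P live τ →
  ∃ t' : Tri V, (∀ u v, t'.Adj u v ↔ t.Adj u v) ∧ (∀ v ∉ P, ∀ k, t'.nb k v = t.nb k v) ∧
    ∃ r, RI.Closes t' P live τ r

/-- the terminal of a port -/
def Ports.tm (pp : Ports t R mo) (p : I × Bool) : V × Bool :=
  if mo p.1 then t.o (pp.pt p) else pp.pt p
/-- the live legs -/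
def Ports.lv (pp : Ports t R mo) (live : Finset V) : Finset I := {i | mo i = true ∧ pp.a i ∈ live}

/-- legs keep their colours: if `w = t'.nb k v ∉ P` then `t.nb k w = t'.nb k w = v` -/
theorem nb_leg {t' : Tri V} {P : Finset V} (h : ∀ v ∉ P, ∀ k, t'.nb k v = t.nb k v) (v : V)
    (k : Option Bool) (hv : t'.nb k v ∉ P ∨ t.nb k v ∉ P) : t'.nb k v = t.nb k v := by
  rcases hv with hv | hv
  · have e := h _ hv k
    rw [Tri.nb_nb] at e
    have e2 := congrArg (t.nb k) e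
    rw [Tri.nb_nb] at e2
    exact e2.symm
  · have e := h _ hv k
    rw [Tri.nb_nb] at e
    have e2 := congrArg (t'.nb k) e
    rw [Tri.nb_nb] at e2
    exact e2.symm

theorem tm_congr {t' : Tri V} {P : Finset V} (h : ∀ v ∉ P, ∀ k, t'.nb k v = t.nb k v)
    (live : Finset V) (x : V × Bool) : RI.Tm t' P live x ↔ RI.Tm t P live x := by
  have e : t'.nb (some x.2) x.1 ∉ P ↔ t.nb (some x.2) x.1 ∉ P :=
    ⟨fun a => nb_leg h _ _ (.inl a) ▸ a, fun a => (nb_leg h _ _ (.inr a)).symm ▸ a⟩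
  exact or_congr (and_congr Iff.rfl e) Iff.rfl

theorem env_congr {t' : Tri V} {P : Finset V} (h : ∀ v ∉ P, ∀ k, t'.nb k v = t.nb k v)
    {live : Finset V} {τ : Bool → V × Bool → V × Bool} (E : RI.Env t P live τ) :
    RI.Env t' P live τ := by
  refine ⟨fun u hu => ⟨(E.live_sub u hu).1, ?_⟩, fun k x hx => ?_, E.valid⟩
  · have a : t.nb none u ∉ P := (E.live_sub u hu).2
    exact ((nb_leg h u none (.inr a)).symm ▸ a : t'.nb none u ∉ P)
  · rw [tm_congr h] at hx ⊢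
    exact E.inv k x hx

/-- renumbering: `a' i = a (e (i, false)).1` -/
theorem Ports.re (pp : Ports t R mo) {e : I × Bool ≃ I × Bool} (he : Adm mo e) :
    ∃ pp' : Ports t R mo, ∀ p, pp'.pt p = pp.pt (e p) := by
  refine ⟨⟨fun p => pp.pt (e p), fun i => pp.a (e (i, false)).1, pp.inj.comp e.injective,
    fun p => pp.mem _, fun h h1 h2 => ?_, fun i hi => ?_, fun i hi c => ?_⟩, fun _ => rfl⟩
  · obtain ⟨p, hp⟩ := pp.sur h h1 h2
    exact ⟨e.symm p, by rw [e.apply_symm_apply, hp]⟩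
  · obtain ⟨j, b, hj, hb⟩ := (he i).1 hi
    simp only [hb]
    exact ⟨(pp.am j hj).1, (pp.am j hj).2.1, fun c => (pp.am j hj).2.2 _⟩
  · exact pp.cl _ ((he i).2 hi c) (e (i, c)).2

theorem p1_mk (ok : OK t R) (a : I → V) (cp : I × Bool → V × Bool)
    (ha : ∀ i, mo i = true → a i ∉ R ∧ t.m (a i) ∈ R)
    (ai : ∀ i j, mo i = true → mo j = true → a i = a j → i = j)
    (as : ∀ v, v ∉ R → t.m v ∈ R → ∃ i, mo i = true ∧ a i = v)
    (hc : ∀ p, mo p.1 = false → (cp p).1 ∉ R ∧ (t.o (cp p)).1 ∈ R)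
    (ci : ∀ p q, mo p.1 = false → mo q.1 = false → cp p = cp q → p = q)
    (cs : ∀ h : V × Bool, h.1 ∉ R → (t.o h).1 ∈ R → ∃ p, mo p.1 = false ∧ cp p = h) :
    Nonempty (Ports t R mo) := by
  obtain ⟨pt, e1, e2⟩ : ∃ pt : I × Bool → V × Bool,
      (∀ p, mo p.1 = true → pt p = t.o (a p.1, p.2)) ∧ ∀ p, mo p.1 = false → pt p = cp p :=
    ⟨fun p => if mo p.1 then t.o (a p.1, p.2) else cp p, fun p h => by simp [h],
      fun p h => by simp [h]⟩
  refine ⟨⟨pt, a, fun p q e => ?_, fun p => ?_, fun h h1 h2 => ?_, fun i hi => ?_,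
    fun i hi c => ?_⟩⟩
  · rcases hp : mo p.1 with _ | _ <;> rcases hq : mo q.1 with _ | _
    · rw [e2 p hp, e2 q hq] at e
      exact ci p q hp hq e
    · rw [e2 p hp, e1 q hq] at e
      have := (hc p hp).2
      rw [e, t.o_o] at this
      exact absurd this (ha _ hq).1
    · rw [e1 p hp, e2 q hq] at e
      have := (hc q hq).2
      rw [← e, t.o_o] at this
      exact absurd this (ha _ hp).1
    · rw [e1 p hp, e1 q hq] at e
      have e' := congrArg t.o e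
      rw [t.o_o, t.o_o] at e'
      exact Prod.ext (ai _ _ hp hq (congrArg Prod.fst e')) (congrArg (fun z => z.2) e')
  · rcases hp : mo p.1 with _ | _
    · rw [e2 p hp, mem_Q, mem_Q]
      obtain ⟨h1, h2⟩ := hc p hp
      refine ⟨⟨h1, fun h3 => ?_⟩, fun h => h.1 h2⟩
      exact absurd (ok.leg_one (k := none) (k' := some (cp p).2) h1 h3 h2) (by simp)
    · rw [e1 p hp, t.o_o, mem_Q, mem_Q]
      obtain ⟨h1, h2⟩ := ha _ hp
      have h3 : t.nb (some p.2) (a p.1) ∉ R := fun h3 =>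
        absurd (ok.leg_one (k := none) (k' := some p.2) h1 h2 h3) (by simp)
      exact ⟨⟨h3, fun h4 => ok.leg_adj (k := none) (k' := none) h1 h3 h2 h4⟩, fun h => h.2 h2⟩
  · rw [mem_Q] at h1 h2
    by_cases h3 : (t.o h).1 ∈ R
    · obtain ⟨p, hp, e⟩ := cs h h1.1 h3
      exact ⟨p, by rw [e2 p hp, e]⟩
    · obtain ⟨i, hi, e⟩ := as _ h3 (by by_contra h4; exact h2 ⟨h3, h4⟩)
      exact ⟨(i, h.2), by rw [e1 _ hi, e]; exact t.o_o h⟩
  · exact ⟨(ha i hi).1, (ha i hi).2, fun c => by rw [e1 (i, c) hi, t.o_o]⟩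
  · rw [e2 (i, c) hi]
    exact (hc _ hi).2

theorem p1_enum {α β : Type} [Fintype α] [Fintype β] (P : α → Prop) (P' : β → Prop)
    [DecidablePred P] [DecidablePred P'] (b : β) (h : #{y | P' y} = #{x | P x}) :
    ∃ f : α → β, (∀ x, P x → P' (f x)) ∧ (∀ x x', P x → P x' → f x = f x' → x = x') ∧
      ∀ y, P' y → ∃ x, P x ∧ f x = y := by
  have e := equivOfCardEq h.symm
  refine ⟨fun x => if hx : P x then (e ⟨x, by simpa only [mem_filter, mem_univ, true_and] using hx⟩).1 else b, fun x hx => ?_,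
    fun x x' hx hx' q => ?_, fun y hy => ?_⟩
  · simp only [hx, dif_pos]
    exact (mem_filter.1 (e ⟨x, by simpa only [mem_filter, mem_univ, true_and] using hx⟩).2).2
  · simp only [hx, hx', dif_pos] at q
    exact congrArg Subtype.val (e.injective (Subtype.ext q))
  · obtain ⟨⟨x, hx⟩, q⟩ := e.surjective ⟨y, by simpa only [mem_filter, mem_univ, true_and] using hy⟩
    have hx' : P x := by simpa only [mem_filter, mem_univ, true_and] using hx
    exact ⟨x, hx', by simp only [hx', dif_pos]; exact congrArg Subtype.val q⟩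

theorem p1_card (ok : OK t R) (h1 : #{v | v ∉ R ∧ t.m v ∈ R} = #{i | mo i = true})
    (h2 : #{h : V × Bool | h.1 ∉ R ∧ (t.o h).1 ∈ R} = #{p : I × Bool | mo p.1 = false}) :
    Nonempty (Ports t R mo) := by
  obtain ⟨v, -⟩ : R.Nonempty := card_pos.1 (by have := ok.b1; omega)
  obtain ⟨a, a1, a2, a3⟩ := p1_enum _ _ v h1
  obtain ⟨c, c1, c2, c3⟩ := p1_enum _ _ (v, false) h2
  exact p1_mk ok a c a1 a2 (fun v h h' => a3 v ⟨h, h'⟩) c1 c2 fun v h h' => c3 v ⟨h, h'⟩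

theorem p1_par (f : V → V) (ff : ∀ v, f (f v) = v) (fne : ∀ v, f v ≠ v) (S : Finset V) :
    #{v ∈ S | f v ∉ S} % 2 = #S % 2 := by
  obtain ⟨r, hr⟩ := even_card_inv f {v ∈ S | f v ∈ S}
    (fun a ha => by
      rw [mem_filter] at ha ⊢
      exact ⟨ha.2, by rw [ff]; exact ha.1⟩) (fun a _ => ff a) fun a _ => fne a
  have := card_filter_add_card_filter_not (s := S) fun v => f v ∈ S
  omega

/-- Let `M = {v ∉ R | m v ∈ R}`, `C = {h : V × Bool | h.1 ∉ R ∧ (o h).1 ∈ R}`. `#M + #C = cut Rᶜ = 4`. For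
each of the three involutions the number of points of `Rᶜ` mapped into `R` has the parity of `#Rᶜ`
(`even_card_inv`), so `#M` is even. The ports of `a ∈ M` are `o (a, c)`: `col c a ∈ Q` by `leg_one`,
`leg_adj`; `h ∈ C` has `h.1 ∈ Q` by `leg_one`. First prove a general constructor from
`a : I → V`, `cp : I × Bool → V × Bool` (bijections of the `m`-indices with `M` and of the other ports
with `C`), then use `card_eq_two` and friends. -/
theorem exists_ports (ok : OK t R) :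
    Nonempty (Ports t R mo2) ∨ Nonempty (Ports t R mo3) ∨ Nonempty (Ports t R mo4) := by
  have b1 := ok.b1
  have c4 := ok.cut4
  rw [← t.cut_compl, Tri.cut] at c4
  have px := p1_par t.x t.xx t.x_ne Rᶜ
  have py := p1_par t.y t.yy t.y_ne Rᶜ
  have pm := p1_par t.m t.mm t.m_ne Rᶜ
  have hM : #{v | v ∉ R ∧ t.m v ∈ R} = #{v ∈ Rᶜ | t.m v ∉ Rᶜ} := by
    congr 1
    ext v
    simp only [mem_filter, mem_univ, true_and, mem_compl, Decidable.not_not]
  have hC : #{h : V × Bool | h.1 ∉ R ∧ (t.o h).1 ∈ R} =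
      #{v ∈ Rᶜ | t.x v ∉ Rᶜ} + #{v ∈ Rᶜ | t.y v ∉ Rᶜ} := by
    simp only [card_filter, Fintype.sum_prod_type, Fintype.sum_bool, sum_add_distrib]
    rw [add_comm]
    simp only [← card_filter]
    congr 2 <;> ext v <;> simp only [Tri.o, Tri.col, cond_false, mem_filter, mem_univ, true_and, mem_compl, Decidable.not_not, cond_true]
  have : #{v ∈ Rᶜ | t.m v ∉ Rᶜ} = 0 ∨ #{v ∈ Rᶜ | t.m v ∉ Rᶜ} = 2 ∨
      #{v ∈ Rᶜ | t.m v ∉ Rᶜ} = 4 := by omega
  rcases this with h | h | h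
  · exact .inl (p1_card ok (by rw [hM, h]; decide) (by
      rw [hC, show #{p : Fin 2 × Bool | mo2 p.1 = false} = 4 by decide]; omega))
  · exact .inr (.inl (p1_card ok (by rw [hM, h]; decide) (by
      rw [hC, show #{p : Fin 3 × Bool | mo3 p.1 = false} = 2 by decide]; omega)))
  · exact .inr (.inr (p1_card ok (by rw [hM, h]; decide) (by
      rw [hC, show #{p : Fin 4 × Bool | mo4 p.1 = false} = 0 by decide]; omega)))

end Pool.Agent.MP_8c1b0d_co.RR

set_option autoImplicit false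
set_option linter.unusedSectionVars false
open Finset

namespace Pool.Agent.MP_8c1b0d_co.RR

variable {V : Type} [Fintype V] [DecidableEq V] {t : Tri V} {P : Finset V}

/-- the hypotheses on the pole -/
structure Pole (t : Tri V) (P : Finset V) : Prop where
  three : ∀ S : Finset V, S.Nonempty → Sᶜ.Nonempty → 3 ≤ t.cut S
  cut4 : t.cut P = 4
  six : 6 ≤ #P
  ic5 : ∀ S ⊆ P, t.cut S ≤ 4 → #S ≤ 2 ∨ S = P

/-- two mirror copies of the pole -/
structure Dbl (t : Tri V) (P : Finset V) (d : Tri (↥P × Bool)) : Prop where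
  inn : ∀ k v b (h : t.nb k v.1 ∈ P), d.nb k (v, b) = (⟨t.nb k v.1, h⟩, b)
  leg : ∀ k v b, t.nb k v.1 ∉ P → d.nb k (v, b) = (v, !b)

/-- the mirror copy -/
def Rt (P : Finset V) : Finset (↥P × Bool) := {z | z.2 = true}

theorem exists_tri {U : Type} (nb : Option Bool → U → U) (h1 : ∀ k v, nb k (nb k v) = v)
    (h2 : ∀ k v, nb k v ≠ v) (h3 : ∀ k k' v, nb k v = nb k' v → k = k') :
    ∃ d : Tri U, ∀ k v, d.nb k v = nb k v := by
  refine ⟨⟨nb (some false), nb (some true), nb none, h1 _, h1 _, h1 _, h2 _, h2 _, h2 _,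
    fun v e => ?_, fun v e => ?_, fun v e => ?_⟩, fun k v => ?_⟩
  · exact absurd (h3 _ _ _ e) (by simp)
  · exact absurd (h3 _ _ _ e) (by simp)
  · exact absurd (h3 _ _ _ e) (by simp)
  · rcases k with _ | _ | _ <;> rfl

/-- otherwise `P.erase v` has cut at most 3 (see the lemmas on `cut (insert v S)` and the proof of
`OK.leg_one` in R1) -/
theorem Pole.leg_one (h : Pole t P) {v : V} {k k' : Option Bool} (hv : v ∈ P)
    (h1 : t.nb k v ∉ P) (h2 : t.nb k' v ∉ P) : k = k' := by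
  by_contra n
  have hv' : v ∉ Pᶜ := by simpa using hv
  have a := r1_ins2 t hv' n (mem_compl.2 h1) (mem_compl.2 h2)
  have b := h.cut4
  have b1 := h.six
  have c := card_insert_of_notMem hv'
  have d := card_add_card_compl P
  have d' := card_add_card_compl (insert v Pᶜ)
  have e1 := t.cut_compl P
  have e2 := t.cut_compl (insert v Pᶜ)
  have hs : (insert v Pᶜ)ᶜ ⊆ P := fun w hw => by
    by_contra hc
    exact mem_compl.1 hw (mem_insert_of_mem (mem_compl.2 hc))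
  rcases h.ic5 _ hs (by omega) with e | e
  · omega
  · rw [e] at d'
    omega

/-- otherwise `P` without the two ends has cut at most 4 -/
theorem Pole.leg_adj (h : Pole t P) {v : V} {j k k' : Option Bool} (hv : v ∈ P)
    (hw : t.nb j v ∈ P) (h1 : t.nb k v ∉ P) (h2 : t.nb k' (t.nb j v) ∉ P) : False := by
  have hv' : v ∉ Pᶜ := by simpa using hv
  have hw' : t.nb j v ∉ insert v Pᶜ := by
    rw [mem_insert, not_or]
    exact ⟨t.nb_ne _ _, by simpa using hw⟩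
  have n : j ≠ k' := by
    rintro rfl
    rw [Tri.nb_nb] at h2
    exact h2 hv
  have a := r1_ins1 t hv' (mem_compl.2 h1)
  have a' := r1_ins2 t hw' n (by rw [Tri.nb_nb]; exact mem_insert_self _ _)
    (mem_insert_of_mem (mem_compl.2 h2))
  have b := h.cut4
  have b1 := h.six
  have c := card_insert_of_notMem hv'
  have c' := card_insert_of_notMem hw'
  have d := card_add_card_compl P
  have d' := card_add_card_compl (insert (t.nb j v) (insert v Pᶜ))
  have e1 := t.cut_compl P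
  have e2 := t.cut_compl (insert (t.nb j v) (insert v Pᶜ))
  have hs : (insert (t.nb j v) (insert v Pᶜ))ᶜ ⊆ P := fun w hw => by
    by_contra hc
    exact mem_compl.1 hw (mem_insert_of_mem (mem_insert_of_mem (mem_compl.2 hc)))
  rcases h.ic5 _ hs (by omega) with e | e
  · omega
  · rw [e] at d'
    omega

/-- the four ends of the legs -/
theorem Pole.card_L (h : Pole t P) : #{v ∈ P | ∃ k, t.nb k v ∉ P} = 4 := by
  rw [← h.cut4, t.cut_eq]
  symm
  refine card_bij (fun d _ => d.1) ?_ ?_ ?_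
  · rintro ⟨v, k⟩ hd
    rw [t.mem_bd] at hd
    exact mem_filter.2 ⟨hd.1, k, hd.2⟩
  · rintro ⟨v, k⟩ ha ⟨w, k'⟩ hb e
    rw [t.mem_bd] at ha hb
    obtain rfl : v = w := e
    rw [h.leg_one ha.1 ha.2 hb.2]
  · intro v hv
    obtain ⟨a, k, hk⟩ := mem_filter.1 hv
    exact ⟨(v, k), t.mem_bd.2 ⟨a, hk⟩, rfl⟩

/-- If `#P = 6`: the 8 inner half-edges at the 4 ends go injectively to the 6 half-edges at the two
other vertices. -/
theorem Pole.seven (h : Pole t P) : 7 ≤ #P := by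
  by_contra hc
  have b1 := h.six
  have hL := h.card_L
  have c4 := h.cut4
  rw [t.cut_eq] at c4
  generalize hLd : ({v ∈ P | ∃ k, t.nb k v ∉ P} : Finset V) = L at hL
  have mL : ∀ v, v ∈ L ↔ v ∈ P ∧ ∃ k, t.nb k v ∉ P := fun v => by
    rw [← hLd, mem_filter]
  have sL : L ⊆ P := fun v hv => ((mL v).1 hv).1
  have hB : t.bd P ⊆ L ×ˢ univ := by
    rintro ⟨v, k⟩ hd
    rw [t.mem_bd] at hd
    exact mem_product.2 ⟨(mL v).2 ⟨hd.1, k, hd.2⟩, mem_univ _⟩
  have h2 := card_sdiff_add_card_eq_card hB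
  have h3 := card_sdiff_add_card_eq_card sL
  have h4 : #((L ×ˢ (univ : Finset (Option Bool))) \ t.bd P) ≤
      #((P \ L) ×ˢ (univ : Finset (Option Bool))) := by
    refine card_le_card_of_injOn (fun d => (t.nb d.2 d.1, d.2)) ?_ ?_
    · rintro ⟨v, j⟩ hd
      rw [mem_coe, mem_sdiff, t.mem_bd, mem_product] at hd
      obtain ⟨hv, k, hk⟩ := (mL v).1 hd.1.1
      have hw : t.nb j v ∈ P := by
        by_contra hn
        exact hd.2 ⟨hv, hn⟩
      rw [mem_coe, mem_product, mem_sdiff]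
      refine ⟨⟨hw, fun hl => ?_⟩, mem_univ _⟩
      obtain ⟨_, k', hk'⟩ := (mL _).1 hl
      exact h.leg_adj hv hw hk hk'
    · rintro ⟨v, j⟩ _ ⟨w, j'⟩ _ e
      simp only [Prod.mk.injEq] at e
      obtain ⟨e1, rfl⟩ := e
      have := congrArg (t.nb j) e1
      rw [Tri.nb_nb, Tri.nb_nb] at this
      rw [this]
  rw [card_product, card_univ, show Fintype.card (Option Bool) = 3 from rfl] at h2 h4
  omega

lemma d1_con (h3 : ∀ S : Finset V, S.Nonempty → Sᶜ.Nonempty → 3 ≤ t.cut S) {R : Finset V}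
    (c4 : t.cut R = 4) (hne : Rᶜ.Nonempty) : t.Con R (t.bd R) := by
  intro W hW hc
  have h1 : ∀ v ∈ W, ∀ l, t.nb l v ∈ R → t.nb l v ∈ W := fun v hv l hl =>
    hc v hv l fun e => (t.mem_bd.1 e).2 hl
  by_contra hn
  push Not at hn
  obtain ⟨z, hz⟩ := hne
  have a := h3 W hn.1 ⟨z, by
    rw [mem_compl] at hz ⊢
    exact fun e => hz (hW e)⟩
  have b := h3 (R \ W) (sdiff_nonempty.2 fun e => hn.2 (Subset.antisymm hW e)) ⟨z, by
    rw [mem_compl] at hz ⊢
    exact fun e => hz (mem_sdiff.1 e).1⟩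
  have := t.cut_split hW h1
  omega

/-- both sides are connected: a splitting gives two cuts of size at least 3 with sum 4 -/
theorem Pole.con (h : Pole t P) : t.Con P (t.bd P) ∧ t.Con Pᶜ (t.bd Pᶜ) ∧ Pᶜ.Nonempty := by
  have b1 := h.six
  have c4 := h.cut4
  have hne : Pᶜ.Nonempty := by
    obtain ⟨⟨v, k⟩, hd⟩ : (t.bd P).Nonempty := card_pos.1 (by rw [← t.cut_eq]; omega)
    exact ⟨_, mem_compl.2 (t.mem_bd.1 hd).2⟩
  refine ⟨d1_con h.three c4 hne, d1_con h.three (by rw [t.cut_compl, c4]) ?_, hne⟩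
  rw [compl_compl]
  exact card_pos.1 (by omega)

theorem Pole.exists_dbl (h : Pole t P) : ∃ d, Dbl t P d := by
  obtain ⟨d, hd⟩ := exists_tri (U := ↥P × Bool)
    (fun k z => if a : t.nb k z.1.1 ∈ P then (⟨t.nb k z.1.1, a⟩, z.2) else (z.1, !z.2))
    (by
      rintro k ⟨⟨v, hv⟩, b⟩
      by_cases a : t.nb k v ∈ P
      · simp [a, hv]
      · simp [a])
    (by
      rintro k ⟨⟨v, hv⟩, b⟩
      by_cases a : t.nb k v ∈ P
      · simp [a, t.nb_ne]
      · simp [a])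
    (by
      rintro k k' ⟨⟨v, hv⟩, b⟩ e
      by_cases a : t.nb k v ∈ P <;> by_cases a' : t.nb k' v ∈ P
      · simp only [a, a', dif_pos, Prod.mk.injEq, Subtype.mk.injEq, and_true] at e
        exact t.nb_inj e
      · simp [a, a'] at e
      · simp [a, a'] at e
      · exact h.leg_one hv a a')
  exact ⟨d, fun k v b a => by rw [hd]; exact dif_pos a, fun k v b a => by rw [hd]; exact dif_neg a⟩

end Pool.Agent.MP_8c1b0d_co.RR

set_option autoImplicit false
set_option linter.unusedSectionVars false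
open Finset

namespace Pool.Agent.MP_8c1b0d_co.RR

variable {V Φ : Type} [Fintype V] [DecidableEq V] [Fintype Φ] [DecidableEq Φ]

/-- `op none = fm`, `op (some false) = fx`, `op (some true) = fy`; `inj` from `nxy, nxm, nym`, `nbr`
from `hx, hy, hm` (see `PG.op` in CT.lean and its lemmas in FA.lean). -/
theorem exists_pl (c : ColF V Φ) (g : c.Geo) (h : 2 * Fintype.card Φ = Fintype.card V + 4) :
    ∃ p : PL V Φ, p.t = c.tri g := by
  let op : Option Bool → V → Φ := fun k => match k with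
    | none => c.fm
    | some false => c.fx
    | some true => c.fy
  have inj : ∀ v k k', op k v = op k' v → k = k' := by
    intro v k k' e
    have a := g.nxy v
    have b := g.nxm v
    have d := g.nym v
    rcases k with _ | _ | _ <;> rcases k' with _ | _ | _ <;>
      first
      | rfl
      | exact absurd e a
      | exact absurd e b
      | exact absurd e d
      | exact absurd e.symm a
      | exact absurd e.symm b
      | exact absurd e.symm d
  have nbr : ∀ v k k', k ≠ k' → ∃ j, j ≠ k' ∧ op j ((c.tri g).nb k' v) = op k v := by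
    intro v j k hj
    rcases k with _ | _ | _
    · have e := Sym2.eq_iff.1 (c.hm v)
      rcases j with _ | _ | _
      · exact absurd rfl hj
      · rcases e with e | e
        exacts [⟨some false, by simp, e.1⟩, ⟨some true, by simp, e.2⟩]
      · rcases e with e | e
        exacts [⟨some true, by simp, e.2⟩, ⟨some false, by simp, e.1⟩]
    · have e := Sym2.eq_iff.1 (c.hx v)
      rcases j with _ | _ | _
      · rcases e with e | e
        exacts [⟨none, by simp, e.2⟩, ⟨some true, by simp, e.1⟩]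
      · exact absurd rfl hj
      · rcases e with e | e
        exacts [⟨some true, by simp, e.1⟩, ⟨none, by simp, e.2⟩]
    · have e := Sym2.eq_iff.1 (c.hy v)
      rcases j with _ | _ | _
      · rcases e with e | e
        exacts [⟨none, by simp, e.2⟩, ⟨some false, by simp, e.1⟩]
      · rcases e with e | e
        exacts [⟨some false, by simp, e.1⟩, ⟨none, by simp, e.2⟩]
      · exact absurd rfl hj
  have surj : ∀ φ, ∃ k v, op k v = φ := by
    intro φ
    obtain ⟨v, hv | hv | hv⟩ := g.surj φ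
    exacts [⟨some false, v, hv.symm⟩, ⟨some true, v, hv.symm⟩, ⟨none, v, hv.symm⟩]
  have conn : ∀ P : V → Prop, (∀ v, P v → ∀ k, P ((c.tri g).nb k v)) → ∀ u v, P u → P v :=
    fun P hP => c.conn P fun v hv => ⟨hP v hv (some false), hP v hv (some true), hP v hv none⟩
  exact ⟨⟨⟨c.tri g, op, inj, nbr, surj, conn⟩, h.ge⟩, rfl⟩

lemma d3_conn {t : Tri V} {P : Finset V} (h : Pole t P) {d : Tri (↥P × Bool)} (hd : Dbl t P d)
    (Q : ↥P × Bool → Prop) (hQ : ∀ v, Q v → ∀ k, Q (d.nb k v)) (u v : ↥P × Bool) (hu : Q u) :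
    Q v := by
  classical
  have lev : ∀ b (u v : ↥P), Q (u, b) → Q (v, b) := by
    intro b u v hu
    have hW : ({w ∈ P | ∃ hw : w ∈ P, Q (⟨w, hw⟩, b)} : Finset V) ⊆ P := filter_subset _ _
    rcases h.con.1 _ hW (fun w hw k hk => by
      obtain ⟨w1, w2, w3⟩ := mem_filter.1 hw
      have e : t.nb k w ∈ P := by
        by_contra e
        exact hk (t.mem_bd.2 ⟨w1, e⟩)
      have q := hQ _ w3 k
      rw [hd.inn k ⟨w, w2⟩ b e] at q
      exact mem_filter.2 ⟨e, e, q⟩) with e | e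
    · exact absurd (e ▸ mem_filter.2 ⟨u.2, u.2, hu⟩) (notMem_empty u.1)
    · have : v.1 ∈ ({w ∈ P | ∃ hw : w ∈ P, Q (⟨w, hw⟩, b)} : Finset V) := by
        rw [e]; exact v.2
      obtain ⟨-, w2, w3⟩ := mem_filter.1 this
      exact w3
  have n : (t.bd P).Nonempty := card_pos.1 (by rw [← t.cut_eq, h.cut4]; omega)
  obtain ⟨⟨w, k⟩, hw⟩ := n
  obtain ⟨w1, w2⟩ := t.mem_bd.1 hw
  obtain ⟨u, b⟩ := u
  obtain ⟨v, b'⟩ := v
  have q1 := lev b u ⟨w, w1⟩ hu
  have q2 := hQ _ q1 k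
  rw [hd.leg k ⟨w, w1⟩ b w2] at q2
  by_cases e : b' = b
  · rw [e]; exact lev b u v hu
  · have e' : b' = !b := by
      revert e; cases b <;> cases b' <;> simp
    rw [e']; exact lev _ _ v q2

/-- Faces of the double: `Φ' = {z : Φ × Bool // (∃ v ∈ P, v ∈ cor z.1) ∧ (z.2 = false ∨ cor z.1 ⊆ P)}`,
`op' k (v, b) = (op k v, if cor (op k v) ⊆ P then b else false)`. `nbr` along a leg `k'`: take `j = k`;
the face `op k v` has the corner `nb k' v ∉ P`. `conn` from `Pole.con` and a leg. Euler: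
`card Φ' = 2 * #{φ | cor φ ⊆ P} + #{crossing}` or at least `≥` (faces have corners by `surj`; a crossing
face, `cr_bd`, meets `P` and is not inside), `Bond.count`. -/
theorem Dbl.pl (p : PL V Φ) {P : Finset V} (h : Pole p.t P) {d : Tri (↥P × Bool)}
    (hd : Dbl p.t P d) : ∃ (Φ' : Type) (_ : Fintype Φ') (_ : DecidableEq Φ')
      (p' : PL (↥P × Bool) Φ'), p'.t = d := by
  classical
  obtain ⟨F, hF⟩ : ∃ F : Finset (Φ × Bool), ∀ z, z ∈ F ↔
      (∃ v ∈ P, v ∈ p.cor z.1) ∧ (z.2 = false ∨ p.cor z.1 ⊆ P) :=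
    ⟨univ.filter fun z => (∃ v ∈ P, v ∈ p.cor z.1) ∧ (z.2 = false ∨ p.cor z.1 ⊆ P), fun z => by
      simp only [mem_filter, mem_univ, true_and]⟩
  have mem : ∀ k (z : ↥P × Bool),
      (p.op k z.1.1, if p.cor (p.op k z.1.1) ⊆ P then z.2 else false) ∈ F := by
    intro k z
    refine (hF _).2 ⟨⟨z.1.1, z.1.2, p.mem_cor.2 ⟨k, rfl⟩⟩, ?_⟩
    by_cases e : p.cor (p.op k z.1.1) ⊆ P
    · exact Or.inr e
    · exact Or.inl (if_neg e)
  obtain ⟨op, hop⟩ : ∃ op : Option Bool → ↥P × Bool → ↥F, ∀ k z, (op k z).1 =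
      (p.op k z.1.1, if p.cor (p.op k z.1.1) ⊆ P then z.2 else false) :=
    ⟨fun k z => ⟨_, mem k z⟩, fun _ _ => rfl⟩
  have inj : ∀ v k k', op k v = op k' v → k = k' := by
    intro v k k' e
    have q := congrArg (fun z : ↥F => z.1.1) e
    simp only [hop] at q
    exact p.inj _ _ _ q
  have nbr : ∀ v k k', k ≠ k' → ∃ j, j ≠ k' ∧ op j (d.nb k' v) = op k v := by
    rintro ⟨v, b⟩ k k' n
    by_cases e : p.t.nb k' v.1 ∈ P
    · obtain ⟨j, j1, j2⟩ := p.nbr v.1 k k' n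
      refine ⟨j, j1, Subtype.ext ?_⟩
      rw [hd.inn k' v b e, hop, hop]
      simp only [j2]
    · refine ⟨k, n, Subtype.ext ?_⟩
      have q : ¬ p.cor (p.op k v.1) ⊆ P := fun a => e (a (LB.Al.mem _ (p.al_op n v.1)).2)
      rw [hd.leg k' v b e, hop, hop]
      simp only [if_neg q]
  have surj : ∀ φ, ∃ k v, op k v = φ := by
    rintro ⟨⟨φ, b⟩, hφ⟩
    obtain ⟨⟨v, v1, v2⟩, hb⟩ := (hF _).1 hφ
    obtain ⟨k, hk⟩ := p.mem_cor.1 v2
    refine ⟨k, (⟨v, v1⟩, b), Subtype.ext ?_⟩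
    rw [hop]
    simp only at hk hb
    simp only [hk]
    rcases hb with hb | hb
    · subst hb; simp
    · rw [if_pos hb]
  have bond : p.Bond P := ⟨card_pos.1 (by have := h.six; omega), h.con.2.2, h.con.1, h.con.2.1⟩
  have cnt := bond.count
  have c4 := h.cut4
  have sub : (({φ | p.cor φ ⊆ P} : Finset Φ) ×ˢ (univ : Finset Bool)) ∪
      (({φ | (p.cr (p.t.bd P) φ).Nonempty} : Finset Φ) ×ˢ ({false} : Finset Bool)) ⊆ F := by
    rintro ⟨φ, b⟩ hz
    rcases mem_union.1 hz with a | a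
    · have a1 := (mem_filter.1 (mem_product.1 a).1).2
      obtain ⟨v, hv⟩ := p.cor_ne φ
      exact (hF _).2 ⟨⟨v, a1 hv, hv⟩, Or.inr a1⟩
    · obtain ⟨⟨v, k⟩, hv⟩ := (mem_filter.1 (mem_product.1 a).1).2
      obtain ⟨a1, a2⟩ := p.mem_cr.1 hv
      exact (hF _).2 ⟨⟨v, (p.t.mem_bd.1 a1).1, (LB.Al.mem _ a2).1⟩,
        Or.inl (mem_singleton.1 (mem_product.1 a).2)⟩
  have dis : Disjoint (({φ | p.cor φ ⊆ P} : Finset Φ) ×ˢ (univ : Finset Bool))
      (({φ | (p.cr (p.t.bd P) φ).Nonempty} : Finset Φ) ×ˢ ({false} : Finset Bool)) := by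
    refine disjoint_left.2 ?_
    rintro ⟨φ, b⟩ a a'
    have a1 := (mem_filter.1 (mem_product.1 a).1).2
    have a2 := (mem_filter.1 (mem_product.1 a').1).2
    exact a2.ne_empty ((p.cr_bd P φ).2 (Or.inl a1))
  have le := card_le_card sub
  rw [card_union_of_disjoint dis, card_product, card_product, card_singleton, card_univ,
    Fintype.card_bool] at le
  have eul : Fintype.card (↥P × Bool) + 4 ≤ 2 * Fintype.card ↥F := by
    rw [Fintype.card_prod, Fintype.card_coe, Fintype.card_coe, Fintype.card_bool]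
    omega
  exact ⟨↥F, inferInstance, inferInstance, ⟨⟨d, op, inj, nbr, surj, d3_conn h hd⟩, eul⟩, rfl⟩

end Pool.Agent.MP_8c1b0d_co.RR

set_option autoImplicit false
set_option linter.unusedSectionVars false
open Finset

namespace Pool.Agent.MP_8c1b0d_co.RR

variable {V : Type} [Fintype V] [DecidableEq V] {t : Tri V} {P : Finset V}

theorem d4_mem {z : ↥P × Bool} : z ∈ (Rt P)ᶜ ↔ z.2 = false := by
  simp only [Rt, compl_filter, Bool.not_eq_true, mem_filter, mem_univ, true_and]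

/-- level `false` of `d` is the pole of `t` -/
structure d4_Lo (t : Tri V) (P : Finset V) (d : Tri (↥P × Bool)) : Prop where
  inn : ∀ k (v : P) (h : t.nb k v.1 ∈ P), d.nb k (v, false) = (⟨t.nb k v.1, h⟩, false)
  leg : ∀ k (v : P), t.nb k v.1 ∉ P → d.nb k (v, false) = (v, true)

theorem d4_Lo.iff {d : Tri (↥P × Bool)} (h : d4_Lo t P d) (k : Option Bool) (v : P) :
    d.nb k (v, false) ∈ (Rt P)ᶜ ↔ t.nb k v.1 ∈ P := by
  by_cases e : t.nb k v.1 ∈ P
  · rw [h.inn k v e, d4_mem]; simp [e]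
  · rw [h.leg k v e, d4_mem]; simp [e]

theorem Dbl.d4_lo {d : Tri (↥P × Bool)} (hd : Dbl t P d) : d4_Lo t P d :=
  ⟨fun k v h => hd.inn k v false h, fun k v h => hd.leg k v false h⟩

/-- the live ends in the double -/
def d4_live (P live : Finset V) : Finset (↥P × Bool) := {z | z.2 = false ∧ z.1.1 ∈ live}

theorem d4_mem_live {live : Finset V} {z : ↥P × Bool} :
    z ∈ d4_live P live ↔ z.2 = false ∧ z.1.1 ∈ live := by
  simp only [d4_live, mem_filter, mem_univ, true_and]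

/-- the pairing in the double -/
def d4_tau (P : Finset V) (τ : Bool → V × Bool → V × Bool) (κ : Bool) (x : (↥P × Bool) × Bool) :
    (↥P × Bool) × Bool :=
  if h : (τ κ (x.1.1.1, x.2)).1 ∈ P then ((⟨_, h⟩, false), (τ κ (x.1.1.1, x.2)).2) else x

theorem d4_tau_eq {τ : Bool → V × Bool → V × Bool} {κ : Bool} {v : P} {b c : Bool}
    (h : (τ κ (v.1, c)).1 ∈ P) :
    d4_tau P τ κ ((v, b), c) = ((⟨_, h⟩, false), (τ κ (v.1, c)).2) := by
  unfold d4_tau
  rw [dif_pos h]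

theorem d4_Lo.tm {d : Tri (↥P × Bool)} (h : d4_Lo t P d) (live : Finset V) (v : P) (b c : Bool) :
    RI.Tm d (Rt P)ᶜ (d4_live P live) ((v, b), c) ↔ b = false ∧ RI.Tm t P live (v.1, c) := by
  have e := h.iff (some c) v
  unfold RI.Tm
  rw [d4_mem_live, d4_mem]
  cases b
  · have e2 : (d.o ((v, false), c)).1 = d.nb (some c) (v, false) := rfl
    have e3 : (t.o (v.1, c)).1 = t.nb (some c) v.1 := rfl
    rw [e2, e3, e]
    simp
  · simp

theorem d4_tmP {live : Finset V} {τ : Bool → V × Bool → V × Bool} (E : RI.Env t P live τ)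
    {x : V × Bool} (h : RI.Tm t P live x) : x.1 ∈ P :=
  h.elim (fun a => a.1) fun a => (E.live_sub _ a).1

theorem d4_env {d : Tri (↥P × Bool)} (h : d4_Lo t P d) {live : Finset V}
    {τ : Bool → V × Bool → V × Bool} (E : RI.Env t P live τ) :
    RI.Env d (Rt P)ᶜ (d4_live P live) (d4_tau P τ) := by
  refine ⟨?_, ?_, ?_⟩
  · rintro ⟨v, b⟩ hu
    obtain ⟨hb, hv⟩ := d4_mem_live.1 hu
    obtain rfl : b = false := hb
    exact ⟨d4_mem.2 rfl, fun e => (E.live_sub _ hv).2 ((h.iff none v).1 e)⟩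
  · rintro κ ⟨⟨v, b⟩, c⟩ hx
    obtain ⟨rfl, hy⟩ := (h.tm live v b c).1 hx
    obtain ⟨a1, a2, a3⟩ := E.inv κ _ hy
    have hp := d4_tmP E a1
    rw [d4_tau_eq hp]
    refine ⟨(h.tm live _ _ _).2 ⟨rfl, a1⟩, ?_, fun e => a3 ?_⟩
    · have hp2 : (τ κ ((⟨_, hp⟩ : P).1, (τ κ (v.1, c)).2)).1 ∈ P := by
        show (τ κ (τ κ (v.1, c))).1 ∈ P
        rw [a2]; exact v.2
      rw [d4_tau_eq hp2]
      refine Prod.ext (Prod.ext (Subtype.ext ?_) rfl) ?_
      · show (τ κ (τ κ (v.1, c))).1 = v.1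
        rw [a2]
      · show (τ κ (τ κ (v.1, c))).2 = c
        rw [a2]
    · exact Prod.ext (congrArg (fun z : (↥P × Bool) × Bool => z.1.1.1) e)
        (congrArg (fun z : (↥P × Bool) × Bool => z.2) e)
  · obtain ⟨lam, hl⟩ := E.valid
    refine ⟨fun z => lam z.1.1, fun κ Z hZ => ?_⟩
    have := hl κ (Z.image fun z => (z.1.1.1, z.2)) ?_
    · exact image_eq_empty.1 this
    intro y hy
    obtain ⟨⟨⟨v, b⟩, c⟩, hz, rfl⟩ := mem_image.1 hy
    obtain ⟨a1, a2, a3, a4⟩ := hZ _ hz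
    have hv : v.1 ∈ live := (d4_mem_live.1 a1).2
    have hp := d4_tmP E (E.inv κ (v.1, c) (Or.inr hv)).1
    rw [d4_tau_eq hp] at a3
    exact ⟨hv, a2, mem_image.2 ⟨_, a3, rfl⟩, mem_image.2 ⟨_, a4, rfl⟩⟩

/-- Transfer of a recolouring: for `v ∈ P` with `t.nb k v ∈ P` the point `d'.nb k (v, false)` has level
`false` (`nb_leg` for the set `(Rt P)ᶜ`); define `nb' k v` as its vertex, and as `t.nb k v` otherwise;
`exists_tri`. -/
theorem Dbl.back {d d' : Tri (↥P × Bool)} (hd : Dbl t P d) (h1 : ∀ u v, d'.Adj u v ↔ d.Adj u v)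
    (h2 : ∀ z ∉ (Rt P)ᶜ, ∀ k, d'.nb k z = d.nb k z) : ∃ t' : Tri V,
      (∀ u v, t'.Adj u v ↔ t.Adj u v) ∧ (∀ v ∉ P, ∀ k, t'.nb k v = t.nb k v) ∧
      (∀ k (v : P) (h : t'.nb k v.1 ∈ P), d'.nb k (v, false) = (⟨t'.nb k v.1, h⟩, false)) ∧
      ∀ k (v : P), t'.nb k v.1 ∉ P → d'.nb k (v, false) = (v, true) := by
  have L := hd.d4_lo
  have hA : ∀ k (v : P), t.nb k v.1 ∉ P → d'.nb k (v, false) = (v, true) := fun k v h => by
    rw [nb_leg h2 (v, false) k (Or.inr fun e => h ((L.iff k v).1 e)), L.leg k v h]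
  have hB : ∀ k (v : P), t.nb k v.1 ∈ P → (d'.nb k (v, false)).2 = false := fun k v h => by
    by_contra e
    have e1 : d'.nb k (v, false) ∉ (Rt P)ᶜ := fun a => e (d4_mem.1 a)
    have e2 := nb_leg h2 (v, false) k (Or.inl e1)
    rw [e2] at e1
    exact e1 ((L.iff k v).2 h)
  have hC : ∀ k (v : P), (d'.nb k (v, false)).2 = false → t.nb k v.1 ∈ P := fun k v h => by
    by_contra e
    rw [hA k v e] at h
    exact Bool.noConfusion h
  obtain ⟨nb', n1, n2⟩ : ∃ nb' : Option Bool → V → V,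
      (∀ k (v : P), t.nb k v.1 ∈ P → nb' k v.1 = (d'.nb k (v, false)).1.1) ∧
      ∀ k v, ¬ (v ∈ P ∧ t.nb k v ∈ P) → nb' k v = t.nb k v :=
    ⟨fun k v => if h : v ∈ P ∧ t.nb k v ∈ P then (d'.nb k (⟨v, h.1⟩, false)).1.1 else t.nb k v,
      fun k v h => dif_pos ⟨v.2, h⟩, fun k v h => dif_neg h⟩
  have n3 : ∀ k (v : P), t.nb k v.1 ∈ P → ∃ h : nb' k v.1 ∈ P,
      d'.nb k (v, false) = (⟨nb' k v.1, h⟩, false) := fun k v h =>
    ⟨by rw [n1 k v h]; exact Subtype.prop _, Prod.ext (Subtype.ext (n1 k v h).symm) (hB k v h)⟩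
  obtain ⟨t', ht⟩ := exists_tri nb' (fun k v => by
      by_cases h : v ∈ P ∧ t.nb k v ∈ P
      · obtain ⟨hw, e⟩ := n3 k ⟨v, h.1⟩ h.2
        have e2 : d'.nb k (⟨nb' k v, hw⟩, false) = (⟨v, h.1⟩, false) := by
          rw [← e, d'.nb_nb]
        have e3 := n1 k ⟨nb' k v, hw⟩ (hC k _ (by rw [e2]))
        rw [e2] at e3
        exact e3
      · rw [n2 k v h, n2 k _ (by rw [t.nb_nb]; exact fun a => h ⟨a.2, a.1⟩), t.nb_nb])
    (fun k v => by
      by_cases h : v ∈ P ∧ t.nb k v ∈ P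
      · obtain ⟨hw, e⟩ := n3 k ⟨v, h.1⟩ h.2
        intro a
        refine d'.nb_ne k (⟨v, h.1⟩, false) ?_
        rw [e]
        exact Prod.ext (Subtype.ext a) rfl
      · rw [n2 k v h]; exact t.nb_ne k v)
    (fun k k' v a => by
      by_cases h : v ∈ P ∧ t.nb k v ∈ P <;> by_cases h' : v ∈ P ∧ t.nb k' v ∈ P
      · obtain ⟨hw, e⟩ := n3 k ⟨v, h.1⟩ h.2
        obtain ⟨hw', e'⟩ := n3 k' ⟨v, h.1⟩ h'.2
        refine d'.nb_inj (v := (⟨v, h.1⟩, false)) ?_
        rw [e, e']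
        exact Prod.ext (Subtype.ext a) rfl
      · obtain ⟨hw, -⟩ := n3 k ⟨v, h.1⟩ h.2
        refine absurd ⟨h.1, ?_⟩ h'
        rw [← n2 k' v h', ← a]; exact hw
      · obtain ⟨hw, -⟩ := n3 k' ⟨v, h'.1⟩ h'.2
        refine absurd ⟨h'.1, ?_⟩ h
        rw [← n2 k v h, a]; exact hw
      · rw [n2 k v h, n2 k' v h'] at a
        exact t.nb_inj a)
  refine ⟨t', fun u v => ?_, fun v hv k => by rw [ht, n2 k v fun a => hv a.1], fun k v h => ?_,
    fun k v h => ?_⟩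
  · rw [t'.adj_iff, t.adj_iff]
    constructor
    · rintro ⟨k, rfl⟩
      rw [ht]
      by_cases h : u ∈ P ∧ t.nb k u ∈ P
      · obtain ⟨hw, e⟩ := n3 k ⟨u, h.1⟩ h.2
        obtain ⟨j, hj⟩ := (d.adj_iff _ _).1 ((h1 _ _).1 ((d'.adj_iff _ _).2 ⟨k, e.symm⟩))
        have hj2 : t.nb j u ∈ P := (L.iff j ⟨u, h.1⟩).1 (by rw [← hj]; exact d4_mem.2 rfl)
        rw [L.inn j ⟨u, h.1⟩ hj2] at hj
        exact ⟨j, congrArg (fun z : ↥P × Bool => z.1.1) hj⟩
      · exact ⟨k, n2 k u h⟩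
    · rintro ⟨k, rfl⟩
      by_cases h : u ∈ P ∧ t.nb k u ∈ P
      · obtain ⟨j, hj⟩ := (d'.adj_iff _ _).1 ((h1 _ _).2 ((d.adj_iff _ _).2
          ⟨k, (L.inn k ⟨u, h.1⟩ h.2).symm⟩))
        have e3 := n1 j ⟨u, h.1⟩ (hC j _ (by rw [← hj]))
        rw [← hj] at e3
        exact ⟨j, by rw [ht]; exact e3.symm⟩
      · exact ⟨k, by rw [ht, n2 k u h]⟩
  · have h0 : t.nb k v.1 ∈ P := by
      by_contra e
      rw [ht, n2 k _ fun a => e a.2] at h
      exact e h
    obtain ⟨hw, e⟩ := n3 k v h0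
    rw [e]
    exact Prod.ext (Subtype.ext (ht k v.1).symm) rfl
  · refine hA k v fun e => h ?_
    rw [ht]
    exact (n3 k v e).1

/-- `live' = {z | z.2 = false ∧ z.1.1 ∈ live}`,
`τ' k (z, c) = if h : (τ k (z.1.1, c)).1 ∈ P then ((⟨_, h⟩, false), (τ k (z.1.1, c)).2) else (z, c)`;
terminals correspond. Then `back`, `r v = r' (⟨v, h⟩, false)`, and `G' (z, c) = G (z.1.1, c)`. -/
theorem Dbl.cl {d : Tri (↥P × Bool)} (hd : Dbl t P d) (h : CL d (Rt P)ᶜ) : CL t P := by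
  intro live τ E
  obtain ⟨d', h1, h2, r', C⟩ := h _ _ (d4_env hd.d4_lo E)
  obtain ⟨t', a1, a2, a3, a4⟩ := hd.back h1 h2
  have L : d4_Lo t' P d' := ⟨a3, a4⟩
  obtain ⟨r, hr⟩ : ∃ r : V → Bool, ∀ v : P, r v.1 = r' (v, false) :=
    ⟨fun v => if h : v ∈ P then r' (⟨v, h⟩, false) else false, fun v => dif_pos v.2⟩
  refine ⟨t', a1, a2, r, fun v hv hm => ?_, fun κ g g' g1 g2 g3 g4 g5 => ?_⟩
  · have e := L.inn none ⟨v, hv⟩ hm
    have e2 := C.rm (⟨v, hv⟩, false) (d4_mem.2 rfl) ((L.iff none ⟨v, hv⟩).2 hm)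
    have e3 : d'.m (⟨v, hv⟩, false) = (⟨t'.m v, hm⟩, false) := e
    rw [e3, ← hr, ← hr] at e2
    exact e2
  · obtain ⟨c0, b1, b2⟩ := C.one κ (fun x => g (x.1.1.1, x.2)) (fun x => g' (x.1.1.1, x.2))
      (by
        rintro ⟨⟨v, b⟩, c⟩ q1 q2
        obtain rfl : b = false := d4_mem.1 q1
        have q3 : t'.nb (some c) v.1 ∈ P := (L.iff (some c) v).1 q2
        have q4 : d'.o ((v, false), c) = ((⟨_, q3⟩, false), c) :=
          Prod.ext (L.inn (some c) v q3) rfl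
        rw [q4]
        exact g1 (v.1, c) v.2 q3)
      (by
        rintro ⟨v, b⟩ q1 q2
        obtain rfl : b = false := d4_mem.1 q1
        have q3 : t'.nb none v.1 ∈ P := (L.iff none v).1 q2
        have q4 : d'.m (v, false) = (⟨_, q3⟩, false) := L.inn none v q3
        rw [q4, ← hr]
        exact g2 v.1 v.2 q3)
      (by
        rintro ⟨v, b⟩ q1 q2 q3
        obtain rfl : b = false := d4_mem.1 q1
        exact g3 v.1 v.2 (fun e => q2 ((L.iff none v).2 e)) fun e => q3 (d4_mem_live.2 ⟨rfl, e⟩))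
      (by
        rintro ⟨v, b⟩ q1
        obtain ⟨q2, q3⟩ := d4_mem_live.1 q1
        obtain rfl : b = false := q2
        rw [← hr]
        exact g4 v.1 q3)
      (by
        rintro ⟨⟨v, b⟩, c⟩ q1
        obtain ⟨rfl, q2⟩ := (L.tm live v b c).1 q1
        have q3 := (tm_congr a2 live _).1 q2
        have hp := d4_tmP E (E.inv κ _ q3).1
        have q4 := g5 _ q2
        rw [d4_tau_eq hp]
        simp only [d4_mem_live, true_and]
        exact q4)
    exact ⟨c0, fun x hx => b1 ((⟨x.1, hx⟩, false), x.2) (d4_mem.2 rfl),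
      fun x hx => b2 ((⟨x.1, (E.live_sub _ hx).1⟩, false), x.2) (d4_mem_live.2 ⟨rfl, hx⟩)⟩

end Pool.Agent.MP_8c1b0d_co.RR

end
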