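import Pool.Agent.MP_8c1b0d_co.Mg.RR_C
import Pool.Agent.MP_8c1b0d_co.Mg.RR_P
import Pool.Agent.MP_8c1b0d_co.RR.T

-- part MP_8c1b0d_co.RR.E
section

set_option autoImplicit false
set_option linter.unusedSectionVars false
open Finset

namespace Pool.Agent.MP_8c1b0d_co.RR
namespace PR
open PL
variable {V Φ : Type} [Fintype V] [DecidableEq V] [Fintype Φ] [DecidableEq Φ] (p : PR V Φ)

lemma bondP : p.Bond p.Rᶜ :=
  ⟨card_pos.1 (by have := p.ok.b2; omega),
    card_pos.1 (by have := p.ok.b1; rw [compl_compl]; omega), p.ok.compl.conR,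
    by rw [compl_compl]; exact p.ok.conR⟩

lemma rp_cross {φ : Φ} (e : (p.cr (p.t.bd p.Rᶜ) φ).Nonempty) : 3 ≤ #(p.cor φ ∩ p.Rᶜ) := by
  have ev := p.cr_even (p.t.sub_bd p.Rᶜ) φ
  have pos := card_pos.2 e
  have two : 1 < #(p.cr (p.t.bd p.Rᶜ) φ) := by
    obtain ⟨r, hr⟩ := ev
    omega
  obtain ⟨⟨v, k⟩, h1, ⟨w, l⟩, h2, ne⟩ := one_lt_card.1 two
  obtain ⟨a1, a2⟩ := p.mem_cr.1 h1
  obtain ⟨b1, b2⟩ := p.mem_cr.1 h2
  obtain ⟨a3, a4⟩ := p.t.mem_bd.1 a1
  obtain ⟨b3, b4⟩ := p.t.mem_bd.1 b1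
  have a5 : p.t.nb k v ∈ p.R := by simpa using a4
  have b5 : p.t.nb l w ∈ p.R := by simpa using b4
  have a6 := mem_compl.1 a3
  have vw : v ≠ w := by
    rintro rfl
    exact ne (by rw [p.ok.leg_one a6 a5 b5])
  have vc := (LB.Al.mem _ a2).1
  have wc := (LB.Al.mem _ b2).1
  obtain ⟨j, hj, rfl⟩ := a2
  have key : ∀ j k : Option Bool, ∃ k', j ≠ k' ∧ k' ≠ k := by decide
  obtain ⟨k', c1, c2⟩ := key j k
  have c3 : p.t.nb k' v ∉ p.R := fun q => c2 (p.ok.leg_one a6 q a5)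
  have c4 : p.t.nb k' v ≠ w := fun q => p.ok.leg_adj a6 c3 a5 (q ▸ b5)
  exact two_lt_card.2 ⟨v, mem_inter.2 ⟨vc, a3⟩, w, mem_inter.2 ⟨wc, b3⟩, p.t.nb k' v,
    mem_inter.2 ⟨(LB.Al.mem _ (p.al_op c1 v)).2, mem_compl.2 c3⟩, vw, (p.t.nb_ne k' v).symm, c4.symm⟩

/-- At least six inner pentagons. Plan: `bondP.count`: `#P + 2 ≤ 2 F_in + 4`, at least 4 crossing
faces. A crossing face has at least 3 corners in `P = Rᶜ`: two half-edges of `bd P` on it (`cr_even`)
start at different vertices (`leg_one`); the other edge of the face at one of them leads to a vertex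
of `P` that is not a leg end (`leg_one`, `leg_adj`). `sum_cor P`, `five_le`; see the proof of `t5`. -/
theorem pent6 : 6 ≤ #{φ | p.cor φ ⊆ p.Rᶜ ∧ #(p.cor φ) = 5} := by
  have pt : ∀ φ, 6 * (if p.cor φ ⊆ p.Rᶜ then 1 else 0) +
      3 * (if (p.cr (p.t.bd p.Rᶜ) φ).Nonempty then 1 else 0) ≤
      #(p.cor φ ∩ p.Rᶜ) + (if p.cor φ ⊆ p.Rᶜ ∧ #(p.cor φ) = 5 then 1 else 0) := by
    intro φ
    by_cases i : p.cor φ ⊆ p.Rᶜ
    · have e : ¬ (p.cr (p.t.bd p.Rᶜ) φ).Nonempty :=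
        not_nonempty_iff_eq_empty.2 ((p.cr_bd p.Rᶜ φ).2 (Or.inl i))
      have := p.five_le φ
      rw [if_pos i, if_neg e, inter_eq_left.2 i]
      by_cases f : #(p.cor φ) = 5
      · rw [if_pos ⟨i, f⟩]; omega
      · omega
    · rw [if_neg i]
      by_cases e : (p.cr (p.t.bd p.Rᶜ) φ).Nonempty
      · have := p.rp_cross e
        rw [if_pos e]; omega
      · rw [if_neg e]; omega
  have sm := sum_le_sum fun φ (_ : φ ∈ (univ : Finset Φ)) => pt φ
  simp only [sum_add_distrib, ← mul_sum, sum_boole, Nat.cast_id, p.sum_cor] at sm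
  obtain ⟨c1, c2, -⟩ := p.bondP.count
  have c3 := p.ok.cut4
  have c4 := p.t.cut_compl p.R
  omega

/-- TT. Plan: `S = Rᶜ \ {a, a'}` has cut 6 (`leg_one`, `leg_adj`), is connected (two parts would have
cut 3 each, `three`, `small3`, `b2`); `fr` for `S`, `bd S`, `f4_inner`. A face inside `Rᶜ` that is
not inside `S` is `op none a` or `op none a'` (the other faces at `a` contain `m a`). So with equal
faces `F_in ≤ F_S + 1`, against `bondP.count`. -/
theorem tt {a a' : V} (n : a ≠ a') (h1 : a ∉ p.R) (h2 : a' ∉ p.R) (h3 : p.t.m a ∈ p.R)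
    (h4 : p.t.m a' ∈ p.R) : p.op none a ≠ p.op none a' := by
  intro he
  set S : Finset V := (p.Rᶜ.erase a).erase a' with hS
  have mS : ∀ v, v ∈ S ↔ v ≠ a' ∧ v ≠ a ∧ v ∉ p.R := fun v => by
    simp only [hS, mem_erase, mem_compl]
  have c3 := p.ok.cut4
  have c4 := p.t.cut_compl p.R
  have b1 := p.ok.b1
  have b2 := p.ok.b2
  have cS : #S + 2 = #p.Rᶜ := by
    have e1 := card_erase_add_one (mem_compl.2 h1)
    have e2 := card_erase_add_one (mem_erase.2 ⟨n.symm, mem_compl.2 h2⟩)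
    rw [hS]
    omega
  have free : ∀ v ∈ S, v ∉ p.R := fun v hv => ((mS v).1 hv).2.2
  have lo : 6 ≤ p.t.cut S := by
    have e1 := p.ok.c5P free (fun e => by rw [e] at cS; omega) (by omega)
    have e2 := (p.t.sub_bd S).parity
    have e3 := (p.t.sub_bd p.Rᶜ).parity
    rw [← p.t.cut_eq] at e2 e3
    omega
  have up : p.t.cut S ≤ 6 := by
    have s1 : p.t.bd S ⊆ ((p.t.bd p.Rᶜ).erase (a, none)).erase (a', none) ∪
        (({a, a'} : Finset V) ×ˢ (univ : Finset Bool)).image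
          fun q => (p.t.col q.2 q.1, some q.2) := by
      rintro ⟨v, k⟩ hd
      obtain ⟨d1, d2⟩ := p.t.mem_bd.1 hd
      obtain ⟨d3, d4, d5⟩ := (mS v).1 d1
      by_cases e : p.t.nb k v ∈ p.R
      · refine mem_union_left _ (mem_erase.2 ⟨fun q => d3 (congrArg Prod.fst q),
          mem_erase.2 ⟨fun q => d4 (congrArg Prod.fst q), p.t.mem_bd.2 ⟨mem_compl.2 d5, ?_⟩⟩⟩)
        simpa using e
      · have w : p.t.nb k v = a ∨ p.t.nb k v = a' := by
          by_contra q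
          rw [not_or] at q
          exact d2 ((mS _).2 ⟨q.2, q.1, e⟩)
        have w' : p.t.nb none (p.t.nb k v) ∈ p.R := by
          rcases w with w | w <;> rw [w] <;> assumption
        rcases k with _ | c
        · rw [p.t.nb_nb] at w'
          exact absurd w' d5
        · refine mem_union_right _ (mem_image.2 ⟨(p.t.nb (some c) v, c), ?_, ?_⟩)
          · simpa using w
          · simp
    have t1 := (card_le_card s1).trans (card_union_le _ _)
    have t2 := card_image_le (s := ({a, a'} : Finset V) ×ˢ (univ : Finset Bool))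
      (f := fun q : V × Bool => ((p.t.col q.2 q.1, some q.2) : V × Option Bool))
    rw [card_product, card_pair n, card_univ, Fintype.card_bool] at t2
    have m1 : (a, none) ∈ p.t.bd p.Rᶜ := p.t.mem_bd.2 ⟨mem_compl.2 h1, by simpa using h3⟩
    have m2 : (a', none) ∈ p.t.bd p.Rᶜ := p.t.mem_bd.2 ⟨mem_compl.2 h2, by simpa using h4⟩
    have e1 := card_erase_add_one m1
    have e2 := card_erase_add_one
      (mem_erase.2 ⟨fun q : (a', none) = (a, none) => n (congrArg Prod.fst q).symm, m2⟩)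
    rw [p.t.cut_eq] at c4 ⊢
    omega
  have con : p.t.Con S (p.t.bd S) := by
    intro W hW cl
    by_contra q
    rw [not_or] at q
    have d1 := p.t.cut_split hW fun u hu k hk =>
      cl u hu k fun b => (p.t.mem_bd.1 b).2 hk
    have n1 : p.R ⊆ Wᶜ := fun u hu => mem_compl.2 fun c => free u (hW c) hu
    have n2 : p.R ⊆ (S \ W)ᶜ := fun u hu => mem_compl.2 fun c => free u (mem_sdiff.1 c).1 hu
    have d6 := card_le_card n1
    have d7 := card_le_card n2
    have d2 := p.ok.three (S := W) (nonempty_iff_ne_empty.2 q.1) (card_pos.1 (by omega))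
    have d3 := p.ok.three (S := S \ W)
      (sdiff_nonempty.2 fun c => q.2 (Subset.antisymm hW c)) (card_pos.1 (by omega))
    have d4 := p.ok.small3 (S := W) (by omega)
    have d5 := p.ok.small3 (S := S \ W) (by omega)
    have d8 := card_sdiff_add_card_eq_card hW
    omega
  have cb := p.t.cut_eq S
  have f := p.fr (p.t.sub_bd S) con (card_pos.1 (by omega))
  rw [f4_inner] at f
  have sub : ({φ | p.cor φ ⊆ p.Rᶜ} : Finset Φ) ⊆ insert (p.op none a)
      ({φ | p.cor φ ⊆ S} : Finset Φ) := by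
    intro φ hφ
    have i := (mem_filter.1 hφ).2
    have key : ∀ u, p.t.m u ∈ p.R → u ∈ p.cor φ → φ = p.op none u := by
      intro u hu hc
      obtain ⟨k, rfl⟩ := p.mem_cor.1 hc
      by_cases e : k = none
      · rw [e]
      · exact absurd hu (mem_compl.1 (i (LB.Al.mem _ (p.al_op e u)).2))
    by_cases e1 : a ∈ p.cor φ
    · exact mem_insert.2 (Or.inl (key a h3 e1))
    by_cases e2 : a' ∈ p.cor φ
    · exact mem_insert.2 (Or.inl ((key a' h4 e2).trans he.symm))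
    refine mem_insert.2 (Or.inr (mem_filter.2 ⟨mem_univ _, fun v hv => (mS v).2
      ⟨fun q => e2 (q ▸ hv), fun q => e1 (q ▸ hv), mem_compl.1 (i hv)⟩⟩))
  have g := (card_le_card sub).trans (card_insert_le _ _)
  obtain ⟨-, c2, -⟩ := p.bondP.count
  omega

end PR
end Pool.Agent.MP_8c1b0d_co.RR

set_option autoImplicit false
set_option linter.unusedSectionVars false
open Finset

namespace Pool.Agent.MP_8c1b0d_co.RR
namespace PR
open PL
variable {V Φ : Type} [Fintype V] [DecidableEq V] [Fintype Φ] [DecidableEq Φ] (p : PR V Φ)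

/-- TT2. Plan: both `C`-edges at `a` stay in `C` (`Deg2`, `m a ∉ C`), `f6` gives
`cor (op none a) ⊆ C`. Equality: else the face has 5 corners and cut at most 5 (`Deg2.cut_le`), the
sixth vertex has two neighbours on it, so `cut C ≤ 4`, against `c5P` (`b2`); or use that the cut of
`C` is at least 5 directly. So `op k a' = op none a`; `k ≠ none` puts `m a'` into `C`. `tt`. -/
theorem tt2 {C : Finset V} (h6 : #C ≤ 6) (hd : p.t.Deg2 C) (hf : ∀ v ∈ C, v ∉ p.R) {a a' : V}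
    (n : a ≠ a') (h1 : a ∈ C) (h2 : a' ∈ C) (h3 : p.t.m a ∈ p.R) (h4 : p.t.m a' ∈ p.R) :
    False := by
  have h5 := p.ok.five ⟨a, h1⟩ hd
  have b2 := p.ok.b2
  have c1 := p.ok.c5P hf (fun e => by rw [e] at h6; omega) (by omega)
  have c2 := hd.cut_le
  have c3 := (p.t.sub_bd C).parity
  rw [← p.t.cut_eq] at c3
  have hl := hd.leg p.t (by omega)
  obtain ⟨k0, o1, o2⟩ := hl a h1
  obtain rfl : none = k0 := by_contra fun c => hf _ (o2 none c) h3
  have hF := p.f6 h6 hd h1 o2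
  have hF5 := p.five_le (p.op none a)
  by_cases ha : a' ∈ p.cor (p.op none a)
  · obtain ⟨k, hk⟩ := p.mem_cor.1 ha
    by_cases e : k = none
    · exact p.tt n (hf a h1) (hf a' h2) h3 h4 (by rw [← hk, e])
    · exact hf _ (hF (hk ▸ (LB.Al.mem _ (p.al_op e a')).2)) h4
  · have e : p.cor (p.op none a) = C.erase a' :=
      eq_of_subset_of_card_le (subset_erase.2 ⟨hF, ha⟩) (by rw [card_erase_of_mem h2]; omega)
    obtain ⟨k, -, -, hu, -⟩ := hd a' h2
    obtain ⟨j, hj⟩ := p.mem_cor.1 (e ▸ mem_erase.2 ⟨p.t.nb_ne k a', hu⟩)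
    obtain ⟨i, i1, i2⟩ := hl _ hu
    have key : ∀ l, j ≠ l → p.t.nb l (p.t.nb k a') ∈ p.cor (p.op none a) := fun l hl =>
      hj ▸ (LB.Al.mem _ (p.al_op hl _)).2
    obtain rfl : j = i := by_contra fun c => i1 (hF (key i c))
    obtain rfl : j = k := by_contra fun c => ha (by simpa only [p.t.nb_nb] using key k c)
    exact i1 (by rwa [p.t.nb_nb])

/-- O5. Plan: `Deg2 S` (a vertex with two outer edges can be erased: 4 vertices, cut at most 4,
`c5P`); some vertex has an outer edge `k`; `f6`, `five_le`, `bip`. -/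
theorem o5 {S : Finset V} (h5 : #S = 5) (hc : p.t.cut S ≤ 5) (hf : ∀ v ∈ S, v ∉ p.R) (β : V → Bool)
    (hβ : ∀ v ∈ S, ∀ k, p.t.nb k v ∈ S → β (p.t.nb k v) ≠ β v) : False := by
  have b2 := p.ok.b2
  have hd : p.t.Deg2 S := by
    intro v hv
    by_contra c
    obtain ⟨k, hk⟩ : ∃ k, ∀ k', k' ≠ k → p.t.nb k' v ∉ S := by
      by_cases e : ∃ k, p.t.nb k v ∈ S
      · obtain ⟨k, e⟩ := e
        exact ⟨k, fun k' n e' => c ⟨k', k, n, e', e⟩⟩
      · exact ⟨none, fun k' _ e' => e ⟨k', e'⟩⟩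
    have e4 := card_erase_of_mem hv
    have c1 := p.ok.c5P (S := S.erase v) (fun u hu => hf u (mem_of_mem_erase hu))
      (fun e => by rw [e] at e4; omega) (by omega)
    have s1 : (univ.erase k).image (fun j => (v, j)) ⊆ p.t.bd S := fun d hd => by
      obtain ⟨j, hj, rfl⟩ := mem_image.1 hd
      exact p.t.mem_bd.2 ⟨hv, hk j (ne_of_mem_erase hj)⟩
    have s2 : p.t.bd (S.erase v) ⊆
        insert (p.t.nb k v, k) (p.t.bd S \ (univ.erase k).image fun j => (v, j)) := by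
      rintro ⟨u, j⟩ hd
      obtain ⟨d1, d2⟩ := p.t.mem_bd.1 hd
      obtain ⟨d3, d1⟩ := mem_erase.1 d1
      by_cases e : p.t.nb j u = v
      · have e' : u = p.t.nb j v := by rw [← e, p.t.nb_nb]
        obtain rfl : j = k := by_contra fun n => hk j n (e' ▸ d1)
        exact e' ▸ mem_insert_self _ _
      · refine mem_insert_of_mem (mem_sdiff.2 ⟨p.t.mem_bd.2 ⟨d1, fun q => d2 (mem_erase.2 ⟨e, q⟩)⟩,
          fun q => ?_⟩)
        obtain ⟨_, -, q⟩ := mem_image.1 q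
        exact d3 (congrArg Prod.fst q).symm
    have s3 := (card_le_card s2).trans (card_insert_le _ _)
    have s4 := card_sdiff_add_card_eq_card s1
    rw [card_image_of_injective _ (Prod.mk_right_injective v), card_erase_of_mem (mem_univ k),
      card_univ, Fintype.card_option, Fintype.card_bool] at s4
    rw [p.t.cut_eq] at hc c1
    omega
  have c1 := p.ok.c5P hf (fun e => by rw [e] at h5; omega) (by omega)
  obtain ⟨v, hv⟩ := card_pos.1 (by omega : 0 < #S)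
  obtain ⟨k, -, hk⟩ := hd.leg p.t (by omega) v hv
  have hF := p.f6 (by omega) hd hv hk
  have h1 := p.five_le (p.op k v)
  have h2 := card_le_card hF
  obtain ⟨n, hn⟩ := p.bip (φ := p.op k v) β fun u j h => hβ u (hF h.mem.1) j (hF h.mem.2)
  omega

namespace Ori
variable {p} (a : p.Ori)

/-- PC. Plan: copy of the old lemma `PG.Fl.T0` (file FB or ~FA, F6 part). Let
`B = (dang \ bd Rᶜ) ∪ {(u, none) | u ∈ U2}`; `bd Rᶜ ⊆ dang` (`sub_dang`), `Sub univ B`. An inner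
pentagon meets `B` or is `op none u`, `u ∈ U2` (`even_face`). `pent6`, `card_bf`, `card_dang`:
`6 ≤ #dang - 4 + 2 #U2 ≤ w2 - 4`. -/
theorem pc (h : a.toCl.Sp = p.Rᶜ) : 10 ≤ a.toCl.w2 := by
  let B : Finset (V × Option Bool) :=
    (a.toCl.dang \ p.t.bd p.Rᶜ) ∪ a.toCl.U2.image fun u => (u, none)
  have hB : ∀ {v k}, (v, k) ∈ B ↔ ((v, k) ∈ a.toCl.dang ∧ (v, k) ∉ p.t.bd p.Rᶜ) ∨
      (v ∈ a.toCl.U2 ∧ k = none) := by
    intro v k
    simp only [B, mem_union, mem_sdiff, mem_image, Prod.mk.injEq]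
    exact or_congr_right ⟨fun ⟨_, h, e, e'⟩ => ⟨e ▸ h, e'.symm⟩, fun h => ⟨v, h.1, rfl, h.2.symm⟩⟩
  have sd := a.toCl.sub_dang
  rw [h] at sd
  have hb : p.t.bd p.Rᶜ ⊆ a.toCl.dang := fun ⟨v, k⟩ hd => by_contra fun c =>
    (p.t.mem_bd.1 hd).2 (sd.cl v (p.t.mem_bd.1 hd).1 k c).1
  have hS : p.t.Sub univ B := by
    refine ⟨fun _ _ => mem_univ _, fun v _ k hk => ⟨mem_univ _, fun e => hk (hB.2 ?_)⟩⟩
    rcases hB.1 e with ⟨e1, e2⟩ | ⟨e, rfl⟩
    · have w := sd.mem _ e1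
      have hv : v ∈ p.Rᶜ := by_contra fun c => e2 (p.t.mem_bd.2 ⟨w, by rwa [p.t.nb_nb]⟩)
      exact Or.inl ⟨by_contra fun c => (sd.cl v hv k c).2 e1, fun c => (p.t.mem_bd.1 c).2 w⟩
    · have := a.toCl.m_U2 e
      rw [Tri.nb_none, p.t.mm] at this
      exact Or.inr ⟨this, rfl⟩
  have sub : ({φ | p.cor φ ⊆ p.Rᶜ ∧ #(p.cor φ) = 5} : Finset Φ) ⊆
      ({φ | (p.cr B φ).Nonempty} : Finset Φ) ∪ a.toCl.U2.image (p.op none) := by
    intro φ hφ
    by_contra hn
    simp only [mem_filter, mem_univ, true_and, mem_union, not_or, not_nonempty_iff_eq_empty,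
      mem_image, not_exists, not_and] at hφ hn
    have := a.even_face (φ := φ) (eq_empty_of_forall_notMem fun ⟨v, k⟩ hd => by
      obtain ⟨h1, h2⟩ := p.mem_cr.1 hd
      exact notMem_empty (v, k) (hn.1 ▸ p.mem_cr.2 ⟨hB.2 (Or.inl
        ⟨h1, fun c => (p.t.mem_bd.1 c).2 (hφ.1 h2.mem.2)⟩), h2⟩)) (h ▸ hφ.1)
      (disjoint_left.2 fun u hu hu' => by
        obtain ⟨k, hk⟩ := p.mem_cor.1 hu
        have hk0 : k ≠ none := fun e => hn.2 u hu' (e ▸ hk)
        exact notMem_empty (u, none)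
          (hn.1 ▸ p.mem_cr.2 ⟨hB.2 (Or.inr ⟨hu', rfl⟩), k, hk0, hk⟩))
    omega
  have h1 := p.pent6.trans ((card_le_card sub).trans (card_union_le _ _))
  have h2 := p.card_bf hS
  have h3 : #B ≤ #(a.toCl.dang \ p.t.bd p.Rᶜ) + #a.toCl.U2 :=
    (card_union_le _ _).trans (Nat.add_le_add_left card_image_le _)
  have h4 : #(a.toCl.U2.image (p.op none)) ≤ #a.toCl.U2 := card_image_le
  have h5 := a.toCl.card_dang
  have h6 := card_sdiff_add_card_eq_card hb
  rw [← p.t.cut_eq, p.t.cut_compl, p.ok.cut4] at h6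
  rw [Cl0.w2]
  omega

end Ori
end PR
end Pool.Agent.MP_8c1b0d_co.RR

set_option autoImplicit false
set_option linter.unusedSectionVars false
open Finset

namespace Pool.Agent.MP_8c1b0d_co.RR
namespace PR
open PL
variable {V Φ : Type} [Fintype V] [DecidableEq V] [Fintype Φ] [DecidableEq Φ] (p : PR V Φ)

namespace Ori
variable {p} (a : p.Ori)

lemma rp3_card : #a.toCl.Sm = #a.toCl.X + #a.toCl.U0 + #a.toCl.U2 := by
  rw [Cl0.f5_cardV, Cl0.f5_cardV, Cl0.f5_cardV, Cl0.f5_cardV, ← sum_add_distrib,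
    ← sum_add_distrib]
  refine sum_congr rfl fun v _ => ?_
  have e0 := a.l0 v
  have e1 := a.toCl.f5_disj (v := v)
  simp only [Cl0.mem_Sm, Cl0.mem_X, Cl0.mem_U0, Cl0.mem_U2, Bool.forall_bool]
  by_cases h0 : (v, false) ∈ a.P <;> by_cases h1 : (v, true) ∈ a.P <;>
    by_cases h2 : v ∈ a.A0 <;> by_cases h3 : v ∈ a.A1 <;> simp_all

lemma rp3_bip (h2 : a.toCl.U2 = ∅) (h0 : ∀ v ∈ a.toCl.U0, p.t.m v ∉ a.toCl.Sm)
    (hD : ∀ v c, (v, c) ∈ a.D → p.t.col c v ∉ a.toCl.Sm) :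
    ∀ v ∈ a.toCl.Sm, ∀ k, p.t.nb k v ∈ a.toCl.Sm → a.ε (p.t.nb k v, false) ≠ a.ε (v, false) := by
  have key : ∀ w ∈ a.toCl.Sm, ∀ c, a.ε (w, c) = a.ε (w, false) := fun w hw c => by
    cases c
    · rfl
    · refine a.e0 w fun k => ?_
      have : w ∈ a.toCl.U2 := a.toCl.mem_U2.2 ⟨k, a.toCl.mem_Sm.1 hw _, a.toCl.mem_Sm.1 hw _⟩
      rw [h2] at this
      exact notMem_empty _ this
  intro v hv k hk
  rcases k with _ | c
  · exact a.e1 v (fun e => h0 v (a.toCl.mem_U0.2 ⟨e, a.toCl.mem_Sm.1 hv _⟩) hk) false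
  · rw [← key v hv c, ← key _ hk c]
    exact a.e2 (v, c) (a.toCl.mem_Sm.1 hv c) fun e => hD v c e hk

lemma rp3_base (h4 : 4 ≤ #a.toCl.X) (c : ¬ 10 ≤ a.toCl.w2) :
    #a.toCl.X = 4 ∧ 5 ≤ #a.D + #a.toCl.U0 + #a.toCl.U1 := by
  have n : a.toCl.Sp ≠ p.Rᶜ := fun e => c (a.pc e)
  have h6 : ¬ 6 ≤ #a.toCl.X := fun h => by
    by_contra c'
    exact Fl.elim (p := p) { toOri := a, big := h, light := by omega, prop := n }
  obtain ⟨r, hr⟩ := p.t.even_card fun v => a.toCl.m_X (v := v)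
  have h5 := p.ok.c5P (fun _ => a.toCl.Sp_free) n
    (by have := card_le_card a.toCl.X_Sp; omega)
  exact ⟨by omega, a.toCl.card_dang ▸ h5.trans a.toCl.sub_dang.cut_le⟩

lemma rp3_erase {S : Finset V} {v : V} {k1 k2 k3 : Option Bool} (hv : v ∈ S) (n : k1 ≠ k2)
    (al : ∀ k, k = k1 ∨ k = k2 ∨ k = k3) (o1 : p.t.nb k1 v ∉ S) (o2 : p.t.nb k2 v ∉ S) :
    p.t.cut (S.erase v) + 1 ≤ p.t.cut S := by
  rw [Tri.cut_eq, Tri.cut_eq]
  have m1 : (v, k1) ∈ p.t.bd S := p.t.mem_bd.2 ⟨hv, o1⟩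
  have m2 : (v, k2) ∈ (p.t.bd S).erase (v, k1) :=
    mem_erase.2 ⟨fun e => n (congrArg Prod.snd e).symm, p.t.mem_bd.2 ⟨hv, o2⟩⟩
  have sub : p.t.bd (S.erase v) ⊆
      insert (p.t.nb k3 v, k3) (((p.t.bd S).erase (v, k1)).erase (v, k2)) := by
    rintro ⟨w, k⟩ hw
    obtain ⟨w1, w2⟩ := p.t.mem_bd.1 hw
    obtain ⟨w3, w4⟩ := mem_erase.1 w1
    by_cases e : p.t.nb k w = v
    · have e' : w = p.t.nb k v := by rw [← e, Tri.nb_nb]
      rcases al k with rfl | rfl | rfl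
      · exact (o1 (e' ▸ w4)).elim
      · exact (o2 (e' ▸ w4)).elim
      · rw [e']
        exact mem_insert_self _ _
    · refine mem_insert_of_mem (mem_erase.2 ⟨fun z => w3 (congrArg Prod.fst z),
        mem_erase.2 ⟨fun z => w3 (congrArg Prod.fst z), p.t.mem_bd.2 ⟨w4, fun z => ?_⟩⟩⟩)
      exact w2 (mem_erase.2 ⟨e, z⟩)
  have c1 := card_le_card sub
  have c2 := card_insert_le (p.t.nb k3 v, k3) (((p.t.bd S).erase (v, k1)).erase (v, k2))
  have c3 := card_erase_add_one m1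
  have c4 := card_erase_add_one m2
  omega

/-- T* -/
theorem ts (h6 : 6 ≤ #a.toCl.X) (h : a.toCl.Sp ≠ p.Rᶜ) : 12 ≤ a.toCl.w2 := by
  by_contra c
  exact Fl.elim (p := p) { toOri := a, big := h6, light := by omega, prop := h }

/-- Plan: `pc`, `ts`, so `#X = 4` (even), `5 ≤ cut Sp ≤ #D + #U0 + #U1` (`c5P`, `card_dang`),
`even_D`, `even_U1`, `even_U2`: `#D = 2`, `#U0 = 1`, `#U1 = 2`, `U2 = ∅`. `Sm = X ∪ U0`, `cut_Sm`,
`o5` with `β v = ε (v, false)`: the two elements of `D` have different colours (`par`), so no edge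
inside `Sm` is in `D` (`cl`); the `m`-edge at `U0` leaves `Sm`. -/
theorem b4 (h4 : 4 ≤ #a.toCl.X) (h0 : a.toCl.U0.Nonempty) (hD : a.D.Nonempty) :
    10 ≤ a.toCl.w2 := by
  by_contra c
  obtain ⟨hX, h5⟩ := a.rp3_base h4 c
  rw [Cl0.w2] at c
  have d1 := card_pos.2 h0
  have d2 := card_pos.2 hD
  obtain ⟨r1, e1⟩ := a.toCl.even_D
  obtain ⟨r2, e9⟩ := a.toCl.even_U1
  have h2 : a.toCl.U2 = ∅ := card_eq_zero.1 (by omega)
  have hc := a.rp3_card
  have hS := a.toCl.cut_Sm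
  rw [h2, card_empty] at hc c
  refine p.o5 (S := a.toCl.Sm) (by omega) (by omega)
    (fun v hv => a.toCl.Sp_free (a.toCl.Sm_sub hv)) (fun v => a.ε (v, false))
    (a.rp3_bip h2 (fun v hv hm => ?_) fun v k hv hm => ?_)
  · have : p.t.m v ∈ a.toCl.U0 :=
      a.toCl.mem_U0.2 ⟨a.m0 v (a.toCl.mem_U0.1 hv).1, a.toCl.mem_Sm.1 hm _⟩
    have : 1 < #a.toCl.U0 := one_lt_card.2 ⟨_, this, _, hv, p.t.m_ne v⟩
    omega
  · have hP : p.t.o (v, k) ∈ a.P := a.toCl.mem_Sm.1 hm k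
    have hD' : p.t.o (v, k) ∈ a.D := by
      by_contra e
      exact (a.cl _ hP e).2 (by rwa [p.t.o_o])
    have h6 := a.toCl.par k
    have h7 : #{h ∈ a.D | h.2 = k} ≤ #a.D := card_filter_le _ _
    have h8 : 1 < #{h ∈ a.D | h.2 = k} := one_lt_card.2
      ⟨_, mem_filter.2 ⟨hD', rfl⟩, _, mem_filter.2 ⟨hv, rfl⟩, p.t.o_ne _⟩
    change #{h ∈ a.D | h.2 = k} % 2 = _ at h6
    change 5 ≤ #a.D + _ + _ at h5
    change #a.D = _ at e1
    change ¬ 10 ≤ 2 * #a.D + _ + _ + _ at c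
    omega

/-- Plan: as in `b4`; `par` gives `D = ∅`, `U0 = {u, u'}`, `#U1 = 4`, `U2 = ∅`; `Sm` has 6 vertices
and cut at most 6; `Deg2 Sm` by `o5` for `Sm.erase v`; `tt2`. -/
theorem b5 (h4 : 4 ≤ #a.toCl.X) {u u' : V} (n : u ≠ u') (h1 : u ∈ a.toCl.U0) (h2 : u' ∈ a.toCl.U0)
    (h3 : p.t.m u ∈ p.R) (h5 : p.t.m u' ∈ p.R) : 10 ≤ a.toCl.w2 := by
  by_contra c
  obtain ⟨hX, h6⟩ := a.rp3_base h4 c
  rw [Cl0.w2] at c
  have d1 : 1 < #a.toCl.U0 := one_lt_card.2 ⟨_, h1, _, h2, n⟩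
  obtain ⟨r1, e1⟩ := a.toCl.even_D
  obtain ⟨r2, e9⟩ := a.toCl.even_U1
  have e2 := a.toCl.par false
  have e3 : #{h ∈ a.D | h.2 = false} ≤ #a.D := card_filter_le _ _
  change #{h ∈ a.D | h.2 = false} % 2 = _ at e2
  change #a.D = _ at e1
  change ¬ 10 ≤ 2 * #a.D + _ + _ + _ at c
  have hD : a.D = ∅ := card_eq_zero.1 (by omega)
  have h7 : a.toCl.U2 = ∅ := card_eq_zero.1 (by omega)
  have hc := a.rp3_card
  have hS := a.toCl.cut_Sm
  change _ ≤ #a.D + _ + _ at hS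
  have d0 : #a.D = 0 := card_eq_zero.2 hD
  rw [h7, card_empty] at hc c
  have hU : ({u, u'} : Finset V) = a.toCl.U0 :=
    eq_of_subset_of_card_le (insert_subset h1 (singleton_subset_iff.2 h2))
      (by rw [card_pair n]; omega)
  have fr : ∀ v ∈ a.toCl.Sm, v ∉ p.R := fun v hv => a.toCl.Sp_free (a.toCl.Sm_sub hv)
  have bip := a.rp3_bip h7 (fun v hv hm => by
    rw [← hU, mem_insert, mem_singleton] at hv
    rcases hv with rfl | rfl
    · exact fr _ hm h3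
    · exact fr _ hm h5) (fun v k hv => by
    rw [hD] at hv
    exact (notMem_empty _ hv).elim)
  have sm : ∀ w ∈ a.toCl.U0, w ∈ a.toCl.Sm := fun w hw => a.toCl.mem_Sm.2 (a.toCl.P_of_U0 hw)
  refine p.tt2 (C := a.toCl.Sm) (by omega) (fun v hv => ?_) fr n (sm _ h1) (sm _ h2) h3 h5
  by_contra hn
  have er : p.t.cut (a.toCl.Sm.erase v) + 1 ≤ p.t.cut a.toCl.Sm := by
    by_cases i0 : p.t.nb none v ∈ a.toCl.Sm
    · exact rp3_erase (k1 := some false) (k2 := some true) (k3 := none) hv (by decide)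
        (by decide) (fun z => hn ⟨_, _, by decide, i0, z⟩) fun z => hn ⟨_, _, by decide, i0, z⟩
    · by_cases i1 : p.t.nb (some false) v ∈ a.toCl.Sm
      · exact rp3_erase (k1 := none) (k2 := some true) (k3 := some false) hv (by decide)
          (by decide) i0 fun z => hn ⟨_, _, by decide, i1, z⟩
      · exact rp3_erase (k1 := none) (k2 := some false) (k3 := some true) hv (by decide)
          (by decide) i0 i1
  have ce := card_erase_add_one hv
  exact p.o5 (S := a.toCl.Sm.erase v) (by omega) (by omega)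
    (fun w hw => fr w (mem_of_mem_erase hw)) (fun w => a.ε (w, false))
    fun w hw k hk => bip w (mem_of_mem_erase hw) k (mem_of_mem_erase hk)

/-- Plan: otherwise `U1 = ∅`, `cut Sp ≤ 4`, `smallP`, `pc`. -/
theorem b6 (h4 : 4 ≤ #a.D + #a.toCl.U0) (h3 : 3 ≤ #a.toCl.Sp) : 10 ≤ a.toCl.w2 := by
  by_contra c
  have c' := c
  rw [Cl0.w2] at c'
  change ¬ 10 ≤ 2 * #a.D + _ + _ + _ at c'
  obtain ⟨r, e⟩ := a.toCl.even_U1
  have h1 := a.toCl.sub_dang.cut_le
  rw [a.toCl.card_dang] at h1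
  change _ ≤ #a.D + _ + _ at h1
  rcases p.ok.smallP (fun _ => a.toCl.Sp_free) (h1.trans (by omega)) with k | k
  · omega
  · exact c (a.pc k)

end Ori
end PR
end Pool.Agent.MP_8c1b0d_co.RR

set_option autoImplicit false
set_option linter.unusedSectionVars false
open Finset

namespace Pool.Agent.MP_8c1b0d_co.RR
namespace Cl0
variable {V : Type} [Fintype V] [DecidableEq V] {t : Tri V} {R : Finset V} (a : Cl0 t R)

lemma w2_eq : a.w2 = 2 * #a.D + #a.PH := by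
  have := a.card_PH
  unfold w2
  omega

lemma rt_mem {h : V × Bool} (k : V × Bool) :
    a.ρ k ∈ ({h, a.ρ h} : Finset (V × Bool)) ↔ k ∈ ({h, a.ρ h} : Finset (V × Bool)) := by
  simp only [mem_insert, mem_singleton]
  constructor
  · rintro (e | e)
    · right; rw [← e, a.ρ_ρ]
    · left; rw [← a.ρ_ρ k, e, a.ρ_ρ]
  · rintro (e | e)
    · right; rw [e]
    · left; rw [e, a.ρ_ρ]

lemma rt_split {h k : V × Bool} (hs : h.1 ∈ a.A0 ∨ h.1 ∈ a.A1) (h0 : k.1 ∉ a.A0)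
    (h1 : k.1 ∉ a.A1) : k ∉ ({h, a.ρ h} : Finset (V × Bool)) := by
  simp only [mem_insert, mem_singleton, not_or]
  refine ⟨fun e => by rw [e] at h0 h1; tauto, fun e => ?_⟩
  rw [e, ρ] at h0 h1
  split_ifs at h0 h1 with h2
  · exact h0 h2
  · exact h1 (a.m1 _ (hs.resolve_left h2))

/-- remove the strand of `h` -/
def rt_cut {h : V × Bool} (hs : h.1 ∈ a.A0 ∨ h.1 ∈ a.A1) (D' : Finset (V × Bool))
    (h1 : D' ⊆ a.P \ {h, a.ρ h})
    (h2 : ∀ k ∈ a.P \ {h, a.ρ h}, k ∉ D' → t.o k ∈ a.P \ {h, a.ρ h} ∧ t.o k ∉ D') : Cl0 t R where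
  A0 := a.A0
  A1 := a.A1
  P := a.P \ {h, a.ρ h}
  D := D'
  m0 := a.m0
  m1 := a.m1
  disj := a.disj
  l0 := fun v hv => by
    rw [mem_sdiff, mem_sdiff, a.l0 v hv]
    refine and_congr_right fun _ => not_congr ?_
    by_cases h0 : v ∈ a.A0
    · rw [← a.rt_mem (v, false), show a.ρ (v, false) = (v, true) by simp [ρ, h0]]
    · exact iff_of_false (a.rt_split hs h0 hv) (a.rt_split hs h0 hv)
  l1 := fun v hv c => by
    rw [mem_sdiff, mem_sdiff, a.l1 v hv, ← a.rt_mem (v, c),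
      show a.ρ (v, c) = (t.m v, c) by simp [ρ, hv]]
  dP := h1
  cl := h2
  free := fun k hk => a.free k (mem_sdiff.1 hk).1
  hexa := fun v c hv hd => by
    obtain ⟨u, hu, c', hc', hw⟩ := a.hexa v c hv hd
    have hu' := hw u (by simp [Tri.hex])
    refine ⟨u, hu, c', hc', fun w k => ⟨(hw w k).1, (hw w k).2.1, ?_⟩⟩
    rw [mem_sdiff, mem_sdiff, (hw w k).2.2,
      and_iff_left (a.rt_split (k := (w, false)) hs (hw w k).1 (hw w k).2.1),
      and_iff_left (a.rt_split (k := (u, false)) hs hu'.1 hu'.2.1)]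

lemma rt_X {h : V × Bool} (hs : h.1 ∈ a.A0 ∨ h.1 ∈ a.A1) {D' : Finset (V × Bool)} (h1 h2) :
    (a.rt_cut hs D' h1 h2).X = a.X := by
  ext v
  rw [mem_X, mem_X]
  refine and_congr_right fun h0 => and_congr_right fun h3 => ?_
  exact mem_sdiff.trans (and_iff_left (a.rt_split (k := (v, false)) hs h0 h3))

lemma rt_PH {h : V × Bool} (hs : h.1 ∈ a.A0 ∨ h.1 ∈ a.A1) (hp : h ∈ a.PH)
    {D' : Finset (V × Bool)} (h1 h2) : #(a.rt_cut hs D' h1 h2).PH + 2 = #a.PH := by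
  have e : (a.rt_cut hs D' h1 h2).PH = a.PH \ {h, a.ρ h} := by
    ext k
    rw [mem_PH, rt_X, mem_sdiff, mem_PH]
    exact (and_congr_left fun _ => mem_sdiff).trans (by tauto)
  rw [e, ← card_pair (a.ρ_ne h).symm]
  exact card_sdiff_add_card_eq_card (insert_subset hp (singleton_subset_iff.2 (a.ρ_PH hp)))

/-- One truncation step. Plan: take `h ∈ D` at a split vertex, `P' = P \ {h, ρ h}`; if `ρ h ∈ D` then
`D' = D \ {h, ρ h}`, else `D' = insert (o (ρ h)) (D.erase h)`. Use `w2_eq`. -/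
theorem trunc : (∀ h ∈ a.D, h.1 ∉ a.A0 ∧ h.1 ∉ a.A1) ∨ ∃ b : Cl0 t R, b.A0 = a.A0 ∧ b.A1 = a.A1 ∧
    b.X = a.X ∧ #b.P < #a.P ∧ (∀ h ∈ b.P, h ∈ a.P ∧ (h ∉ b.D → h ∉ a.D)) ∧
    ((b.w2 + 2 = a.w2 ∧ b.P.Nonempty) ∨ (b.w2 + 6 = a.w2 ∧
      ∃ h ∈ a.PH, h ∈ a.D ∧ a.ρ h ∈ a.D ∧ a.P = b.P ∪ {h, a.ρ h})) := by
  by_cases hall : ∀ h ∈ a.D, h.1 ∉ a.A0 ∧ h.1 ∉ a.A1
  · exact Or.inl hall
  right
  obtain ⟨h, hD, hs⟩ : ∃ h ∈ a.D, h.1 ∈ a.A0 ∨ h.1 ∈ a.A1 := by
    by_contra hc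
    exact hall fun h k => not_or.1 fun e => hc ⟨h, k, e⟩
  have hp : h ∈ a.PH := a.mem_PH.2 ⟨a.dP hD, fun k => by have := a.mem_X.1 k; tauto⟩
  have hg := (a.mem_PH.1 (a.ρ_PH hp)).1
  have hsub : ({h, a.ρ h} : Finset (V × Bool)) ⊆ a.P :=
    insert_subset (a.dP hD) (singleton_subset_iff.2 hg)
  have hlt : #(a.P \ {h, a.ρ h}) < #a.P :=
    card_lt_card (sdiff_ssubset hsub (insert_nonempty _ _))
  have oo := t.o_o
  have w := a.w2_eq
  by_cases hgD : a.ρ h ∈ a.D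
  · have hsD : ({h, a.ρ h} : Finset (V × Bool)) ⊆ a.D :=
      insert_subset hD (singleton_subset_iff.2 hgD)
    have h0 : ∀ k ∈ a.P \ {h, a.ρ h}, k ∉ a.D \ {h, a.ρ h} → k ∉ a.D := fun k hk hk' e =>
      hk' (mem_sdiff.2 ⟨e, (mem_sdiff.1 hk).2⟩)
    have h1 : a.D \ {h, a.ρ h} ⊆ a.P \ {h, a.ρ h} := sdiff_subset_sdiff a.dP Subset.rfl
    have h2 : ∀ k ∈ a.P \ {h, a.ρ h}, k ∉ a.D \ {h, a.ρ h} →
        t.o k ∈ a.P \ {h, a.ρ h} ∧ t.o k ∉ a.D \ {h, a.ρ h} := fun k hk hk' =>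
      have := a.cl k (mem_sdiff.1 hk).1 (h0 k hk hk')
      ⟨mem_sdiff.2 ⟨this.1, fun e => this.2 (hsD e)⟩, fun e => this.2 (mem_sdiff.1 e).1⟩
    refine ⟨a.rt_cut hs _ h1 h2, rfl, rfl, a.rt_X hs h1 h2, hlt,
      fun k hk => ⟨(mem_sdiff.1 hk).1, h0 k hk⟩,
      Or.inr ⟨?_, h, hp, hD, hgD, (sdiff_union_of_subset hsub).symm⟩⟩
    have e1 := a.rt_PH hs hp h1 h2
    have e2 := card_sdiff_add_card_eq_card hsD
    have e3 : #(a.rt_cut hs _ h1 h2).D = #(a.D \ {h, a.ρ h}) := rfl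
    rw [card_pair (a.ρ_ne h).symm] at e2
    rw [w2_eq]
    omega
  · obtain ⟨c1, c2⟩ := a.cl _ hg hgD
    have c3 : t.o (a.ρ h) ∈ a.P \ {h, a.ρ h} := by
      refine mem_sdiff.2 ⟨c1, ?_⟩
      simp only [mem_insert, mem_singleton, not_or]
      exact ⟨fun e => c2 (by rw [e]; exact hD), t.o_ne _⟩
    have h0 : ∀ k ∈ a.P \ {h, a.ρ h}, k ∉ insert (t.o (a.ρ h)) (a.D.erase h) → k ∉ a.D :=
      fun k hk hk' e => hk' (mem_insert_of_mem (mem_erase.2
        ⟨fun e' => (mem_sdiff.1 hk).2 (e' ▸ mem_insert_self _ _), e⟩))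
    have h1 : insert (t.o (a.ρ h)) (a.D.erase h) ⊆ a.P \ {h, a.ρ h} := by
      refine insert_subset c3 fun k hk => mem_sdiff.2 ⟨a.dP (mem_erase.1 hk).2, ?_⟩
      simp only [mem_insert, mem_singleton, not_or]
      exact ⟨(mem_erase.1 hk).1, fun e => hgD (e ▸ (mem_erase.1 hk).2)⟩
    have h2 : ∀ k ∈ a.P \ {h, a.ρ h}, k ∉ insert (t.o (a.ρ h)) (a.D.erase h) →
        t.o k ∈ a.P \ {h, a.ρ h} ∧ t.o k ∉ insert (t.o (a.ρ h)) (a.D.erase h) := by
      intro k hk hk'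
      obtain ⟨d1, d2⟩ := a.cl k (mem_sdiff.1 hk).1 (h0 k hk hk')
      have d3 := (mem_sdiff.1 hk).2
      simp only [mem_insert, mem_singleton, not_or, mem_sdiff] at d3 hk' ⊢
      refine ⟨⟨d1, fun e => d2 (e ▸ hD), fun e => hk'.1 (by rw [← e, oo])⟩,
        fun e => d3.2 (by rw [← oo k, e, oo]), fun e => d2 (mem_erase.1 e).2⟩
    refine ⟨a.rt_cut hs _ h1 h2, rfl, rfl, a.rt_X hs h1 h2, hlt,
      fun k hk => ⟨(mem_sdiff.1 hk).1, h0 k hk⟩, Or.inl ⟨?_, _, c3⟩⟩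
    have e1 := a.rt_PH hs hp h1 h2
    have e2 := card_erase_add_one hD
    have e3 : #(a.rt_cut hs _ h1 h2).D = #(a.D.erase h) + 1 :=
      card_insert_of_notMem fun e => c2 (mem_erase.1 e).2
    rw [w2_eq]
    omega

/-- Plan: strong induction on `#a.P` with `trunc`; `Cl.lemU` for `⟨a, _⟩`. -/
theorem l1' (ok : OK t R) (na : NoAct t R) (h : a.P.Nonempty) : 6 ≤ a.w2 ∧ (a.w2 ≤ 7 →
    ∃ h ∈ a.PH, h ∈ a.D ∧ a.ρ h ∈ a.D ∧ a.P = {h, a.ρ h}) := by
  induction hn : #a.P using Nat.strong_induction_on generalizing a with | _ n ih => ?_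
  rcases a.trunc with h0 | ⟨b, -, -, -, hlt, -, ⟨e, hb⟩ | ⟨e, k, k1, k2, k3, k4⟩⟩
  · have : 8 ≤ a.w2 := Cl.lemU ⟨a, h0⟩ ok na h
    exact ⟨by omega, fun _ => by omega⟩
  · have := (ih _ (hn ▸ hlt) b hb rfl).1
    exact ⟨by omega, fun _ => by omega⟩
  · refine ⟨by omega, fun h7 => ⟨k, k1, k2, k3, ?_⟩⟩
    rcases b.P.eq_empty_or_nonempty with hb | hb
    · rw [k4, hb, empty_union]
    · have := (ih _ (hn ▸ hlt) b hb rfl).1
      omega

theorem l2 (ok : OK t R) (na : NoAct t R) (h : a.X.Nonempty) : 8 ≤ a.w2 := by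
  obtain ⟨v, hv⟩ := h
  have hp := a.P_of_X hv false
  by_contra hc
  obtain ⟨k, k1, -, -, e⟩ := (a.l1' ok na ⟨_, hp⟩).2 (by omega)
  rw [e, mem_insert, mem_singleton] at hp
  rcases hp with hp | hp
  · exact (a.mem_PH.1 k1).2 (hp ▸ hv)
  · exact (a.mem_PH.1 (a.ρ_PH k1)).2 (hp ▸ hv)

end Cl0

end Pool.Agent.MP_8c1b0d_co.RR

set_option autoImplicit false
set_option linter.unusedSectionVars false
open Finset

namespace Pool.Agent.MP_8c1b0d_co.RR
namespace PR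
variable {V Φ : Type} [Fintype V] [DecidableEq V] [Fintype Φ] [DecidableEq Φ] (p : PR V Φ)
  (na : NoAct p.t p.R) (a : Cl0 p.t p.R) {ε : V × Bool → Bool} (ho : a.Or ε)
include na ho

/-- an untruncated set as an `Ori` -/
def rt2_ori (hX : ∀ h ∈ a.D, h.1 ∉ a.A0 ∧ h.1 ∉ a.A1) : p.Ori :=
  { toCl := ⟨a, hX⟩, na := na, ε := ε, e0 := ho.e0, e1 := ho.e1, e2 := ho.e2 }

omit ho in
lemma rt2_tr (hX : a.X.Nonempty) : (∀ h ∈ a.D, h.1 ∉ a.A0 ∧ h.1 ∉ a.A1) ∨ 10 ≤ a.w2 := by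
  rcases a.trunc with h | ⟨b, -, -, e, -, -, h⟩
  · exact Or.inl h
  · have := b.l2 p.ok na (e ▸ hX)
    right; omega

/-- Plan: induction on `#a.P`; without truncation `Ori.pc`, `Ori.ts`; a truncation keeps the
orientation and gains 2. -/
theorem l3 (h6 : 6 ≤ #a.X) : 10 ≤ a.w2 ∧ (12 ≤ a.w2 ∨ a.Sp = p.Rᶜ) := by
  induction' e : #a.P using Nat.strong_induction_on with n ih generalizing a
  rcases a.trunc with h | ⟨b, e0, e1, eX, hl, hP, h⟩
  · by_cases k : a.Sp = p.Rᶜ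
    · exact ⟨(rt2_ori p na a ho h).pc k, Or.inr k⟩
    · have : 12 ≤ a.w2 := (rt2_ori p na a ho h).ts h6 k
      exact ⟨by omega, Or.inl this⟩
  · have := (ih _ (e ▸ hl) b ⟨e1 ▸ ho.e0, e0 ▸ ho.e1,
      fun h k k' => ho.e2 h (hP h k).1 ((hP h k).2 k')⟩ (eX ▸ h6) rfl).1
    exact ⟨by omega, Or.inl (by omega)⟩

/-- Plan: `trunc`; `Ori.b4` or `l2` for the truncated set. -/
theorem l4 (h4 : 4 ≤ #a.X) (h0 : a.U0.Nonempty) (hD : a.D.Nonempty) : 10 ≤ a.w2 := by
  rcases rt2_tr p na a (card_pos.1 (by omega)) with h | h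
  exacts [(rt2_ori p na a ho h).b4 h4 h0 hD, h]

theorem l5 (h4 : 4 ≤ #a.X) {u u' : V} (n : u ≠ u') (h1 : u ∈ a.U0) (h2 : u' ∈ a.U0)
    (h3 : p.t.m u ∈ p.R) (h5 : p.t.m u' ∈ p.R) : 10 ≤ a.w2 := by
  rcases rt2_tr p na a (card_pos.1 (by omega)) with h | h
  exacts [(rt2_ori p na a ho h).b5 h4 n h1 h2 h3 h5, h]

/-- Plan: `Ori.b6`; `X` is `m`-closed and disjoint from `U0`; in the third case `D = ∅` or the
bound is trivial. -/
theorem l6 (h4 : 4 ≤ #a.D + #a.U0)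
    (h : 4 ≤ #a.X ∨ (a.X.Nonempty ∧ a.U0.Nonempty) ∨ 4 ≤ #a.U0) : 10 ≤ a.w2 := by
  have hU : a.U0 ⊆ a.Sp := fun v hv => a.Sp_cases.2 (Or.inr (Or.inl hv))
  rcases h with h | ⟨hX, h0⟩ | h
  · rcases rt2_tr p na a (card_pos.1 (by omega)) with k | k
    exacts [(rt2_ori p na a ho k).b6 h4 (le_trans (by omega) (card_le_card a.X_Sp)), k]
  · rcases rt2_tr p na a hX with k | k
    · refine (rt2_ori p na a ho k).b6 h4 ?_
      obtain ⟨r, hr⟩ := p.t.even_card (S := a.X) fun _ => a.m_X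
      have c1 := card_pos.2 hX
      have c2 := card_pos.2 h0
      have c3 := card_union_of_disjoint (s := a.X) (t := a.U0)
        (disjoint_left.2 fun v hv hv' => (a.mem_X.1 hv).1 (a.mem_U0.1 hv').1)
      have c4 := card_le_card (union_subset a.X_Sp hU)
      change 3 ≤ #a.Sp
      omega
    · exact k
  · rcases a.D.eq_empty_or_nonempty with e | e
    · exact (rt2_ori p na a ho (by simp [e])).b6 h4 (le_trans (by omega) (card_le_card hU))
    · have := card_pos.2 e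
      unfold Cl0.w2
      omega

end PR
end Pool.Agent.MP_8c1b0d_co.RR

end

-- part MP_8c1b0d_co.RR.N
section

set_option autoImplicit false
set_option linter.unusedSectionVars false
open Finset

namespace Pool.Agent.MP_8c1b0d_co.RR

variable {V I W : Type} [Fintype V] [DecidableEq V] [Fintype I] [DecidableEq I] [Fintype W]
  [DecidableEq W] {mo : I → Bool} {t : Tri V} {R : Finset V}

/-- The two ports of an `m`-leg have different colours: `t.o (pt p) = (a i, (pt p).2)`, and `t.o`, `pt`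
are injective. -/
theorem Ports.col_ne (pp : Ports t R mo) {i : I} (h : mo i = true) :
    (pp.pt (i, true)).2 ≠ (pp.pt (i, false)).2 := by
  intro e
  obtain ⟨-, -, h3⟩ := pp.am i h
  have k : t.o (pp.pt (i, true)) = t.o (pp.pt (i, false)) :=
    Prod.ext ((h3 true).trans (h3 false).symm) e
  have k2 := congrArg t.o k
  rw [t.o_o, t.o_o] at k2
  simpa using pp.inj k2

/-- each half-edge at `a i` is the other half of a port of `i` -/
theorem Ports.o_a (pp : Ports t R mo) {i : I} (h : mo i = true) (c : Bool) :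
    ∃ c', t.o (pp.a i, c) = pp.pt (i, c') := by
  obtain ⟨-, -, h3⟩ := pp.am i h
  have n := pp.col_ne h
  have k : ∀ c', (pp.pt (i, c')).2 = c → t.o (pp.a i, c) = pp.pt (i, c') := by
    intro c' e
    have : (pp.a i, c) = t.o (pp.pt (i, c')) := Prod.ext (h3 c').symm e.symm
    rw [this, t.o_o]
  by_cases e : (pp.pt (i, true)).2 = c
  · exact ⟨true, k _ e⟩
  · refine ⟨false, k _ ?_⟩
    revert n e
    cases (pp.pt (i, true)).2 <;> cases (pp.pt (i, false)).2 <;> cases c <;> simp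

theorem Ports.a_inj (pp : Ports t R mo) {i j : I} (hi : mo i = true) (hj : mo j = true)
    (h : pp.a i = pp.a j) : i = j := by
  obtain ⟨c1, e1⟩ := pp.o_a hi true
  obtain ⟨c2, e2⟩ := pp.o_a hj true
  rw [h, e2] at e1
  exact (congrArg Prod.fst (pp.inj e1)).symm

theorem Ports.a_Q (pp : Ports t R mo) {i : I} (h : mo i = true) : pp.a i ∉ Q t R := by
  intro k
  exact (mem_Q.1 k).2 (pp.am i h).2.1

namespace MC
variable {pp : Ports t R mo} {g : Gad I W mo} {Y : Type} [Fintype Y] [DecidableEq Y]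
  (c : MC pp g Y)

/-- the part on the gadget -/
def pre : RD0 g Y := ⟨c.B0, c.B1, c.lh, c.DH, c.F, fun _ => 0, fun _ => 0, fun _ => True⟩
/-- also the ends of the `m`-legs count as split -/
def A0' : Finset V := {v | v ∈ c.A0 ∨ ¬ (v ∈ R ↔ t.m v ∈ R)}
/-- the half-edges labelled `y` and the absorbed ends -/
def P' (y : Y) : Finset (V × Bool) := {h | c.lab h = some y ∨ ∃ i ∈ c.pre.AL y, h.1 = pp.a i}
def D' (y : Y) : Finset (V × Bool) :=
  {h | c.lab h = some y ∧ (h ∈ c.D ∨ ∃ p ∈ c.pre.K y, pp.pt p = h)}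

lemma h2a_A0 {v : V} : v ∈ c.A0' ↔ v ∈ c.A0 ∨ ¬ (v ∈ R ↔ t.m v ∈ R) := by
  simp only [A0', mem_filter, mem_univ, true_and]
lemma h2a_P {y : Y} {h : V × Bool} :
    h ∈ c.P' y ↔ c.lab h = some y ∨ ∃ i ∈ c.pre.AL y, h.1 = pp.a i := by
  simp only [P', mem_filter, mem_univ, true_and]
lemma h2a_D {y : Y} {h : V × Bool} :
    h ∈ c.D' y ↔ c.lab h = some y ∧ (h ∈ c.D ∨ ∃ p ∈ c.pre.K y, pp.pt p = h) := by
  simp only [D', mem_filter, mem_univ, true_and]
lemma h2a_mo {y : Y} {i : I} (h : i ∈ c.pre.AL y) : mo i = true := by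
  simp only [RD0.AL, mem_filter, mem_univ, true_and] at h
  exact h.1

theorem m0' : ∀ v ∈ c.A0', t.m v ∈ c.A0' := by
  intro v hv
  rw [h2a_A0] at hv ⊢
  rcases hv with hv | hv
  · exact Or.inl (c.m0 v hv)
  · refine Or.inr fun k => hv ?_
    rw [t.mm] at k
    exact k.symm
theorem disj0 : Disjoint c.A0' c.A1 := by
  rw [Finset.disjoint_left]
  intro v hv h1
  rw [h2a_A0] at hv
  rcases hv with hv | hv
  · exact Finset.disjoint_left.1 c.disj hv h1
  · have := mem_Q.1 (c.q1 v h1)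
    exact hv (iff_of_false this.1 this.2)
theorem l0' (y : Y) : ∀ v ∉ c.A1, ((v, true) ∈ c.P' y ↔ (v, false) ∈ c.P' y) := by
  intro v hv
  rw [h2a_P, h2a_P, c.l0 v hv]
/-- if `v ∉ A0'` neither `v` nor `m v` is an `a i` -/
theorem l1' (y : Y) : ∀ v ∉ c.A0', ∀ k, ((t.m v, k) ∈ c.P' y ↔ (v, k) ∈ c.P' y) := by
  intro v hv k
  rw [h2a_A0, not_or, not_not] at hv
  rw [h2a_P, h2a_P, c.l1 v hv.1]
  refine or_congr Iff.rfl (iff_of_false ?_ ?_)
  · rintro ⟨i, hi, e⟩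
    obtain ⟨h1, h2, -⟩ := pp.am i (c.h2a_mo hi)
    rw [← e] at h1 h2
    rw [t.mm] at h2
    exact h1 (hv.2.1 h2)
  · rintro ⟨i, hi, e⟩
    obtain ⟨h1, h2, -⟩ := pp.am i (c.h2a_mo hi)
    rw [← e] at h1 h2
    exact h1 (hv.2.2 h2)
theorem dP' (y : Y) : c.D' y ⊆ c.P' y := by
  intro h hh
  rw [h2a_D] at hh
  rw [h2a_P]
  exact Or.inl hh.1
/-- Case `lab h = y`: if `(o h).1 ∈ Q` use `cl` (`o h` is not a port as `o (o h) = h` is at `Q`);
else `h = pt p` (`sur`), `p` is open, not in `K`, so absorbed, `(o h).1 = a i`, and `lab` is `none`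
off `Q`. Case `h.1 = a i`: `o_a`. -/
theorem cl' (y : Y) : ∀ h ∈ c.P' y, h ∉ c.D' y → t.o h ∈ c.P' y ∧ t.o h ∉ c.D' y := by
  intro h hP hD
  rw [h2a_P] at hP
  rw [h2a_D] at hD
  rw [h2a_P, h2a_D]
  rcases hP with hP | ⟨i, hi, e⟩
  · have hD' : ¬ (h ∈ c.D ∨ ∃ p ∈ c.pre.K y, pp.pt p = h) := fun k => hD ⟨hP, k⟩
    rw [not_or] at hD'
    have hq := c.lq h y hP
    by_cases k : (t.o h).1 ∈ Q t R
    · obtain ⟨k1, k2⟩ := c.cl h y hP hD'.1 k
      refine ⟨Or.inl k1, ?_⟩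
      rintro ⟨-, k3 | ⟨p, -, k3⟩⟩
      · exact k2 k3
      · have := (pp.mem p).2
        rw [k3, t.o_o] at this
        exact this hq
    · obtain ⟨p, rfl⟩ := pp.sur h hq k
      have op : c.pre.opn (.inl p) y := ⟨(c.pl p).trans hP, fun z => hD'.1 ((c.pd p).1 z)⟩
      have ab : c.pre.ab p.1 y := by
        by_contra z
        exact hD'.2 ⟨p, by simp only [RD0.K, mem_filter, mem_univ, true_and]; exact ⟨op, z⟩, rfl⟩
      refine ⟨Or.inr ⟨p.1, ?_, (pp.am p.1 ab.1).2.2 p.2⟩, fun z => k (c.lq _ y z.1)⟩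
      simp only [RD0.AL, mem_filter, mem_univ, true_and]
      exact ab
  · have ab : c.pre.ab i y := by
      simpa only [RD0.AL, mem_filter, mem_univ, true_and] using hi
    obtain ⟨c', e'⟩ := pp.o_a ab.1 h.2
    have e2 : t.o h = pp.pt (i, c') := by
      rw [← e', ← e]
    obtain ⟨o1, o2⟩ := ab.2.1 c'
    rw [e2]
    refine ⟨Or.inl ((c.pl _).symm.trans o1), ?_⟩
    rintro ⟨-, k3 | ⟨p, hp, k3⟩⟩
    · exact o2 ((c.pd _).2 k3)
    · have := pp.inj k3
      subst this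
      simp only [RD0.K, mem_filter, mem_univ, true_and] at hp
      exact hp.2 ab
theorem free' (y : Y) : ∀ h ∈ c.P' y, h.1 ∉ R := by
  intro h hP
  rw [h2a_P] at hP
  rcases hP with hP | ⟨i, hi, e⟩
  · exact (mem_Q.1 (c.lq h y hP)).1
  · rw [e]
    exact (pp.am i (c.h2a_mo hi)).1
theorem hexa' (y : Y) : ∀ v k, t.Alt v k → Disjoint (t.hex v k) R → ∃ u ∈ t.hex v k, ∃ c',
    t.Alt u c' ∧ ∀ w ∈ t.hex u c', w ∉ c.A0' ∧ w ∉ c.A1 ∧
      ((w, false) ∈ c.P' y ↔ (u, false) ∈ c.P' y) := by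
  intro v k hv hd
  obtain ⟨u, hu, c', ha, hw⟩ := c.hexa v k hv hd
  refine ⟨u, hu, c', ha, fun w hw' => ?_⟩
  obtain ⟨q, n0, n1, e⟩ := hw w hw'
  have qu : u ∈ Q t R := (hw u (by simp [Tri.hex])).1
  refine ⟨?_, n1, ?_⟩
  · rw [h2a_A0, not_or, not_not]
    exact ⟨n0, iff_of_false (mem_Q.1 q).1 (mem_Q.1 q).2⟩
  · rw [h2a_P, h2a_P, e]
    refine or_congr Iff.rfl (iff_of_false ?_ ?_)
    · rintro ⟨i, hi, e⟩
      exact pp.a_Q (c.h2a_mo hi) (e ▸ q)
    · rintro ⟨i, hi, e⟩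
      exact pp.a_Q (c.h2a_mo hi) (e ▸ qu)

/-- the real closed set of a label -/
def cl0 (y : Y) : Cl0 t R :=
  ⟨c.A0', c.A1, c.P' y, c.D' y, c.m0', c.m1, c.disj0, c.l0' y, c.l1' y, c.dP' y, c.cl' y,
    c.free' y, c.hexa' y⟩

/-- the certificate near the root -/
def rd0 : RD0 g Y := ⟨c.B0, c.B1, c.lh, c.DH, c.F, fun y => (c.cl0 y).w2, fun y => #(c.cl0 y).X,
  fun y => (c.cl0 y).P.Nonempty⟩

theorem X_eq (y : Y) :
    (c.cl0 y).X = {v | v ∉ c.A0 ∧ v ∉ c.A1 ∧ c.lab (v, false) = some y} := by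
  ext v
  simp only [Cl0.X, cl0, mem_coe, Set.mem_ofPred_eq, mem_filter, mem_univ, true_and]
  rw [h2a_A0, h2a_P, not_or, not_not]
  constructor
  · rintro ⟨⟨h0, h1⟩, h2, h3 | ⟨i, hi, e⟩⟩
    · exact ⟨h0, h2, h3⟩
    · obtain ⟨k1, k2, -⟩ := pp.am i (c.h2a_mo hi)
      rw [← e] at k1 k2
      exact absurd (h1.2 k2) k1
  · rintro ⟨h0, h1, h2⟩
    have q := mem_Q.1 (c.lq _ y h2)
    exact ⟨⟨h0, iff_of_false q.1 q.2⟩, h1, Or.inl h2⟩
/-- the same as an equality of finite sets -/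
lemma h2a_X_eq (y : Y) : (c.cl0 y).X =
    ({v | v ∉ c.A0 ∧ v ∉ c.A1 ∧ c.lab (v, false) = some y} : Finset V) := by
  ext v
  have := Set.ext_iff.1 (c.X_eq y) v
  simpa only [mem_coe, Set.mem_ofPred_eq, mem_filter, mem_univ, true_and] using this
theorem U0_eq (y : Y) : (c.cl0 y).U0 =
    {v ∈ c.A0 | c.lab (v, false) = some y} ∪ (c.pre.AL y).image pp.a := by
  ext v
  simp only [Cl0.U0, cl0, mem_filter, mem_union, mem_image]
  rw [h2a_A0, h2a_P]
  constructor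
  · rintro ⟨h0, h3 | ⟨i, hi, e⟩⟩
    · have q := mem_Q.1 (c.lq _ y h3)
      exact Or.inl ⟨h0.resolve_right fun k => k (iff_of_false q.1 q.2), h3⟩
    · exact Or.inr ⟨i, hi, e.symm⟩
  · rintro (⟨h0, h1⟩ | ⟨i, hi, e⟩)
    · exact ⟨Or.inl h0, Or.inl h1⟩
    · obtain ⟨k1, k2, -⟩ := pp.am i (c.h2a_mo hi)
      rw [e] at k1 k2
      exact ⟨Or.inr fun k => k1 (k.2 k2), Or.inr ⟨i, hi, e.symm⟩⟩

end MC
end Pool.Agent.MP_8c1b0d_co.RR

set_option autoImplicit false
set_option linter.unusedSectionVars false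
open Finset

namespace Pool.Agent.MP_8c1b0d_co.RR

variable {V I W : Type} [Fintype V] [DecidableEq V] [Fintype I] [DecidableEq I] [Fintype W]
  [DecidableEq W] {mo : I → Bool} {t : Tri V} {R : Finset V}

theorem h2b_sum {α Y : Type} [Fintype Y] [DecidableEq Y] (S : Finset α) (l : α → Option Y) :
    ∑ y, #{h ∈ S | l h = some y} ≤ #S := by
  simp only [card_filter]
  rw [sum_comm, card_eq_sum_ones]
  refine sum_le_sum fun h _ => ?_
  cases l h <;> simp only [reduceCtorEq, ↓ reduceIte, sum_const_zero, zero_le, Option.some.injEq, sum_ite_eq, mem_univ, Std.le_refl]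

theorem h2b_prod {α : Type} [Fintype α] (p : α × Bool → Prop) [DecidablePred p] :
    ∑ u, #{c | p (u, c)} = #{η | p η} := by
  simp only [card_filter]
  rw [Fintype.sum_prod_type]

namespace MC
variable {pp : Ports t R mo} {g : Gad I W mo} {Y : Type} [Fintype Y] [DecidableEq Y]
  (c : MC pp g Y)

/-! `c.rd0.K y`, `AL`, `J`, `cU` are definitionally those of `c.pre`. -/

theorem card_D (y : Y) : #(c.cl0 y).D = #{h ∈ c.D | c.lab h = some y} + #(c.pre.K y) := by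
  have hK : ∀ p ∈ c.pre.K y, c.lab (pp.pt p) = some y ∧ pp.pt p ∉ c.D := fun p hp => by
    obtain ⟨a, b⟩ := (mem_filter.1 hp).2.1
    exact ⟨c.pl p ▸ a, fun h => b ((c.pd p).2 h)⟩
  rw [← card_image_of_injective _ pp.inj, ← card_union_of_disjoint]
  · congr 1
    ext h
    simp only [cl0, D', mem_filter, mem_univ, true_and, mem_union, mem_image]
    constructor
    · rintro ⟨a, b | b⟩
      exacts [Or.inl ⟨b, a⟩, Or.inr b]
    · rintro (⟨a, b⟩ | ⟨p, hp, rfl⟩)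
      exacts [⟨b, Or.inl a⟩, ⟨(hK p hp).1, Or.inr ⟨p, hp, rfl⟩⟩]
  · refine disjoint_right.2 fun h h1 h2 => ?_
    obtain ⟨p, hp, rfl⟩ := mem_image.1 h1
    exact (hK p hp).2 (mem_filter.1 h2).1
theorem h2b_mo {y : Y} {i : I} (h : i ∈ c.pre.AL y) : mo i = true := (mem_filter.1 h).2.1
theorem card_U0 (y : Y) :
    #(c.cl0 y).U0 = #{v ∈ c.A0 | c.lab (v, false) = some y} + #(c.pre.AL y) := by
  rw [U0_eq, card_union_of_disjoint, card_image_of_injOn
    fun i hi j hj => pp.a_inj (c.h2b_mo hi) (c.h2b_mo hj)]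
  refine disjoint_right.2 fun v h1 h2 => ?_
  obtain ⟨i, hi, rfl⟩ := mem_image.1 h1
  exact pp.a_Q (c.h2b_mo hi) (c.q0 _ (mem_filter.1 h2).1)
/-- `U1 ⊆ A1` by `l0`; `A1 ⊆ Q` contains no `a i`; count the half-edges vertex by vertex. -/
theorem card_U12 (y : Y) : #(c.cl0 y).U1 + 2 * #(c.cl0 y).U2 =
    #{h : V × Bool | h.1 ∈ c.A1 ∧ c.lab h = some y} := by
  have hP : ∀ v ∈ c.A1, ∀ k, (v, k) ∈ c.P' y ↔ c.lab (v, k) = some y := fun v hv k => by
    simp only [P', mem_filter, mem_univ, true_and]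
    refine or_iff_left ?_
    rintro ⟨i, hi, e⟩
    exact pp.a_Q (c.h2b_mo hi) (e ▸ c.q1 v hv)
  have e2 : (c.cl0 y).U2 =
      univ.filter fun v => v ∈ c.A1 ∧ (v, false) ∈ c.P' y ∧ (v, true) ∈ c.P' y := by
    ext v
    simp only [Cl0.U2, cl0, mem_filter, mem_univ, true_and]
  have e1 : (c.cl0 y).U1 = univ.filter fun v => ¬ ((v, false) ∈ c.P' y ↔ (v, true) ∈ c.P' y) := rfl
  rw [e1, e2, ← h2b_prod, card_filter, card_filter, mul_sum, ← sum_add_distrib]
  refine sum_congr rfl fun v _ => ?_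
  rw [card_filter, Fintype.sum_bool]
  by_cases hv : v ∈ c.A1
  · simp only [hP v hv, hv, true_and]
    by_cases a : c.lab (v, false) = some y <;> by_cases b : c.lab (v, true) = some y <;>
      simp [a, b]
  · simp [hv, c.l0' y v hv]
theorem h2b_w (y : Y) : c.rd0.w y = 2 * (#{h ∈ c.D | c.lab h = some y} + #(c.rd0.K y)) +
    2 * (#{v ∈ c.A0 | c.lab (v, false) = some y} + #(c.rd0.AL y)) +
    #{h : V × Bool | h.1 ∈ c.A1 ∧ c.lab h = some y} := by
  have a1 := c.card_D y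
  have a2 := c.card_U0 y
  have a3 := c.card_U12 y
  change (c.cl0 y).w2 = 2 * (_ + #(c.pre.K y)) + 2 * (_ + #(c.pre.AL y)) + _
  unfold Cl0.w2
  omega
theorem b0 (y : Y) : 2 * #(c.rd0.K y) + 2 * #(c.rd0.AL y) ≤ c.rd0.w y := by
  rw [h2b_w]
  omega
/-- `X` is closed under `m` (`Tri.even_card`). -/
theorem ev (y : Y) : Even (c.rd0.x y) :=
  t.even_card (S := (c.cl0 y).X) fun _ => (c.cl0 y).m_X
theorem big' : ∀ y ∈ c.F, 6 ≤ c.rd0.x y + #(c.rd0.J y) := fun y hy => by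
  have e : (c.cl0 y).X =
      univ.filter fun v => v ∉ c.A0 ∧ v ∉ c.A1 ∧ c.lab (v, false) = some y := by
    ext v
    have := Set.ext_iff.1 (c.X_eq y) v
    simpa only [mem_filter, mem_univ, true_and, SetLike.mem_coe, Set.mem_ofPred_eq] using this
  have := c.big y hy
  rwa [← e] at this
/-- Each element has one label: `∑ y, #{h ∈ S | lab h = some y} ≤ #S`. Use it for `D`, `A0`,
`A1 ×ˢ univ`, the `η` with `inr η ∈ DH`, and `(B0 ∪ B1) ×ˢ univ`; then twice `cnt`. -/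
theorem cnt' : 12 + ∑ y, (c.rd0.w y + ∑ u, c.rd0.cU u y) ≤
    ∑ y, (8 + c.rd0.fl y + 2 * #(c.rd0.K y) + 2 * #(c.rd0.AL y)) := by
  have hU : ∀ y, ∑ u, c.rd0.cU u y =
      2 * #{η ∈ ({η | .inr η ∈ c.DH} : Finset (W × Bool)) | c.lh (.inr η) = some y} +
        #{η ∈ (c.B0 ∪ c.B1) ×ˢ (univ : Finset Bool) | c.lh (.inr η) = some y} := fun y => by
    have a1 := h2b_prod fun η : W × Bool => c.lh (.inr η) = some y ∧ .inr η ∈ c.DH
    have a2 := h2b_prod fun η : W × Bool => c.lh (.inr η) = some y ∧ (η.1 ∈ c.B0 ∨ η.1 ∈ c.B1)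
    simp only [RD0.cU, RD0.dA, rd0]
    rw [sum_add_distrib, ← mul_sum, a1, a2]
    congr 2
    · congr 1
      ext η
      simp only [and_comm, mem_filter, mem_univ, true_and]
    · ext η
      simp only [and_comm, mem_filter, mem_univ, true_and, Fintype.univ_bool, union_product, mem_union, mem_product, mem_insert, mem_singleton, Bool.eq_true_or_eq_false_self]
  have h1 : ∀ y, #{h : V × Bool | h.1 ∈ c.A1 ∧ c.lab h = some y} =
      #{h ∈ c.A1 ×ˢ (univ : Finset Bool) | c.lab h = some y} := fun y => by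
    congr 1
    ext h
    simp only [mem_filter, mem_univ, true_and, Fintype.univ_bool, mem_product, mem_insert, mem_singleton, Bool.eq_true_or_eq_false_self, and_true]
  have hF : ∑ y, c.rd0.fl y = 4 * #c.F := by
    change ∑ y, (if y ∈ c.F then 4 else 0) = _
    rw [sum_ite_mem, univ_inter, sum_const, smul_eq_mul, mul_comm]
  have s1 := h2b_sum c.D c.lab
  have s2 := h2b_sum c.A0 fun v => c.lab (v, false)
  have s3 := h2b_sum (c.A1 ×ˢ (univ : Finset Bool)) c.lab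
  have s4 := h2b_sum ({η | .inr η ∈ c.DH} : Finset (W × Bool)) fun η => c.lh (.inr η)
  have s5 := h2b_sum ((c.B0 ∪ c.B1) ×ˢ (univ : Finset Bool)) fun η => c.lh (.inr η)
  have s6 := card_union_le c.B0 c.B1
  have s7 := c.cnt
  rw [card_product, card_univ, Fintype.card_bool] at s3 s5
  simp only [h2b_w, hU, h1, mul_add, sum_add_distrib, ← mul_sum, hF, sum_const, card_univ,
    smul_eq_mul]
  omega

end MC
end Pool.Agent.MP_8c1b0d_co.RR

set_option autoImplicit false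
set_option linter.unusedSectionVars false
open Finset

namespace Pool.Agent.MP_8c1b0d_co.RR

variable {V Φ I W : Type} [Fintype V] [DecidableEq V] [Fintype Φ] [DecidableEq Φ] [Fintype I]
  [DecidableEq I] [Fintype W] [DecidableEq W] {mo : I → Bool} {p : PR V Φ}
namespace MC
variable {pp : Ports p.t p.R mo} {g : Gad I W mo} {Y : Type} [Fintype Y] [DecidableEq Y]
  (c : MC pp g Y)

lemma h2c_ab {y : Y} {i : I} (h : i ∈ c.pre.AL y) : mo i = true ∧
    (∀ k, c.lh (.inl (i, k)) = some y ∧ .inl (i, k) ∉ c.DH) ∧ ∀ u ∈ c.B1, g.hd i ≠ some u :=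
  (mem_filter.1 h).2

lemma h2c_P {y : Y} {h : V × Bool} :
    h ∈ (c.cl0 y).P ↔ c.lab h = some y ∨ ∃ i ∈ c.pre.AL y, h.1 = pp.a i := by
  change h ∈ c.P' y ↔ _
  simp only [P', mem_filter, mem_univ, true_and]

lemma h2c_D {y : Y} {h : V × Bool} :
    h ∈ (c.cl0 y).D ↔ c.lab h = some y ∧ (h ∈ c.D ∨ ∃ q ∈ c.pre.K y, pp.pt q = h) := by
  change h ∈ c.D' y ↔ _
  simp only [D', mem_filter, mem_univ, true_and]

lemma h2c_key {y : Y} {i : I} (h : i ∈ c.pre.AL y) {d : V × Bool → Bool} {dh : HH I W → Bool}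
    (h4 : ∀ q, dh (.inl q) = d (pp.pt q))
    (h5 : ∀ u ∉ c.B1, dh (.inr (u, true)) ≠ dh (.inr (u, false)))
    (h6 : ∀ x, c.lh x = some y → x ∉ c.DH → dh (g.o x) ≠ dh x) (k : Bool) :
    (!(d (p.t.o (pp.a i, false)))) ≠ xor (d (pp.pt (i, k))) (pp.pt (i, k)).2 := by
  obtain ⟨hm, ho, hu⟩ := c.h2c_ab h
  have e1 : d (pp.pt (i, true)) ≠ d (pp.pt (i, false)) := by
    rw [← h4, ← h4]
    have a0 := h6 _ (ho false).1 (ho false).2
    have a1 := h6 _ (ho true).1 (ho true).2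
    rcases e : g.hd i with - | u
    · rw [g.dead i false hm e] at a0
      exact a0
    · rw [(g.live i u e).2] at a0 a1
      have a2 := h5 u fun k => hu u k e
      revert a0 a1 a2
      generalize dh (.inr (u, true)) = b1
      generalize dh (.inr (u, false)) = b2
      generalize dh (.inl (i, true)) = b3
      generalize dh (.inl (i, false)) = b4
      revert b1 b2 b3 b4
      decide
  have e2 := pp.col_ne hm
  obtain ⟨c', e3⟩ := pp.o_a hm false
  have e4 : (pp.pt (i, c')).2 = false := by rw [← e3]; rfl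
  rw [e3]
  cases c' <;> cases k <;> revert e1 e2 e4 <;>
    generalize d (pp.pt (i, true)) = b1 <;> generalize d (pp.pt (i, false)) = b2 <;>
    generalize (pp.pt (i, true)).2 = b3 <;> generalize (pp.pt (i, false)).2 = b4 <;>
    revert b1 b2 b3 b4 <;> decide

/-- With `d, dh` from `ori` put `ε (v,k) = xor (d (v,k)) k` on `Q`; `[e v < e (m v)]` for
`e = Fintype.equivFin V` if `v ∈ R`; else `!(d (t.o (v,false)))`. At an absorbed leg
`dh (inl (i,true)) ≠ dh (inl (i,false))` (dead: `g.dead`; `hd i = some u`: `g.live`, `u ∉ B1`), and the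
two ports have different colours (`col_ne`), so `ε` agrees on them. `t.o` keeps the colour. -/
theorem or' {y : Y} (hy : y ∈ c.F) : ∃ ε, (c.cl0 y).Or ε := by
  obtain ⟨d, dh, h1, h2, h3, h4, h5, h6⟩ := c.ori y hy
  have key := fun i (h : i ∈ c.pre.AL y) => c.h2c_key h h4 h5 h6
  have hx : ∀ a b k : Bool, a ≠ b → xor a k ≠ xor b k := by decide
  refine ⟨fun h => if h.1 ∈ Q p.t p.R then xor (d h) h.2 else if h.1 ∈ p.R then
    decide (Fintype.equivFin V h.1 < Fintype.equivFin V (p.t.m h.1))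
    else !(d (p.t.o (h.1, false))), fun v hv => ?_, fun v hv k => ?_, fun h hP hD => ?_⟩
  · by_cases q : v ∈ Q p.t p.R
    · have := h1 v q hv
      simp only [q, if_true]
      revert this
      generalize d (v, true) = b1
      generalize d (v, false) = b2
      revert b1 b2
      decide
    · simp only [q, if_false]
  · have hv' : v ∉ c.A0 ∧ (v ∈ p.R ↔ p.t.m v ∈ p.R) := by
      change v ∉ c.A0' at hv
      simp only [A0', mem_filter, mem_univ, true_and, not_or, not_not] at hv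
      exact hv
    by_cases r : v ∈ p.R
    · have r' := hv'.2.1 r
      have q : v ∉ Q p.t p.R := fun q => (mem_Q.1 q).1 r
      have q' : p.t.m v ∉ Q p.t p.R := fun q => (mem_Q.1 q).1 r'
      simp only [q, q', r, r', if_true, if_false, p.t.mm]
      have n : Fintype.equivFin V (p.t.m v) ≠ Fintype.equivFin V v :=
        fun e => p.t.m_ne v ((Fintype.equivFin V).injective e)
      rcases lt_or_gt_of_ne n with l | l
      · simp [l, not_lt_of_gt l]
      · simp [l, not_lt_of_gt l]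
    · have q : v ∈ Q p.t p.R := mem_Q.2 ⟨r, fun e => r (hv'.2.2 e)⟩
      simp only [q, Q_m q, if_true]
      exact hx _ _ _ (h2 v q hv'.1 k)
  · rw [c.h2c_D] at hD
    rcases c.h2c_P.1 hP with hl | ⟨i, hi, e⟩
    · have q := c.lq h y hl
      have hD' : h ∉ c.D := fun e => hD ⟨hl, Or.inl e⟩
      by_cases q' : (p.t.o h).1 ∈ Q p.t p.R
      · simp only [q, q', if_true]
        exact hx _ _ _ (h3 h hl hD' q')
      · obtain ⟨⟨i, k⟩, rfl⟩ := pp.sur h q q'
        have hi : i ∈ c.pre.AL y := by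
          by_contra n
          refine hD ⟨hl, Or.inr ⟨(i, k), mem_filter.2 ⟨mem_univ _, ⟨?_, ?_⟩, fun e => n ?_⟩, rfl⟩⟩
          · exact (c.pl _).trans hl
          · exact fun e => hD' ((c.pd _).1 e)
          · exact mem_filter.2 ⟨mem_univ _, e⟩
        have am := pp.am i (c.h2c_ab hi).1
        have q2 := pp.a_Q (c.h2c_ab hi).1
        simp only [q, am.2.2 k, q2, am.1, if_true, if_false]
        exact key i hi k
    · obtain ⟨v, k⟩ := h
      obtain rfl : v = pp.a i := e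
      have hm := (c.h2c_ab hi).1
      obtain ⟨c', e3⟩ := pp.o_a hm k
      have q2 := pp.a_Q hm
      simp only [e3, (pp.mem (i, c')).1, q2, (pp.am i hm).1, if_true, if_false]
      exact (key i hi c').symm

variable (na : NoAct p.t p.R)
include na

theorem b2 (y : Y) (h : 0 < c.rd0.x y) : 8 ≤ c.rd0.w y :=
  (c.cl0 y).l2 p.ok na (card_pos.1 h)
/-- `l3`; if `Sp = Rᶜ` then `a i ∈ Sp` is absorbed (`a_Q`, `a_inj`), and an unsplit vertex labelled
`y'` lies in `Sp`, so `y' = y`. -/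
theorem b3 : ∀ y ∈ c.F, 6 ≤ c.rd0.x y → 10 ≤ c.rd0.w y ∧ (12 ≤ c.rd0.w y ∨ c.rd0.full y) := by
  intro y hy h6
  obtain ⟨ε, ho⟩ := c.or' hy
  have h := p.l3 na (c.cl0 y) ho h6
  refine ⟨h.1, h.2.imp id fun e => ⟨fun i hi => ?_, fun y' n => ?_⟩⟩
  · have : pp.a i ∈ (c.cl0 y).Sp := e ▸ mem_compl.2 (pp.am i hi).1
    obtain ⟨k, hk⟩ := (c.cl0 y).mem_Sp.1 this
    rcases c.h2c_P.1 hk with hl | ⟨j, hj, e'⟩
    · exact absurd (c.lq _ y hl) (pp.a_Q hi)
    · obtain rfl := pp.a_inj hi (c.h2c_ab hj).1 e'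
      exact (mem_filter.1 hj).2
  · refine card_eq_zero.2 (eq_empty_of_forall_notMem fun v hv => n ?_)
    have hv' : v ∈ ((c.cl0 y').X : Set V) := hv
    rw [c.X_eq] at hv'
    obtain ⟨-, v1, v2⟩ := hv'
    have q : v ∈ Q p.t p.R := c.lq _ _ v2
    have : v ∈ (c.cl0 y).Sp := e ▸ mem_compl.2 (mem_Q.1 q).1
    obtain ⟨k, hk⟩ := (c.cl0 y).mem_Sp.1 this
    rcases c.h2c_P.1 hk with hl | ⟨j, hj, e'⟩
    · have : c.lab (v, k) = c.lab (v, false) := by
        cases k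
        exacts [rfl, c.l0 v v1]
      exact Option.some.inj (v2.symm.trans (this.symm.trans hl))
    · exact absurd (e' ▸ q) (pp.a_Q (c.h2c_ab hj).1)
/-- `l4` -/
theorem b4 : ∀ y ∈ c.F, 4 ≤ c.rd0.x y → (c.rd0.AL y).Nonempty → (c.rd0.K y).Nonempty →
    10 ≤ c.rd0.w y := by
  intro y hy h4 h0 hK
  obtain ⟨ε, ho⟩ := c.or' hy
  have a0 : 0 < #(c.pre.AL y) := card_pos.2 h0
  have aK : 0 < #(c.pre.K y) := card_pos.2 hK
  have e0 := c.card_U0 y
  have eD := c.card_D y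
  exact p.l4 na (c.cl0 y) ho h4 (card_pos.1 (by omega)) (card_pos.1 (by omega))
/-- `l5` -/
theorem b5 : ∀ y ∈ c.F, 4 ≤ c.rd0.x y → 2 ≤ #(c.rd0.AL y) → 10 ≤ c.rd0.w y := by
  intro y hy h4 h2
  obtain ⟨ε, ho⟩ := c.or' hy
  obtain ⟨i, hi, j, hj, n⟩ := one_lt_card.1 (show 1 < #(c.pre.AL y) from h2)
  have mi := (c.h2c_ab hi).1
  have mj := (c.h2c_ab hj).1
  have hU : ∀ l ∈ c.pre.AL y, pp.a l ∈ (c.cl0 y).U0 := fun l hl => by
    rw [c.U0_eq]
    exact mem_union_right _ (mem_image_of_mem _ hl)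
  exact p.l5 na (c.cl0 y) ho h4 (fun e => n (pp.a_inj mi mj e)) (hU i hi) (hU j hj)
    (pp.am i mi).2.1 (pp.am j mj).2.1
/-- `l6`, `card_D`, `card_U0` -/
theorem b6 : ∀ y ∈ c.F, 4 ≤ #(c.rd0.K y) + #(c.rd0.AL y) →
    (4 ≤ c.rd0.x y ∨ (0 < c.rd0.x y ∧ (c.rd0.AL y).Nonempty) ∨ 4 ≤ #(c.rd0.AL y)) →
    10 ≤ c.rd0.w y := by
  intro y hy h4 h
  obtain ⟨ε, ho⟩ := c.or' hy
  have e0 := c.card_U0 y
  have eD := c.card_D y
  change 4 ≤ #(c.pre.K y) + #(c.pre.AL y) at h4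
  refine p.l6 na (c.cl0 y) ho (by omega) ?_
  rcases h with h | ⟨h, h'⟩ | h
  · exact Or.inl h
  · have a0 : 0 < #(c.pre.AL y) := card_pos.2 h'
    exact Or.inr (Or.inl ⟨card_pos.1 h, card_pos.1 (by omega)⟩)
  · change 4 ≤ #(c.pre.AL y) at h
    exact Or.inr (Or.inr (by omega))

end MC
end Pool.Agent.MP_8c1b0d_co.RR

set_option autoImplicit false
set_option linter.unusedSectionVars false
open Finset

namespace Pool.Agent.MP_8c1b0d_co.RR

variable {V Φ I W : Type} [Fintype V] [DecidableEq V] [Fintype Φ] [DecidableEq Φ] [Fintype I]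
  [DecidableEq I] [Fintype W] [DecidableEq W] {mo : I → Bool} {p : PR V Φ}
namespace MC
variable {pp : Ports p.t p.R mo} {g : Gad I W mo} {Y : Type} [Fintype Y] [DecidableEq Y]
  (c : MC pp g Y)

theorem h2d_lab {y : Y} {r : I × Bool} (hr : r ∈ c.pre.K y) : c.lab (pp.pt r) = some y :=
  (c.pl r).symm.trans (mem_filter.1 hr).2.1.1

theorem h2d_mem {y : Y} {r : I × Bool} (hr : r ∈ c.pre.K y) : pp.pt r ∈ c.P' y :=
  mem_filter.2 ⟨mem_univ _, .inl (c.h2d_lab hr)⟩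

theorem h2d_X {y : Y} {v : V} :
    v ∈ (c.cl0 y).X ↔ v ∉ c.A0 ∧ v ∉ c.A1 ∧ c.lab (v, false) = some y := by
  rw [Cl0.mem_X]
  constructor
  · rintro ⟨h0, h1, h2⟩
    refine ⟨fun e => h0 (mem_filter.2 ⟨mem_univ _, .inl e⟩), h1, ?_⟩
    refine (mem_filter.1 h2).2.resolve_right ?_
    rintro ⟨i, hi, e⟩
    obtain ⟨a1, a2, -⟩ := pp.am i (mem_filter.1 hi).2.1
    rw [← show v = pp.a i from e] at a1 a2
    exact h0 (mem_filter.2 ⟨mem_univ _, .inr fun z => a1 (z.2 a2)⟩)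
  · rintro ⟨h0, h1, h2⟩
    have hq := mem_Q.1 (c.lq _ _ h2)
    exact ⟨fun e => (mem_filter.1 e).2.elim h0 fun e => e (iff_of_false hq.1 hq.2), h1,
      mem_filter.2 ⟨mem_univ _, .inl h2⟩⟩

variable (na : NoAct p.t p.R)
include na

/-- `l1'` gives `P = {h, ρ h}` with both in `D'`, both at split vertices, so not in `D` (`dX`): they
are ports `pt q`, `pt q'` in `K`. -/
theorem strand {y : Y} (h : (c.cl0 y).P.Nonempty) (h7 : (c.cl0 y).w2 ≤ 7) :
    ∃ q q', c.pre.K y = {q, q'} ∧ c.P' y = {pp.pt q, pp.pt q'} ∧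
      (((pp.pt q).1 ∈ c.A0 ∧ pp.pt q' = ((pp.pt q).1, !(pp.pt q).2)) ∨
       ((pp.pt q).1 ∈ c.A1 ∧ pp.pt q' = (p.t.m (pp.pt q).1, (pp.pt q).2))) := by
  obtain ⟨k, k1, k2, k3, k4⟩ := ((c.cl0 y).l1' p.ok na h).2 h7
  have key : ∀ z ∈ (c.cl0 y).PH, z ∈ c.D' y →
      (z.1 ∈ c.A0 ∨ z.1 ∈ c.A1) ∧ ∃ q ∈ c.pre.K y, pp.pt q = z := by
    rintro ⟨v, b⟩ z1 z2
    obtain ⟨e1, e2⟩ := (mem_filter.1 z2).2
    have e3 : v ∈ c.A0 ∨ v ∈ c.A1 := by
      by_contra hn
      rw [not_or] at hn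
      refine ((c.cl0 y).mem_PH.1 z1).2 (c.h2d_X.2 ⟨hn.1, hn.2, ?_⟩)
      cases b
      exacts [e1, (c.l0 v hn.2).symm.trans e1]
    refine ⟨e3, e2.resolve_left fun e => ?_⟩
    exact e3.elim (c.dX _ e).2.1 (c.dX _ e).2.2
  obtain ⟨a1, q, a2, rfl⟩ := key k k1 k2
  obtain ⟨-, q', b2, b3⟩ := key _ ((c.cl0 y).ρ_PH k1) k3
  have hP : c.P' y = {pp.pt q, pp.pt q'} := by rw [b3]; exact k4
  refine ⟨q, q', ?_, hP, ?_⟩
  · refine Subset.antisymm (fun r hr => ?_) (insert_subset a2 (singleton_subset_iff.2 b2))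
    have := c.h2d_mem hr
    rw [hP, mem_insert, mem_singleton] at this
    rw [mem_insert, mem_singleton]
    exact this.imp (fun e => pp.inj e) fun e => pp.inj e
  · rw [b3, Cl0.ρ]
    by_cases h0 : (pp.pt q).1 ∈ c.A0
    · exact .inl ⟨h0, if_pos (mem_filter.2 ⟨mem_univ _, .inl h0⟩)⟩
    · refine .inr ⟨a1.resolve_left h0, if_neg fun e => ?_⟩
      have hq := mem_Q.1 (pp.mem q).1
      exact (mem_filter.1 e).2.elim h0 fun e => e (iff_of_false hq.1 hq.2)

/-- Both ports at colour legs: `OK.leg_one` or `OK.leg_adj`. Same `m`-leg: `col k v = col (!k) v` or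
`col k v = col k (m v)`. -/
theorem b1 (y : Y) (h : c.rd0.ne y) : 6 ≤ c.rd0.w y ∧ (c.rd0.w y ≤ 7 → c.rd0.tiny y) := by
  refine ⟨((c.cl0 y).l1' p.ok na h).1, fun h7 => ?_⟩
  obtain ⟨q, q', hK, hP, hs⟩ := c.strand na h h7
  have hq := mem_Q.1 (pp.mem q).1
  have hm : mo q.1 = true ∨ mo q'.1 = true := by
    by_contra hn
    rw [not_or, Bool.not_eq_true, Bool.not_eq_true] at hn
    have a1 := pp.cl _ hn.1 q.2
    have a2 := pp.cl _ hn.2 q'.2
    rw [Prod.mk.eta] at a1 a2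
    rcases hs with ⟨-, e⟩ | ⟨-, e⟩ <;> rw [e] at a2
    · have := p.ok.leg_one (k := some (pp.pt q).2) (k' := some !(pp.pt q).2) hq.1 a1 a2
      simp at this
    · exact p.ok.leg_adj (j := none) (k := some (pp.pt q).2) (k' := some (pp.pt q).2) hq.1 hq.2
        a1 a2
  refine ⟨q, q', fun e => ?_, hm, hK, ?_, ?_⟩
  · have hi : mo q.1 = true := hm.elim id fun z => e ▸ z
    have a1 := (pp.am _ hi).2.2 q.2
    have a2 := (pp.am _ hi).2.2 q'.2
    rw [Prod.mk.eta] at a1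
    rw [e, Prod.mk.eta, ← e, ← a1] at a2
    rcases hs with ⟨-, e'⟩ | ⟨-, e'⟩ <;> rw [e'] at a2
    · have := p.t.nb_inj (k := some !(pp.pt q).2) (k' := some (pp.pt q).2) a2
      simp at this
    · exact p.t.m_ne _ (Function.LeftInverse.injective (p.t.col_col (pp.pt q).2) a2)
  · refine eq_empty_of_forall_notMem fun i hi => ?_
    have : (pp.a i, false) ∈ c.P' y := mem_filter.2 ⟨mem_univ _, .inr ⟨i, hi, rfl⟩⟩
    rw [hP, mem_insert, mem_singleton] at this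
    refine pp.a_Q (mem_filter.1 hi).2.1 ?_
    rcases this with e | e
    · exact (show pp.a i = _ from congrArg Prod.fst e) ▸ (pp.mem q).1
    · exact (show pp.a i = _ from congrArg Prod.fst e) ▸ (pp.mem q').1
  · refine card_eq_zero.2 (eq_empty_of_forall_notMem fun v hv => ?_)
    obtain ⟨h0, h1, h2⟩ := c.h2d_X.1 hv
    have : (v, false) ∈ c.P' y := mem_filter.2 ⟨mem_univ _, .inl h2⟩
    rw [hP, mem_insert, mem_singleton] at this
    rcases this with e | e <;> rcases hs with ⟨a, e'⟩ | ⟨a, e'⟩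
    · exact h0 (by rwa [← e] at a)
    · exact h1 (by rwa [← e] at a)
    · rw [e'] at e
      exact h0 ((Prod.mk.inj e).1 ▸ a)
    · rw [e'] at e
      exact h1 ((Prod.mk.inj e).1 ▸ c.m1 _ a)

theorem h2d_pair {y : Y} (h7 : c.rd0.w y ≤ 7) {r r' : I × Bool} (n : r ≠ r') (hr : r ∈ c.pre.K y)
    (hr' : r' ∈ c.pre.K y) : pp.pt r' = ((pp.pt r).1, !(pp.pt r).2) ∨
      pp.pt r' = (p.t.m (pp.pt r).1, (pp.pt r).2) := by
  obtain ⟨q, q', hK, -, hs⟩ := c.strand na ⟨_, c.h2d_mem hr⟩ h7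
  rw [hK, mem_insert, mem_singleton] at hr hr'
  rcases hr with rfl | rfl <;> rcases hr' with rfl | rfl
  · exact (n rfl).elim
  · exact hs.imp And.right And.right
  · rcases hs with ⟨-, e⟩ | ⟨-, e⟩
    · exact .inl (by rw [e]; simp)
    · exact .inr (by rw [e]; simp [p.t.mm])
  · exact (n rfl).elim

theorem h2d_end {y : Y} (h7 : c.rd0.w y ≤ 7) {i j : I} {k k' : Bool} (n : i ≠ j) (hi : mo i = true)
    (hj : mo j = true) (hr : (i, k) ∈ c.pre.K y) (hr' : (j, k') ∈ c.pre.K y) {C : Finset V}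
    (h1 : pp.a i ∈ C) (h2 : pp.a j ∈ C) (h3 : (pp.pt (j, k')).1 ∈ C) :
    ∃ b b', b ≠ b' ∧ p.t.nb b (pp.pt (i, k)).1 ∈ C ∧ p.t.nb b' (pp.pt (i, k)).1 ∈ C := by
  rw [← (pp.am _ hi).2.2 k] at h1
  rw [← (pp.am _ hj).2.2 k'] at h2
  rcases c.h2d_pair na h7 (fun e => n (Prod.mk.inj e).1) hr hr' with e | e
  · rw [e] at h2
    exact ⟨some (pp.pt (i, k)).2, some !(pp.pt (i, k)).2, by simp, h1, h2⟩
  · rw [e] at h3
    exact ⟨some (pp.pt (i, k)).2, none, by simp, h1, h3⟩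

omit na in
theorem h2d_leg {y y' : Y} (n : y ≠ y') {i : I} {k k' : Bool} (hi : mo i = true)
    (hr : (i, k) ∈ c.pre.K y) (hr' : (i, k') ∈ c.pre.K y') {C : Finset V}
    (h1 : (pp.pt (i, k)).1 ∈ C) (h2 : (pp.pt (i, k')).1 ∈ C) :
    ∃ b b', b ≠ b' ∧ p.t.nb b (pp.a i) ∈ C ∧ p.t.nb b' (pp.a i) ∈ C := by
  have nk : k ≠ k' := by
    rintro rfl
    exact n (Option.some.inj ((c.h2d_lab hr).symm.trans (c.h2d_lab hr')))
  have e : ∀ b, p.t.nb (some (pp.pt (i, b)).2) (pp.a i) = (pp.pt (i, b)).1 := fun b => by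
    rw [← (pp.am _ hi).2.2 b]
    exact p.t.col_col _ _
  refine ⟨some (pp.pt (i, k)).2, some (pp.pt (i, k')).2, fun z => ?_, e k ▸ h1, e k' ▸ h2⟩
  have := pp.col_ne hi
  have z' := Option.some.inj z
  cases k <;> cases k'
  exacts [nk rfl, this z'.symm, this z', nk rfl]

/-- `PR.tt2` for `C = {a i, a j}` and the at most four ends of the two strands. `a i` has the ports
`(i,k) ∈ K y`, `(i,k') ∈ K y'`, `k ≠ k'` as the labels differ, with different colours (`col_ne`). -/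
theorem tt : ∀ y y' i j, y ≠ y' → i ≠ j → mo i = true → mo j = true → c.rd0.w y ≤ 7 →
    c.rd0.w y' ≤ 7 → (∃ k, (i, k) ∈ c.rd0.K y) → (∃ k, (j, k) ∈ c.rd0.K y) →
    (∃ k, (i, k) ∈ c.rd0.K y') → (∃ k, (j, k) ∈ c.rd0.K y') → False := by
  rintro y y' i j n n' hi hj h7 h7' ⟨k1, a1⟩ ⟨k2, a2⟩ ⟨k3, a3⟩ ⟨k4, a4⟩
  refine p.tt2 (C := {pp.a i, pp.a j, (pp.pt (i, k1)).1, (pp.pt (j, k2)).1, (pp.pt (i, k3)).1,
    (pp.pt (j, k4)).1}) card_le_six (fun v hv => ?_) (fun v hv => ?_)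
    (fun e => n' (pp.a_inj hi hj e)) (by simp only [mem_insert, mem_singleton, true_or]) (by simp only [mem_insert, mem_singleton, true_or, or_true]) (pp.am _ hi).2.1 (pp.am _ hj).2.1
  · simp only [mem_insert, mem_singleton] at hv
    rcases hv with rfl | rfl | rfl | rfl | rfl | rfl
    · exact c.h2d_leg n hi a1 a3 (by simp only [mem_insert, mem_singleton, true_or, or_true]) (by simp only [mem_insert, mem_singleton, true_or, or_true])
    · exact c.h2d_leg n hj a2 a4 (by simp only [mem_insert, mem_singleton, true_or, or_true]) (by simp only [mem_insert, mem_singleton, or_true])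
    · exact c.h2d_end na h7 n' hi hj a1 a2 (by simp only [mem_insert, mem_singleton, true_or]) (by simp only [mem_insert, mem_singleton, true_or, or_true]) (by simp only [mem_insert, mem_singleton, true_or, or_true])
    · exact c.h2d_end na h7 n'.symm hj hi a2 a1 (by simp only [mem_insert, mem_singleton, true_or, or_true]) (by simp only [mem_insert, mem_singleton, true_or]) (by simp only [mem_insert, mem_singleton, true_or, or_true])
    · exact c.h2d_end na h7' n' hi hj a3 a4 (by simp only [mem_insert, mem_singleton, true_or]) (by simp only [mem_insert, mem_singleton, true_or, or_true]) (by simp only [mem_insert, mem_singleton, or_true])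
    · exact c.h2d_end na h7' n'.symm hj hi a4 a3 (by simp only [mem_insert, mem_singleton, true_or, or_true]) (by simp only [mem_insert, mem_singleton, true_or]) (by simp only [mem_insert, mem_singleton, true_or, or_true])
  · simp only [mem_insert, mem_singleton] at hv
    rcases hv with rfl | rfl | rfl | rfl | rfl | rfl
    exacts [(pp.am _ hi).1, (pp.am _ hj).1, (mem_Q.1 (pp.mem _).1).1, (mem_Q.1 (pp.mem _).1).1,
      (mem_Q.1 (pp.mem _).1).1, (mem_Q.1 (pp.mem _).1).1]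

end MC
end Pool.Agent.MP_8c1b0d_co.RR

set_option autoImplicit false
set_option linter.unusedSectionVars false
open Finset

namespace Pool.Agent.MP_8c1b0d_co.RR

variable {V Φ I W : Type} [Fintype V] [DecidableEq V] [Fintype Φ] [DecidableEq Φ] [Fintype I]
  [DecidableEq I] [Fintype W] [DecidableEq W] {mo : I → Bool} {p : PR V Φ}
namespace MC
variable {pp : Ports p.t p.R mo} {g : Gad I W mo} {Y : Type} [Fintype Y] [DecidableEq Y]
  (c : MC pp g Y)

include c in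
theorem not_good (na : NoAct p.t p.R) (hg : g.Good) : False := by
  refine hg Y { c.rd0 with
    m0 := c.n0, m1 := c.n1, disj := c.disj', l0 := c.k0, l1 := c.k1, lX := c.kX, dX := c.eX
    cl := fun h y a => c.ch h y a.1 a.2
    surj := fun y => (c.surj y).imp_left fun ⟨h, e⟩ => ⟨h, mem_filter.2 ⟨mem_univ _, Or.inl e⟩⟩
    pne := fun q y e => ⟨pp.pt q, mem_filter.2 ⟨mem_univ _, Or.inl (c.pl q ▸ e)⟩⟩
    xne := fun y h => let ⟨v, hv⟩ := card_pos.1 h; ⟨_, (c.cl0 y).P_of_X hv false⟩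
    ev := c.ev, b0 := c.b0, b1 := c.b1 na, b2 := c.b2 na, b3 := c.b3 na, b4 := c.b4 na
    b5 := c.b5 na, b6 := c.b6 na, big := c.big', tt := c.tt na, cnt := c.cnt' }

end MC
end Pool.Agent.MP_8c1b0d_co.RR

set_option autoImplicit false
set_option linter.unusedSectionVars false
open Finset

namespace Pool.Agent.MP_8c1b0d_co.RR

variable {V Φ I W : Type} [Fintype V] [DecidableEq V] [Fintype Φ] [DecidableEq Φ] [Fintype I]
  [DecidableEq I] [Fintype W] [DecidableEq W] {mo : I → Bool}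

theorem gclose [Nonempty I] (p : PR V Φ) (na : NoAct p.t p.R) (pp : Ports p.t p.R mo)
    (g : Gad I W mo) (hg : g.Good) : Clo pp g := by
  obtain ⟨s, a⟩ := exists_asm pp g
  obtain ⟨E, N, _, _, _, _, F, hF⟩ := a.exists_fam
  have : Nonempty (UU p.t p.R W) :=
    ⟨(pp.emb (W := W) (.inl (Classical.arbitrary I, false))).1⟩
  rcases F.glue (a.cn p.ok) with ⟨s', J, r, h1, h2⟩ | ⟨Y, _, _, ⟨c⟩⟩
  · exact a.clo hF h1 h2
  · obtain ⟨m⟩ := a.mc hF c
    exact (m.not_good na hg).elim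

end Pool.Agent.MP_8c1b0d_co.RR

end

-- part MP_8c1b0d_co.RR.Q
section

set_option autoImplicit false
set_option linter.unusedSectionVars false
open Finset

namespace Pool.Agent.MP_8c1b0d_co.RR

variable {V : Type} [Fintype V] [DecidableEq V] {t : Tri V} {P : Finset V}

/-- inner half-edges that leave `A` -/
def inC (t : Tri V) (P A : Finset V) : ℕ :=
  #{h : V × Option Bool | h.1 ∈ A ∧ t.nb h.2 h.1 ∈ P ∧ t.nb h.2 h.1 ∉ A}
/-- ends of legs -/
def LL (t : Tri V) (P : Finset V) : Finset V := {v ∈ P | ∃ k, t.nb k v ∉ P}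
/-- one level of a set in the double -/
def lev (S : Finset (↥P × Bool)) (b : Bool) : Finset V := {v | ∃ h : v ∈ P, (⟨v, h⟩, b) ∈ S}

lemma d2_mem_LL {v : V} : v ∈ LL t P ↔ v ∈ P ∧ ∃ k, t.nb k v ∉ P := by
  simp only [LL, mem_filter]

lemma d2_mem_lev {S : Finset (↥P × Bool)} {b : Bool} {v : V} :
    v ∈ lev S b ↔ ∃ h : v ∈ P, (⟨v, h⟩, b) ∈ S := by
  simp only [lev, mem_filter, mem_univ, true_and]

lemma d2_mem_lev' {S : Finset (↥P × Bool)} {b : Bool} {v : ↥P} :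
    v.1 ∈ lev S b ↔ (v, b) ∈ S := by
  rw [d2_mem_lev]
  exact ⟨fun ⟨_, h⟩ => h, fun h => ⟨v.2, h⟩⟩

lemma d2_lev_sub (S : Finset (↥P × Bool)) (b : Bool) : lev S b ⊆ P := fun _ hv =>
  (d2_mem_lev.1 hv).1

lemma d2_lev_compl (S : Finset (↥P × Bool)) (b : Bool) : lev Sᶜ b = P \ lev S b := by
  ext v
  rw [mem_sdiff, d2_mem_lev, d2_mem_lev]
  constructor
  · rintro ⟨h, a⟩
    exact ⟨h, fun ⟨_, c⟩ => mem_compl.1 a c⟩
  · rintro ⟨h, a⟩
    exact ⟨h, mem_compl.2 fun c => a ⟨h, c⟩⟩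

theorem Pole.cut_A (h : Pole t P) {A : Finset V} (hA : A ⊆ P) :
    t.cut A = inC t P A + #(LL t P ∩ A) := by
  have e1 := card_filter_add_card_filter_not (s := t.bd A) fun z => t.nb z.2 z.1 ∈ P
  have e2 : #{z ∈ t.bd A | t.nb z.2 z.1 ∈ P} = inC t P A := by
    unfold inC
    congr 1
    ext ⟨v, k⟩
    simp only [mem_filter, Tri.mem_bd, mem_univ, true_and]
    tauto
  have e3 : #{z ∈ t.bd A | ¬ t.nb z.2 z.1 ∈ P} = #(LL t P ∩ A) := by
    refine card_bij (fun z _ => z.1) ?_ ?_ ?_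
    · rintro ⟨v, k⟩ hz
      simp only [mem_filter, Tri.mem_bd] at hz
      exact mem_inter.2 ⟨d2_mem_LL.2 ⟨hA hz.1.1, k, hz.2⟩, hz.1.1⟩
    · rintro ⟨v, k⟩ hz ⟨w, k'⟩ hw e
      simp only [mem_filter, Tri.mem_bd] at hz hw
      obtain rfl : v = w := e
      rw [h.leg_one (hA hz.1.1) hz.2 hw.2]
    · intro v hv
      obtain ⟨h1, h2⟩ := mem_inter.1 hv
      obtain ⟨_, k, hk⟩ := d2_mem_LL.1 h1
      refine ⟨(v, k), ?_, rfl⟩
      simp only [mem_filter, Tri.mem_bd]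
      exact ⟨⟨h2, fun c => hk (hA c)⟩, hk⟩
  rw [Tri.cut_eq, ← e1, e2, e3]
theorem inC_sdiff {A : Finset V} (hA : A ⊆ P) : inC t P (P \ A) = inC t P A := by
  unfold inC
  refine card_bij' (fun z _ => (t.nb z.2 z.1, z.2)) (fun z _ => (t.nb z.2 z.1, z.2)) ?_ ?_ ?_ ?_
  · rintro ⟨v, k⟩ hz
    simp only [mem_filter, mem_univ, true_and, mem_sdiff, Tri.nb_nb] at hz ⊢
    tauto
  · rintro ⟨v, k⟩ hz
    simp only [mem_filter, mem_univ, true_and, mem_sdiff, Tri.nb_nb] at hz ⊢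
    have := @hA v
    tauto
  · rintro ⟨v, k⟩ _
    simp
  · rintro ⟨v, k⟩ _
    simp

lemma d2_inn {d : Tri (↥P × Bool)} (hd : Dbl t P d) (S : Finset (↥P × Bool)) (b : Bool) :
    #{z ∈ d.bd S | t.nb z.2 z.1.1.1 ∈ P ∧ z.1.2 = b} = inC t P (lev S b) := by
  unfold inC
  refine card_bij (fun z _ => (z.1.1.1, z.2)) ?_ ?_ ?_
  · rintro ⟨⟨v, c⟩, k⟩ hz
    simp only [mem_filter, Tri.mem_bd, mem_univ, true_and] at hz ⊢
    obtain ⟨⟨h1, h2⟩, h3, rfl⟩ := hz
    rw [hd.inn k v c h3] at h2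
    exact ⟨d2_mem_lev'.2 h1, h3, fun e => h2 ((d2_mem_lev' (v := ⟨_, h3⟩)).1 e)⟩
  · rintro ⟨⟨v, c⟩, k⟩ hz ⟨⟨w, c'⟩, k'⟩ hw e
    simp only [mem_filter] at hz hw
    obtain ⟨e1, e2⟩ := Prod.mk.inj e
    obtain rfl : v = w := Subtype.ext e1
    obtain rfl : k = k' := e2
    obtain rfl : c = c' := hz.2.2.trans hw.2.2.symm
    rfl
  · rintro ⟨v, k⟩ hz
    simp only [mem_filter, mem_univ, true_and] at hz
    obtain ⟨h1, h2, h3⟩ := hz
    obtain ⟨hv, h4⟩ := d2_mem_lev.1 h1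
    refine ⟨((⟨v, hv⟩, b), k), ?_, rfl⟩
    simp only [mem_filter, Tri.mem_bd]
    refine ⟨⟨h4, ?_⟩, h2, trivial⟩
    rw [hd.inn k ⟨v, hv⟩ b h2]
    exact fun e => h3 (d2_mem_lev.2 ⟨h2, e⟩)

lemma d2_leg {d : Tri (↥P × Bool)} (hd : Dbl t P d) (h : Pole t P) (S : Finset (↥P × Bool)) :
    #{z ∈ d.bd S | ¬ t.nb z.2 z.1.1.1 ∈ P} =
      #{v ∈ LL t P | ¬ (v ∈ lev S false ↔ v ∈ lev S true)} := by
  refine card_bij (fun z _ => z.1.1.1) ?_ ?_ ?_
  · rintro ⟨⟨v, c⟩, k⟩ hz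
    simp only [mem_filter, Tri.mem_bd] at hz ⊢
    obtain ⟨⟨h1, h2⟩, h3⟩ := hz
    rw [hd.leg k v c h3] at h2
    refine ⟨d2_mem_LL.2 ⟨v.2, k, h3⟩, ?_⟩
    rw [d2_mem_lev', d2_mem_lev']
    cases c
    · exact fun e => h2 (e.1 h1)
    · exact fun e => h2 (e.2 h1)
  · rintro ⟨⟨v, c⟩, k⟩ hz ⟨⟨w, c'⟩, k'⟩ hw e
    simp only [mem_filter, Tri.mem_bd] at hz hw
    obtain rfl : v = w := Subtype.ext e
    obtain ⟨⟨h1, h2⟩, h3⟩ := hz
    obtain ⟨⟨h4, h5⟩, h6⟩ := hw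
    obtain rfl : k = k' := h.leg_one v.2 h3 h6
    rw [hd.leg k v c h3] at h2
    obtain rfl : c = c' := by
      cases c <;> cases c'
      · rfl
      · exact absurd h4 h2
      · exact absurd h4 h2
      · rfl
    rfl
  · intro v hv
    obtain ⟨h1, h2⟩ := mem_filter.1 hv
    obtain ⟨hv, k, hk⟩ := d2_mem_LL.1 h1
    rw [d2_mem_lev' (v := ⟨v, hv⟩), d2_mem_lev' (v := ⟨v, hv⟩)] at h2
    by_cases c : ((⟨v, hv⟩ : ↥P), false) ∈ S
    · refine ⟨((⟨v, hv⟩, false), k), ?_, rfl⟩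
      simp only [mem_filter, Tri.mem_bd]
      refine ⟨⟨c, ?_⟩, hk⟩
      rw [hd.leg k ⟨v, hv⟩ false hk]
      exact fun e => h2 ⟨fun _ => e, fun _ => c⟩
    · refine ⟨((⟨v, hv⟩, true), k), ?_, rfl⟩
      simp only [mem_filter, Tri.mem_bd]
      refine ⟨⟨?_, ?_⟩, hk⟩
      · by_contra e
        exact h2 ⟨fun a => absurd a c, fun a => absurd a e⟩
      · rw [hd.leg k ⟨v, hv⟩ true hk]
        exact c

theorem Dbl.cut {d : Tri (↥P × Bool)} (hd : Dbl t P d) (h : Pole t P) (S : Finset (↥P × Bool)) :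
    d.cut S = inC t P (lev S false) + inC t P (lev S true) +
      #{v ∈ LL t P | ¬ (v ∈ lev S false ↔ v ∈ lev S true)} := by
  have e1 := card_filter_add_card_filter_not (s := d.bd S) fun z => t.nb z.2 z.1.1.1 ∈ P
  have e2 := card_filter_add_card_filter_not (s := {z ∈ d.bd S | t.nb z.2 z.1.1.1 ∈ P})
    fun z => z.1.2 = false
  rw [filter_filter, filter_filter, d2_inn hd] at e2
  have e3 : #{z ∈ d.bd S | t.nb z.2 z.1.1.1 ∈ P ∧ ¬ z.1.2 = false} = inC t P (lev S true) := by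
    rw [← d2_inn hd]
    congr 1
    ext z
    simp only [mem_filter, Bool.not_eq_false]
  rw [e3] at e2
  rw [d2_leg hd h] at e1
  rw [Tri.cut_eq]
  omega

lemma d2_card (S : Finset (↥P × Bool)) (b : Bool) : #{z ∈ S | z.2 = b} = #(lev S b) := by
  refine card_bij (fun z _ => z.1.1) ?_ ?_ ?_
  · rintro ⟨v, c⟩ hz
    obtain ⟨h1, rfl⟩ := mem_filter.1 hz
    exact d2_mem_lev'.2 h1
  · rintro ⟨v, c⟩ hz ⟨w, c'⟩ hw e
    obtain rfl : v = w := Subtype.ext e
    obtain rfl : c = c' := (mem_filter.1 hz).2.trans (mem_filter.1 hw).2.symm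
    rfl
  · intro v hv
    obtain ⟨hv, h4⟩ := d2_mem_lev.1 hv
    exact ⟨(⟨v, hv⟩, b), mem_filter.2 ⟨h4, rfl⟩, rfl⟩

theorem card_lev (S : Finset (↥P × Bool)) : #S = #(lev S false) + #(lev S true) := by
  have e2 := card_filter_add_card_filter_not (s := S) fun z => z.2 = false
  have e3 : #{z ∈ S | ¬ z.2 = false} = #(lev S true) := by
    rw [← d2_card]
    congr 1
    ext z
    simp only [mem_filter, Bool.not_eq_false]
  rw [d2_card, e3] at e2
  exact e2.symm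

lemma d2_split (h : Pole t P) (A : Finset V) : #(LL t P ∩ A) + #(LL t P ∩ (P \ A)) = 4 := by
  have e : LL t P ∩ (P \ A) = LL t P \ A := by
    ext v
    simp only [mem_inter, mem_sdiff]
    exact ⟨fun a => ⟨a.1, a.2.2⟩, fun a => ⟨a.1, (d2_mem_LL.1 a.1).1, a.2⟩⟩
  rw [e, card_inter_add_card_sdiff]
  exact h.card_L

lemma d2_one (h : Pole t P) {A : Finset V} (hA : A ⊆ P) (h1 : A.Nonempty) (h2 : A ≠ P)
    (h3 : inC t P A ≤ 2) (h4 : t.cut A ≤ 4) : inC t P A = 2 ∧ ∃ a ∈ LL t P, A = {a} := by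
  have c1 := h.cut_A hA
  have c2 := h.cut_A (sdiff_subset : P \ A ⊆ P)
  rw [inC_sdiff hA] at c2
  have c3 := d2_split h A
  have c4 : #A ≤ 2 := (h.ic5 A hA h4).resolve_right h2
  have c5 := card_sdiff_add_card_eq_card hA
  have c6 := h.six
  have c7 : 5 ≤ t.cut (P \ A) := by
    by_contra c
    rcases h.ic5 (P \ A) sdiff_subset (by omega) with e | e
    · omega
    · have := card_pos.2 h1
      rw [e] at c5
      omega
  have c8 := t.f1_small h1 c4
  have c9 := card_pos.2 h1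
  refine ⟨by omega, ?_⟩
  obtain ⟨a, rfl⟩ := card_eq_one.1 (show #A = 1 by omega)
  obtain ⟨v, hv⟩ := card_pos.1 (show 0 < #(LL t P ∩ {a}) by omega)
  obtain ⟨h5, h6⟩ := mem_inter.1 hv
  rw [mem_singleton] at h6
  exact ⟨a, h6 ▸ h5, rfl⟩

/-- Let `n = inC A`, `l = #(LL ∩ A)`: `cut A = n + l`, `cut (P \ A) = n + 4 - l`. Both sides at least 3
points: both cuts are at least 5. `#A = 2`: `4 ≤ cut A` (`3 * #A ≤ cut A + #A * (#A - 1)`, or the lemmas
of CT/R1) and `5 ≤ cut (P \ A)`. `#A = 1`: `cut A = 3`, `l ≤ 1`. -/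
theorem Pole.inC_ge (h : Pole t P) {A : Finset V} (hA : A ⊆ P) (h1 : A.Nonempty) (h2 : A ≠ P) :
    2 ≤ inC t P A ∧ (inC t P A = 2 → ∃ a ∈ LL t P, A = {a} ∨ P \ A = {a}) := by
  have key : inC t P A ≤ 2 → inC t P A = 2 ∧ ∃ a ∈ LL t P, A = {a} ∨ P \ A = {a} := by
    intro h3
    by_cases h4 : t.cut A ≤ 4
    · obtain ⟨e, a, ha, e'⟩ := d2_one h hA h1 h2 h3 h4
      exact ⟨e, a, ha, Or.inl e'⟩
    · have c1 := h.cut_A hA
      have c2 := h.cut_A (sdiff_subset : P \ A ⊆ P)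
      have c0 := inC_sdiff (t := t) hA
      have c3 := d2_split h A
      have n1 : (P \ A).Nonempty := sdiff_nonempty.2 fun c => h2 (Subset.antisymm hA c)
      have n2 : P \ A ≠ P := fun e => by
        obtain ⟨v, hv⟩ := h1
        have : v ∈ P \ A := e.symm ▸ hA hv
        exact (mem_sdiff.1 this).2 hv
      obtain ⟨e, a, ha, e'⟩ := d2_one h (sdiff_subset : P \ A ⊆ P) n1 n2 (by omega) (by omega)
      exact ⟨by omega, a, ha, Or.inr e'⟩
  refine ⟨?_, fun e => (key e.le).2⟩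
  by_contra c
  have := (key (by omega)).1
  omega

lemma d2_inC_empty : inC t P ∅ = 0 := by
  simp [inC]

lemma d2_inC_self : inC t P P = 0 := by
  simp [inC]

lemma d2_Rt_f : lev (Rt P) false = ∅ := by
  ext v
  simp only [Rt, d2_mem_lev, mem_filter, mem_univ, Bool.false_eq_true, and_false, exists_false, notMem_empty]

lemma d2_Rt_t : lev (Rt P) true = P := by
  ext v
  simp only [Rt, d2_mem_lev, mem_filter, mem_univ, and_self, exists_prop, and_true]

/-- one level is empty -/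
lemma d2_emp {d : Tri (↥P × Bool)} (hd : Dbl t P d) (h : Pole t P) {S : Finset (↥P × Bool)}
    (h1 : 3 ≤ #S) (h3 : S ≠ Rt P) (h4 : Sᶜ ≠ Rt P) (e : lev S false = ∅ ∨ lev S true = ∅) :
    5 ≤ d.cut S := by
  by_contra c
  have c1 := hd.cut h S
  have c2 := card_lev S
  rcases e with e | e
  · have c3 := h.cut_A (d2_lev_sub S true)
    have c4 : ({v ∈ LL t P | ¬ (v ∈ lev S false ↔ v ∈ lev S true)} : Finset V) =
        LL t P ∩ lev S true := by
      ext v
      simp [e]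
    rw [c4, e, d2_inC_empty] at c1
    rw [e, card_empty] at c2
    rcases h.ic5 _ (d2_lev_sub S true) (by omega) with a | a
    · omega
    · refine h3 ?_
      ext ⟨v, b⟩
      rw [← d2_mem_lev']
      cases b
      · simp only [e, notMem_empty, Rt, mem_filter, mem_univ, Bool.false_eq_true, and_false]
      · simp only [a, SetLike.coe_mem, Rt, mem_filter, mem_univ, and_self]
  · have c3 := h.cut_A (d2_lev_sub S false)
    have c4 : ({v ∈ LL t P | ¬ (v ∈ lev S false ↔ v ∈ lev S true)} : Finset V) =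
        LL t P ∩ lev S false := by
      ext v
      simp [e]
    rw [c4, e, d2_inC_empty] at c1
    rw [e, card_empty] at c2
    rcases h.ic5 _ (d2_lev_sub S false) (by omega) with a | a
    · omega
    · refine h4 ?_
      ext ⟨v, b⟩
      rw [mem_compl, ← d2_mem_lev']
      cases b
      · simp only [a, SetLike.coe_mem, not_true_eq_false, Rt, mem_filter, mem_univ, Bool.false_eq_true, and_false]
      · simp only [e, notMem_empty, not_false_eq_true, Rt, mem_filter, mem_univ, and_self]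

/-- Suppose `cut S ≤ 4`. If both levels are proper and nonempty, `inC_ge` makes each a single end or its
complement and the third term zero: `#S = 2`, `#Sᶜ = 2`, or (mixed case) one of the 4 ends other than
`a, a'` is counted. If a level is empty, `cut S = cut A` for the other level `A`, so `#A ≤ 2` or
`A = P`. If a level is `P` pass to `Sᶜ` (`cut_compl`). -/
theorem Dbl.ok {d : Tri (↥P × Bool)} (hd : Dbl t P d) (h : Pole t P) : OK d (Rt P) := by
  have h7 := h.seven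
  refine ⟨fun S h1 h2 h3 h4 => ?_, ?_, ?_, ?_⟩
  · by_cases e : lev S false = ∅ ∨ lev S true = ∅
    · exact d2_emp hd h h1 h3 h4 e
    by_cases e' : lev S false = P ∨ lev S true = P
    · rw [← d.cut_compl]
      refine d2_emp hd h h2 h4 (by rwa [compl_compl]) ?_
      rw [d2_lev_compl, d2_lev_compl]
      rcases e' with a | a
      · exact Or.inl (by rw [a, sdiff_self]; rfl)
      · exact Or.inr (by rw [a, sdiff_self]; rfl)
    rw [not_or] at e e'
    by_contra c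
    have c1 := hd.cut h S
    have c2 := card_lev S
    have c3 := card_lev Sᶜ
    rw [d2_lev_compl, d2_lev_compl] at c3
    obtain ⟨a1, a2⟩ := h.inC_ge (d2_lev_sub S false) (nonempty_iff_ne_empty.2 e.1) e'.1
    obtain ⟨b1, b2⟩ := h.inC_ge (d2_lev_sub S true) (nonempty_iff_ne_empty.2 e.2) e'.2
    obtain ⟨a, _, ha⟩ := a2 (by omega)
    obtain ⟨b, _, hb⟩ := b2 (by omega)
    have z : ∀ v ∈ LL t P, (v ∈ lev S false ↔ v ∈ lev S true) := by
      intro v hv
      by_contra n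
      have := card_pos.2 ⟨v, (mem_filter.2 ⟨hv, n⟩ :
        v ∈ ({v ∈ LL t P | ¬ (v ∈ lev S false ↔ v ∈ lev S true)} : Finset V))⟩
      omega
    obtain ⟨v, hv, hn⟩ : ∃ v ∈ LL t P, v ∉ ({a, b} : Finset V) := by
      refine exists_mem_notMem_of_card_lt_card ?_
      have q1 : #(LL t P) = 4 := h.card_L
      have q2 : #({a, b} : Finset V) ≤ 2 := card_le_two
      omega
    have hP := (d2_mem_LL.1 hv).1
    simp only [mem_insert, mem_singleton, not_or] at hn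
    rcases ha with ha | ha <;> rcases hb with hb | hb
    · rw [ha, hb, card_singleton, card_singleton] at c2
      omega
    · have n1 : v ∉ lev S false := by rw [ha, mem_singleton]; exact hn.1
      have n2 : v ∈ P \ lev S true := mem_sdiff.2 ⟨hP, fun q => n1 ((z v hv).2 q)⟩
      rw [hb, mem_singleton] at n2
      exact hn.2 n2
    · have n1 : v ∉ lev S true := by rw [hb, mem_singleton]; exact hn.2
      have n2 : v ∈ P \ lev S false := mem_sdiff.2 ⟨hP, fun q => n1 ((z v hv).1 q)⟩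
      rw [ha, mem_singleton] at n2
      exact hn.1 n2
    · rw [ha, hb, card_singleton, card_singleton] at c3
      omega
  · rw [hd.cut h, d2_Rt_f, d2_Rt_t, d2_inC_empty, d2_inC_self]
    have q1 : #(LL t P) = 4 := h.card_L
    rw [filter_true_of_mem, q1]
    intro v hv
    simp [(d2_mem_LL.1 hv).1]
  · rw [card_lev, d2_Rt_f, d2_Rt_t]
    omega
  · rw [card_lev, d2_lev_compl, d2_lev_compl, d2_Rt_f, sdiff_empty]
    omega

end Pool.Agent.MP_8c1b0d_co.RR

set_option autoImplicit false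
set_option linter.unusedSectionVars false
open Finset

namespace Pool.Agent.MP_8c1b0d_co.RR

variable {V I W : Type} [Fintype V] [DecidableEq V] [Fintype I] [DecidableEq I] [Fintype W]
  [DecidableEq W] {mo : I → Bool} {t : Tri V} {R : Finset V}

/-- `x v ∈ Q` (`leg_one`, `leg_adj`), so `o (v, false)` is a port `pt (i, c)`; `mo i = true` by `cl`. -/
theorem Ports.a_sur (pp : Ports t R mo) (ok : OK t R) {v : V} (h1 : v ∉ R) (h2 : t.m v ∈ R) :
    ∃ i, mo i = true ∧ pp.a i = v := by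
  have a : t.col false v ∉ R := fun n => by
    have := ok.leg_one (k := some false) (k' := none) h1 n h2
    simp at this
  have b : t.m (t.col false v) ∉ R := fun n =>
    ok.leg_adj (j := some false) (k := none) (k' := none) h1 a h2 n
  have e : t.o (t.o (v, false)) = (v, false) := t.o_o _
  obtain ⟨⟨i, c⟩, hp⟩ := pp.sur (t.o (v, false)) (mem_Q.2 ⟨a, b⟩) (by
    rw [e]
    exact fun n => (mem_Q.1 n).2 h2)
  have hm : mo i = true := by
    by_contra n
    have := pp.cl i (by simpa using n) c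
    rw [hp, e] at this
    exact h1 this
  refine ⟨i, hm, ?_⟩
  have := (pp.am i hm).2.2 c
  rw [hp, e] at this
  exact this.symm

theorem Ports.tm_inj (pp : Ports t R mo) : Function.Injective pp.tm := by
  intro p q h
  unfold Ports.tm at h
  split_ifs at h with h1 h2 h2
  · have k := congrArg t.o h
    rw [t.o_o, t.o_o] at k
    exact pp.inj k
  · have k := (pp.mem p).2
    rw [h] at k
    exact (k (pp.mem q).1).elim
  · have k := (pp.mem q).2
    rw [← h] at k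
    exact (k (pp.mem p).1).elim
  · exact pp.inj h

theorem Ports.tm_mono (pp : Ports t R mo) {i : I} (h : mo i = true) (c : Bool) :
    (pp.tm (i, c)).1 = pp.a i ∧ pp.tm (i, !c) = (pp.a i, !(pp.tm (i, c)).2) := by
  have k : ∀ c, pp.tm (i, c) = t.o (pp.pt (i, c)) := fun c => if_pos h
  have n := pp.col_ne h
  obtain ⟨-, -, h3⟩ := pp.am i h
  rw [k, k]
  refine ⟨h3 c, Prod.ext (h3 _) ?_⟩
  show (pp.pt (i, !c)).2 = !(pp.pt (i, c)).2
  cases c
  · show (pp.pt (i, true)).2 = !(pp.pt (i, false)).2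
    revert n
    cases (pp.pt (i, true)).2 <;> cases (pp.pt (i, false)).2 <;> simp
  · show (pp.pt (i, false)).2 = !(pp.pt (i, true)).2
    revert n
    cases (pp.pt (i, true)).2 <;> cases (pp.pt (i, false)).2 <;> simp

theorem Ports.tm_C (pp : Ports t R mo) {i : I} (h : mo i = false) (c : Bool) :
    (pp.tm (i, c)).1 ∈ Q t R := by
  have k : pp.tm (i, c) = pp.pt (i, c) := if_neg (by simp [h])
  rw [k]
  exact (pp.mem _).1

theorem Ports.tm_iff (pp : Ports t R mo) (ok : OK t R) {live : Finset V}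
    (hl : ∀ u ∈ live, u ∈ Rᶜ ∧ t.m u ∉ Rᶜ) (x : V × Bool) : RI.Tm t Rᶜ live x ↔
      ∃ p, (mo p.1 = false ∨ p.1 ∈ pp.lv live) ∧ pp.tm p = x := by
  constructor
  · rintro (⟨h1, h2⟩ | h)
    · have h1' : x.1 ∉ R := mem_compl.1 h1
      have h2' : (t.o x).1 ∈ R := by_contra fun n => h2 (mem_compl.2 n)
      have h3 : t.m x.1 ∉ R := fun n => by
        have := ok.leg_one (k := some x.2) (k' := none) h1' h2' n
        simp at this
      obtain ⟨⟨i, c⟩, hp⟩ := pp.sur x (mem_Q.2 ⟨h1', h3⟩) fun n => (mem_Q.1 n).1 h2'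
      have hm : mo i = false := by
        by_contra n
        obtain ⟨a1, -, a3⟩ := pp.am i (by simpa using n)
        have := a3 c
        rw [hp] at this
        exact a1 (this ▸ h2')
      refine ⟨(i, c), Or.inl hm, ?_⟩
      rw [← hp]
      exact if_neg (by simp [hm])
    · obtain ⟨a1, a2⟩ := hl _ h
      obtain ⟨i, hm, e⟩ := pp.a_sur ok (mem_compl.1 a1)
        (by_contra fun n => a2 (mem_compl.2 n))
      obtain ⟨c, hc⟩ := pp.o_a hm x.2
      refine ⟨(i, c), Or.inr ?_, ?_⟩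
      · simp only [Ports.lv, mem_filter, mem_univ, true_and]
        exact ⟨hm, e ▸ h⟩
      · have k : pp.tm (i, c) = t.o (pp.pt (i, c)) := if_pos hm
        rw [k, ← hc, t.o_o, e]
  · rintro ⟨⟨i, c⟩, h | h, rfl⟩
    · have h' : mo i = false := h
      have k : pp.tm (i, c) = pp.pt (i, c) := if_neg (by simp [h'])
      left
      rw [k]
      exact ⟨mem_compl.2 (mem_Q.1 (pp.mem _).1).1, fun n => mem_compl.1 n (pp.cl i h' c)⟩
    · simp only [Ports.lv, mem_filter, mem_univ, true_and] at h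
      right
      rw [(pp.tm_mono h.1 c).1]
      exact h.2

/-- `τ' k p` is the flip on dead legs and the port with terminal `τ k (tm p)` otherwise. For `Valid`
take `lam' i = lam (a i)` and the image of `Z` under `tm`. -/
theorem Ports.out (pp : Ports t R mo) (ok : OK t R) {live : Finset V}
    {τ : Bool → V × Bool → V × Bool} (E : RI.Env t Rᶜ live τ) : ∃ τ', Out mo (pp.lv live) τ' ∧
      ∀ k p, (mo p.1 = false ∨ p.1 ∈ pp.lv live) → pp.tm (τ' k p) = τ k (pp.tm p) ∧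
        (mo (τ' k p).1 = false ∨ (τ' k p).1 ∈ pp.lv live) := by
  have key : ∀ k p, ∃ q : I × Bool, ((mo p.1 = false ∨ p.1 ∈ pp.lv live) →
      pp.tm q = τ k (pp.tm p) ∧ (mo q.1 = false ∨ q.1 ∈ pp.lv live)) ∧
      (¬ (mo p.1 = false ∨ p.1 ∈ pp.lv live) → q = (p.1, !p.2)) := by
    intro k p
    by_cases h : mo p.1 = false ∨ p.1 ∈ pp.lv live
    · have a := (pp.tm_iff ok E.live_sub (pp.tm p)).2 ⟨p, h, rfl⟩
      obtain ⟨q, hq, e⟩ := (pp.tm_iff ok E.live_sub _).1 (E.inv k _ a).1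
      exact ⟨q, fun _ => ⟨e, hq⟩, fun n => (n h).elim⟩
    · exact ⟨(p.1, !p.2), fun n => (h n).elim, fun _ => rfl⟩
  choose τ' h1 h2 using key
  have mlv : ∀ i, i ∈ pp.lv live ↔ mo i = true ∧ pp.a i ∈ live := fun i => by
    simp only [Ports.lv, mem_filter, mem_univ, true_and]
  refine ⟨τ', ⟨fun k => ⟨fun p => ?_, fun p => ?_⟩, fun i hi => ((mlv i).1 hi).1,
    fun i c k hi n => h2 k (i, c) ?_, ?_⟩, h1⟩
  · by_cases h : mo p.1 = false ∨ p.1 ∈ pp.lv live
    · obtain ⟨a1, a2⟩ := h1 k p h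
      have a := (pp.tm_iff ok E.live_sub (pp.tm p)).2 ⟨p, h, rfl⟩
      apply pp.tm_inj
      rw [(h1 k _ a2).1, a1, (E.inv k _ a).2.1]
    · rw [h2 k p h, h2 k (p.1, !p.2) h]
      simp
  · by_cases h : mo p.1 = false ∨ p.1 ∈ pp.lv live
    · intro e
      have a := (pp.tm_iff ok E.live_sub (pp.tm p)).2 ⟨p, h, rfl⟩
      have a1 := (h1 k p h).1
      rw [e] at a1
      exact (E.inv k _ a).2.2 a1.symm
    · rw [h2 k p h]
      intro e
      have := congrArg Prod.snd e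
      simp at this
  · rintro (h | h)
    · rw [hi] at h
      exact Bool.noConfusion h
    · exact n h
  · obtain ⟨lam, hlam⟩ := E.valid
    refine ⟨fun i => lam (pp.a i), fun k Z hZ => ?_⟩
    have := hlam k (Z.image pp.tm) (by
      intro z' hz'
      obtain ⟨⟨i, c⟩, hz, rfl⟩ := mem_image.1 hz'
      obtain ⟨b1, b2, b3, b4⟩ := hZ _ hz
      obtain ⟨c1, c2⟩ := (mlv i).1 b1
      obtain ⟨d1, d2⟩ := pp.tm_mono c1 c
      rw [d1]
      refine ⟨c2, b2, ?_, ?_⟩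
      · rw [← (h1 k (i, c) (Or.inr b1)).1]
        exact mem_image_of_mem _ b3
      · rw [← d2]
        exact mem_image_of_mem _ b4)
    exact image_eq_empty.1 this

end Pool.Agent.MP_8c1b0d_co.RR

set_option autoImplicit false
set_option linter.unusedSectionVars false
open Finset

namespace Pool.Agent.MP_8c1b0d_co.RR

variable {V I W : Type} [Fintype V] [DecidableEq V] [Fintype I] [DecidableEq I] [Fintype W]
  [DecidableEq W] {mo : I → Bool} {t : Tri V} {R : Finset V}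

theorem p4_tm (pp : Ports t R mo) {i : I} (h : mo i = true) (x : Bool) :
    ∃ c, pp.tm (i, c) = (pp.a i, x) := by
  obtain ⟨h1, h2⟩ := pp.tm_mono h true
  by_cases e : (pp.tm (i, true)).2 = x
  · exact ⟨true, Prod.ext h1 e⟩
  · refine ⟨false, h2.trans ?_⟩
    congr 1
    revert e
    cases (pp.tm (i, true)).2 <;> cases x <;> simp

theorem p4_both {X : Type} {G : V × Bool → X} {u : V} (h : G (u, true) = G (u, false))
    {x y : V × Bool} (hx : x.1 = u) (hy : y.1 = u) : G x = G y := by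
  obtain ⟨x, c⟩ := x
  obtain ⟨y, c'⟩ := y
  obtain rfl : x = u := hx
  obtain rfl : y = x := hy
  cases c <;> cases c'
  exacts [rfl, h.symm, h, rfl]

/-- Take `e` from `hw`, `pp'` from `Ports.re`, `t', r, s` from `hc pp'`, `f k` from `Ports.pair` for
`pp`. `g.Cls s k (e.symm ∘ f k ∘ e)`: given `v`, extend `p ↦ v (inl (e.symm p))` to `φ` with `Inn` and use
`Clo`. This gives `b, lam`. Put `r' v = xor (r v) b` on `Q` and `r' (a i) = lam i` (`a_inj`). For `one`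
with `κ, G, G'`: `Inn t' R r (xor κ b) G` (`Same.Q_eq`); use `OCl` with `v p = G (pt p)`,
`v' p = if p.1 ∈ lv then G' (tm p) else G (pt p)`; for `mo i` the edge `pt p, tm p` lies in `Rᶜ`
(`Same.o_pt`), so `G (pt p) = G (tm p)`; `t'.m (a i) = t.m (a i) ∈ R`; `tm_congr`, `tm_iff`. So `G = d` on
the ports; `Clo` with the constant `v = d` gives `G = d` on `Q`; a vertex of `Rᶜ \ Q` is an `a i`. -/
theorem Ports.closes [Nonempty I] (pp : Ports t R mo) (ok : OK t R) {live : Finset V}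
    {τ : Bool → V × Bool → V × Bool} (E : RI.Env t Rᶜ live τ)
    {τ' : Bool → I × Bool → I × Bool} (ho : Out mo (pp.lv live) τ')
    (hτ : ∀ k p, (mo p.1 = false ∨ p.1 ∈ pp.lv live) → pp.tm (τ' k p) = τ k (pp.tm p) ∧
        (mo (τ' k p).1 = false ∨ (τ' k p).1 ∈ pp.lv live))
    {g : Gad I W mo} (hw : g.Works (pp.lv live) τ') (hc : ∀ pp' : Ports t R mo, Clo pp' g) :
    ∃ t', Same t t' R ∧ ∃ r, RI.Closes t' Rᶜ live τ r := by
  classical
  obtain ⟨e, he, hw⟩ := hw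
  obtain ⟨pp', hpp⟩ := pp.re he
  obtain ⟨t', r, s, hS, hr, hs, hC⟩ := hc pp'
  choose f hf1 hf2 hf3 using fun k => pp.pair hS r hr k
  obtain ⟨b, lam, hO⟩ := hw f hf1 s hs fun k v hv hf => by
    obtain ⟨φ, hφ, hφ'⟩ := hf3 k (fun p => v (.inl (e.symm p))) fun p => by
      simpa using hf (e.symm p)
    obtain ⟨d, -, hd⟩ := hC k φ v hφ hv fun p => by rw [hpp, hφ', e.symm_apply_apply]
    exact ⟨d, hd⟩
  obtain ⟨r', rQ, ra⟩ : ∃ r' : V → Bool, (∀ v ∈ Q t R, r' v = xor (r v) b) ∧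
      ∀ i, mo i = true → r' (pp.a i) = lam i := by
    refine ⟨fun v => if v ∈ Q t R then xor (r v) b else
      if h : ∃ i, mo i = true ∧ pp.a i = v then lam h.choose else false,
      fun v hv => if_pos hv, fun i hi => ?_⟩
    have h : ∃ j, mo j = true ∧ pp.a j = pp.a i := ⟨i, hi, rfl⟩
    simp only [pp.a_Q hi, if_false, dif_pos h]
    rw [pp.a_inj h.choose_spec.1 hi h.choose_spec.2]
  have hQ := hS.Q_eq
  have mQ : ∀ v, v ∈ Q t R ↔ v ∈ Rᶜ ∧ t'.m v ∈ Rᶜ := fun v => by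
    rw [← hQ, mem_Q, mem_compl, mem_compl]
  have hout : ∀ v ∉ Rᶜ, ∀ k, t'.nb k v = t.nb k v := fun v hv =>
    hS.eq v fun q => hv ((mQ v).1 q).1
  refine ⟨t', hS, r', fun v h1 h2 => ?_, fun κ G G' h1 h2 h3 h4 h5 => ?_⟩
  · have q := (mQ v).2 ⟨h1, h2⟩
    have q' : t'.m v ∈ Q t R := (mQ _).2 ⟨h2, by rwa [t'.mm]⟩
    rw [rQ _ q, rQ _ q', hr v q]
  have hx : ∀ x y z : Bool, xor x y = z ↔ x = xor z y := by decide
  have hI : Inn t' R r (xor κ b) G := by
    rw [Inn, hQ]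
    refine ⟨fun h a a' => h1 h ((mQ _).1 a).1 ((mQ _).1 a').1, fun v hv a => ?_, fun v hv a => ?_⟩
    · exact (h2 v ((mQ v).1 hv).1 ((mQ v).1 hv).2).1 (by rw [rQ v hv, hx, a])
    · exact (h2 v ((mQ v).1 hv).1 ((mQ v).1 hv).2).2 (by rw [rQ v hv, Ne, hx]; exact a)
  have hG : ∀ p, G (pp.tm p) = G (pp.pt p) := fun p => by
    unfold Ports.tm
    split_ifs with h
    · rw [← hS.o_pt pp p]
      refine h1 _ ((mQ _).1 (pp.mem p).1).1 ?_
      rw [hS.o_pt pp p, (pp.am _ h).2.2 p.2]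
      exact mem_compl.2 (pp.am _ h).1
    · rfl
  have hlv : ∀ i c, (pp.tm (i, c)).1 ∈ live ↔ i ∈ pp.lv live := fun i c => by
    simp only [Ports.lv, mem_filter, mem_univ, true_and]
    cases h : mo i
    · refine iff_of_false (fun a => (E.live_sub _ a).2 ?_) (by simp)
      exact mem_compl.2 (mem_Q.1 (pp.tm_C h c)).2
    · rw [(pp.tm_mono h c).1]
      simp
  have hla : ∀ i ∈ pp.lv live, mo i = true ∧ pp.a i ∈ live := fun i hi => (mem_filter.1 hi).2
  obtain ⟨d, hd⟩ := hO κ (fun p => G (pp.pt p))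
    (fun p => if (pp.tm p).1 ∈ live then G' (pp.tm p) else G (pp.tm p)) (hf2 _ G hI)
    (fun p => by
      by_cases h : mo p.1 = false ∨ p.1 ∈ pp.lv live
      · rw [(hτ κ p h).1]
        exact h5 _ ((tm_congr hout live _).2 ((pp.tm_iff ok E.live_sub _).2 ⟨p, h, rfl⟩))
      · obtain ⟨i, c⟩ := p
        rw [not_or, Bool.not_eq_false] at h
        rw [ho.dd i c κ h.1 h.2, if_neg ((hlv _ _).not.2 h.2), if_neg ((hlv _ _).not.2 h.2)]
        refine p4_both (h3 (pp.a i) (mem_compl.2 (pp.am i h.1).1) ?_ ?_) (pp.tm_mono h.1 _).1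
          (pp.tm_mono h.1 _).1
        · rw [show t'.m (pp.a i) = t.m (pp.a i) from hS.eq _ (pp.a_Q h.1) none]
          exact fun a => mem_compl.1 a (pp.am i h.1).2.1
        · exact fun a => h.2 (mem_filter.2 ⟨mem_univ _, h.1, a⟩))
    (fun i c h => by
      rw [← hG]
      split_ifs with a
      · have hi := (hlv _ _).1 a
        have := (h4 _ (hla i hi).2).1 ((ra i (hla i hi).1).trans (h.resolve_left fun n => n hi))
          (pp.tm (i, c)).2
        rwa [← (pp.tm_mono (hla i hi).1 c).1] at this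
      · rfl)
    fun i hi h => by
      have := (h4 _ (hla i hi).2).2 (by rwa [ra i (hla i hi).1])
      have a := fun c => (pp.tm_mono (hla i hi).1 c).1
      rw [← hG, ← hG, if_pos ((hlv _ _).2 hi), if_pos ((hlv _ _).2 hi)]
      exact ⟨p4_both this.1 (a _) (a _), p4_both this.2 (a _) (a _)⟩
  obtain ⟨d', hd', hdd⟩ := hC _ G (fun _ => d) hI ⟨fun _ => rfl, fun _ _ _ => rfl, fun _ _ => rfl⟩
    fun p => by rw [hpp, (hd _).1]
  obtain rfl : d = d' := hdd (.inl (Classical.arbitrary I, true))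
  refine ⟨d, fun h a => ?_, fun h a => ?_⟩
  · by_cases q : h.1 ∈ Q t R
    · exact hd' h q
    · obtain ⟨i, hi, e'⟩ := pp.a_sur ok (mem_compl.1 a)
        (by_contra fun n => q (mem_Q.2 ⟨mem_compl.1 a, n⟩))
      obtain ⟨c, hc'⟩ := p4_tm pp hi h.2
      rw [← (hd (i, c)).1, ← hG, hc', e']
  · obtain ⟨i, hi, e'⟩ := pp.a_sur ok (mem_compl.1 (E.live_sub _ a).1)
      (by simpa using (E.live_sub _ a).2)
    obtain ⟨c, hc'⟩ := p4_tm pp hi h.2
    have := (hd (i, c)).2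
    simp only [hc', e', a, if_true] at this
    exact this

end Pool.Agent.MP_8c1b0d_co.RR

end
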