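import Pool.Agent.MP_8c1b0d_co.Mg.RI_A5
import Pool.Agent.MP_8c1b0d_co.Mg.RI_PB
import Pool.Agent.MP_8c1b0d_co.CT4.Base
import Pool.Agent.MP_250189_co.Mg.H72Main

-- part MP_8c1b0d_co.RI.PD
section

section
set_option autoImplicit false
set_option linter.unusedSectionVars false
open Finset Function

namespace Pool.Agent.MP_8c1b0d_co.RI

namespace LS
/-- the mono dart `i` can change its colour -/
def Live (s : LS) (i : Fin 3) : Prop := s.ty i = 2 ∧ (s.mu (i, false)).1 ≠ i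
instance (s : LS) (i : Fin 3) : Decidable (s.Live i) := by unfold Live; infer_instance
/-- the state in which the dart `i` has colour `κ` -/
def sw (s : LS) (i : Fin 3) (κ : Bool) : LS := if s.cl (i, false) = κ then s else s.switch i
def pt (s : LS) (i : Fin 3) (κ b : Bool) : Fin 3 × Bool := (s.sw i κ).mu (i, b == κ)

theorem sw_ok (s : LS) (h : s.a ≠ s.m) (i : Fin 3) (hl : s.Live i) (κ : Bool) :
    (s.sw i κ).a ≠ (s.sw i κ).m ∧ (s.sw i κ).t = s.t ∧ (s.t ≠ .P → (s.sw i κ).m = s.m) ∧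
      (∀ l, (s.sw i κ).cl (i, l) = κ) ∧ ∀ x : Fin 3 × Bool, x.1 ≠ i → (s.sw i κ).cl x = s.cl x := by
  revert s i κ; decide +kernel
theorem pt_ok (s : LS) (h : s.a ≠ s.m) (i : Fin 3) (hl : s.Live i) (κ b : Bool) :
    (s.pt i κ b).1 ≠ i ∧ s.cl (s.pt i κ b) = κ ∧ s.pt i κ b ≠ s.pt i κ (!b) ∧
      (s.sw i !κ).mu (s.pt i κ b) = s.pt i κ (!b) := by
  revert s i κ b; decide +kernel
theorem pt_surj (s : LS) (h : s.a ≠ s.m) (i : Fin 3) (hl : s.Live i) (x : Fin 3 × Bool)
    (hx : x.1 ≠ i) : ∃ b, s.pt i (s.cl x) b = x := by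
  revert s i x; decide +kernel
theorem dead (s : LS) (h : s.a ≠ s.m) (i : Fin 3) (h2 : s.ty i = 2) (hl : ¬ s.Live i) (l : Bool) :
    s.mu (i, l) = (i, !l) := by
  revert s i l; decide +kernel
theorem ty_two (s : LS) (i : Fin 3) (h2 : s.ty i = 2) (l : Bool) :
    s.cl (i, l) = s.cl (i, false) := by
  revert s i l; decide +kernel
theorem ty_cb (s : LS) (i : Fin 3) (b : Bool) (h2 : s.ty i = cb b) (l : Bool) :
    s.cl (i, l) = (l == b) := by
  revert s i l b; decide +kernel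
theorem sw_not (s : LS) (i : Fin 3) (κ : Bool) (h : s.cl (i, false) ≠ κ) : s.sw i (!κ) = s := by
  revert s i κ; decide +kernel
end LS

theorem cb_cases (j : Fin 3) : j = 2 ∨ ∃ b, j = cb b := by revert j; decide
theorem cb_ne (b : Bool) : cb b ≠ 2 := by revert b; decide
theorem cb_inj {b b' : Bool} (h : cb b = cb b') : b = b' := by revert b b'; decide

/-- the state of kind `V` for a colouring with inverse `x` -/
def vs (x : Fin 3 → Fin 3) (k : Bool) : LS := ⟨x 0, x 2, k, .V⟩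
theorem vs_ok (x : Fin 3 → Fin 3) (hx : Injective x) (k : Bool) :
    (vs x k).a ≠ (vs x k).m ∧ (∀ l, (vs x k).cl (x 2, l) = k) ∧
      (∀ b l, (vs x k).cl (x (cb b), l) = (l == b)) ∧
      (∀ b, (vs x k).mu (x (cb b), b == k) = (x 2, b == k)) ∧
      ∀ b, (vs x k).mu (x (cb b), b == !k) = (x (cb !b), (!b) == !k) := by
  have key : ∀ a0 a1 a2 : Fin 3, a0 ≠ a1 → a0 ≠ a2 → a1 ≠ a2 → ∀ k : Bool,
      let x := ![a0, a1, a2]
      (vs x k).a ≠ (vs x k).m ∧ (∀ l, (vs x k).cl (x 2, l) = k) ∧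
      (∀ b l, (vs x k).cl (x (cb b), l) = (l == b)) ∧
      (∀ b, (vs x k).mu (x (cb b), b == k) = (x 2, b == k)) ∧
      ∀ b, (vs x k).mu (x (cb b), b == !k) = (x (cb !b), (!b) == !k) := by decide +kernel
  have e : x = ![x 0, x 1, x 2] := by
    funext i
    fin_cases i <;> rfl
  rw [e]
  exact key _ _ _ (hx.ne (by decide)) (hx.ne (by decide)) (hx.ne (by decide)) k

variable {V : Type} [Fintype V] [DecidableEq V] {G : CG V}

/-- the dart of colour `j` at `u` -/
noncomputable def ix (c : V × Fin 3 → Fin 3) (u : V) : Fin 3 → Fin 3 := invFun fun i => c (u, i)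

section
variable {P : Finset V} {c : V × Fin 3 → Fin 3} (hc : G.PCol P c) {u : V} (hu : u ∈ P)
include hc hu
theorem ix_c (i : Fin 3) : ix c u (c (u, i)) = i :=
  leftInverse_invFun (f := fun i => c (u, i)) (hc.2 u hu) i
theorem c_ix (j : Fin 3) : c (u, ix c u j) = j :=
  rightInverse_invFun (f := fun i => c (u, i))
    (Finite.injective_iff_surjective.1 (hc.2 u hu)) j
theorem ix_inj : Injective (ix c u) := fun a b h => by
  rw [← c_ix hc hu a, h, c_ix hc hu]
end

theorem Out.congr {A : Finset V} {B : Finset (V × Fin 3)} {s s2 : V → LS}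
    {ρ : (V × Fin 3) × Bool → (V × Fin 3) × Bool} (o : Out G A B s ρ) (h : ∀ v ∈ A, s2 v = s v) :
    Out G A B s2 ρ := by
  have hc : ∀ p : (V × Fin 3) × Bool, p.1.1 ∈ A → cP s2 p = cP s p := fun p hp => by
    rw [cP, cP, h _ hp]
  have hm : ∀ p : (V × Fin 3) × Bool, p.1.1 ∈ A → mP s2 p = mP s p := fun p hp => by
    rw [mP, mP, h _ hp]
  refine ⟨o.sub, o.inn, fun v hv => h v hv ▸ o.ok v hv, fun p h1 h2 => ?_, fun p hp => ?_,
    fun Q h1 h2 => ?_⟩
  · rw [hc p h1, hc (G.eP p) (o.inn _ h1 h2).1, o.col p h1 h2]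
  · obtain ⟨a, b, c, d⟩ := o.inv p hp
    exact ⟨a, b, c, by rw [hc _ (o.sub _ a), hc _ (o.sub _ hp), d]⟩
  · obtain ⟨a, b⟩ := o.con Q h1 fun p hp => hm p hp ▸ h2 p hp
    exact ⟨a, fun κ k p hp e => b κ (fun p hp e => k p hp ((hc p (o.sub _ hp)).trans e)) p hp
      ((hc p hp).symm.trans e)⟩

/-- a boundary dart whose two ports are joined at the vertex -/
theorem Out.dead {A : Finset V} {B : Finset (V × Fin 3)} {s : V → LS}
    {ρ : (V × Fin 3) × Bool → (V × Fin 3) × Bool} (o : Out G A B s ρ) {d : V × Fin 3} (hd : d ∈ B)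
    (h : ∀ l, (s d.1).mu (d.2, l) = (d.2, !l)) (l : Bool) : ρ (d, l) = (d, !l) := by
  have h1 := (o.con (fun p => p.1 = d) (fun p _ h2 e => absurd (e ▸ hd) h2) (fun p _ e => by
    obtain ⟨d', l'⟩ := p
    obtain rfl : d' = d := e
    simp [mP, h])).1 (d, l) hd rfl
  have h2 := (o.inv (d, l) hd).2.2.1
  refine Prod.ext h1 ?_
  have : (ρ (d, l)).2 ≠ l := fun e => h2 (Prod.ext h1 e)
  revert this
  cases (ρ (d, l)).2 <;> cases l <;> simp

end Pool.Agent.MP_8c1b0d_co.RI
end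

section
set_option autoImplicit false
set_option linter.unusedSectionVars false
open Finset Function

namespace Pool.Agent.MP_8c1b0d_co.RI
variable {V : Type} [Fintype V] [DecidableEq V]

/-- a coloured pole and states on its outside -/
structure Ctx (G : CG V) (P : Finset V) (c : V × Fin 3 → Fin 3) (σ : V → LS) : Prop where
  hc : G.PCol P c
  ok : ∀ v ∉ P, (σ v).a ≠ (σ v).m
  col : ∀ p : (V × Fin 3) × Bool, p.1.1 ∉ P → (G.e p.1).1 ∉ P → cP σ (G.eP p) = cP σ p
  ty : ∀ d : V × Fin 3, d.1 ∈ P → (G.e d).1 ∉ P → (σ (G.e d).1).ty (G.e d).2 = c d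
  one : ∀ d d' : V × Fin 3, d.1 ∈ P → (G.e d).1 ∉ P → (G.e d').1 ∉ P → d.1 = d'.1 → d = d'
  far : ∀ d d' : V × Fin 3, d.1 ∈ P → (G.e d).1 ∉ P → d'.1 ∈ P → c d = 2 →
    (G.e d).1 = (G.e d').1 → d = d'

section
variable (G : CG V) (P : Finset V) (c : V × Fin 3 → Fin 3) (σ : V → LS)
noncomputable def fd (u : V) : V × Fin 3 := G.e (u, ix c u 2)
noncomputable def lv : Finset V :=
  {u ∈ P | (fd G c u).1 ∉ P ∧ (σ (fd G c u).1).Live (fd G c u).2}
noncomputable def LL : Finset V := (lv G P c σ).image fun u => (fd G c u).1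
noncomputable def AA : Finset V := Pᶜ \ LL G P c σ
noncomputable def pt (κ : Bool) (h : V × Bool) : (V × Fin 3) × Bool :=
  if h.1 ∈ lv G P c σ then (((fd G c h.1).1, ((σ (fd G c h.1).1).pt (fd G c h.1).2 κ h.2).1),
    ((σ (fd G c h.1).1).pt (fd G c h.1).2 κ h.2).2)
  else ((h.1, ix c h.1 (cb h.2)), h.2 == κ)
noncomputable def out (ρ : (V × Fin 3) × Bool → (V × Fin 3) × Bool) (p : (V × Fin 3) × Bool) :
    (V × Fin 3) × Bool :=
  if (G.e p.1).1 ∈ AA G P c σ then G.eP (ρ (G.eP p)) else G.eP p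
def Outer (p : (V × Fin 3) × Bool) : Prop :=
  (G.e p.1).1 ∉ P ∧ ((p.1.1 ∈ P ∧ c p.1 ≠ 2) ∨ p.1.1 ∈ LL G P c σ)
end

namespace Ctx
variable {G : CG V} {P : Finset V} {c : V × Fin 3 → Fin 3} {σ : V → LS} (x : Ctx G P c σ)

theorem mem_lv {u : V} : u ∈ lv G P c σ ↔
    u ∈ P ∧ (fd G c u).1 ∉ P ∧ (σ (fd G c u).1).Live (fd G c u).2 := by simp [lv]
theorem mem_LL {v : V} : v ∈ LL G P c σ ↔ ∃ u ∈ lv G P c σ, (fd G c u).1 = v := by simp only [LL, mem_image]
theorem mem_AA {v : V} : v ∈ AA G P c σ ↔ v ∉ P ∧ v ∉ LL G P c σ := by simp [AA]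
theorem LL_not {v : V} (h : v ∈ LL G P c σ) : v ∉ P := by
  obtain ⟨u, hu, rfl⟩ := mem_LL.1 h
  exact (mem_lv.1 hu).2.1
theorem e_fd (u : V) : G.e (fd G c u) = (u, ix c u 2) := G.ee _

include x
theorem fd_eq {d : V × Fin 3} (h : d.1 ∈ P) (h2 : c d = 2) : fd G c d.1 = G.e d := by
  rw [fd, ← h2, ix_c x.hc h]
theorem LL_leg {d : V × Fin 3} (h : d.1 ∈ P) (hL : (G.e d).1 ∈ LL G P c σ) :
    d.1 ∈ lv G P c σ ∧ c d = 2 ∧ fd G c d.1 = G.e d := by
  obtain ⟨u, hu, e⟩ := mem_LL.1 hL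
  obtain ⟨h1, h2, -⟩ := mem_lv.1 hu
  obtain rfl := x.far (u, ix c u 2) d h1 h2 h (c_ix x.hc h1 2) e
  exact ⟨hu, c_ix x.hc h1 2, rfl⟩
theorem fd_inj {u u' : V} (hu : u ∈ lv G P c σ) (hu' : u' ∈ lv G P c σ)
    (e : (fd G c u).1 = (fd G c u').1) : u = u' := by
  obtain ⟨h1, h2, -⟩ := mem_lv.1 hu
  exact congrArg Prod.fst (x.far (u, ix c u 2) (u', ix c u' 2) h1 h2 (mem_lv.1 hu').1
    (c_ix x.hc h1 2) e)
/-- a dart at a live far end other than the leg does not go to `P` -/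
theorem off {u : V} (hu : u ∈ lv G P c σ) {j : Fin 3} :
    (G.e ((fd G c u).1, j)).1 ∉ P ↔ j ≠ (fd G c u).2 := by
  constructor
  · rintro h rfl
    exact h (by rw [Prod.mk.eta, e_fd]; exact (mem_lv.1 hu).1)
  · intro hj h
    have := (x.LL_leg h (by rw [G.ee]; exact mem_LL.2 ⟨u, hu, rfl⟩))
    have e := x.fd_inj hu this.1 (by rw [this.2.2, G.ee])
    rw [← e, G.ee] at this
    exact hj (congrArg Prod.snd this.2.2).symm

theorem pt_outer (κ : Bool) {h : V × Bool} (ht : TmD G P c (lv G P c σ) h) :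
    Outer G P c σ (pt G P c σ κ h) ∧ cP σ (G.eP (pt G P c σ κ h)) = κ := by
  by_cases hl : h.1 ∈ lv G P c σ
  · obtain ⟨h1, h2, h3⟩ := mem_lv.1 hl
    obtain ⟨a, b, -⟩ := LS.pt_ok _ (x.ok _ h2) _ h3 κ h.2
    have o := (x.off hl).2 a
    rw [pt, if_pos hl]
    exact ⟨⟨o, Or.inr (mem_LL.2 ⟨_, hl, rfl⟩)⟩, (x.col _ h2 o).trans b⟩
  · obtain ⟨h1, i, h2, h3⟩ := ht.resolve_right hl
    rw [pt, if_neg hl, ← h2, ix_c x.hc h1]
    refine ⟨⟨h3, Or.inl ⟨h1, h2 ▸ cb_ne _⟩⟩, ?_⟩
    refine (LS.ty_cb _ _ h.2 ((x.ty (h.1, i) h1 h3).trans h2) _).trans ?_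
    cases h.2 <;> cases κ <;> rfl

theorem outer_pt {p : (V × Fin 3) × Bool} (h : Outer G P c σ p) :
    ∃ t, TmD G P c (lv G P c σ) t ∧ pt G P c σ (cP σ (G.eP p)) t = p := by
  obtain ⟨⟨v, i⟩, l⟩ := p
  obtain ⟨h1, ⟨h2, h3⟩ | h2⟩ := h
  · obtain ⟨b, hb⟩ := (cb_cases _).resolve_left h3
    have hl : v ∉ lv G P c σ := fun hl => by
      have := x.one (v, i) (v, ix c v 2) h2 h1 (mem_lv.1 hl).2.1 rfl
      exact h3 (this ▸ c_ix x.hc h2 2)
    refine ⟨(v, b), Or.inl ⟨h2, i, hb, h1⟩, ?_⟩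
    have e : cP σ (G.eP ((v, i), l)) = (l == b) :=
      LS.ty_cb _ _ b ((x.ty (v, i) h2 h1).trans hb) _
    rw [pt, if_neg hl, e, ← hb, ix_c x.hc h2]
    cases b <;> cases l <;> rfl
  · obtain ⟨u, hu, rfl⟩ := mem_LL.1 h2
    obtain ⟨k1, k2, k3⟩ := mem_lv.1 hu
    obtain ⟨b, hb⟩ := LS.pt_surj _ (x.ok _ k2) _ k3 (i, l) ((x.off hu).1 h1)
    refine ⟨(u, b), Or.inr hu, ?_⟩
    rw [pt, if_pos hu, x.col _ k2 h1]
    exact congrArg (fun z : Fin 3 × Bool => (((fd G c u).1, z.1), z.2)) hb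

theorem pt_inj (κ : Bool) {h h' : V × Bool} (ht : TmD G P c (lv G P c σ) h)
    (ht' : TmD G P c (lv G P c σ) h') (e : pt G P c σ κ h = pt G P c σ κ h') : h = h' := by
  obtain ⟨u, b⟩ := h
  obtain ⟨u', b'⟩ := h'
  unfold pt at e
  split_ifs at e with a a' a'
  · obtain rfl := x.fd_inj a a' (congrArg (fun z => z.1.1) e)
    obtain ⟨h1, h2, h3⟩ := mem_lv.1 a
    by_contra n
    obtain rfl : b' = !b := by
      cases b <;> cases b' <;> simp at n ⊢
    exact (LS.pt_ok _ (x.ok _ h2) _ h3 κ b).2.2.1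
      (Prod.ext (congrArg (fun z => z.1.2) e) (congrArg (fun z => z.2) e))
  · exact absurd ((congrArg (fun z => z.1.1) e) ▸ (ht'.resolve_right a').1) (mem_lv.1 a).2.1
  · exact absurd ((congrArg (fun z => z.1.1) e) ▸ (ht.resolve_right a).1) (mem_lv.1 a').2.1
  · have e1 : u = u' := congrArg (fun z => z.1.1) e
    have e2 : (b == κ) = (b' == κ) := congrArg (fun z => z.2) e
    refine Prod.ext e1 ?_
    revert e2
    cases b <;> cases b' <;> cases κ <;> simp

/-- the two ports of a dead leg are joined -/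
theorem dead {s : V → LS} (hs : ∀ v ∈ AA G P c σ, s v = σ v)
    {ρ : (V × Fin 3) × Bool → (V × Fin 3) × Bool}
    (o : Out G (AA G P c σ) (G.bd (AA G P c σ)) s ρ) {d : V × Fin 3} (h1 : d.1 ∈ P)
    (h2 : (G.e d).1 ∈ AA G P c σ) (h3 : c d = 2) (l : Bool) : ρ (G.e d, l) = (G.e d, !l) := by
  obtain ⟨k1, k2⟩ := mem_AA.1 h2
  refine o.dead (CG.mem_bd.2 ⟨h2, by rw [G.ee]; exact fun k => (mem_AA.1 k).1 h1⟩) (fun l => ?_) l
  rw [hs _ h2]
  refine LS.dead _ (x.ok _ k1) _ ((x.ty d h1 k1).trans h3) (fun hl => k2 ?_) l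
  have e := x.fd_eq h1 h3
  exact mem_LL.2 ⟨d.1, mem_lv.2 ⟨h1, e ▸ k1, e ▸ hl⟩, by rw [e]⟩

theorem out_ok {ρ : (V × Fin 3) × Bool → (V × Fin 3) × Bool}
    (o : Out G (AA G P c σ) (G.bd (AA G P c σ)) σ ρ) {p : (V × Fin 3) × Bool}
    (h : Outer G P c σ p) : Outer G P c σ (out G P c σ ρ p) ∧
      out G P c σ ρ (out G P c σ ρ p) = p ∧ out G P c σ ρ p ≠ p ∧
      cP σ (G.eP (out G P c σ ρ p)) = cP σ (G.eP p) := by
  have nA : p.1.1 ∉ AA G P c σ := fun k =>
    h.2.elim (fun a => (mem_AA.1 k).1 a.1) (mem_AA.1 k).2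
  by_cases k : (G.e p.1).1 ∈ AA G P c σ
  · have hB : (G.eP p).1 ∈ G.bd (AA G P c σ) := CG.mem_bd.2 ⟨k, by rwa [CG.eP, G.ee]⟩
    obtain ⟨a, b, n, d⟩ := o.inv _ hB
    obtain ⟨a1, a2⟩ := CG.mem_bd.1 a
    have e : out G P c σ ρ p = G.eP (ρ (G.eP p)) := if_pos k
    have e1 : G.e (G.eP (ρ (G.eP p))).1 = (ρ (G.eP p)).1 := G.ee _
    rw [e, CG.eP_eP]
    refine ⟨⟨e1 ▸ (mem_AA.1 a1).1, ?_⟩, ?_, fun q => n ((CG.eP_eP _).symm.trans (congrArg G.eP q)), d⟩
    · by_cases hP : (G.e (ρ (G.eP p)).1).1 ∈ P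
      · refine Or.inl ⟨hP, fun h2 => ?_⟩
        have := x.dead (fun _ _ => rfl) o hP (by rw [G.ee]; exact a1) h2 (ρ (G.eP p)).2
        rw [G.ee, Prod.mk.eta, b] at this
        have e2 : p.1 = G.e (ρ (G.eP p)).1 := by
          rw [← show G.e p.1 = _ from congrArg Prod.fst this, G.ee]
        exact h.2.elim (fun a => a.2 (e2 ▸ h2)) fun a => LL_not a (e2 ▸ hP)
      · exact Or.inr (by_contra fun n => a2 (mem_AA.2 ⟨hP, n⟩))
    · rw [out, if_pos (e1 ▸ a1), CG.eP_eP, b, CG.eP_eP]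
  · have hL : (G.e p.1).1 ∈ LL G P c σ := by_contra fun n => k (mem_AA.2 ⟨h.1, n⟩)
    have hL' : p.1.1 ∈ LL G P c σ := h.2.resolve_left fun a => a.2 (x.LL_leg a.1 hL).2.1
    have e : out G P c σ ρ p = G.eP p := if_neg k
    have e1 : G.e (G.eP p).1 = p.1 := G.ee _
    rw [e, CG.eP_eP]
    exact ⟨⟨e1 ▸ LL_not hL', Or.inr hL⟩, by rw [out, if_neg (e1 ▸ nA), CG.eP_eP],
      fun q => G.ne _ (congrArg Prod.fst q), (x.col p (LL_not hL') h.1).symm⟩

theorem exists_tau {ρ : (V × Fin 3) × Bool → (V × Fin 3) × Bool}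
    (o : Out G (AA G P c σ) (G.bd (AA G P c σ)) σ ρ) :
    ∃ τ : Bool → V × Bool → V × Bool, ∀ κ h, TmD G P c (lv G P c σ) h →
      (TmD G P c (lv G P c σ) (τ κ h) ∧ τ κ (τ κ h) = h ∧ τ κ h ≠ h) ∧
        pt G P c σ κ (τ κ h) = out G P c σ ρ (pt G P c σ κ h) := by
  have : ∀ κ h, ∃ t, TmD G P c (lv G P c σ) h →
      TmD G P c (lv G P c σ) t ∧ pt G P c σ κ t = out G P c σ ρ (pt G P c σ κ h) := fun κ h => by
    by_cases ht : TmD G P c (lv G P c σ) h
    · obtain ⟨a, b⟩ := x.pt_outer κ ht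
      obtain ⟨a1, -, -, a2⟩ := x.out_ok o a
      obtain ⟨t, t1, t2⟩ := x.outer_pt a1
      rw [a2, b] at t2
      exact ⟨t, fun _ => ⟨t1, t2⟩⟩
    · exact ⟨h, fun k => absurd k ht⟩
  choose τ hτ using this
  refine ⟨τ, fun κ h ht => ?_⟩
  obtain ⟨a, b⟩ := hτ κ h ht
  obtain ⟨a', b'⟩ := hτ κ _ a
  obtain ⟨-, a1, a2, -⟩ := x.out_ok o (x.pt_outer κ ht).1
  exact ⟨⟨a, x.pt_inj κ a' ht (by rw [b', b, a1]), fun e => a2 (by rw [← b, e])⟩, b⟩

end Ctx
end Pool.Agent.MP_8c1b0d_co.RI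
end

section
set_option autoImplicit false
set_option linter.unusedSectionVars false
open Finset Function

namespace Pool.Agent.MP_8c1b0d_co.RI
variable {V : Type} [Fintype V] [DecidableEq V] {G : CG V}

theorem ind_iff {a b : Prop} [Decidable a] [Decidable b]
    (h : (if a then 1 else 0 : ZMod 2) = if b then 1 else 0) : a ↔ b := by
  by_cases ha : a <;> by_cases hb : b <;> simp_all

theorem Ctx.close {P : Finset V} {c : V × Fin 3 → Fin 3} {σ : V → LS} (x : Ctx G P c σ)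
    {ρ : (V × Fin 3) × Bool → (V × Fin 3) × Bool}
    (o : Out G (AA G P c σ) (G.bd (AA G P c σ)) σ ρ) {τ : Bool → V × Bool → V × Bool}
    (hτ : ∀ κ h, TmD G P c (lv G P c σ) h → TmD G P c (lv G P c σ) (τ κ h) ∧
      pt G P c σ κ (τ κ h) = out G P c σ ρ (pt G P c σ κ h))
    {c' : V × Fin 3 → Fin 3} (hc' : G.PCol P c') (ag : ∀ d ∈ G.bd P, c' d = c d) {r : V → Bool}
    (cl : ClosesD G P c' (lv G P c σ) τ r) :
    ∃ s, Sol G s ∧ (∀ v ∈ P, (s v).t = .V) ∧
      ∀ v ∉ P, (s v).t = (σ v).t ∧ ((s v).t ≠ .P → (s v).m = (σ v).m) := by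
  classical
  have ag' : ∀ d : V × Fin 3, d.1 ∈ P → (G.e d).1 ∉ P → c' d = c d := fun d a b =>
    ag d (CG.mem_bd.2 ⟨a, b⟩)
  have lvP : ∀ u ∈ lv G P c σ, u ∈ P := fun u hu => (Ctx.mem_lv.1 hu).1
  have fd' : ∀ u ∈ lv G P c σ, G.e (u, ix c' u 2) = fd G c u := fun u hu => by
    obtain ⟨h1, h2, -⟩ := Ctx.mem_lv.1 hu
    rw [← (ag' (u, ix c u 2) h1 h2).trans (c_ix x.hc h1 2), ix_c hc' h1, fd]
  have : ∀ v, ∃ u, v ∈ LL G P c σ → u ∈ lv G P c σ ∧ (fd G c u).1 = v := fun v => by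
    by_cases h : v ∈ LL G P c σ
    · exact (Ctx.mem_LL.1 h).imp fun u hu _ => hu
    · exact ⟨v, fun k => absurd k h⟩
  choose lu hlu using this
  obtain ⟨kP, kA, kr⟩ : ∃ kP : V → Bool,
      (∀ v, (G.e (v, ix c' v 2)).1 ∈ AA G P c σ → kP v = cP σ (G.e (v, ix c' v 2), false)) ∧
      ∀ v, (G.e (v, ix c' v 2)).1 ∉ AA G P c σ → kP v = r v :=
    ⟨fun v => if (G.e (v, ix c' v 2)).1 ∈ AA G P c σ then cP σ (G.e (v, ix c' v 2), false)
      else r v, fun v h => if_pos h, fun v h => if_neg h⟩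
  obtain ⟨s, sP, sL, sA⟩ : ∃ s : V → LS, (∀ v ∈ P, s v = vs (ix c' v) (kP v)) ∧
      (∀ u ∈ lv G P c σ, s (fd G c u).1 = (σ (fd G c u).1).sw (fd G c u).2 (r u)) ∧
      ∀ v ∈ AA G P c σ, s v = σ v := by
    refine ⟨fun v => if v ∈ P then vs (ix c' v) (kP v) else if v ∈ LL G P c σ then
      (σ v).sw (fd G c (lu v)).2 (r (lu v)) else σ v, fun v h => if_pos h, fun u hu => ?_,
      fun v h => by simp only [(Ctx.mem_AA.1 h).1, (Ctx.mem_AA.1 h).2, if_false]⟩
    have h := Ctx.mem_LL.2 ⟨u, hu, rfl⟩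
    simp only [Ctx.LL_not h, h, if_true, if_false, x.fd_inj (hlu _ h).1 hu (hlu _ h).2]
  have sw := fun u (hu : u ∈ lv G P c σ) =>
    LS.sw_ok _ (x.ok _ (Ctx.mem_lv.1 hu).2.1) _ (Ctx.mem_lv.1 hu).2.2 (r u)
  have vk := fun v (hv : v ∈ P) => vs_ok _ (ix_inj hc' hv) (kP v)
  have tri : ∀ v, v ∈ P ∨ v ∈ AA G P c σ ∨ ∃ u ∈ lv G P c σ, (fd G c u).1 = v := fun v => by
    rw [Ctx.mem_AA, ← Ctx.mem_LL]; tauto
  have ok : ∀ v, (s v).a ≠ (s v).m := fun v => by
    rcases tri v with h | h | ⟨u, hu, rfl⟩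
    · rw [sP v h]; exact (vk v h).1
    · rw [sA v h]; exact x.ok v (Ctx.mem_AA.1 h).1
    · rw [sL u hu]; exact (sw u hu).1
  have PA : ∀ {v}, v ∈ P → v ∉ AA G P c σ := fun h k => (Ctx.mem_AA.1 k).1 h
  have LA : ∀ {u}, u ∈ lv G P c σ → (fd G c u).1 ∉ AA G P c σ := fun h k =>
    (Ctx.mem_AA.1 k).2 (Ctx.mem_LL.2 ⟨_, h, rfl⟩)
  have kl : ∀ u ∈ lv G P c σ, kP u = r u := fun u hu => kr u (by rw [fd' u hu]; exact LA hu)
  have cO : ∀ p : (V × Fin 3) × Bool, p.1.1 ∉ P → (G.e p.1).1 ∉ P → cP s p = cP σ p := by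
    rintro ⟨⟨v, i⟩, l⟩ h1 h2
    rcases tri v with h | h | ⟨u, hu, rfl⟩
    · exact absurd h h1
    · rw [cP, cP, sA v h]
    · rw [cP, cP, sL u hu]
      exact (sw u hu).2.2.2.2 _ ((x.off hu).1 h2)
  have cb' : ∀ (d : V × Fin 3) b l, d.1 ∈ P → c' d = cb b → cP s (d, l) = (l == b) := by
    rintro ⟨v, i⟩ b l h e
    rw [cP, sP v h, ← (vk v h).2.2.1 b l, ← e, ix_c hc' h]
  have cm : ∀ (d : V × Fin 3) l, d.1 ∈ P → c' d = 2 → cP s (d, l) = kP d.1 := by
    rintro ⟨v, i⟩ l h e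
    rw [cP, sP v h]
    conv_rhs => rw [← (vk v h).2.1 l, ← e, ix_c hc' h]
  have i2 : ∀ d : V × Fin 3, d.1 ∈ P → (d.1, ix c' d.1 (c' d)) = d := fun d h => by
    rw [ix_c hc' h]
  have colP : ∀ p : (V × Fin 3) × Bool, p.1.1 ∈ P → cP s (G.eP p) = cP s p := by
    rintro ⟨d, l⟩ h
    change cP s (G.e d, l) = _
    by_cases h2 : (G.e d).1 ∈ P
    · have e := hc'.1 d h h2
      rcases cb_cases (c' d) with k | ⟨b, k⟩
      · rw [cm _ _ h k, cm _ _ h2 (e.trans k), kr, kr, cl.rm d h h2 k]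
        · rw [← k, i2 d h]; exact PA h2
        · rw [← e.trans k, i2 _ h2, G.ee]; exact PA h
      · rw [cb' _ b _ h k, cb' _ b _ h2 (e.trans k)]
    have e := ag' d h h2
    rcases tri (G.e d).1 with k | k | k
    · exact absurd k h2
    · rw [cP, sA _ k]
      rcases cb_cases (c' d) with k2 | ⟨b, k2⟩
      · rw [cm _ _ h k2, kA _ (by rw [← k2, i2 d h]; exact k), ← k2, i2 d h]
        exact LS.ty_two _ _ ((x.ty d h h2).trans (e.symm.trans k2)) l
      · rw [cb' _ b _ h k2]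
        exact LS.ty_cb _ _ b ((x.ty d h h2).trans (e.symm.trans k2)) l
    · obtain ⟨a1, a2, a3⟩ := x.LL_leg h (Ctx.mem_LL.2 k)
      rw [cm _ _ h (e.trans a2), kl _ a1, ← a3, cP, sL _ a1]
      exact (sw _ a1).2.2.2.1 l
  have col : ∀ p, cP s (G.eP p) = cP s p := fun p => by
    by_cases h : p.1.1 ∈ P
    · exact colP p h
    by_cases h2 : (G.e p.1).1 ∈ P
    · rw [← colP (G.eP p) h2, CG.eP_eP]
    · rw [cO p h h2, cO (G.eP p) h2 (by rwa [CG.eP, G.ee]), x.col p h h2]
  have o' := o.congr sA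
  refine ⟨s, o'.ext ⟨fun v _ => ok v, fun p _ => col p, fun Q he hm p q hp hq e hQ => ?_⟩,
    fun v h => by rw [sP v h]; rfl, fun v h => ?_⟩
  swap
  · rcases tri v with k | k | ⟨u, hu, rfl⟩
    · exact absurd k h
    · rw [sA v k]; exact ⟨rfl, fun _ => rfl⟩
    · rw [sL u hu]
      exact ⟨(sw u hu).2.1, fun n => (sw u hu).2.2.1 ((sw u hu).2.1 ▸ n)⟩
  replace hm : ∀ p : (V × Fin 3) × Bool, (p.1.1 ∉ AA G P c σ ∨ p.1 ∈ G.bd (AA G P c σ)) → Q p →
    Q (if p.1 ∈ G.bd (AA G P c σ) then ρ p else mP s p) := hm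
  have nB : ∀ {p : (V × Fin 3) × Bool}, p.1.1 ∉ AA G P c σ → p.1 ∉ G.bd (AA G P c σ) :=
    fun h k => h (CG.mem_bd.1 k).1
  have eU : ∀ {p : (V × Fin 3) × Bool}, p.1.1 ∉ AA G P c σ →
      (G.eP p).1.1 ∉ AA G P c σ ∨ (G.eP p).1 ∈ G.bd (AA G P c σ) := fun {p} h => by
    rw [CG.mem_bd, CG.eP, G.ee]; tauto
  have qe : ∀ {p : (V × Fin 3) × Bool}, p.1.1 ∉ AA G P c σ → (Q (G.eP p) ↔ Q p) := fun {p} h =>
    ⟨fun k => by simpa [CG.eP_eP] using he _ (eU h) k, he _ (Or.inl h)⟩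
  have qm : ∀ {p : (V × Fin 3) × Bool}, p.1.1 ∉ AA G P c σ → (Q (mP s p) ↔ Q p) := fun {p} h =>
    ⟨fun k => by
      have := hm (mP s p) (Or.inl h) k
      rwa [if_neg (nB (p := mP s p) h), mP_mP (ok _)] at this,
    fun k => by
      have := hm p (Or.inl h) k
      rwa [if_neg (nB h)] at this⟩
  have qr : ∀ {p : (V × Fin 3) × Bool}, p.1 ∈ G.bd (AA G P c σ) → (Q (ρ p) ↔ Q p) := fun {p} h =>
    ⟨fun k => by
      have := hm (ρ p) (Or.inr (o.inv p h).1) k
      rwa [if_pos (o.inv p h).1, (o.inv p h).2.1] at this,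
    fun k => by
      have := hm p (Or.inr h) k
      rwa [if_pos h] at this⟩
  obtain ⟨κ, hκ⟩ : ∃ κ, cP s p = κ := ⟨_, rfl⟩
  let I : Prop → ZMod 2 := fun a => if a then 1 else 0
  have hI : ∀ {a b : Prop}, (a ↔ b) → I a = I b := fun h => by rw [propext h]
  have hI' : ∀ {a b : Prop}, I a = I b → (a ↔ b) := fun h => ind_iff h
  have m1 : ∀ v ∈ P, kP v = κ → ∀ b, Q ((v, ix c' v 2), b == κ) ↔
      Q ((v, ix c' v (cb b)), b == κ) := fun v h k b => by
    rw [← qm (p := ((v, ix c' v (cb b)), b == κ)) (PA h), mP, sP v h, ← k, (vk v h).2.2.2.1]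
  have m2 : ∀ v ∈ P, kP v ≠ κ → (Q ((v, ix c' v (cb true)), true == κ) ↔
      Q ((v, ix c' v (cb false)), false == κ)) := fun v h k => by
    rw [← qm (p := ((v, ix c' v (cb false)), false == κ)) (PA h), mP, sP v h,
      show κ = !kP v by revert k; cases κ <;> cases kP v <;> simp, (vk v h).2.2.2.2]
    rfl
  have m3 : ∀ u ∈ lv G P c σ, r u = κ → ∀ b, Q (pt G P c σ κ (u, b)) ↔ Q (fd G c u, b == κ) :=
    fun u hu k b => by
      rw [← qm (p := (fd G c u, b == κ)) (LA hu), mP, sL u hu, k, pt, if_pos hu]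
      rfl
  obtain ⟨d, d1, d2⟩ := cl.one κ (fun h => I (Q ((h.1, ix c' h.1 (cb h.2)), h.2 == κ)))
    (fun h => I (Q (pt G P c σ κ h)))
    (fun d b h1 h2 k => hI (by
      rw [← qe (p := ((d.1, ix c' d.1 (cb b)), b == κ)) (PA h1), CG.eP, ← k, i2 d h1,
        ← hc'.1 d h1 h2, i2 _ h2]))
    (fun d h1 h2 k => by
      have k' := (hc'.1 d h1 h2).trans k
      have r1 : kP d.1 = r d.1 := kr _ (by rw [← k, i2 d h1]; exact PA h2)
      have r2 : kP (G.e d).1 = r d.1 := by
        rw [kr _ (by rw [← k', i2 _ h2, G.ee]; exact PA h1), cl.rm d h1 h2 k]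
      refine ⟨fun a b => hI ?_, fun a => hI (m2 _ h1 (r1 ▸ a))⟩
      rw [← m1 _ h1 (r1.trans a), ← m1 _ h2 (r2.trans a),
        ← qe (p := ((d.1, ix c' d.1 2), b == κ)) (PA h1), CG.eP]
      rw [show (d.1, ix c' d.1 2) = d by rw [← k, i2 d h1],
        show ((G.e d).1, ix c' (G.e d).1 2) = G.e d by rw [← k', i2 _ h2]])
    (fun d h1 h2 k n => hI (by
      by_cases a : kP d.1 = κ
      swap
      · exact m2 _ h1 a
      have hA : (G.e d).1 ∈ AA G P c σ := Ctx.mem_AA.2 ⟨h2, fun k => n (x.LL_leg h1 k).1⟩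
      rw [← m1 _ h1 a, ← m1 _ h1 a, show (d.1, ix c' d.1 2) = d by rw [← k, i2 d h1],
        ← qe (p := (d, true == κ)) (PA h1), ← qe (p := (d, false == κ)) (PA h1),
        ← qr (p := G.eP (d, false == κ)) (CG.mem_bd.2 ⟨hA, by rw [CG.eP, G.ee]; exact PA h1⟩),
        CG.eP, CG.eP, x.dead (fun _ _ => rfl) o h1 hA ((ag' d h1 h2).symm.trans k)]
      cases κ <;> rfl))
    (fun u hu => by
      refine ⟨fun a b => hI ?_, fun a => ⟨hI (m2 _ (lvP u hu) (kl u hu ▸ a)), hI ?_⟩⟩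
      · rw [m3 u hu a, ← m1 _ (lvP u hu) ((kl u hu).trans a),
          ← qe (p := ((u, ix c' u 2), b == κ)) (PA (lvP u hu)), CG.eP, fd' u hu]
      · rw [← qm (p := pt G P c σ κ (u, false)) (by rw [pt, if_pos hu]; exact LA hu), pt, pt,
          if_pos hu, if_pos hu, mP, sL u hu, show r u = !κ by
            revert a; cases κ <;> cases r u <;> simp,
          (LS.pt_ok _ (x.ok _ (Ctx.mem_lv.1 hu).2.1) _ (Ctx.mem_lv.1 hu).2.2 κ false).2.2.2]
        rfl)
    (fun h ht => by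
      have val : ∀ h, TmD G P c (lv G P c σ) h → (if h.1 ∈ lv G P c σ then
          I (Q (pt G P c σ κ h)) else I (Q ((h.1, ix c' h.1 (cb h.2)), h.2 == κ))) =
          I (Q (pt G P c σ κ h)) := fun h ht => by
        split_ifs with a
        · rfl
        obtain ⟨h1, i, h2, h3⟩ := ht.resolve_right a
        rw [pt, if_neg a, ← h2, ix_c x.hc h1, ← ag' (h.1, i) h1 h3, ix_c hc' h1]
      have ht' : TmD G P c (lv G P c σ) h := ht.imp_left fun ⟨h1, i, h2, h3⟩ =>
        ⟨h1, i, (ag' (h.1, i) h1 h3).symm.trans h2, h3⟩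
      obtain ⟨a, b⟩ := hτ κ h ht'
      rw [val _ a, val _ ht', b]
      have nA : ∀ {p}, Outer G P c σ p → p.1.1 ∉ AA G P c σ := fun h k =>
        h.2.elim (fun a => PA a.1 k) (Ctx.mem_AA.1 k).2
      have ou := (x.pt_outer κ ht').1
      refine hI ?_
      rw [out]
      split_ifs with k
      · have hB : (G.eP (pt G P c σ κ h)).1 ∈ G.bd (AA G P c σ) :=
          CG.mem_bd.2 ⟨k, by rw [CG.eP, G.ee]; exact nA ou⟩
        rw [← qe (p := G.eP (ρ _)) (CG.mem_bd.1 (o.inv _ hB).1).2, CG.eP_eP, qr hB, qe (nA ou)]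
      · exact qe (nA ou))
  have aP : ∀ p : (V × Fin 3) × Bool, p.1.1 ∈ P → cP s p = κ → I (Q p) = d := by
    rintro ⟨t, l⟩ h k
    rcases cb_cases (c' t) with e | ⟨b, e⟩
    · rw [cm _ _ h e] at k
      rw [← d1 (t.1, l == κ) h]
      refine hI ?_
      rw [← m1 _ h k, ← e, i2 t h]
      cases l <;> cases κ <;> rfl
    · rw [cb' _ b _ h e] at k
      rw [← d1 (t.1, b) h, ← e, i2 t h, ← k]
      cases l <;> cases b <;> rfl
  have aA : ∀ p : (V × Fin 3) × Bool, p.1.1 ∉ AA G P c σ → cP s p = κ → I (Q p) = d := by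
    intro p h k
    by_cases h1 : p.1.1 ∈ P
    · exact aP p h1 k
    by_cases h2 : (G.e p.1).1 ∈ P
    · rw [← aP (G.eP p) h2 ((col p).trans k)]
      exact hI (qe h).symm
    have hL : p.1.1 ∈ LL G P c σ := by_contra fun n => h (Ctx.mem_AA.2 ⟨h1, n⟩)
    obtain ⟨t, t1, t2⟩ := x.outer_pt (p := p) ⟨h2, Or.inr hL⟩
    rw [x.col p h1 h2, ← cO p h1 h2, k] at t2
    refine t2 ▸ d2 t (by_contra fun n => h1 ?_)
    rw [← t2, pt, if_neg n]
    exact (t1.resolve_right n).1
  have all : ∀ p : (V × Fin 3) × Bool, (p.1.1 ∉ AA G P c σ ∨ p.1 ∈ G.bd (AA G P c σ)) →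
      cP s p = κ → I (Q p) = d := by
    rintro p (h | h) k
    · exact aA p h k
    · rw [← aA (G.eP p) (CG.mem_bd.1 h).2 ((col p).trans k)]
      refine hI ?_
      rw [← qe (p := G.eP p) (CG.mem_bd.1 h).2, CG.eP_eP]
  exact (hI' ((all p hp hκ).trans (all q hq (e ▸ hκ)).symm)).1 hQ

end Pool.Agent.MP_8c1b0d_co.RI
end

section
set_option autoImplicit false
set_option linter.unusedSectionVars false
open Finset Function

namespace Pool.Agent.MP_8c1b0d_co.RI
variable {V V' : Type} [Fintype V] [DecidableEq V] [Fintype V'] [DecidableEq V'] {G : CG V}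
  {G' : CG V'}

/-- POLE STEP, see h95_full.md section 6. -/
theorem stepC {P : Finset V} {c : V × Fin 3 → Fin 3} (hc : G.PCol P c) (hP : PoleD G P c)
    {O' : Finset V'} {ι : V → V'} (sh : Share G Pᶜ G' O' ι) {s' : V' → LS} (hs : Sol G' s')
    (hne : ∃ v', v' ∉ O') (ty : ∀ d ∈ G.bd P, (s' (ι (G.e d).1)).ty (G.e d).2 = c d)
    (one : ∀ d ∈ G.bd P, ∀ d' ∈ G.bd P, d.1 = d'.1 → d = d')
    (far : ∀ d ∈ G.bd P, ∀ d' ∈ G.bd P, c d = 2 → (G.e d).1 = (G.e d').1 → d = d') :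
    ∃ s, Sol G s ∧ (∀ v ∈ P, (s v).t = .V) ∧
      ∀ v ∉ P, (s v).t = (s' (ι v)).t ∧ ((s v).t ≠ .P → (s v).m = (s' (ι v)).m) := by
  classical
  let σ : V → LS := fun v => s' (ι v)
  let j : (V × Fin 3) × Bool → (V' × Fin 3) × Bool := fun p => ((ι p.1.1, p.1.2), p.2)
  have inner : ∀ d : V × Fin 3, d.1 ∉ P → (G.e d).1 ∉ P →
      G'.e (ι d.1, d.2) = (ι (G.e d).1, (G.e d).2) :=
    fun d a b => sh.inner d (mem_compl.2 a) (mem_compl.2 b)
  have ej : ∀ p, p.1.1 ∉ P → (G.e p.1).1 ∉ P → G'.eP (j p) = j (G.eP p) := fun p a b => by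
    simp only [j, CG.eP, inner _ a b]
  have x : Ctx G P c σ := ⟨hc, fun v _ => hs.ok _,
    fun p a b => (congrArg (cP s') (ej p a b)).symm.trans (hs.col (j p)),
    fun d a b => ty d (CG.mem_bd.2 ⟨a, b⟩),
    fun d d' a b b' e => one d (CG.mem_bd.2 ⟨a, b⟩) d' (CG.mem_bd.2 ⟨e ▸ a, b'⟩) e,
    fun d d' a b a' k e => far d (CG.mem_bd.2 ⟨a, b⟩) d' (CG.mem_bd.2 ⟨a', e ▸ b⟩) k e⟩
  have AP : ∀ v ∈ AA G P c σ, v ∉ P := fun v h => (Ctx.mem_AA.1 h).1
  obtain ⟨A', img⟩ : ∃ A' : Finset V', ∀ v', v' ∈ A' ↔ ∃ v ∈ AA G P c σ, ι v = v' :=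
    ⟨(AA G P c σ).image ι, fun _ => mem_image⟩
  have iO : ∀ v ∉ P, ι v ∈ O' := fun v h => (sh.img _).2 ⟨v, mem_compl.2 h, rfl⟩
  have AO : ∀ v ∈ A', v ∈ O' := fun v h => by
    obtain ⟨w, hw, rfl⟩ := (img v).1 h
    exact iO w (AP w hw)
  have inj : ∀ v ∉ P, ∀ w ∉ P, ι v = ι w → v = w := fun v a w b e =>
    sh.inj (mem_coe.2 (mem_compl.2 a)) (mem_coe.2 (mem_compl.2 b)) e
  have imA : ∀ v ∉ P, (ι v ∈ A' ↔ v ∈ AA G P c σ) := fun v h =>
    ⟨fun k => by
      obtain ⟨w, hw, e⟩ := (img _).1 k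
      exact inj w (AP w hw) v h e ▸ hw, fun k => (img _).2 ⟨v, k, rfl⟩⟩
  obtain ⟨v', hv'⟩ := hne
  have both : ∀ κ, ∃ p : (V' × Fin 3) × Bool, p.1.1 = v' ∧ cP s' p = κ := fun κ => by
    obtain ⟨y, hy⟩ := (s' v').both κ
    exact ⟨((v', y.1), y.2), rfl, hy⟩
  obtain ⟨ρ', o', r'⟩ := hs.red A' (G'.bd A') (fun d h => (CG.mem_bd.1 h).1)
    (fun d h k => by rw [CG.mem_bd] at k ⊢; rw [G'.ee]; tauto)
    fun κ => (both κ).imp fun p ⟨h, h2⟩ => ⟨Or.inl fun k => hv' (AO _ (h ▸ k)), h2⟩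
  have hB : ∀ d : V × Fin 3, d.1 ∈ AA G P c σ →
      (d ∈ G.bd (AA G P c σ) ↔ (ι d.1, d.2) ∈ G'.bd A') := fun d h => by
    rw [CG.mem_bd, CG.mem_bd, imA _ (AP _ h), and_iff_right h, and_iff_right h]
    by_cases k : (G.e d).1 ∈ P
    · exact iff_of_true (fun a => AP _ a k) fun a =>
        sh.leg d (mem_compl.2 (AP _ h)) (by simpa using k) (AO _ a)
    · rw [inner d (AP _ h) k, imA _ k]
  obtain ⟨ρ, o, hρ⟩ := Out.transfer (G := G) (B := G.bd (AA G P c σ)) (s := σ)
    (fun v a w b e => inj v (AP v a) w (AP w b) e) img (fun d h => (CG.mem_bd.1 h).1) hB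
    (fun d h k => by
      have : (G.e d).1 ∈ AA G P c σ := by_contra fun n => k (CG.mem_bd.2 ⟨h, n⟩)
      exact ⟨this, inner d (AP _ h) (AP _ this)⟩) (fun _ _ => rfl) o'
  obtain ⟨τ, hτ⟩ := x.exists_tau o
  obtain ⟨c', hc', ag, r, cl⟩ := hP (lv G P c σ) τ ⟨fun u hu =>
    ⟨(Ctx.mem_lv.1 hu).1, ix c u 2, c_ix hc (Ctx.mem_lv.1 hu).1 2, (Ctx.mem_lv.1 hu).2.1⟩,
    fun κ h ht => (hτ κ h ht).1, fun u => cP σ (fd G c u, false), fun κ Z hZ => by
      by_contra n
      obtain ⟨z0, hz0⟩ := nonempty_iff_ne_empty.2 n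
      have pL : ∀ z ∈ Z, (pt G P c σ κ z).1.1 ∈ LL G P c σ := fun z hz => by
        rw [pt, if_pos (hZ z hz).1]
        exact Ctx.mem_LL.2 ⟨_, (hZ z hz).1, rfl⟩
      have pP := fun z hz => Ctx.LL_not (pL z hz)
      have pA : ∀ z ∈ Z, (pt G P c σ κ z).1.1 ∉ AA G P c σ := fun z hz k =>
        (Ctx.mem_AA.1 k).2 (pL z hz)
      have po := fun z hz => x.pt_outer κ (h := z) (Or.inr (hZ z hz).1)
      have m1 : ∀ z ∈ Z, (if (j (pt G P c σ κ z)).1 ∈ G'.bd A' then ρ' (j (pt G P c σ κ z))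
          else mP s' (j (pt G P c σ κ z))) = j (pt G P c σ κ (z.1, !z.2)) := fun z hz => by
        rw [if_neg fun k => pA z hz ((imA _ (pP z hz)).1 (CG.mem_bd.1 k).1)]
        refine congrArg j (?_ : mP σ _ = _)
        obtain ⟨a, b, -⟩ := hZ z hz
        obtain ⟨h1, h2, h3⟩ := Ctx.mem_lv.1 a
        have := (LS.pt_ok _ (x.ok _ h2) _ h3 κ z.2).2.2.2
        rw [LS.sw_not _ _ _ b] at this
        rw [pt, pt, if_pos a, if_pos a, mP, this]
      obtain ⟨q, q1, q2⟩ := both κ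
      obtain ⟨z, hz, e⟩ := r'.conn
        (fun p => ∃ z ∈ Z, p = j (pt G P c σ κ z) ∨ p = j (G.eP (pt G P c σ κ z)))
        (by
          rintro p - ⟨z, hz, rfl | rfl⟩
          · exact ⟨z, hz, Or.inr (ej _ (pP z hz) (po z hz).1.1)⟩
          · refine ⟨z, hz, Or.inl ?_⟩
            rw [← ej _ (pP z hz) (po z hz).1.1, CG.eP_eP])
        (by
          rintro p - ⟨z, hz, rfl | rfl⟩
          · exact ⟨_, (hZ z hz).2.2.2, Or.inl (m1 z hz)⟩
          have t := (hτ κ z (Or.inr (hZ z hz).1)).2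
          have hz' := (hZ z hz).2.2.1
          rw [out] at t
          split_ifs at t with k
          · have hb : (G.eP (pt G P c σ κ z)).1 ∈ G.bd (AA G P c σ) :=
              CG.mem_bd.2 ⟨k, by rw [CG.eP, G.ee]; exact pA z hz⟩
            refine ⟨_, hz', Or.inr ?_⟩
            rw [t, CG.eP_eP]
            exact (if_pos ((hB _ k).1 hb)).trans (hρ _ hb)
          · rw [← t]
            exact ⟨_, (hZ _ hz').2.2.2, Or.inl (m1 _ hz')⟩)
        (j (pt G P c σ κ z0)) q (Or.inl fun k => pA _ hz0 ((imA _ (pP _ hz0)).1 k))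
        (Or.inl fun k => hv' (AO _ (q1 ▸ k)))
        (((x.col _ (pP _ hz0) (po _ hz0).1.1).symm.trans (po _ hz0).2).trans q2.symm)
        ⟨z0, hz0, Or.inl rfl⟩
      refine hv' (q1 ▸ ?_)
      rcases e with rfl | rfl
      · exact iO _ (pP z hz)
      · exact iO _ (po z hz).1.1⟩
  exact x.close o (fun κ h ht => ⟨(hτ κ h ht).1.1, (hτ κ h ht).2⟩) hc' ag cl

end Pool.Agent.MP_8c1b0d_co.RI
end

section
set_option autoImplicit false
set_option linter.unusedSectionVars false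
open Finset Function

namespace Pool.Agent.MP_8c1b0d_co.RI
variable {V V' : Type} [Fintype V] [DecidableEq V] [Fintype V'] [DecidableEq V'] {G : CG V}
  {G' : CG V'}

theorem exists_rep {H : SimpleGraph V} (hc : ∀ v, (H.neighborSet v).ncard = 3) :
    ∃ G : CG V, G.Rep H := by
  have h1 : ∀ v, ∃ f : Fin 3 → V, Injective f ∧ ∀ w, H.Adj v w ↔ ∃ i, f i = w := fun v => by
    obtain ⟨x, y, z, a, b, c, e⟩ := Set.ncard_eq_three.1 (hc v)
    refine ⟨![x, y, z], fun i j => ?_, fun w => ?_⟩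
    · fin_cases i <;> fin_cases j <;> simp [a, b, c, a.symm, b.symm, c.symm]
    · rw [← H.mem_neighborSet, e]
      simp [Fin.exists_fin_succ, eq_comm]
  choose nb inj adj using h1
  choose g hg using fun d : V × Fin 3 => (adj _ _).1 ((adj d.1 _).2 ⟨d.2, rfl⟩).symm
  refine ⟨⟨fun d => (nb d.1 d.2, g d), fun d => Prod.ext (hg d) (inj d.1 ?_), fun d k =>
    ((adj d.1 _).2 ⟨d.2, rfl⟩).ne' (congrArg Prod.fst k)⟩, fun d => (adj d.1 _).2 ⟨d.2, rfl⟩,
    fun u v k => (adj u v).1 k, fun v i j k => inj v k⟩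
  have := hg (nb d.1 d.2, g d)
  rwa [hg d] at this

/-- a cut with at most two edges gives at most two vertices whose removal disconnects -/
theorem CG.Rep.ec3 {H : SimpleGraph V} (h : G.Rep H) (n : 4 ≤ Fintype.card V)
    (h3 : ∀ S : Finset V, S.card ≤ 2 → (H.induce ((S : Set V)ᶜ)).Connected) : G.EC3 := by
  rintro S hS ⟨b, hb⟩
  by_contra! hc
  have hT : #((G.bd S).image Prod.fst) ≤ 2 := card_image_le.trans (Nat.lt_succ_iff.1 hc)
  by_cases k : S ⊆ (G.bd S).image Prod.fst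
  · have h1 := card_filter_add_card_filter_not (s := S ×ˢ (univ : Finset (Fin 3)))
      fun d => (G.e d).1 ∈ S
    have h2 : #{d ∈ S ×ˢ (univ : Finset (Fin 3)) | (G.e d).1 ∉ S} ≤ G.cut S :=
      card_le_card fun d hd => by simpa only [bd, mem_filter, mem_univ, true_and, mem_product, and_true] using hd
    have h4 : #{d ∈ S ×ˢ (univ : Finset (Fin 3)) | (G.e d).1 ∈ S} ≤ #S.offDiag :=
      card_le_card_of_injOn (fun d => (d.1, (G.e d).1)) (fun d hd => by
        simp only [coe_filter, mem_product, mem_univ, and_true, Set.mem_setOf_eq] at hd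
        exact mem_coe.2 (mem_offDiag.2 ⟨hd.1, hd.2, (h.adj d).ne⟩)) (by
        rintro ⟨u, i⟩ - ⟨v, j⟩ - e
        obtain ⟨rfl, e⟩ := Prod.mk.inj e
        exact congrArg _ (h.inj _ _ _ e))
    rw [card_product, card_univ, Fintype.card_fin] at h1
    rw [offDiag_card] at h4
    have h5 := (card_le_card k).trans hT
    have h6 := hS.card_pos
    obtain e | e : #S = 1 ∨ #S = 2 := by omega
    all_goals rw [e] at h1 h4; omega
  · obtain ⟨a, ha, ha'⟩ := not_subset.1 k
    have hb' : b ∉ (G.bd S).image Prod.fst := fun k => by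
      obtain ⟨d, hd, rfl⟩ := mem_image.1 k
      exact mem_compl.1 hb (mem_filter.1 hd).2.1
    obtain ⟨w⟩ := (h3 _ hT).preconnected ⟨a, ha'⟩ ⟨b, hb'⟩
    have key : ∀ {u v} (_ : (H.induce (((G.bd S).image Prod.fst : Finset V) : Set V)ᶜ).Walk u v),
        u.1 ∈ S → v.1 ∈ S := fun w => by
      induction w with
      | nil => exact id
      | @cons u v _ e _ ih =>
        refine fun hu => ih ?_
        obtain ⟨i, hi⟩ := h.ex u.1 v.1 e
        by_contra k
        exact u.2 (mem_coe.2 (mem_image.2 ⟨(u.1, i), mem_filter.2 ⟨mem_univ _, hu, hi ▸ k⟩, rfl⟩))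
    exact mem_compl.1 hb (key w ha)

/-- label of `(v, i)`: a number for the face of `σ (σ d)`, `d` the dart of `H` along `(v, i)` -/
theorem CG.Rep.plane {H : SimpleGraph V} (h : G.Rep H) (σ : Equiv.Perm H.Dart)
    (h1 : ∀ d, (σ d).fst = d.fst) (h2 : ∀ d, σ d ≠ d)
    (euler : 2 * Nat.card (Face σ) = Fintype.card V + 4) : G.Plane := by
  classical
  have : Fintype (Face σ) := Fintype.ofFinite _
  let enc : Face σ → ℕ := fun f => Fintype.equivFin _ f
  have henc : Injective enc := Fin.val_injective.comp (Fintype.equivFin _).injective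
  let dd : V × Fin 3 → H.Dart := fun d => ⟨(d.1, (G.e d).1), h.adj d⟩
  have sur : ∀ d : H.Dart, ∃ i, dd (d.fst, i) = d := fun d =>
    (h.ex _ _ d.adj).imp fun i hi => SimpleGraph.Dart.ext _ _ (Prod.ext rfl hi)
  have inj : ∀ v i j, dd (v, i) = dd (v, j) → i = j := fun v i j k =>
    h.inj v i j (congrArg (fun d : H.Dart => d.snd) k)
  have sy : ∀ d, dd (G.e d) = (dd d).symm := fun d =>
    SimpleGraph.Dart.ext _ _ (Prod.ext rfl (congrArg Prod.fst (G.ee d)))
  have pr : ∀ d, prs (fun d => enc ⟦σ (σ (dd d))⟧) d = s(enc ⟦dd d⟧, enc ⟦(dd d).symm⟧) := by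
    rintro ⟨v, i⟩
    have three : ∀ d : H.Dart, d.fst = v →
        d = dd (v, i) ∨ d = dd (v, i + 1) ∨ d = dd (v, i + 2) := by
      rintro d rfl
      obtain ⟨j, hj⟩ := sur d
      obtain rfl | rfl | rfl : j = i ∨ j = i + 1 ∨ j = i + 2 := by omega
      exacts [.inl hj.symm, .inr (.inl hj.symm), .inr (.inr hj.symm)]
    have a1 := three _ (h1 (dd (v, i)))
    have a2 := three _ (h1 (dd (v, i + 1)))
    have a3 := three _ (h1 (dd (v, i + 2)))
    have b1 := h2 (dd (v, i))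
    have b2 := h2 (dd (v, i + 1))
    have b3 := h2 (dd (v, i + 2))
    have c1 := σ.injective.ne (mt (inj v i (i + 1)) (by omega))
    have c2 := σ.injective.ne (mt (inj v i (i + 2)) (by omega))
    have c3 := σ.injective.ne (mt (inj v (i + 1) (i + 2)) (by omega))
    have rot : (σ (dd (v, i)) = dd (v, i + 1) ∧ σ (dd (v, i + 1)) = dd (v, i + 2) ∧
        σ (dd (v, i + 2)) = dd (v, i)) ∨ (σ (dd (v, i)) = dd (v, i + 2) ∧
        σ (dd (v, i + 2)) = dd (v, i + 1) ∧ σ (dd (v, i + 1)) = dd (v, i)) := by grind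
    rw [← face_rot, prs]
    rcases rot with ⟨e1, e2, e3⟩ | ⟨e1, e2, e3⟩ <;> simp only [e1, e2, e3]
    exact Sym2.eq_swap
  refine ⟨fun d => enc ⟦σ (σ (dd d))⟧, fun d => ?_, ?_⟩
  · rw [pr, pr, sy, SimpleGraph.Dart.symm_symm, Sym2.eq_swap]
  · rw [← euler, Nat.card_eq_fintype_card, ← card_univ, ← card_image_of_injective _ henc]
    refine Nat.mul_le_mul_left _ (card_le_card fun x hx => ?_)
    obtain ⟨f, -, rfl⟩ := mem_image.1 hx
    obtain ⟨d, rfl⟩ := Quotient.exists_rep f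
    obtain ⟨i, hi⟩ := sur (σ.symm (σ.symm d))
    exact mem_image.2 ⟨_, mem_univ _, by rw [hi, σ.apply_symm_apply, σ.apply_symm_apply]⟩

end Pool.Agent.MP_8c1b0d_co.RI
end

section
set_option autoImplicit false
set_option linter.unusedSectionVars false
open Finset Function

namespace Pool.Agent.MP_8c1b0d_co.RI
variable {V V' : Type} [Fintype V] [DecidableEq V] [Fintype V'] [DecidableEq V'] {G : CG V}
  {G' : CG V'}

/-- colour of the rung -/
def d1_rc (σ : LS) : Bool := if σ.t = .P then σ.k else !σ.k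

theorem d1_deg (σ : LS) (h : σ.a ≠ σ.m) (ht : σ.t = .V ∨ σ.t = .P) (l κ : Bool) :
    (d1_rc σ = κ ∧ ∃ i, ∀ j, σ.cl (j, l) = κ ↔ j = i) ∨
      (d1_rc σ ≠ κ ∧ ∃ i i', i ≠ i' ∧ ∀ j, σ.cl (j, l) = κ ↔ j = i ∨ j = i') := by
  revert σ l κ; decide +kernel

theorem d1_mu (σ : LS) (h : σ.a ≠ σ.m) (ht : σ.t = .V ∨ σ.t = .P) (x : Fin 3 × Bool) :
    (σ.mu x).2 = x.2 ∨ (x.2 ≠ (σ.mu x).2 ∧ d1_rc σ = σ.cl x) := by
  revert σ x; decide +kernel

theorem d1_ex (σ : LS) (h : σ.a ≠ σ.m) (ht : σ.t = .V ∨ σ.t = .P) (l κ : Bool) :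
    ∃ i, σ.cl (i, l) = κ := by
  revert σ l κ; decide +kernel

/-- the graph of colour `κ` -/
def d1_gr {H : SimpleGraph V} (h : G.Rep H) {s : V → LS} (hs : Sol G s) (κ : Bool) :
    SimpleGraph (V × Bool) where
  Adj x y := (x.2 = y.2 ∧ ∃ i, (G.e (x.1, i)).1 = y.1 ∧ (s x.1).cl (i, x.2) = κ) ∨
    (x.1 = y.1 ∧ x.2 ≠ y.2 ∧ d1_rc (s x.1) = κ)
  symm := ⟨by
    rintro ⟨u, l⟩ ⟨v, l'⟩ (⟨e, i, h1, h2⟩ | ⟨e, h1, h2⟩)
    · dsimp only at e h1 h2
      subst e h1
      refine Or.inl ⟨rfl, (G.e (u, i)).2, ?_, ?_⟩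
      · show (G.e (G.e (u, i))).1 = u
        rw [G.ee]
      · exact (hs.col ((u, i), l)).trans h2
    · dsimp only at e h1 h2
      subst e
      exact Or.inr ⟨rfl, fun k => h1 k.symm, h2⟩⟩
  loopless := ⟨by
    rintro ⟨u, l⟩ (⟨_, i, h1, _⟩ | ⟨_, h1, _⟩)
    · exact (h.adj (u, i)).ne h1.symm
    · exact h1 rfl⟩

theorem d1_adj {H : SimpleGraph V} (h : G.Rep H) {s : V → LS} (hs : Sol G s) (κ : Bool)
    (x y : V × Bool) : (d1_gr h hs κ).Adj x y ↔
      (x.2 = y.2 ∧ ∃ i, (G.e (x.1, i)).1 = y.1 ∧ (s x.1).cl (i, x.2) = κ) ∨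
        (x.1 = y.1 ∧ x.2 ≠ y.2 ∧ d1_rc (s x.1) = κ) := Iff.rfl

theorem d1_tour {H : SimpleGraph V} (h : G.Rep H) {s : V → LS} (hs : Sol G s)
    (ht : ∀ v, (s v).t = .V ∨ (s v).t = .P) (κ : Bool) : Tour (d1_gr h hs κ) Set.univ := by
  refine ⟨?_, fun _ _ _ => trivial, ?_⟩
  · rintro ⟨u, l⟩ _
    rcases d1_deg (s u) (hs.ok u) (ht u) l κ with ⟨h1, i, hi⟩ | ⟨h1, i, i', hne, hi⟩
    · refine ⟨((G.e (u, i)).1, l), (u, !l), fun k => ?_, ?_⟩
      · have := congrArg Prod.snd k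
        simp at this
      · rintro ⟨v, l'⟩
        rw [d1_adj]
        constructor
        · rintro (⟨e, j, h2, h3⟩ | ⟨e, h2, _⟩)
          · left
            dsimp only at e h2 h3
            rw [(hi j).1 h3] at h2
            rw [e, h2]
          · right
            dsimp only at e h2
            subst e
            revert h2
            cases l <;> cases l' <;> simp
        · rintro (e | e)
          · obtain ⟨e1, e2⟩ := Prod.mk.inj e
            exact Or.inl ⟨e2.symm, i, e1.symm, (hi i).2 rfl⟩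
          · obtain ⟨e1, e2⟩ := Prod.mk.inj e
            refine Or.inr ⟨e1.symm, ?_, h1⟩
            dsimp only
            rw [e2]
            cases l <;> simp
    · refine ⟨((G.e (u, i)).1, l), ((G.e (u, i')).1, l), fun k => ?_, ?_⟩
      · exact hne (h.inj u i i' (Prod.mk.inj k).1)
      · rintro ⟨v, l'⟩
        rw [d1_adj]
        constructor
        · rintro (⟨e, j, h2, h3⟩ | ⟨_, _, h3⟩)
          · dsimp only at e h2 h3
            rcases (hi j).1 h3 with k | k
            · left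
              rw [k] at h2
              rw [e, h2]
            · right
              rw [k] at h2
              rw [e, h2]
          · exact absurd h3 h1
        · rintro (e | e)
          · obtain ⟨e1, e2⟩ := Prod.mk.inj e
            exact Or.inl ⟨e2.symm, i, e1.symm, (hi i).2 (Or.inl rfl)⟩
          · obtain ⟨e1, e2⟩ := Prod.mk.inj e
            exact Or.inl ⟨e2.symm, i', e1.symm, (hi i').2 (Or.inr rfl)⟩
  · rintro P hP ⟨u, l⟩ ⟨v, l'⟩ _ _ hx
    obtain ⟨i, hi⟩ := d1_ex (s u) (hs.ok u) (ht u) l κ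
    obtain ⟨j, hj⟩ := d1_ex (s v) (hs.ok v) (ht v) l' κ
    refine hs.conn (fun p => cP s p = κ → P (p.1.1, p.2)) ?_ ?_ ((u, i), l) ((v, j), l')
      trivial trivial (hi.trans hj.symm) (fun _ => hx) hj
    · intro p _ hp hc
      rw [hs.col] at hc
      exact hP _ _ ((d1_adj h hs κ (p.1.1, p.2) ((G.e p.1).1, p.2)).2
        (Or.inl ⟨rfl, p.1.2, rfl, hc⟩)) (hp hc)
    · intro p _ hp hc
      rw [cP_mP (hs.ok _)] at hc
      rcases d1_mu (s p.1.1) (hs.ok _) (ht _) (p.1.2, p.2) with e | ⟨e1, e2⟩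
      · show P (p.1.1, ((s p.1.1).mu (p.1.2, p.2)).2)
        rw [e]
        exact hp hc
      · exact hP _ _ ((d1_adj h hs κ (p.1.1, p.2) (p.1.1, ((s p.1.1).mu (p.1.2, p.2)).2)).2
          (Or.inr ⟨rfl, e1, e2.trans hc⟩)) (hp hc)

theorem d1_le {H : SimpleGraph V} (h : G.Rep H) {s : V → LS} (hs : Sol G s) (κ : Bool) :
    d1_gr h hs κ ≤ H.boxProd ⊤ := by
  rintro ⟨u, l⟩ ⟨v, l'⟩ hxy
  rw [SimpleGraph.boxProd_adj]
  rcases (d1_adj h hs κ _ _).1 hxy with ⟨e, i, h1, _⟩ | ⟨e, h1, _⟩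
  · refine Or.inl ⟨?_, e⟩
    dsimp only at h1 ⊢
    rw [← h1]
    exact h.adj (u, i)
  · exact Or.inr ⟨h1, e⟩

theorem d1_lev {H : SimpleGraph V} (h : G.Rep H) {s : V → LS} (hs : Sol G s) (κ : Bool)
    (u : V) (i : Fin 3) (l : Bool) :
    (d1_gr h hs κ).Adj (u, l) ((G.e (u, i)).1, l) ↔ (s u).cl (i, l) = κ := by
  rw [d1_adj]
  constructor
  · rintro (⟨_, j, h1, h2⟩ | ⟨_, h1, _⟩)
    · rw [← h.inj u j i h1]
      exact h2
    · exact absurd rfl h1
  · exact fun k => Or.inl ⟨rfl, i, rfl, k⟩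

/-- The graph of colour `κ` on `V × Bool`: `(u, l)` is adjacent to `((e (u,i)).1, l)` if the port
`((u,i), l)` has colour `κ`, and to `(u, !l)` if the rung has colour `κ` (the rung has colour `!k`
at kind `V`, `k` at kind `P`). `Tour.conn`: for a closed `Q` on `V × Bool` use
`fun p => cP s p = κ → Q (p.1.1, p.2)`. -/
theorem CG.Rep.good {H : SimpleGraph V} (h : G.Rep H) {s : V → LS} (hs : Sol G s)
    (ht : ∀ v, (s v).t = .V ∨ (s v).t = .P) : Good H Set.univ := by
  refine ⟨d1_gr h hs true, d1_gr h hs false, d1_tour h hs ht true, d1_tour h hs ht false,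
    d1_le h hs true, d1_le h hs false, ?_⟩
  intro u v l huv _ _
  obtain ⟨i, rfl⟩ := h.ex u v huv
  rw [d1_lev, d1_lev]
  simp

end Pool.Agent.MP_8c1b0d_co.RI
end

end

-- part MP_8c1b0d_co.Orient
section

/-! Corner labels with Euler's count give an oriented planar map. -/

set_option autoImplicit false

namespace Pool.Agent.MP_8c1b0d_co.Orient

open Finset Module

abbrev F2 : Type := ZMod 2

/-- the coboundary along pairs `p t`, `q t` -/
def cob {W T : Type} (p q : T → W) : (W → F2) →ₗ[F2] (T → F2) :=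
  LinearMap.funLeft F2 F2 p + LinearMap.funLeft F2 F2 q

lemma cob_apply {W T : Type} (p q : T → W) (g : W → F2) (t : T) :
    cob p q g t = g (p t) + g (q t) := rfl

lemma rank_cob {W T : Type} [Fintype W] (p q : T → W)
    (h : ∀ g : W → F2, (∀ t, g (p t) + g (q t) = 0) → ∀ u v, g u = g v) :
    Fintype.card W ≤ finrank F2 (LinearMap.range (cob p q)) + 1 := by
  have k3 := LinearMap.finrank_range_add_finrank_ker (cob p q)
  rw [finrank_fintype_fun_eq_card] at k3
  rcases isEmpty_or_nonempty W with hW | ⟨⟨v₀⟩⟩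
  · simp
  have k1 : finrank F2 (LinearMap.ker (cob p q)) ≤ 1 := by
    let r : LinearMap.ker (cob p q) →ₗ[F2] F2 :=
      (LinearMap.proj v₀).comp (LinearMap.ker (cob p q)).subtype
    have hr : Function.Injective r := by
      rw [injective_iff_map_eq_zero]
      rintro ⟨g, hg⟩ h0
      ext v
      exact (h g (fun t => congrFun (LinearMap.mem_ker.1 hg) t) v v₀).trans h0
    simpa only [ge_iff_le, finrank_self] using LinearMap.finrank_le_finrank_of_injective hr
  omega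

lemma mem_of_orth {T : Type} [Fintype T] (A B : Submodule F2 (T → F2))
    (orth : ∀ a ∈ A, ∀ b ∈ B, a ⬝ᵥ b = 0) (hr : Fintype.card T ≤ finrank F2 A + finrank F2 B)
    (u : T → F2) (hu : ∀ a ∈ A, a ⬝ᵥ u = 0) : u ∈ B := by
  classical
  let Q : LinearMap.BilinForm F2 (T → F2) := dotProductBilin F2 F2
  have hQ : Q.Nondegenerate := by
    constructor
    · intro u hu
      funext d
      simpa only [Pi.zero_apply, Q, dotProductBilin_apply_apply, dotProduct_single, mul_one] using hu (Pi.single d 1)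
    · intro u hu
      funext d
      simpa only [Pi.zero_apply, Q, dotProductBilin_apply_apply, single_dotProduct, one_mul] using hu (Pi.single d 1)
  have le : B ≤ Q.orthogonal A := fun b hb a ha => orth a ha b hb
  have k := LinearMap.BilinForm.finrank_orthogonal hQ A
  rw [finrank_fintype_fun_eq_card] at k
  have eq := Submodule.eq_of_le_of_finrank_le le (by omega)
  rw [eq]
  exact fun a ha => hu a ha

lemma exists_half {D : Type} [Fintype D] [DecidableEq D] {s : D → D} (ss : ∀ v, s (s v) = v)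
    (s_ne : ∀ v, s v ≠ v) : ∃ T : Finset D, (∀ v, s v ∈ T ↔ v ∉ T) ∧
      ∀ (M : Type) [AddCommMonoid M] (φ : D → M), ∑ d, φ d = ∑ t : T, (φ t + φ (s t)) := by
  let e := Fintype.equivFin D
  have hT : ∀ v, s v ∈ univ.filter (fun v => e v < e (s v)) ↔
      v ∉ univ.filter (fun v => e v < e (s v)) := fun v => by
    have : e (s v) ≠ e v := fun k => s_ne v (e.injective k)
    simp only [mem_filter, mem_univ, true_and, ss, not_lt]
    exact ⟨le_of_lt, fun h => lt_of_le_of_ne h this⟩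
  generalize univ.filter (fun v => e v < e (s v)) = T at hT
  refine ⟨T, hT, fun M _ φ => ?_⟩
  rw [sum_coe_sort T fun t => φ t + φ (s t), ← sum_add_sum_compl T, sum_add_distrib]
  congr 1
  refine sum_bij' (fun v _ => s v) (fun v _ => s v) ?_ ?_ ?_ ?_ ?_
  · intro v hv; exact (hT v).2 (mem_compl.1 hv)
  · intro v hv; exact mem_compl.2 fun k => (hT v).1 k hv
  · intro v _; exact ss v
  · intro v _; exact ss v
  · intro v _; rw [ss]

variable {V Φ : Type} [Fintype V] [DecidableEq V] [Fintype Φ]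

/-- every cycle is a sum of faces, and the twist is a cut -/
theorem exact_and_twist (eps : V × Fin 3 → V × Fin 3) (op : V × Fin 3 → Φ)
    (ee : ∀ d, eps (eps d) = d) (ne : ∀ d, eps d ≠ d)
    (mt : ∀ d, s(op (d.1, d.2 + 1), op (d.1, d.2 + 2)) =
      s(op ((eps d).1, (eps d).2 + 1), op ((eps d).1, (eps d).2 + 2)))
    (conn : ∀ P : V → Prop, (∀ d, P d.1 → P (eps d).1) → ∀ u v, P u → P v)
    (surj : Function.Surjective op) (eul : Fintype.card V + 4 ≤ 2 * Fintype.card Φ) :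
    (∀ c : V × Fin 3 → F2, (∀ d, c (eps d) = c d) → (∀ v, ∑ i, c (v, i) = 0) →
      ∃ h : Φ → F2, ∀ d, c d = h (op (d.1, d.2 + 1)) + h (op (d.1, d.2 + 2))) ∧
    ∃ o : V → F2, ∀ d,
      (o d.1 = o (eps d).1 → op (d.1, d.2 + 1) = op ((eps d).1, (eps d).2 + 2) ∧
        op (d.1, d.2 + 2) = op ((eps d).1, (eps d).2 + 1)) ∧
      (o d.1 ≠ o (eps d).1 → op (d.1, d.2 + 1) = op ((eps d).1, (eps d).2 + 1) ∧
        op (d.1, d.2 + 2) = op ((eps d).1, (eps d).2 + 2)) := by
  classical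
  have two : ∀ p q : F2, p + q = 0 ↔ p = q := by decide
  obtain ⟨T, hT, hs⟩ := exists_half ee ne
  let a : V × Fin 3 → Φ := fun d => op (d.1, d.2 + 1)
  let b : V × Fin 3 → Φ := fun d => op (d.1, d.2 + 2)
  have mt' : ∀ d, (a d = a (eps d) ∧ b d = b (eps d)) ∨ (a d = b (eps d) ∧ b d = a (eps d)) :=
    fun d => Sym2.eq_iff.1 (mt d)
  have ext : ∀ R : V × Fin 3 → Prop, (∀ d, R (eps d) → R d) → (∀ t : T, R t) → ∀ d, R d := by
    intro R h1 h2 d
    by_cases hd : d ∈ T
    · exact h2 ⟨d, hd⟩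
    · exact h1 d (h2 ⟨_, (hT d).2 hd⟩)
  have hab : ∀ (h : Φ → F2) d, h (a (eps d)) + h (b (eps d)) = h (a d) + h (b d) := by
    intro h d
    rcases mt' d with k | k <;> rw [k.1, k.2]
    exact add_comm _ _
  let α := cob (fun t : T => t.1.1) fun t : T => (eps t).1
  let β := cob (fun t : T => a t) fun t : T => b t
  have kα : Fintype.card V ≤ finrank F2 (LinearMap.range α) + 1 := by
    refine rank_cob _ _ fun g hg u v => ?_
    have := ext (fun d => g d.1 + g (eps d).1 = 0) (fun d h => by rwa [ee, add_comm] at h) hg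
    exact conn (fun w => g u = g w) (fun d h => h.trans ((two _ _).1 (this d))) u v rfl
  have kβ : Fintype.card Φ ≤ finrank F2 (LinearMap.range β) + 1 := by
    refine rank_cob _ _ fun g hg u v => ?_
    have h1 := ext (fun d => g (a d) + g (b d) = 0) (fun d h => by rwa [hab] at h) hg
    have h2 : ∀ w i, g (op (w, i)) = g (op (w, 0)) := by
      intro w i
      have k1 : g (op (w, 2)) = g (op (w, 0)) := (two _ _).1 (h1 (w, 1))
      have k2 : g (op (w, 0)) = g (op (w, 1)) := (two _ _).1 (h1 (w, 2))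
      fin_cases i
      exacts [rfl, k2.symm, k1]
    obtain ⟨⟨u, i⟩, rfl⟩ := surj u
    obtain ⟨⟨v, j⟩, rfl⟩ := surj v
    rw [h2 u, h2 v]
    refine conn (fun w => g (op (u, 0)) = g (op (w, 0))) (fun d h => h.trans ?_) u v rfl
    rw [← h2 d.1 (d.2 + 1)]
    rcases mt' d with k | k
    · exact (congrArg g k.1).trans (h2 _ _)
    · exact (congrArg g k.1).trans (h2 _ _)
  have hcard : 3 * Fintype.card V = 2 * Fintype.card T := by
    have := hs ℕ fun _ => 1
    simp only [sum_const, card_univ, smul_eq_mul, Fintype.card_prod, Fintype.card_fin] at this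
    omega
  have cyc : ∀ c : V × Fin 3 → F2, (∀ d, c (eps d) = c d) → (∀ v, ∑ i, c (v, i) = 0) →
      ∀ u ∈ LinearMap.range α, u ⬝ᵥ (fun t : T => c t) = 0 := by
    rintro c h1 h2 _ ⟨g, rfl⟩
    have := hs F2 fun d => g d.1 * c d
    rw [Fintype.sum_prod_type] at this
    simp only [← mul_sum, h2, mul_zero, sum_const_zero, h1, ← add_mul] at this
    exact this.symm
  have orth : ∀ u ∈ LinearMap.range α, ∀ w ∈ LinearMap.range β, u ⬝ᵥ w = 0 := by
    rintro u hu _ ⟨h, rfl⟩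
    refine cyc (fun d => h (a d) + h (b d)) (hab h) (fun v => ?_) u hu
    rw [Fin.sum_univ_three]
    show h (op (v, 1)) + h (op (v, 2)) + (h (op (v, 2)) + h (op (v, 0))) +
      (h (op (v, 0)) + h (op (v, 1))) = 0
    generalize h (op (v, 0)) = p, h (op (v, 1)) = q, h (op (v, 2)) = r
    revert p q r; decide
  refine ⟨fun c h1 h2 => ?_, ?_⟩
  · obtain ⟨h, hh⟩ := mem_of_orth _ _ orth (by omega) _ (cyc c h1 h2)
    exact ⟨h, ext (fun d => c d = h (a d) + h (b d)) (fun d k => by rwa [h1, hab] at k)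
      fun t => (congrFun hh t).symm⟩
  · have un : ∀ d, a d = b (eps d) → b d = a (eps d) := by
      intro d k
      rcases mt' d with k' | k'
      · rw [k'.2, ← k, k'.1]
      · exact k'.2
    let τ : V × Fin 3 → ℤ := fun d => if a d = b (eps d) then 0 else 1
    have hτ : ∀ d, τ (eps d) = τ d := by
      intro d
      have : a (eps d) = b (eps (eps d)) ↔ a d = b (eps d) :=
        ⟨fun k => by have := un _ k; rw [ee] at this; exact this.symm,
          fun k => by rw [ee]; exact (un d k).symm⟩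
      simp only [τ, this]
    have tw : ∀ w ∈ LinearMap.range β, w ⬝ᵥ (fun t : T => (τ t : F2)) = 0 := by
      rintro _ ⟨h, rfl⟩
      let H : Φ → ℤ := fun x => (h x).val
      have e1 : ∑ d, H (a d) = ∑ d, H (op d) :=
        Equiv.sum_comp ((Equiv.refl V).prodCongr (Equiv.addRight (1 : Fin 3))) fun d => H (op d)
      have e2 : ∑ d, H (b d) = ∑ d, H (op d) :=
        Equiv.sum_comp ((Equiv.refl V).prodCongr (Equiv.addRight (2 : Fin 3))) fun d => H (op d)
      have e3 := hs ℤ fun d => H (a d) - H (b d)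
      rw [sum_sub_distrib, e1, e2, sub_self] at e3
      have e4 : ∀ t : T, H (a t) - H (b t) + (H (a (eps t)) - H (b (eps t))) =
          2 * ((H (a t) - H (b t)) * τ t) := by
        intro t
        by_cases k : a t = b (eps t)
        · simp only [τ, if_pos k]
          rw [← k, ← un _ k]; ring
        · obtain ⟨k1, k2⟩ := (mt' t).resolve_right fun k' => k k'.1
          simp only [τ, if_neg k]
          rw [← k1, ← k2]; ring
      simp only [e4, ← mul_sum] at e3
      have e5 := congrArg (Int.cast : ℤ → F2) ((mul_eq_zero.1 e3.symm).resolve_left two_ne_zero)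
      have hH : ∀ x, ((H x : ℤ) : F2) = h x := fun x => by
        simp only [H, Int.cast_natCast, ZMod.natCast_zmod_val]
      simp only [Int.cast_sum, Int.cast_mul, Int.cast_sub, hH, Int.cast_zero,
        CharTwo.sub_eq_add] at e5
      exact e5
    obtain ⟨o, ho⟩ := mem_of_orth _ _ (fun w hw u hu => by rw [dotProduct_comm]; exact orth u hu w hw)
      (by omega) _ tw
    have ho' := ext (fun d => (τ d : F2) = o d.1 + o (eps d).1)
      (fun d k => by rwa [hτ, ee, add_comm] at k) fun t => (congrFun ho t).symm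
    refine ⟨o, fun d => ?_⟩
    have k0 := ho' d
    by_cases k : a d = b (eps d)
    · refine ⟨fun _ => ⟨k, un d k⟩, fun k' => absurd ((two _ _).1 ?_) k'⟩
      rw [← k0]; simp only [τ, if_pos k]; rfl
    · refine ⟨fun k' => ?_, fun _ => (mt' d).resolve_right fun k' => k k'.1⟩
      rw [(two _ _).2 k'] at k0
      simp only [τ, if_neg k] at k0
      exact absurd k0 (by decide)

/-- the oriented map -/
def mk (eps : V × Fin 3 → V × Fin 3) (ee : ∀ d, eps (eps d) = d) (ne : ∀ d, eps d ≠ d)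
    (s : V → Fin 3) (hs : ∀ v, s v ≠ 0) : CT4.Map (V × Fin 3) where
  e := Function.Involutive.toPerm eps ee
  n := ⟨fun d => (d.1, d.2 + s d.1), fun d => (d.1, d.2 - s d.1), fun d => by simp, fun d => by simp⟩
  ee := ee
  e_ne := ne
  n_ne d h := hs d.1 (by simpa using congrArg Prod.snd h)
  n23 d := Or.inr (Prod.ext rfl (by
    show d.2 + s d.1 + s d.1 + s d.1 = d.2
    generalize d.2 = i, s d.1 = j
    revert i j; decide))

omit [Fintype V] [DecidableEq V] in
lemma mk_vsum {A : Type} [AddCommMonoid A] (eps : V × Fin 3 → V × Fin 3)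
    (ee : ∀ d, eps (eps d) = d) (ne : ∀ d, eps d ≠ d) (s : V → Fin 3) (hs : ∀ v, s v ≠ 0)
    (c : V × Fin 3 → A) (d : V × Fin 3) : (mk eps ee ne s hs).vsum c d = ∑ i, c (d.1, i) := by
  obtain ⟨v, i⟩ := d
  have h1 : ∀ i j : Fin 3, j ≠ 0 → i + j + j ≠ i := by decide
  unfold CT4.Map.vsum
  rw [if_neg fun h => h1 i (s v) (hs v) (congrArg Prod.snd h), Fin.sum_univ_three]
  show c (v, i) + c (v, i + s v) + c (v, i + s v + s v) = c (v, 0) + c (v, 1) + c (v, 2)
  have := hs v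
  generalize s v = j at this ⊢
  fin_cases i <;> fin_cases j <;> first | exact absurd rfl this | (simp only [Fin.zero_eta, Fin.isValue, Fin.mk_one, zero_add, Fin.reduceAdd, Fin.reduceFinMk]; try abel)

/-- the three nonzero colours -/
def ι (x : CT4.K) : Fin 3 := if x.1 = 0 then 0 else if x.2 = 0 then 1 else 2

lemma ι_ne (p q r : CT4.K) (hp : p ≠ 0) (hq : q ≠ 0) (hr : r ≠ 0) (h : p + q + r = 0) :
    ι p ≠ ι q ∧ ι p ≠ ι r ∧ ι q ≠ ι r := by
  have key : ∀ p q r : CT4.K, p = 0 ∨ q = 0 ∨ r = 0 ∨ p + q + r ≠ 0 ∨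
      (ι p ≠ ι q ∧ ι p ≠ ι r ∧ ι q ≠ ι r) := by decide
  exact ((((key p q r).resolve_left hp).resolve_left hq).resolve_left hr).resolve_left fun k => k h

/-- The four colour theorem for maps gives a three edge colouring of a connected bridgeless cubic
multigraph with corner labels satisfying Euler's count. -/
theorem colour_of_labels
    (four : ∀ (D : Type) [Fintype D] (G : CT4.Map D), G.Planar → G.Bridgeless → G.Colourable)
    (eps : V × Fin 3 → V × Fin 3) (op : V × Fin 3 → ℕ)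
    (ee : ∀ d, eps (eps d) = d) (ne : ∀ d, eps d ≠ d)
    (mt : ∀ d, s(op (d.1, d.2 + 1), op (d.1, d.2 + 2)) =
      s(op ((eps d).1, (eps d).2 + 1), op ((eps d).1, (eps d).2 + 2)))
    (conn : ∀ P : V → Prop, (∀ d, P d.1 → P (eps d).1) → ∀ u v, P u → P v)
    (br : ∀ (S : Set V) (b : V × Fin 3), b.1 ∈ S → (eps b).1 ∉ S →
      ∃ d, d ≠ b ∧ d.1 ∈ S ∧ (eps d).1 ∉ S)
    (eul : Fintype.card V + 4 ≤ 2 * (univ.image op).card) :
    ∃ c : V × Fin 3 → Fin 3, (∀ d, c (eps d) = c d) ∧ ∀ v i j, c (v, i) = c (v, j) → i = j := by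
  let op' : V × Fin 3 → (univ.image op) := fun d => ⟨op d, mem_image_of_mem _ (mem_univ _)⟩
  obtain ⟨pl, o, ho⟩ := exact_and_twist eps op' ee ne (fun d => by
      rcases Sym2.eq_iff.1 (mt d) with k | k
      · exact Sym2.eq_iff.2 (Or.inl ⟨Subtype.ext k.1, Subtype.ext k.2⟩)
      · exact Sym2.eq_iff.2 (Or.inr ⟨Subtype.ext k.1, Subtype.ext k.2⟩)) conn
    (fun ⟨x, hx⟩ => by
      obtain ⟨d, -, rfl⟩ := mem_image.1 hx
      exact ⟨d, rfl⟩) (by rwa [Fintype.card_coe])
  let s : V → Fin 3 := fun v => if o v = 0 then 1 else 2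
  have hs : ∀ v, s v ≠ 0 := fun v => by
    simp only [s]; split_ifs <;> decide
  have key : ∀ d, op' (d.1, d.2 + s d.1) = op' ((eps d).1, (eps d).2 + s (eps d).1 + s (eps d).1) ∧
      op' (d.1, d.2 + s d.1 + s d.1) = op' ((eps d).1, (eps d).2 + s (eps d).1) := by
    intro d
    have h11 : ∀ i : Fin 3, i + 1 + 1 = i + 2 := by decide
    have h22 : ∀ i : Fin 3, i + 2 + 2 = i + 1 := by decide
    have z2 : ∀ p q : F2, p ≠ 0 → q ≠ 0 → p = q := by decide
    obtain ⟨h1, h2⟩ := ho d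
    by_cases k1 : o d.1 = 0 <;> by_cases k2 : o (eps d).1 = 0 <;>
      simp only [s, k1, k2, if_true, if_false, h11, h22]
    · exact h1 (k1.trans k2.symm)
    · exact h2 fun k => k2 (k.symm.trans k1)
    · exact (h2 fun k => k1 (k.trans k2)).symm
    · exact (h1 (z2 _ _ k1 k2)).symm
  obtain ⟨c, ⟨c1, c2⟩, c3⟩ := four _ (mk eps ee ne s hs) (fun c hc => by
      obtain ⟨h, hh⟩ := pl c hc.1 fun v => (mk_vsum eps ee ne s hs c (v, 0)).symm.trans (hc.2 _)
      refine ⟨fun d => h (op' (d.1, d.2 + s d.1)), fun d => congrArg h (key d).1.symm, fun d => ?_⟩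
      show c d = h (op' (d.1, d.2 + s d.1)) + h (op' ((eps d).1, (eps d).2 + s (eps d).1))
      rw [← (key d).2, hh d]
      have h11 : ∀ i : Fin 3, i + 1 + 1 = i + 2 := by decide
      have h22 : ∀ i : Fin 3, i + 2 + 2 = i + 1 := by decide
      by_cases k1 : o d.1 = 0 <;> simp only [s, k1, if_true, if_false, h11, h22]
      exact add_comm _ _)
    (fun A hA b hb => by
      have h1 : ∀ v i, (v, i) ∈ A ↔ (v, 0) ∈ A := by
        intro v i
        have k : ∀ j, (v, j + s v) ∈ A ↔ (v, j) ∈ A := fun j => hA (v, j)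
        have k1 := k 0
        have k2 := (k (0 + s v)).trans k1
        have := hs v
        generalize s v = j at this k1 k2
        fin_cases i <;> fin_cases j <;>
          first | exact Iff.rfl | exact k1 | exact k2 | exact absurd rfl this
      obtain ⟨d, d1, d2, d3⟩ := br {v | (v, 0) ∈ A} b ((h1 _ _).1 hb.1)
        fun k => hb.2 ((h1 _ _).2 k)
      exact ⟨d, ⟨(h1 _ _).2 d2, fun k => d3 ((h1 _ _).1 k)⟩, d1⟩)
  refine ⟨fun d => ι (c d), fun d => congrArg ι (c1 d), fun v i j => ?_⟩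
  have h0 := (mk_vsum eps ee ne s hs c (v, 0)).symm.trans (c2 _)
  rw [Fin.sum_univ_three] at h0
  obtain ⟨n1, n2, n3⟩ := ι_ne _ _ _ (c3 _) (c3 _) (c3 _) h0
  fin_cases i <;> fin_cases j <;> intro h <;>
    first | rfl | exact absurd h n1 | exact absurd h n2 | exact absurd h n3 | exact absurd h.symm n1 | exact absurd h.symm n2 | exact absurd h.symm n3

end Pool.Agent.MP_8c1b0d_co.Orient

end

-- part MP_8c1b0d_co.Topo
section

/-! From a drawing with curves to face labels: a 3-connected cubic graph drawn in the plane has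
labels on its corners that match along edges, with at least `n / 2 + 2` labels. -/

set_option autoImplicit false

namespace Pool.Agent.MP_8c1b0d_co.Topo

open Pool.Agent.MP_250189_co Set

variable {V : Type} {x y : V → ℝ}

open Classical in
noncomputable def ind (E : Set (V × V)) (e : V × V) : ℕ := if e ∈ E then 1 else 0

lemma ind_mem {E : Set (V × V)} {e : V × V} (h : e ∈ E) : ind E e = 1 := if_pos h

lemma ind_not {E : Set (V × V)} {e : V × V} (h : e ∉ E) : ind E e = 0 := if_neg h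

lemma ind_union {E F : Set (V × V)} (h : ∀ e ∈ E, e ∉ F) (e : V × V) :
    ind (E ∪ F) e = ind E e + ind F e := by
  by_cases h1 : e ∈ E
  · rw [ind_mem h1, ind_not (h e h1), ind_mem (Or.inl h1)]
  · by_cases h2 : e ∈ F
    · rw [ind_not h1, ind_mem h2, ind_mem (Or.inr h2)]
    · rw [ind_not h1, ind_not h2, ind_not (fun k => Or.elim k h1 h2)]

/-- the degree of `v` modulo two -/
noncomputable def dg [Fintype V] (E : Set (V × V)) (v : V) : ZMod 2 :=
  ∑ w, ((ind E (v, w) : ZMod 2) + ind E (w, v))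

lemma dg_union [Fintype V] {E F : Set (V × V)} (h : ∀ e ∈ E, e ∉ F) (v : V) :
    dg (E ∪ F) v = dg E v + dg F v := by
  unfold dg
  rw [← Finset.sum_add_distrib]
  refine Finset.sum_congr rfl fun w _ => ?_
  rw [ind_union h, ind_union h]; push_cast; ring

lemma dg_single [Fintype V] [DecidableEq V] (a d v : V) :
    dg {(a, d)} v = (if v = a then 1 else 0) + (if v = d then 1 else 0) := by
  unfold dg
  rw [Finset.sum_add_distrib]
  congr 1
  · by_cases h : v = a <;> simp only [ind, h, mem_singleton_iff, Prod.mk.injEq, true_and, Nat.cast_ite, Nat.cast_one, Nat.cast_zero, Finset.sum_ite_eq', Finset.mem_univ, ↓ reduceIte, false_and, Finset.sum_const_zero]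
  · by_cases h : v = d <;> simp only [ind, h, mem_singleton_iff, Prod.mk.injEq, and_true, Nat.cast_ite, Nat.cast_one, Nat.cast_zero, Finset.sum_ite_eq', Finset.mem_univ, ↓ reduceIte, and_false, Finset.sum_const_zero]

lemma dg_path [Fintype V] [DecidableEq V] (b v : V) (M : List V) : ∀ a : V,
    Inc x (a :: (M ++ [b])) →
    dg (edges (a :: (M ++ [b]))) v = (if v = a then 1 else 0) + (if v = b then 1 else 0) := by
  induction M with
  | nil =>
    intro a _
    have : edges (a :: ([] ++ [b])) = {(a, b)} := by simp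
    rw [this, dg_single]
  | cons d M ih =>
    intro a h
    have h1 : Inc x (d :: (M ++ [b])) := Inc.tail h
    have h2 : x a < x d := h (a, d) (by simp)
    have : edges (a :: (d :: M ++ [b])) = {(a, d)} ∪ edges (d :: (M ++ [b])) := by
      simp only [List.cons_append, edges_cons2]; rfl
    rw [this, dg_union, dg_single, ih d h1]
    · have two : ∀ p : ZMod 2, p + p = 0 := by decide
      linear_combination two (if v = d then 1 else 0)
    · rintro e rfl k
      exact absurd (edge_range h1 k).1 (not_le.2 h2)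

lemma ncard_edges (b : V) (M : List V) : ∀ a : V,
    (edges (a :: (M ++ [b]))).ncard ≤ M.length + 1 := by
  induction M with
  | nil => intro a; simp
  | cons d M ih =>
    intro a
    have := ih d
    have h2 := Set.ncard_insert_le (a, d) (edges (d :: (M ++ [b])))
    simp only [List.cons_append, edges_cons2, List.length_cons] at *
    omega

/-- the midpoint of the interval below an edge -/
noncomputable def mid (x : V → ℝ) (e : V × V) : ℝ := (x e.1 + x e.2) / 2

lemma mid_lt {e : V × V} (h : x e.1 < x e.2) : x e.1 < mid x e ∧ mid x e < x e.2 := by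
  unfold mid; constructor <;> linarith only [h]

/-- a closed curve of edges -/
structure Cyc [Fintype V] (F EE : Set (V × V)) : Prop where
  ne : F.Nonempty
  sub : F ⊆ EE
  ev : ∀ v, dg F v = 0

lemma cyc_of [Fintype V] {a b : V} {M Q : List V} {EE : Set (V × V)}
    (h1 : Inc x (a :: (M ++ [b]))) (h2 : Inc x (a :: (Q ++ [b])))
    (hd : ∀ e ∈ edges (a :: (M ++ [b])), e ∉ edges (a :: (Q ++ [b])))
    (s1 : edges (a :: (M ++ [b])) ⊆ EE) (s2 : edges (a :: (Q ++ [b])) ⊆ EE) :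
    Cyc (edges (a :: (M ++ [b])) ∪ edges (a :: (Q ++ [b]))) EE := by
  classical
  refine ⟨?_, union_subset s1 s2, fun v => ?_⟩
  · obtain ⟨d, hd⟩ := first_edge M a b
    exact ⟨_, Or.inl hd⟩
  · rw [dg_union hd, dg_path b v M a h1, dg_path b v Q a h2]
    have two : ∀ p : ZMod 2, p + p = 0 := by decide
    exact two _

theorem shell_faces [Fintype V] [DecidableEq V] {P P' : List V} {E : Set (V × V)}
    (hs : Shell x y P E P') (hP : Inc x P) :
    ∃ (L : List (Set (V × V))) (N : Finset V),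
      (∀ v ∈ N, x v ∈ dom x P ∧ pf x y P (x v) < y v) ∧
      (∀ e ∈ E, x e.1 < x e.2 ∧ mid x e ∈ dom x P ∧
        pf x y P (mid x e) < ln x y e.1 e.2 (mid x e)) ∧
      E.ncard ≤ L.length + N.card ∧
      (∀ e, (L.map fun F => ind F e).sum + ind (edges P') e = ind (edges P) e + 2 * ind E e) ∧
      ∀ F ∈ L, Cyc F (E ∪ edges P) := by
  induction hs with
  | refl P =>
    refine ⟨[], ∅, by simp, by simp, by simp, fun e => ?_, by simp⟩
    rw [ind_not (E := ∅) (notMem_empty e)]; simp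
  | step A B a b M Q E P' hf hs ih =>
    have hP1 : Inc x (A ++ a :: (Q ++ b :: B)) :=
      inc_mid.2 ⟨(inc_mid.1 hP).1, hf.incQ, (inc_mid.1 hP).2.2⟩
    obtain ⟨L, N, i1, i2, i3, i4, i5⟩ := ih hP1
    have hLo : edges (a :: (M ++ [b])) ⊆ edges (A ++ a :: (M ++ b :: B)) := by
      rw [edges_mid]; exact subset_union_right
    have hUp : edges (a :: (Q ++ [b])) ⊆ edges (A ++ a :: (Q ++ b :: B)) := by
      rw [edges_mid]; exact subset_union_right
    have d1 : ∀ {t}, t ∈ dom x (A ++ a :: (Q ++ b :: B)) → t ∈ dom x (A ++ a :: (M ++ b :: B)) :=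
      fun h => dom_mid hf.incQ h
    -- new edges lie strictly above the old path
    have up : ∀ e ∈ edges (a :: (Q ++ [b])), x e.1 < x e.2 ∧
        mid x e ∈ dom x (A ++ a :: (M ++ b :: B)) ∧
        pf x y (A ++ a :: (M ++ b :: B)) (mid x e) < ln x y e.1 e.2 (mid x e) := by
      intro e he
      have h1 := hf.incQ e he
      obtain ⟨h2, h3⟩ := mid_lt h1
      obtain ⟨h4, h5⟩ := edge_range hf.incQ he
      refine ⟨h1, d1 ⟨e, hUp he, h2.le, h3.le⟩, ?_⟩
      rw [← pf_eq hP1 (hUp he) h2.le h3.le]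
      exact pf_in hf hP hP1 (h4.trans_lt h2) (h3.trans_le h5)
    have on : ∀ {R : List V}, Inc x R → ∀ e ∈ edges R,
        ¬ pf x y R (mid x e) < ln x y e.1 e.2 (mid x e) := by
      intro R hR e he
      obtain ⟨h2, h3⟩ := mid_lt (hR e he)
      rw [pf_eq hR he h2.le h3.le]; exact lt_irrefl _
    have nQP : ∀ e ∈ edges (a :: (Q ++ [b])), e ∉ edges (A ++ a :: (M ++ b :: B)) :=
      fun e he k => on hP e k (up e he).2.2
    have nQE : ∀ e ∈ E, e ∉ edges (a :: (Q ++ [b])) :=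
      fun e he k => on hP1 e (hUp k) (i2 e he).2.2
    have nMQ : ∀ e ∈ edges (a :: (M ++ [b])), e ∉ edges (a :: (Q ++ [b])) :=
      fun e he k => nQP e k (hLo he)
    have side : ∀ {R : List V}, Inc x (a :: (R ++ [b])) →
        ∀ e ∈ edges (A ++ [a]) ∪ edges (b :: B), e ∉ edges (a :: (R ++ [b])) := by
      intro R hR e he k
      obtain ⟨h4, h5⟩ := edge_range hR k
      have h1 := hR e k
      rcases he with he | he
      · have := (inc_mid.1 hP).1.le_last (mem_of_edge he).2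
        linarith only [h4, h1, this]
      · have := (inc_mid.1 hP).2.2.head_le (mem_of_edge he).1
        linarith only [h5, h1, this]
    have hQv : ∀ v ∈ Q, x a < x v ∧ x v < x b ∧ x v ∈ dom x (A ++ a :: (Q ++ b :: B)) ∧
        pf x y (A ++ a :: (Q ++ b :: B)) (x v) = y v := by
      intro v hv
      have h1 : x a < x v := Inc.lt (P := [a]) (R := Q ++ [b]) hf.incQ (by simp) (by simp [hv])
      have h2 : x v < x b := Inc.lt (P := a :: Q) (R := [b]) hf.incQ (by simp [hv]) (by simp)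
      obtain ⟨d, hd⟩ := exists_edge_out (P := a :: Q) (c := v) (by simp [hv]) b
      have hd' : (v, d) ∈ edges (A ++ a :: (Q ++ b :: B)) := hUp hd
      exact ⟨h1, h2, ⟨(v, d), hd', le_rfl, (hP1 _ hd').le⟩, pf_left hP1 hd'⟩
    refine ⟨(edges (a :: (M ++ [b])) ∪ edges (a :: (Q ++ [b]))) :: L, N ∪ Q.toFinset, ?_, ?_, ?_,
      fun e => ?_, ?_⟩
    · intro v hv
      rcases Finset.mem_union.1 hv with hv | hv
      · obtain ⟨h1, h2⟩ := i1 v hv
        exact ⟨d1 h1, (pf_step hf hP hP1 (d1 h1)).trans_lt h2⟩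
      · obtain ⟨h1, h2, h3, h4⟩ := hQv v (List.mem_toFinset.1 hv)
        exact ⟨d1 h3, h4 ▸ pf_in hf hP hP1 h1 h2⟩
    · rintro e (he | he)
      · obtain ⟨h1, h2, h3⟩ := i2 e he
        exact ⟨h1, d1 h2, (pf_step hf hP hP1 (d1 h2)).trans_lt h3⟩
      · exact up e he
    · have h1 := Set.ncard_union_le E (edges (a :: (Q ++ [b])))
      have h2 := ncard_edges b Q a
      have h3 : (N ∪ Q.toFinset).card = N.card + Q.length := by
        rw [Finset.card_union_of_disjoint, List.toFinset_card_of_nodup]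
        · exact ((List.nodup_cons.1 hf.incQ.nodup).2.of_append_left)
        · rw [Finset.disjoint_left]
          intro v hv hq
          exact absurd (i1 v hv).2 (by rw [(hQv v (List.mem_toFinset.1 hq)).2.2.2]; exact lt_irrefl _)
      rw [h3, List.length_cons]
      omega
    · have h1 := i4 e
      rw [edges_mid, ind_union (side hf.incQ)] at h1
      rw [List.map_cons, List.sum_cons, ind_union nMQ, ind_union nQE, edges_mid,
        ind_union (side hf.incM)]
      omega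
    · intro F hF
      rcases List.mem_cons.1 hF with rfl | hF
      · exact cyc_of hf.incM hf.incQ nMQ (hLo.trans subset_union_right)
          (subset_union_right.trans subset_union_left)
      · obtain ⟨h1, h2, h3⟩ := i5 F hF
        refine ⟨h1, h2.trans ?_, h3⟩
        rw [edges_mid, edges_mid]
        rintro e (k | k | k)
        exacts [Or.inl (Or.inl k), Or.inr (Or.inl k), Or.inl (Or.inr k)]

lemma sum_two {n : ℕ} (f : Fin n → ℕ) (p : Fin n → Prop) [DecidablePred p]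
    (h : ∀ k, f k = if p k then 1 else 0) : ∑ k, f k = (Finset.univ.filter p).card := by
  rw [Finset.card_filter]; exact Finset.sum_congr rfl fun k _ => h k

/-- three edges, each in two faces, each face containing none or two of them -/
lemma corners {n : ℕ} (A : Fin n → Fin 3 → Prop) [∀ k i, Decidable (A k i)]
    (h2 : ∀ i, (Finset.univ.filter fun k => A k i).card = 2)
    (ev : ∀ k, (∑ i, if A k i then (1 : ZMod 2) else 0) = 0) :
    ∃ op : Fin 3 → Fin n, Function.Injective op ∧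
      ∀ i k, A k i ↔ k = op (i + 1) ∨ k = op (i + 2) := by
  have par : ∀ k, (A k 0 → (A k 1 ↔ ¬ A k 2)) ∧ (¬ A k 0 → (A k 1 ↔ A k 2)) := by
    intro k
    have := ev k
    rw [Fin.sum_univ_three] at this
    by_cases h0 : A k 0 <;> by_cases h1 : A k 1 <;> by_cases h2 : A k 2 <;>
      simp only [h0, h1, h2, if_true, if_false] at this ⊢ <;> tauto
  let S : Fin 3 → Finset (Fin n) := fun i => Finset.univ.filter fun k => A k (i + 1) ∧ A k (i + 2)
  have spl : ∀ i, (S (i + 1)).card + (S (i + 2)).card = 2 := by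
    intro i
    refine Eq.trans ?_ (h2 i)
    rw [← Finset.card_union_of_disjoint]
    · congr 1
      ext k
      have := par k
      simp only [S, Finset.mem_union, Finset.mem_filter, Finset.mem_univ, true_and]
      fin_cases i <;> simp <;> tauto
    · rw [Finset.disjoint_left]
      intro k k1 k2
      have := par k
      simp only [S, Finset.mem_filter, Finset.mem_univ, true_and] at k1 k2
      fin_cases i <;> simp at k1 k2 <;> tauto
  have one : ∀ i, (S i).card = 1 := by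
    have a0 : (S 1).card + (S 2).card = 2 := spl 0
    have a1 : (S 2).card + (S 0).card = 2 := spl 1
    have a2 : (S 0).card + (S 1).card = 2 := spl 2
    intro i
    fin_cases i
    · show (S 0).card = 1; omega
    · show (S 1).card = 1; omega
    · show (S 2).card = 1; omega
  choose op hop using fun i => Finset.card_eq_one.1 (one i)
  have mem : ∀ i k, k = op i ↔ A k (i + 1) ∧ A k (i + 2) := by
    intro i k
    rw [← Finset.mem_singleton, ← hop i]
    simp only [S, Finset.mem_filter, Finset.mem_univ, true_and]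
  refine ⟨op, fun i j hij => ?_, fun i k => ?_⟩
  · have k1 := (mem i (op i)).1 rfl
    have k2 := (mem j (op i)).1 hij
    have := par (op i)
    revert k1 k2 this
    generalize op i = k
    fin_cases i <;> fin_cases j <;> simp only [Fin.zero_eta, Fin.isValue, zero_add, implies_true, Fin.mk_one, Fin.reduceAdd, zero_ne_one, imp_false, not_and, Classical.not_imp, and_imp, forall_self_imp, Fin.reduceFinMk, Fin.reduceEq, one_ne_zero] <;> tauto
  · rw [mem, mem]
    have := par k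
    fin_cases i <;> simp <;> tauto

theorem faces_of_noK [Fintype V] [DecidableEq V] (G : SimpleGraph V)
    (hcubic : ∀ v : V, (G.neighborSet v).ncard = 3) (h4 : 4 ≤ Fintype.card V)
    (h3 : ∀ S : Finset V, S.card ≤ 2 → (G.induce ((S : Set V)ᶜ)).Connected) (nk : NoK G) :
    ∃ (n : ℕ) (F : Fin n → Set (V × V)) (EE : Set (V × V)),
      (∀ a b, G.Adj a b ↔ (a, b) ∈ EE ∨ (b, a) ∈ EE) ∧ (∀ a b, (a, b) ∈ EE → (b, a) ∉ EE) ∧
      (∀ k, Cyc (F k) EE) ∧ (∀ e, ∑ k, ind (F k) e = 2 * ind EE e) ∧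
      EE.ncard + 2 ≤ n + Fintype.card V := by
  have hc : ∀ C : Set V, C.ncard ≤ 2 → Conn G Cᶜ := by
    intro C hC
    have := h3 (Set.toFinite C).toFinset (by rwa [← Set.ncard_eq_toFinset_card])
    rw [Set.Finite.coe_toFinset] at this
    exact conn_of_induce this
  have hd : ∀ a b c : V, ∃ d, d ≠ a ∧ d ≠ b ∧ d ≠ c := by
    intro a b c
    by_contra hn
    have h1 : (Finset.univ : Finset V) ⊆ {a, b, c} := by
      intro d _
      by_contra k
      simp only [Finset.mem_insert, Finset.mem_singleton, not_or] at k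
      exact hn ⟨d, k⟩
    have h2 := Finset.card_le_card h1
    have h3 : ({a, b, c} : Finset V).card ≤ 3 := Finset.card_le_three
    rw [Finset.card_univ] at h2
    omega
  obtain ⟨z⟩ : Nonempty V := Fintype.card_pos_iff.1 (by omega)
  obtain ⟨u, hzu⟩ : (G.neighborSet z).Nonempty := Set.nonempty_of_ncard_ne_zero (by rw [hcubic]; decide)
  obtain ⟨x, y, P, E, -, k2, k3, -, k5, -⟩ := exists_shelling hc hd nk hzu
  obtain ⟨L, N, i1, i2, i3, i4, i5⟩ := shell_faces k2 k3
  have inv := k2.inv k3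
  have on : ∀ e ∈ E, e ∉ edges (u :: (P ++ [z])) := by
    intro e he k
    obtain ⟨h1, -, h2⟩ := i2 e he
    obtain ⟨h5, h6⟩ := mid_lt h1
    rw [pf_eq k3 k h5.le h6.le] at h2
    exact lt_irrefl _ h2
  have out : ∀ e ∈ edges (u :: (P ++ [z])), e ∉ edges (u :: ([] ++ [z])) := by
    intro e he k
    have e1 : e = (u, z) := by simpa using k
    subst e1
    have hP : P = [] := by
      cases P with
      | nil => rfl
      | cons d P =>
        exfalso
        have h1 : x u < x d := k3 (u, d) (by simp)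
        have h2 : x d < x z := Inc.lt (P := u :: d :: P) (R := [z]) k3 (by simp) (by simp)
        have := edge_unique k3 he (e' := (u, d)) (by simp) h1 h2 h1.le le_rfl
        have h5 : z = d := congrArg Prod.snd this
        rw [h5] at h2
        exact lt_irrefl _ h2
    subst hP
    have hE : ∀ e, e ∉ E := by
      intro e he
      obtain ⟨h1, -, h2⟩ := i2 e he
      obtain ⟨h5, h6⟩ := mid_lt h1
      exact absurd ((inv.s2 e (Or.inl he)).2 _ h5.le h6.le).2.2 (not_le.2 h2)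
    have h1 : G.neighborSet z ⊆ {u} := by
      intro w hw
      rcases (k5 z w).1 hw with (k | k) | (k | k)
      · exact absurd k (hE _)
      · have : z = u ∧ w = z := by simpa using k
        exact absurd this.1 hzu.ne
      · exact absurd k (hE _)
      · have : w = u := by simpa using k
        exact this
    have := Set.ncard_le_ncard h1
    rw [hcubic, Set.ncard_singleton] at this
    omega
  let L' := (edges (u :: (P ++ [z])) ∪ edges (u :: ([] ++ [z]))) :: L
  refine ⟨L'.length, L'.get, E ∪ edges (u :: (P ++ [z])), k5, fun a b h1 h2 => ?_, fun k => ?_,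
    fun e => ?_, ?_⟩
  · exact lt_asymm (inv.s2 _ h1).1 (inv.s2 _ h2).1
  · rcases List.mem_cons.1 (List.get_mem L' k) with h | h
    · rw [h]; exact cyc_of k3 inv.inc out subset_union_right inv.s3
    · exact i5 _ h
  · have h1 : ∑ k, ind (L'.get k) e = (L'.map fun F => ind F e).sum := by
      rw [← List.sum_ofFn]
      congr 1
      conv_rhs => rw [← List.ofFn_get L', List.map_ofFn]
      rfl
    have := i4 e
    rw [h1, List.map_cons, List.sum_cons, ind_union out, ind_union on]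
    omega
  · have h1 := Set.ncard_union_le E (edges (u :: (P ++ [z])))
    have h2 := ncard_edges z P u
    have h5 : (N ∪ (u :: (P ++ [z])).toFinset).card = N.card + (P.length + 2) := by
      rw [Finset.card_union_of_disjoint, List.toFinset_card_of_nodup k3.nodup]
      · simp
      · rw [Finset.disjoint_left]
        intro v hv hq
        exact absurd (i1 v hv).2 (by rw [pf_vertex k3 (List.mem_toFinset.1 hq)]; exact lt_irrefl _)
    have h6 := Finset.card_le_univ (N ∪ (u :: (P ++ [z])).toFinset)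
    have h7 : L'.length = L.length + 1 := List.length_cons
    omega

theorem noK_of_frozen (G : SimpleGraph V) (p : V → ℂ) (hp : Function.Injective p)
    (γ : ∀ u v : V, G.Adj u v → Path (p u) (p v))
    (hv : ∀ (u v : V) (h : G.Adj u v) (t : unitInterval),
      0 < (t : ℝ) → (t : ℝ) < 1 → ∀ w : V, γ u v h t ≠ p w)
    (hx : ∀ (u v : V) (h : G.Adj u v) (u' v' : V) (h' : G.Adj u' v') (t t' : unitInterval),
      0 < (t : ℝ) → (t : ℝ) < 1 → 0 < (t' : ℝ) → (t' : ℝ) < 1 →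
      γ u v h t = γ u' v' h' t' → s(u, v) = s(u', v')) : NoK G := by
  let e := Complex.orthonormalBasisOneI.repr
  have tri : ∀ (a b : V) (h : G.Adj a b) (t : unitInterval), (0 < (t : ℝ) ∧ (t : ℝ) < 1) ∨
      γ a b h t = p a ∨ γ a b h t = p b := by
    intro a b h t
    rcases t.2.1.eq_or_lt with h0 | h0
    · exact Or.inr (Or.inl (by rw [show t = 0 from Subtype.ext h0.symm, Path.source]))
    · rcases t.2.2.eq_or_lt with h1 | h1
      · exact Or.inr (Or.inr (by rw [show t = 1 from Subtype.ext h1, Path.target]))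
      · exact Or.inl ⟨h0, h1⟩
  refine noK_of_curves G (fun v => e (p v)) (fun a b h => (γ a b h).map e.continuous)
    (e.injective.comp hp) ?_ ?_
  · rintro a b h w ⟨t, ht⟩
    have ht' : γ a b h t = p w := e.injective ht
    rcases tri a b h t with k | k | k
    · exact absurd ht' (hv a b h t k.1 k.2 w)
    · exact Or.inl (hp (ht'.symm.trans k))
    · exact Or.inr (hp (ht'.symm.trans k))
  · rintro a b c d h h' hne _ ⟨⟨t, rfl⟩, t', ht⟩
    have ht' : γ c d h' t' = γ a b h t := e.injective ht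
    have end1 : γ a b h t = p a ∨ γ a b h t = p b := by
      rcases tri a b h t with k | k
      · rcases tri c d h' t' with k' | k' | k'
        · exact absurd (hx a b h c d h' t t' k.1 k.2 k'.1 k'.2 ht'.symm) hne
        · exact absurd (ht'.symm.trans k') (hv a b h t k.1 k.2 c)
        · exact absurd (ht'.symm.trans k') (hv a b h t k.1 k.2 d)
      · exact k
    have end2 : γ c d h' t' = p c ∨ γ c d h' t' = p d := by
      rcases tri c d h' t' with k | k
      · rcases end1 with k' | k'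
        · exact absurd (ht'.trans k') (hv c d h' t' k.1 k.2 a)
        · exact absurd (ht'.trans k') (hv c d h' t' k.1 k.2 b)
      · exact k
    exact ⟨end1.imp (congrArg e) (congrArg e),
      end2.imp (fun k => congrArg e (ht'.symm.trans k)) fun k => congrArg e (ht'.symm.trans k)⟩

/-- Corner labels: `op (v, i)` is the face at `v` opposite to the `i`-th edge. -/
theorem exists_labels [Fintype V] [DecidableEq V] (G : SimpleGraph V)
    (hcubic : ∀ v : V, (G.neighborSet v).ncard = 3) (h4 : 4 ≤ Fintype.card V)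
    (h3 : ∀ S : Finset V, S.card ≤ 2 → (G.induce ((S : Set V)ᶜ)).Connected) (nk : NoK G) :
    ∃ (eps : V × Fin 3 → V × Fin 3) (op : V × Fin 3 → ℕ),
      (∀ d, eps (eps d) = d) ∧ (∀ v w, G.Adj v w ↔ ∃ i, (eps (v, i)).1 = w) ∧
      (∀ v i j, (eps (v, i)).1 = (eps (v, j)).1 → i = j) ∧
      (∀ v i j, op (v, i) = op (v, j) → i = j) ∧
      (∀ d, s(op (d.1, d.2 + 1), op (d.1, d.2 + 2)) =
        s(op ((eps d).1, (eps d).2 + 1), op ((eps d).1, (eps d).2 + 2))) ∧
      Fintype.card V + 4 ≤ 2 * (Finset.univ.image op).card := by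
  classical
  obtain ⟨n, F, EE, a1, a2, a3, a4, a5⟩ := faces_of_noK G hcubic h4 h3 nk
  have hq : ∀ v, Nonempty (Fin 3 ≃ G.neighborSet v) := fun v =>
    ⟨(Finite.equivFinOfCardEq (by rw [Nat.card_coe_set_eq, hcubic])).symm⟩
  let q : ∀ v, Fin 3 ≃ G.neighborSet v := fun v => (hq v).some
  let nb : V → Fin 3 → V := fun v i => (q v i).1
  have adj : ∀ v i, G.Adj v (nb v i) := fun v i => (q v i).2
  have inj : ∀ v i j, nb v i = nb v j → i = j := fun v i j h => (q v).injective (Subtype.ext h)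
  have sur : ∀ v w, G.Adj v w → ∃ i, nb v i = w := fun v w h =>
    ⟨(q v).symm ⟨w, h⟩, congrArg Subtype.val ((q v).apply_symm_apply ⟨w, h⟩)⟩
  choose back hback using fun v i => sur (nb v i) v (adj v i).symm
  let A : V → Fin n → Fin 3 → Prop := fun v k i => (v, nb v i) ∈ F k ∨ (nb v i, v) ∈ F k
  have hA : ∀ v w k, ind (F k) (v, w) + ind (F k) (w, v) =
      if (v, w) ∈ F k ∨ (w, v) ∈ F k then 1 else 0 := by
    intro v w k
    by_cases h1 : (v, w) ∈ F k
    · rw [ind_mem h1, ind_not fun h2 => a2 v w ((a3 k).sub h1) ((a3 k).sub h2), if_pos (Or.inl h1)]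
    · by_cases h2 : (w, v) ∈ F k
      · rw [ind_not h1, ind_mem h2, if_pos (Or.inr h2)]
      · rw [ind_not h1, ind_not h2, if_neg fun k => k.elim h1 h2]
  have two : ∀ v i, (Finset.univ.filter fun k => A v k i).card = 2 := by
    intro v i
    rw [← sum_two _ _ fun k => hA v (nb v i) k, Finset.sum_add_distrib, a4, a4]
    rcases (a1 _ _).1 (adj v i) with h | h
    · rw [ind_mem h, ind_not (a2 _ _ h)]
    · rw [ind_mem h, ind_not (a2 _ _ h)]
  have ev : ∀ v k, (∑ i, if A v k i then (1 : ZMod 2) else 0) = 0 := by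
    intro v k
    refine Eq.trans ?_ ((a3 k).ev v)
    unfold dg
    refine Finset.sum_of_injOn (nb v) (fun i _ j _ h => inj v i j h) (fun _ _ => Finset.mem_univ _)
      (fun w _ hw => ?_) fun i _ => ?_
    · have hn : ¬ G.Adj v w := fun h => by
        obtain ⟨i, hi⟩ := sur v w h
        exact hw ⟨i, Finset.mem_coe.2 (Finset.mem_univ _), hi⟩
      rw [ind_not fun k1 => hn ((a1 _ _).2 (Or.inl ((a3 k).sub k1))),
        ind_not fun k1 => hn ((a1 _ _).2 (Or.inr ((a3 k).sub k1)))]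
      simp
    · rw [← Nat.cast_add, hA]
      by_cases h : A v k i
      · rw [if_pos h, if_pos h]; rfl
      · rw [if_neg h, if_neg h]; rfl
  choose op o1 o2 using fun v => corners (A v) (two v) (ev v)
  refine ⟨fun d => (nb d.1 d.2, back d.1 d.2), fun d => op d.1 d.2, fun d => ?_,
    fun v w => ⟨sur v w, fun ⟨i, hi⟩ => hi ▸ adj v i⟩, inj, fun v i j h => o1 v (Fin.ext h),
    fun d => ?_, ?_⟩
  · have h1 := hback d.1 d.2
    refine Prod.ext h1 (inj d.1 _ _ ?_)
    have h2 := hback (nb d.1 d.2) (back d.1 d.2)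
    simp only at h2 ⊢
    generalize back (nb d.1 d.2) (back d.1 d.2) = j at h2 ⊢
    rwa [h1] at h2
  · obtain ⟨v, i⟩ := d
    have key : ∀ k, (k = op v (i + 1) ∨ k = op v (i + 2)) ↔
        (k = op (nb v i) (back v i + 1) ∨ k = op (nb v i) (back v i + 2)) := by
      intro k
      rw [← o2, ← o2]
      simp only [A, hback]
      exact or_comm
    have n1 : ∀ w j, op w (j + 1) ≠ op w (j + 2) := fun w j h =>
      absurd (add_left_cancel (o1 w h)) (by decide)
    have k1 := (key _).1 (Or.inl rfl)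
    have k2 := (key _).1 (Or.inr rfl)
    have k3 := n1 v i
    simp only [Sym2.eq_iff, Fin.val_inj]
    rcases k1 with k1 | k1 <;> rcases k2 with k2 | k2
    · exact absurd (k1.trans k2.symm) k3
    · exact Or.inl ⟨k1, k2⟩
    · exact Or.inr ⟨k1, k2⟩
    · exact absurd (k1.trans k2.symm) k3
  · have h1 : n ≤ (Finset.univ.image fun d : V × Fin 3 => (op d.1 d.2 : ℕ)).card := by
      refine (Finset.card_range n).symm.trans_le (Finset.card_le_card fun k hk => ?_)
      obtain ⟨⟨a, b⟩, he⟩ := (a3 ⟨k, Finset.mem_range.1 hk⟩).ne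
      obtain ⟨i, rfl⟩ := sur a b ((a1 _ _).2 (Or.inl ((a3 _).sub he)))
      rcases (o2 a i _).1 (Or.inl he) with h | h
      · exact Finset.mem_image.2 ⟨(a, i + 1), Finset.mem_univ _, (congrArg Fin.val h).symm⟩
      · exact Finset.mem_image.2 ⟨(a, i + 2), Finset.mem_univ _, (congrArg Fin.val h).symm⟩
    have h2 : Fintype.card (V × Fin 3) ≤ ((Set.toFinite EE).toFinset ×ˢ (Finset.univ : Finset Bool)).card := by
      refine Finset.card_le_card_of_injOn (fun d => if (d.1, nb d.1 d.2) ∈ EE then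
        ((d.1, nb d.1 d.2), true) else ((nb d.1 d.2, d.1), false)) (fun d _ => ?_) ?_
      · simp only [Finset.coe_product, Finset.coe_univ, Set.Finite.coe_toFinset]
        split_ifs with h
        · exact ⟨h, mem_univ _⟩
        · exact ⟨((a1 _ _).1 (adj _ _)).resolve_left h, mem_univ _⟩
      · rintro ⟨v, i⟩ - ⟨w, j⟩ - h
        simp only at h
        split_ifs at h
        · simp only [Prod.mk.injEq, and_true] at h
          obtain ⟨rfl, h⟩ := h
          rw [inj _ _ _ h]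
        · simp at h
        · simp at h
        · simp only [Prod.mk.injEq, and_true] at h
          obtain ⟨h, rfl⟩ := h
          rw [inj _ _ _ h]
    rw [Fintype.card_prod, Fintype.card_fin, Finset.card_product, Finset.card_univ,
      Fintype.card_bool, ← Set.ncard_eq_toFinset_card] at h2
    omega

/-- The hypotheses of the frozen statement give a cubic map with corner labels. -/
theorem bridge (V : Type) [Fintype V] [DecidableEq V] (G : SimpleGraph V)
    (hcubic : ∀ v : V, (G.neighborSet v).ncard = 3) (h4 : 4 ≤ Fintype.card V)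
    (h3 : ∀ S : Finset V, S.card ≤ 2 → (G.induce ((S : Set V)ᶜ)).Connected)
    (hpl : ∃ p : V → ℂ, Function.Injective p ∧
        ∃ γ : ∀ u v : V, G.Adj u v → Path (p u) (p v),
          (∀ (u v : V) (h : G.Adj u v), Function.Injective (γ u v h)) ∧
          (∀ (u v : V) (h : G.Adj u v) (t : unitInterval),
              0 < (t : ℝ) → (t : ℝ) < 1 → ∀ w : V, γ u v h t ≠ p w) ∧
          (∀ (u v : V) (h : G.Adj u v) (u' v' : V) (h' : G.Adj u' v')
              (t t' : unitInterval),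
              0 < (t : ℝ) → (t : ℝ) < 1 → 0 < (t' : ℝ) → (t' : ℝ) < 1 →
              γ u v h t = γ u' v' h' t' → Sym2.mk (u, v) = Sym2.mk (u', v'))) :
    ∃ (eps : V × Fin 3 → V × Fin 3) (op : V × Fin 3 → ℕ),
      (∀ d, eps (eps d) = d) ∧ (∀ v w, G.Adj v w ↔ ∃ i, (eps (v, i)).1 = w) ∧
      (∀ v i j, (eps (v, i)).1 = (eps (v, j)).1 → i = j) ∧
      (∀ v i j, op (v, i) = op (v, j) → i = j) ∧
      (∀ d, s(op (d.1, d.2 + 1), op (d.1, d.2 + 2)) =
        s(op ((eps d).1, (eps d).2 + 1), op ((eps d).1, (eps d).2 + 2))) ∧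
      Fintype.card V + 4 ≤ 2 * (Finset.univ.image op).card := by
  obtain ⟨p, hp, γ, -, hv, hx⟩ := hpl
  refine exists_labels G hcubic h4 h3 (noK_of_frozen G p hp γ hv ?_)
  intro u v h u' v' h' t t' a b c d e
  have k : (u, v) = (u', v') :=
    Sym2.congr_left.1 (congrFun (hx u v h u' v' h' t t' a b c d e) (u, v))
  rw [(Prod.mk.inj k).1, (Prod.mk.inj k).2]

end Pool.Agent.MP_8c1b0d_co.Topo

end
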