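import Pool.Agent.MP_8c1b0d_co.Mg.RR_SP4a
import Pool.Agent.MP_8c1b0d_co.Mg.RR_Q
import Pool.Agent.MP_8c1b0d_co.Mg.RR_F
import Pool.Agent.MP_8c1b0d_co.Mg.RR_G
import Pool.Agent.MP_8c1b0d_co.Mg.RR_F5
import Pool.Agent.MP_8c1b0d_co.Mg.RR_SP
import Pool.Agent.MP_8c1b0d_co.Mg.RR_P
import Pool.Agent.MP_8c1b0d_co.Mg.RI_A5
import Pool.Agent.MP_8c1b0d_co.Mg.RI_PE
import Pool.Agent.MP_8c1b0d_co.Mg.Topo
import Pool.Agent.MP_8c1b0d_co.Mg.RI_PB

-- part MP_8c1b0d_co.RR.SP4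
section

set_option autoImplicit false
set_option linter.unusedSectionVars false
open Finset

namespace Pool.Agent.MP_8c1b0d_co.RR

/-! renumberings -/

def sp4_sg (c : ℕ) (i : Fin 4) : Fin 4 := Fin.ofNat 4 (c >>> (2 * i.val))
def sp4_si (c : ℕ) (i : Fin 4) : Fin 4 := Fin.ofNat 4 (c >>> (8 + 2 * i.val))
def sp4_ef (c : ℕ) (p : sp4_Pt) : sp4_Pt := (sp4_sg c p.1, xor p.2 (c.testBit (16 + p.1.val)))
def sp4_ok (c : ℕ) : Prop := ∀ i, sp4_si c (sp4_sg c i) = i ∧ sp4_sg c (sp4_si c i) = i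
instance (c : ℕ) : Decidable (sp4_ok c) := by unfold sp4_ok; infer_instance

def sp4_mkE (c : ℕ) (h : sp4_ok c) : sp4_Pt ≃ sp4_Pt where
  toFun := sp4_ef c
  invFun p := (sp4_si c p.1, xor p.2 (c.testBit (16 + (sp4_si c p.1).val)))
  left_inv p := by simp [sp4_ef, (h p.1).1]
  right_inv p := by simp [sp4_ef, (h p.1).2]

theorem sp4_adm (c : ℕ) (h : sp4_ok c) : Adm mo4 (sp4_mkE c h) := fun i =>
  ⟨fun _ => ⟨sp4_sg c i, c.testBit (16 + i.val), rfl, fun _ => rfl⟩, fun h => by simp [mo4] at h⟩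

theorem sp4_etab : ∀ a ∈ List.range 105, sp4_ok (sp4_E a) ∧ ∃ r ∈ [0, 1, 4, 16, 19],
    ∀ p, sp4_P a (sp4_ef (sp4_E a) p) = sp4_ef (sp4_E a) (sp4_P r p) := by decide +kernel

theorem sp4_one_conj {T : Type} (e : T ≃ T) {γ γ' f : T → T} (h : ∀ p, γ' (e p) = e (γ p))
    (h1 : One γ fun p => e.symm (f (e p))) : One γ' f := by
  intro v h2 h3
  obtain ⟨d, hd⟩ := h1 (fun p => v (e p)) (fun p => by rw [← h, h2])
    (fun p => by simp only [Equiv.apply_symm_apply, h3])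
  exact ⟨d, fun p => by simpa using hd (e.symm p)⟩

/-! gadgets -/

def sp4_Good (L : List (ℕ × ℕ)) (lv : Finset (Fin 4)) (τ : Bool → sp4_Pt → sp4_Pt) : Prop :=
  ∀ f : Bool → sp4_Pt → sp4_Pt, (∀ k, Pairing (f k)) →
    (∃ z ∈ L, One (sp4_P z.1) (f false) ∧ One (sp4_P z.2) (f true)) →
    ∃ b lam, ∀ k, OCl lv (τ k) lam k (f (xor k b))

def sp4_cj (c : ℕ) (L0 L : List (ℕ × ℕ)) : Prop := sp4_ok c ∧ ∀ z ∈ L0, ∃ z' ∈ L, ∀ p,
  sp4_P z'.1 (sp4_ef c p) = sp4_ef c (sp4_P z.1 p) ∧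
  sp4_P z'.2 (sp4_ef c p) = sp4_ef c (sp4_P z.2 p)
instance (c : ℕ) (L0 L : List (ℕ × ℕ)) : Decidable (sp4_cj c L0 L) := by
  unfold sp4_cj; infer_instance

theorem sp4_works {W : Type} [Fintype W] [DecidableEq W] (g : Gad (Fin 4) W mo4)
    {L0 L : List (ℕ × ℕ)}
    (hg : ∀ (f : Bool → sp4_Pt → sp4_Pt) (s : W → Bool), (∀ u, s (g.m u) = s u) →
      (∀ k, g.Cls s k (f k)) → ∃ z ∈ L0, One (sp4_P z.1) (f false) ∧ One (sp4_P z.2) (f true))
    {c : ℕ} (hc : sp4_cj c L0 L) {lv : Finset (Fin 4)} {τ : Bool → sp4_Pt → sp4_Pt}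
    (h : sp4_Good L lv τ) : g.Works lv τ := by
  refine ⟨sp4_mkE c hc.1, sp4_adm c hc.1, fun f hf s hs hcl => h f hf ?_⟩
  obtain ⟨z, hz, h0, h1⟩ := hg _ s hs hcl
  obtain ⟨z', hz', h2⟩ := hc.2 z hz
  exact ⟨z', hz', sp4_one_conj (sp4_mkE c hc.1) (fun p => (h2 p).1) h0,
    sp4_one_conj (sp4_mkE c hc.1) (fun p => (h2 p).2) h1⟩

def sp4_L0 (g : ℕ) : List (ℕ × ℕ) :=
  if g = 0 then [(0, 0)] else if g = 1 then [(15, 0), (0, 15)] else
  [(12, 0), (96, 0), (2, 30), (92, 0), (14, 66), (102, 6), (0, 60), (60, 0), (6, 102), (66, 14),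
    (0, 92), (30, 2), (0, 96), (0, 12)]

theorem sp4_gE (f : Bool → sp4_Pt → sp4_Pt) (s : Empty → Bool)
    (_ : ∀ u, s ((gE 4 mo4).m u) = s u) (h : ∀ k, (gE 4 mo4).Cls s k (f k)) :
    ∃ z ∈ sp4_L0 0, One (sp4_P z.1) (f false) ∧ One (sp4_P z.2) (f true) := by
  have key : ∀ k, One (sp4_P 0) (f k) := fun k =>
    (gE 4 mo4).one_of_cls s k (f k) _ (Sum.elim id fun x => x.1.elim) (fun _ => rfl)
      (by
        rintro (p | ⟨w, -⟩)
        · exact Or.inr ((by decide +kernel : ∀ p : sp4_Pt, (p.1, !p.2) = sp4_P 0 p) p)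
        · exact w.elim)
      (fun u => u.elim) (fun u => u.elim) (h k)
  exact ⟨(0, 0), by decide, key false, key true⟩

def sp4_exN : HH (Fin 4) Bool → sp4_Pt
  | .inl p => p
  | .inr (u, c) => (if u then 1 else 0, c)

theorem sp4_gN (f : Bool → sp4_Pt → sp4_Pt) (s : Bool → Bool)
    (hs : ∀ u, s (gN4.m u) = s u) (h : ∀ k, gN4.Cls s k (f k)) :
    ∃ z ∈ sp4_L0 1, One (sp4_P z.1) (f false) ∧ One (sp4_P z.2) (f true) := by
  have h1 : ∀ u, s u = s false := by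
    rintro (_ | _)
    · rfl
    · exact hs false
  have k1 : ∀ k, s false = k → One (sp4_P 15) (f k) := fun k hk =>
    gN4.one_of_cls s k (f k) _ sp4_exN (fun _ => rfl) (by decide +kernel)
      (fun u h0 => by clear h0; revert u; decide +kernel)
      (fun u hu => absurd ((h1 u).trans hk) hu) (h k)
  have k2 : ∀ k, s false ≠ k → One (sp4_P 0) (f k) := fun k hk =>
    gN4.one_of_cls s k (f k) _ sp4_exN (fun _ => rfl) (by decide +kernel)
      (fun u hu => absurd ((h1 u).symm.trans hu) hk) 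
      (fun u h0 => by clear h0; revert u; decide +kernel) (h k)
  cases hf : s false
  · exact ⟨(15, 0), by decide, k1 _ hf, k2 _ (by simp [hf])⟩
  · exact ⟨(0, 15), by decide, k2 _ (by simp [hf]), k1 _ hf⟩

def sp4_ex4 (s : Fin 4 → Bool) (k : Bool) : HH (Fin 4) (Fin 4 × Bool) → sp4_Pt
  | .inl p => p
  | .inr ((i, false), c) => (i, c)
  | .inr ((i, true), c) => if s i = k then (i, c) else
      (if s (i + 1) = k then i + 1 else if s (i + 2) = k then i + 2 else i + 3, false)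

def sp4_G4 (s : Fin 4 → Bool) (k : Bool) (x : ℕ) : Prop :=
  (∀ y, sp4_ex4 s k (gE4.o y) = sp4_ex4 s k y ∨ sp4_ex4 s k (gE4.o y) = sp4_P x (sp4_ex4 s k y)) ∧
  (∀ u : Fin 4 × Bool, s u.1 = k → ∀ c, sp4_ex4 s k (.inr (gE4.m u, c)) = sp4_ex4 s k (.inr (u, c)) ∨
    sp4_ex4 s k (.inr (gE4.m u, c)) = sp4_P x (sp4_ex4 s k (.inr (u, c)))) ∧
  ∀ u : Fin 4 × Bool, s u.1 ≠ k → sp4_ex4 s k (.inr (u, true)) = sp4_ex4 s k (.inr (u, false)) ∨
    sp4_ex4 s k (.inr (u, true)) = sp4_P x (sp4_ex4 s k (.inr (u, false)))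
instance (s : Fin 4 → Bool) (k : Bool) (x : ℕ) : Decidable (sp4_G4 s k x) := by
  unfold sp4_G4; infer_instance

theorem sp4_gtab : ∀ a b c d : Bool, (∃ k, ∀ i, ![a, b, c, d] i ≠ k) ∨ ∃ z ∈ sp4_L0 2,
    sp4_G4 ![a, b, c, d] false z.1 ∧ sp4_G4 ![a, b, c, d] true z.2 := by decide +kernel

theorem sp4_g4 (f : Bool → sp4_Pt → sp4_Pt) (s : Fin 4 × Bool → Bool)
    (hs : ∀ u, s (gE4.m u) = s u) (h : ∀ k, gE4.Cls s k (f k)) :
    ∃ z ∈ sp4_L0 2, One (sp4_P z.1) (f false) ∧ One (sp4_P z.2) (f true) := by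
  have h1 : ∀ u, s u = ![s (0, false), s (1, false), s (2, false), s (3, false)] u.1 := by
    rintro ⟨i, b⟩
    have h2 : s (i, b) = s (i, false) := by
      cases b
      · rfl
      · exact hs (i, false)
    rw [h2]
    fin_cases i <;> rfl
  rcases sp4_gtab (s (0, false)) (s (1, false)) (s (2, false)) (s (3, false)) with
    ⟨k, hk⟩ | ⟨z, hz, h2, h3⟩
  · refine absurd (h k) (gE4.not_cls s k (f k) (Sum.elim (fun _ => false) fun x => x.1.2)
      (0, false) (.inr ((0, true), false)) rfl (fun _ => rfl) (by decide)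
      (fun u hu => absurd ((h1 u).symm.trans hu) (hk _)) fun _ _ => rfl)
  · refine ⟨z, hz, gE4.one_of_cls s false _ _ _ (fun _ => rfl) h2.1
      (fun u hu => h2.2.1 u ((h1 u).symm.trans hu)) (fun u hu => h2.2.2 u (h1 u ▸ hu)) (h false),
      gE4.one_of_cls s true _ _ _ (fun _ => rfl) h3.1
      (fun u hu => h3.2.1 u ((h1 u).symm.trans hu)) (fun u hu => h3.2.2 u (h1 u ▸ hu)) (h true)⟩

theorem sp4_ttab : ∀ t ∈ sp4_TB, t.1 < 3 ∧ sp4_cj t.2.1 (sp4_L0 t.1) t.2.2 ∧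
    ∀ z ∈ t.2.2, z.1 < 105 ∧ z.2 < 105 := by decide +kernel

theorem sp4_tb {t : ℕ × ℕ × List (ℕ × ℕ)} (ht : t ∈ sp4_TB) {lv : Finset (Fin 4)}
    {τ : Bool → sp4_Pt → sp4_Pt} (h : sp4_Good t.2.2 lv τ) :
    (gE 4 mo4).Works lv τ ∨ gN4.Works lv τ ∨ gE4.Works lv τ := by
  obtain ⟨h1, h2, -⟩ := sp4_ttab t ht
  obtain h0 | h0 | h0 : t.1 = 0 ∨ t.1 = 1 ∨ t.1 = 2 := by omega
  · exact Or.inl (sp4_works _ sp4_gE (h0 ▸ h2) h)
  · exact Or.inr (Or.inl (sp4_works _ sp4_gN (h0 ▸ h2) h))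
  · exact Or.inr (Or.inr (sp4_works _ sp4_g4 (h0 ▸ h2) h))

/-! the main check -/

def sp4_or (L : List (ℕ × ℕ)) : ℕ := L.foldr (fun z acc => sp4_T z.1 z.2 ||| acc) 0

theorem sp4_or_bit (L : List (ℕ × ℕ)) (n : ℕ) :
    (sp4_or L).testBit n = true ↔ ∃ z ∈ L, (sp4_T z.1 z.2).testBit n = true := by
  induction L with
  | nil => simp [sp4_or]
  | cons z L ih =>
    unfold sp4_or at ih ⊢
    rw [List.foldr_cons, Nat.testBit_or, Bool.or_eq_true, ih]
    simp only [Prod.exists, List.mem_cons, exists_eq_or_imp]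

def sp4_UL (l a b : ℕ) : List (ℕ × ℕ) :=
  (List.range 16).map fun x => (sp4_R a (x &&& l), sp4_R b ((15 ^^^ x) &&& l))
def sp4_U (l a b : ℕ) : ℕ := sp4_or (sp4_UL l a b) ||| sp4_or ((sp4_UL l a b).map Prod.swap)
def sp4_dd (l a : ℕ) : Bool :=
  (List.range 4).all fun i => l.testBit i || sp4_d a (2 * i) == 2 * i + 1
def sp4_sub (U : ℕ) : Bool := sp4_TB.any fun t => sp4_or t.2.2 ||| U == U

theorem sp4_main : ((List.range 16).all fun l => [0, 1, 4, 16, 19].all fun a => !sp4_dd l a ||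
    (List.range 105).all fun b => !sp4_dd l b ||
      ((sp4_UL l a b).all fun z => !(z.1 < 105 && z.2 < 105)) || sp4_sub (sp4_U l a b)) = true := by
  decide +kernel

theorem sp4_mask : ∀ lam : Fin 4 → Bool, ∃ x < 16, ∀ i : Fin 4, x.testBit i = lam i := by decide

theorem sp4_dd_of {l a : ℕ} {lv : Finset (Fin 4)} (hl : ∀ i : Fin 4, l.testBit i = decide (i ∈ lv))
    (h : ∀ i ∉ lv, sp4_P a (i, false) = (i, true)) : sp4_dd l a = true := by
  simp only [sp4_dd, List.all_eq_true, List.mem_range, Bool.or_eq_true, beq_iff_eq]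
  intro i hi
  by_cases hm : (⟨i, hi⟩ : Fin 4) ∈ lv
  · left; rw [hl ⟨i, hi⟩]; simpa using hm
  · right
    have h1 := congrArg sp4_enc (h _ hm)
    rw [sp4_P, sp4_enc_dec _ (sp4_d_lt _ _)] at h1
    simpa [sp4_enc] using h1

theorem sp4_rep {lv : Finset (Fin 4)} {τ : Bool → sp4_Pt → sp4_Pt} (h : Out mo4 lv τ) {a : ℕ}
    (ha : a ∈ [0, 1, 4, 16, 19]) (h0 : τ false = sp4_P a) :
    (gE 4 mo4).Works lv τ ∨ gN4.Works lv τ ∨ gE4.Works lv τ := by
  obtain ⟨b, hb, h1⟩ := sp4_pair (h.pr true)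
  have ha' : a < 105 := by
    simp only [List.mem_cons, List.not_mem_nil, or_false] at ha
    omega
  obtain ⟨l, hl, hlv⟩ := sp4_mask fun i => decide (i ∈ lv)
  have hX : ∀ x, x &&& l < 16 := fun x => lt_of_le_of_lt Nat.and_le_right hl
  have m0 : ∀ (x : ℕ) (lam : Fin 4 → Bool), (∀ i : Fin 4, x.testBit i = lam i) →
      ∀ i : Fin 4, (i ∈ lv ∧ lam i ≠ false) ↔ (x &&& l).testBit i = true := by
    intro x lam hx i
    rw [Nat.testBit_and, hx, hlv]
    simp [and_comm]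
  have m1 : ∀ (x : ℕ) (lam : Fin 4 → Bool), (∀ i : Fin 4, x.testBit i = lam i) →
      ∀ i : Fin 4, (i ∈ lv ∧ lam i ≠ true) ↔ ((15 ^^^ x) &&& l).testBit i = true := by
    intro x lam hx i
    rw [Nat.testBit_and, Nat.testBit_xor, hx, hlv,
      (by decide : ∀ i : Fin 4, Nat.testBit 15 i = true) i]
    simp [and_comm]
  have hc := sp4_main
  simp only [List.all_eq_true, List.mem_range, Bool.or_eq_true, Bool.not_eq_true'] at hc
  have d0 : sp4_dd l a = true := sp4_dd_of hlv fun i hi => by rw [← h0]; exact h.dd i false _ rfl hi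
  have d1 : sp4_dd l b = true := sp4_dd_of hlv fun i hi => by rw [← h1]; exact h.dd i false _ rfl hi
  rcases hc l hl a ha with hc | hc
  · rw [d0] at hc; simp at hc
  rcases hc b hb with (hc | hc) | hc
  · rw [d1] at hc; simp at hc
  · obtain ⟨lam, hv⟩ := h.va
    obtain ⟨x, hx, hxl⟩ := sp4_mask lam
    have e0 := sp4_val ha' (hX x) lv lam false (m0 x lam hxl) (by rw [← h0]; exact hv false)
    have e1 := sp4_val hb (hX _) lv lam true (m1 x lam hxl) (by rw [← h1]; exact hv true)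
    have := hc _ (List.mem_map.2 ⟨x, List.mem_range.2 hx, rfl⟩)
    simp [e0, e1] at this
  · simp only [sp4_sub, List.any_eq_true, beq_iff_eq] at hc
    obtain ⟨t, ht, hU⟩ := hc
    refine sp4_tb ht fun f hf ⟨z, hz, o0, o1⟩ => ?_
    obtain ⟨i, hi, f0⟩ := sp4_pair (hf false)
    obtain ⟨j, hj, f1⟩ := sp4_pair (hf true)
    obtain ⟨z0, z1⟩ := (sp4_ttab t ht).2.2 z hz
    rw [f0, ← sp4_one z0 hi] at o0
    rw [f1, ← sp4_one z1 hj] at o1
    have hG : (sp4_or t.2.2).testBit (128 * i + j) = true :=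
      (sp4_or_bit _ _).2 ⟨z, hz, by rw [sp4_T_bit _ (by omega) hi hj, o0, o1]; rfl⟩
    have hU' : (sp4_U l a b).testBit (128 * i + j) = true := by
      rw [← hU, Nat.testBit_or, hG]; rfl
    have hR : ∀ a X, sp4_R a X < 128 := fun a X => Nat.mod_lt _ (by norm_num)
    rw [sp4_U, Nat.testBit_or, Bool.or_eq_true, sp4_or_bit, sp4_or_bit] at hU'
    simp only [sp4_UL, List.map_map, List.mem_map, List.mem_range] at hU'
    rcases hU' with ⟨_, ⟨x, -, rfl⟩, hT⟩ | ⟨_, ⟨x, -, rfl⟩, hT⟩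
    · rw [sp4_T_bit _ (hR _ _) hi hj, Bool.and_eq_true] at hT
      refine ⟨false, fun i => x.testBit i, ?_⟩
      rintro (_ | _)
      · rw [h0, show (false ^^ false) = false from rfl, f0]
        exact sp4_ocl ha' (hX _) hi hT.1 _ _ _ (m0 x _ fun _ => rfl)
      · rw [h1, show (true ^^ false) = true from rfl, f1]
        exact sp4_ocl hb (hX _) hj hT.2 _ _ _ (m1 x _ fun _ => rfl)
    · simp only [Function.comp, Prod.swap] at hT
      rw [sp4_T_bit _ (hR _ _) hi hj, Bool.and_eq_true] at hT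
      refine ⟨true, fun i => x.testBit i, ?_⟩
      rintro (_ | _)
      · rw [h0, show (false ^^ true) = true from rfl, f1]
        exact sp4_ocl ha' (hX _) hj hT.2 _ _ _ (m0 x _ fun _ => rfl)
      · rw [h1, show (true ^^ true) = false from rfl, f0]
        exact sp4_ocl hb (hX _) hi hT.1 _ _ _ (m1 x _ fun _ => rfl)

/-- First use `Out.conj`, `Gad.Works.of_conj` to bring `τ false` to one of 5 representatives (cycle
type of `τ false` with the flip: 1111, 211, 22, 31, 4); then about 600 states remain. -/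
theorem spin4 (lv : Finset (Fin 4)) (τ : Bool → Fin 4 × Bool → Fin 4 × Bool) (h : Out mo4 lv τ) :
    (gE 4 mo4).Works lv τ ∨ gN4.Works lv τ ∨ gE4.Works lv τ := by
  obtain ⟨a, ha, h0⟩ := sp4_pair (h.pr false)
  obtain ⟨hc, r, hr, h1⟩ := sp4_etab a (List.mem_range.2 ha)
  have he := sp4_adm _ hc
  have h2 := sp4_rep (h.conj he) hr (funext fun p => by
    rw [h0, Equiv.symm_apply_eq]; exact h1 p)
  exact h2.imp (Gad.Works.of_conj h.lm he)
    (Or.imp (Gad.Works.of_conj h.lm he) (Gad.Works.of_conj h.lm he))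

end Pool.Agent.MP_8c1b0d_co.RR

end

-- part MP_8c1b0d_co.RR.Close
section

set_option autoImplicit false
set_option linter.unusedSectionVars false
open Finset

namespace Pool.Agent.MP_8c1b0d_co.RR

variable {V Φ : Type} [Fintype V] [DecidableEq V] [Fintype Φ] [DecidableEq Φ]

theorem PR.step {I W : Type} [Fintype I] [DecidableEq I] [Fintype W] [DecidableEq W] [Nonempty I]
    {mo : I → Bool} (p : PR V Φ) (na : NoAct p.t p.R) (pp : Ports p.t p.R mo) {live : Finset V}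
    {τ : Bool → V × Bool → V × Bool} (E : RI.Env p.t p.Rᶜ live τ)
    {τ' : Bool → I × Bool → I × Bool} (ho : Out mo (pp.lv live) τ')
    (hτ : ∀ k q, (mo q.1 = false ∨ q.1 ∈ pp.lv live) → pp.tm (τ' k q) = τ k (pp.tm q) ∧
        (mo (τ' k q).1 = false ∨ (τ' k q).1 ∈ pp.lv live))
    {g : Gad I W mo} (hg : g.Good) (hw : g.Works (pp.lv live) τ') :
    ∃ t', Same p.t t' p.R ∧ ∃ r, RI.Closes t' p.Rᶜ live τ r :=
  pp.closes p.ok E ho hτ hw fun pp' => gclose p na pp' g hg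

theorem PR.cl0 (p : PR V Φ) (na : NoAct p.t p.R) {live : Finset V}
    {τ : Bool → V × Bool → V × Bool} (E : RI.Env p.t p.Rᶜ live τ) :
    ∃ t', Same p.t t' p.R ∧ ∃ r, RI.Closes t' p.Rᶜ live τ r := by
  rcases exists_ports p.ok with ⟨⟨pp⟩⟩ | ⟨⟨pp⟩⟩ | ⟨⟨pp⟩⟩ <;>
    obtain ⟨τ', ho, hτ⟩ := pp.out p.ok E
  · rcases spin2 _ _ ho with h | h
    exacts [p.step na pp E ho hτ (gE_good _ _ (by decide)) h, p.step na pp E ho hτ gN2_good h]
  · rcases spin3 _ _ ho with h | h | h | h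
    exacts [p.step na pp E ho hτ (gE_good _ _ (by decide)) h, p.step na pp E ho hτ gN3_good h,
      p.step na pp E ho hτ gB2_good h, p.step na pp E ho hτ gB3_good h]
  · rcases spin4 _ _ ho with h | h | h
    exacts [p.step na pp E ho hτ (gE_good _ _ (by decide)) h, p.step na pp E ho hτ gN4_good h,
      p.step na pp E ho hτ gE4_good h]

theorem PL.cl (p : PL V Φ) {R : Finset V} (ok : OK p.t R) : CL p.t Rᶜ := by
  intro live τ E
  obtain ⟨t1, a1, ok1, e1, na⟩ := p.t.exists_noActR ok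
  obtain ⟨p1, rfl⟩ := p.recol t1 a1
  have e1' : ∀ v ∉ Rᶜ, ∀ k, p1.t.nb k v = p.t.nb k v := fun v hv => e1 v (by simpa using hv)
  obtain ⟨t2, s, r, c⟩ := PR.cl0 ⟨p1, R, ok1⟩ na (env_congr e1' E)
  refine ⟨t2, fun u v => (s.adj u v).trans (a1 u v), fun v hv k => ?_, r, c⟩
  rw [← e1' v hv k]
  exact s.eq v (fun q => hv (mem_compl.2 (mem_Q.1 q).1)) k

/-- the pole theorem -/
theorem close : RI.Close := by
  intro V Φ _ _ _ c g P eu h3 h4 h6 h5 _ live τ E
  classical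
  obtain ⟨p, hp⟩ := exists_pl c g eu
  rw [← hp] at h3 h4 h5 E ⊢
  have h : Pole p.t P := ⟨h3, h4, h6, h5⟩
  obtain ⟨d, hd⟩ := h.exists_dbl
  obtain ⟨Φ', _, _, p', rfl⟩ := hd.pl p h
  exact hd.cl (p'.cl (hd.ok h)) live τ E

end Pool.Agent.MP_8c1b0d_co.RR

end

-- part MP_8c1b0d_co.RI.All
section

section
set_option autoImplicit false
set_option linter.unusedSectionVars false
open Finset Function

namespace Pool.Agent.MP_8c1b0d_co.RI
variable {V V' : Type} [Fintype V] [DecidableEq V] [Fintype V'] [DecidableEq V'] {G : CG V}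
  {G' : CG V'}

theorem ind_four (h3 : G.EC3) (n : Fintype.card V = 4) : IND G := by
  obtain ⟨q, ψ, b, c⟩ := CG.chart_k4 h3 n
  exact c.ind fin_k4

theorem c5a_ty_e {s : V → LS} (hs : Sol G s) (d : V × Fin 3) :
    (s (G.e d).1).ty (G.e d).2 = (s d.1).ty d.2 := by
  have h0 := hs.col (d, false)
  have h1 := hs.col (d, true)
  simp only [cP, CG.eP] at h0 h1
  simp only [LS.ty, h0, h1]

/-- 4-CUT. Glue `η` to `P` (graph `G0`) and to `Pᶜ` (graph `G'`, given). Solve `G'` with all gadget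
vertices marked; `γ i` = the type `ty` of the leg `i` satisfies `Ext η γ` (`ty_inj`, `Sol.col`).
`Full` colours `P`, `Glue.col` colours `G0`; `poleD`, `PoleD.share`, `stepC`. -/
theorem step4 {w : ℕ} {η : D0 w 4 → D0 w 4} (hleg : ∀ i, ∃ y, η (.inr i) = .inl y) (hw : 0 < w)
    {P : Finset V} {l : Fin 4 → V × Fin 3} (hl : G.Legs P l) (hF : G.Full P l η)
    (hP : ∀ c, G.PCol P c → (Ext η fun i => c (l i)) → PoleD G P c)
    (one : ∀ d ∈ G.bd P, ∀ d' ∈ G.bd P, d.1 = d'.1 → d = d')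
    (far : ∀ d ∈ G.bd Pᶜ, ∀ d' ∈ G.bd Pᶜ, d.1 = d'.1 → d = d') {ι : V → V'} {ω : Fin w → V'}
    (g : Glue G Pᶜ (fun i => G.e (l i)) η G' ι ω) (hI : IND G') {r : V} (hr : r ∉ P) (σ : LS)
    (M : Finset V) (h1 : σ.a ≠ σ.m) (h2 : σ.t ≠ .P) : INDw G r σ M := by
  have hrc : r ∈ Pᶜ := Finset.mem_compl.mpr hr
  obtain ⟨s', hs, hroot, hfit⟩ := hI (ι r) σ ((M ∩ Pᶜ).image ι ∪ univ.image ω) h1 h2
  have hω : ∀ j, (s' (ω j)).t ≠ .P := fun j =>
    (hfit (ω j) (g.disj r hrc j).symm).1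
      (Finset.mem_union_right _ (Finset.mem_image_of_mem _ (Finset.mem_univ j)))
  have hγ : Ext η fun i => (s' (ι (G.e (l i)).1)).ty (G.e (l i)).2 := by
    refine ⟨fun x => (s' (real ω (fun _ => 1)
      (fun i => (ι (G.e (l i)).1, (G.e (l i)).2)) x).1).ty (real ω (fun _ => 1)
      (fun i => (ι (G.e (l i)).1, (G.e (l i)).2)) x).2, fun x => ?_, fun j i i' e => ?_,
      fun i => rfl⟩
    · have e := g.gad x
      show (s' (real ω (fun _ => 1) (fun i => (ι (G.e (l i)).1, (G.e (l i)).2)) (η x)).1).ty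
        (real ω (fun _ => 1) (fun i => (ι (G.e (l i)).1, (G.e (l i)).2)) (η x)).2 = _
      rw [← e]
      exact c5a_ty_e hs _
    · exact LS.ty_inj _ (hs.ok (ω j)) (hω j) i i' e
  obtain ⟨c, hc, hcl⟩ := hF _ hγ
  have hpole : PoleD G P c := hP c hc (by rw [funext hcl]; exact hγ)
  have hbd : ∀ d ∈ G.bd P, G.e d ∈ G.bd Pᶜ := fun d hd => by
    rw [CG.mem_bd] at hd ⊢
    rw [G.ee]
    exact ⟨Finset.mem_compl.mpr hd.2, fun h => Finset.mem_compl.mp h hd.1⟩
  obtain ⟨s, hsol, hin, hout⟩ := stepC hc hpole (g.share hl.compl hleg) hs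
    ⟨ω ⟨0, hw⟩, fun h => by
      obtain ⟨v, hv, e⟩ := Finset.mem_image.mp h
      exact g.disj v hv _ e⟩
    (fun d hd => by
      obtain ⟨i, rfl⟩ := (hl.mem d).mp hd
      exact (hcl i).symm)
    one (fun d hd d' hd' _ e => CG.e_inj (far _ (hbd d hd) _ (hbd d' hd') e))
  have ht : (s r).t = σ.t := by rw [(hout r hr).1, hroot]
  refine ⟨s, hsol, ?_, ht, fun v hv => ?_⟩
  · rw [(hout r hr).2 (by rw [ht]; exact h2), hroot]
  · by_cases hvP : v ∈ P
    · rw [hin v hvP]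
      exact ⟨fun _ => by decide, fun _ => Or.inl rfl⟩
    · have hvc : v ∈ Pᶜ := Finset.mem_compl.mpr hvP
      have hne : ι v ≠ ι r := fun e => hv (g.ι_inj (Finset.mem_coe.mpr hvc)
        (Finset.mem_coe.mpr hrc) e)
      rw [(hout v hvP).1]
      refine ⟨fun hM => (hfit _ hne).1 (Finset.mem_union_left _
        (Finset.mem_image_of_mem _ (Finset.mem_inter.mpr ⟨hM, hvc⟩))),
        fun hM => (hfit _ hne).2 fun h => ?_⟩
      rcases Finset.mem_union.mp h with h | h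
      · obtain ⟨u, hu, e⟩ := Finset.mem_image.mp h
        obtain ⟨hu1, hu2⟩ := Finset.mem_inter.mp hu
        have := g.ι_inj (Finset.mem_coe.mpr hu2) (Finset.mem_coe.mpr hvc) e
        exact hM (this ▸ hu1)
      · obtain ⟨j, _, e⟩ := Finset.mem_image.mp h
        exact g.disj v hvc j e.symm

theorem poleH (hC : Close) (h3 : G.EC3) {op : V × Fin 3 → ℕ} (hop : G.Lab op) {P : Finset V}
    {l : Fin 4 → V × Fin 3} {b : Fin 4 → ℕ} (cy : G.Cyc op P l b) (h6 : 6 ≤ #P) (h5 : G.IC5 P)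
    (c : V × Fin 3 → Fin 3) (hc : G.PCol P c) (he : Ext eH fun i => c (l i)) : PoleD G P c := by
  have h4 : G.cut P = 4 := cy.legs.cut
  have hne : P.Nonempty := Finset.card_pos.mp (by omega)
  have hx : ∀ i j, (l i).1 = (l j).1 → i = j := fun i j e =>
    cy.legs.inj (h5.leg_inj h4 h6 _ ((cy.legs.mem _).mpr ⟨i, rfl⟩) _
      ((cy.legs.mem _).mpr ⟨j, rfl⟩) e)
  obtain ⟨W, _, _, G0, ι, ω, g⟩ := exists_glue cy.legs hne eH eH_inv
  have h3' : G0.EC3 := g.ec3H h3 cy.legs (h5.small h3 h4)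
    (fun e => absurd (hx _ _ e) (by decide)) (fun e => absurd (hx _ _ e) (by decide))
  obtain ⟨op', hop', -⟩ := g.planeH h3 hop cy
  obtain ⟨c', hc', hcc⟩ := g.col cy.legs hc he
  have sh := g.share cy.legs eH_leg
  refine PoleD.share sh (poleD hC h3' ⟨op', hop'⟩ hc' ((sh.cut subset_rfl).trans h4)
    (by rw [sh.card]; exact h6) (sh.ic5 h5) (Or.inl ?_)) hcc
  rw [g.compl_image, Finset.card_image_of_injective _ g.ω_inj]
  rfl

theorem poleQ (hC : Close) (h3 : G.EC3) {op : V × Fin 3 → ℕ} (hop : G.Lab op) {P : Finset V}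
    {l : Fin 4 → V × Fin 3} {b : Fin 4 → ℕ} (cy : G.Cyc op P l b) (h6 : 6 ≤ #P) (h5 : G.IC5 P)
    (c : V × Fin 3 → Fin 3) (hc : G.PCol P c) (he : Ext eQ fun i => c (l i)) : PoleD G P c := by
  have h4 : G.cut P = 4 := cy.legs.cut
  have hne : P.Nonempty := Finset.card_pos.mp (by omega)
  obtain ⟨W, _, _, G0, ι, ω, g⟩ := exists_glue cy.legs hne eQ eQ_inv
  have h3' : G0.EC3 := g.ec3Q h3 cy.legs
  obtain ⟨c', hc', hcc⟩ := g.col cy.legs hc he
  have sh := g.share cy.legs eQ_leg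
  refine PoleD.share sh (poleD hC h3' (g.planeQ h3 hop cy) hc' ((sh.cut subset_rfl).trans h4)
    (by rw [sh.card]; exact h6) (sh.ic5 h5) (Or.inr ⟨?_, fun v hv => ?_⟩)) hcc
  · rw [g.compl_image, Finset.card_image_of_injective _ g.ω_inj]
    rfl
  · have hv' : v ∈ (P.image ι)ᶜ := Finset.mem_compl.mpr hv
    rw [g.compl_image] at hv'
    obtain ⟨j, _, rfl⟩ := Finset.mem_image.mp hv'
    have e : G0.e (ω j, 0) = (ι (l j).1, (l j).2) := g.gad (.inl (j, 0))
    refine ⟨0, ?_⟩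
    rw [e]
    exact Finset.mem_image_of_mem _ (CG.mem_bd.mp ((cy.legs.mem _).mpr ⟨j, rfl⟩)).1

end Pool.Agent.MP_8c1b0d_co.RI
end

section
set_option autoImplicit false
set_option linter.unusedSectionVars false
open Finset Function

namespace Pool.Agent.MP_8c1b0d_co.RI
variable {V V' : Type} [Fintype V] [DecidableEq V] [Fintype V'] [DecidableEq V'] {G : CG V}
  {G' : CG V'}

theorem c5_ty {s : V' → LS} (hs : Sol G' s) (d : V' × Fin 3) :
    (s (G'.e d).1).ty (G'.e d).2 = (s d.1).ty d.2 := by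
  have h0 := hs.col (d, false)
  have h1 := hs.col (d, true)
  simp only [cP, CG.eP] at h0 h1
  simp only [LS.ty, h0, h1]

theorem c5_pure (s : LS) (h : s.t = .P) (i : Fin 3) : s.ty i = 2 := by
  revert s i; decide +kernel

theorem c5_col (c0 : V × Fin 3 → Fin 3) (h : G.Col c0) (r : V) {a m : Fin 3} (ham : a ≠ m) :
    ∃ c, G.Col c ∧ c (r, a) = 0 ∧ c (r, m) = 2 := by
  have hne : c0 (r, a) ≠ c0 (r, m) := fun e => ham (h.2 r _ _ e)
  have key : ∀ x y : Fin 3, x ≠ y → ∃ π : Fin 3 → Fin 3, (∀ u v, π u = π v → u = v) ∧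
      π x = 0 ∧ π y = 2 := by decide
  obtain ⟨π, hπ, e0, e2⟩ := key _ _ hne
  exact ⟨fun d => π (c0 d), ⟨fun d => by simp only [h.1 d], fun v i j e => h.2 v i j (hπ _ _ e)⟩,
    e0, e2⟩

theorem c5_surj {c : V × Fin 3 → Fin 3} (h : G.Col c) (v : V) (x : Fin 3) : ∃ i, c (v, i) = x :=
  (Finite.injective_iff_surjective.1 (fun i j e => h.2 v i j e : Injective fun i => c (v, i))) x

/-- ROOT EDGE. Colour `G` with colour `2` on the dart `(r, σ.m)` and colour `0` on `(r, σ.a)`. Let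
`w` be the other end. Glue `eH` to `{r, w}` with the legs in the order: colour `0` at `r`, colour
`1` at `w`, colour `1` at `r`, colour `0` at `w` (`ec3H`, `ind_four`), root state `σ`, marks on the
two new vertices. Their edge is mono, so the types of the legs are the colours, and `w` is of kind
`V`. Then `poleD` for `G` itself and `stepC`. -/
theorem stepA (h4 : H4) (hC : Close) (h3 : G.EC3) (hp : G.Plane) {P : Finset V} {r : V} {σ : LS}
    (hP : Pᶜ = {r, (G.e (r, σ.m)).1}) (h6 : 6 ≤ #P) (h5 : G.IC5 P) (M : Finset V)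
    (h1 : σ.a ≠ σ.m) (h2 : σ.t ≠ .P) : INDw G r σ M := by
  have hA := card_add_card_compl P
  have n8 : 6 ≤ Fintype.card V := by omega
  obtain ⟨c0, hc0⟩ := h4 V G (by omega) h3 hp
  obtain ⟨c, hc, ca, cm⟩ := c5_col c0 hc0 r h1
  set w := (G.e (r, σ.m)).1 with hw
  have rw' : w ≠ r := h3.no_loop (by omega) (r, σ.m)
  have hb : σ.b ≠ σ.a ∧ σ.b ≠ σ.m := by
    have k2 : ∀ a b : Fin 3, a ≠ b → -(a + b) ≠ a ∧ -(a + b) ≠ b := by decide
    exact k2 _ _ h1
  have three : ∀ x : Fin 3, x ≠ 0 → x ≠ 2 → x = 1 := by decide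
  have cb' : c (r, σ.b) = 1 := three _ (fun e => hb.1 (hc.2 r _ _ (e.trans ca.symm)))
    (fun e => hb.2 (hc.2 r _ _ (e.trans cm.symm)))
  obtain ⟨i0, hi0⟩ := c5_surj hc w 0
  obtain ⟨i1, hi1⟩ := c5_surj hc w 1
  have hj : c (w, (G.e (r, σ.m)).2) = 2 := (hc.1 (r, σ.m)).trans cm
  have back : (G.e (w, (G.e (r, σ.m)).2)).1 = r := congrArg Prod.fst (G.ee (r, σ.m))
  have memA : ∀ v, v ∈ Pᶜ ↔ v = r ∨ v = w := fun v => by rw [hP]; simp
  let l : Fin 4 → V × Fin 3 := ![(r, σ.a), (w, i1), (r, σ.b), (w, i0)]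
  have cl : ∀ i, c (l i) = ![0, 1, 1, 0] i := by
    intro i; fin_cases i
    · exact ca
    · exact hi1
    · exact cb'
    · exact hi0
  have outr : ∀ i, i ≠ σ.m → (G.e (r, i)).1 ∉ Pᶜ := fun i hi k => by
    rcases (memA _).1 k with k | k
    · exact h3.no_loop (by omega) (r, i) k
    · exact hi (h3.simple (by omega) r _ _ k)
  have outw : ∀ i, c (w, i) ≠ 2 → (G.e (w, i)).1 ∉ Pᶜ := fun i hi k => by
    rcases (memA _).1 k with k | k
    · exact hi (by rw [h3.simple (by omega) w i _ (k.trans back.symm)]; exact hj)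
    · exact h3.no_loop (by omega) (w, i) k
  have hl : G.Legs Pᶜ l := by
    constructor
    · have e1 : ∀ i, (l i).1 = if i = 0 ∨ i = 2 then r else w := by
        intro i; fin_cases i <;> rfl
      intro i j e
      have k1 : (l i).1 = (l j).1 := by rw [e]
      have k2 : c (l i) = c (l j) := by rw [e]
      rw [e1, e1] at k1
      rw [cl, cl] at k2
      fin_cases i <;> fin_cases j <;> first | rfl | (exact absurd k2 (by decide)) |
        (exact absurd k1 (by simpa using rw')) | (exact absurd k1 (by simpa using rw'.symm))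
    · rintro ⟨v, i⟩
      rw [CG.mem_bd]
      constructor
      · rintro ⟨k1, k2⟩
        rcases (memA _).1 k1 with k | k
        · obtain rfl : v = r := k
          have hi : i ≠ σ.m := fun e => k2 (by rw [e]; exact (memA _).2 (Or.inr rfl))
          have k3 : ∀ a m i : Fin 3, a ≠ m → i ≠ m → i = a ∨ i = -(a + m) := by decide
          rcases k3 _ _ _ h1 hi with e | e
          · exact ⟨0, by rw [e]; rfl⟩
          · exact ⟨2, by rw [e]; rfl⟩
        · obtain rfl : v = w := k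
          have hi : c (w, i) ≠ 2 := fun e => k2 (by
            rw [hc.2 w _ _ (e.trans hj.symm), back]; exact (memA _).2 (Or.inl rfl))
          by_cases e : c (w, i) = 0
          · exact ⟨3, by rw [hc.2 w _ _ (e.trans hi0.symm)]; rfl⟩
          · exact ⟨1, by rw [hc.2 w _ _ ((three _ e hi).trans hi1.symm)]; rfl⟩
      · rintro ⟨j, e⟩
        rw [← e]
        fin_cases j
        · exact ⟨(memA _).2 (Or.inl rfl), outr _ h1⟩
        · exact ⟨(memA _).2 (Or.inr rfl), outw _ (by rw [hi1]; decide)⟩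
        · exact ⟨(memA _).2 (Or.inl rfl), outr _ hb.2⟩
        · exact ⟨(memA _).2 (Or.inr rfl), outw _ (by rw [hi0]; decide)⟩
  have c4 : G.cut Pᶜ = 4 := hl.cut
  have cP4 : G.cut P = 4 := by rw [← CG.cut_compl, c4]
  have card2 : #Pᶜ = 2 := by rw [hP]; exact card_pair rw'.symm
  have small : ∀ S ⊆ Pᶜ, G.cut S ≤ 3 → #S ≤ 1 := fun S hS k => by
    by_contra hn
    have := eq_of_subset_of_card_le hS (by omega)
    rw [this] at k
    omega
  have rA : r ∈ Pᶜ := (memA _).2 (Or.inl rfl)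
  have wA : w ∈ Pᶜ := (memA _).2 (Or.inr rfl)
  obtain ⟨W, _, _, G1, ι, ω, g⟩ := exists_glue hl ⟨r, rA⟩ eH eH_inv
  have e3 : G1.EC3 := g.ec3H h3 hl small rw'.symm rw'.symm
  obtain ⟨s', hs, sr, fit⟩ := ind_four e3 (by rw [g.card, card2]) (ι r) σ (univ.image ω) h1 h2
  have mixed : ∀ j, (s' (ω j)).t ≠ .P := fun j =>
    (fit _ (g.disj r rA j).symm).1 (mem_image_of_mem _ (mem_univ j))
  have inj := fun j => LS.ty_inj _ (hs.ok (ω j)) (mixed j)
  have tr : ∀ x, (s' (real ω (fun _ => 1) (fun i => (ι (l i).1, (l i).2)) (eH x)).1).ty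
      (real ω (fun _ => 1) (fun i => (ι (l i).1, (l i).2)) (eH x)).2 =
      (s' (real ω (fun _ => 1) (fun i => (ι (l i).1, (l i).2)) x).1).ty
      (real ω (fun _ => 1) (fun i => (ι (l i).1, (l i).2)) x).2 := fun x => by
    rw [← g.gad x]; exact c5_ty hs _
  have ta := LS.ty_a σ h1 h2
  have t0 : (s' (ω 0)).ty 0 = 0 := (tr (.inr 0)).trans (by
    show (s' (ι r)).ty σ.a = 0
    rw [sr]; exact ta.1)
  have t2 : (s' (ω 1)).ty 0 = 1 := (tr (.inr 2)).trans (by
    show (s' (ι r)).ty σ.b = 1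
    rw [sr]; exact ta.2.1)
  have t1 : (s' (ω 0)).ty 1 = (s' (ι w)).ty i1 := tr (.inr 1)
  have t3 : (s' (ω 1)).ty 1 = (s' (ι w)).ty i0 := tr (.inr 3)
  have tm : (s' (ω 1)).ty 2 = (s' (ω 0)).ty 2 := tr (.inl (0, 2))
  have fin : ∀ x y z : Fin 3, z ≠ 0 → z ≠ 1 → x ≠ 0 → x ≠ z → y ≠ 1 → y ≠ z → x = 1 ∧ y = 0 := by
    decide
  obtain ⟨u1, u0⟩ := fin ((s' (ω 0)).ty 1) ((s' (ω 1)).ty 1) ((s' (ω 0)).ty 2)
    (fun e => absurd (inj 0 _ _ (e.trans t0.symm)) (by decide))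
    (fun e => absurd (inj 1 _ _ ((tm.trans e).trans t2.symm)) (by decide))
    (fun e => absurd (inj 0 _ _ (e.trans t0.symm)) (by decide))
    (fun e => absurd (inj 0 _ _ e) (by decide))
    (fun e => absurd (inj 1 _ _ (e.trans t2.symm)) (by decide))
    (fun e => absurd (inj 1 _ _ (e.trans tm.symm)) (by decide))
  have tl : ∀ i, (s' (ι (l i).1)).ty (l i).2 = c (l i) := by
    intro i
    rw [cl]
    fin_cases i
    · show (s' (ι r)).ty σ.a = 0
      rw [sr]; exact ta.1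
    · exact t1.symm.trans u1
    · show (s' (ι r)).ty σ.b = 1
      rw [sr]; exact ta.2.1
    · exact t3.symm.trans u0
  have leg : ∀ d ∈ G.bd P, ∃ i, l i = G.e d := fun d hd => (hl.mem _).1 (by
    rw [CG.mem_bd] at hd ⊢
    rw [G.ee]
    exact ⟨mem_compl.2 hd.2, fun k => mem_compl.1 k hd.1⟩)
  have wV : (s' (ι w)).t = .V := by
    have hne : ι w ≠ ι r := fun e => rw' (g.ι_inj (mem_coe.2 wA) (mem_coe.2 rA) e)
    rcases (fit _ hne).2 (fun k => by
      obtain ⟨j, -, e⟩ := mem_image.1 k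
      exact g.disj w wA j e.symm) with k | k
    · exact k
    · exact absurd ((c5_pure _ k i1).symm.trans (t1.symm.trans u1)) (by decide)
  obtain ⟨s, sol, inP, outP⟩ := stepC (G := G) (P := P) (c := c)
    ⟨fun d _ _ => hc.1 d, fun v _ => hc.2 v⟩ (poleD hC h3 hp hc cP4 h6 h5 (Or.inl card2))
    (g.share hl eH_leg) hs
    ⟨ω 0, fun k => by
      obtain ⟨v, hv, e⟩ := mem_image.1 k
      exact g.disj v hv 0 e⟩
    (fun d hd => by
      obtain ⟨i, e⟩ := leg d hd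
      rw [← hc.1 d, ← e]
      exact tl i)
    (h5.leg_inj cP4 h6)
    (fun d hd d' _ k _ => by
      obtain ⟨i, e⟩ := leg d hd
      rw [← hc.1 d, ← e, cl] at k
      have k4 : ∀ i : Fin 4, (![0, 1, 1, 0] i : Fin 3) ≠ 2 := by decide
      exact absurd k (k4 i))
  have hr := outP r (mem_compl.1 rA)
  rw [sr] at hr
  refine ⟨s, sol, hr.2 (by rw [hr.1]; exact h2), hr.1, fun v hv => ?_⟩
  have hV : (s v).t = .V := by
    by_cases k : v ∈ P
    · exact inP v k
    · rcases (memA v).1 (mem_compl.2 k) with e | e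
      · exact absurd e hv
      · rw [(outP v k).1, e]; exact wV
  exact ⟨fun _ => by rw [hV]; decide, fun _ => Or.inl hV⟩

end Pool.Agent.MP_8c1b0d_co.RI
end

section
set_option autoImplicit false
open Finset Function

namespace Pool.Agent.MP_8c1b0d_co.RI

theorem h4_of_map (h : ∀ (D : Type) [Fintype D] (M : CT4.Map D), M.Planar → M.Bridgeless →
    M.Colourable) : H4 := by
  classical
  rintro V _ _ G n h3 ⟨op, hop⟩
  refine Orient.colour_of_labels h G.e op G.ee G.ne (fun d => (hop.mat d).symm)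
    (fun Q hQ u v => h3.con (S := univ) (by simp only [CG.cut, CG.bd, mem_univ, not_true_eq_false, and_false, filter_false, card_empty, zero_le]) Q (fun d _ _ => hQ d) u
      (mem_univ _) v (mem_univ _)) (fun S b h1 h2 => ?_) hop.cnt
  have := h3 {v | v ∈ S} ⟨b.1, by simpa only [mem_filter, mem_univ, true_and] using h1⟩ ⟨(G.e b).1, by simpa only [compl_filter, mem_filter, mem_univ, true_and] using h2⟩
  obtain ⟨d, hd, ne⟩ := exists_mem_ne (s := G.bd {v | v ∈ S}) (by rw [CG.cut] at this; omega) b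
  exact ⟨d, ne, by simpa only [CG.mem_bd, mem_filter, mem_univ, true_and] using hd⟩

end Pool.Agent.MP_8c1b0d_co.RI
end

section
set_option autoImplicit false
set_option linter.unusedSectionVars false
open Finset Function

namespace Pool.Agent.MP_8c1b0d_co.RI

theorem main (h4 : H4) (hC : Close) (n : ℕ) : ∀ (V : Type) [Fintype V] [DecidableEq V] (G : CG V),
    Fintype.card V = n → 4 ≤ n → G.EC3 → G.Plane → IND G := by
  induction n using Nat.strong_induction_on with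
  | _ n ih =>
  rintro V _ _ G hn n4 h3 ⟨op, hop⟩ r σ M h1 h2
  rcases CG.cases h3 (by omega) (r, σ.m) with h | ⟨A, hr, hc, a1, a2⟩ |
    ⟨c4, n6, ⟨F, hr, f1, f2⟩ | ⟨P, hr, p1, p2, p3, p4⟩⟩
  · exact ind_four h3 h r σ M h1 h2
  · obtain ⟨l, b, cy⟩ := hop.cyc3 h3 hc
    have cy' := cy.compl hop
    have hA := card_add_card_compl A
    obtain ⟨VA, _, _, GA, ιA, ωA, gA⟩ := exists_glue cy.legs ⟨r, hr⟩ eY eY_inv
    obtain ⟨VB, _, _, GB, ιB, ωB, gB⟩ := exists_glue cy'.legs (card_pos.1 (by omega)) eY eY_inv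
    exact step3 cy.legs gA gB
      (ih _ (by omega) VA GA gA.card (by omega) (gA.ec3Y h3 cy.legs) (gA.planeY h3 hop cy))
      (ih _ (by omega) VB GB gB.card (by omega) (gB.ec3Y h3 cy'.legs) (gB.planeY h3 hop cy'))
      hr σ M h1 h2
  · obtain ⟨q, ψ, l, b, ch, cy, hx⟩ := hop.quad h3 c4 n6 f1 f2
    have hA := card_add_card_compl F
    have hr' : r ∈ Fᶜ := mem_compl.2 hr
    have key : ∀ (q : Fin 4 → V) (ψ : Fin 4 → Equiv.Perm (Fin 3)) (l : Fin 4 → V × Fin 3)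
        (b : Fin 4 → ℕ), Chart G Fᶜ eQ q ψ l → G.Cyc op Fᶜ l b → (Injective fun i => (l i).1) →
        (∃ s, Sol G s ∧ s r = σ ∧ Fits M r s) ∨ ∃ S ⊆ Fᶜ, (l 0).1 ∈ S ∧ (l 3).1 ∈ S ∧
          (l 1).1 ∉ S ∧ (l 2).1 ∉ S ∧ G.cut S ≤ 4 := by
      intro q ψ l b ch cy hx
      obtain ⟨W, _, _, G1, ι, ω, g⟩ := exists_glue cy.legs ⟨r, hr'⟩ eR eR_inv
      by_cases e3 : G1.EC3
      swap
      · exact Or.inr (g.not_ec3R h3 cy.legs e3)
      have four : 4 ≤ #Fᶜ := by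
        have := card_le_card_of_injOn (s := univ) (t := Fᶜ) (fun i => (l i).1)
          (fun i _ => ch.b_mem i) hx.injOn
        simpa using this
      have hI := ih _ (by omega) W G1 g.card (by omega) e3 (g.planeR h3 hop cy)
      left
      by_cases k : r ≠ (l 0).1 ∧ r ≠ (l 3).1
      · exact stepR ch cy.legs hx g e3 hI hr' k.1 k.2 σ M h1 h2
      · refine stepR (ch.rotQ 2) (cy.rot 2).legs (hx.comp (add_left_injective 2)) g.rot2 e3 hI hr'
          (fun e => ?_) (fun e => ?_) σ M h1 h2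
        · exact k ⟨fun e' => absurd (hx (e.symm.trans e')) (by decide),
            fun e' => absurd (hx (e.symm.trans e')) (by decide)⟩
        · exact k ⟨fun e' => absurd (hx (e.symm.trans e')) (by decide),
            fun e' => absurd (hx (e.symm.trans e')) (by decide)⟩
    rcases key q ψ l b ch cy hx with h | ⟨S, hS, s⟩
    · exact h
    rcases key _ _ _ _ (ch.rotQ 1) (cy.rot 1) (hx.comp (add_left_injective 1)) with h | ⟨T, hT, t⟩
    · exact h
    obtain ⟨q', ψ', b', c⟩ := chart_cube h3 c4 ch cy.legs hx hS hT s t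
    exact c.ind fin_cube r σ M h1 h2
  refine INDw.strong ?_ h1 h2
  rcases p4 with p4 | p4
  swap
  · exact stepA h4 hC h3 ⟨op, hop⟩ p4 p2 p3 M h1 h2
  have hA := card_add_card_compl P
  have one := p3.leg_inj p1 p2
  have far := c4.leg_inj (A := Pᶜ) (by rw [CG.cut_compl, p1]) p4 (by rw [compl_compl]; omega)
  have small : ∀ S ⊆ Pᶜ, G.cut S ≤ 3 → #S ≤ 1 := fun S hS k => (c4 S k).resolve_right fun e => by
    have := card_le_card (show P ⊆ Sᶜ from fun v hv => mem_compl.2 fun h => mem_compl.1 (hS h) hv)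
    omega
  have keyH : ∀ (l : Fin 4 → V × Fin 3) (b : Fin 4 → ℕ), G.Cyc op P l b → G.Full P l eH →
      INDw G r σ M := by
    intro l b cy hF
    have cy' := cy.compl hop
    have ne : ∀ i j, i ≠ j → (G.e (l i)).1 ≠ (G.e (l j)).1 := fun i j ij e =>
      ij (cy'.legs.inj (far _ ((cy'.legs.mem _).2 ⟨i, rfl⟩) _ ((cy'.legs.mem _).2 ⟨j, rfl⟩) e))
    obtain ⟨W, _, _, G1, ι, ω, g⟩ := exists_glue cy'.legs ⟨r, mem_compl.2 hr⟩ eH eH_inv
    obtain ⟨op', hop', -⟩ := g.planeH h3 hop cy'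
    exact step4 eH_leg (by omega) cy.legs hF (poleH hC h3 hop cy p2 p3) one far g
      (ih _ (by omega) W G1 g.card (by omega)
        (g.ec3H h3 cy'.legs small (ne 0 1 (by decide)) (ne 2 3 (by decide))) ⟨op', hop'⟩)
      hr σ M h1 h2
  obtain ⟨l, b, cy⟩ := hop.cyc4 h3 p1
  have hx : Injective fun i => (l i).1 := fun i j e =>
    cy.legs.inj (one _ ((cy.legs.mem _).2 ⟨i, rfl⟩) _ ((cy.legs.mem _).2 ⟨j, rfl⟩) e)
  rcases types h4 h3 hop cy (p3.small h3 p1) hx with hF | hF | hF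
  · exact keyH l b cy hF
  · exact keyH _ _ (cy.rot 1) hF
  · have cy' := cy.compl hop
    obtain ⟨W, _, _, G1, ι, ω, g⟩ := exists_glue cy'.legs ⟨r, mem_compl.2 hr⟩ eQ eQ_inv
    exact step4 eQ_leg (by omega) cy.legs hF (poleQ hC h3 hop cy p2 p3) one far g
      (ih _ (by omega) W G1 g.card (by omega) (g.ec3Q h3 cy'.legs) (g.planeQ h3 hop cy'))
      hr σ M h1 h2

theorem good_of_plane (h4 : H4) (hC : Close) {V : Type} [Fintype V] [DecidableEq V]
    {H : SimpleGraph V} {G : CG V} (h : G.Rep H) (n : 4 ≤ Fintype.card V)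
    (h3 : ∀ S : Finset V, S.card ≤ 2 → (H.induce ((S : Set V)ᶜ)).Connected) (hp : G.Plane) :
    Good H Set.univ := by
  obtain ⟨r⟩ : Nonempty V := Fintype.card_pos_iff.1 (by omega)
  obtain ⟨s, hs, e, f⟩ := main h4 hC _ V G rfl n (h.ec3 n h3) hp r ⟨0, 1, true, .V⟩ ∅
    (by decide) (by decide)
  refine h.good hs fun v => ?_
  by_cases k : v = r
  · rw [k, e]
    exact Or.inl rfl
  · exact (f v k).2 (notMem_empty v)

end Pool.Agent.MP_8c1b0d_co.RI
end

section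
set_option autoImplicit false

namespace Pool.Agent.MP_8c1b0d_co.RI

/-- the theorem for graphs drawn in the plane, from the colouring statement -/
theorem planar_of (four : ∀ (D : Type) [Fintype D] (M : CT4.Map D), M.Planar → M.Bridgeless →
      M.Colourable) (V : Type) [Fintype V] [DecidableEq V] (G : SimpleGraph V)
    (hc : ∀ v : V, (G.neighborSet v).ncard = 3) (n : 4 ≤ Fintype.card V)
    (h3 : ∀ S : Finset V, S.card ≤ 2 → (G.induce ((S : Set V)ᶜ)).Connected)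
    (p : V → ℂ) (hp : Function.Injective p) (γ : ∀ u v : V, G.Adj u v → Path (p u) (p v))
    (hv : ∀ (u v : V) (h : G.Adj u v) (t : unitInterval),
      0 < (t : ℝ) → (t : ℝ) < 1 → ∀ w : V, γ u v h t ≠ p w)
    (hx : ∀ (u v : V) (h : G.Adj u v) (u' v' : V) (h' : G.Adj u' v') (t t' : unitInterval),
      0 < (t : ℝ) → (t : ℝ) < 1 → 0 < (t' : ℝ) → (t' : ℝ) < 1 →
      γ u v h t = γ u' v' h' t' → s(u, v) = s(u', v')) :
    ∃ (a b : V × Bool)
      (c₁ : (G.boxProd (⊤ : SimpleGraph Bool)).Walk a a)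
      (c₂ : (G.boxProd (⊤ : SimpleGraph Bool)).Walk b b),
      c₁.IsHamiltonianCycle ∧ c₂.IsHamiltonianCycle ∧
      ∀ e ∈ (G.boxProd (⊤ : SimpleGraph Bool)).edgeSet,
        (e ∈ c₁.edges ↔ e ∉ c₂.edges) := by
  have : Nonempty V := Fintype.card_pos_iff.1 (by omega)
  obtain ⟨e, op, ee, adj, inj, -, mat, cnt⟩ :=
    Topo.exists_labels G hc n h3 (Topo.noK_of_frozen G p hp γ hv hx)
  have a : ∀ d : V × Fin 3, G.Adj d.1 (e d).1 := fun d => (adj _ _).2 ⟨d.2, rfl⟩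
  refine (good_of_plane (h4_of_map four) RR.close (G := ⟨e, ee, fun d k => (a d).ne (by rw [k])⟩)
    ⟨a, fun u v h => (adj u v).1 h, inj⟩ n h3 ⟨op, fun d => (mat d).symm, cnt⟩).final hc

theorem frozen_of (four : ∀ (D : Type) [Fintype D] (M : CT4.Map D), M.Planar → M.Bridgeless →
      M.Colourable) :
    ∀ (V : Type) [Fintype V] [DecidableEq V] (G : SimpleGraph V),
      (∀ v : V, (G.neighborSet v).ncard = 3) →
      4 ≤ Fintype.card V →
      (∀ S : Finset V, S.card ≤ 2 → (G.induce ((S : Set V)ᶜ)).Connected) →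
      (∃ p : V → ℂ, Function.Injective p ∧
        ∃ γ : ∀ u v : V, G.Adj u v → Path (p u) (p v),
          (∀ (u v : V) (h : G.Adj u v), Function.Injective (γ u v h)) ∧
          (∀ (u v : V) (h : G.Adj u v) (t : unitInterval),
              0 < (t : ℝ) → (t : ℝ) < 1 → ∀ w : V, γ u v h t ≠ p w) ∧
          (∀ (u v : V) (h : G.Adj u v) (u' v' : V) (h' : G.Adj u' v')
              (t t' : unitInterval),
              0 < (t : ℝ) → (t : ℝ) < 1 → 0 < (t' : ℝ) → (t' : ℝ) < 1 →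
              γ u v h t = γ u' v' h' t' → Sym2.mk (u, v) = Sym2.mk (u', v'))) →
      ∃ (a b : V × Bool)
        (c₁ : (G.boxProd (⊤ : SimpleGraph Bool)).Walk a a)
        (c₂ : (G.boxProd (⊤ : SimpleGraph Bool)).Walk b b),
        c₁.IsHamiltonianCycle ∧ c₂.IsHamiltonianCycle ∧
        ∀ e ∈ (G.boxProd (⊤ : SimpleGraph Bool)).edgeSet,
          (e ∈ c₁.edges ↔ e ∉ c₂.edges) := by
  rintro V _ _ G hc n h3 ⟨p, hp, γ, -, hv, hx⟩
  refine planar_of four V G hc n h3 p hp γ hv fun u v h u' v' h' t t' a b c d e => ?_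
  have k : (u, v) = (u', v') :=
    Sym2.congr_left.1 (congrFun (hx u v h u' v' h' t t' a b c d e) (u, v))
  rw [(Prod.mk.inj k).1, (Prod.mk.inj k).2]

end Pool.Agent.MP_8c1b0d_co.RI
end

end
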