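import Pool.Agent.MP_8c1b0d_co.Mg.RR_G

attribute [-instance] instCoeHTCOfCoeHeadOfCoeOTC List.instDecidableMemOfLawfulBEq instCoeOTCOfCoeTC
  instCoeOutOfCoeFun Finset.decidableDforallFinset Nontrivial.to_nonempty
  Multiset.decidableDforallMultiset Vector.instDecidableForallForallMemOfDecidablePred
  instCoeHTCTOfCoeTailOfCoeHTC instCoeOutOfCoeSort Option.decidableForallMem
  Array.instDecidableForallForallMemOfDecidablePred Zero.instNonempty bot_nonempty instTransOfIsTrans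
  Unique.instInhabited One.instNonempty AddTorsor.nonempty Int.decidableLTLE Pi.instNonempty
  IsometryClass.instCoeOutIsometryEquiv instCoeTOfCoeDep Int.decidableLELE Int.decidableLTLT
  Int.decidableLELT instCoeHTCT Torsor.nonempty instCoeHTC
  ContinuousAddMonoidHom.instCoeOutOfAddMonoidHomClassOfContinuousMapClass
  HomeomorphClass.instCoeOutHomeomorph instCoeOTC Group.IsPerfect.subsingleton_of_isMulCommutative
  top_nonempty ConnectedSpace.toNonempty

-- part MP_8c1b0d_co.RR.B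
section

set_option autoImplicit false
set_option linter.unusedSectionVars false
open Finset

namespace Pool.Agent.MP_8c1b0d_co.RR
namespace PR
open PL
variable {V Φ : Type} [Fintype V] [DecidableEq V] [Fintype Φ] [DecidableEq Φ] (p : PR V Φ)

lemma five_le (φ : Φ) : 5 ≤ #(p.cor φ) := by
  refine p.ok.five (p.cor_ne φ) fun v hv => ?_
  obtain ⟨j, rfl⟩ := p.mem_cor.1 hv
  have key : ∀ j : Option Bool, ∃ k k', k ≠ k' ∧ j ≠ k ∧ j ≠ k' := by decide
  obtain ⟨k, k', h1, h2, h3⟩ := key j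
  exact ⟨k, k', h1, (LB.Al.mem _ (p.al_op h2 v)).2, (LB.Al.mem _ (p.al_op h3 v)).2⟩
/-- Cycles of length at most 6 are faces. `5 ≤ cut C ≤ #C ≤ 6` and parity give `Deg2.leg`.
The complement is connected: two parts have cuts at most 4, so at most 2 vertices each
(`cut_split`, `three`, `small`), against `twenty`. So `val` of `sep` is constant on the faces that
have a corner outside `C`, and `op k v` has the other value. -/
lemma f6 {C : Finset V} (h6 : #C ≤ 6) (h : p.t.Deg2 C) {v : V} (hv : v ∈ C) {k : Option Bool}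
    (hk : ∀ k', k' ≠ k → p.t.nb k' v ∈ C) : p.cor (p.op k v) ⊆ C := by
  have h5 := p.ok.five ⟨v, hv⟩ h
  have h20 := card_add_card_compl p.R
  have b1 := p.ok.b1
  have b2 := p.ok.b2
  have hc := card_add_card_compl C
  have c1 := p.ok.c5 C (by omega) (by omega) (fun e => by rw [e] at h6; omega)
    fun e => by rw [← e, compl_compl] at b2; omega
  have c2 := h.cut_le
  have c3 := (p.t.sub_bd C).parity
  rw [← p.t.cut_eq] at c3
  have hl := h.leg p.t (by omega)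
  obtain ⟨val, s1, s2, s3⟩ := p.sep hl
  obtain ⟨k0, a, -⟩ := hl v hv
  obtain rfl : k0 = k := by_contra fun c => a (hk k0 c)
  have key : ∀ z ∉ C, val (p.op none z) = val (p.op none (p.t.nb k0 v)) := by
    intro z hz
    by_contra c
    let W : Finset V := {u ∈ Cᶜ | val (p.op none u) = val (p.op none (p.t.nb k0 v))}
    have hW : W ⊆ Cᶜ := filter_subset _ _
    have d1 := p.t.cut_split hW fun u hu k hk => by
      rw [mem_filter] at hu ⊢
      exact ⟨hk, (s3 u k (mem_compl.1 hu.1) (mem_compl.1 hk)).symm.trans hu.2⟩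
    rw [p.t.cut_compl] at d1
    have n1 : C ⊆ Wᶜ := fun u hu => mem_compl.2 fun c => mem_compl.1 (hW c) hu
    have n2 : C ⊆ (Cᶜ \ W)ᶜ := fun u hu => mem_compl.2 fun c => mem_compl.1 (mem_sdiff.1 c).1 hu
    have d2 := p.ok.three (S := W) ⟨_, mem_filter.2 ⟨mem_compl.2 a, rfl⟩⟩ ⟨v, n1 hv⟩
    have d3 := p.ok.three (S := Cᶜ \ W)
      ⟨z, mem_sdiff.2 ⟨mem_compl.2 hz, fun c' => c (mem_filter.1 c').2⟩⟩ ⟨v, n2 hv⟩
    have d4 := p.ok.small3 (S := W) (by omega)
    have d5 := p.ok.small3 (S := Cᶜ \ W) (by omega)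
    have d6 := card_le_card n1
    have d7 := card_le_card n2
    have d8 := card_sdiff_add_card_eq_card hW
    omega
  intro u hu
  by_contra c
  obtain ⟨k1, h1⟩ := exists_ne k0
  obtain ⟨k2, -, b⟩ := p.al_nb (p.al_op h1 v)
  obtain ⟨k3, b'⟩ := p.mem_cor.1 hu
  refine s2 v hv k0 k1 a h1 ?_
  rw [← b, ← b', s1 u c k3 none, key u c]
  exact s1 _ a none k2

variable {p}

/-- removing the leaves of an `m`-closed bond side lowers the cut -/
lemma f4_leaf {X : Finset V} (h : p.Bond X) (hm : ∀ v ∈ X, p.t.m v ∈ X) (h6 : 6 ≤ #X)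
    (hf : ∀ v ∈ X, v ∉ p.R) (hp : X ≠ p.Rᶜ) : 5 + #{v ∈ X | ∀ c, p.t.nb (some c) v ∉ X} ≤ p.t.cut X := by
  set L : Finset V := {v ∈ X | ∀ c, p.t.nb (some c) v ∉ X} with hL
  have mL : ∀ v, v ∈ L ↔ v ∈ X ∧ ∀ c, p.t.nb (some c) v ∉ X := fun v => by
    simp only [hL, mem_filter]
  have LX : L ⊆ X := filter_subset _ _
  have nl : ∀ v ∈ L, p.t.m v ∉ L := by
    intro v hv hv'
    have s : ({v, p.t.m v} : Finset V) ⊆ X := by
      intro w hw
      rcases mem_insert.1 hw with rfl | hw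
      · exact LX hv
      · rw [mem_singleton.1 hw]; exact LX hv'
    refine (h.con _ s ?_).elim (insert_ne_empty _ _) fun q => ?_
    swap
    · have := card_le_two (a := v) (b := p.t.m v)
      rw [q] at this
      omega
    intro w hw k hk
    have wL : w ∈ L := by
      rcases mem_insert.1 hw with rfl | hw
      · exact hv
      · rw [mem_singleton.1 hw]; exact hv'
    rcases k with _ | c
    · rcases mem_insert.1 hw with rfl | hw
      · simp
      · rw [mem_singleton.1 hw, Tri.nb_none, p.t.mm]; simp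
    · exact absurd (p.t.mem_bd.2 ⟨LX wL, ((mL w).1 wL).2 c⟩) hk
  have minj : Function.Injective p.t.m := Function.LeftInverse.injective p.t.mm
  have c1 : #L ≤ #(X \ L) :=
    card_le_card_of_injOn p.t.m
      (fun v hv => mem_coe.2 (mem_sdiff.2 ⟨hm v (LX hv), nl v hv⟩)) minj.injOn
  have c2 := card_sdiff_add_card_eq_card LX
  have c5 : 5 ≤ p.t.cut (X \ L) := p.ok.c5P (fun v a => hf v (mem_sdiff.1 a).1)
    (fun e => hp (Subset.antisymm (fun v a => mem_compl.2 (hf v a)) (e ▸ sdiff_subset)))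
    (by omega)
  have s1 : p.t.bd (X \ L) ⊆ {d ∈ p.t.bd X | ¬ d.1 ∈ L} ∪ L.image fun v => (p.t.m v, none) := by
    rintro ⟨v, k⟩ hd
    obtain ⟨d1, d2⟩ := p.t.mem_bd.1 hd
    obtain ⟨d3, d4⟩ := mem_sdiff.1 d1
    by_cases e : p.t.nb k v ∈ X
    · have w : p.t.nb k v ∈ L := by
        by_contra q
        exact d2 (mem_sdiff.2 ⟨e, q⟩)
      rcases k with _ | c
      · refine mem_union_right _ (mem_image.2 ⟨_, w, ?_⟩)
        rw [Tri.nb_none, p.t.mm]
      · have := ((mL _).1 w).2 c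
        rw [p.t.nb_nb] at this
        exact absurd d3 this
    · exact mem_union_left _ (mem_filter.2 ⟨p.t.mem_bd.2 ⟨d3, e⟩, d4⟩)
  have s2 : L ×ˢ ({some false, some true} : Finset (Option Bool)) ⊆ {d ∈ p.t.bd X | d.1 ∈ L} := by
    rintro ⟨v, k⟩ hd
    obtain ⟨d1, d2⟩ := mem_product.1 hd
    refine mem_filter.2 ⟨p.t.mem_bd.2 ⟨LX d1, ?_⟩, d1⟩
    rcases mem_insert.1 d2 with e | e
    · rw [show k = some false from e]; exact ((mL v).1 d1).2 false
    · rw [show k = some true from mem_singleton.1 e]; exact ((mL v).1 d1).2 true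
  have t1 := (card_le_card s1).trans (card_union_le _ _)
  have t2 := card_le_card s2
  rw [card_product, card_pair (by simp)] at t2
  have t3 := card_image_le (s := L) (f := fun v => ((p.t.m v, none) : V × Option Bool))
  have t4 := card_filter_add_card_filter_not (s := p.t.bd X) (fun d => d.1 ∈ L)
  rw [p.t.cut_eq] at c5 ⊢
  omega

/-- T5. Leaves `L = {v ∈ X | x v ∉ X ∧ y v ∉ X}`; the partner `m v` of a leaf is not a leaf (`con`),
`cut (X \ L) + #L = cut X` (at least `≤`), `3 ≤ #(X \ L)`, so `5 + #L ≤ cut X`. A crossing face has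
at least two corners in `X` unless it is `op none v` for a leaf `v`. `sum_cor X` and `count`:
`3 #X ≥ 6 F_in + 2 F_cross - #L + 2 #M`. -/
theorem t5 {X : Finset V} (h : p.Bond X) (hm : ∀ v ∈ X, p.t.m v ∈ X) (h6 : 6 ≤ #X)
    (hf : ∀ v ∈ X, v ∉ p.R) (hp : X ≠ p.Rᶜ) (hin : ∀ φ, p.cor φ ⊆ X → 6 ≤ #(p.cor φ)) (M : Finset Φ)
    (hM : ∀ φ ∈ M, ¬ p.cor φ ⊆ X ∧ 4 ≤ #(p.cor φ ∩ X)) : 2 * #M + 11 ≤ 2 * p.t.cut X := by
  have lf := f4_leaf h hm h6 hf hp
  set L : Finset V := {v ∈ X | ∀ c, p.t.nb (some c) v ∉ X} with hL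
  have pt : ∀ φ, 6 * (if p.cor φ ⊆ X then 1 else 0) +
      2 * (if (p.cr (p.t.bd X) φ).Nonempty then 1 else 0) + 2 * (if φ ∈ M then 1 else 0) ≤
      #(p.cor φ ∩ X) + (if φ ∈ L.image (p.op none) then 1 else 0) := by
    intro φ
    by_cases i : p.cor φ ⊆ X
    · have e : ¬ (p.cr (p.t.bd X) φ).Nonempty :=
        not_nonempty_iff_eq_empty.2 ((p.cr_bd X φ).2 (Or.inl i))
      have m : φ ∉ M := fun q => (hM φ q).1 i
      have := hin φ i
      rw [if_pos i, if_neg e, if_neg m, inter_eq_left.2 i]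
      omega
    · rw [if_neg i]
      by_cases m : φ ∈ M
      · have := (hM φ m).2
        rw [if_pos m]
        split_ifs <;> omega
      · rw [if_neg m]
        by_cases e : (p.cr (p.t.bd X) φ).Nonempty
        · rw [if_pos e]
          obtain ⟨⟨v, k⟩, hd⟩ := e
          obtain ⟨d1, d2⟩ := p.mem_cr.1 hd
          have vX := (p.t.mem_bd.1 d1).1
          have vc := (LB.Al.mem _ d2).1
          have vm : v ∈ p.cor φ ∩ X := mem_inter.2 ⟨vc, vX⟩
          by_cases two : 2 ≤ #(p.cor φ ∩ X)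
          · omega
          · have one : ∀ k', p.Al φ (v, k') → p.t.nb k' v ∉ X := by
              intro k' al q
              exact two (one_lt_card.2
                ⟨_, mem_inter.2 ⟨(LB.Al.mem _ al).2, q⟩, v, vm, p.t.nb_ne k' v⟩)
            obtain ⟨k0, rfl⟩ := p.mem_cor.1 vc
            have k0n : k0 = none := by
              by_contra q
              exact one none (p.al_op q v) (hm v vX)
            subst k0n
            have vL : v ∈ L := mem_filter.2 ⟨vX, fun c => one _ (p.al_op (by simp) v)⟩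
            rw [if_pos (mem_image_of_mem _ vL)]
            have := card_pos.2 ⟨v, vm⟩
            omega
        · rw [if_neg e]; omega
  have sm := sum_le_sum fun φ (_ : φ ∈ (univ : Finset Φ)) => pt φ
  simp only [sum_add_distrib, ← mul_sum, sum_boole, Nat.cast_id, p.sum_cor, filter_mem_eq_inter,
    univ_inter] at sm
  have ci := card_image_le (s := L) (f := p.op none)
  obtain ⟨c1, c2, -⟩ := h.count
  omega

end PR
end Pool.Agent.MP_8c1b0d_co.RR

set_option autoImplicit false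
set_option linter.unusedSectionVars false
open Finset

namespace Pool.Agent.MP_8c1b0d_co.RR
open Tri
namespace Cl0
variable {V : Type} [Fintype V] [DecidableEq V] {t : Tri V} {R : Finset V} (a : Cl0 t R)

lemma mem_X {v : V} : v ∈ a.X ↔ v ∉ a.A0 ∧ v ∉ a.A1 ∧ (v, false) ∈ a.P := by simp only [X, mem_filter, mem_univ, true_and]
lemma mem_U0 {v : V} : v ∈ a.U0 ↔ v ∈ a.A0 ∧ (v, false) ∈ a.P := by simp [U0]
lemma mem_U1 {v : V} : v ∈ a.U1 ↔ ¬ ((v, false) ∈ a.P ↔ (v, true) ∈ a.P) := by simp only [U1, mem_filter, mem_univ, true_and]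
lemma mem_U2 {v : V} : v ∈ a.U2 ↔ v ∈ a.A1 ∧ (v, false) ∈ a.P ∧ (v, true) ∈ a.P := by simp [U2]
lemma mem_Sp {v : V} : v ∈ a.Sp ↔ ∃ c, (v, c) ∈ a.P := by simp only [Sp, mem_filter, mem_univ, true_and, Bool.exists_bool]
lemma mem_Sm {v : V} : v ∈ a.Sm ↔ ∀ c, (v, c) ∈ a.P := by simp only [Sm, mem_filter, mem_univ, true_and, Bool.forall_bool]
lemma mem_PH {h : V × Bool} : h ∈ a.PH ↔ h ∈ a.P ∧ h.1 ∉ a.X := by simp [PH]
lemma mem_M0 {S : Finset V} {u : V} : u ∈ a.M0 S ↔ u ∈ a.U0 ∧ ∀ c, t.col c u ∈ S := by simp [M0]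
lemma mem_M1 {S : Finset V} {u : V} : u ∈ a.M1 S ↔
    u ∈ a.U1 ∧ ∀ c, (u, c) ∈ a.P → t.col c u ∈ S ∧ t.col c (t.m u) ∈ S := by
  simp only [M1, mem_filter]
lemma dang_none {v : V} : (v, none) ∈ a.dang ↔ v ∈ a.U0 := by simp only [dang, Bool.exists_bool, Bool.not_false, Bool.not_true, mem_filter, mem_univ, true_and, reduceCtorEq, false_and, or_self, or_false]
lemma dang_some {v : V} {c : Bool} : (v, some c) ∈ a.dang ↔
    (v, c) ∈ a.D ∨ ((v, c) ∉ a.P ∧ (v, !c) ∈ a.P) := by cases c <;> simp only [dang, Bool.exists_bool, Bool.not_false, Bool.not_true, mem_filter, mem_univ, reduceCtorEq, false_and, true_and, Option.some.injEq, Bool.false_eq_true, or_false, false_or, Bool.true_eq_false]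
lemma not_A0_iff {v : V} : t.m v ∉ a.A0 ↔ v ∉ a.A0 := 
  ⟨fun h k => h (a.m0 v k), fun h k => h (t.mm v ▸ a.m0 _ k)⟩
lemma not_A1_iff {v : V} : t.m v ∉ a.A1 ↔ v ∉ a.A1 := 
  ⟨fun h k => h (a.m1 v k), fun h k => h (t.mm v ▸ a.m1 _ k)⟩
lemma f5_l0 {v : V} (h : v ∉ a.A1) (c c' : Bool) : (v, c) ∈ a.P ↔ (v, c') ∈ a.P := by
  have := a.l0 v h
  cases c <;> cases c' <;> tauto
lemma f5_disj {v : V} (h : v ∈ a.A0) : v ∉ a.A1 := disjoint_left.1 a.disj h
lemma P_of_X {v : V} (h : v ∈ a.X) (c : Bool) : (v, c) ∈ a.P := 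
  (a.f5_l0 (a.mem_X.1 h).2.1 _ _).1 (a.mem_X.1 h).2.2
lemma P_of_U0 {v : V} (h : v ∈ a.U0) (c : Bool) : (v, c) ∈ a.P := 
  (a.f5_l0 (a.f5_disj (a.mem_U0.1 h).1) _ _).1 (a.mem_U0.1 h).2
lemma X_of_P {v : V} {c : Bool} (h : (v, c) ∈ a.P) (h0 : v ∉ a.A0) (h1 : v ∉ a.A1) :
    v ∈ a.X := a.mem_X.2 ⟨h0, h1, (a.f5_l0 h1 _ _).1 h⟩
lemma A1_of_U1 {v : V} (h : v ∈ a.U1) : v ∈ a.A1 := by
  by_contra k
  exact a.mem_U1.1 h (a.f5_l0 k _ _)
lemma m_X {v : V} (h : v ∈ a.X) : t.m v ∈ a.X := by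
  obtain ⟨h0, h1, h2⟩ := a.mem_X.1 h
  exact a.mem_X.2 ⟨a.not_A0_iff.2 h0, a.not_A1_iff.2 h1, (a.l1 v h0 _).2 h2⟩
lemma m_U1 {v : V} (h : v ∈ a.U1) : t.m v ∈ a.U1 := by
  have h0 : v ∉ a.A0 := fun k => a.f5_disj k (a.A1_of_U1 h)
  rw [mem_U1, a.l1 v h0, a.l1 v h0]
  exact a.mem_U1.1 h
lemma m_U2 {v : V} (h : v ∈ a.U2) : t.m v ∈ a.U2 := by
  obtain ⟨h1, h2, h3⟩ := a.mem_U2.1 h
  have h0 : v ∉ a.A0 := fun k => a.f5_disj k h1
  exact a.mem_U2.2 ⟨a.m1 v h1, (a.l1 v h0 _).2 h2, (a.l1 v h0 _).2 h3⟩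
lemma m_M1 {S : Finset V} {v : V} (h : v ∈ a.M1 S) : t.m v ∈ a.M1 S := by
  obtain ⟨h1, h2⟩ := a.mem_M1.1 h
  have h0 : v ∉ a.A0 := fun k => a.f5_disj k (a.A1_of_U1 h1)
  refine a.mem_M1.2 ⟨a.m_U1 h1, fun c k => ?_⟩
  rw [t.mm]
  exact (h2 c ((a.l1 v h0 c).1 k)).symm
lemma Sp_cases {v : V} : v ∈ a.Sp ↔ v ∈ a.X ∨ v ∈ a.U0 ∨ v ∈ a.U1 ∨ v ∈ a.U2 := by
  have h0 := a.l0 v
  rw [mem_Sp, mem_X, mem_U0, mem_U1, mem_U2, Bool.exists_bool]
  tauto
lemma X_sub : a.X ⊆ a.Sm := fun _ h => a.mem_Sm.2 (a.P_of_X h)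
lemma Sm_sub : a.Sm ⊆ a.Sp := fun _ h => a.mem_Sp.2 ⟨false, a.mem_Sm.1 h _⟩
lemma f5_cardV (S : Finset V) : #S = ∑ v, if v ∈ S then 1 else 0 := by simp only [sum_ite_mem, univ_inter, sum_const, smul_eq_mul, mul_one]
lemma f5_cardB (S : Finset (V × Bool)) :
    #S = ∑ v, ((if (v, false) ∈ S then 1 else 0) + if (v, true) ∈ S then 1 else 0) := by
  have : #S = ∑ h, if h ∈ S then 1 else 0 := by simp only [sum_ite_mem, univ_inter, sum_const, smul_eq_mul, mul_one]
  rw [this, Fintype.sum_prod_type]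
  exact sum_congr rfl fun v _ => by rw [Fintype.sum_bool, add_comm]
lemma f5_cardO (S : Finset (V × Option Bool)) :
    #S = ∑ v, ((if (v, none) ∈ S then 1 else 0) + ((if (v, some false) ∈ S then 1 else 0) +
      if (v, some true) ∈ S then 1 else 0)) := by
  have : #S = ∑ h, if h ∈ S then 1 else 0 := by simp only [sum_ite_mem, univ_inter, sum_const, smul_eq_mul, mul_one]
  rw [this, Fintype.sum_prod_type]
  exact sum_congr rfl fun v _ => by
    rw [Fintype.sum_option, Fintype.sum_bool, add_comm (ite _ _ _) (ite _ _ _)]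
lemma card_Sp : #a.Sp = #a.Sm + #a.U1 := by
  rw [f5_cardV, f5_cardV, f5_cardV, ← sum_add_distrib]
  refine sum_congr rfl fun v _ => ?_
  simp only [mem_Sp, mem_Sm, mem_U1, Bool.exists_bool, Bool.forall_bool]
  by_cases h0 : (v, false) ∈ a.P <;> by_cases h1 : (v, true) ∈ a.P <;> simp [h0, h1]
lemma even_U1 : Even #a.U1 := t.even_card fun _ => a.m_U1
lemma even_U2 : Even #a.U2 := t.even_card fun _ => a.m_U2
lemma ρ_ρ (h : V × Bool) : a.ρ (a.ρ h) = h := by
  by_cases k : h.1 ∈ a.A0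
  · simp [ρ, k]
  · simp [ρ, k, a.not_A0_iff.2 k, t.mm]
lemma ρ_ne (h : V × Bool) : a.ρ h ≠ h := by
  obtain ⟨v, c⟩ := h
  by_cases k : v ∈ a.A0
  · simp [ρ, k]
  · simp [ρ, k, t.m_ne]
lemma ρ_PH {h : V × Bool} (k : h ∈ a.PH) : a.ρ h ∈ a.PH := by
  obtain ⟨v, c⟩ := h
  obtain ⟨k1, k2⟩ := a.mem_PH.1 k
  by_cases k0 : v ∈ a.A0
  · rw [ρ, if_pos k0]
    exact a.mem_PH.2 ⟨(a.f5_l0 (a.f5_disj k0) _ _).1 k1, k2⟩
  · rw [ρ, if_neg k0]
    exact a.mem_PH.2 ⟨(a.l1 v k0 c).2 k1, fun e => k2 (t.mm v ▸ a.m_X e)⟩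
lemma card_PH : #a.PH = 2 * #a.U0 + #a.U1 + 2 * #a.U2 := by
  rw [f5_cardB, f5_cardV, f5_cardV, f5_cardV, mul_sum, mul_sum, ← sum_add_distrib,
    ← sum_add_distrib]
  refine sum_congr rfl fun v _ => ?_
  have e0 := a.l0 v
  have e1 := a.f5_disj (v := v)
  simp only [mem_PH, mem_X, mem_U0, mem_U1, mem_U2]
  by_cases h0 : (v, false) ∈ a.P <;> by_cases h1 : (v, true) ∈ a.P <;>
    by_cases h2 : v ∈ a.A0 <;> by_cases h3 : v ∈ a.A1 <;> simp_all
lemma sub_dang : t.Sub a.Sp a.dang := by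
  refine ⟨?_, ?_⟩
  · rintro ⟨v, _ | c⟩ h
    · exact a.mem_Sp.2 ⟨false, a.P_of_U0 (a.dang_none.1 h) _⟩
    · rcases a.dang_some.1 h with k | k
      exacts [a.mem_Sp.2 ⟨c, a.dP k⟩, a.mem_Sp.2 ⟨_, k.2⟩]
  · rintro v hv (_ | c) h
    · obtain ⟨c, hc⟩ := a.mem_Sp.1 hv
      have h0 : v ∉ a.A0 := fun k =>
        h (a.dang_none.2 (a.mem_U0.2 ⟨k, (a.f5_l0 (a.f5_disj k) _ _).1 hc⟩))
      exact ⟨a.mem_Sp.2 ⟨c, (a.l1 v h0 c).2 hc⟩,
        fun k => a.not_A0_iff.2 h0 (a.mem_U0.1 (a.dang_none.1 k)).1⟩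
    · rw [dang_some, not_or] at h
      have hc : (v, c) ∈ a.P := by
        obtain ⟨c', hc'⟩ := a.mem_Sp.1 hv
        by_contra k
        cases c <;> cases c' <;> simp_all
      obtain ⟨k1, k2⟩ := a.cl _ hc h.1
      exact ⟨a.mem_Sp.2 ⟨c, k1⟩, fun k => (a.dang_some.1 k).elim k2 fun e => e.1 k1⟩
lemma f5_D : #a.D = #{v | (v, false) ∈ a.D} + #{v | (v, true) ∈ a.D} := by
  rw [f5_cardB, f5_cardV, f5_cardV, ← sum_add_distrib]
  simp only [mem_filter, mem_univ, true_and]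
lemma f5_U1 : #a.U1 = #{v ∈ a.U1 | (v, false) ∈ a.P} + #{v ∈ a.U1 | (v, true) ∈ a.P} := by
  rw [f5_cardV, f5_cardV, f5_cardV, ← sum_add_distrib]
  refine sum_congr rfl fun v _ => ?_
  simp only [mem_filter, mem_U1]
  by_cases h0 : (v, false) ∈ a.P <;> by_cases h1 : (v, true) ∈ a.P <;> simp [h0, h1]
lemma f5_cut (c : Bool) : #{v ∈ a.Sm | t.col c v ∉ a.Sm} ≤
    #{v | (v, c) ∈ a.D} + #{v ∈ a.U1 | (v, c) ∈ a.P} := by
  refine (card_le_card (t := ({v | (v, c) ∈ a.D} : Finset V) ∪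
    image (t.col c) {v ∈ a.U1 | (v, c) ∈ a.P})
    fun v hv => ?_).trans ((card_union_le _ _).trans (Nat.add_le_add_left card_image_le _))
  obtain ⟨h1, h2⟩ := mem_filter.1 hv
  by_cases k : (v, c) ∈ a.D
  · exact mem_union_left _ (by simpa only [mem_filter, mem_univ, true_and] using k)
  · have k1 : (t.col c v, c) ∈ a.P := (a.cl _ (a.mem_Sm.1 h1 c) k).1
    refine mem_union_right _ (mem_image.2 ⟨t.col c v, mem_filter.2 ⟨?_, k1⟩, t.col_col c v⟩)
    rw [mem_Sm, Bool.forall_bool] at h2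
    rw [mem_U1]
    cases c <;> tauto
/-- `m`-edges at `U0`, cut half-edges, and for every vertex of `U1` its half-edge in `P` -/
lemma cut_Sm : t.cut a.Sm ≤ #a.D + #a.U0 + #a.U1 := by
  have h0 := a.f5_cut false
  have h1 := a.f5_cut true
  have h2 : #{v ∈ a.Sm | t.m v ∉ a.Sm} ≤ #a.U0 := card_le_card fun v hv => by
    obtain ⟨k1, k2⟩ := mem_filter.1 hv
    refine a.mem_U0.2 ⟨?_, a.mem_Sm.1 k1 _⟩
    by_contra k
    exact k2 (a.mem_Sm.2 fun c => (a.l1 v k c).2 (a.mem_Sm.1 k1 c))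
  rw [f5_D, f5_U1]
  change #{v ∈ a.Sm | t.col false v ∉ a.Sm} + #{v ∈ a.Sm | t.col true v ∉ a.Sm} + _ ≤ _
  omega
lemma f5_Dc (c : Bool) : #{h ∈ a.D | h.2 = c} = #{v | (v, c) ∈ a.D} := by
  refine card_nbij' Prod.fst (fun v => (v, c)) ?_ ?_ ?_ ?_
  · rintro ⟨v, c'⟩ h
    obtain ⟨h1, rfl⟩ := mem_filter.1 h
    simpa only [coe_filter, mem_univ, true_and, Set.mem_ofPred_eq] using h1
  · intro v h
    simpa only [coe_filter, Set.mem_ofPred_eq, and_true, mem_univ, true_and] using h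
  · rintro ⟨v, c'⟩ h
    obtain ⟨-, rfl⟩ := mem_filter.1 h
    rfl
  · intro v _
    rfl
/-- `Q = {v | (v,c) ∈ P}`: `col c` pairs `Q` minus the cut half-edges, `m` pairs `Q \ U0` -/
lemma par (c : Bool) : #{h ∈ a.D | h.2 = c} % 2 = #a.U0 % 2 := by
  have e1 : Even #(({v | (v, c) ∈ a.P} : Finset V) \ ({v | (v, c) ∈ a.D} : Finset V)) :=
    even_card_inv (t.col c) _ (fun v hv => by
      simp only [mem_sdiff, mem_filter, mem_univ, true_and] at hv ⊢
      exact a.cl _ hv.1 hv.2) (fun v _ => t.col_col c v) fun v _ => t.nb_ne (some c) v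
  have e2 : Even #(({v | (v, c) ∈ a.P} : Finset V) \ a.U0) := t.even_card fun v hv => by
    simp only [mem_sdiff, mem_filter, mem_univ, true_and] at hv ⊢
    have h0 : v ∉ a.A0 := fun k => hv.2 (a.mem_U0.2 ⟨k, (a.f5_l0 (a.f5_disj k) _ _).1 hv.1⟩)
    exact ⟨(a.l1 v h0 c).2 hv.1, fun k => a.not_A0_iff.2 h0 (a.mem_U0.1 k).1⟩
  have c1 := card_sdiff_add_card_eq_card (s := {v | (v, c) ∈ a.D}) (t := {v | (v, c) ∈ a.P})
    fun v hv => by simpa only [mem_filter, mem_univ, true_and] using a.dP (by simpa using hv)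
  have c2 := card_sdiff_add_card_eq_card (s := a.U0) (t := {v | (v, c) ∈ a.P})
    fun v hv => by simpa using a.P_of_U0 hv c
  rw [Nat.even_iff] at e1 e2
  rw [f5_Dc]
  omega
lemma even_D : Even #a.D := by
  have h0 := a.par false
  have h1 := a.par true
  rw [f5_Dc] at h0 h1
  rw [f5_D, Nat.even_iff]
  omega
lemma noact (hn : NoAct t R) (h1 : ∀ h ∈ a.D, t.o h ∈ a.P) (h2 : ∀ v ∈ a.U0, t.m v ∈ a.U0)
    (h6 : #a.U1 = 6) : a.Sm = ∅ := by
  have h := hn a.P a.free (fun h k => by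
      by_cases e : h ∈ a.D
      exacts [h1 h e, (a.cl h k e).1]) (fun v c k => by
      by_cases e : v ∈ a.A0
      · exact a.P_of_U0 (h2 v (a.mem_U0.2 ⟨e, (a.f5_l0 (a.f5_disj e) _ _).1 k⟩)) c
      · exact (a.l1 v e c).2 k) h6
  exact eq_empty_of_forall_notMem fun v hv => h v ⟨a.mem_Sm.1 hv _, a.mem_Sm.1 hv _⟩

lemma Sp_free {v : V} (h : v ∈ a.Sp) : v ∉ R := by
  obtain ⟨c, k⟩ := a.mem_Sp.1 h
  exact a.free _ k
lemma X_Sp : a.X ⊆ a.Sp := a.X_sub.trans a.Sm_sub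
lemma U1_Sp : a.U1 ⊆ a.Sp := fun _ h => a.Sp_cases.2 (by tauto)

lemma f5b_three {S : Finset V} (h : #S ≤ 2) {v : V} {k k' : Option Bool} (hk : k ≠ k')
    (h0 : v ∈ S) (h1 : t.nb k v ∈ S) (h2 : t.nb k' v ∈ S) : False := by
  have : 2 < #S := two_lt_card.2 ⟨v, h0, _, h1, _, h2, (t.nb_ne k v).symm, (t.nb_ne k' v).symm,
    fun e => hk (t.nb_inj e)⟩
  omega

lemma f5b_hex (ok : OK t R) {Q : Finset V} {c : Bool} (h6 : #a.U1 ≤ 6) (hQ : Q ⊆ a.U1)
    (hc : ∀ v ∈ Q, t.m v ∈ Q ∧ t.col c v ∈ Q) {v : V} (hv : v ∈ Q) : False := by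
  obtain ⟨h1, h2⟩ := ok.alt hc ((card_le_card hQ).trans h6) hv
  obtain ⟨u, hu, c', -, h3⟩ := a.hexa v c h1
    (disjoint_left.2 fun u b => a.Sp_free (a.U1_Sp (hQ (h2 b))))
  exact (h3 u (by simp [hex])).2.1 (a.A1_of_U1 (hQ (h2 hu)))

lemma f5b_nA0 {v : V} (h : v ∈ a.U1) : v ∉ a.A0 := disjoint_right.1 a.disj (a.A1_of_U1 h)

lemma f5b_U1 {v : V} {c : Bool} (h : (v, c) ∈ a.P) (h' : (v, !c) ∉ a.P) : v ∈ a.U1 := by
  rw [a.mem_U1]
  cases c <;> simp_all

lemma f5b_six (ok : OK t R) (hn : NoAct t R) (hP : a.P.Nonempty) (h6 : #a.U1 = 6) (hD : a.D = ∅)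
    (h0 : a.U0 = ∅) : False := by
  have cl : ∀ v c, (v, c) ∈ a.P → (t.col c v, c) ∈ a.P := fun v c h =>
    (a.cl _ h (by simp [hD])).1
  have e := a.noact hn (by simp [hD]) (by simp [h0]) h6
  · obtain ⟨⟨v, c⟩, hv⟩ := hP
    have sub : ∀ w, (w, c) ∈ a.P → w ∈ a.U1 := fun w hw => a.f5b_U1 hw fun hw' => by
      have : w ∈ a.Sm := a.mem_Sm.2 fun c' => by cases c <;> cases c' <;> assumption
      simp [e] at this
    refine a.f5b_hex ok (Q := {w | (w, c) ∈ a.P}) (c := c) h6.le (fun w hw => sub w ?_)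
      (fun w hw => ?_) (v := v) (by simpa only [mem_filter, mem_univ, true_and] using hv)
    · simpa only [mem_filter, mem_univ, true_and] using hw
    · have hw' : (w, c) ∈ a.P := by simpa only [mem_filter, mem_univ, true_and] using hw
      simpa only [mem_filter, mem_univ, true_and] using ⟨(a.l1 w (a.f5b_nA0 (sub w hw')) c).2 hw', cl w c hw'⟩

end Cl0

namespace Cl
open Cl0
variable {V : Type} [Fintype V] [DecidableEq V] {t : Tri V} {R : Finset V} (a : Cl t R)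

lemma X_of_D {h : V × Bool} (k : h ∈ a.D) : h.1 ∈ a.X := 
  a.X_of_P (c := h.2) (a.dP k) (a.dX h k).1 (a.dX h k).2
lemma o_PH {h : V × Bool} (k : h ∈ a.PH) : t.o h ∈ a.P ∧ t.o h ∉ a.D := 
  a.cl h (a.mem_PH.1 k).1 fun e => (a.mem_PH.1 k).2 (a.X_of_D e)
lemma card_dang : #a.dang = #a.D + #a.U0 + #a.U1 := by
  rw [f5_cardO, f5_cardB, f5_cardV, f5_cardV, ← sum_add_distrib, ← sum_add_distrib]
  refine sum_congr rfl fun v _ => ?_
  have e0 : (v, false) ∈ a.D → (v, false) ∈ a.P ∧ (v, true) ∈ a.P := fun h =>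
    ⟨a.P_of_X (a.X_of_D h) _, a.P_of_X (a.X_of_D h) _⟩
  have e1 : (v, true) ∈ a.D → (v, false) ∈ a.P ∧ (v, true) ∈ a.P := fun h =>
    ⟨a.P_of_X (a.X_of_D h) _, a.P_of_X (a.X_of_D h) _⟩
  simp only [dang_none, dang_some, mem_U1]
  by_cases h0 : (v, false) ∈ a.P <;> by_cases h1 : (v, true) ∈ a.P <;>
    by_cases h2 : (v, false) ∈ a.D <;> by_cases h3 : (v, true) ∈ a.D <;>
    by_cases h4 : v ∈ a.U0 <;> simp_all
lemma f5b_big (hP : a.P.Nonempty) (hD : #a.D ≤ 3) (h2 : #a.Sp ≤ 2) : False := by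
  obtain ⟨⟨v, c⟩, hv⟩ := hP
  have sp : ∀ {w c}, (w, c) ∈ a.P → w ∈ a.Sp := fun h => a.mem_Sp.2 ⟨_, h⟩
  by_cases hX : v ∈ a.X
  · have key : ∀ w ∈ a.X, ∀ c, (w, c) ∈ a.D := fun w hw c => by
      by_contra k
      exact f5b_three h2 (k := none) (k' := some c) (by simp) (sp (a.P_of_X hw c))
        (sp (a.P_of_X (a.m_X hw) c)) (sp (a.cl _ (a.P_of_X hw c) k).1)
    have sub : ({v, t.m v} : Finset V) ×ˢ (univ : Finset Bool) ⊆ a.D := by
      rintro ⟨w, c⟩ hw
      rw [mem_product, mem_insert, mem_singleton] at hw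
      rcases hw.1 with e | e
      · exact key w ((show w = v from e) ▸ hX) c
      · exact key w ((show w = t.m v from e) ▸ a.m_X hX) c
    have := card_le_card sub
    rw [card_product, card_pair (t.m_ne v).symm] at this
    simp at this
    omega
  · have o : ∀ c, (v, c) ∈ a.P → t.col c v ∈ a.Sp := fun c h =>
      sp (a.o_PH (a.mem_PH.2 ⟨h, hX⟩)).1
    by_cases h0 : v ∈ a.A0
    · have l := a.l0 v (disjoint_left.1 a.disj h0)
      have hf : (v, false) ∈ a.P := by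
        cases c
        exacts [hv, l.1 hv]
      exact f5b_three h2 (k := some false) (k' := some true) (by simp) (sp hv) (o _ hf)
        (o _ (l.2 hf))
    · exact f5b_three h2 (k := none) (k' := some c) (by simp) (sp hv)
        (sp ((a.l1 v h0 c).2 hv)) (o c hv)

/-- LEMMA U -/
theorem lemU (ok : OK t R) (hn : NoAct t R) (hP : a.P.Nonempty) : 8 ≤ a.w2 := by
  by_contra hw
  unfold w2 at hw
  have e1 := Nat.even_iff.1 a.even_U1
  have e2 := Nat.even_iff.1 a.even_D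
  by_cases h6 : #a.U1 = 6
  · exact (a.f5b_six ok hn hP h6 (card_eq_zero.1 (by omega)) (card_eq_zero.1 (by omega))).elim
  have e3 := a.par true
  have e4 : #{h ∈ a.D | h.2 = true} ≤ #a.D := card_filter_le _ _
  have h4 : #a.D + #a.U0 + #a.U1 ≤ 4 := by omega
  have c1 := a.sub_dang.cut_le
  rw [a.card_dang] at c1
  have c2 := a.card_Sp
  have c3 := a.cut_Sm
  have b := ok.b2
  have c4 := ok.cut4
  rw [← cut_compl] at c4
  rcases ok.smallP (fun v => a.Sp_free) (c1.trans h4) with k | k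
  · exact a.f5b_big hP (by omega) k
  rcases ok.smallP (fun v h => a.Sp_free (a.Sm_sub h)) (c3.trans h4) with k' | k'
  · rw [k] at c2; omega
  · rw [k, k'] at c2; rw [k] at c1; omega

end Cl
end Pool.Agent.MP_8c1b0d_co.RR

set_option autoImplicit false
set_option linter.unusedSectionVars false
open Finset

namespace Pool.Agent.MP_8c1b0d_co.RR
namespace PR
open PL
namespace Ori
variable {V Φ : Type} [Fintype V] [DecidableEq V] [Fintype Φ] [DecidableEq Φ] {p : PR V Φ}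
  (a : p.Ori)

/-- `bip` with `β v = if (v,false) ∈ P then ε (v,false) else ε (v,true)`, then `five_le` -/
lemma even_face {φ : Φ} (h0 : p.cr a.toCl.dang φ = ∅) (h1 : p.cor φ ⊆ a.toCl.Sp)
    (h2 : Disjoint (p.cor φ) a.toCl.U2) : 6 ≤ #(p.cor φ) := by
  have key : ∀ v ∈ p.cor φ, ∀ c, (v, c) ∈ a.P →
      (if (v, false) ∈ a.P then a.ε (v, false) else a.ε (v, true)) = a.ε (v, c) := by
    intro v hv c hc
    cases c
    · rw [if_pos hc]
    · split_ifs with h
      · exact (a.e0 v fun k => disjoint_left.1 h2 hv (a.toCl.mem_U2.2 ⟨k, h, hc⟩)).symm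
      · rfl
  have ev := p.bip (φ := φ)
    (fun v => if (v, false) ∈ a.P then a.ε (v, false) else a.ε (v, true)) fun v k hk => by
      obtain ⟨hv, hw⟩ := hk.mem
      have hd : (v, k) ∉ a.toCl.dang := fun e => by
        have := p.mem_cr.2 ⟨e, hk⟩
        rw [h0] at this
        exact notMem_empty _ this
      obtain ⟨c, hc⟩ := a.toCl.mem_Sp.1 (h1 hv)
      rcases k with _ | k
      · have h3 : v ∉ a.A0 := fun e => hd (a.toCl.dang_none.2 (a.toCl.mem_U0.2 ⟨e, by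
          cases c
          · exact hc
          · exact (a.l0 v (disjoint_left.1 a.disj e)).1 hc⟩))
        rw [key v hv c hc, key _ hw c ((a.l1 v h3 c).2 hc)]
        exact a.e1 v h3 c
      · rw [a.toCl.dang_some, not_or] at hd
        have h3 : (v, k) ∈ a.P := by
          by_contra e
          refine hd.2 ⟨e, ?_⟩
          cases c <;> cases k <;> first | exact hc | exact absurd hc e
        rw [key v hv k h3, key _ hw k (a.cl _ h3 hd.1).1]
        exact a.e2 _ h3 hd.1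
  have := p.five_le φ
  obtain ⟨n, hn⟩ := ev
  omega

end Ori

namespace Fl
variable {V Φ : Type} [Fintype V] [DecidableEq V] [Fintype Φ] [DecidableEq Φ] {p : PR V Φ}
  (a : p.Fl)

lemma f6_X_Sp : a.toCl.X ⊆ a.toCl.Sp := a.toCl.X_sub.trans a.toCl.Sm_sub

lemma R_sub : p.R ⊆ a.toCl.Spᶜ := fun _ h => mem_compl.2 fun k => a.toCl.Sp_free k h
lemma T0 : 7 ≤ #a.toCl.Spᶜ := p.ok.b1.trans (card_le_card a.R_sub)
lemma X_free : ∀ v ∈ a.toCl.X, v ∉ p.R := fun _ h => a.toCl.Sp_free (a.f6_X_Sp h)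
lemma ne_P {S : Finset V} (h : S ⊆ a.toCl.X) : S ≠ p.Rᶜ := fun e => a.prop (Subset.antisymm
  (fun _ k => mem_compl.2 (a.toCl.Sp_free k)) (e ▸ h.trans a.f6_X_Sp))

lemma f6_cut : 5 ≤ p.t.cut a.toCl.Sp :=
  p.ok.c5P (fun _ => a.toCl.Sp_free) a.prop
    (by have := a.big; have := card_le_card a.f6_X_Sp; omega)

/-- `5 ≤ cut Sp ≤ #dang` (`big`, `T0`, `c5`) -/
lemma five : 5 ≤ #a.D + #a.toCl.U0 + #a.toCl.U1 :=
  a.toCl.card_dang ▸ a.f6_cut.trans a.toCl.sub_dang.cut_le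

/-- `noact` is impossible here: `Sm ⊇ X` and `Spᶜ` are nonempty -/
lemma no6 (h1 : ∀ h ∈ a.D, p.t.o h ∈ a.P) (h2 : ∀ v ∈ a.toCl.U0, p.t.m v ∈ a.toCl.U0) :
    #a.toCl.U1 ≠ 6 := by
  intro h6
  have h := a.toCl.noact a.na h1 h2 h6
  have h3 := card_le_card a.toCl.X_sub
  have := a.big
  rw [h, card_empty] at h3
  omega

/-- arithmetic with `five`, `light`, `even_U1`, `even_U2`, `even_D`, `par`, `no6` -/
lemma T1 : a.toCl.U2 = ∅ := by
  rw [← card_eq_zero]
  by_contra hc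
  have h1 := a.five
  have h2 := a.light
  rw [Cl0.w2] at h2
  obtain ⟨n1, h3⟩ := a.toCl.even_U1
  obtain ⟨n2, h4⟩ := a.toCl.even_U2
  obtain ⟨n3, h5⟩ := a.toCl.even_D
  have h6 := a.toCl.par false
  have h7 : #{h ∈ a.D | h.2 = false} ≤ #a.D := card_filter_le _ _
  have hD : a.D = ∅ := card_eq_zero.1 (by omega)
  have h8 : #a.D = 0 := card_eq_zero.2 hD
  have hU : a.toCl.U0 = ∅ := card_eq_zero.1 (by omega)
  refine a.no6 (by simp [hD]) (by simp [hU]) ?_
  rw [hU, card_empty] at h1 h2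
  omega

/-- Otherwise `o h ∈ D` too (`cl`), `dang` without these two half-edges is still a `Sub`, so
`7 ≤ #D + #U0 + #U1`; then `D = {h, o h}`, `U0 = ∅` (`par`), `#U1 = 6`, `no6`. -/
lemma T2 {h : V × Bool} (k : h ∈ a.D) : (p.t.o h).1 ∉ a.toCl.X := by
  intro hX
  have hP : p.t.o h ∈ a.P := a.toCl.P_of_X hX h.2
  have hD : p.t.o h ∈ a.D := by
    by_contra e
    exact (a.cl _ hP e).2 (by rwa [p.t.o_o])
  obtain ⟨v, c⟩ := h
  have hv : v ∈ a.toCl.X := a.toCl.X_of_D k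
  have hw : p.t.col c v ∈ a.toCl.X := hX
  have hne : p.t.col c v ≠ v := p.t.nb_ne (some c) v
  let E : Finset (V × Option Bool) := {(v, some c), (p.t.col c v, some c)}
  have hE : E ⊆ a.toCl.dang := by
    intro d hd
    rcases mem_insert.1 hd with rfl | hd
    · exact a.toCl.dang_some.2 (Or.inl k)
    · rw [mem_singleton.1 hd]
      exact a.toCl.dang_some.2 (Or.inl hD)
  have hE2 : #E = 2 := card_pair fun e => hne (congrArg Prod.fst e).symm
  have hS : p.t.Sub a.toCl.Sp (a.toCl.dang \ E) := by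
    refine ⟨fun d hd => a.toCl.sub_dang.mem _ (mem_sdiff.1 hd).1, fun u hu j hj => ?_⟩
    by_cases e : (u, j) ∈ a.toCl.dang
    · have e' : (u, j) ∈ E := by
        by_contra e'
        exact hj (mem_sdiff.2 ⟨e, e'⟩)
      rcases mem_insert.1 e' with e' | e'
      · obtain ⟨rfl, rfl⟩ := Prod.mk.inj e'
        exact ⟨a.f6_X_Sp hw, fun z => (mem_sdiff.1 z).2
          (mem_insert_of_mem (mem_singleton_self _))⟩
      · obtain ⟨rfl, rfl⟩ := Prod.mk.inj (mem_singleton.1 e')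
        rw [Tri.nb_some, p.t.col_col]
        exact ⟨a.f6_X_Sp hv, fun z => (mem_sdiff.1 z).2 (mem_insert_self _ _)⟩
    · obtain ⟨h1, h2⟩ := a.toCl.sub_dang.cl u hu j e
      exact ⟨h1, fun z => h2 (mem_sdiff.1 z).1⟩
  have h1 := a.f6_cut.trans hS.cut_le
  have h0 := card_sdiff_add_card_eq_card hE
  have h8 := a.toCl.card_dang
  have h2 := a.light
  rw [Cl0.w2] at h2
  obtain ⟨n1, h3⟩ := a.toCl.even_U1
  obtain ⟨n3, h5⟩ := a.toCl.even_D
  have hsub : ({(v, c), p.t.o (v, c)} : Finset (V × Bool)) ⊆ a.D :=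
    insert_subset k (singleton_subset_iff.2 hD)
  have h9 : #({(v, c), p.t.o (v, c)} : Finset (V × Bool)) = 2 := card_pair (p.t.o_ne _).symm
  have h10 := card_le_card hsub
  have hDe : ({(v, c), p.t.o (v, c)} : Finset (V × Bool)) = a.D :=
    eq_of_subset_of_card_le hsub (by omega)
  have hmem : ∀ d ∈ a.D, d = (v, c) ∨ d = p.t.o (v, c) := fun d hd => by
    rw [← hDe] at hd
    simpa using hd
  have h6 := a.toCl.par (!c)
  have h7 : ({h ∈ a.D | h.2 = !c} : Finset (V × Bool)) = ∅ :=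
    filter_eq_empty_iff.2 fun d hd => by
      rcases hmem d hd with rfl | rfl <;> cases c <;> simp [Tri.o]
  rw [h7, card_empty] at h6
  rw [hDe] at h9
  have hU : a.toCl.U0 = ∅ := card_eq_zero.1 (by omega)
  refine a.no6 (fun d hd => ?_) (by simp [hU]) ?_
  · rcases hmem d hd with rfl | rfl
    · exact hP
    · rw [p.t.o_o]
      exact a.dP k
  · rw [hU, card_empty] at h8 h2
    omega

lemma in_face {φ : Φ} (h : p.cor φ ⊆ a.toCl.X) : 6 ≤ #(p.cor φ) := by
  refine a.even_face (eq_empty_of_forall_notMem fun ⟨v, k⟩ hd => ?_) (h.trans a.f6_X_Sp)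
    (a.T1 ▸ disjoint_empty_right _)
  obtain ⟨h1, h2⟩ := p.mem_cr.1 hd
  obtain ⟨hv, hw⟩ := h2.mem
  rcases k with _ | c
  · exact (a.toCl.mem_X.1 (h hv)).1 (a.toCl.mem_U0.1 (a.toCl.dang_none.1 h1)).1
  · rcases a.toCl.dang_some.1 h1 with e | e
    · exact a.T2 e (h hw)
    · exact e.1 (a.toCl.P_of_X (h hv) c)

lemma five_X : 7 ≤ #a.toCl.Xᶜ := a.T0.trans (card_le_card (compl_subset_compl.2 a.f6_X_Sp))

end Fl
end PR
end Pool.Agent.MP_8c1b0d_co.RR

set_option autoImplicit false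
set_option linter.unusedSectionVars false
open Finset

namespace Pool.Agent.MP_8c1b0d_co.RR
namespace PR
open PL
namespace Fl
variable {V Φ : Type} [Fintype V] [DecidableEq V] [Fintype Φ] [DecidableEq Φ] {p : PR V Φ}
  (a : p.Fl)

/-- strand half-edges whose other half lies at an unsplit vertex -/
def f6b_PX : Finset (V × Bool) := {h ∈ a.toCl.PH | (p.t.o h).1 ∈ a.toCl.X}

lemma f6b_key : p.t.cut a.toCl.X ≤ #a.D + #a.f6b_PX := by
  rw [p.t.cut_eq_of_m fun v hv => a.toCl.m_X hv]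
  refine le_trans (card_le_card (t := a.D ∪ a.f6b_PX.image p.t.o) fun d hd => ?_)
    ((card_union_le _ _).trans (Nat.add_le_add_left card_image_le _))
  simp only [mem_filter, mem_univ, true_and] at hd
  by_cases k : d ∈ a.D
  · exact mem_union_left _ k
  · refine mem_union_right _ (mem_image.2 ⟨p.t.o d, mem_filter.2 ⟨a.toCl.mem_PH.2
      ⟨(a.cl d (a.toCl.P_of_X hd.1 d.2) k).1, hd.2⟩, ?_⟩, p.t.o_o d⟩)
    rw [p.t.o_o]
    exact hd.1

lemma f6b_le : #a.f6b_PX ≤ #a.toCl.PH := card_le_card (filter_subset _ _)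

lemma f6b_w : 2 * #a.D + #a.toCl.PH ≤ 10 := by
  have h1 := a.light
  have h2 := a.toCl.card_PH
  obtain ⟨k, hk⟩ := a.toCl.even_U1
  unfold Cl0.w2 at h1
  omega

lemma f6b_inter : #(a.f6b_PX ∩ a.f6b_PX.image a.toCl.ρ) ≤
    2 * #(a.toCl.M0 a.toCl.X) + #(a.toCl.M1 a.toCl.X) := by
  have h1 : #((a.toCl.M0 a.toCl.X) ×ˢ (univ : Finset Bool)) = 2 * #(a.toCl.M0 a.toCl.X) := by
    rw [card_product, card_univ, Fintype.card_bool, mul_comm]
  have h2 : #{h ∈ a.P | h.1 ∈ a.toCl.M1 a.toCl.X} ≤ #(a.toCl.M1 a.toCl.X) := by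
    refine card_le_card_of_injOn Prod.fst (fun h hh => (mem_filter.1 hh).2) ?_
    rintro ⟨u, c⟩ hh ⟨u', c'⟩ hh' e
    simp only [coe_filter, Set.mem_ofPred_eq] at hh hh' e
    subst e
    have := a.toCl.mem_U1.1 (a.toCl.mem_M1.1 hh.2).1
    have k1 := hh.1
    have k2 := hh'.1
    cases c <;> cases c' <;> first | rfl | exact absurd (iff_of_true ‹_› ‹_›) this
  rw [← h1]
  refine le_trans (card_le_card ?_) ((card_union_le _ _).trans (Nat.add_le_add_left h2 _))
  rintro ⟨u, c⟩ hh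
  obtain ⟨k1, k2⟩ := mem_inter.1 hh
  obtain ⟨h', k3, e⟩ := mem_image.1 k2
  have e' : h' = a.toCl.ρ (u, c) := by rw [← e, a.toCl.ρ_ρ]
  subst e'
  obtain ⟨k4, k5⟩ := mem_filter.1 k1
  have k6 := (mem_filter.1 k3).2
  obtain ⟨k7, k8⟩ := a.toCl.mem_PH.1 k4
  by_cases h0 : u ∈ a.A0
  · have n1 : u ∉ a.A1 := disjoint_left.1 a.disj h0
    have r : a.toCl.ρ (u, c) = (u, !c) := if_pos h0
    rw [r] at k6
    refine mem_union_left _ (mem_product.2 ⟨a.toCl.mem_M0.2 ⟨a.toCl.mem_U0.2 ⟨h0, ?_⟩,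
      fun c' => ?_⟩, mem_univ _⟩)
    · cases c
      exacts [k7, (a.l0 u n1).1 k7]
    · cases c <;> cases c'
      exacts [k5, k6, k6, k5]
  · have r : a.toCl.ρ (u, c) = (p.t.m u, c) := if_neg h0
    rw [r] at k6
    have n1 : u ∈ a.A1 := by_contra fun n => k8 (a.toCl.X_of_P k7 h0 n)
    have n2 : ¬ ((u, false) ∈ a.P ∧ (u, true) ∈ a.P) := fun n =>
      notMem_empty u (a.T1 ▸ a.toCl.mem_U2.2 ⟨n1, n⟩)
    refine mem_union_right _ (mem_filter.2 ⟨k7, a.toCl.mem_M1.2 ⟨a.toCl.mem_U1.2 fun n => n2 ?_,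
      fun c' k => ?_⟩⟩)
    · cases c
      exacts [⟨k7, n.1 k7⟩, ⟨n.2 k7, k7⟩]
    · cases c <;> cases c'
      exacts [⟨k5, k6⟩, absurd ⟨k7, k⟩ n2, absurd ⟨k, k7⟩ n2, ⟨k5, k6⟩]

/-- `cut X ≤ #D + #PX` with `PX = {h ∈ PH | (o h).1 ∈ X}` (`cut_eq_of_m`, the map `o`) -/
lemma cut_le : p.t.cut a.toCl.X ≤ 10 := by
  have h1 := a.f6b_key
  have h2 := a.f6b_le
  have h3 := a.f6b_w
  omega

/-- `2 #PX = #(PX ∪ ρ PX) + #(PX ∩ ρ PX) ≤ #PH + 2 #M0 + #M1` -/
lemma many : 2 * p.t.cut a.toCl.X ≤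
    10 + 2 * #(a.toCl.M0 a.toCl.X) + #(a.toCl.M1 a.toCl.X) := by
  have h1 := a.f6b_key
  have h2 := a.f6b_inter
  have h3 := a.f6b_w
  have h4 := card_union_add_card_inter a.f6b_PX (a.f6b_PX.image a.toCl.ρ)
  rw [card_image_of_injective _ (Function.LeftInverse.injective a.toCl.ρ_ρ)] at h4
  have h5 : #(a.f6b_PX ∪ a.f6b_PX.image a.toCl.ρ) ≤ #a.toCl.PH := by
    refine card_le_card (union_subset (filter_subset _ _) fun h hh => ?_)
    obtain ⟨h', k, rfl⟩ := mem_image.1 hh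
    exact a.toCl.ρ_PH (mem_filter.1 k).1
  omega

lemma ten (h : p.t.cut a.toCl.X = 10) : a.D = ∅ ∧ #a.toCl.PH = 10 ∧
    ∀ d ∈ a.toCl.PH, (p.t.o d).1 ∈ a.toCl.X := by
  have h1 := a.f6b_key
  have h2 := a.f6b_le
  have h3 := a.f6b_w
  refine ⟨card_eq_zero.1 (by omega), by omega, fun d hd => ?_⟩
  have : a.f6b_PX = a.toCl.PH := eq_of_subset_of_card_le (filter_subset _ _) (by omega)
  rw [← this] at hd
  exact (mem_filter.1 hd).2

lemma f6b_m {v : V} (h : v ∈ a.toCl.Xᶜ) : p.t.m v ∈ a.toCl.Xᶜ :=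
  mem_compl.2 fun k => mem_compl.1 h (p.t.mm v ▸ a.toCl.m_X k)

/-- If `R` is closed under `m` and at least three legs end in `X`, they are in `D`. Plan: an
element `(v, k)` of the filter has `k = some c` (`m_X`, `X_free`), `(col c v, c) ∈ P` (`P_of_X`) and
its other half is not in `P` (`free`), so it is in `D` (`cl`); injective. With `f6b_key`, `f6b_le`,
`f6b_w`: `cut X + #D ≤ 10`. -/
lemma legs3 (h : 3 ≤ #{d ∈ p.t.bd a.toCl.Xᶜ | d.1 ∈ p.R}) : p.t.cut a.toCl.X ≤ 7 := by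
  have h0 : #{d ∈ p.t.bd a.toCl.Xᶜ | d.1 ∈ p.R} ≤ #a.D := by
    refine le_trans (card_le_card (t := a.D.image fun d => ((p.t.o d).1, some d.2)) ?_)
      card_image_le
    rintro ⟨v, k⟩ hd
    obtain ⟨d1, d2⟩ := mem_filter.1 hd
    obtain ⟨d3, d4⟩ := p.t.mem_bd.1 d1
    have d5 : p.t.nb k v ∈ a.toCl.X := by_contra fun n => d4 (mem_compl.2 n)
    cases k with
    | none => exact absurd (a.f6b_m d3) d4
    | some c =>
      have e : p.t.o (p.t.col c v, c) = (v, c) := p.t.o_o (v, c)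
      refine mem_image.2 ⟨(p.t.col c v, c), by_contra fun n => ?_, by rw [e]⟩
      have k1 := (a.cl _ (a.toCl.P_of_X d5 c) n).1
      exact a.free (v, c) (e ▸ k1) d2
  have h1 := a.f6b_key
  have h2 := a.f6b_le
  have h3 := a.f6b_w
  omega

lemma f6b_small {W : Finset V} (hW : W ⊆ a.toCl.Xᶜ) (h4 : p.t.cut W ≤ 4) : #W ≤ 2 ∨ W = p.R := by
  have h1 : a.toCl.X ⊆ Wᶜ := fun v hv => mem_compl.2 fun k => mem_compl.1 (hW k) hv
  have h2 := card_le_card h1
  have h3 := a.big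
  obtain ⟨x, hx⟩ : a.toCl.X.Nonempty := card_pos.1 (by omega)
  rcases p.ok.small h4 with k | k | k | k
  · exact Or.inl k
  · omega
  · exact Or.inr k
  · exact (a.X_free x hx (k ▸ h1 hx)).elim

/-- a closed part of `Xᶜ` is not the root when the cut of `X` is at least 8 (`legs3`: the filter
contains `bd R`) -/
lemma f6b_small' {W : Finset V} (hW : W ⊆ a.toCl.Xᶜ)
    (hc : ∀ v ∈ W, ∀ k, p.t.nb k v ∈ a.toCl.Xᶜ → p.t.nb k v ∈ W) (h8 : 8 ≤ p.t.cut a.toCl.X)
    (h4 : p.t.cut W ≤ 4) : #W ≤ 2 := by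
  refine (a.f6b_small hW h4).resolve_right fun e => ?_
  subst e
  have h1 : p.t.bd p.R ⊆ {d ∈ p.t.bd a.toCl.Xᶜ | d.1 ∈ p.R} := by
    rintro ⟨v, k⟩ hd
    obtain ⟨d1, d2⟩ := p.t.mem_bd.1 hd
    exact mem_filter.2 ⟨p.t.mem_bd.2 ⟨hW d1, fun e => d2 (hc v d1 k e)⟩, d1⟩
  have h2 := card_le_card h1
  rw [← p.t.cut_eq, p.ok.cut4] at h2
  have := a.legs3 (by omega)
  omega

lemma f6b_core {W : Finset V} (hW : W ⊆ a.toCl.Xᶜ)
    (hc : ∀ v ∈ W, ∀ k, p.t.nb k v ∈ a.toCl.Xᶜ → p.t.nb k v ∈ W) (hn : W.Nonempty)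
    (h2 : #W ≤ 2) (h10 : p.t.cut a.toCl.X = 10) : False := by
  obtain ⟨u, hu⟩ := hn
  obtain ⟨hD, hP, -⟩ := a.ten h10
  have hmu : p.t.m u ∈ W := hc u hu none (a.f6b_m (hW hu))
  have hne : u ≠ p.t.m u := (p.t.m_ne u).symm
  have eW : {u, p.t.m u} = W := eq_of_subset_of_card_le
    (insert_subset hu (singleton_subset_iff.2 hmu)) (by rw [card_pair hne]; exact h2)
  have eW' : ∀ w ∈ W, ∀ z ∈ W, z = w ∨ z = p.t.m w := fun w hw z hz => by
    rw [← eW, mem_insert, mem_singleton] at hw hz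
    rcases hw with rfl | rfl <;> rcases hz with rfl | rfl <;> simp [p.t.mm]
  have hU : ∀ w ∈ W, w ∈ a.toCl.U0 := fun w hw => by
    have k1 : ∀ c, (w, c) ∈ a.P := fun c => by
      have k2 : p.t.col c w ∈ a.toCl.X := by
        by_contra n
        rcases eW' w hw _ (hc w hw (some c) (mem_compl.2 n)) with e | e
        · exact p.t.nb_ne (some c) w e
        · exact absurd (p.t.nb_inj (k := some c) (k' := none) e) (by simp)
      have := (a.cl _ (a.toCl.P_of_X k2 c) (by rw [hD]; exact notMem_empty _)).1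
      simpa [Tri.o] using this
    rcases a.toCl.Sp_cases.1 (a.toCl.mem_Sp.2 ⟨false, k1 false⟩) with k | k | k | k
    · exact absurd k (mem_compl.1 (hW hw))
    · exact k
    · exact absurd (iff_of_true (k1 false) (k1 true)) (a.toCl.mem_U1.1 k)
    · exact absurd (a.T1 ▸ k) (notMem_empty w)
  have hS : p.t.Sub a.toCl.Sp (a.toCl.dang \ {(u, none), (p.t.m u, none)}) := by
    refine ⟨fun h hh => a.toCl.sub_dang.mem h (mem_sdiff.1 hh).1, fun v hv k hk => ?_⟩
    by_cases n : (v, k) ∈ a.toCl.dang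
    · have : (v, k) ∈ ({(u, none), (p.t.m u, none)} : Finset (V × Option Bool)) :=
        by_contra fun n' => hk (mem_sdiff.2 ⟨n, n'⟩)
      simp only [mem_insert, mem_singleton, Prod.mk.injEq] at this
      rcases this with ⟨rfl, rfl⟩ | ⟨rfl, rfl⟩
      · exact ⟨a.toCl.Sp_cases.2 (Or.inr (Or.inl (hU _ hmu))), fun k => (mem_sdiff.1 k).2 (by simp)⟩
      · rw [Tri.nb_none, p.t.mm]
        exact ⟨a.toCl.Sp_cases.2 (Or.inr (Or.inl (hU _ hu))), fun k => (mem_sdiff.1 k).2 (by simp)⟩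
    · obtain ⟨k1, k2⟩ := a.toCl.sub_dang.cl v hv k n
      exact ⟨k1, fun k => k2 (mem_sdiff.1 k).1⟩
  have c1 := hS.cut_le
  rw [card_sdiff_of_subset (insert_subset (a.toCl.dang_none.2 (hU _ hu))
    (singleton_subset_iff.2 (a.toCl.dang_none.2 (hU _ hmu)))),
    card_pair (fun e => hne (congrArg Prod.fst e)), a.toCl.card_dang] at c1
  have c2 : 5 ≤ p.t.cut a.toCl.Sp := a.f6_cut
  have c3 := a.toCl.card_PH
  have c4 := a.toCl.par false
  rw [a.T1, hP, card_empty] at c3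
  rw [hD, filter_empty, card_empty] at c4
  rw [hD, card_empty] at c1
  have c5 : W = a.toCl.U0 := eq_of_subset_of_card_le hU (by
    rw [← eW, card_pair hne]; omega)
  have c6 : #a.toCl.U0 = 2 := by rw [← c5, ← eW, card_pair hne]
  refine a.no6 (by rw [hD]; exact fun h hh => absurd hh (notMem_empty h)) (fun v hv => ?_)
    (by omega)
  rw [← c5] at hv ⊢
  exact hc v hv none (a.f6b_m (hW hv))

/-- T4. Two `m`-closed parts `W, W'` of `Xᶜ` with even cuts at least 4 and sum at most 10. One has cut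
4, so it is `{u, m u}`; the other has cut 6 (`five_X`), so `ten` applies. All four other edges at
`u, m u` go to `X` and are in `P`, so `u, m u ∈ U0` (`T1`). `dang` without `(u,none)`, `(m u,none)` is
a `Sub`: `7 ≤ #U0 + #U1`, `2 #U0 + #U1 = 10`, `#U0` is even (`par`): `U0 = {u, m u}`, `no6`. -/
lemma T4 : p.t.Con a.toCl.Xᶜ (p.t.bd a.toCl.Xᶜ) := by
  intro W hW hc
  by_contra n
  rw [not_or] at n
  have hc1 : ∀ v ∈ W, ∀ k, p.t.nb k v ∈ a.toCl.Xᶜ → p.t.nb k v ∈ W := fun v hv k h =>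
    hc v hv k fun e => (p.t.mem_bd.1 e).2 h
  have hc2 : ∀ v ∈ a.toCl.Xᶜ \ W, ∀ k, p.t.nb k v ∈ a.toCl.Xᶜ → p.t.nb k v ∈ a.toCl.Xᶜ \ W :=
    fun v hv k h => mem_sdiff.2 ⟨h, fun e => (mem_sdiff.1 hv).2 (by
      have := hc1 _ e k (by rw [p.t.nb_nb]; exact (mem_sdiff.1 hv).1)
      rwa [p.t.nb_nb] at this)⟩
  have n1 : W.Nonempty := nonempty_iff_ne_empty.2 n.1
  have n2 : (a.toCl.Xᶜ \ W).Nonempty := nonempty_iff_ne_empty.2 fun e =>
    n.2 (hW.antisymm (sdiff_eq_empty_iff_subset.1 e))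
  obtain ⟨x, hx⟩ : a.toCl.X.Nonempty := card_pos.1 (by have := a.big; omega)
  have m1 : ∀ v ∈ W, p.t.m v ∈ W := fun v hv => hc1 v hv none (a.f6b_m (hW hv))
  have m2 : ∀ v ∈ a.toCl.Xᶜ \ W, p.t.m v ∈ a.toCl.Xᶜ \ W := fun v hv =>
    hc2 v hv none (a.f6b_m (mem_sdiff.1 hv).1)
  have f1 := p.ok.four m1 n1 ⟨x, mem_compl.2 fun k => mem_compl.1 (hW k) hx⟩
  have f2 := p.ok.four m2 n2 ⟨x, mem_compl.2 fun k => mem_compl.1 (mem_sdiff.1 k).1 hx⟩
  obtain ⟨e1, e1'⟩ := p.t.even_cut m1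
  obtain ⟨e2, e2'⟩ := p.t.even_cut m2
  have s := p.t.cut_split hW hc1
  rw [p.t.cut_compl] at s
  have l := a.cut_le
  have g := a.five_X
  have g' := card_sdiff_add_card_eq_card hW
  have s1 := a.f6b_small' hW hc1 (by omega)
  have s2 := a.f6b_small' (W := a.toCl.Xᶜ \ W) sdiff_subset hc2 (by omega)
  by_cases k : p.t.cut W ≤ 4
  · exact a.f6b_core hW hc1 n1 (s1 k) (by
      by_contra q
      have := s1 k
      have := s2 (by omega)
      omega)
  · exact a.f6b_core sdiff_subset hc2 n2 (s2 (by omega)) (by omega)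

end Fl
end PR
end Pool.Agent.MP_8c1b0d_co.RR

set_option autoImplicit false
set_option linter.unusedSectionVars false
open Finset

namespace Pool.Agent.MP_8c1b0d_co.RR
namespace PR
open PL
namespace Fl
variable {V Φ : Type} [Fintype V] [DecidableEq V] [Fintype Φ] [DecidableEq Φ] {p : PR V Φ}
  (a : p.Fl)

lemma f7_card {C S R : Finset V} (h : C ⊆ S ∪ R) : #C ≤ #(C ∩ S) + #R := by
  refine le_trans (card_le_card ?_) (card_union_le (C ∩ S) R)
  intro v hv
  rcases mem_union.1 (h hv) with k | k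
  · exact mem_union_left _ (mem_inter.2 ⟨hv, k⟩)
  · exact mem_union_right _ k

lemma f7_out {t : Tri V} {S : Finset V} (hm : ∀ v ∈ S, t.m v ∈ S) {v : V} (hv : v ∉ S) :
    t.m v ∉ S := fun k => hv (by simpa [t.mm] using hm _ k)

/-- one side of a bridge -/
lemma f7_side {t : Tri V} {S W : Finset V} (hm : ∀ v ∈ S, t.m v ∈ S) (hW : W ⊆ Sᶜ) {u : V}
    {c : Bool} (hu : u ∈ W) (hu' : t.m u ∉ W)
    (hcl : ∀ v ∈ W, ∀ k', t.nb k' v ∉ S → (v, k') ≠ (u, none) → t.nb k' v ∈ W)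
    (h0 : t.col c u ∈ S) (h1 : t.col (!c) u ∉ S) :
    (∀ v ∈ W.erase u, t.m v ∈ W.erase u) ∧ (W.erase u).Nonempty ∧
      t.cut (W.erase u) = #{h ∈ t.bd Sᶜ | h.1 ∈ W.erase u} + 1 := by
  have hWS : ∀ v ∈ W, v ∉ S := fun v hv => mem_compl.1 (hW hv)
  have hmc : ∀ v ∈ W.erase u, t.m v ∈ W.erase u := by
    intro v hv
    obtain ⟨hvu, hv⟩ := mem_erase.1 hv
    refine mem_erase.2 ⟨fun k => hu' ?_, ?_⟩
    · rw [← k, t.mm]; exact hv
    · exact hcl v hv none (f7_out hm (hWS v hv)) (by simpa using hvu)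
  have hq : t.col (!c) u ∈ W.erase u :=
    mem_erase.2 ⟨t.nb_ne (some !c) u, hcl u hu (some !c) h1 (by simp)⟩
  refine ⟨hmc, ⟨_, hq⟩, ?_⟩
  rw [t.cut_eq, ← card_insert_of_notMem (a := (t.col (!c) u, some !c))]
  · congr 1
    ext ⟨v, k⟩
    rw [t.mem_bd, mem_insert, mem_filter, t.mem_bd, mem_compl, mem_compl, not_not]
    constructor
    · rintro ⟨hv, hk⟩
      obtain ⟨hvu, hvW⟩ := mem_erase.1 hv
      by_cases hS : t.nb k v ∈ S
      · exact Or.inr ⟨⟨hWS v hvW, hS⟩, hv⟩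
      · left
        have h2 : t.nb k v ∈ W := hcl v hvW k hS (by simp [hvu])
        have h3 : t.nb k v = u := by
          by_contra h3
          exact hk (mem_erase.2 ⟨h3, h2⟩)
        have h4 : v = t.nb k u := by rw [← h3, t.nb_nb]
        rcases k with _ | d
        · exact absurd (by rw [h4] at hvW; exact hvW) hu'
        · by_cases hd : d = c
          · subst hd
            exact absurd (h4 ▸ h0) (hWS v hvW)
          · have : d = !c := by cases d <;> cases c <;> simp_all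
            subst this
            rw [h4]; rfl
    · rintro (k1 | ⟨⟨_, k2⟩, k3⟩)
      · obtain ⟨rfl, rfl⟩ := Prod.mk.inj k1
        exact ⟨hq, by simp⟩
      · exact ⟨k3, fun k4 => hWS _ (mem_of_mem_erase k4) k2⟩
  · rw [mem_filter, t.mem_bd]
    rintro ⟨⟨_, k⟩, _⟩
    exact k (by simpa using hWS u hu)

lemma f7_U1 {S : Finset V} (hS : S ⊆ a.toCl.X) {u : V} (hu : u ∈ a.toCl.U1) : u ∉ S := fun k =>
  (a.toCl.mem_X.1 (hS k)).2.1 (a.toCl.A1_of_U1 hu)

lemma f7_A0 {u : V} (hu : u ∈ a.toCl.U1) : u ∉ a.A0 := fun k =>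
  disjoint_left.1 a.disj k (a.toCl.A1_of_U1 hu)

/-- if the cut of `X` is 10 the half-edges from an `m`-closed set to `X` are paired -/
lemma f7_even (h : p.t.cut a.toCl.X = 10) {W : Finset V} (hW : ∀ v ∈ W, p.t.m v ∈ W) :
    Even #{h ∈ p.t.bd a.toCl.Xᶜ | h.1 ∈ W} := by
  obtain ⟨hD, -, hX⟩ := a.ten h
  have e : ({h ∈ p.t.bd a.toCl.Xᶜ | h.1 ∈ W} : Finset (V × Option Bool)) =
      ({d ∈ a.toCl.PH | d.1 ∈ W} : Finset (V × Bool)).image fun d => (d.1, some d.2) := by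
    ext ⟨v, k⟩
    rw [mem_filter, p.t.mem_bd, mem_compl, mem_compl, not_not, mem_image]
    constructor
    · rintro ⟨⟨h1, h2⟩, h3⟩
      rcases k with _ | c
      · exact absurd h2 (f7_out (fun v hv => a.toCl.m_X hv) h1)
      · refine ⟨(v, c), mem_filter.2 ⟨a.toCl.mem_PH.2 ⟨?_, h1⟩, h3⟩, rfl⟩
        have := (a.cl _ (a.toCl.P_of_X h2 c) (by rw [hD]; exact notMem_empty _)).1
        simpa [Tri.o] using this
    · rintro ⟨⟨w, c⟩, hd, k1⟩
      obtain ⟨rfl, rfl⟩ := Prod.mk.inj k1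
      obtain ⟨h1, h2⟩ := mem_filter.1 hd
      exact ⟨⟨(a.toCl.mem_PH.1 h1).2, hX _ h1⟩, h2⟩
  rw [e, card_image_of_injective _ (by
    rintro ⟨v, c⟩ ⟨w, d⟩ k
    simpa using k)]
  refine even_card_inv a.toCl.ρ _ ?_ (fun d _ => a.toCl.ρ_ρ d) fun d _ => a.toCl.ρ_ne d
  intro d hd
  obtain ⟨h1, h2⟩ := mem_filter.1 hd
  refine mem_filter.2 ⟨a.toCl.ρ_PH h1, ?_⟩
  unfold Cl0.ρ
  split_ifs
  · exact h2
  · exact hW _ h2

/-- `φ = op none u`; `Bond.path` with `R = {u}`, crossing half-edges `(col c u, some c)` -/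
lemma face0 {S : Finset V} (hb : p.Bond S) {u : V} (hu : u ∉ S) (h : ∀ c, p.t.col c u ∈ S) :
    ∃ φ, u ∈ p.cor φ ∧ p.cor φ ⊆ S ∪ {u} ∧ 4 ≤ #(p.cor φ ∩ S) := by
  have hcr : ∀ c, (p.t.col c u, some c) ∈ p.cr (p.t.bd S) (p.op none u) := fun c => by
    rw [p.mem_cr, p.t.mem_bd]
    refine ⟨⟨h c, by simpa using hu⟩, ?_⟩
    exact p.al_nb (k := some c) (p.al_op (by simp) u)
  have hsub : p.cor (p.op none u) ⊆ S ∪ {u} := by
    refine (hb.path (R := {u}) (by simp) (hcr false) (hcr true) (by simp) (by simp) ?_).1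
    intro v hv k hk
    rw [mem_singleton] at hv
    subst hv
    rw [p.al_op_iff] at hk
    rcases k with _ | c
    · exact absurd rfl hk
    · exact mem_union_left _ (h c)
  refine ⟨p.op none u, p.mem_cor.2 ⟨none, rfl⟩, hsub, ?_⟩
  have h5 := p.five_le (p.op none u)
  have := f7_card hsub
  rw [card_singleton] at this
  omega

/-- A twisted strand `u, m u` of colour `c` whose other edges avoid `S`. `Bond.bridge` for `(u, none)`
gives `W`; put `W1 = W.erase u`, `W2 = (Sᶜ \ W).erase (m u)`: both are `m`-closed and nonempty and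
`cut W1 + cut W2 ≤ cut S`, so `8 ≤ cut S` (`four`). For `S = X`: `cut X = 8` gives `#W1, #W2 ≤ 2`,
against `T0` (`Spᶜ ⊆ W1 ∪ W2`). `cut X = 10`: by `ten`, `cut W1 = 1 + #{h ∈ P | h.1 ∈ W1}` and this
set is paired by `ρ`, against `even_cut`. -/
lemma bad {S : Finset V} (hb : p.Bond S) (hS : S ⊆ a.toCl.X) (hm : ∀ v ∈ S, p.t.m v ∈ S)
    (hc : p.t.cut S ≤ 7 ∨ S = a.toCl.X) {u : V} {c : Bool} (hu : u ∈ a.toCl.M1 S)
    (hP : (u, c) ∈ a.P) (h1 : p.t.col (!c) u ∉ S) (h2 : p.t.col (!c) (p.t.m u) ∉ S) :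
    p.op (some !c) (p.t.m u) = p.op (some !c) u := by
  by_contra hne
  obtain ⟨hU, hM⟩ := a.toCl.mem_M1.1 hu
  obtain ⟨g1, g2⟩ := hM c hP
  have huS : u ∉ S := a.f7_U1 hS hU
  have hmS : p.t.m u ∉ S := f7_out hm huS
  have hcc : (some (!c) : Option Bool) ≠ some c := by cases c <;> simp
  have hf : ∀ φ, p.Al φ (u, none) → ¬ p.cor φ ⊆ Sᶜ := by
    intro φ hφ hsub
    have two : ∀ {ψ : Φ} {v : V}, p.Al ψ (v, none) →
        p.op (some c) v = ψ ∨ p.op (some !c) v = ψ := by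
      rintro ψ v ⟨k, hk, e⟩
      rcases k with _ | d
      · exact absurd rfl hk
      · by_cases hd : d = c
        · subst hd; exact Or.inl e
        · have : d = !c := by cases d <;> cases c <;> simp_all
          subst this; exact Or.inr e
    have hit : ∀ v, p.t.col c v ∈ S → p.op (some !c) v ≠ φ := by
      intro v hv e
      have := (LB.Al.mem _ (p.al_op hcc v)).2
      rw [e] at this
      exact mem_compl.1 (hsub this) hv
    have e1 := (two hφ).resolve_right (hit u g1)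
    have e2 := (two (p.al_nb hφ)).resolve_right (hit _ g2)
    have e3 := two (p.al_nb (p.al_op (k := some !c) (k' := none) (by simp) u))
    rcases e3 with e3 | e3
    · exact hcc (p.op_inj (e3.symm.trans (e2.trans e1.symm)))
    · exact hne e3
  obtain ⟨W, hW, huW, hmW, hcl⟩ := hb.bridge (k := none) huS hmS hf
  rw [Tri.nb_none] at hmW
  obtain ⟨c1, n1, e1⟩ := f7_side hm hW huW hmW hcl g1 h1
  have hW' : Sᶜ \ W ⊆ Sᶜ := sdiff_subset
  have hmW' : p.t.m u ∈ Sᶜ \ W := mem_sdiff.2 ⟨mem_compl.2 hmS, hmW⟩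
  obtain ⟨c2, n2, e2⟩ := f7_side (W := Sᶜ \ W) (u := p.t.m u) (c := c) hm hW' hmW'
    (by rw [p.t.mm]; exact fun k => (mem_sdiff.1 k).2 huW)
    (by
      intro v hv k hk hne'
      obtain ⟨v1, v2⟩ := mem_sdiff.1 hv
      refine mem_sdiff.2 ⟨mem_compl.2 hk, fun k1 => v2 ?_⟩
      have := hcl _ k1 k (by rw [p.t.nb_nb]; exact mem_compl.1 v1) (by
        intro k2
        obtain ⟨k3, rfl⟩ := Prod.mk.inj k2
        apply hne'
        rw [← k3]
        simp [p.t.mm])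
      rwa [p.t.nb_nb] at this) g2 h2
  set W1 := W.erase u with hW1
  set W2 := (Sᶜ \ W).erase (p.t.m u) with hW2
  have f1 : 4 ≤ p.t.cut W1 := p.ok.four c1 n1 ⟨u, by simp [hW1]⟩
  have f2 : 4 ≤ p.t.cut W2 := p.ok.four c2 n2 ⟨p.t.m u, by simp only [hW2, compl_erase, mem_insert, mem_compl, mem_sdiff, not_and, Decidable.not_not, true_or]⟩
  have hsum : p.t.cut W1 + p.t.cut W2 ≤ p.t.cut S := by
    rw [e1, e2, ← p.t.cut_compl S, p.t.cut_eq Sᶜ]
    have s1 : #{h ∈ p.t.bd Sᶜ | h.1 ∈ W1} + 1 ≤ #{h ∈ p.t.bd Sᶜ | h.1 ∈ W} := by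
      rw [← card_insert_of_notMem (a := (u, some c)) (by simp [hW1])]
      refine card_le_card (insert_subset (mem_filter.2 ⟨p.t.mem_bd.2
        ⟨mem_compl.2 huS, by simpa using g1⟩, huW⟩) fun h hh => ?_)
      exact mem_filter.2 ⟨(mem_filter.1 hh).1, mem_of_mem_erase (mem_filter.1 hh).2⟩
    have s2 : #{h ∈ p.t.bd Sᶜ | h.1 ∈ W2} + 1 ≤ #{h ∈ p.t.bd Sᶜ | ¬ h.1 ∈ W} := by
      rw [← card_insert_of_notMem (a := (p.t.m u, some c)) (by simp [hW2])]
      refine card_le_card (insert_subset (mem_filter.2 ⟨p.t.mem_bd.2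
        ⟨mem_compl.2 hmS, by simpa using g2⟩, hmW⟩) fun h hh => ?_)
      exact mem_filter.2 ⟨(mem_filter.1 hh).1,
        (mem_sdiff.1 (mem_of_mem_erase (mem_filter.1 hh).2)).2⟩
    have s3 := card_filter_add_card_filter_not (s := p.t.bd Sᶜ) (fun h => h.1 ∈ W)
    omega
  have hX : S = a.toCl.X := hc.resolve_left (by omega)
  subst hX
  have l10 := a.cut_le
  have ev := p.t.even_cut hm
  by_cases h10 : p.t.cut a.toCl.X = 10
  · have q1 := a.f7_even h10 c1
    have q2 := p.t.even_cut c1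
    rw [e1, Nat.even_add_one] at q2
    exact q2 q1
  · rw [Nat.even_iff] at ev
    have big := a.big
    have sm : ∀ {Z : Finset V}, Z ⊆ a.toCl.Xᶜ → p.t.cut Z ≤ 4 →
        p.t.cut Z = #{h ∈ p.t.bd a.toCl.Xᶜ | h.1 ∈ Z} + 1 → #Z ≤ 2 := by
      intro Z hZ k k'
      refine (a.f6b_small hZ k).resolve_right fun k1 => ?_
      rw [k1, p.ok.cut4] at k'
      have := a.legs3 (by omega)
      omega
    have m1 := sm (Z := W1) ((erase_subset u W).trans hW) (by omega) e1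
    have m2 := sm (Z := W2) ((erase_subset (p.t.m u) _).trans hW') (by omega) e2
    have t0 := a.T0
    have : a.toCl.Spᶜ ⊆ W1 ∪ W2 := by
      intro v hv
      have hv' := mem_compl.1 hv
      rw [a.toCl.Sp_cases] at hv'
      have v1 : v ≠ u := fun k => hv' (by rw [k]; tauto)
      have v2 : v ≠ p.t.m u := fun k => hv' (by have := a.toCl.m_U1 hU; rw [k]; tauto)
      by_cases k : v ∈ W
      · exact mem_union_left _ (mem_erase.2 ⟨v1, k⟩)
      · exact mem_union_right _ (mem_erase.2 ⟨v2, mem_sdiff.2 ⟨mem_compl.2 (by tauto), k⟩⟩)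
    have := (card_le_card this).trans (card_union_le _ _)
    omega

/-- If `col (!c) u ∈ S` or `col (!c) (m u) ∈ S` use `face0`. Otherwise `bad`: `φ = op (some !c) u`
runs through `col c u, u, m u, col c (m u)`; `Bond.path` with `R = {u, m u}`; it has no dangling
half-edge (`T2`; the crossing ones are the two strand edges), so `even_face` gives 6 corners. -/
lemma face1 {S : Finset V} (hb : p.Bond S) (hS : S ⊆ a.toCl.X) (hm : ∀ v ∈ S, p.t.m v ∈ S)
    (hc : p.t.cut S ≤ 7 ∨ S = a.toCl.X) {u : V} (hu : u ∈ a.toCl.M1 S) :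
    ∃ φ, (u ∈ p.cor φ ∨ p.t.m u ∈ p.cor φ) ∧ p.cor φ ⊆ S ∪ {u, p.t.m u} ∧
      4 ≤ #(p.cor φ ∩ S) := by
  obtain ⟨hU, hM⟩ := a.toCl.mem_M1.1 hu
  have hU' := a.toCl.m_U1 hU
  have huS : u ∉ S := a.f7_U1 hS hU
  have hmS : p.t.m u ∉ S := f7_out hm huS
  obtain ⟨c, hP⟩ : ∃ c, (u, c) ∈ a.P := by
    have := a.toCl.mem_U1.1 hU
    by_cases k : (u, false) ∈ a.P
    · exact ⟨_, k⟩
    · exact ⟨true, by tauto⟩
  have hP' : (p.t.m u, c) ∈ a.P := (a.l1 u (a.f7_A0 hU) c).2 hP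
  obtain ⟨g1, g2⟩ := hM c hP
  have alt : ∀ d, d = c ∨ d = !c := fun d => by cases d <;> cases c <;> simp
  by_cases h1 : p.t.col (!c) u ∈ S
  · obtain ⟨φ, k1, k2, k3⟩ := face0 hb huS fun d => by rcases alt d with rfl | rfl <;> assumption
    exact ⟨φ, Or.inl k1, k2.trans (union_subset_union_right (by simp)), k3⟩
  by_cases h2 : p.t.col (!c) (p.t.m u) ∈ S
  · obtain ⟨φ, k1, k2, k3⟩ := face0 hb hmS fun d => by rcases alt d with rfl | rfl <;> assumption
    exact ⟨φ, Or.inr k1, k2.trans (union_subset_union_right (by simp)), k3⟩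
  have e := a.bad hb hS hm hc hu hP h1 h2
  have hcc : (some (!c) : Option Bool) ≠ some c := by cases c <;> simp
  have hR : ∀ v ∈ ({u, p.t.m u} : Finset V), p.op (some !c) v = p.op (some !c) u ∧
      p.t.col c v ∈ S ∧ p.t.m v ∈ ({u, p.t.m u} : Finset V) ∧ v ∉ S ∧ (v, c) ∈ a.P ∧
      v ∈ a.toCl.U1 := by
    intro v hv
    rcases mem_insert.1 hv with rfl | hv
    · exact ⟨rfl, g1, by simp, huS, hP, hU⟩
    · rw [mem_singleton.1 hv]
      exact ⟨e, g2, by simp [p.t.mm], hmS, hP', hU'⟩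
  have hal : ∀ v ∈ ({u, p.t.m u} : Finset V), ∀ d,
      p.Al (p.op (some !c) u) (v, some d) → d = c := by
    intro v hv d k
    rw [← (hR v hv).1, p.al_op_iff] at k
    exact (alt d).resolve_right fun k1 => k (by rw [k1])
  have hcr : ∀ v ∈ ({u, p.t.m u} : Finset V),
      (p.t.col c v, some c) ∈ p.cr (p.t.bd S) (p.op (some !c) u) := fun v hv => by
    obtain ⟨r1, r2, -, r4, -⟩ := hR v hv
    rw [p.mem_cr, p.t.mem_bd, ← r1]
    exact ⟨⟨r2, by simpa using r4⟩, p.al_nb (k := some c) (p.al_op hcc v)⟩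
  have hsub : p.cor (p.op (some !c) u) ⊆ S ∪ {u, p.t.m u} := by
    refine (hb.path (R := {u, p.t.m u}) ?_ (hcr u (by simp)) (hcr (p.t.m u) (by simp))
      (by simp) (by simp) ?_).1
    · intro k
      have := congrArg (p.t.col c) (Prod.mk.inj k).1
      simp only [Tri.col_col] at this
      exact p.t.m_ne u this.symm
    · intro v hv k hk
      rcases k with _ | d
      · exact mem_union_right _ (hR v hv).2.2.1
      · rw [hal v hv d hk]
        exact mem_union_left _ (hR v hv).2.1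
  refine ⟨p.op (some !c) u, Or.inl (p.mem_cor.2 ⟨_, rfl⟩), hsub, ?_⟩
  have h6 : 6 ≤ #(p.cor (p.op (some !c) u)) := by
    refine a.even_face ?_ ?_ (by rw [a.T1]; exact disjoint_empty_right _)
    · rw [eq_empty_iff_forall_notMem]
      rintro ⟨v, k⟩ hk
      obtain ⟨k1, k2⟩ := p.mem_cr.1 hk
      obtain ⟨k3, k4⟩ := LB.Al.mem _ k2
      rcases k with _ | d
      · have k5 := (a.toCl.mem_U0.1 (a.toCl.dang_none.1 k1)).1
        rcases mem_union.1 (hsub k3) with k6 | k6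
        · exact (a.toCl.mem_X.1 (hS k6)).1 k5
        · exact a.f7_A0 (hR v k6).2.2.2.2.2 k5
      · rcases a.toCl.dang_some.1 k1 with k5 | ⟨k5, -⟩
        · have k6 := (mem_union.1 (hsub k4)).resolve_left fun k6 => a.T2 k5 (hS k6)
          have k7 := hal _ k6 d (p.al_nb k2)
          subst k7
          obtain ⟨-, -, -, -, r5, r6⟩ := hR _ k6
          have := (a.toCl.o_PH (a.toCl.mem_PH.2 ⟨r5, a.f7_U1 subset_rfl r6⟩)).2
          exact this (by simpa [Tri.o] using k5)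
        · have k6 := (mem_union.1 (hsub k3)).resolve_left fun k6 =>
            k5 (a.toCl.P_of_X (hS k6) d)
          have k7 := hal _ k6 d k2
          subst k7
          exact k5 (hR _ k6).2.2.2.2.1
    · intro v hv
      rw [a.toCl.Sp_cases]
      rcases mem_union.1 (hsub hv) with k | k
      · exact Or.inl (hS k)
      · exact Or.inr (Or.inr (Or.inl (hR v k).2.2.2.2.2))
  have := f7_card hsub
  have : #({u, p.t.m u} : Finset V) ≤ 2 := card_le_two
  omega

/-- Choose the faces; the choice is injective on `M0`, at most two to one on `M1`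
(`Finset.card_le_mul_card_image`), the images are disjoint; `Bond.t5` with `in_face`. -/
theorem Tf {S : Finset V} (hb : p.Bond S) (hS : S ⊆ a.toCl.X) (hm : ∀ v ∈ S, p.t.m v ∈ S)
    (h6 : 6 ≤ #S) (hc : p.t.cut S ≤ 7 ∨ S = a.toCl.X) :
    2 * #(a.toCl.M0 S) + #(a.toCl.M1 S) + 11 ≤ 2 * p.t.cut S := by
  have z0 : ∀ u ∈ a.toCl.M0 S, u ∈ a.A0 ∧ u ∉ S := fun u hu => by
    have := (a.toCl.mem_U0.1 (a.toCl.mem_M0.1 hu).1).1
    exact ⟨this, fun k => (a.toCl.mem_X.1 (hS k)).1 this⟩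
  have z1 : ∀ u ∈ a.toCl.M1 S, u ∉ a.A0 ∧ u ∉ S := fun u hu =>
    ⟨a.f7_A0 (a.toCl.mem_M1.1 hu).1, a.f7_U1 hS (a.toCl.mem_M1.1 hu).1⟩
  have H0 : ∀ u, ∃ φ, u ∈ a.toCl.M0 S →
      u ∈ p.cor φ ∧ p.cor φ ⊆ S ∪ {u} ∧ 4 ≤ #(p.cor φ ∩ S) := fun u => by
    by_cases hu : u ∈ a.toCl.M0 S
    · obtain ⟨φ, h⟩ := face0 hb (z0 u hu).2 (a.toCl.mem_M0.1 hu).2
      exact ⟨φ, fun _ => h⟩
    · exact ⟨p.op none u, fun k => absurd k hu⟩
  have H1 : ∀ u, ∃ φ, u ∈ a.toCl.M1 S → (u ∈ p.cor φ ∨ p.t.m u ∈ p.cor φ) ∧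
      p.cor φ ⊆ S ∪ {u, p.t.m u} ∧ 4 ≤ #(p.cor φ ∩ S) := fun u => by
    by_cases hu : u ∈ a.toCl.M1 S
    · obtain ⟨φ, h⟩ := a.face1 hb hS hm hc hu
      exact ⟨φ, fun _ => h⟩
    · exact ⟨p.op none u, fun k => absurd k hu⟩
  choose f0 hf0 using H0
  choose f1 hf1 using H1
  have i0 : #((a.toCl.M0 S).image f0) = #(a.toCl.M0 S) := by
    refine card_image_of_injOn fun u hu v hv e => ?_
    have k := (hf0 u hu).1
    rw [e] at k
    exact mem_singleton.1 ((mem_union.1 ((hf0 v hv).2.1 k)).resolve_left (z0 u hu).2)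
  have i1 : #(a.toCl.M1 S) ≤ 2 * #((a.toCl.M1 S).image f1) := by
    refine card_le_mul_card_image _ 2 fun φ hφ => ?_
    obtain ⟨v, hv, rfl⟩ := mem_image.1 hφ
    refine le_trans (card_le_card (t := {v, p.t.m v}) fun u hu => ?_) card_le_two
    obtain ⟨hu, e⟩ := mem_filter.1 hu
    have k := (hf1 u hu).1
    rw [e] at k
    rcases k with k | k
    · exact (mem_union.1 ((hf1 v hv).2.1 k)).resolve_left (z1 u hu).2
    · have k1 := (mem_union.1 ((hf1 v hv).2.1 k)).resolve_left (z1 _ (a.toCl.m_M1 hu)).2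
      rcases mem_insert.1 k1 with k2 | k2
      · rw [← k2, p.t.mm]; simp
      · have := congrArg p.t.m (mem_singleton.1 k2)
        rw [p.t.mm, p.t.mm] at this
        simp [this]
  have dj : Disjoint ((a.toCl.M0 S).image f0) ((a.toCl.M1 S).image f1) := by
    rw [disjoint_left]
    intro φ k0 k1
    obtain ⟨u, hu, rfl⟩ := mem_image.1 k0
    obtain ⟨v, hv, e⟩ := mem_image.1 k1
    have k := (hf0 u hu).1
    rw [← e] at k
    have k2 := (mem_union.1 ((hf1 v hv).2.1 k)).resolve_left (z0 u hu).2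
    have k3 := (z0 u hu).1
    rcases mem_insert.1 k2 with k4 | k4
    · exact (z1 v hv).1 (k4 ▸ k3)
    · exact (z1 _ (a.toCl.m_M1 hv)).1 (mem_singleton.1 k4 ▸ k3)
  have h3 : 3 ≤ #Sᶜ := by
    have := a.five_X
    have : #a.toCl.Xᶜ ≤ #Sᶜ := card_le_card (compl_subset_compl.2 hS)
    omega
  have := t5 hb hm h6 (fun v k => a.X_free v (hS k)) (a.ne_P hS) (fun φ k => a.in_face (k.trans hS))
    ((a.toCl.M0 S).image f0 ∪ (a.toCl.M1 S).image f1) (by
      intro φ hφ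
      rcases mem_union.1 hφ with k | k
      · obtain ⟨u, hu, rfl⟩ := mem_image.1 k
        exact ⟨fun k1 => (z0 u hu).2 (k1 (hf0 u hu).1), (hf0 u hu).2.2⟩
      · obtain ⟨u, hu, rfl⟩ := mem_image.1 k
        refine ⟨fun k1 => ?_, (hf1 u hu).2.2⟩
        rcases (hf1 u hu).1 with k2 | k2
        · exact (z1 u hu).2 (k1 k2)
        · exact (z1 _ (a.toCl.m_M1 hu)).2 (k1 k2))
  rw [card_union_of_disjoint dj] at this
  omega

end Fl
end PR
end Pool.Agent.MP_8c1b0d_co.RR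

end

-- part MP_8c1b0d_co.RR.C
section

set_option autoImplicit false
set_option linter.unusedSectionVars false
open Finset

namespace Pool.Agent.MP_8c1b0d_co.RR
namespace PR
open PL
variable {V Φ : Type} [Fintype V] [DecidableEq V] [Fintype Φ] [DecidableEq Φ] {p : PR V Φ}

/-- a strand of type 0 from the half-edge `(s, i)` to `(s', !i)` -/
def Th0 (a : p.Fl) (s : V) (i : Bool) (s' : V) : Prop :=
  p.t.col i s ∈ a.toCl.U0 ∧ p.t.col (!i) (p.t.col i s) = s'
/-- a strand of type 1 from the half-edge `(s, i)` to `(s', i)` -/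
def Th1 (a : p.Fl) (s : V) (i : Bool) (s' : V) : Prop :=
  p.t.col i s ∈ a.toCl.U1 ∧ p.t.col i (p.t.m (p.t.col i s)) = s'

/-- the exceptional configuration: `X = {w, m w} ∪ {m r, r, s, m s}` with `s = col k r` -/
structure S46 (a : p.Fl) (w r : V) (k : Bool) : Prop where
  ten : p.t.cut a.toCl.X = 10
  mem : ∀ v, v ∈ a.toCl.X ↔ v = w ∨ v = p.t.m w ∨ v = r ∨ v = p.t.m r ∨ v = p.t.col k r ∨
    v = p.t.m (p.t.col k r)
  six : #a.toCl.X = 6
  leg : ∀ v ∈ a.toCl.X, ∀ c, p.t.col c v ∈ a.toCl.X → c = k ∧ (v = r ∨ v = p.t.col k r)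

namespace Fl
variable (a : p.Fl)

lemma f8_mm (v : V) : p.t.m (p.t.m v) = v := p.t.mm v
lemma f8_mc (c : Bool) (v : V) : p.t.m v ≠ p.t.col c v := fun h => by
  have := p.t.nb_inj (k := none) (k' := some c) h
  cases this
lemma f8_cne (c : Bool) (v : V) : p.t.col c v ≠ v := p.t.nb_ne (some c) v
lemma f8_minj {u v : V} (h : p.t.m u = p.t.m v) : u = v := by
  rw [← f8_mm (p := p) u, h, f8_mm]
lemma f8_mswap {u v : V} (h : p.t.m u = v) : u = p.t.m v := by rw [← h, f8_mm]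

/-- `bd X` has 10 of the 12 half-edges of colours `x, y` at `X` (`cut_eq_of_m`); the two others form
an edge `r, col k r` between the two `m`-edges different from `w, m w`. -/
lemma exists_S46 (h10 : p.t.cut a.toCl.X = 10) (h6 : #a.toCl.X = 6) {w : V} (hw : w ∈ a.toCl.X)
    (h : ∀ c, p.t.col c w ∉ a.toCl.X ∧ p.t.col c (p.t.m w) ∉ a.toCl.X) :
    ∃ r k, S46 a w r k := by
  have hm : ∀ v ∈ a.toCl.X, p.t.m v ∈ a.toCl.X := fun v hv => a.toCl.m_X hv
  have h1 := p.t.cut_eq_of_m hm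
  have h2 := card_filter_add_card_filter_not (s := a.toCl.X ×ˢ (univ : Finset Bool))
    (fun d => (p.t.o d).1 ∈ a.toCl.X)
  have h3 : ({d : V × Bool | d.1 ∈ a.toCl.X ∧ (p.t.o d).1 ∉ a.toCl.X} : Finset _) =
      {d ∈ a.toCl.X ×ˢ (univ : Finset Bool) | ¬ (p.t.o d).1 ∈ a.toCl.X} := by
    ext d; simp only [mem_filter, mem_univ, true_and, Fintype.univ_bool, mem_product, mem_insert, mem_singleton, Bool.eq_true_or_eq_false_self, and_true]
  rw [← h3, ← h1, h10, card_product, h6, card_univ, Fintype.card_bool] at h2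
  set I : Finset (V × Bool) := {d ∈ a.toCl.X ×ˢ (univ : Finset Bool) | (p.t.o d).1 ∈ a.toCl.X}
    with hI
  have mI : ∀ v c, (v, c) ∈ I ↔ v ∈ a.toCl.X ∧ p.t.col c v ∈ a.toCl.X := fun v c => by
    simp [hI, Tri.o]
  obtain ⟨⟨r, k⟩, hr⟩ := card_pos.1 (show 0 < #I by omega)
  obtain ⟨r1, r2⟩ := (mI r k).1 hr
  have h4 : ({(r, k), (p.t.col k r, k)} : Finset (V × Bool)) = I := by
    refine eq_of_subset_of_card_le (insert_subset hr (singleton_subset_iff.2
      ((mI _ _).2 ⟨r2, by rwa [p.t.col_col]⟩))) ?_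
    rw [card_pair fun e => f8_cne k r (congrArg Prod.fst e).symm]
    omega
  have n1 : w ≠ r := fun e => (h k).1 (e ▸ r2)
  have n2 : p.t.m w ≠ r := fun e => (h k).2 (e ▸ r2)
  have n3 : w ≠ p.t.col k r := fun e => (h k).1 (by rw [e, p.t.col_col]; exact r1)
  have n4 : p.t.m w ≠ p.t.col k r := fun e => (h k).2 (by rw [e, p.t.col_col]; exact r1)
  have h5 : ({w, p.t.m w, r, p.t.m r, p.t.col k r, p.t.m (p.t.col k r)} : Finset V) =
      a.toCl.X := by
    refine eq_of_subset_of_card_le ?_ ?_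
    · simp only [insert_subset_iff, singleton_subset_iff]
      exact ⟨hw, hm _ hw, r1, hm _ r1, r2, hm _ r2⟩
    · rw [h6, card_insert_of_notMem, card_insert_of_notMem, card_insert_of_notMem,
        card_insert_of_notMem, card_pair (p.t.m_ne _).symm]
      · simp only [mem_insert, mem_singleton, not_or]
        exact ⟨f8_mc k r, fun e => f8_cne k r (f8_minj e).symm⟩
      · simp only [mem_insert, mem_singleton, not_or]
        exact ⟨(p.t.m_ne _).symm, (f8_cne k r).symm, fun e => f8_mc k r (f8_mswap e.symm).symm⟩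
      · simp only [mem_insert, mem_singleton, not_or]
        exact ⟨n2, fun e => n1 (f8_minj e), n4, fun e => n3 (f8_minj e)⟩
      · simp only [mem_insert, mem_singleton, not_or]
        exact ⟨(p.t.m_ne _).symm, n1, fun e => n2 (f8_mswap e.symm).symm, n3,
          fun e => n4 (f8_mswap e.symm).symm⟩
  refine ⟨r, k, h10, fun v => ?_, h6, fun v hv c hc => ?_⟩
  · rw [← h5]
    simp only [mem_insert, mem_singleton]
  · have := (mI v c).2 ⟨hv, hc⟩
    rw [← h4] at this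
    simp only [mem_insert, mem_singleton, Prod.mk.injEq] at this
    tauto

lemma f8_e0 {v : V} (h : v ∉ a.A1) (c : Bool) : a.ε (v, c) = a.ε (v, false) := by
  cases c
  exacts [rfl, a.e0 v h]

/-- Every leg starts a strand that ends at a leg (`ten`, `T1`, `ρ_PH`); the signs come from
`e0, e1, e2`. -/
lemma thread (h10 : p.t.cut a.toCl.X = 10) {s : V} (hs : s ∈ a.toCl.X) {i : Bool}
    (hi : p.t.col i s ∉ a.toCl.X) : ∃ s' ∈ a.toCl.X,
      (Th0 a s i s' ∧ a.ε (s', false) = a.ε (s, false)) ∨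
      (Th1 a s i s' ∧ a.ε (s', false) ≠ a.ε (s, false)) := by
  obtain ⟨hD, -, hT⟩ := a.ten h10
  have nD : ∀ d, d ∉ a.D := fun d => by rw [hD]; exact notMem_empty d
  have h1 : (s, i) ∈ a.P := a.toCl.P_of_X hs i
  have h2 : (p.t.col i s, i) ∈ a.P := (a.cl _ h1 (nD _)).1
  have h3 : (p.t.col i s, i) ∈ a.toCl.PH := a.toCl.mem_PH.2 ⟨h2, hi⟩
  have h4 := a.toCl.ρ_PH h3
  have h5 := hT _ h4
  have h6 := a.e2 _ (a.toCl.mem_PH.1 h4).1 (nD _)
  have h7 : a.ε (p.t.col i s, i) ≠ a.ε (s, i) := a.e2 _ h1 (nD _)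
  rw [a.f8_e0 (a.toCl.mem_X.1 hs).2.1] at h7
  by_cases h0 : p.t.col i s ∈ a.A0
  · have e : a.toCl.ρ (p.t.col i s, i) = (p.t.col i s, !i) := if_pos h0
    have n1 : p.t.col i s ∉ a.A1 := disjoint_left.1 a.disj h0
    rw [e] at h5 h6
    refine ⟨_, h5, Or.inl ⟨⟨a.toCl.mem_U0.2 ⟨h0, ?_⟩, rfl⟩, ?_⟩⟩
    · cases i
      exacts [h2, (a.l0 _ n1).1 h2]
    · rw [a.f8_e0 n1] at h6 h7
      change a.ε ((p.t.o (p.t.col i s, !i)).1, !i) ≠ _ at h6
      rw [a.f8_e0 (a.toCl.mem_X.1 h5).2.1] at h6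
      revert h6 h7
      generalize a.ε (p.t.col i s, false) = x, a.ε (s, false) = y,
        a.ε ((p.t.o (p.t.col i s, !i)).1, false) = z
      revert x y z; decide
  · have e : a.toCl.ρ (p.t.col i s, i) = (p.t.m (p.t.col i s), i) := if_neg h0
    have h8 := a.e1 _ h0 i
    rw [e] at h5 h6
    refine ⟨_, h5, Or.inr ⟨⟨?_, rfl⟩, ?_⟩⟩
    · rcases a.toCl.Sp_cases.1 (a.toCl.mem_Sp.2 ⟨i, h2⟩) with h | h | h | h
      · exact absurd h hi
      · exact absurd (a.toCl.mem_U0.1 h).1 h0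
      · exact h
      · rw [a.T1] at h
        exact absurd h (notMem_empty _)
    · change a.ε ((p.t.o (p.t.m (p.t.col i s), i)).1, i) ≠ _ at h6
      rw [a.f8_e0 (a.toCl.mem_X.1 h5).2.1] at h6
      revert h6 h7 h8
      generalize a.ε (p.t.col i s, i) = x, a.ε (s, false) = y,
        a.ε ((p.t.o (p.t.m (p.t.col i s), i)).1, false) = z, a.ε (p.t.m (p.t.col i s), i) = u
      revert x y z u; decide

/-- Two cycles of length 6 through the same strand of type 0. `u = col i s`. -/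
lemma two_hex {u : V} {C C' : Finset V} (h : #C ≤ 6) (h' : #C' ≤ 6) (d : p.t.Deg2 C)
    (d' : p.t.Deg2 C') (hu : u ∈ C ∧ ∀ c, p.t.col c u ∈ C) (hu' : u ∈ C' ∧ ∀ c, p.t.col c u ∈ C')
    {b b' : V} (n : b ≠ b') (h1 : b ∈ C ∧ b' ∈ C) (h2 : b ∉ C' ∧ b' ∉ C') : False := by
  have key : ∀ {C : Finset V}, #C ≤ 6 → p.t.Deg2 C → (u ∈ C ∧ ∀ c, p.t.col c u ∈ C) →
      p.cor (p.op none u) ⊆ C := fun h d hu => p.f6 h d hu.1 fun k' hk => by
    rcases k' with _ | c
    exacts [absurd rfl hk, hu.2 c]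
  have s1 := key h d hu
  have s2 := key h' d' hu'
  have s3 : p.cor (p.op none u) ⊆ C \ {b, b'} := fun v hv => by
    simp only [mem_sdiff, mem_insert, mem_singleton, not_or]
    exact ⟨s1 hv, fun e => h2.1 (e ▸ s2 hv), fun e => h2.2 (e ▸ s2 hv)⟩
  have c1 := card_le_card s3
  have c2 := p.five_le (p.op none u)
  rw [card_sdiff_of_subset (insert_subset h1.1 (singleton_subset_iff.2 h1.2)), card_pair n] at c1
  omega

end Fl

namespace S46
variable {a : p.Fl} {w r : V} {k : Bool} (h : S46 a w r k)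
include h

/-- the symmetries of the configuration -/
lemma swap_w : S46 a (p.t.m w) r k :=
  ⟨h.ten, fun v => by rw [h.mem, Fl.f8_mm]; tauto, h.six, h.leg⟩
lemma swap_r : S46 a w (p.t.col k r) k :=
  ⟨h.ten, fun v => by rw [h.mem, p.t.col_col]; tauto, h.six, fun v hv c hc => by
    rw [p.t.col_col]
    exact (h.leg v hv c hc).imp_right Or.symm⟩

omit h in
lemma f8_symm {s s' : V} {i : Bool} (k : Th1 a s i s') : Th1 a s' i s := by
  obtain ⟨k1, rfl⟩ := k
  rw [Th1, p.t.col_col, Fl.f8_mm, p.t.col_col]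
  exact ⟨a.toCl.m_U1 k1, rfl⟩

lemma f8_r : r ∈ a.toCl.X := (h.mem _).2 (by tauto)
lemma f8_s : p.t.col k r ∈ a.toCl.X := (h.mem _).2 (by tauto)

lemma f8_alt : ¬ Th1 a (p.t.m r) k (p.t.m (p.t.col k r)) := by
  rintro ⟨k1, k2⟩
  have hA : p.t.Alt r k := by rw [Tri.Alt, k2, Fl.f8_mm, p.t.col_col]
  obtain ⟨u, hu, c, -, hw⟩ := a.hexa r k hA (disjoint_left.2 fun u hu => by
    simp only [Tri.hex, mem_insert, mem_singleton, k2, Fl.f8_mm] at hu
    rcases hu with rfl | rfl | rfl | rfl | rfl | rfl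
    · exact a.X_free _ h.f8_r
    · exact a.X_free _ (a.toCl.m_X h.f8_r)
    · exact a.toCl.Sp_free (a.toCl.U1_Sp k1)
    · exact a.toCl.Sp_free (a.toCl.U1_Sp (a.toCl.m_U1 k1))
    · exact a.X_free _ (a.toCl.m_X h.f8_s)
    · exact a.X_free _ h.f8_s)
  have u0 := hw u (by simp only [Tri.hex, mem_insert, mem_singleton, true_or])
  have uX : u ∈ a.toCl.X := by
    simp only [Tri.hex, mem_insert, mem_singleton, k2, Fl.f8_mm] at hu
    rcases hu with rfl | rfl | rfl | rfl | rfl | rfl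
    · exact h.f8_r
    · exact a.toCl.m_X h.f8_r
    · exact absurd (a.toCl.A1_of_U1 k1) u0.2.1
    · exact absurd (a.toCl.A1_of_U1 (a.toCl.m_U1 k1)) u0.2.1
    · exact a.toCl.m_X h.f8_s
    · exact h.f8_s
  have hX : ∀ v ∈ p.t.hex u c, v ∈ a.toCl.X := fun v hv =>
    a.toCl.mem_X.2 ⟨(hw v hv).1, (hw v hv).2.1, (hw v hv).2.2.2 (a.toCl.mem_X.1 uX).2.2⟩
  obtain ⟨rfl, a1⟩ := h.leg (p.t.m u) (hX _ (by simp only [Tri.hex, mem_insert, mem_singleton, true_or, or_true])) c (hX _ (by simp only [Tri.hex, mem_insert, mem_singleton, true_or, or_true]))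
  obtain ⟨-, a2⟩ := h.leg (p.t.m (p.t.col c (p.t.m u))) (hX _ (by simp only [Tri.hex, mem_insert, mem_singleton, true_or, or_true])) c
    (hX _ (by simp only [Tri.hex, mem_insert, mem_singleton, true_or, or_true]))
  rcases a1 with a1 | a1 <;> rw [a1] at a2
  · rcases a2 with a2 | a2
    exacts [Fl.f8_mc c r (Fl.f8_mswap a2).symm, p.t.m_ne _ a2]
  · rw [p.t.col_col] at a2
    rcases a2 with a2 | a2
    exacts [p.t.m_ne _ a2, Fl.f8_mc c r a2]

lemma f8_sign : a.ε (p.t.m r, false) ≠ a.ε (r, false) ∧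
    a.ε (p.t.col k r, false) ≠ a.ε (r, false) ∧
    a.ε (p.t.m (p.t.col k r), false) ≠ a.ε (p.t.col k r, false) := by
  refine ⟨a.e1 _ (a.toCl.mem_X.1 h.f8_r).1 _, ?_, a.e1 _ (a.toCl.mem_X.1 h.f8_s).1 _⟩
  have h1 : a.ε (p.t.col k r, k) ≠ a.ε (r, k) := a.e2 _ (a.toCl.P_of_X h.f8_r k) (by
    rw [(a.ten h.ten).1]; exact notMem_empty _)
  rwa [a.f8_e0 (a.toCl.mem_X.1 h.f8_r).2.1, a.f8_e0 (a.toCl.mem_X.1 h.f8_s).2.1] at h1

/-- a strand from `r` or `m r` that stays in the path -/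
lemma f8_half {s s' : V} {i : Bool} (hs : s = r ∨ s = p.t.m r) (hi : p.t.col i s ∉ a.toCl.X)
    (hs' : s' = r ∨ s' = p.t.m r ∨ s' = p.t.col k r ∨ s' = p.t.m (p.t.col k r))
    (ht : (Th0 a s i s' ∧ a.ε (s', false) = a.ε (s, false)) ∨
      (Th1 a s i s' ∧ a.ε (s', false) ≠ a.ε (s, false))) :
    s = p.t.m r ∧ i = !k ∧ Th1 a (p.t.m r) (!k) (p.t.m (p.t.col k r)) := by
  obtain ⟨b1, b2, b3⟩ := h.f8_sign
  have b4 : a.ε (p.t.m (p.t.col k r), false) = a.ε (r, false) := by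
    revert b2 b3
    generalize a.ε (p.t.col k r, false) = x, a.ε (r, false) = y,
      a.ε (p.t.m (p.t.col k r), false) = z
    revert x y z; decide
  have b5 : a.ε (p.t.col k r, false) = a.ε (p.t.m r, false) := by
    revert b1 b2
    generalize a.ε (p.t.col k r, false) = x, a.ε (r, false) = y, a.ε (p.t.m r, false) = z
    revert x y z; decide
  have n0 : (some i : Option Bool) ≠ some !i := by cases i <;> decide
  have n1 : ∀ v, p.t.col (!i) (p.t.col i v) ≠ v := fun v e => n0 (p.t.nb_inj (v := v) (by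
    have := congrArg (p.t.col !i) e
    rwa [p.t.col_col] at this))
  rcases ht with ⟨⟨-, e⟩, b⟩ | ⟨⟨u1, e⟩, b⟩
  · exfalso
    rcases hs with rfl | rfl <;> rcases hs' with rfl | e' | e' | e'
    · exact n1 _ e
    · exact b1 (e' ▸ b)
    · exact b2 (e' ▸ b)
    · refine p.ok.no4 (k4 := some k) (k3 := none) n0 (by simp) (by simp) s ?_
      simp only [Tri.nb_some, Tri.nb_none, e, e', Fl.f8_mm, p.t.col_col]
    · exact b1 b.symm
    · exact n1 _ (e.trans e')
    · refine p.ok.no4 (k1 := some k) (k2 := none) (by simp) (by simp) n0 (p.t.col k r) ?_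
      simp only [Tri.nb_some, Tri.nb_none, e, e', p.t.col_col]
    · exact b1 (by rw [← b, e', b4])
  · rcases hs with rfl | rfl <;> rcases hs' with rfl | e' | e' | e'
    · exact absurd rfl b
    · refine absurd ?_ (p.ok.no4 (k1 := some i) (k2 := none) (k3 := some i) (k4 := none)
        (by simp) (by simp) (by simp) s)
      simp only [Tri.nb_some, Tri.nb_none, e, e', Fl.f8_mm]
    · refine absurd ?_ (p.ok.no4 (k1 := some i) (k2 := none) (k3 := some i) (k4 := some k)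
        (by simp) (by simp) (fun q => hi (by cases q; exact h.f8_s)) s)
      simp only [Tri.nb_some, Tri.nb_none, e, e', p.t.col_col]
    · exact absurd (e' ▸ b4) b
    · refine absurd ?_ (p.ok.no4 (k1 := some i) (k2 := none) (k3 := some i) (k4 := none)
        (by simp) (by simp) (by simp) (p.t.m s'))
      simp only [Tri.nb_some, Tri.nb_none, e]
    · exact absurd (e' ▸ rfl) b
    · exact absurd (e' ▸ b5) b
    · have t : Th1 a (p.t.m r) i (p.t.m (p.t.col k r)) := ⟨u1, e.trans e'⟩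
      have q : i = !k := by
        by_contra q
        have : i = k := by revert q; cases i <;> cases k <;> simp
        exact h.f8_alt (this ▸ t)
      exact ⟨rfl, q, q ▸ t⟩

lemma f8_legP (i : Bool) : p.t.col i (p.t.m r) ∉ a.toCl.X := fun q => by
  rcases (h.leg _ (a.toCl.m_X h.f8_r) i q).2 with e | e
  exacts [p.t.m_ne _ e, Fl.f8_mc k r e]

lemma f8_legr : p.t.col (!k) r ∉ a.toCl.X := fun q => by
  have := (h.leg _ h.f8_r _ q).1
  cases k <;> cases this

/-- the end of a strand from `r` or `m r` -/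
lemma f8_end {s : V} {i : Bool} (hs : s = r ∨ s = p.t.m r) (hi : p.t.col i s ∉ a.toCl.X) :
    (s = p.t.m r ∧ i = !k ∧ Th1 a (p.t.m r) (!k) (p.t.m (p.t.col k r))) ∨
    ∃ s', (s' = w ∨ s' = p.t.m w) ∧ ((Th0 a s i s' ∧ a.ε (s', false) = a.ε (s, false)) ∨
      (Th1 a s i s' ∧ a.ε (s', false) ≠ a.ε (s, false))) := by
  obtain ⟨s', h1, h2⟩ := a.thread h.ten (s := s) ((h.mem _).2 (by tauto)) hi
  rcases (h.mem _).1 h1 with e | e | e
  exacts [Or.inr ⟨s', Or.inl e, h2⟩, Or.inr ⟨s', Or.inr e, h2⟩, Or.inl (h.f8_half hs hi e h2)]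

/-- Write `P = m r`, `Q = m (col k r)`, `β v = ε (v,false)`; `β` changes along the edges of `X`.
The two sides have 4 and 6 legs, so some strand has both ends in `{P, r, col k r, Q}` (among the six
legs there, at most four strands end at `w, m w`: the strand map is injective on legs). Type 0 keeps
`β`, so its ends are equal or at distance 2: `no3`, `no4`, `nb_inj`. Type 1 changes `β`: adjacent ends
give a 4-cycle, so the ends are `P` and `Q`. If its colour is `k` then `Alt P k` holds and `hexa` gives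
an alternating hexagon inside `X`, impossible by `leg`. -/
lemma inner : Th1 a (p.t.m r) (!k) (p.t.m (p.t.col k r)) := by
  by_contra hn
  have hn' : ¬ Th1 a (p.t.m (p.t.col k r)) (!k) (p.t.m (p.t.col k (p.t.col k r))) := fun q => by
    rw [p.t.col_col] at q
    exact hn (f8_symm q)
  have key : ∀ {s : V} {i : Bool}, (∃ s', (s' = w ∨ s' = p.t.m w) ∧
      ((Th0 a s i s' ∧ a.ε (s', false) = a.ε (s, false)) ∨
      (Th1 a s i s' ∧ a.ε (s', false) ≠ a.ε (s, false)))) →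
      p.t.o (a.toCl.ρ (p.t.o (s, i))) ∈ ({w, p.t.m w} : Finset V) ×ˢ (univ : Finset Bool) := by
    rintro s i ⟨s', h1, ⟨⟨u, e⟩, -⟩ | ⟨⟨u, e⟩, -⟩⟩
    · have q : a.toCl.ρ (p.t.o (s, i)) = (p.t.col i s, !i) := if_pos (a.toCl.mem_U0.1 u).1
      rw [q]
      simpa [Tri.o, e] using h1
    · have q : a.toCl.ρ (p.t.o (s, i)) = (p.t.m (p.t.col i s), i) :=
        if_neg (disjoint_right.1 a.disj (a.toCl.A1_of_U1 u))
      rw [q]
      simpa [Tri.o, e] using h1
  have c := card_le_card_of_injOn (s := insert (r, !k)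
      (({p.t.m r, p.t.m (p.t.col k r)} : Finset V) ×ˢ (univ : Finset Bool)))
    (t := ({w, p.t.m w} : Finset V) ×ˢ (univ : Finset Bool))
    (fun d => p.t.o (a.toCl.ρ (p.t.o d))) (fun d hd => by
      obtain ⟨s, i⟩ := d
      simp only [coe_insert, Set.mem_insert_iff, mem_coe, mem_product, mem_insert, mem_singleton,
        mem_univ, and_true, Prod.mk.injEq] at hd
      refine mem_coe.2 (key ?_)
      rcases hd with ⟨rfl, rfl⟩ | rfl | rfl
      · exact (h.f8_end (Or.inl rfl) h.f8_legr).resolve_left fun q => hn q.2.2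
      · exact (h.f8_end (Or.inr rfl) (h.f8_legP i)).resolve_left fun q => hn q.2.2
      · exact (h.swap_r.f8_end (Or.inr rfl) (h.swap_r.f8_legP i)).resolve_left
          fun q => hn' q.2.2)
    fun d _ d' _ e => by
      have e1 := congrArg (fun z => p.t.o (a.toCl.ρ (p.t.o z))) e
      simpa only [p.t.o_o, a.toCl.ρ_ρ] using e1
  rw [card_insert_of_notMem, card_product, card_product, card_pair (p.t.m_ne _).symm,
    card_pair fun e => Fl.f8_cne k r (Fl.f8_minj e).symm] at c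
  · omega
  · simp only [mem_product, mem_insert, mem_singleton, mem_univ, and_true, not_or]
    exact ⟨(p.t.m_ne _).symm, fun e => Fl.f8_mc k r (Fl.f8_mswap e.symm).symm⟩

/-- The four remaining legs `(P,k)`, `(r,!k)`, `(col k r,!k)`, `(Q,k)` are joined to `w, m w`: by the
argument of `inner` a strand from one of them that stays in the path would be of type 1 from `P` to `Q`
with colour `k`. -/
lemma outer {s : V} {i : Bool} (hs : (s = p.t.m r ∧ i = k) ∨ (s = r ∧ i = !k)) :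
    ∃ s', (s' = w ∨ s' = p.t.m w) ∧ ((Th0 a s i s' ∧ a.ε (s', false) = a.ε (s, false)) ∨
      (Th1 a s i s' ∧ a.ε (s', false) ≠ a.ε (s, false))) := by
  rcases hs with ⟨rfl, rfl⟩ | ⟨rfl, rfl⟩
  · refine (h.f8_end (Or.inr rfl) (h.f8_legP _)).resolve_left fun q => ?_
    have := q.2.1
    cases i <;> cases this
  · exact (h.f8_end (Or.inl rfl) h.f8_legr).resolve_left fun q => p.t.m_ne _ q.1.symm

end S46
end PR
end Pool.Agent.MP_8c1b0d_co.RR

set_option autoImplicit false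
set_option linter.unusedSectionVars false
open Finset

namespace Pool.Agent.MP_8c1b0d_co.RR
namespace PR
open PL
variable {V Φ : Type} [Fintype V] [DecidableEq V] [Fintype Φ] [DecidableEq Φ] {p : PR V Φ}

namespace Fl
variable (a : p.Fl)

lemma f8b_U1X {u : V} (hu : u ∈ a.toCl.U1) : u ∉ a.toCl.X := fun k =>
  (a.toCl.mem_X.1 k).2.1 (a.toCl.A1_of_U1 hu)

lemma f8b_U0X {u : V} (hu : u ∈ a.toCl.U0) : u ∉ a.toCl.X := fun k =>
  (a.toCl.mem_X.1 k).1 (a.toCl.mem_U0.1 hu).1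

lemma f8b_U01 {u : V} (h0 : u ∈ a.toCl.U0) (h1 : u ∈ a.toCl.U1) : False :=
  Finset.disjoint_left.1 a.disj (a.toCl.mem_U0.1 h0).1 (a.toCl.A1_of_U1 h1)

lemma f8b_one {u : V} {c : Bool} (hu : u ∈ a.toCl.U1) (h1 : (u, c) ∈ a.P) : (u, !c) ∉ a.P := by
  have := a.toCl.mem_U1.1 hu
  cases c <;> simp_all

lemma f8b_o (h10 : p.t.cut a.toCl.X = 10) {u : V} {c : Bool} (h1 : (u, c) ∈ a.P) :
    (p.t.col c u, c) ∈ a.P :=
  (a.cl _ h1 (by rw [(a.ten h10).1]; simp)).1

/-- two strands with the same last half-edge have the same first vertex -/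
lemma f8b_inj {s s' e : V} {i : Bool}
    (h1 : (Th0 a s i e ∧ a.ε (e, false) = a.ε (s, false)) ∨
      (Th1 a s i e ∧ a.ε (e, false) ≠ a.ε (s, false)))
    (h2 : (Th0 a s' (!i) e ∧ a.ε (e, false) = a.ε (s', false)) ∨
      (Th1 a s' (!i) e ∧ a.ε (e, false) ≠ a.ε (s', false)))
    (n : a.ε (s', false) ≠ a.ε (s, false)) : False := by
  rcases h1 with ⟨⟨u1, e1⟩, b1⟩ | ⟨⟨u1, e1⟩, b1⟩ <;> rcases h2 with ⟨⟨u2, e2⟩, b2⟩ | ⟨⟨u2, e2⟩, b2⟩
  · exact n (b2.symm.trans b1)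
  · have e := congrArg (p.t.col (!i)) (e1.trans e2.symm)
    rw [p.t.col_col, p.t.col_col] at e
    exact a.f8b_U01 u1 (e ▸ a.toCl.m_U1 u2)
  · rw [Bool.not_not] at e2
    have e := congrArg (p.t.col i) (e2.trans e1.symm)
    rw [p.t.col_col, p.t.col_col] at e
    exact a.f8b_U01 u2 (e ▸ a.toCl.m_U1 u1)
  · revert n b1 b2
    generalize a.ε (e, false) = x, a.ε (s, false) = y, a.ε (s', false) = z
    revert x y z
    decide

end Fl

lemma f8b_nk (k : Bool) : (some k : Option Bool) ≠ some !k := by cases k <;> simp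

lemma f8b_three (k : Bool) (j : Option Bool) : j = none ∨ j = some k ∨ j = some !k := by
  rcases j with _ | _ | _ <;> cases k <;> simp

lemma f8b_mk {C : Finset V} {v : V} (k : Bool) (hm : p.t.m v ∈ C) (hk : p.t.col k v ∈ C)
    (hn : p.t.col (!k) v ∉ C) : ∃ j, p.t.nb j v ∉ C ∧ ∀ j', j' ≠ j → p.t.nb j' v ∈ C := by
  refine ⟨some !k, hn, fun j hj => ?_⟩
  rcases f8b_three k j with rfl | rfl | rfl
  exacts [hm, hk, absurd rfl hj]

lemma f8b_kk {C : Finset V} {v : V} (k : Bool) (hm : p.t.m v ∉ C) (hk : p.t.col k v ∈ C)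
    (hn : p.t.col (!k) v ∈ C) : ∃ j, p.t.nb j v ∉ C ∧ ∀ j', j' ≠ j → p.t.nb j' v ∈ C := by
  refine ⟨none, hm, fun j hj => ?_⟩
  rcases f8b_three k j with rfl | rfl | rfl
  exacts [absurd rfl hj, hk, hn]

lemma f8b_d1 {C : Finset V} {v : V} (k : Bool) (hm : p.t.m v ∈ C) (hk : p.t.col k v ∈ C) :
    ∃ j j', j ≠ j' ∧ p.t.nb j v ∈ C ∧ p.t.nb j' v ∈ C := ⟨none, some k, by simp, hm, hk⟩

lemma f8b_d2 {C : Finset V} {v : V} (k : Bool) (hm : p.t.col (!k) v ∈ C) (hk : p.t.col k v ∈ C) :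
    ∃ j j', j ≠ j' ∧ p.t.nb j v ∈ C ∧ p.t.nb j' v ∈ C :=
  ⟨some k, some !k, f8b_nk k, hk, hm⟩

lemma f8b_both {C : Finset V} {v : V} (k : Bool) (hm : p.t.col (!k) v ∈ C) (hk : p.t.col k v ∈ C)
    (c : Bool) : p.t.col c v ∈ C := by
  cases c <;> cases k <;> assumption

lemma f8b_flip {c : Bool} {u v : V} (h : p.t.col c u = v) : p.t.col c v = u := by
  rw [← h, p.t.col_col]

namespace S46
variable {a : p.Fl} {w r : V} {k : Bool} (h : S46 a w r k)
include h

lemma f8b_nd : [w, p.t.m w, r, p.t.m r, p.t.col k r, p.t.m (p.t.col k r)].Nodup := by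
  have e : [w, p.t.m w, r, p.t.m r, p.t.col k r, p.t.m (p.t.col k r)].toFinset = a.toCl.X := by
    ext v
    simp only [List.toFinset_cons, List.toFinset_nil, insert_empty_eq, mem_insert, mem_singleton, h.mem]
  have c := h.six
  rw [← e, List.card_toFinset] at c
  exact List.dedup_eq_self.1 ((List.dedup_sublist _).eq_of_length c)

lemma f8b_X : w ∈ a.toCl.X ∧ p.t.m w ∈ a.toCl.X ∧ r ∈ a.toCl.X ∧ p.t.m r ∈ a.toCl.X ∧
    p.t.col k r ∈ a.toCl.X ∧ p.t.m (p.t.col k r) ∈ a.toCl.X := by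
  simp [h.mem]

/-- the first hexagon -/
lemma f8b_C (h1 : Th0 a (p.t.m r) k w) (h3 : Th0 a r (!k) (p.t.m w)) :
    p.t.Deg2 {p.t.m r, r, p.t.col (!k) r, p.t.m w, w, p.t.col k (p.t.m r)} := by
  obtain ⟨-, e1⟩ := h1
  obtain ⟨-, e3⟩ := h3
  rw [Bool.not_not] at e3
  have e1' := f8b_flip e1
  have e3' := f8b_flip e3
  intro v hv
  simp only [mem_insert, mem_singleton] at hv
  rcases hv with rfl | rfl | rfl | rfl | rfl | rfl
  · exact f8b_d1 k (by simp [p.t.mm]) (by simp)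
  · exact f8b_d1 (!k) (by simp only [mem_insert, mem_singleton, true_or]) (by simp)
  · exact f8b_d2 k (by simp) (by simp only [e3, mem_insert, mem_singleton, true_or, or_true])
  · exact f8b_d1 k (by simp [p.t.mm]) (by simp [e3'])
  · exact f8b_d1 (!k) (by simp only [mem_insert, mem_singleton, true_or, or_true]) (by simp [e1'])
  · exact f8b_d2 k (by simp [e1]) (by simp only [Tri.col_col, mem_insert, mem_singleton, true_or])

lemma f8b_A (h1 : Th0 a (p.t.m r) k w) (h3 : Th0 a r (!k) (p.t.m w))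
    (h2 : Th1 a (p.t.col k r) (!k) (p.t.m w)) : False := by
  have d := h.f8b_C h1 h3
  obtain ⟨u3, e3⟩ := h3
  obtain ⟨u2, e2⟩ := h2
  rw [Bool.not_not] at e3
  have e2' := f8b_flip e2
  have e3' := f8b_flip e3
  have nd := h.f8b_nd
  obtain ⟨x1, x2, x3, x4, x5, x6⟩ := h.f8b_X
  have n3 := a.f8b_U0X u3
  have n2 := a.f8b_U1X u2
  have n2' := a.f8b_U1X (a.toCl.m_U1 u2)
  simp only [List.nodup_cons, List.mem_cons, List.not_mem_nil, not_or] at nd
  have d' : p.t.Deg2 {r, p.t.col k r, p.t.col (!k) (p.t.col k r),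
      p.t.m (p.t.col (!k) (p.t.col k r)), p.t.m w, p.t.col (!k) r} := by
    intro v hv
    simp only [mem_insert, mem_singleton] at hv
    rcases hv with rfl | rfl | rfl | rfl | rfl | rfl
    · exact f8b_d2 k (by simp) (by simp only [mem_insert, mem_singleton, true_or, or_true])
    · exact f8b_d2 k (by simp only [mem_insert, mem_singleton, true_or, or_true]) (by simp only [Tri.col_col, mem_insert, mem_singleton, true_or])
    · exact f8b_d1 (!k) (by simp only [mem_insert, mem_singleton, true_or, or_true]) (by simp only [Tri.col_col, mem_insert, mem_singleton, true_or, or_true])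
    · exact f8b_d1 (!k) (by simp only [p.t.mm, mem_insert, mem_singleton, true_or, or_true]) (by simp only [e2, mem_insert, mem_singleton, true_or, or_true])
    · exact f8b_d2 k (by simp only [e2', mem_insert, mem_singleton, true_or, or_true]) (by simp only [e3', mem_insert, mem_singleton, or_true])
    · exact f8b_d2 k (by simp only [Tri.col_col, mem_insert, mem_singleton, true_or]) (by simp only [e3, mem_insert, mem_singleton, true_or, or_true])
  refine Fl.two_hex (p := p) (u := p.t.col (!k) r) (b := p.t.m r) (b' := w) card_le_six card_le_six d d'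
    ⟨by simp, f8b_both k (by simp) (by simp only [e3, mem_insert, mem_singleton, true_or, or_true])⟩ ⟨by simp only [mem_insert, mem_singleton, or_true], f8b_both k (by simp only [Tri.col_col, mem_insert, mem_singleton, true_or]) (by simp only [e3, mem_insert, mem_singleton, true_or, or_true])⟩
    (by grind) (by simp only [mem_insert, mem_singleton, true_or, or_true, and_self]) ?_
  simp only [mem_insert, mem_singleton, not_or]
  grind

lemma f8b_B (h1 : Th0 a (p.t.m r) k w) (h3 : Th0 a r (!k) (p.t.m w))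
    (h2 : Th0 a (p.t.col k r) (!k) w) : False := by
  have d := h.f8b_C h1 h3
  obtain ⟨u1, e1⟩ := h1
  obtain ⟨u3, e3⟩ := h3
  obtain ⟨u2, e2⟩ := h2
  rw [Bool.not_not] at e3 e2
  have e2' := f8b_flip e2
  have e3' := f8b_flip e3
  have nd := h.f8b_nd
  obtain ⟨x1, x2, x3, x4, x5, x6⟩ := h.f8b_X
  have n1 := a.f8b_U0X u1
  have n3 := a.f8b_U0X u3
  have n2 := a.f8b_U0X u2
  simp only [List.nodup_cons, List.mem_cons, List.not_mem_nil, not_or] at nd
  have d' : p.t.Deg2 {r, p.t.col k r, p.t.col (!k) (p.t.col k r), w, p.t.m w, p.t.col (!k) r} := by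
    intro v hv
    simp only [mem_insert, mem_singleton] at hv
    rcases hv with rfl | rfl | rfl | rfl | rfl | rfl
    · exact f8b_d2 k (by simp) (by simp)
    · exact f8b_d2 k (by simp) (by simp)
    · exact f8b_d2 k (by simp) (by simp [e2])
    · exact f8b_d1 k (by simp) (by simp [e2'])
    · exact f8b_d1 k (by simp [p.t.mm]) (by simp [e3'])
    · exact f8b_d2 k (by simp) (by simp [e3])
  have q1 : p.t.col k (p.t.m r) ≠ p.t.col (!k) (p.t.col k r) := fun e => by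
    rw [e, p.t.col_col] at e1
    exact nd.1.2.2.2.1 e1.symm
  have q2 : p.t.col k (p.t.m r) ≠ p.t.col (!k) r := fun e => by
    rw [e, p.t.col_col] at e1
    exact nd.1.2.1 e1.symm
  refine Fl.two_hex (p := p) (u := p.t.col (!k) r) (b := p.t.m r) (b' := p.t.col k (p.t.m r))
    card_le_six card_le_six d d'
    ⟨by simp, f8b_both k (by simp) (by simp only [e3, mem_insert, mem_singleton, true_or, or_true])⟩ ⟨by simp, f8b_both k (by simp) (by simp [e3])⟩
    (by grind) (by simp only [mem_insert, mem_singleton, true_or, or_true, and_self]) ?_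
  simp only [mem_insert, mem_singleton, not_or]
  grind

lemma f8b_face : p.op (some k) (p.t.m r) = p.op (some !k) r := by
  obtain ⟨u5, e5⟩ := h.inner
  obtain ⟨x1, x2, x3, x4, x5, x6⟩ := h.f8b_X
  have e5' := f8b_flip e5
  have d : p.t.Deg2 {p.t.m r, r, p.t.col k r, p.t.m (p.t.col k r),
      p.t.m (p.t.col (!k) (p.t.m r)), p.t.col (!k) (p.t.m r)} := by
    intro v hv
    simp only [mem_insert, mem_singleton] at hv
    rcases hv with rfl | rfl | rfl | rfl | rfl | rfl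
    · exact f8b_d1 (!k) (by simp only [p.t.mm, mem_insert, mem_singleton, true_or, or_true]) (by simp only [mem_insert, mem_singleton, or_true])
    · exact f8b_d1 k (by simp only [mem_insert, mem_singleton, true_or]) (by simp only [mem_insert, mem_singleton, true_or, or_true])
    · exact f8b_d1 k (by simp only [mem_insert, mem_singleton, true_or, or_true]) (by simp only [Tri.col_col, mem_insert, mem_singleton, true_or, or_true])
    · exact f8b_d1 (!k) (by simp only [p.t.mm, mem_insert, mem_singleton, true_or, or_true]) (by simp only [e5', mem_insert, mem_singleton, true_or, or_true])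
    · exact f8b_d1 (!k) (by simp only [p.t.mm, mem_insert, mem_singleton, or_true]) (by simp only [e5, mem_insert, mem_singleton, true_or, or_true])
    · exact f8b_d1 (!k) (by simp only [mem_insert, mem_singleton, true_or, or_true]) (by simp only [Tri.col_col, mem_insert, mem_singleton, true_or])
  have f := p.f6 card_le_six d (v := r) (k := some !k) (by simp only [mem_insert, mem_singleton, true_or, or_true]) fun j hj => by
    rcases f8b_three k j with rfl | rfl | rfl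
    exacts [by simp only [Tri.nb_none, mem_insert, mem_singleton, true_or], by simp only [Tri.nb_some, mem_insert, mem_singleton, true_or, or_true], absurd rfl hj]
  obtain ⟨j, hj, e⟩ := p.al_nb (p.al_op (k := some !k) (k' := none) (by simp) r)
  rcases f8b_three k j with rfl | rfl | rfl
  · exact absurd rfl hj
  · exact e
  exfalso
  have c := f (LB.Al.mem _ (φ := p.op (some !k) r) (v := p.t.m r) (k := some k)
    ⟨some !k, (f8b_nk k).symm, e⟩).2
  have nd := h.f8b_nd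
  simp only [List.nodup_cons, List.mem_cons, List.not_mem_nil, not_or] at nd
  have l : p.t.col k (p.t.m r) ∉ a.toCl.X := fun q => by
    have := (h.leg _ x4 k q).2
    grind
  simp only [Tri.nb_some, mem_insert, mem_singleton] at c
  rcases c with c | c | c | c | c | c
  · exact l (by rw [c]; exact x4)
  · exact l (by rw [c]; exact x3)
  · exact l (by rw [c]; exact x5)
  · exact l (by rw [c]; exact x6)
  · have p1 := a.f8b_o h.ten (a.toCl.P_of_X x4 k)
    have p2 := a.f8b_o h.ten (a.toCl.P_of_X x6 (!k))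
    rw [e5'] at p2
    rw [c] at p1
    exact a.f8b_one (a.toCl.m_U1 u5) p1 p2
  · exact f8b_nk k (p.t.nb_inj (k := some k) (k' := some !k) c)

/-- All four of type 1, crossed: `P -k- w`, `col k r -!k- w`, `r -!k- m w`, `Q -k- m w`.
`f6` for the hexagon `P, r, col k r, Q` + inner strand: the face `φ = op (some !k) r` has all its
corners there, so at `P` it is `op (some k) P` (the other face along `P r` has the corner `col k P`).
`sep` for the 8-cycle `C = P, strand, w, strand, col k r, r`: at `r` the leg has colour `!k`, so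
`val φ` differs from the value at `col (!k) r`; walk outside `C` along the strand to `m w`, the strand
to `Q`, the inner strand to `col (!k) P`; the face `op (some k) P` has this vertex as a corner. -/
lemma crossed (h1 : Th1 a (p.t.m r) k w) (h2 : Th1 a (p.t.col k r) (!k) w)
    (h3 : Th1 a r (!k) (p.t.m w)) (h4 : Th1 a (p.t.m (p.t.col k r)) k (p.t.m w)) : False := by
  have fc := h.f8b_face
  obtain ⟨u5, e5⟩ := h.inner
  obtain ⟨u1, e1⟩ := h1
  obtain ⟨u2, e2⟩ := h2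
  obtain ⟨u3, e3⟩ := h3
  obtain ⟨u4, e4⟩ := h4
  obtain ⟨x1, x2, x3, x4, x5, x6⟩ := h.f8b_X
  have nd := h.f8b_nd
  simp only [List.nodup_cons, List.mem_cons, List.not_mem_nil, not_or] at nd
  have oX : ∀ {v}, v ∈ a.toCl.X → ∀ c, (p.t.col c v, c) ∈ a.P := fun hv c =>
    a.f8b_o h.ten (a.toCl.P_of_X hv c)
  have e1' := f8b_flip e1
  have e2' := f8b_flip e2
  have e3' := f8b_flip e3
  have e4' := f8b_flip e4
  have e5' := f8b_flip e5
  have v1 := a.toCl.m_U1 u1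
  have v2 := a.toCl.m_U1 u2
  have p1 := oX x4 k
  have p1' := e1' ▸ oX x1 k
  have p2 := oX x5 (!k)
  have p2' := e2' ▸ oX x1 (!k)
  have s1 : p.t.col k (p.t.col k (p.t.m r)) = p.t.m r := p.t.col_col _ _
  have s2 : p.t.col (!k) (p.t.col (!k) (p.t.col k r)) = p.t.col k r := p.t.col_col _ _
  have sr : p.t.col k (p.t.col k r) = r := p.t.col_col _ _
  generalize ha1 : p.t.col k (p.t.m r) = a1 at *
  generalize ha2 : p.t.col (!k) (p.t.col k r) = a2 at *
  obtain ⟨C, hC⟩ : ∃ C : Finset V, ∀ v, v ∈ C ↔ v = p.t.m r ∨ v = a1 ∨ v = p.t.m a1 ∨ v = w ∨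
      v = p.t.m a2 ∨ v = a2 ∨ v = p.t.col k r ∨ v = r :=
    ⟨{p.t.m r, a1, p.t.m a1, w, p.t.m a2, a2, p.t.col k r, r}, by simp only [mem_insert, mem_singleton, implies_true]⟩
  have n1 : ∀ z, (z, !k) ∉ a.P → z ≠ a1 → z ≠ p.t.m a1 → z ∉ C := by
    intro z hz q1 q2 hc
    rcases (hC z).1 hc with rfl | rfl | rfl | rfl | rfl | rfl | rfl | rfl
    exacts [hz (a.toCl.P_of_X x4 _), q1 rfl, q2 rfl, hz (a.toCl.P_of_X x1 _), hz p2', hz p2,
      hz (a.toCl.P_of_X x5 _), hz (a.toCl.P_of_X x3 _)]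
  have n2 : ∀ z, (z, k) ∉ a.P → z ≠ a2 → z ≠ p.t.m a2 → z ∉ C := by
    intro z hz q1 q2 hc
    rcases (hC z).1 hc with rfl | rfl | rfl | rfl | rfl | rfl | rfl | rfl
    exacts [hz (a.toCl.P_of_X x4 _), hz p1, hz p1', hz (a.toCl.P_of_X x1 _), q2 rfl, q1 rfl,
      hz (a.toCl.P_of_X x5 _), hz (a.toCl.P_of_X x3 _)]
  have k1 : ∀ v ∈ a.toCl.X, p.t.col k v ∈ a.toCl.U1 → v ≠ p.t.m r → v ≠ w → p.t.col k v ∉ C :=
    fun v hv u q1 q2 => n1 _ (a.f8b_one u (oX hv k))
      (fun e => q1 ((f8b_flip e).symm.trans s1)) fun e => q2 ((f8b_flip e).symm.trans e1)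
  have k2 : ∀ v ∈ a.toCl.X, p.t.col (!k) v ∈ a.toCl.U1 → v ≠ p.t.col k r → v ≠ w →
      p.t.col (!k) v ∉ C :=
    fun v hv u q1 q2 => n2 _ (by simpa using a.f8b_one u (oX hv (!k)))
      (fun e => q1 ((f8b_flip e).symm.trans s2)) fun e => q2 ((f8b_flip e).symm.trans e2)
  have kX : ∀ v ∈ a.toCl.X, v ≠ p.t.m r → v ≠ w → v ≠ p.t.col k r → v ≠ r → v ∉ C := by
    intro v hv q1 q2 q3 q4 hc
    rcases (hC v).1 hc with rfl | rfl | rfl | rfl | rfl | rfl | rfl | rfl
    exacts [q1 rfl, a.f8b_U1X u1 hv, a.f8b_U1X v1 hv, q2 rfl, a.f8b_U1X v2 hv, a.f8b_U1X u2 hv,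
      q3 rfl, q4 rfl]
  have out : ∀ z c, (z, c) ∉ a.P → (p.t.col c z, c) ∉ a.P := fun z c hz q =>
    hz (by simpa using a.f8b_o h.ten q)
  have ne1 : ∀ c z, p.t.col c z ≠ z := fun c z => p.t.nb_ne (some c) z
  have ne2 : ∀ c z, p.t.col c z ≠ p.t.m z := fun c z e => by
    simpa using p.t.nb_inj (k := some c) (k' := none) e
  have c5 := k2 _ x4 u5 (by grind) (by grind)
  have c5' := k2 _ x6 (e5' ▸ a.toCl.m_U1 u5) (by grind) (by grind)
  have c3 := k2 _ x3 u3 (by grind) (by grind)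
  have c3' := k2 _ x2 (e3' ▸ a.toCl.m_U1 u3) (by grind) (by grind)
  have c4 := k1 _ x6 u4 (by grind) (by grind)
  have c4' := k1 _ x2 (e4' ▸ a.toCl.m_U1 u4) (by grind) (by grind)
  have cw := kX _ x2 (by grind) (by grind) (by grind) (by grind)
  have cQ := kX _ x6 (by grind) (by grind) (by grind) (by grind)
  obtain ⟨val, va, vb, vc⟩ := p.sep (C := C) fun v hv => by
    rcases (hC v).1 hv with rfl | rfl | rfl | rfl | rfl | rfl | rfl | rfl
    · exact f8b_mk k (by simp [hC, p.t.mm]) (by simp [hC, ha1]) c5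
    · exact f8b_mk k (by simp [hC]) (by simp [hC, s1])
        (n1 _ (out _ _ (a.f8b_one u1 p1)) (ne1 _ _) (ne2 _ _))
    · exact f8b_mk k (by simp [hC, p.t.mm]) (by simp [hC, e1])
        (n1 _ (out _ _ (a.f8b_one v1 p1')) (by simpa [p.t.mm] using ne2 (!k) (p.t.m a1)) (ne1 _ _))
    · exact f8b_kk k cw (by simp [hC, e1']) (by simp [hC, e2'])
    · exact f8b_mk (!k) (by simp [hC, p.t.mm]) (by simp [hC, e2]) (by
        simpa using n2 _ (out _ _ (by simpa using a.f8b_one v2 p2'))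
          (by simpa [p.t.mm] using ne2 k (p.t.m a2)) (ne1 _ _))
    · exact f8b_mk (!k) (by simp [hC]) (by simp [hC, s2]) (by
        simpa using n2 _ (out _ _ (by simpa using a.f8b_one u2 p2)) (ne1 _ _) (ne2 _ _))
    · exact f8b_kk k cQ (by simp [hC]) (by simp [hC, ha2])
    · exact f8b_mk k (by simp [hC]) (by simp [hC]) c3
  have b1 := vb r (by simp [hC]) (some !k) none c3 (by simp)
  obtain ⟨j, -, ej⟩ := p.al_nb (p.al_op (k := none) (k' := some !k) (by simp) r)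
  obtain ⟨j', -, ej'⟩ := p.al_nb (p.al_op (k := some k) (k' := some !k) (f8b_nk k) (p.t.m r))
  simp only [Tri.nb_some] at ej ej'
  rw [e3'] at c3'
  rw [e4'] at c4'
  rw [e5'] at c5'
  have w1 := vc _ none c3 c3'
  have w2 := vc _ (some !k) c3' (by simpa [e3] using cw)
  have w3 := vc _ none c4 c4'
  have w4 := vc _ (some k) c4' (by simpa [e4] using cw)
  have w5 := vc _ (some k) cQ c4
  have w6 := vc _ none c5 c5'
  have w7 := vc _ (some !k) c5' (by simpa [e5] using cQ)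
  simp only [Tri.nb_some, Tri.nb_none, e3, e4, e5] at w1 w2 w3 w4 w5 w6 w7
  refine b1 ?_
  rw [← fc, ← ej', ← ej, va _ c5 j' none, va _ c3 j none, w6, w7, w5, w3, w4, w1, w2]

/-- Use `outer` for `h` and `h.swap_r`. Two different legs of the path do not end at the same leg.
With `γ (v,c) = xor (β v) c` changing along every strand, the strands from `P` and `r` end at different
vertices of `{w, m w}`; by `swap_w` assume `P` is joined to `w`, `r` to `m w`; both have the same type.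
Case `Q` to `w`, `col k r` to `m w`: these two have the other type; if `P`, `r` have type 0 use
`two_hex` at `u = col (!k) r` for `C = {P, r, u, m w, w, col k P}`,
`C' = {r, col k r, strand, m w, u}`, `b = P`, `b' = w`; otherwise the same for `swap_r`.
Case `col k r` to `w`, `Q` to `m w`: all four have the same type; type 0: `two_hex` with the same `C`,
`C' = {r, col k r, col (!k) (col k r), w, m w, u}`, `b = P`, `b' = col k P`; type 1: `crossed`. -/
theorem elim : False := by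
  obtain ⟨x1, x2, x3, x4, x5, x6⟩ := h.f8b_X
  have bm : ∀ v ∈ a.toCl.X, a.ε (p.t.m v, false) ≠ a.ε (v, false) := fun v hv =>
    a.e1 v (a.toCl.mem_X.1 hv).1 false
  have bc : ∀ v ∈ a.toCl.X, ∀ c, a.ε (v, c) = a.ε (v, false) := fun v hv c => by
    cases c
    exacts [rfl, a.e0 v (a.toCl.mem_X.1 hv).2.1]
  have b1 := bm _ x1
  have b3 := bm _ x3
  have b5 := bm _ x5
  have b0 : a.ε (p.t.col k r, false) ≠ a.ε (r, false) := by
    rw [← bc _ x5 k, ← bc _ x3 k]
    exact a.e2 (r, k) (a.toCl.P_of_X x3 k) (by rw [(a.ten h.ten).1]; simp)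
  obtain ⟨s1, m1, t1⟩ := h.outer (Or.inl ⟨rfl, rfl⟩)
  obtain ⟨s3, m3, t3⟩ := h.outer (Or.inr ⟨rfl, rfl⟩)
  obtain ⟨s4, m4, t4⟩ := h.swap_r.outer (Or.inl ⟨rfl, rfl⟩)
  obtain ⟨s2, m2, t2⟩ := h.swap_r.outer (Or.inr ⟨rfl, rfl⟩)
  have n13 : s1 ≠ s3 := fun e => a.f8b_inj t1 (e ▸ t3) b3.symm
  have n42 : s4 ≠ s2 := fun e => a.f8b_inj t4 (e ▸ t2) b5.symm
  have hw := h.swap_w
  have hr := h.swap_r
  have hwr := hw.swap_r
  have A1 := h.f8b_A
  have A2 := hw.f8b_A
  have A3 := hr.f8b_A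
  have A4 := hwr.f8b_A
  have B1 := h.f8b_B
  have B2 := hw.f8b_B
  have C1 := h.crossed
  have C2 := hw.crossed
  simp only [p.t.mm, p.t.col_col] at A2 A3 A4 B2 C2
  have bn : ∀ {x y : Bool}, x ≠ y → x = !y := by decide
  replace b0 := bn b0
  replace b1 := bn b1
  replace b3 := bn b3
  replace b5 := bn b5
  rcases m1.imp_left Eq.symm with rfl | rfl <;> rcases m3.imp_left Eq.symm with rfl | rfl <;>
    rcases m4.imp_left Eq.symm with rfl | rfl <;> rcases m2.imp_left Eq.symm with rfl | rfl <;>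
    first | exact n13 rfl | exact n42 rfl | skip
  all_goals
    rcases t1 with ⟨t1, c1⟩ | ⟨t1, c1⟩ <;> rcases t3 with ⟨t3, c3⟩ | ⟨t3, c3⟩ <;>
    rcases t4 with ⟨t4, c4⟩ | ⟨t4, c4⟩ <;> rcases t2 with ⟨t2, c2⟩ | ⟨t2, c2⟩ <;>
    first
      | exact A1 t1 t3 t2 | exact A2 t1 t3 t2 | exact A3 t4 t2 t3 | exact A4 t4 t2 t3
      | exact B1 t1 t3 t2 | exact B2 t1 t3 t2 | exact C1 t1 t2 t3 t4 | exact C2 t1 t2 t3 t4
      | (revert c1 c2 c3 c4
         simp only [b0, b1, b3, b5]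
         generalize a.ε (r, false) = x, a.ε (w, false) = y
         revert x y
         decide)

end S46
end PR
end Pool.Agent.MP_8c1b0d_co.RR

set_option autoImplicit false
set_option linter.unusedSectionVars false
open Finset

namespace Pool.Agent.MP_8c1b0d_co.RR
namespace PR
open PL
variable {V Φ : Type} [Fintype V] [DecidableEq V] [Fintype Φ] [DecidableEq Φ] {p : PR V Φ}

lemma f9_strand (a : p.Fl) {S : Finset V} {d : V × Bool} (hd : d ∈ a.toCl.PH)
    (h1 : (p.t.o d).1 ∈ S) (h2 : (p.t.o (a.toCl.ρ d)).1 ∈ S) :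
    d.1 ∈ a.toCl.M0 S ∨ d.1 ∈ a.toCl.M1 S := by
  obtain ⟨u, c⟩ := d
  obtain ⟨hP, hX⟩ := a.toCl.mem_PH.1 hd
  by_cases h0 : u ∈ a.A0
  · left
    have n1 : u ∉ a.A1 := disjoint_left.1 a.disj h0
    have e : a.toCl.ρ (u, c) = (u, !c) := if_pos h0
    rw [e] at h2
    refine a.toCl.mem_M0.2 ⟨a.toCl.mem_U0.2 ⟨h0, ?_⟩, fun c' => ?_⟩
    · cases c
      · exact hP
      · exact (a.l0 u n1).1 hP
    · cases c <;> cases c'
      exacts [h1, h2, h2, h1]
  · right
    have e : a.toCl.ρ (u, c) = (p.t.m u, c) := if_neg h0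
    rw [e] at h2
    have m1 : u ∈ a.A1 := by
      by_contra n1
      exact hX (a.toCl.X_of_P hP h0 n1)
    have n2 : ¬ ((u, false) ∈ a.P ∧ (u, true) ∈ a.P) := fun k => by
      have := a.toCl.mem_U2.2 ⟨m1, k⟩
      rw [a.T1] at this
      exact notMem_empty _ this
    refine a.toCl.mem_M1.2 ⟨a.toCl.mem_U1.2 fun k => n2 ?_, fun c' hc' => ?_⟩
    · cases c
      · exact ⟨hP, k.1 hP⟩
      · exact ⟨k.2 hP, hP⟩
    · cases c <;> cases c'
      · exact ⟨h1, h2⟩
      · exact absurd ⟨hP, hc'⟩ n2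
      · exact absurd ⟨hc', hP⟩ n2
      · exact ⟨h1, h2⟩

lemma f9_part (a : p.Fl) {W : Finset V} (hW : W ⊆ a.toCl.X)
    (hcl : ∀ v ∈ W, ∀ k, p.t.nb k v ∈ a.toCl.X → p.t.nb k v ∈ W) (hne : W.Nonempty)
    (h4 : p.t.cut W ≤ 4) : False := by
  have ok := p.ok
  have f5 := a.five_X
  have big := a.big
  have c10 := a.cut_le
  have sp := p.t.cut_split hW hcl
  have mW : ∀ v ∈ W, p.t.m v ∈ W := fun v hv => hcl v hv none (a.toCl.m_X (hW hv))
  have cW : #a.toCl.Xᶜ ≤ #Wᶜ := card_le_card (compl_subset_compl.2 hW)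
  have w2 : #W ≤ 2 := by
    exact (ok.smallP (fun v k => a.X_free v (hW k)) h4).resolve_right (a.ne_P hW)
  obtain ⟨w, hw⟩ := hne
  have hWe : W = {w, p.t.m w} := by
    refine (eq_of_subset_of_card_le ?_ ?_).symm
    · intro v hv
      rcases mem_insert.1 hv with rfl | hv
      · exact hw
      · rw [mem_singleton.1 hv]
        exact mW w hw
    · rw [card_pair (p.t.m_ne w).symm]
      exact w2
  have w2' : #W = 2 := by rw [hWe, card_pair (p.t.m_ne w).symm]
  set X2 := a.toCl.X \ W with hX2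
  have cX2 : #X2 + #W = #a.toCl.X := card_sdiff_add_card_eq_card hW
  have sub2 : X2 ⊆ a.toCl.X := sdiff_subset
  have cX2' : #a.toCl.Xᶜ ≤ #X2ᶜ := card_le_card (compl_subset_compl.2 sub2)
  have m2 : ∀ v ∈ X2, p.t.m v ∈ X2 := fun v hv => by
    refine mem_sdiff.2 ⟨a.toCl.m_X (sub2 hv), fun k => (mem_sdiff.1 hv).2 ?_⟩
    have := mW _ k
    rwa [p.t.mm] at this
  have c5 := ok.c5P (fun v k => a.X_free v (sub2 k)) (a.ne_P sub2) (by omega)
  have ev := Nat.even_iff.1 (p.t.even_cut m2)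
  have ev' := Nat.even_iff.1 (p.t.even_card m2)
  have c4 := ok.four mW ⟨w, hw⟩ (card_pos.1 (by omega))
  have h10 : p.t.cut a.toCl.X = 10 := by omega
  by_cases h6 : #a.toCl.X = 6
  · obtain ⟨r, k, hS⟩ := a.exists_S46 h10 h6 (hW hw) fun c => by
      constructor
      · intro k
        have k' := hcl w hw (some c) k
        rw [hWe, mem_insert, mem_singleton] at k'
        rcases k' with k' | k'
        · exact p.t.nb_ne _ _ k'
        · exact absurd (p.t.nb_inj (k' := none) k') (by simp)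
      · intro k
        have k' := hcl _ (mW w hw) (some c) k
        rw [hWe, mem_insert, mem_singleton] at k'
        rcases k' with k' | k'
        · exact absurd (p.t.nb_inj (k' := none) (k'.trans (p.t.mm w).symm)) (by simp)
        · exact p.t.nb_ne _ _ k'
    exact hS.elim
  have n2 : X2.Nonempty := card_pos.1 (by omega)
  have n2' : X2ᶜ.Nonempty := card_pos.1 (by omega)
  have hb : p.Bond X2 := ⟨n2, n2', ok.con_of_cut m2 n2' (by omega), ok.con_of_cut
    (fun v hv => mem_compl.2 fun k => mem_compl.1 hv (by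
      have := m2 _ k
      rwa [p.t.mm] at this))
    (by rwa [compl_compl]) (by rw [p.t.cut_compl]; omega)⟩
  have tf := a.Tf hb sub2 m2 (by omega) (Or.inl (by omega))
  obtain ⟨-, p10, pX⟩ := a.ten h10
  set Bd := {d ∈ a.toCl.PH | (p.t.o d).1 ∈ W} with hBd
  have b4 : #Bd ≤ 4 := by
    have : #Bd ≤ #(W ×ˢ (univ : Finset Bool)) := by
      refine card_le_card_of_injOn p.t.o (fun d hd => ?_) fun d _ d' _ e => ?_
      · exact mem_coe.2 (mem_product.2 ⟨(mem_filter.1 (mem_coe.1 hd)).2, mem_univ _⟩)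
      · rw [← p.t.o_o d, e, p.t.o_o]
    rw [card_product, w2'] at this
    simpa using this
  obtain ⟨d, hd, hd'⟩ : ∃ d ∈ a.toCl.PH, d ∉ Bd ∪ Bd.image a.toCl.ρ := by
    by_contra hc
    push Not at hc
    have e1 := card_le_card (show a.toCl.PH ⊆ Bd ∪ Bd.image a.toCl.ρ from hc)
    have e2 := card_union_le Bd (Bd.image a.toCl.ρ)
    have e3 : #(Bd.image a.toCl.ρ) ≤ #Bd := card_image_le
    omega
  have d1 : (p.t.o d).1 ∈ X2 :=
    mem_sdiff.2 ⟨pX d hd, fun k => hd' (mem_union_left _ (mem_filter.2 ⟨hd, k⟩))⟩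
  have d2 : (p.t.o (a.toCl.ρ d)).1 ∈ X2 :=
    mem_sdiff.2 ⟨pX _ (a.toCl.ρ_PH hd), fun k => hd' (mem_union_right _
      (mem_image.2 ⟨_, mem_filter.2 ⟨a.toCl.ρ_PH hd, k⟩, a.toCl.ρ_ρ d⟩))⟩
  rcases f9_strand a hd d1 d2 with k | k
  · have := card_pos.2 ⟨_, k⟩
    omega
  · have := one_lt_card.2 ⟨_, a.toCl.m_M1 k, _, k, p.t.m_ne _⟩
    omega

/-- T3. Two `m`-closed parts of `X` with even cuts at least 4 and sum at most 10: one is `{w, m w}`
with cut 4, the other `X2` has at least 4 vertices, cut 6, and `ten` applies. `#X2 = 4`: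
`exists_S46`, `elim`. `6 ≤ #X2`: `X2` is a bond (`con_of_cut` for both sides); of the 10 elements of
`PH` at most 4 have `(o h).1 ∈ {w, m w}`, so some `h` and `ρ h` both end in `X2`, which gives an element
of `M0 X2` or two elements of `M1 X2`; `Tf` gives `13 ≤ 12`. -/
lemma Fl.T3 (a : p.Fl) : p.t.Con a.toCl.X (p.t.bd a.toCl.X) := by
  intro W hW hcl
  by_contra hc
  push Not at hc
  obtain ⟨hne, hne'⟩ := hc
  have cl1 : ∀ v ∈ W, ∀ k, p.t.nb k v ∈ a.toCl.X → p.t.nb k v ∈ W :=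
    fun v hv k hk => hcl v hv k fun b => (p.t.mem_bd.1 b).2 hk
  have cl2 : ∀ v ∈ a.toCl.X \ W, ∀ k, p.t.nb k v ∈ a.toCl.X → p.t.nb k v ∈ a.toCl.X \ W :=
    fun v hv k hk => mem_sdiff.2 ⟨hk, fun b => (mem_sdiff.1 hv).2 (by
      have := cl1 _ b k (by rw [p.t.nb_nb]; exact (mem_sdiff.1 hv).1)
      rwa [p.t.nb_nb] at this)⟩
  have n2 : (a.toCl.X \ W).Nonempty := sdiff_nonempty.2 fun k => hne' (Subset.antisymm hW k)
  have sp := p.t.cut_split hW cl1
  have c10 := a.cut_le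
  have e1 := Nat.even_iff.1 (p.t.even_cut fun v hv => cl1 v hv none (a.toCl.m_X (hW hv)))
  have e2 := Nat.even_iff.1
    (p.t.even_cut fun v hv => cl2 v hv none (a.toCl.m_X (sdiff_subset hv)))
  by_cases h4 : p.t.cut W ≤ 4
  · exact f9_part a hW cl1 hne h4
  · exact f9_part a sdiff_subset cl2 n2 (by omega)

/-- LEMMA T -/
theorem Fl.elim (a : p.Fl) : False := by
  have h := a.Tf (S := a.toCl.X) ⟨card_pos.1 (by have := a.big; omega),
    card_pos.1 (by have := a.five_X; omega), a.T3, a.T4⟩ Subset.rfl (fun v => a.toCl.m_X) a.big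
    (Or.inr rfl)
  have := a.many
  omega

end PR
end Pool.Agent.MP_8c1b0d_co.RR

end
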